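import Mathlib

/-!
Surface groups and non-separating simple closed curves.
-/

namespace Helper12.Sc

/-- The relator `[a_1, b_1] ... [a_g, b_g]` in the free group on the letters `a_i = (i, false)` and
`b_i = (i, true)`. -/
def surfaceRelator (g : ℕ) : FreeGroup (Fin g × Bool) :=
  (List.ofFn fun i : Fin g =>
    FreeGroup.of (i, false) * FreeGroup.of (i, true) * (FreeGroup.of (i, false))⁻¹ *
      (FreeGroup.of (i, true))⁻¹).prod

/-- The fundamental group of a closed oriented surface of genus `g`, in its standard
presentation. -/
abbrev SurfaceGroup (g : ℕ) : Type := PresentedGroup ({surfaceRelator g} : Set _)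

/-- The standard generator `a_i`. -/
def SurfaceGroup.a {g : ℕ} (i : Fin g) : SurfaceGroup g := PresentedGroup.of (i, false)

/-- The standard generator `b_i`. -/
def SurfaceGroup.b {g : ℕ} (i : Fin g) : SurfaceGroup g := PresentedGroup.of (i, true)

/-- The classes of the non-separating simple closed curves, with any orientation and any base
path: the images of the generators `a_i` under the automorphisms of the surface group. -/
def SurfaceGroup.IsNonseparatingSimple {g : ℕ} (x : SurfaceGroup g) : Prop :=
  ∃ (φ : SurfaceGroup g ≃* SurfaceGroup g) (i : Fin g), x = φ (SurfaceGroup.a i)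

end Helper12.Sc
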