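import Pool.Agent.Helper12.ScExt
import Pool.Agent.Helper12.ScSurface

/-!
Lists reachable by elementary moves from the list of images of the standard generators of a
surface group come from automorphisms of the surface group.
-/

namespace Helper12.Sc

open SurfaceGroup

theorem Step.lift {Γ Δ : Type*} [Group Γ] [Group Δ] (f : Γ →* Δ) {S : List (Γ × Γ)}
    {M M' : List (Δ × Δ)} (hM : S.map (Prod.map f f) = M) (h : Step M M') :
    ∃ S', Step S S' ∧ S'.map (Prod.map f f) = M' := by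
  cases h with
  | tw u v x y =>
    obtain ⟨s₁, t, rfl, rfl, h⟩ := List.map_eq_append_iff.1 hM
    obtain ⟨⟨x', y'⟩, s₂, rfl, hp, rfl⟩ := List.map_eq_cons_iff.1 h
    simp only [Prod.map_apply, Prod.mk.injEq] at hp
    obtain ⟨rfl, rfl⟩ := hp
    exact ⟨_, Step.tw s₁ s₂ x' y', by simp⟩
  | tw' u v x y =>
    obtain ⟨s₁, t, rfl, rfl, h⟩ := List.map_eq_append_iff.1 hM
    obtain ⟨⟨x', y'⟩, s₂, rfl, hp, rfl⟩ := List.map_eq_cons_iff.1 h
    simp only [Prod.map_apply, Prod.mk.injEq] at hp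
    obtain ⟨rfl, rfl⟩ := hp
    exact ⟨_, Step.tw' s₁ s₂ x' y', by simp⟩
  | rot u v x y =>
    obtain ⟨s₁, t, rfl, rfl, h⟩ := List.map_eq_append_iff.1 hM
    obtain ⟨⟨x', y'⟩, s₂, rfl, hp, rfl⟩ := List.map_eq_cons_iff.1 h
    simp only [Prod.map_apply, Prod.mk.injEq] at hp
    obtain ⟨rfl, rfl⟩ := hp
    exact ⟨_, Step.rot s₁ s₂ x' y', by simp⟩
  | rot' u v x y =>
    obtain ⟨s₁, t, rfl, rfl, h⟩ := List.map_eq_append_iff.1 hM
    obtain ⟨⟨x', y'⟩, s₂, rfl, hp, rfl⟩ := List.map_eq_cons_iff.1 h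
    simp only [Prod.map_apply, Prod.mk.injEq] at hp
    obtain ⟨rfl, rfl⟩ := hp
    exact ⟨_, Step.rot' s₁ s₂ x' y', by simp⟩
  | sl u v a b c d =>
    obtain ⟨s₁, t, rfl, rfl, h⟩ := List.map_eq_append_iff.1 hM
    obtain ⟨⟨a', b'⟩, t₂, rfl, hp, h⟩ := List.map_eq_cons_iff.1 h
    obtain ⟨⟨c', d'⟩, s₂, rfl, hq, rfl⟩ := List.map_eq_cons_iff.1 h
    simp only [Prod.map_apply, Prod.mk.injEq] at hp hq
    obtain ⟨rfl, rfl⟩ := hp
    obtain ⟨rfl, rfl⟩ := hq
    exact ⟨_, Step.sl s₁ s₂ a' b' c' d', by simp⟩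
  | sl' u v a b c d =>
    obtain ⟨s₁, t, rfl, rfl, h⟩ := List.map_eq_append_iff.1 hM
    obtain ⟨⟨a', b'⟩, t₂, rfl, hp, h⟩ := List.map_eq_cons_iff.1 h
    obtain ⟨⟨c', d'⟩, s₂, rfl, hq, rfl⟩ := List.map_eq_cons_iff.1 h
    simp only [Prod.map_apply, Prod.mk.injEq] at hp hq
    obtain ⟨rfl, rfl⟩ := hp
    obtain ⟨rfl, rfl⟩ := hq
    exact ⟨_, Step.sl' s₁ s₂ a' b' c' d', by simp⟩
  | br u v a b c d =>
    obtain ⟨s₁, t, rfl, rfl, h⟩ := List.map_eq_append_iff.1 hM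
    obtain ⟨⟨a', b'⟩, t₂, rfl, hp, h⟩ := List.map_eq_cons_iff.1 h
    obtain ⟨⟨c', d'⟩, s₂, rfl, hq, rfl⟩ := List.map_eq_cons_iff.1 h
    simp only [Prod.map_apply, Prod.mk.injEq] at hp hq
    obtain ⟨rfl, rfl⟩ := hp
    obtain ⟨rfl, rfl⟩ := hq
    exact ⟨_, Step.br s₁ s₂ a' b' c' d', by simp⟩
  | br' u v a b c d =>
    obtain ⟨s₁, t, rfl, rfl, h⟩ := List.map_eq_append_iff.1 hM
    obtain ⟨⟨a', b'⟩, t₂, rfl, hp, h⟩ := List.map_eq_cons_iff.1 h
    obtain ⟨⟨c', d'⟩, s₂, rfl, hq, rfl⟩ := List.map_eq_cons_iff.1 h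
    simp only [Prod.map_apply, Prod.mk.injEq] at hp hq
    obtain ⟨rfl, rfl⟩ := hp
    obtain ⟨rfl, rfl⟩ := hq
    exact ⟨_, Step.br' s₁ s₂ a' b' c' d', by simp⟩

/-- the standard list of generators -/
def std (g : ℕ) : List (SurfaceGroup g × SurfaceGroup g) :=
  List.ofFn fun i : Fin g => (a i, b i)

theorem std_length (g : ℕ) : (std g).length = g := by simp [std]

theorem comm_std (g : ℕ) : comm (std g) = 1 := by
  have h1 : PresentedGroup.mk {surfaceRelator g} (surfaceRelator g) = 1 :=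
    PresentedGroup.mk_eq_one_iff.2 (Subgroup.subset_normalClosure (Set.mem_singleton _))
  rw [← h1]
  unfold comm std surfaceRelator
  rw [map_list_prod, List.map_ofFn, List.map_ofFn]
  congr 1

/-- a list of the right length with trivial product of commutators defines a homomorphism -/
theorem exists_hom {g : ℕ} {Γ : Type*} [Group Γ] (L : List (Γ × Γ)) (hlen : L.length = g)
    (hcomm : comm L = 1) :
    ∃ ψ : SurfaceGroup g →* Γ, (std g).map (Prod.map ψ ψ) = L := by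
  subst hlen
  let f : Fin L.length × Bool → Γ := fun p => if p.2 then (L.get p.1).2 else (L.get p.1).1
  have hf : ∀ r ∈ ({surfaceRelator L.length} : Set (FreeGroup (Fin L.length × Bool))),
      FreeGroup.lift f r = 1 := by
    rintro r rfl
    rw [← hcomm]
    unfold comm surfaceRelator
    rw [map_list_prod, List.map_ofFn]
    congr 1
    have : L = List.ofFn L.get := (List.ofFn_get L).symm
    conv_rhs => rw [this, List.map_ofFn]
    congr 1
    funext i
    simp only [Function.comp, map_mul, map_inv, FreeGroup.lift_apply_of, f]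
    rfl
  refine ⟨PresentedGroup.toGroup hf, ?_⟩
  unfold std
  rw [List.map_ofFn]
  conv_rhs => rw [← List.ofFn_get L]
  congr 1
  funext i
  simp only [Function.comp, Prod.map_apply, a, b, PresentedGroup.toGroup.of, f]
  rfl

theorem hom_ext {g : ℕ} {Γ : Type*} [Group Γ] {ψ ψ' : SurfaceGroup g →* Γ}
    (h : (std g).map (Prod.map ψ ψ) = (std g).map (Prod.map ψ' ψ')) : ψ = ψ' := by
  unfold std at h
  rw [List.map_ofFn, List.map_ofFn] at h
  have h' := List.ofFn_injective h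
  apply PresentedGroup.ext
  rintro ⟨i, c⟩
  have hi := congrFun h' i
  simp only [Function.comp, Prod.map_apply, Prod.mk.injEq] at hi
  cases c
  · exact hi.1
  · exact hi.2

theorem closure_std (g : ℕ) : Subgroup.closure (entries (std g)) = ⊤ := by
  rw [eq_top_iff, ← PresentedGroup.closure_range_of {surfaceRelator g}, Subgroup.closure_le]
  rintro _ ⟨⟨i, c⟩, rfl⟩
  apply Subgroup.subset_closure
  refine ⟨(a i, b i), ?_, ?_⟩
  · unfold std
    rw [List.mem_ofFn]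
    exact ⟨i, rfl⟩
  · cases c
    · exact Or.inl rfl
    · exact Or.inr rfl

theorem inv_one {g : ℕ} {l₁ l₂ : List (SurfaceGroup g × SurfaceGroup g)}
    {x y u v u' v' : SurfaceGroup g} (hstd : std g = l₁ ++ (x, y) :: l₂)
    (hc : u' * v' * u'⁻¹ * v'⁻¹ = x * y * x⁻¹ * y⁻¹)
    (h : ∀ ψ : SurfaceGroup g →* SurfaceGroup g, ψ x = u' → ψ y = v' → ψ u = x ∧ ψ v = y) :
    ∃ ψ : SurfaceGroup g →* SurfaceGroup g,
      (l₁ ++ (u, v) :: l₂).map (Prod.map ψ ψ) = std g := by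
  obtain ⟨ψ, hψ⟩ := exists_hom (g := g) (l₁ ++ (u', v') :: l₂)
    (by
      have h0 := std_length g
      rw [hstd] at h0
      simpa using h0)
    (by
      rw [← comm_std g, hstd]
      unfold comm
      simp only [List.map_append, List.map_cons, List.prod_append, List.prod_cons, hc])
  refine ⟨ψ, ?_⟩
  rw [hstd, List.map_append, List.map_cons] at hψ
  obtain ⟨h1, h2⟩ := List.append_inj hψ (by simp)
  obtain ⟨h3, h4⟩ := List.cons_eq_cons.1 h2
  simp only [Prod.map_apply, Prod.mk.injEq] at h3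
  obtain ⟨h5, h6⟩ := h ψ h3.1 h3.2
  rw [List.map_append, List.map_cons, h1, h4, Prod.map_apply, h5, h6, hstd]

theorem inv_two {g : ℕ} {l₁ l₂ : List (SurfaceGroup g × SurfaceGroup g)}
    {x y z w x₁ y₁ z₁ w₁ x₂ y₂ z₂ w₂ : SurfaceGroup g}
    (hstd : std g = l₁ ++ (x, y) :: (z, w) :: l₂)
    (hc : x₂ * y₂ * x₂⁻¹ * y₂⁻¹ * (z₂ * w₂ * z₂⁻¹ * w₂⁻¹) =
      x * y * x⁻¹ * y⁻¹ * (z * w * z⁻¹ * w⁻¹))
    (h : ∀ ψ : SurfaceGroup g →* SurfaceGroup g, ψ x = x₂ → ψ y = y₂ → ψ z = z₂ → ψ w = w₂ →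
      (ψ x₁ = x ∧ ψ y₁ = y) ∧ ψ z₁ = z ∧ ψ w₁ = w) :
    ∃ ψ : SurfaceGroup g →* SurfaceGroup g,
      (l₁ ++ (x₁, y₁) :: (z₁, w₁) :: l₂).map (Prod.map ψ ψ) = std g := by
  obtain ⟨ψ, hψ⟩ := exists_hom (g := g) (l₁ ++ (x₂, y₂) :: (z₂, w₂) :: l₂)
    (by
      have h0 := std_length g
      rw [hstd] at h0
      simpa using h0)
    (by
      rw [← comm_std g, hstd]
      unfold comm
      simp only [List.map_append, List.map_cons, List.prod_append, List.prod_cons]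
      rw [← mul_assoc (x₂ * y₂ * x₂⁻¹ * y₂⁻¹), hc]
      simp only [mul_assoc])
  refine ⟨ψ, ?_⟩
  rw [hstd, List.map_append, List.map_cons, List.map_cons] at hψ
  obtain ⟨h1, h2⟩ := List.append_inj hψ (by simp)
  obtain ⟨h3, h4⟩ := List.cons_eq_cons.1 h2
  obtain ⟨h5, h6⟩ := List.cons_eq_cons.1 h4
  simp only [Prod.map_apply, Prod.mk.injEq] at h3 h5
  obtain ⟨⟨h7, h8⟩, h9, h10⟩ := h ψ h3.1 h3.2 h5.1 h5.2
  rw [List.map_append, List.map_cons, List.map_cons, h1, h6, Prod.map_apply, Prod.map_apply, h7, h8,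
    h9, h10, hstd]

theorem exists_left_inverse {g : ℕ} {S L : List (SurfaceGroup g × SurfaceGroup g)}
    (hS : std g = S) (h : Step S L) : ∃ ψ : SurfaceGroup g →* SurfaceGroup g,
      L.map (Prod.map ψ ψ) = std g := by
  cases h with
  | tw u v x y =>
    refine inv_one (u' := x) (v' := y * x⁻¹) hS (by group) ?_
    rintro ψ h1 h2
    refine ⟨h1, ?_⟩
    rw [map_mul, h1, h2]
    group
  | tw' u v x y =>
    refine inv_one (u' := x) (v' := y * x) hS (by group) ?_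
    rintro ψ h1 h2
    refine ⟨h1, ?_⟩
    rw [map_mul, map_inv, h1, h2]
    group
  | rot u v x y =>
    refine inv_one (u' := x * y * x⁻¹) (v' := x⁻¹) hS (by group) ?_
    rintro ψ h1 h2
    simp only [map_mul, map_inv, h1, h2]
    constructor <;> group
  | rot' u v x y =>
    refine inv_one (u' := y⁻¹) (v' := y * x * y⁻¹) hS (by group) ?_
    rintro ψ h1 h2
    simp only [map_mul, map_inv, h1, h2]
    constructor <;> group
  | sl u v a b c d =>
    refine inv_two (x₂ := a) (y₂ := c * d⁻¹ * c⁻¹ * b * a)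
      (z₂ := c * d⁻¹ * c⁻¹ * b * a * b⁻¹ * c * d) (w₂ := d) hS (by group) ?_
    rintro ψ h1 h2 h3 h4
    simp only [map_mul, map_inv, h1, h2, h3, h4]
    refine ⟨⟨trivial, ?_⟩, ?_, trivial⟩ <;> group
  | sl' u v a b c d =>
    refine inv_two (x₂ := a) (y₂ := b * a⁻¹ * b⁻¹ * c * d * c⁻¹ * b)
      (z₂ := b * a⁻¹ * b⁻¹ * c) (w₂ := d) hS (by group) ?_
    rintro ψ h1 h2 h3 h4
    simp only [map_mul, map_inv, h1, h2, h3, h4]
    refine ⟨⟨trivial, ?_⟩, ?_, trivial⟩ <;> group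
  | br u v a b c d =>
    refine inv_two (x₂ := c) (y₂ := d) (z₂ := (c * d * c⁻¹ * d⁻¹)⁻¹ * a * (c * d * c⁻¹ * d⁻¹))
      (w₂ := (c * d * c⁻¹ * d⁻¹)⁻¹ * b * (c * d * c⁻¹ * d⁻¹)) hS (by group) ?_
    rintro ψ h1 h2 h3 h4
    simp only [map_mul, map_inv, h1, h2, h3, h4]
    refine ⟨⟨?_, ?_⟩, ?_, ?_⟩ <;> first | trivial | group
  | br' u v a b c d =>
    refine inv_two (x₂ := a * b * a⁻¹ * b⁻¹ * c * (a * b * a⁻¹ * b⁻¹)⁻¹)
      (y₂ := a * b * a⁻¹ * b⁻¹ * d * (a * b * a⁻¹ * b⁻¹)⁻¹) (z₂ := a) (w₂ := b) hS (by group) ?_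
    rintro ψ h1 h2 h3 h4
    simp only [map_mul, map_inv, h1, h2, h3, h4]
    refine ⟨⟨?_, ?_⟩, ?_, ?_⟩ <;> first | trivial | group

theorem exists_surface_aut {g : ℕ} {L : List (SurfaceGroup g × SurfaceGroup g)} (h : Step (std g) L) :
    ∃ φ : SurfaceGroup g ≃* SurfaceGroup g, L = (std g).map (Prod.map φ φ) := by
  obtain ⟨ψ, hψ⟩ := exists_hom (g := g) L (by rw [h.length_eq, std_length])
    (by rw [h.comm_eq, comm_std])
  obtain ⟨ψ', hψ'⟩ := exists_left_inverse rfl h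
  have hinj : Function.Injective ψ := by
    have h1 : ψ'.comp ψ = MonoidHom.id _ := by
      apply hom_ext
      rw [← hψ, List.map_map] at hψ'
      rw [show (Prod.map (ψ'.comp ψ) (ψ'.comp ψ) : SurfaceGroup g × SurfaceGroup g → _) =
        Prod.map ψ' ψ' ∘ Prod.map ψ ψ from rfl, hψ']
      conv_lhs => rw [← List.map_id (std g)]
      rfl
    intro x y hxy
    have h2 := congrArg ψ' hxy
    have h3 := DFunLike.congr_fun h1 x
    have h4 := DFunLike.congr_fun h1 y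
    simp only [MonoidHom.comp_apply, MonoidHom.id_apply] at h3 h4
    rw [← h3, ← h4, h2]
  have hsurj : Function.Surjective ψ := by
    rw [← MonoidHom.range_eq_top, eq_top_iff, ← closure_std g,
      ← (Reach.of_step h).closure_eq, Subgroup.closure_le]
    rintro z ⟨p, hp, hz⟩
    rw [← hψ, List.mem_map] at hp
    obtain ⟨q, -, rfl⟩ := hp
    rcases hz with rfl | rfl
    · exact ⟨q.1, rfl⟩
    · exact ⟨q.2, rfl⟩
  exact ⟨MulEquiv.ofBijective ψ ⟨hinj, hsurj⟩, hψ.symm⟩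

/-- Reachable lists come from automorphisms of the surface group. -/
theorem reach_aut {g : ℕ} {Γ : Type*} [Group Γ] (ρ : SurfaceGroup g →* Γ) {L : List (Γ × Γ)}
    (h : Reach ((std g).map (Prod.map ρ ρ)) L) :
    ∃ φ : SurfaceGroup g ≃* SurfaceGroup g,
      L = (std g).map fun p => (ρ (φ p.1), ρ (φ p.2)) := by
  induction h with
  | refl => exact ⟨MulEquiv.refl _, rfl⟩
  | tail _ hs ih =>
    obtain ⟨φ, rfl⟩ := ih
    obtain ⟨S', hS', rfl⟩ := Step.lift ρ (S := (std g).map (Prod.map φ φ)) (by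
      rw [List.map_map]; rfl) hs
    have h1 := hS'.map (φ.symm : SurfaceGroup g →* SurfaceGroup g)
    have h2 : ((std g).map (Prod.map φ φ)).map
        (Prod.map (φ.symm : SurfaceGroup g →* SurfaceGroup g)
          (φ.symm : SurfaceGroup g →* SurfaceGroup g)) = std g := by
      rw [List.map_map]
      conv_rhs => rw [← List.map_id (std g)]
      congr 1
      funext p
      exact Prod.ext (φ.symm_apply_apply _) (φ.symm_apply_apply _)
    rw [h2] at h1
    obtain ⟨φ', hφ'⟩ := exists_surface_aut h1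
    refine ⟨φ'.trans φ, ?_⟩
    have h3 : S' = (std g).map (Prod.map (φ'.trans φ) (φ'.trans φ)) := by
      have h4 := congrArg (List.map (Prod.map φ φ)) hφ'
      rw [List.map_map, List.map_map] at h4
      have h5 : (Prod.map φ φ ∘ Prod.map (φ.symm : SurfaceGroup g →* SurfaceGroup g)
          (φ.symm : SurfaceGroup g →* SurfaceGroup g)) = id := by
        funext p
        exact Prod.ext (φ.apply_symm_apply _) (φ.apply_symm_apply _)
      rw [h5, List.map_id] at h4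
      exact h4
    rw [h3, List.map_map]
    rfl

end Helper12.Sc
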