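import Pool.Agent.Helper12.ScSpec

/-!
Degrees of the entries of the matrix `Emat`.
-/

namespace Helper12.Sc

open Polynomial Matrix Module

variable {A : Type*} [CommRing A] [Algebra ℂ A] {r : ℕ}

theorem one_mem_pow {E : Submodule ℂ A} (h : 1 ∈ E) (n : ℕ) : (1 : A) ∈ E ^ n := by
  have := Submodule.pow_mem_pow E h n
  rwa [one_pow] at this

theorem le_mul_right {M N : Submodule ℂ A} (h : 1 ∈ N) : M ≤ M * N := by
  intro x hx
  have := Submodule.mul_mem_mul hx h
  rwa [mul_one] at this

theorem pow_le_pow_of_one_mem {E : Submodule ℂ A} (h : 1 ∈ E) {m n : ℕ} (hmn : m ≤ n) :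
    E ^ m ≤ E ^ n := by
  obtain ⟨k, rfl⟩ := Nat.exists_eq_add_of_le hmn
  rw [pow_add]
  exact le_mul_right (one_mem_pow h k)

/-- polynomials whose coefficients lie in `M * E ^ n` in degree `n`, and of degree at most `d` -/
structure InPol (M E : Submodule ℂ A) (d : ℕ) (p : A[X]) : Prop where
  coeff : ∀ n, p.coeff n ∈ M * E ^ n
  deg : p.natDegree ≤ d

theorem InPol.add {M E : Submodule ℂ A} {d : ℕ} {p q : A[X]} (hp : InPol M E d p)
    (hq : InPol M E d q) : InPol M E d (p + q) := by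
  refine ⟨fun n => ?_, ?_⟩
  · rw [coeff_add]
    exact Submodule.add_mem _ (hp.coeff n) (hq.coeff n)
  · exact natDegree_add_le_of_degree_le hp.deg hq.deg

theorem InPol.zero (M E : Submodule ℂ A) (d : ℕ) : InPol M E d (0 : A[X]) := by
  refine ⟨fun n => ?_, ?_⟩
  · rw [coeff_zero]
    exact Submodule.zero_mem _
  · simp

theorem InPol.sum {M E : Submodule ℂ A} {d : ℕ} {ι : Type*} (s : Finset ι) (f : ι → A[X])
    (h : ∀ i ∈ s, InPol M E d (f i)) : InPol M E d (∑ i ∈ s, f i) := by
  classical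
  induction s using Finset.induction_on with
  | empty => exact InPol.zero M E d
  | insert a s ha ih =>
    rw [Finset.sum_insert ha]
    exact (h a (Finset.mem_insert_self _ _)).add
      (ih fun i hi => h i (Finset.mem_insert_of_mem hi))

theorem InPol.neg {M E : Submodule ℂ A} {d : ℕ} {p : A[X]} (hp : InPol M E d p) :
    InPol M E d (-p) := by
  refine ⟨fun n => ?_, ?_⟩
  · rw [coeff_neg]
    exact Submodule.neg_mem _ (hp.coeff n)
  · rw [natDegree_neg]
    exact hp.deg

theorem InPol.mul {M M' E : Submodule ℂ A} {d d' : ℕ} {p q : A[X]} (hp : InPol M E d p)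
    (hq : InPol M' E d' q) : InPol (M * M') E (d + d') (p * q) := by
  refine ⟨fun n => ?_, ?_⟩
  · rw [Polynomial.coeff_mul]
    refine Submodule.sum_mem _ fun x hx => ?_
    rw [Finset.HasAntidiagonal.mem_antidiagonal] at hx
    have h1 := Submodule.mul_mem_mul (hp.coeff x.1) (hq.coeff x.2)
    have h2 : M * E ^ x.1 * (M' * E ^ x.2) = M * M' * E ^ n := by
      rw [← hx, pow_add]
      simp only [mul_assoc, mul_comm, mul_left_comm]
    rwa [h2] at h1
  · exact natDegree_mul_le_of_le hp.deg hq.deg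

theorem InPol.one {M E : Submodule ℂ A} (hM : 1 ∈ M) : InPol M E 0 (1 : A[X]) := by
  refine ⟨fun n => ?_, ?_⟩
  · rw [coeff_one]
    split_ifs with h
    · subst h
      rw [pow_zero, mul_one]
      exact hM
    · exact Submodule.zero_mem _
  · simp

theorem InPol.mono {M M' E : Submodule ℂ A} {d d' : ℕ} (hM : M ≤ M') (hd : d ≤ d') {p : A[X]}
    (hp : InPol M E d p) : InPol M' E d' p := by
  refine ⟨fun n => ?_, hp.deg.trans hd⟩
  exact (mul_le_mul' hM le_rfl : M * E ^ n ≤ M' * E ^ n) (hp.coeff n)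

theorem InPol.prod {M E : Submodule ℂ A} {d : ℕ} {ι : Type*} (s : Finset ι)
    (f : ι → A[X]) (h : ∀ i ∈ s, InPol M E d (f i)) :
    InPol (M ^ s.card) E (s.card * d) (∏ i ∈ s, f i) := by
  classical
  induction s using Finset.induction_on with
  | empty =>
    rw [Finset.card_empty, Finset.prod_empty, pow_zero, zero_mul]
    exact InPol.one (Submodule.one_le.1 le_rfl)
  | insert a s ha ih =>
    rw [Finset.prod_insert ha, Finset.card_insert_of_notMem ha]
    have h1 := (h a (Finset.mem_insert_self _ _)).mul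
      (ih fun i hi => h i (Finset.mem_insert_of_mem hi))
    refine h1.mono ?_ ?_
    · rw [pow_succ']
    · rw [add_mul, one_mul, add_comm]

theorem InPol.det {M E : Submodule ℂ A} {d : ℕ} (B : Matrix (Fin r) (Fin r) A[X])
    (h : ∀ i j, InPol M E d (B i j)) : InPol (M ^ r) E (r * d) B.det := by
  rw [Matrix.det_apply]
  refine InPol.sum _ _ fun τ _ => ?_
  have h1 := InPol.prod (M := M) (E := E) (d := d) Finset.univ (fun i => B (τ i) i)
    (fun i _ => h _ _)
  rw [Finset.card_univ, Fintype.card_fin] at h1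
  rcases Int.units_eq_one_or (Equiv.Perm.sign τ) with h2 | h2
  · rw [h2, one_smul]
    exact h1
  · rw [h2, Units.neg_smul, one_smul]
    exact h1.neg

theorem InPol.C_mul_X_pow {M E : Submodule ℂ A} {d k : ℕ} (hk : k ≤ d) {a : A}
    (ha : a ∈ M * E ^ k) : InPol M E d (C a * X ^ k) := by
  refine ⟨fun n => ?_, ?_⟩
  · rw [coeff_C_mul_X_pow]
    split_ifs with h
    · subst h
      exact ha
    · exact Submodule.zero_mem _
  · exact (natDegree_C_mul_X_pow_le a k).trans hk

/-- the coefficients of the characteristic polynomial -/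
theorem charpoly_coeff_mem {E : Submodule ℂ A} (h1 : 1 ∈ E) (W : Matrix (Fin r) (Fin r) A)
    (hW : ∀ i j, W i j ∈ E) (n : ℕ) : W.charpoly.coeff n ∈ E ^ r := by
  have h := InPol.det (M := E) (E := 1) (d := 1) (charmatrix W) (by
    intro i j
    rw [charmatrix_apply]
    rcases eq_or_ne i j with rfl | hij
    · rw [Matrix.diagonal_apply_eq, sub_eq_add_neg]
      refine InPol.add ?_ (InPol.neg ?_)
      · have := InPol.C_mul_X_pow (M := E) (E := (1 : Submodule ℂ A)) (d := 1) (k := 1) le_rfl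
          (a := 1) (by rw [one_pow, mul_one]; exact h1)
        simpa using this
      · have := InPol.C_mul_X_pow (M := E) (E := (1 : Submodule ℂ A)) (d := 1) (k := 0)
          (by norm_num) (a := W i i) (by rw [one_pow, mul_one]; exact hW _ _)
        simpa using this
    · rw [Matrix.diagonal_apply_ne _ hij, zero_sub]
      refine InPol.neg ?_
      have := InPol.C_mul_X_pow (M := E) (E := (1 : Submodule ℂ A)) (d := 1) (k := 0)
        (by norm_num) (a := W i j) (by rw [one_pow, mul_one]; exact hW _ _)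
      simpa using this)
  have h2 := h.coeff n
  rw [one_pow, mul_one] at h2
  exact h2

theorem pow_entries_mem {E : Submodule ℂ A} (V : Matrix (Fin r) (Fin r) A)
    (hV : ∀ i j, V i j ∈ E) (k : ℕ) (i j : Fin r) : (V ^ k) i j ∈ E ^ k := by
  induction k generalizing i j with
  | zero =>
    rw [pow_zero, pow_zero, Matrix.one_apply]
    split_ifs
    · exact Submodule.one_le.1 le_rfl
    · exact Submodule.zero_mem _
  | succ k ih =>
    rw [pow_succ, pow_succ, Matrix.mul_apply]
    exact Submodule.sum_mem _ fun l _ => Submodule.mul_mem_mul (ih i l) (hV l j)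

theorem Spoly_mem {E₁ E₂ : Submodule ℂ A} (h2 : 1 ∈ E₂)
    (V W : Matrix (Fin r) (Fin r) A) (hV : ∀ i j, V i j ∈ E₁) (hW : ∀ i j, W i j ∈ E₂) :
    InPol (E₂ ^ (r ^ 2)) E₁ (r ^ 2) (Spoly V W) := by
  have key : ∀ i j, InPol (E₂ ^ r) E₁ r
      ((aeval ((X : A[X]) • V.map C) W.charpoly : Matrix (Fin r) (Fin r) A[X]) i j) := by
    intro i j
    have hdeg : W.charpoly.natDegree ≤ r := by
      by_cases hA : Nontrivial A
      · rw [Matrix.charpoly_natDegree_eq_dim, Fintype.card_fin]
      · rw [not_nontrivial_iff_subsingleton] at hA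
        have : W.charpoly = 0 := Subsingleton.elim _ _
        rw [this]
        simp
    rw [aeval_eq_sum_range' (Nat.lt_succ_of_le hdeg), Matrix.sum_apply]
    refine InPol.sum _ _ fun k hk => ?_
    have hk' : k ≤ r := Nat.lt_succ_iff.1 (Finset.mem_range.1 hk)
    have e1 : (W.charpoly.coeff k • ((X : A[X]) • V.map C) ^ k) i j =
        C (W.charpoly.coeff k * (V ^ k) i j) * X ^ k := by
      have e2 : (V.map C) ^ k = ((V ^ k).map C : Matrix (Fin r) (Fin r) A[X]) := by
        have := map_pow (C.mapMatrix (m := Fin r)) V k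
        exact this.symm
      rw [Matrix.smul_apply, _root_.smul_pow, e2, Matrix.smul_apply, Matrix.map_apply, smul_eq_mul,
        Algebra.smul_def, Polynomial.algebraMap_eq, C_mul]
      ring
    rw [e1]
    exact InPol.C_mul_X_pow hk'
      (Submodule.mul_mem_mul (charpoly_coeff_mem h2 W hW k) (pow_entries_mem V hV k i j))
  have h := InPol.det _ key
  unfold Spoly
  refine h.mono ?_ ?_
  · rw [← pow_mul, sq]
  · rw [sq]

theorem Emat_mem (E₀ E₁ E₂ : Submodule ℂ A) (h0 : 1 ∈ E₀) (h1 : 1 ∈ E₁) (h2 : 1 ∈ E₂)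
    (U V W : Matrix (Fin r) (Fin r) A) (hU : ∀ i j, U i j ∈ E₀) (hV : ∀ i j, V i j ∈ E₁)
    (hW : ∀ i j, W i j ∈ E₂) (i j : Fin r) :
    Emat U V W i j ∈ E₀ ^ (4 * r ^ 2) * E₁ ^ (r ^ 2) * E₂ ^ (r ^ 2) := by
  have hS := Spoly_mem h2 V W hV hW
  unfold Emat
  rw [aeval_eq_sum_range' (Nat.lt_succ_of_le hS.deg), Matrix.sum_apply]
  refine Submodule.sum_mem _ fun k hk => ?_
  have hk' : k ≤ r ^ 2 := Nat.lt_succ_iff.1 (Finset.mem_range.1 hk)
  rw [Matrix.smul_apply, smul_eq_mul, ← pow_mul]
  have h3 := Submodule.mul_mem_mul (hS.coeff k) (pow_entries_mem U hU (4 * k) i j)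
  have h4 : E₂ ^ (r ^ 2) * E₁ ^ k * E₀ ^ (4 * k) ≤
      E₂ ^ (r ^ 2) * E₁ ^ (r ^ 2) * E₀ ^ (4 * r ^ 2) := by
    apply mul_le_mul' (mul_le_mul' le_rfl (pow_le_pow_of_one_mem h1 hk'))
    exact pow_le_pow_of_one_mem h0 (Nat.mul_le_mul_left 4 hk')
  have h5 := h4 h3
  have h6 : E₂ ^ (r ^ 2) * E₁ ^ (r ^ 2) * E₀ ^ (4 * r ^ 2) =
      E₀ ^ (4 * r ^ 2) * E₁ ^ (r ^ 2) * E₂ ^ (r ^ 2) := by
    simp only [mul_assoc, mul_comm, mul_left_comm]
  rw [h6] at h5
  exact h5

theorem finrank_mul_le (M N : Submodule ℂ A) [FiniteDimensional ℂ M] [FiniteDimensional ℂ N] :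
    finrank ℂ (M * N : Submodule ℂ A) ≤ finrank ℂ M * finrank ℂ N := by
  rw [← Submodule.mulMap_range, ← Module.finrank_tensorProduct]
  exact LinearMap.finrank_range_le _

theorem span_pow_le {κ : Type*} (f : κ → A) (d : ℕ) :
    (Submodule.span ℂ (Set.range f)) ^ d ≤
      Submodule.span ℂ (Set.range fun m : Sym κ d => ((m : Multiset κ).map f).prod) := by
  induction d with
  | zero =>
    rw [pow_zero, Submodule.one_le]
    apply Submodule.subset_span
    exact ⟨Sym.nil, by simp⟩
  | succ d ih =>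
    rw [pow_succ]
    refine (mul_le_mul' ih le_rfl).trans ?_
    rw [Submodule.span_mul_span, Submodule.span_le]
    rintro _ ⟨_, ⟨m, rfl⟩, _, ⟨k, rfl⟩, rfl⟩
    apply Submodule.subset_span
    refine ⟨k ::ₛ m, ?_⟩
    have h1 : ((k ::ₛ m : Sym κ (d + 1)) : Multiset κ) = k ::ₘ (m : Multiset κ) := rfl
    simp only [h1, Multiset.map_cons, Multiset.prod_cons, mul_comm]

theorem finrank_pow_le {ι : Type*} [Fintype ι] (e : ι → A) (d : ℕ) :
    finrank ℂ (((Submodule.span ℂ (insert 1 (Set.range e))) ^ d : Submodule ℂ A)) ≤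
      2 ^ (Fintype.card ι + d) := by
  classical
  let f : Option ι → A := fun o => o.elim 1 e
  have hf : insert 1 (Set.range e) = Set.range f := by
    ext x
    constructor
    · rintro (rfl | ⟨i, rfl⟩)
      · exact ⟨none, rfl⟩
      · exact ⟨some i, rfl⟩
    · rintro ⟨o, rfl⟩
      cases o with
      | none => exact Or.inl rfl
      | some i => exact Or.inr ⟨i, rfl⟩
  rw [hf]
  have hfin : FiniteDimensional ℂ
      (Submodule.span ℂ (Set.range fun m : Sym (Option ι) d => ((m : Multiset (Option ι)).map f).prod)) :=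
    FiniteDimensional.span_of_finite ℂ (Set.finite_range _)
  refine (Submodule.finrank_mono (span_pow_le f d)).trans ?_
  refine (finrank_range_le_card _).trans ?_
  rw [Sym.card_sym_eq_multichoose, Nat.multichoose_eq, Fintype.card_option]
  have h1 : Fintype.card ι + 1 + d - 1 = Fintype.card ι + d := by omega
  rw [h1]
  exact Nat.choose_le_two_pow _ _

end Helper12.Sc
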