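import Pool.Agent.Helper12.ScGreedy
import Pool.Agent.Helper12.ScDeg

/-!
Explicit version of the escape theorem.
-/

namespace Helper12.Sc

open Polynomial Matrix Module Pointwise

variable {r : ℕ}

/-- coordinates of `σ g` -/
def crd (σ : RingAut ℂ) (k : Fin r × Fin r) (g : GL (Fin r) ℂ) : ℂ :=
  σ ((g : Matrix (Fin r) (Fin r) ℂ) k.1 k.2)

/-- functions of degree at most `d` in the entries of `σ g` -/
def crdSpace (r : ℕ) (σ : RingAut ℂ) (d : ℕ) : Submodule ℂ (GL (Fin r) ℂ → ℂ) :=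
  space (crd (r := r) σ) d

theorem rtr_crd (σ : RingAut ℂ) (y : GL (Fin r) ℂ) (k : Fin r × Fin r) :
    rtr y (crd σ k) ∈ Submodule.span ℂ (insert 1 (Set.range (crd (r := r) σ))) := by
  obtain ⟨i, j⟩ := k
  have hmem : ∀ k', crd σ k' ∈
      Submodule.span ℂ (insert 1 (Set.range (crd (r := r) σ))) := fun k' =>
    Submodule.subset_span (Set.mem_insert_of_mem _ ⟨k', rfl⟩)
  have : rtr y (crd σ (i, j)) =
      ∑ l, σ ((y : Matrix (Fin r) (Fin r) ℂ) l j) • crd σ (i, l) := by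
    funext g
    rw [rtr_apply, Finset.sum_apply]
    unfold crd
    rw [Units.val_mul, Matrix.mul_apply, map_sum]
    refine Finset.sum_congr rfl fun l _ => ?_
    rw [Pi.smul_apply, smul_eq_mul, mul_comm, map_mul, mul_comm]
  rw [this]
  exact Submodule.sum_mem _ fun l _ => Submodule.smul_mem _ _ (hmem _)

theorem rtr_crdSpace (σ : RingAut ℂ) (d : ℕ) (y : GL (Fin r) ℂ) :
    (crdSpace r σ d).map (rtr y).toLinearMap ≤ crdSpace r σ d := by
  rw [Submodule.map_le_iff_le_comap]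
  intro F hF
  exact rtr_mem_space _ y (rtr_crd σ y) d F hF

/-- the function space used in the escape theorem -/
def bigSpace (r : ℕ) (σ σ' : RingAut ℂ) : Submodule ℂ (GL (Fin r) ℂ → ℂ) :=
  crdSpace r 1 (4 * r ^ 2) * crdSpace r σ (r ^ 2) * crdSpace r σ' (r ^ 2)

theorem rtr_bigSpace (σ σ' : RingAut ℂ) (y : GL (Fin r) ℂ) :
    ∀ F ∈ bigSpace r σ σ', rtr y F ∈ bigSpace r σ σ' := by
  have h1 : (bigSpace r σ σ').map (rtr y).toLinearMap ≤ bigSpace r σ σ' := by
    unfold bigSpace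
    rw [Submodule.map_mul, Submodule.map_mul]
    exact mul_le_mul' (mul_le_mul' (rtr_crdSpace _ _ _) (rtr_crdSpace _ _ _))
      (rtr_crdSpace _ _ _)
  intro F hF
  exact h1 (Submodule.mem_map_of_mem hF)

instance crdSpace_fd (σ : RingAut ℂ) (d : ℕ) : FiniteDimensional ℂ (crdSpace r σ d) :=
  finite_space _ _

instance bigSpace_fd (σ σ' : RingAut ℂ) : FiniteDimensional ℂ (bigSpace r σ σ') := by
  have h1 : (crdSpace r 1 (4 * r ^ 2)).FG := Module.Finite.iff_fg.1 (crdSpace_fd _ _)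
  have h2 : (crdSpace r σ (r ^ 2)).FG := Module.Finite.iff_fg.1 (crdSpace_fd _ _)
  have h3 : (crdSpace r σ' (r ^ 2)).FG := Module.Finite.iff_fg.1 (crdSpace_fd _ _)
  exact Module.Finite.iff_fg.2 ((h1.mul h2).mul h3)

theorem finrank_bigSpace (σ σ' : RingAut ℂ) : finrank ℂ (bigSpace r σ σ') ≤ 2 ^ (9 * r ^ 2) := by
  have hc : Fintype.card (Fin r × Fin r) = r ^ 2 := by simp [sq]
  have h1 := finrank_pow_le (crd (r := r) 1) (4 * r ^ 2)
  have h2 := finrank_pow_le (crd (r := r) σ) (r ^ 2)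
  have h3 := finrank_pow_le (crd (r := r) σ') (r ^ 2)
  rw [hc] at h1 h2 h3
  have h12 : FiniteDimensional ℂ
      (crdSpace r 1 (4 * r ^ 2) * crdSpace r σ (r ^ 2) : Submodule ℂ (GL (Fin r) ℂ → ℂ)) :=
    Module.Finite.iff_fg.2 ((Module.Finite.iff_fg.1 (crdSpace_fd _ _)).mul
      (Module.Finite.iff_fg.1 (crdSpace_fd _ _)))
  have h4 : finrank ℂ (bigSpace r σ σ') ≤ _ :=
    finrank_mul_le (crdSpace r 1 (4 * r ^ 2) * crdSpace r σ (r ^ 2))
      (crdSpace r σ' (r ^ 2))
  have h5 := finrank_mul_le (crdSpace r 1 (4 * r ^ 2)) (crdSpace r σ (r ^ 2))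
  refine h4.trans ((Nat.mul_le_mul (h5.trans (Nat.mul_le_mul h1 h2)) h3).trans ?_)
  rw [← pow_add, ← pow_add]
  apply Nat.pow_le_pow_right (by norm_num)
  ring_nf
  exact le_refl _

/-- the generic matrix with entries the coordinate functions -/
def gmat (r : ℕ) (σ : RingAut ℂ) : Matrix (Fin r) (Fin r) (GL (Fin r) ℂ → ℂ) :=
  fun i j => crd σ (i, j)

theorem gmat_map (σ : RingAut ℂ) (g : GL (Fin r) ℂ) :
    (gmat r σ).map (Pi.evalRingHom (fun _ : GL (Fin r) ℂ => ℂ) g) =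
      (g : Matrix (Fin r) (Fin r) ℂ).map σ := by
  ext i j
  rfl

theorem Emat_gmat (σ σ' : RingAut ℂ) (g : GL (Fin r) ℂ) (i j : Fin r) :
    Emat (gmat r 1) (gmat r σ) (gmat r σ') i j g =
      Emat (g : Matrix (Fin r) (Fin r) ℂ) ((g : Matrix (Fin r) (Fin r) ℂ).map σ)
        ((g : Matrix (Fin r) (Fin r) ℂ).map σ') i j := by
  have h1 := Emat_map (Pi.evalRingHom (fun _ : GL (Fin r) ℂ => ℂ) g) (gmat r 1) (gmat r σ)
    (gmat r σ')
  rw [gmat_map, gmat_map, gmat_map] at h1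
  have h2 : ((g : Matrix (Fin r) (Fin r) ℂ).map (1 : RingAut ℂ)) =
      (g : Matrix (Fin r) (Fin r) ℂ) := by
    ext i j
    rfl
  rw [h2] at h1
  rw [h1, Matrix.map_apply]
  rfl

theorem Emat_gmat_mem (σ σ' : RingAut ℂ) (i j : Fin r) :
    Emat (gmat r 1) (gmat r σ) (gmat r σ') i j ∈ bigSpace r σ σ' := by
  unfold bigSpace crdSpace space
  exact Emat_mem _ _ _ (one_mem_span _) (one_mem_span _) (one_mem_span _) _ _ _
    (fun i j => Submodule.subset_span (Set.mem_insert_of_mem _ ⟨(i, j), rfl⟩))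
    (fun i j => Submodule.subset_span (Set.mem_insert_of_mem _ ⟨(i, j), rfl⟩))
    (fun i j => Submodule.subset_span (Set.mem_insert_of_mem _ ⟨(i, j), rfl⟩)) i j

/-- After removing at most `2 ^ (9 r ^ 2)` handles, all eigenvalues of the group generated by the
remaining ones are roots of unity. -/
theorem escape_explicit (r : ℕ) (L : List (GL (Fin r) ℂ × GL (Fin r) ℂ))
    (htor : ∀ x y, Ext L [(x, y)] → IsOfFinOrder x) :
    ∃ C U : List (GL (Fin r) ℂ × GL (Fin r) ℂ), Reach L (C ++ U) ∧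
      L.length ≤ U.length + 2 ^ (9 * r ^ 2) ∧
      ∀ g ∈ Subgroup.closure (entries U), ∀ z : ℂ,
        (g : Matrix (Fin r) (Fin r) ℂ).charpoly.IsRoot z → ∃ n > 0, z ^ n = 1 := by
  have hLfg : (Subgroup.closure (entries L)).FG := by
    rw [Subgroup.fg_iff]
    exact ⟨entries L, rfl, entries_finite L⟩
  obtain ⟨N, hN, hN'⟩ := torsion_exponent _ hLfg
  obtain ⟨σ, σ', hσ, horb⟩ := exists_auts N hN
  obtain ⟨C, U, hreach, hlen, hprop⟩ := greedy (bigSpace r σ σ') (rtr_bigSpace σ σ') L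
  refine ⟨C, U, hreach, hlen.trans (Nat.add_le_add_left (finrank_bigSpace σ σ') _), ?_⟩
  intro g hg z hz
  apply root_of_unity_of_Emat σ σ' horb (g : Matrix (Fin r) (Fin r) ℂ) ?_ ?_ z hz
  · have : IsUnit (g : Matrix (Fin r) (Fin r) ℂ) := g.isUnit
    exact ((Matrix.isUnit_iff_isUnit_det _).1 this).ne_zero
  · ext i j
    rw [← Emat_gmat σ σ' g i j, Matrix.zero_apply]
    apply hprop _ _ g hg
    refine ⟨Emat_gmat_mem σ σ' i j, ?_⟩
    intro p hp
    rw [Emat_gmat]
    have hpm : p ∈ Subgroup.closure (entries L) ∧ IsOfFinOrder p := by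
      rcases Ext.prods (C.map fun p => [p]) p (firsts_subset C hp) with rfl | ⟨y, hy⟩
      · exact ⟨Subgroup.one_mem _, IsOfFinOrder.one⟩
      · have hflat : (C.map fun p => [p]).flatten = C := by
          induction C with
          | nil => rfl
          | cons q C _ => simp [List.flatten_cons, ← List.flatMap_def]
        rw [hflat] at hy
        have h1 : Ext L [(p, y)] :=
          ((Ext.of_reach hreach).trans (Ext.drop_right C U)).trans hy
        refine ⟨?_, htor p y h1⟩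
        obtain ⟨junk, hj⟩ := h1
        rw [← hj.closure_eq]
        exact Subgroup.subset_closure ⟨(p, y), by simp, Or.inl rfl⟩
    have h1 : (p : Matrix (Fin r) (Fin r) ℂ) ^ N = 1 := by
      have := congrArg Units.val (hN' p hpm.1 hpm.2)
      rw [Units.val_pow_eq_pow_val, Units.val_one] at this
      exact this
    rw [Emat_of_pow σ σ' N hN hσ _ h1, Matrix.zero_apply]

end Helper12.Sc
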