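import Pool.Agent.Helper12.ScMain
import Pool.Agent.Helper88.ScTorsion

/-!
Greedy choice of handles: after removing a bounded number of handles, the functions of a finite
dimensional right invariant space which vanish on the products of the first curves of the removed
handles vanish on the whole group generated by the remaining handles.
-/

namespace Helper12.Sc

open Polynomial Matrix Module Pointwise

section Group

variable {Γ : Type*} [Group Γ]

theorem Reach.length_eq {L L' : List (Γ × Γ)} (h : Reach L L') : L'.length = L.length := by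
  induction h with
  | refl => rfl
  | tail _ hs ih => rw [hs.length_eq, ih]

theorem move_left_one (U : List (Γ × Γ)) (p : Γ × Γ) : ∃ U', Reach (U ++ [p]) (p :: U') := by
  induction U with
  | nil => exact ⟨[], Reach.refl _⟩
  | cons q U ih =>
    obtain ⟨U', hU'⟩ := ih
    obtain ⟨a, b⟩ := q
    obtain ⟨c, d⟩ := p
    refine ⟨((c * d * c⁻¹ * d⁻¹)⁻¹ * a * (c * d * c⁻¹ * d⁻¹),
      (c * d * c⁻¹ * d⁻¹)⁻¹ * b * (c * d * c⁻¹ * d⁻¹)) :: U', ?_⟩
    have h1 := hU'.context [(a, b)] []
    have h2 := Reach.of_step (Step.br' [] U' a b c d)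
    simp only [List.nil_append, List.append_nil, List.cons_append] at h1 h2 ⊢
    exact h1.trans h2

theorem stable_closure (I : Submodule ℂ (Γ → ℂ)) [FiniteDimensional ℂ I] (Y : Set Γ)
    (hY : ∀ y ∈ Y, ∀ F ∈ I, rtr y F ∈ I) :
    ∀ g ∈ Subgroup.closure Y, ∀ F ∈ I, rtr g F ∈ I := by
  have hinv : ∀ y : Γ, (∀ F ∈ I, rtr y F ∈ I) → ∀ F ∈ I, rtr y⁻¹ F ∈ I := by
    intro y hy F hF
    let φ : I →ₗ[ℂ] I := (rtr y).toLinearMap.restrict hy
    have hφ : Function.Injective φ := by
      intro a b hab
      apply Subtype.ext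
      funext x
      have h1 : rtr y (a : Γ → ℂ) = rtr y (b : Γ → ℂ) := congrArg Subtype.val hab
      have h2 := congrFun h1 (x * y⁻¹)
      simpa using h2
    obtain ⟨F', hF'⟩ := (LinearMap.injective_iff_surjective.1 hφ) ⟨F, hF⟩
    have h1 : rtr y (F' : Γ → ℂ) = F := congrArg Subtype.val hF'
    have h2 : rtr y⁻¹ F = (F' : Γ → ℂ) := by
      rw [← h1]
      funext x
      simp
    rw [h2]
    exact F'.2
  intro g hg
  induction hg using Subgroup.closure_induction with
  | mem y hy => exact hY y hy
  | one =>
    intro F hF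
    have : rtr (1 : Γ) F = F := by funext x; simp
    rw [this]
    exact hF
  | mul a b _ _ ha hb =>
    intro F hF
    have : rtr (a * b) F = rtr a (rtr b F) := by
      funext x
      simp [mul_assoc]
    rw [this]
    exact ha _ (hb _ hF)
  | inv a _ ha => exact hinv a ha

/-- products of the first entries -/
def firsts (C : List (Γ × Γ)) : Set Γ := prods (C.map fun p => {p.1})

theorem firsts_append (C : List (Γ × Γ)) (p : Γ × Γ) :
    firsts (C ++ [p]) = firsts C * insert 1 {p.1} := by
  unfold firsts
  rw [List.map_append, prods_append, List.map_singleton, prods_singleton]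

theorem greedy_aux (W : Submodule ℂ (Γ → ℂ)) [FiniteDimensional ℂ W]
    (hW : ∀ y : Γ, ∀ F ∈ W, rtr y F ∈ W) (L : List (Γ × Γ)) (n : ℕ) :
    ∀ C U : List (Γ × Γ), Reach L (C ++ U) → finrank ℂ (vanish W (firsts C)) = n →
      C.length + n ≤ finrank ℂ W →
      ∃ C' U' : List (Γ × Γ), Reach L (C' ++ U') ∧ C'.length ≤ finrank ℂ W ∧
        ∀ x y, Ext U' [(x, y)] → ∀ F ∈ vanish W (firsts C'), rtr x F ∈ vanish W (firsts C') := by
  induction n using Nat.strong_induction_on with
  | _ n ih =>
    intro C U hreach hn hlen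
    by_cases hst : ∀ x y, Ext U [(x, y)] → ∀ F ∈ vanish W (firsts C), rtr x F ∈ vanish W (firsts C)
    · exact ⟨C, U, hreach, by omega, hst⟩
    · push Not at hst
      obtain ⟨x, y, ⟨junk, hj⟩, F, hF, hxF⟩ := hst
      obtain ⟨U', hU'⟩ := move_left_one junk (x, y)
      have hreach' : Reach L ((C ++ [(x, y)]) ++ U') := by
        have h1 := (hj.trans hU').context C []
        simp only [List.append_nil] at h1
        have h2 := hreach.trans h1
        simpa using h2
      have hle : vanish W (firsts (C ++ [(x, y)])) ≤ vanish W (firsts C) := by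
        apply vanish_anti
        rw [firsts_append]
        intro g hg
        exact ⟨g, hg, 1, Set.mem_insert _ _, mul_one g⟩
      have hlt : vanish W (firsts (C ++ [(x, y)])) < vanish W (firsts C) := by
        refine lt_of_le_of_ne hle ?_
        intro heq
        apply hxF
        rw [← heq] at hF
        refine ⟨hW x F hF.1, ?_⟩
        intro p hp
        rw [rtr_apply]
        apply hF.2
        rw [firsts_append]
        exact ⟨p, hp, x, Set.mem_insert_of_mem _ rfl, rfl⟩
      have hfd : FiniteDimensional ℂ (vanish W (firsts C)) :=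
        Submodule.finiteDimensional_of_le (vanish_le W _)
      have hfin := Submodule.finrank_lt_finrank_of_lt hlt
      rw [hn] at hfin
      exact ih _ hfin (C ++ [(x, y)]) U' hreach' rfl (by
        rw [List.length_append, List.length_singleton]
        omega)

theorem greedy (W : Submodule ℂ (Γ → ℂ)) [FiniteDimensional ℂ W]
    (hW : ∀ y : Γ, ∀ F ∈ W, rtr y F ∈ W) (L : List (Γ × Γ)) :
    ∃ C U : List (Γ × Γ), Reach L (C ++ U) ∧ L.length ≤ U.length + finrank ℂ W ∧
      ∀ F ∈ vanish W (firsts C), ∀ g ∈ Subgroup.closure (entries U), F g = 0 := by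
  obtain ⟨C, U, h1, h2, h3⟩ := greedy_aux W hW L _ [] L (Reach.refl L) rfl (by
    rw [List.length_nil, zero_add]
    exact Submodule.finrank_mono (vanish_le W _))
  refine ⟨C, U, h1, ?_, ?_⟩
  · have := h1.length_eq
    rw [List.length_append] at this
    omega
  · intro F hF g hg
    rw [← closure_yset] at hg
    have hfd : FiniteDimensional ℂ (vanish W (firsts C)) :=
      Submodule.finiteDimensional_of_le (vanish_le W _)
    have h4 := stable_closure (vanish W (firsts C)) (yset U) (fun x hx F hF => by
      obtain ⟨y, hy⟩ := Ext.yset hx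
      exact h3 x y hy F hF) g hg F hF
    have h5 := h4.2 1 (one_mem_prods _)
    simpa using h5

theorem firsts_subset (C : List (Γ × Γ)) :
    firsts C ⊆ prods ((C.map fun p => [p]).map yset) := by
  induction C with
  | nil => exact le_refl _
  | cons p C ih =>
    have h1 : firsts (p :: C) = insert 1 {p.1} * firsts C := by
      unfold firsts prods
      rw [List.map_cons, List.map_cons, List.prod_cons]
    have h2 : prods (((p :: C).map fun p => [p]).map yset) =
        insert 1 (yset [p]) * prods ((C.map fun p => [p]).map yset) := by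
      unfold prods
      rw [List.map_cons, List.map_cons, List.map_cons, List.prod_cons]
    rw [h1, h2]
    apply Set.mul_subset_mul _ ih
    apply Set.insert_subset_insert
    rintro x rfl
    exact ⟨p, by simp, Or.inl rfl⟩

end Group

variable {r : ℕ}

theorem eq_one_of_roots (g : GL (Fin r) ℂ)
    (h : ∀ z : ℂ, (g : Matrix (Fin r) (Fin r) ℂ).charpoly.IsRoot z → z = 1)
    (hg : IsOfFinOrder g) : g = 1 := by
  obtain ⟨N, hN, hgN⟩ := isOfFinOrder_iff_pow_eq_one.1 hg
  have h1 : (g : Matrix (Fin r) (Fin r) ℂ) ^ N = 1 := by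
    have := congrArg Units.val hgN
    rw [Units.val_pow_eq_pow_val, Units.val_one] at this
    exact this
  have hspan := span_eigen (g : Matrix (Fin r) (Fin r) ℂ) N hN h1
  have hid : ∀ x : Fin r → ℂ, (g : Matrix (Fin r) (Fin r) ℂ) *ᵥ x = x := by
    intro x
    have hx : x ∈ Submodule.span ℂ {x : Fin r → ℂ | ∃ z : ℂ,
        (g : Matrix (Fin r) (Fin r) ℂ) *ᵥ x = z • x} := by rw [hspan]; trivial
    induction hx using Submodule.span_induction with
    | mem y hy =>
      obtain ⟨z, hz⟩ := hy
      by_cases hy0 : y = 0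
      · rw [hy0, Matrix.mulVec_zero]
      · rw [hz, h z (isRoot_of_eigenvector _ z y hy0 hz), one_smul]
    | zero => rw [Matrix.mulVec_zero]
    | add a b _ _ ha hb => rw [Matrix.mulVec_add, ha, hb]
    | smul c a _ ha => rw [Matrix.mulVec_smul, ha]
  apply Units.ext
  ext i j
  have := congrFun (hid (Pi.single j 1)) i
  rw [Matrix.mulVec_single_one] at this
  rw [Units.val_one, Matrix.one_apply]
  simpa [Pi.single_apply] using this

/-- Elements of finite order of a finitely generated linear group have bounded order. -/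
theorem torsion_exponent (H : Subgroup (GL (Fin r) ℂ)) (hH : H.FG) :
    ∃ N > 0, ∀ h ∈ H, IsOfFinOrder h → h ^ N = 1 := by
  obtain ⟨F, _, _, ρ, hρ⟩ := exists_finite_quotient r H hH
  refine ⟨Nat.card F, Nat.card_pos, ?_⟩
  intro h hh hfo
  have h1 : ρ (⟨h, hh⟩ ^ Nat.card F) = 1 := by
    rw [map_pow, pow_card_eq_one']
  have h2 := hρ _ h1
  apply eq_one_of_roots
  · intro z hz
    obtain ⟨n, hn, hhn⟩ := isOfFinOrder_iff_pow_eq_one.1 (hfo.pow (n := Nat.card F))
    have h3 : ((h ^ Nat.card F : GL (Fin r) ℂ) : Matrix (Fin r) (Fin r) ℂ) ^ n = 1 := by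
      have := congrArg Units.val hhn
      rw [Units.val_pow_eq_pow_val, Units.val_one] at this
      exact this
    exact h2 z hz n hn (root_pow _ n h3 z hz)
  · exact hfo.pow

end Helper12.Sc
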