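import Mathlib

/-!
Right invariant finite dimensional spaces of functions on a group, and propagation of vanishing
from product sets to subgroups.
-/

namespace Helper12.Sc

open Pointwise Module

variable {G : Type*} [Group G]

/-- right translation of functions -/
def rtr (y : G) : (G → ℂ) →ₐ[ℂ] (G → ℂ) where
  toFun F x := F (x * y)
  map_one' := rfl
  map_mul' _ _ := rfl
  map_zero' := rfl
  map_add' _ _ := rfl
  commutes' _ := rfl

@[simp] theorem rtr_apply (y : G) (F : G → ℂ) (x : G) : rtr y F x = F (x * y) := rfl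

/-- the functions of `W` vanishing on `P` -/
def vanish (W : Submodule ℂ (G → ℂ)) (P : Set G) : Submodule ℂ (G → ℂ) where
  carrier := {F | F ∈ W ∧ ∀ p ∈ P, F p = 0}
  add_mem' := by
    rintro a b ⟨h1, h2⟩ ⟨h3, h4⟩
    refine ⟨W.add_mem h1 h3, fun p hp => ?_⟩
    rw [Pi.add_apply, h2 p hp, h4 p hp, add_zero]
  zero_mem' := ⟨W.zero_mem, fun _ _ => rfl⟩
  smul_mem' := by
    rintro c a ⟨h1, h2⟩
    refine ⟨W.smul_mem c h1, fun p hp => ?_⟩
    rw [Pi.smul_apply, h2 p hp, smul_zero]

theorem mem_vanish {W : Submodule ℂ (G → ℂ)} {P : Set G} {F : G → ℂ} :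
    F ∈ vanish W P ↔ F ∈ W ∧ ∀ p ∈ P, F p = 0 := Iff.rfl

theorem vanish_le (W : Submodule ℂ (G → ℂ)) (P : Set G) : vanish W P ≤ W := fun _ h => h.1

theorem vanish_anti (W : Submodule ℂ (G → ℂ)) {P Q : Set G} (h : P ⊆ Q) :
    vanish W Q ≤ vanish W P := fun _ hF => ⟨hF.1, fun p hp => hF.2 p (h hp)⟩

/-- the product set of a list of sets, each completed by the unit -/
def prods (Ys : List (Set G)) : Set G := (Ys.map fun Y => insert 1 Y).prod

theorem prods_append (As Bs : List (Set G)) : prods (As ++ Bs) = prods As * prods Bs := by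
  unfold prods
  rw [List.map_append, List.prod_append]

theorem prods_singleton (Y : Set G) : prods [Y] = insert 1 Y := by
  unfold prods
  rw [List.map_singleton, List.prod_singleton]

theorem one_mem_prods (Ys : List (Set G)) : (1 : G) ∈ prods Ys := by
  induction Ys with
  | nil => exact Set.mem_one.2 rfl
  | cons Y Ys ih =>
    have h1 : prods (Y :: Ys) = insert 1 Y * prods Ys := by
      unfold prods
      rw [List.map_cons, List.prod_cons]
    rw [h1]
    exact ⟨1, Set.mem_insert _ _, 1, ih, one_mul 1⟩

theorem prods_subset_append (As Bs : List (Set G)) : prods As ⊆ prods (As ++ Bs) := by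
  intro g hg
  rw [prods_append]
  exact ⟨g, hg, 1, one_mem_prods Bs, mul_one g⟩

theorem exists_stable (W : Submodule ℂ (G → ℂ)) [FiniteDimensional ℂ W] (Ys : List (Set G))
    (hlen : finrank ℂ W < Ys.length) :
    ∃ As Y Bs, Ys = As ++ Y :: Bs ∧ vanish W (prods As) = vanish W (prods (As ++ [Y])) := by
  by_contra hcon
  push Not at hcon
  have key : ∀ (Zs Bs : List (Set G)), Ys = Zs ++ Bs →
      finrank ℂ (vanish W (prods Zs)) + Zs.length ≤ finrank ℂ W := by
    intro Zs
    induction Zs using List.reverseRecOn with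
    | nil =>
      intro Bs _
      simpa using Submodule.finrank_mono (vanish_le W (prods []))
    | append_singleton Zs Y ih =>
      intro Bs hBs
      have h1 := ih (Y :: Bs) (by rw [hBs]; simp)
      have h2 := hcon Zs Y Bs (by rw [hBs]; simp)
      have h3 : vanish W (prods (Zs ++ [Y])) < vanish W (prods Zs) :=
        lt_of_le_of_ne (vanish_anti W (prods_subset_append Zs [Y])) (Ne.symm h2)
      have hfd : FiniteDimensional ℂ (vanish W (prods Zs)) :=
        Submodule.finiteDimensional_of_le (vanish_le W _)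
      have h4 := Submodule.finrank_lt_finrank_of_lt h3
      rw [List.length_append, List.length_singleton]
      omega
  have := key Ys [] (by simp)
  omega

theorem propagate (W : Submodule ℂ (G → ℂ)) [FiniteDimensional ℂ W]
    (hW : ∀ y : G, ∀ F ∈ W, rtr y F ∈ W) (Ys : List (Set G))
    (hlen : finrank ℂ W < Ys.length) :
    ∃ Y ∈ Ys, ∀ F ∈ vanish W (prods Ys), ∀ g ∈ Subgroup.closure Y, F g = 0 := by
  obtain ⟨As, Y, Bs, rfl, hstab⟩ := exists_stable W Ys hlen
  refine ⟨Y, by simp, ?_⟩
  intro F hF g hg
  set I := vanish W (prods As) with hI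
  have hFI : F ∈ I := by
    refine vanish_anti W ?_ hF
    exact prods_subset_append As (Y :: Bs)
  have hfd : FiniteDimensional ℂ I := Submodule.finiteDimensional_of_le (vanish_le W _)
  have hY : ∀ y ∈ Y, ∀ F ∈ I, rtr y F ∈ I := by
    intro y hy F hF
    refine ⟨hW y F hF.1, ?_⟩
    intro p hp
    rw [rtr_apply]
    have h1 : F ∈ vanish W (prods (As ++ [Y])) := by rw [← hstab]; exact hF
    apply h1.2
    rw [prods_append, prods_singleton]
    exact ⟨p, hp, y, Set.mem_insert_of_mem _ hy, rfl⟩
  have hinv : ∀ y : G, (∀ F ∈ I, rtr y F ∈ I) → ∀ F ∈ I, rtr y⁻¹ F ∈ I := by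
    intro y hy F hF
    let φ : I →ₗ[ℂ] I := (rtr y).toLinearMap.restrict hy
    have hφ : Function.Injective φ := by
      intro a b hab
      apply Subtype.ext
      funext x
      have h1 : rtr y (a : G → ℂ) = rtr y (b : G → ℂ) := congrArg Subtype.val hab
      have h2 := congrFun h1 (x * y⁻¹)
      simpa using h2
    obtain ⟨F', hF'⟩ := (LinearMap.injective_iff_surjective.1 hφ) ⟨F, hF⟩
    have h1 : rtr y (F' : G → ℂ) = F := congrArg Subtype.val hF'
    have h2 : rtr y⁻¹ F = (F' : G → ℂ) := by
      rw [← h1]
      funext x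
      simp
    rw [h2]
    exact F'.2
  have hall : ∀ g ∈ Subgroup.closure Y, ∀ F ∈ I, rtr g F ∈ I := by
    intro g hg
    induction hg using Subgroup.closure_induction with
    | mem y hy => exact hY y hy
    | one =>
      intro F hF
      have : rtr (1 : G) F = F := by funext x; simp
      rw [this]
      exact hF
    | mul a b _ _ ha hb =>
      intro F hF
      have : rtr (a * b) F = rtr a (rtr b F) := by
        funext x
        simp [mul_assoc]
      rw [this]
      exact ha _ (hb _ hF)
    | inv a _ ha => exact hinv a ha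
  have h1 := (hall g hg F hFI).2 1 (one_mem_prods As)
  simpa using h1

section Space

variable {ι : Type*}

/-- the functions which are polynomials of degree at most `d` in the given functions -/
def space (e : ι → G → ℂ) (d : ℕ) : Submodule ℂ (G → ℂ) :=
  (Submodule.span ℂ (insert 1 (Set.range e))) ^ d

theorem one_mem_span (e : ι → G → ℂ) :
    (1 : G → ℂ) ∈ Submodule.span ℂ (insert 1 (Set.range e)) :=
  Submodule.subset_span (Set.mem_insert _ _)

theorem space_mono (e : ι → G → ℂ) {a b : ℕ} (h : a ≤ b) :
    space e a ≤ space e b := by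
  obtain ⟨k, rfl⟩ := Nat.exists_eq_add_of_le h
  induction k with
  | zero => exact le_refl _
  | succ k ih =>
    refine (ih (by omega)).trans ?_
    intro x hx
    have h1 : space e (a + (k + 1)) =
        space e (a + k) * Submodule.span ℂ (insert 1 (Set.range e)) := by
      unfold space
      rw [← add_assoc, pow_succ]
    rw [h1]
    simpa using Submodule.mul_mem_mul hx (one_mem_span e)

theorem space_mul (e : ι → G → ℂ) (a b : ℕ) : space e a * space e b = space e (a + b) := by
  unfold space
  rcases Nat.eq_zero_or_pos b with rfl | hb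
  · rw [pow_zero, Submodule.mul_one, add_zero]
  · exact (Submodule.pow_add (M := Submodule.span ℂ (insert 1 (Set.range e))) hb.ne').symm

theorem gen_pow_mem (e : ι → G → ℂ) (i : ι) (k : ℕ) : e i ^ k ∈ space e k :=
  Submodule.pow_mem_pow _
    (Submodule.subset_span (Set.mem_insert_of_mem _ ⟨i, rfl⟩) :
      e i ∈ Submodule.span ℂ (insert 1 (Set.range e))) k

theorem prod_mem_space (e : ι → G → ℂ) (s : Finset ι) (m : ι → ℕ) :
    ∏ i ∈ s, e i ^ m i ∈ space e (∑ i ∈ s, m i) := by
  classical
  induction s using Finset.induction_on with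
  | empty =>
    simp only [Finset.prod_empty, Finset.sum_empty]
    unfold space
    rw [pow_zero]
    exact Submodule.one_le.1 le_rfl
  | insert i s hi ih =>
    rw [Finset.prod_insert hi, Finset.sum_insert hi, ← space_mul]
    exact Submodule.mul_mem_mul (gen_pow_mem e i _) ih

theorem aeval_mem_space (e : ι → G → ℂ) (p : MvPolynomial ι ℂ) (d : ℕ)
    (hp : p.totalDegree ≤ d) : MvPolynomial.aeval e p ∈ space e d := by
  rw [MvPolynomial.aeval_def, MvPolynomial.eval₂_eq]
  refine Submodule.sum_mem _ (fun m hm => ?_)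
  have h1 : ∏ i ∈ m.support, e i ^ m i ∈ space e d := by
    refine space_mono e ?_ (prod_mem_space e m.support m)
    exact (MvPolynomial.le_totalDegree hm).trans hp
  rw [← Algebra.smul_def]
  exact Submodule.smul_mem _ _ h1

theorem rtr_mem_space (e : ι → G → ℂ) (y : G)
    (h : ∀ i, rtr y (e i) ∈ Submodule.span ℂ (insert 1 (Set.range e))) (d : ℕ) (F : G → ℂ)
    (hF : F ∈ space e d) : rtr y F ∈ space e d := by
  have h1 : (Submodule.span ℂ (insert 1 (Set.range e))).map (rtr y).toLinearMap ≤
      Submodule.span ℂ (insert 1 (Set.range e)) := by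
    rw [Submodule.map_span_le]
    rintro x (rfl | ⟨i, rfl⟩)
    · exact one_mem_span e
    · exact h i
  have h2 : (space e d).map (rtr y).toLinearMap ≤ space e d := by
    unfold space
    rw [Submodule.map_pow]
    exact pow_le_pow_left' h1 d
  exact h2 (Submodule.mem_map_of_mem hF)

theorem finrank_space_le [Fintype ι] (e : ι → G → ℂ) (d : ℕ) :
    finrank ℂ (space e d) ≤ (Fintype.card ι + 1) ^ d := by
  classical
  let s : Finset (G → ℂ) := insert 1 (Finset.univ.image e)
  have hs : (insert 1 (Set.range e) : Set (G → ℂ)) = s := by simp [s]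
  have h1 : space e d = Submodule.span ℂ ((s ^ d : Finset (G → ℂ)) : Set (G → ℂ)) := by
    unfold space
    rw [hs, Submodule.span_pow, Finset.coe_pow]
  rw [h1]
  refine (finrank_span_finset_le_card (R := ℂ) (s ^ d)).trans ?_
  refine Finset.card_pow_le.trans ?_
  apply Nat.pow_le_pow_left
  refine (Finset.card_insert_le _ _).trans ?_
  exact Nat.add_le_add_right Finset.card_image_le 1

theorem finite_space [Fintype ι] (e : ι → G → ℂ) (d : ℕ) : FiniteDimensional ℂ (space e d) := by
  have h1 : (Submodule.span ℂ (insert 1 (Set.range e) : Set (G → ℂ))).FG :=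
    Submodule.fg_span ((Set.finite_range e).insert 1)
  exact Module.Finite.iff_fg.2 (h1.pow d)

end Space

end Helper12.Sc
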