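import Mathlib

namespace Helper12

open Filter

section CA

variable {A : Type*} [CommRing A] [IsDomain A] [CharZero A]

/-- A prime ideal contains at most one prime number. -/
theorem prime_unique_of_mem {A : Type*} [CommRing A] {I : Ideal A} (hI : I ≠ ⊤) {p q : ℕ}
    (hp : p.Prime) (hq : q.Prime) (h1 : (p : A) ∈ I) (h2 : (q : A) ∈ I) : p = q := by
  by_contra hne
  have hc : IsCoprime (p : ℤ) (q : ℤ) := by
    rw [Nat.isCoprime_iff_coprime]
    exact (Nat.coprime_primes hp hq).2 hne
  obtain ⟨a, b, hab⟩ := hc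
  apply hI
  rw [Ideal.eq_top_iff_one]
  have : (1 : A) = (a : A) * (p : A) + (b : A) * (q : A) := by exact_mod_cast congrArg (Int.cast : ℤ → A) hab.symm
  rw [this]
  exact I.add_mem (I.mul_mem_left _ h1) (I.mul_mem_left _ h2)

theorem eventually_exists_prime_le [IsNoetherianRing A] (g : A) (hg : g ≠ 0) :
    ∀ᶠ p : ℕ in atTop, p.Prime → ∀ Q : Ideal A, Q.IsPrime → (p : A) ∈ Q →
      ∃ P : Ideal A, P.IsPrime ∧ P ≤ Q ∧ (p : A) ∈ P ∧ g ∉ P := by
  classical
  have hfin : (Ideal.span {g}).minimalPrimes.Finite :=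
    Ideal.finite_minimalPrimes_of_isNoetherianRing A _
  have hbad : {p : ℕ | p.Prime ∧ ∃ P ∈ (Ideal.span {g}).minimalPrimes, (p : A) ∈ P}.Finite := by
    have : {p : ℕ | p.Prime ∧ ∃ P ∈ (Ideal.span {g}).minimalPrimes, (p : A) ∈ P} ⊆
        ⋃ P ∈ (Ideal.span {g}).minimalPrimes, {p : ℕ | p.Prime ∧ (p : A) ∈ P} := by
      rintro p ⟨hp, P, hP, hpP⟩
      simp only [Set.mem_iUnion]
      exact ⟨P, hP, hp, hpP⟩
    refine Set.Finite.subset (hfin.biUnion ?_) this
    intro P hP
    have hPp : P.IsPrime := hP.1.1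
    apply Set.Subsingleton.finite
    rintro p ⟨hp, hpP⟩ q ⟨hq, hqP⟩
    exact prime_unique_of_mem hPp.ne_top hp hq hpP hqP
  have hev : ∀ᶠ p : ℕ in atTop, p ∉ {p : ℕ | p.Prime ∧ ∃ P ∈ (Ideal.span {g}).minimalPrimes, (p : A) ∈ P} := by
    rw [← Nat.cofinite_eq_atTop]
    exact hbad.eventually_cofinite_notMem
  filter_upwards [hev] with p hp hpp Q hQ hpQ
  obtain ⟨P, hPmin, hPQ⟩ := Ideal.exists_minimalPrimes_le
    (I := Ideal.span {(p : A)}) (J := Q) ((Ideal.span_singleton_le_iff_mem _).2 hpQ)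
  have hPp : P.IsPrime := hPmin.1.1
  have hpP : (p : A) ∈ P := (Ideal.span_singleton_le_iff_mem _).1 hPmin.1.2
  refine ⟨P, hPp, hPQ, hpP, ?_⟩
  intro hgP
  apply hp
  refine ⟨hpp, ?_⟩
  obtain ⟨P', hP'min, hP'P⟩ := Ideal.exists_minimalPrimes_le
    (I := Ideal.span {g}) (J := P) ((Ideal.span_singleton_le_iff_mem _).2 hgP)
  have hP'p : P'.IsPrime := hP'min.1.1
  have hgP' : g ∈ P' := (Ideal.span_singleton_le_iff_mem _).1 hP'min.1.2
  have hh : P.height ≤ 1 := Ideal.height_le_one_of_isPrincipal_of_mem_minimalPrimes _ _ hPmin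
  refine ⟨P', hP'min, ?_⟩
  rcases hP'P.eq_or_lt with h | h
  · rw [h]; exact hpP
  · exfalso
    have h0 : (⊥ : Ideal A) < P' := by
      rw [bot_lt_iff_ne_bot]
      rintro rfl
      exact hg (by simpa using hgP')
    have h1 := Ideal.height_add_one_le_of_lt_of_isPrime h0
    have h2 := Ideal.height_add_one_le_of_lt_of_isPrime h
    rw [Ideal.height_bot] at h1
    have : (2 : ℕ∞) ≤ 1 := by
      calc (2 : ℕ∞) = 0 + 1 + 1 := by norm_num
        _ ≤ P'.height + 1 := by gcongr
        _ ≤ P.height := h2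
        _ ≤ 1 := hh
    exact absurd this (by decide)

/-- generic surjectivity on spectra -/
theorem exists_basicOpen_le_range {A B : Type*} [CommRing A] [IsDomain A] [IsNoetherianRing A]
    [CommRing B] [IsDomain B] [Algebra A B] [Algebra.FiniteType A B]
    (hinj : Function.Injective (algebraMap A B)) :
    ∃ g : A, g ≠ 0 ∧ ∀ P : Ideal A, P.IsPrime → g ∉ P →
      ∃ Q : Ideal B, Q.IsPrime ∧ Q.comap (algebraMap A B) = P := by
  have hfp : (algebraMap A B).FinitePresentation := by
    rw [← RingHom.FinitePresentation.of_finiteType]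
    rw [RingHom.finiteType_algebraMap]
    infer_instance
  have hc := PrimeSpectrum.isConstructible_range_comap hfp
  obtain ⟨S, hS⟩ := PrimeSpectrum.exists_constructibleSetData_iff.2 hc
  have hgen : (⟨⊥, Ideal.isPrime_bot⟩ : PrimeSpectrum A) ∈ S.toSet := by
    rw [hS]
    refine ⟨⟨⊥, Ideal.isPrime_bot⟩, ?_⟩
    ext x
    simp only [PrimeSpectrum.comap_asIdeal, Ideal.mem_comap, Ideal.mem_bot]
    exact map_eq_zero_iff _ hinj
  simp only [PrimeSpectrum.ConstructibleSetData.toSet, Set.mem_iUnion] at hgen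
  obtain ⟨C, hC, hgen⟩ := hgen
  rw [PrimeSpectrum.BasicConstructibleSetData.toSet] at hgen
  obtain ⟨h1, h2⟩ := hgen
  rw [PrimeSpectrum.mem_zeroLocus] at h1 h2
  refine ⟨C.f, ?_, ?_⟩
  · intro h
    apply h2
    simp [h]
  · intro P hP hgP
    have : (⟨P, hP⟩ : PrimeSpectrum A) ∈ S.toSet := by
      simp only [PrimeSpectrum.ConstructibleSetData.toSet, Set.mem_iUnion]
      refine ⟨C, hC, ?_, ?_⟩
      · rw [PrimeSpectrum.mem_zeroLocus]
        intro x hx
        have := h1 hx
        simp only [SetLike.mem_coe, Ideal.mem_bot] at this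
        rw [this]
        exact P.zero_mem
      · rw [PrimeSpectrum.mem_zeroLocus]
        intro h
        exact hgP (h rfl)
    rw [hS] at this
    obtain ⟨Q, hQ⟩ := this
    refine ⟨Q.asIdeal, Q.isPrime, ?_⟩
    have := congrArg PrimeSpectrum.asIdeal hQ
    simpa using this

/-- radicals of `p` descend along finite type extensions, for large `p` -/
theorem eventually_radical_descend {A B : Type*} [CommRing A] [IsDomain A] [CharZero A]
    [IsNoetherianRing A] [CommRing B] [IsDomain B] [Algebra A B] [Algebra.FiniteType A B]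
    (hinj : Function.Injective (algebraMap A B)) :
    ∀ᶠ p : ℕ in atTop, p.Prime → ∀ x : A,
      algebraMap A B x ∈ (Ideal.span {(p : B)}).radical → x ∈ (Ideal.span {(p : A)}).radical := by
  obtain ⟨g, hg, h⟩ := exists_basicOpen_le_range hinj
  filter_upwards [eventually_exists_prime_le g hg] with p hp hpp x hx
  rw [Ideal.radical_eq_sInf, Ideal.mem_sInf]
  rintro Q ⟨hQ1, hQ2⟩
  obtain ⟨P, hP, hPQ, hpP, hgP⟩ := hp hpp Q hQ2 ((Ideal.span_singleton_le_iff_mem _).1 hQ1)
  apply hPQ
  obtain ⟨Q', hQ', hc⟩ := h P hP hgP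
  rw [← hc, Ideal.mem_comap]
  have hpQ' : (p : B) ∈ Q' := by
    have : (p : A) ∈ Q'.comap (algebraMap A B) := by rw [hc]; exact hpP
    simpa using this
  have : (Ideal.span {(p : B)}).radical ≤ Q' := by
    rw [Ideal.IsPrime.radical_le_iff hQ']
    exact (Ideal.span_singleton_le_iff_mem _).2 hpQ'
  exact this hx

theorem finiteType_isNoetherian (A : Type*) [CommRing A] [Algebra.FiniteType ℤ A] :
    IsNoetherianRing A := Algebra.FiniteType.isNoetherianRing ℤ A

/-- ring hom version for finitely generated domains -/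
theorem eventually_radical_descend' {A B : Type*} [CommRing A] [IsDomain A] [CharZero A]
    [Algebra.FiniteType ℤ A] [CommRing B] [IsDomain B] [Algebra.FiniteType ℤ B]
    (φ : A →+* B) (hinj : Function.Injective φ) :
    ∀ᶠ p : ℕ in atTop, p.Prime → ∀ x : A,
      φ x ∈ (Ideal.span {(p : B)}).radical → x ∈ (Ideal.span {(p : A)}).radical := by
  let := φ.toAlgebra
  have : IsScalarTower ℤ A B := by
    refine IsScalarTower.of_algebraMap_eq (fun x => ?_)
    simp
  have : Algebra.FiniteType A B := Algebra.FiniteType.of_restrictScalars_finiteType ℤ A B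
  have := finiteType_isNoetherian A
  exact eventually_radical_descend (A := A) (B := B) hinj

theorem isJacobsonRing_int : IsJacobsonRing ℤ := by
  rw [isJacobsonRing_iff_prime_eq]
  intro P hP
  by_cases hb : P = ⊥
  · subst hb
    rw [eq_bot_iff]
    intro x hx
    rw [Ideal.mem_bot]
    by_contra hx0
    obtain ⟨p, hp1, hp2⟩ := Nat.exists_infinite_primes (x.natAbs + 1)
    have hprime : Prime (p : ℤ) := Nat.prime_iff_prime_int.1 hp2
    have hirr : Irreducible (p : ℤ) := hprime.irreducible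
    have hmax : (Ideal.span {(p : ℤ)}).IsMaximal :=
      PrincipalIdealRing.isMaximal_of_irreducible hirr
    rw [Ideal.jacobson, Ideal.mem_sInf] at hx
    have := hx ⟨bot_le, hmax⟩
    rw [Ideal.mem_span_singleton] at this
    have h2 := Int.natAbs_dvd_natAbs.2 this
    have h3 := Nat.le_of_dvd (Int.natAbs_pos.2 hx0) h2
    simp at h3
    omega
  · have : P.IsMaximal := IsPrime.to_maximal_ideal hb
    exact Ideal.jacobson_eq_self_of_isMaximal

/-- the Jacobson step -/
theorem eventually_radical_of_maximal {R : Type*} [CommRing R] [IsDomain R] [CharZero R]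
    [Algebra.FiniteType ℤ R] (h : R) (hh : h ≠ 0) :
    ∀ᶠ p : ℕ in atTop, p.Prime → ∀ x : R,
      (∀ m : Ideal R, m.IsMaximal → (p : R) ∈ m → h ∉ m → x ∈ m) →
        x ∈ (Ideal.span {(p : R)}).radical := by
  have := finiteType_isNoetherian R
  have := isJacobsonRing_int
  have hJR : IsJacobsonRing R := isJacobsonRing_of_finiteType (A := ℤ)
  filter_upwards [eventually_exists_prime_le h hh] with p hp hpp x hx
  rw [Ideal.radical_eq_sInf, Ideal.mem_sInf]
  rintro Q ⟨hQ1, hQ2⟩
  obtain ⟨P, hP, hPQ, hpP, hhP⟩ := hp hpp Q hQ2 ((Ideal.span_singleton_le_iff_mem _).1 hQ1)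
  apply hPQ
  have hxh : x * h ∈ P := by
    have hj : P.jacobson = P := by
      exact IsJacobsonRing.out hJR hP.isRadical
    rw [← hj, Ideal.jacobson, Ideal.mem_sInf]
    rintro m ⟨hPm, hm⟩
    by_cases hhm : h ∈ m
    · exact m.mul_mem_left _ hhm
    · exact m.mul_mem_right _ (hx m hm (hPm hpP) hhm)
  rcases hP.mem_or_mem hxh with h1 | h1
  · exact h1
  · exact absurd h1 hhP

/-- For large `p` there is a prime over `p` missing a given nonzero element. -/
theorem eventually_exists_prime_notMem {D : Type*} [CommRing D] [IsDomain D] [CharZero D]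
    [Algebra.FiniteType ℤ D] (u : D) (hu : u ≠ 0) :
    ∀ᶠ p : ℕ in atTop, p.Prime → ∃ P : Ideal D, P.IsPrime ∧ (p : D) ∈ P ∧ u ∉ P := by
  have := finiteType_isNoetherian D
  have h1 := eventually_radical_descend' (A := ℤ) (B := D) (algebraMap ℤ D)
    (by simpa using (algebraMap ℤ D).injective_int)
  filter_upwards [h1, eventually_exists_prime_le u hu] with p hp1 hp2 hpp
  have hne : Ideal.span {(p : D)} ≠ ⊤ := by
    intro htop
    have := hp1 hpp 1 (by rw [htop]; exact Ideal.le_radical Submodule.mem_top)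
    rw [Ideal.mem_radical_iff] at this
    obtain ⟨k, hk⟩ := this
    rw [one_pow, Ideal.mem_span_singleton] at hk
    have : (p : ℤ) ∣ 1 := by simpa using hk
    have := Int.natCast_dvd_natCast.1 (by simpa using this : (p : ℤ) ∣ ((1 : ℕ) : ℤ))
    exact hpp.one_lt.ne' (Nat.dvd_one.1 this)
  obtain ⟨M, hM, hle⟩ := Ideal.exists_le_maximal _ hne
  obtain ⟨P, hP, -, hpP, huP⟩ := hp2 hpp M hM.isPrime ((Ideal.span_singleton_le_iff_mem _).1 hle)
  exact ⟨P, hP, hpP, huP⟩

end CA

end Helper12
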