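import Mathlib

namespace Helper12

open Filter NumberField

section Counting

variable {S : Type*} [CommRing S] [IsDedekindDomain S]

/-- product of chosen primes along the prime factorization -/
noncomputable def primeProd (P : ℕ → Ideal S) (a : ℕ) : Ideal S :=
  ((a.primeFactorsList : Multiset ℕ).map P).prod

theorem primeProd_factors (P : ℕ → Ideal S) (a : ℕ)
    (h : ∀ q ∈ a.primeFactorsList, (P q).IsPrime ∧ P q ≠ ⊥) :
    UniqueFactorizationMonoid.normalizedFactors (primeProd P a) =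
      (a.primeFactorsList : Multiset ℕ).map P := by
  unfold primeProd
  rw [UniqueFactorizationMonoid.normalizedFactors_prod_eq]
  · rw [Multiset.map_map]
    simp
  · intro I hI
    rw [Multiset.mem_map] at hI
    obtain ⟨q, hq, rfl⟩ := hI
    have := h q (by simpa using hq)
    exact (Ideal.prime_of_isPrime this.2 this.1).irreducible

theorem primeProd_ne_zero (P : ℕ → Ideal S) (a : ℕ)
    (h : ∀ q ∈ a.primeFactorsList, (P q).IsPrime ∧ P q ≠ ⊥) : primeProd P a ≠ 0 := by
  unfold primeProd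
  intro h0
  rw [Multiset.prod_eq_zero_iff, Multiset.mem_map] at h0
  obtain ⟨q, hq, h1⟩ := h0
  exact (h q (by simpa using hq)).2 h1

variable [Module.Free ℤ S]

theorem primeProd_absNorm (P : ℕ → Ideal S) (a : ℕ) (ha : a ≠ 0)
    (h : ∀ q ∈ a.primeFactorsList, Ideal.absNorm (P q) = q) :
    Ideal.absNorm (primeProd P a) = a := by
  unfold primeProd
  rw [map_multiset_prod, Multiset.map_map]
  have : Multiset.map (⇑Ideal.absNorm ∘ P) (a.primeFactorsList : Multiset ℕ) =
      (a.primeFactorsList : Multiset ℕ) := by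
    conv_rhs => rw [← Multiset.map_id (a.primeFactorsList : Multiset ℕ)]
    apply Multiset.map_congr rfl
    intro q hq
    simp [h q (by simpa using hq)]
  rw [this]
  simp [Nat.prod_primeFactorsList ha]

theorem primeProd_pair_injective (P1 P2 : ℕ → Ideal S) (p0 : ℕ)
    (h1 : ∀ q : ℕ, q.Prime → p0 ≤ q → (P1 q).IsPrime ∧ P1 q ≠ ⊥ ∧ Ideal.absNorm (P1 q) = q)
    (h2 : ∀ q : ℕ, q.Prime → p0 ≤ q → (P2 q).IsPrime ∧ P2 q ≠ ⊥ ∧ Ideal.absNorm (P2 q) = q)
    (h12 : ∀ q : ℕ, q.Prime → p0 ≤ q → P1 q ≠ P2 q)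
    {a b a' b' : ℕ} (ha : a ≠ 0) (hb : b ≠ 0) (ha' : a' ≠ 0) (hb' : b' ≠ 0)
    (hap : ∀ q ∈ a.primeFactorsList, p0 ≤ q) (hbp : ∀ q ∈ b.primeFactorsList, p0 ≤ q)
    (hap' : ∀ q ∈ a'.primeFactorsList, p0 ≤ q) (hbp' : ∀ q ∈ b'.primeFactorsList, p0 ≤ q)
    (h : primeProd P1 a * primeProd P2 b = primeProd P1 a' * primeProd P2 b') :
    a = a' ∧ b = b' := by
  classical
  have key1 : ∀ a : ℕ, (∀ q ∈ a.primeFactorsList, p0 ≤ q) →
      ∀ q ∈ a.primeFactorsList, (P1 q).IsPrime ∧ P1 q ≠ ⊥ := by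
    intro a ha q hq
    have := h1 q (Nat.prime_of_mem_primeFactorsList hq) (ha q hq)
    exact ⟨this.1, this.2.1⟩
  have key2 : ∀ a : ℕ, (∀ q ∈ a.primeFactorsList, p0 ≤ q) →
      ∀ q ∈ a.primeFactorsList, (P2 q).IsPrime ∧ P2 q ≠ ⊥ := by
    intro a ha q hq
    have := h2 q (Nat.prime_of_mem_primeFactorsList hq) (ha q hq)
    exact ⟨this.1, this.2.1⟩
  have hf := congrArg UniqueFactorizationMonoid.normalizedFactors h
  rw [UniqueFactorizationMonoid.normalizedFactors_mul (primeProd_ne_zero _ _ (key1 a hap))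
    (primeProd_ne_zero _ _ (key2 b hbp)),
    UniqueFactorizationMonoid.normalizedFactors_mul (primeProd_ne_zero _ _ (key1 a' hap'))
    (primeProd_ne_zero _ _ (key2 b' hbp')),
    primeProd_factors _ _ (key1 a hap), primeProd_factors _ _ (key2 b hbp),
    primeProd_factors _ _ (key1 a' hap'), primeProd_factors _ _ (key2 b' hbp')] at hf
  -- counting multiplicities
  have cnt : ∀ (P P' : ℕ → Ideal S)
      (_ : ∀ q : ℕ, q.Prime → p0 ≤ q → (P q).IsPrime ∧ P q ≠ ⊥ ∧ Ideal.absNorm (P q) = q)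
      (_ : ∀ q : ℕ, q.Prime → p0 ≤ q → (P' q).IsPrime ∧ P' q ≠ ⊥ ∧ Ideal.absNorm (P' q) = q)
      (_ : ∀ q : ℕ, q.Prime → p0 ≤ q → P q ≠ P' q)
      (a b : ℕ) (_ : ∀ q ∈ a.primeFactorsList, p0 ≤ q) (_ : ∀ q ∈ b.primeFactorsList, p0 ≤ q)
      (q : ℕ) (_ : q.Prime) (_ : p0 ≤ q),
      Multiset.count (P q) ((a.primeFactorsList : Multiset ℕ).map P +
        (b.primeFactorsList : Multiset ℕ).map P') = a.primeFactorsList.count q := by
    intro P P' hP hP' hPP a b hap hbp q hq hq0
    rw [Multiset.count_add]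
    have e1 : Multiset.count (P q) ((a.primeFactorsList : Multiset ℕ).map P) =
        a.primeFactorsList.count q := by
      rw [Multiset.count_map]
      rw [← Multiset.coe_count, Multiset.count_eq_card_filter_eq]
      congr 1
      apply Multiset.filter_congr
      intro x hx
      have hx' : x ∈ a.primeFactorsList := by simpa using hx
      constructor
      · intro h
        have e := congrArg Ideal.absNorm h
        rwa [(hP q hq hq0).2.2,
          (hP x (Nat.prime_of_mem_primeFactorsList hx') (hap x hx')).2.2] at e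
      · rintro rfl; rfl
    have e2 : Multiset.count (P q) ((b.primeFactorsList : Multiset ℕ).map P') = 0 := by
      rw [Multiset.count_eq_zero, Multiset.mem_map]
      rintro ⟨x, hx, h⟩
      have hx' : x ∈ b.primeFactorsList := by simpa using hx
      have e := congrArg Ideal.absNorm h
      rw [(hP q hq hq0).2.2,
          (hP' x (Nat.prime_of_mem_primeFactorsList hx') (hbp x hx')).2.2] at e
      subst e
      exact hPP x hq hq0 h.symm
    rw [e1, e2, add_zero]
  constructor
  · apply Nat.eq_of_factorization_eq ha ha'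
    intro q
    by_cases hq : q.Prime
    · by_cases hq0 : p0 ≤ q
      · have := cnt P1 P2 h1 h2 h12 a b hap hbp q hq hq0
        rw [hf, cnt P1 P2 h1 h2 h12 a' b' hap' hbp' q hq hq0] at this
        rw [← Nat.primeFactorsList_count_eq, ← Nat.primeFactorsList_count_eq, this]
      · rw [← Nat.primeFactorsList_count_eq, ← Nat.primeFactorsList_count_eq,
          List.count_eq_zero_of_not_mem (fun h => hq0 (hap q h)),
          List.count_eq_zero_of_not_mem (fun h => hq0 (hap' q h))]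
    · rw [Nat.factorization_eq_zero_of_not_prime _ hq, Nat.factorization_eq_zero_of_not_prime _ hq]
  · apply Nat.eq_of_factorization_eq hb hb'
    intro q
    by_cases hq : q.Prime
    · by_cases hq0 : p0 ≤ q
      · have := cnt P2 P1 h2 h1 (fun q hq hq0 => (h12 q hq hq0).symm) b a hbp hap q hq hq0
        rw [add_comm, hf, add_comm,
          cnt P2 P1 h2 h1 (fun q hq hq0 => (h12 q hq hq0).symm) b' a' hbp' hap' q hq hq0] at this
        rw [← Nat.primeFactorsList_count_eq, ← Nat.primeFactorsList_count_eq, this]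
      · rw [← Nat.primeFactorsList_count_eq, ← Nat.primeFactorsList_count_eq,
          List.count_eq_zero_of_not_mem (fun h => hq0 (hbp q h)),
          List.count_eq_zero_of_not_mem (fun h => hq0 (hbp' q h))]
    · rw [Nat.factorization_eq_zero_of_not_prime _ hq, Nat.factorization_eq_zero_of_not_prime _ hq]

end Counting

section Asymptotic

variable (F : Type*) [Field F] [NumberField F]

theorem card_ideals_ge (P1 P2 : ℕ → Ideal (𝓞 F)) (p0 : ℕ)
    (h1 : ∀ q : ℕ, q.Prime → p0 ≤ q → (P1 q).IsPrime ∧ P1 q ≠ ⊥ ∧ Ideal.absNorm (P1 q) = q)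
    (h2 : ∀ q : ℕ, q.Prime → p0 ≤ q → (P2 q).IsPrime ∧ P2 q ≠ ⊥ ∧ Ideal.absNorm (P2 q) = q)
    (h12 : ∀ q : ℕ, q.Prime → p0 ≤ q → P1 q ≠ P2 q) (x J : ℕ) :
    ∑ j ∈ Finset.range J, x / ((1 + j * p0.factorial) * p0.factorial) ≤
      Nat.card {I : Ideal (𝓞 F) // (Ideal.absNorm I : ℝ) ≤ (x : ℝ)} := by
  classical
  set N := p0.factorial with hN
  have hNpos : 0 < N := Nat.factorial_pos _
  have hfac : ∀ i : ℕ, ∀ q ∈ (1 + i * N).primeFactorsList, p0 ≤ q := by
    intro i q hq
    by_contra hlt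
    push Not at hlt
    have hqp := Nat.prime_of_mem_primeFactorsList hq
    have hqd := Nat.dvd_of_mem_primeFactorsList hq
    have hqN : q ∣ N := Nat.dvd_factorial hqp.pos hlt.le
    have : q ∣ 1 := by
      rw [Nat.dvd_add_left (Dvd.dvd.mul_left hqN i)] at hqd
      exact hqd
    exact hqp.one_lt.ne' (Nat.dvd_one.1 this)
  let T : Finset (Σ _ : ℕ, ℕ) := (Finset.range J).sigma (fun j => Finset.range (x / ((1 + j * N) * N)))
  have hT : T.card = ∑ j ∈ Finset.range J, x / ((1 + j * N) * N) := by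
    simp [T, Finset.card_sigma]
  rw [← hT]
  have hfinite : Finite {I : Ideal (𝓞 F) // (Ideal.absNorm I : ℝ) ≤ (x : ℝ)} := by
    have := Ideal.finite_setOfPred_absNorm_le (S := 𝓞 F) x
    refine Set.Finite.subset this ?_
    intro I hI
    have hI' : (Ideal.absNorm I : ℝ) ≤ (x : ℝ) := hI
    exact_mod_cast hI'
  have hnorm : ∀ i j : ℕ, Ideal.absNorm (primeProd P1 (1 + i * N) * primeProd P2 (1 + j * N)) =
      (1 + i * N) * (1 + j * N) := by
    intro i j
    rw [map_mul, primeProd_absNorm, primeProd_absNorm]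
    · omega
    · intro q hq
      exact (h2 q (Nat.prime_of_mem_primeFactorsList hq) (hfac _ q hq)).2.2
    · omega
    · intro q hq
      exact (h1 q (Nat.prime_of_mem_primeFactorsList hq) (hfac _ q hq)).2.2
  let f : T → {I : Ideal (𝓞 F) // (Ideal.absNorm I : ℝ) ≤ (x : ℝ)} := fun t =>
    ⟨primeProd P1 (1 + t.1.1 * N) * primeProd P2 (1 + t.1.2 * N), by
      rw [hnorm]
      have ht := t.2
      simp only [T, Finset.mem_sigma, Finset.mem_range] at ht
      have h3 : (1 + t.1.1 * N) * (1 + t.1.2 * N) ≤ x := by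
        have h4 : t.1.2 + 1 ≤ x / ((1 + t.1.1 * N) * N) := ht.2
        have h5 : (t.1.2 + 1) * ((1 + t.1.1 * N) * N) ≤ x :=
          (Nat.le_div_iff_mul_le (by positivity)).1 h4
        calc (1 + t.1.1 * N) * (1 + t.1.2 * N) ≤ (1 + t.1.1 * N) * (N + t.1.2 * N) := by
              gcongr
              exact hNpos
          _ = (t.1.2 + 1) * ((1 + t.1.1 * N) * N) := by ring
          _ ≤ x := h5
      exact_mod_cast h3⟩
  have hf : Function.Injective f := by
    rintro ⟨⟨i, j⟩, ht⟩ ⟨⟨i', j'⟩, ht'⟩ h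
    have h' := congrArg Subtype.val h
    simp only [f] at h'
    have := primeProd_pair_injective P1 P2 p0 h1 h2 h12 (by omega) (by omega) (by omega) (by omega)
      (hfac i) (hfac j) (hfac i') (hfac j') h'
    have e1 : i = i' := by
      have := this.1
      have h6 : i * N = i' * N := by omega
      exact Nat.eq_of_mul_eq_mul_right hNpos h6
    have e2 : j = j' := by
      have := this.2
      have h6 : j * N = j' * N := by omega
      exact Nat.eq_of_mul_eq_mul_right hNpos h6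
    subst e1; subst e2; rfl
  have := Nat.card_le_card_of_injective f hf
  simpa using this

theorem false_of_two_primes (P1 P2 : ℕ → Ideal (𝓞 F)) (p0 : ℕ)
    (h1 : ∀ q : ℕ, q.Prime → p0 ≤ q → (P1 q).IsPrime ∧ P1 q ≠ ⊥ ∧ Ideal.absNorm (P1 q) = q)
    (h2 : ∀ q : ℕ, q.Prime → p0 ≤ q → (P2 q).IsPrime ∧ P2 q ≠ ⊥ ∧ Ideal.absNorm (P2 q) = q)
    (h12 : ∀ q : ℕ, q.Prime → p0 ≤ q → P1 q ≠ P2 q) : False := by
  set N := p0.factorial with hN
  have hNpos : 0 < N := Nat.factorial_pos _
  have hNR : (0 : ℝ) < N := by exact_mod_cast hNpos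
  obtain ⟨κ, hκ⟩ : ∃ κ : ℝ, Tendsto (fun s : ℝ =>
      (Nat.card {I : Ideal (𝓞 F) // (Ideal.absNorm I : ℝ) ≤ s} : ℝ) / s) atTop (nhds κ) :=
    ⟨_, NumberField.Ideal.tendsto_norm_le_div_atTop F⟩
  have hκ' := hκ.comp tendsto_natCast_atTop_atTop
  -- lower bound for the limit
  have hlow : ∀ J : ℕ, (1 / (N * N : ℝ)) * ∑ j ∈ Finset.range J, (1 / ((j : ℝ) + 1)) ≤ κ := by
    intro J
    have hlim : Tendsto (fun x : ℕ => (∑ j ∈ Finset.range J,
        ((1 : ℝ) / ((1 + j * N) * N)) - (J : ℝ) / x)) atTop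
        (nhds (∑ j ∈ Finset.range J, ((1 : ℝ) / ((1 + j * N) * N)) - 0)) :=
      tendsto_const_nhds.sub (tendsto_const_div_atTop_nhds_zero_nat _)
    have hle : (∑ j ∈ Finset.range J, ((1 : ℝ) / ((1 + j * N) * N)) - 0) ≤ κ := by
      refine le_of_tendsto_of_tendsto hlim hκ' ?_
      filter_upwards [eventually_gt_atTop 0] with x hx
      have hxR : (0 : ℝ) < x := by exact_mod_cast hx
      have hc := card_ideals_ge F P1 P2 p0 h1 h2 h12 x J
      rw [← hN] at hc
      have hc' : (∑ j ∈ Finset.range J, ((x / ((1 + j * N) * N) : ℕ) : ℝ)) ≤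
          (Nat.card {I : Ideal (𝓞 F) // (Ideal.absNorm I : ℝ) ≤ (x : ℝ)} : ℝ) := by
        exact_mod_cast hc
      have hd : ∀ j : ℕ, (x : ℝ) / ((1 + j * N) * N) - 1 ≤ ((x / ((1 + j * N) * N) : ℕ) : ℝ) := by
        intro j
        have := Nat.lt_div_mul_add (a := x) (b := (1 + j * N) * N) (by positivity)
        have h3 : (x : ℝ) < ((x / ((1 + j * N) * N) : ℕ) : ℝ) * ((1 + j * N) * N) + (1 + j * N) * N := by
          exact_mod_cast this
        have hpos : (0 : ℝ) < (1 + j * N) * N := by positivity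
        rw [sub_le_iff_le_add, div_le_iff₀ hpos]
        nlinarith
      have hsum : (∑ j ∈ Finset.range J, ((x : ℝ) / ((1 + j * N) * N) - 1)) ≤
          (Nat.card {I : Ideal (𝓞 F) // (Ideal.absNorm I : ℝ) ≤ (x : ℝ)} : ℝ) :=
        (Finset.sum_le_sum (fun j _ => hd j)).trans hc'
      simp only [Function.comp]
      rw [le_div_iff₀ hxR]
      refine le_trans (le_of_eq ?_) hsum
      rw [Finset.sum_sub_distrib, sub_mul, Finset.sum_mul]
      congr 1
      · apply Finset.sum_congr rfl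
        intro j _
        ring
      · simp
        field_simp
    refine le_trans ?_ hle
    rw [sub_zero, Finset.mul_sum]
    apply Finset.sum_le_sum
    intro j _
    rw [← one_div_mul_one_div_rev]
    rw [one_div_mul_one_div_rev, one_div_mul_one_div_rev]
    apply one_div_le_one_div_of_le
    · positivity
    · have hN1 : (1 : ℝ) ≤ N := by exact_mod_cast hNpos
      have hj : (0 : ℝ) ≤ j := by positivity
      nlinarith [mul_nonneg hj (sub_nonneg.2 hN1), mul_pos hNR hNR]
  have hdiv := Real.tendsto_sum_range_one_div_nat_succ_atTop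
  have := (hdiv.eventually_gt_atTop (κ * (N * N))).exists
  obtain ⟨J, hJ⟩ := this
  have := hlow J
  rw [div_mul_eq_mul_div, one_mul, div_le_iff₀ (by positivity)] at this
  linarith

end Asymptotic

section Frobenius

/-- integers are fixed by Frobenius in characteristic `p` -/
theorem intCast_pow_char {Q : Type*} [CommRing Q] (p : ℕ) [Fact p.Prime] [CharP Q p] (n : ℤ) :
    (n : Q) ^ p = n := by
  have h := congrArg (ZMod.castHom (dvd_refl p) Q) (ZMod.pow_card (p := p) (n : ZMod p))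
  rw [map_pow, map_intCast] at h
  exact h

theorem frob_fixed_adjoin {O : Type*} [CommRing O] (P : Ideal O) (p : ℕ) [Fact p.Prime]
    [CharP (O ⧸ P) p] (a : O) (ha : a ^ p - a ∈ P) (x : O) (hx : x ∈ Algebra.adjoin ℤ {a}) :
    (Ideal.Quotient.mk P x) ^ p = Ideal.Quotient.mk P x := by
  induction hx using Algebra.adjoin_induction with
  | mem x hx =>
    rw [Set.mem_singleton_iff] at hx
    subst hx
    rw [← sub_eq_zero, ← map_pow, ← map_sub, Ideal.Quotient.eq_zero_iff_mem]
    exact ha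
  | algebraMap n =>
    simp only [algebraMap_int_eq, Int.coe_castRingHom, map_intCast]
    exact intCast_pow_char p n
  | add x y _ _ hx hy => rw [map_add, add_pow_char, hx, hy]
  | mul x y _ _ hx hy => rw [map_mul, mul_pow, hx, hy]

variable (F : Type*) [Field F] [NumberField F]

theorem exists_index (a : 𝓞 F) (hgen : Algebra.adjoin ℚ {(a : F)} = ⊤) :
    ∃ d : ℤ, d ≠ 0 ∧ ∀ z : 𝓞 F, (d : 𝓞 F) * z ∈ Algebra.adjoin ℤ {a} := by
  have hint : IsIntegral ℤ (a : F) := a.2
  have hintQ : IsIntegral ℚ (a : F) := hint.tower_top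
  let B : PowerBasis ℚ F := PowerBasis.ofAdjoinEqTop hintQ hgen
  have hBgen : B.gen = (a : F) := PowerBasis.ofAdjoinEqTop_gen _ _
  have hdi : IsIntegral ℤ (Algebra.discr ℚ B.basis) := by
    apply Algebra.discr_isIntegral
    intro i
    rw [B.basis_eq_pow, hBgen]
    exact hint.pow _
  obtain ⟨d, hd⟩ := IsIntegrallyClosed.isIntegral_iff.1 hdi
  have hd0 : Algebra.discr ℚ B.basis ≠ 0 := Algebra.discr_not_zero_of_basis ℚ B.basis
  refine ⟨d, ?_, ?_⟩
  · rintro rfl
    apply hd0
    rw [← hd, map_zero]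
  · intro z
    have h := Algebra.discr_mul_isIntegral_mem_adjoin (R := ℤ) ℚ (B := B) (by rw [hBgen]; exact hint)
      (z := (z : F)) z.2
    rw [← hd, hBgen] at h
    have hmap : Algebra.adjoin ℤ {(a : F)} =
        (Algebra.adjoin ℤ {a}).map (IsScalarTower.toAlgHom ℤ (𝓞 F) F) := by
      rw [AlgHom.map_adjoin_singleton]
      rfl
    rw [hmap, Subalgebra.mem_map] at h
    obtain ⟨w, hw, hw2⟩ := h
    have : (d : 𝓞 F) * z = w := by
      apply RingOfIntegers.coe_injective
      have h3 : algebraMap (𝓞 F) F w = (algebraMap ℤ ℚ) d • (z : F) := hw2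
      rw [h3]
      simp [Algebra.smul_def]
    rw [this]
    exact hw

theorem natDegree_frob {Q : Type*} [CommRing Q] [IsDomain Q] (p : ℕ) (hp : 1 < p) :
    ((Polynomial.X : Polynomial Q) ^ p - Polynomial.X).natDegree = p := by
  rw [Polynomial.natDegree_sub_eq_left_of_natDegree_lt]
  · simp
  · simp [hp]

theorem natCard_eq_of_frob {Q : Type*} [CommRing Q] [IsDomain Q] (p : ℕ) [hp : Fact p.Prime]
    [CharP Q p] (h : ∀ z : Q, z ^ p = z) :
    Nat.card Q = p ∧ ∀ z : Q, ∃ j : ℤ, z = j := by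
  classical
  have hne : ((Polynomial.X : Polynomial Q) ^ p - Polynomial.X) ≠ 0 := by
    intro h0
    have := natDegree_frob (Q := Q) p hp.out.one_lt
    rw [h0, Polynomial.natDegree_zero] at this
    exact hp.out.ne_zero this.symm
  have hroot : ∀ z : Q, z ∈ ((Polynomial.X : Polynomial Q) ^ p - Polynomial.X).roots := by
    intro z
    rw [Polynomial.mem_roots hne]
    simp [h z]
  have hsub : ∀ s : Finset Q, s.card ≤ p := by
    intro s
    have h1 : s ⊆ ((Polynomial.X : Polynomial Q) ^ p - Polynomial.X).roots.toFinset := by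
      intro z _
      rw [Multiset.mem_toFinset]
      exact hroot z
    calc s.card ≤ _ := Finset.card_le_card h1
      _ ≤ Multiset.card ((Polynomial.X : Polynomial Q) ^ p - Polynomial.X).roots :=
        Multiset.toFinset_card_le _
      _ ≤ ((Polynomial.X : Polynomial Q) ^ p - Polynomial.X).natDegree :=
        Polynomial.card_roots' _
      _ = p := natDegree_frob p hp.out.one_lt
  have hfin : Finite Q := by
    by_contra hinf
    rw [not_finite_iff_infinite] at hinf
    obtain ⟨s, hs⟩ := Infinite.exists_subset_card_eq Q (p + 1)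
    have := hsub s
    omega
  have : Fintype Q := Fintype.ofFinite _
  have hinj : Function.Injective (ZMod.castHom (dvd_refl p) Q) := RingHom.injective _
  have hle : Nat.card Q ≤ p := by
    rw [Nat.card_eq_fintype_card]
    exact hsub Finset.univ
  have hge : p ≤ Nat.card Q := by
    have := Nat.card_le_card_of_injective _ hinj
    simpa using this
  have hcard : Nat.card Q = p := le_antisymm hle hge
  refine ⟨hcard, ?_⟩
  intro z
  have hbij : Function.Bijective (ZMod.castHom (dvd_refl p) Q) := by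
    rw [Fintype.bijective_iff_injective_and_card]
    refine ⟨hinj, ?_⟩
    rw [ZMod.card, ← Nat.card_eq_fintype_card, hcard]
  obtain ⟨w, hw⟩ := hbij.2 z
  refine ⟨(w.val : ℤ), ?_⟩
  rw [← hw]
  simp

theorem natCard_quot_eq {O : Type*} [CommRing O] (P : Ideal O) [P.IsPrime] (p : ℕ) [Fact p.Prime]
    [CharP (O ⧸ P) p] (h : ∀ z : O, (Ideal.Quotient.mk P z) ^ p = Ideal.Quotient.mk P z) :
    Nat.card (O ⧸ P) = p ∧ ∀ z : O, ∃ j : ℤ, z - j ∈ P := by
  have h' : ∀ z : O ⧸ P, z ^ p = z := by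
    intro z
    obtain ⟨w, rfl⟩ := Ideal.Quotient.mk_surjective z
    exact h w
  obtain ⟨h1, h2⟩ := natCard_eq_of_frob (Q := O ⧸ P) p h'
  refine ⟨h1, fun z => ?_⟩
  obtain ⟨j, hj⟩ := h2 (Ideal.Quotient.mk P z)
  refine ⟨j, ?_⟩
  rw [← Ideal.Quotient.eq_zero_iff_mem, map_sub, sub_eq_zero, hj, map_intCast]

theorem trace_dvd_of_pow (x : 𝓞 F) (p : ℕ) [Fact p.Prime] (k : ℕ) (z : 𝓞 F)
    (h : x ^ k = (p : 𝓞 F) * z) : (p : ℤ) ∣ Algebra.trace ℤ (𝓞 F) x := by
  classical
  let B := RingOfIntegers.basis F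
  rw [Algebra.trace_eq_matrix_trace B]
  set M := Algebra.leftMulMatrix B x with hM
  have h1 : M ^ k = (p : Matrix _ _ ℤ) * Algebra.leftMulMatrix B z := by
    rw [hM, ← map_pow, h, map_mul, map_natCast]
  have h2 : (M.map (Int.castRingHom (ZMod p))) ^ k = 0 := by
    have h3 : (Int.castRingHom (ZMod p)).mapMatrix M ^ k = 0 := by
      rw [← map_pow, h1, map_mul, map_natCast]
      have : ((p : ℕ) : Matrix (Module.Free.ChooseBasisIndex ℤ (𝓞 F))
          (Module.Free.ChooseBasisIndex ℤ (𝓞 F)) (ZMod p)) = 0 := by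
        ext i j
        rw [Matrix.natCast_apply]
        simp
      rw [this, zero_mul]
    simpa using h3
  have h4 : IsNilpotent (M.map (Int.castRingHom (ZMod p))).trace :=
    Matrix.isNilpotent_trace_of_isNilpotent ⟨k, h2⟩
  have h5 := h4.eq_zero
  rw [← ZMod.intCast_zmod_eq_zero_iff_dvd]
  rw [← h5]
  simp [Matrix.trace]

theorem finrank_eq_one_of_frobenius (a : 𝓞 F) (hgen : Algebra.adjoin ℚ {(a : F)} = ⊤)
    (h : ∀ᶠ p : ℕ in atTop, p.Prime → ∀ P : Ideal (𝓞 F), P.IsPrime → (p : 𝓞 F) ∈ P →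
      a ^ p - a ∈ P) : Module.finrank ℚ F = 1 := by
  classical
  by_contra hfr
  obtain ⟨d, hd0, hd⟩ := exists_index F a hgen
  set n := Module.finrank ℤ (𝓞 F) with hn
  have hnn : n = Module.finrank ℚ F := RingOfIntegers.rank F
  have hnpos : 0 < n := by rw [hnn]; exact Module.finrank_pos
  set t := Algebra.trace ℤ (𝓞 F) a with ht
  set a0 : 𝓞 F := (n : 𝓞 F) * a - (t : 𝓞 F) with ha0
  have htr : ∀ j : ℤ, Algebra.trace ℤ (𝓞 F) (a0 - (j : 𝓞 F)) = - (n * j) := by
    intro j
    have e1 : a0 - (j : 𝓞 F) = (n : ℤ) • a - algebraMap ℤ (𝓞 F) (t + j) := by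
      rw [ha0]
      simp only [zsmul_eq_mul, Int.cast_natCast, algebraMap_int_eq, Int.coe_castRingHom, Int.cast_add]
      ring
    rw [e1, map_sub, map_zsmul, Algebra.trace_algebraMap, ← hn, ← ht]
    simp
    ring
  have ha0ne : a0 ≠ 0 := by
    intro h0
    apply hfr
    have h1 : (a : F) = algebraMap ℚ F ((t : ℚ) / n) := by
      have h2 : (n : F) * (a : F) - (t : F) = 0 := by
        have := congrArg (fun x : 𝓞 F => (x : F)) h0
        simpa [ha0] using this
      have hnF : (n : F) ≠ 0 := by exact_mod_cast hnpos.ne'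
      rw [map_div₀, eq_div_iff (by simpa using hnF)]
      simp
      linear_combination h2
    have h3 : Algebra.adjoin ℚ {(a : F)} = ⊥ := by
      rw [h1, eq_bot_iff, Algebra.adjoin_le_iff]
      rintro x hx
      rw [Set.mem_singleton_iff] at hx
      rw [hx]
      exact Subalgebra.algebraMap_mem _ _
    rw [h3] at hgen
    have h4 := Subalgebra.bot_eq_top_iff_finrank_eq_one.1 hgen
    exact h4
  have hnorm : Algebra.norm ℤ a0 ≠ 0 := by
    rw [Ne, Algebra.norm_eq_zero_iff]
    exact ha0ne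
  -- eventually facts
  have hev : ∀ᶠ p : ℕ in atTop, p.Prime →
      ∃ P1 P2 : Ideal (𝓞 F), ((P1).IsPrime ∧ P1 ≠ ⊥ ∧ Ideal.absNorm P1 = p) ∧
        ((P2).IsPrime ∧ P2 ≠ ⊥ ∧ Ideal.absNorm P2 = p) ∧ P1 ≠ P2 := by
    filter_upwards [h, eventually_gt_atTop d.natAbs, eventually_gt_atTop n,
      eventually_gt_atTop (Algebra.norm ℤ a0).natAbs] with p hp hpd hpn hpN hpp
    have : Fact p.Prime := ⟨hpp⟩
    have hndvd : ∀ m : ℤ, m ≠ 0 → m.natAbs < p → ¬ (p : ℤ) ∣ m := by
      intro m hm hlt hdvd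
      have := Int.natAbs_dvd_natAbs.2 hdvd
      have := Nat.le_of_dvd (Int.natAbs_pos.2 hm) this
      simp at this
      omega
    have hmemint : ∀ P : Ideal (𝓞 F), P.IsPrime → (p : 𝓞 F) ∈ P → ∀ m : ℤ, (m : 𝓞 F) ∈ P →
        (p : ℤ) ∣ m := by
      intro P hP hpP m hm
      by_contra hdvd
      have hc : IsCoprime (p : ℤ) m := by
        rw [Int.isCoprime_iff_gcd_eq_one]
        rcases (Nat.Prime.coprime_iff_not_dvd hpp (n := m.natAbs)).2 (by
          intro h; apply hdvd; exact Int.natCast_dvd.2 h) with h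
        exact h
      obtain ⟨u, v, huv⟩ := hc
      apply hP.ne_top
      rw [Ideal.eq_top_iff_one]
      have : (1 : 𝓞 F) = (u : 𝓞 F) * (p : 𝓞 F) + (v : 𝓞 F) * (m : 𝓞 F) := by
        exact_mod_cast congrArg (Int.cast : ℤ → 𝓞 F) huv.symm
      rw [this]
      exact P.add_mem (P.mul_mem_left _ hpP) (P.mul_mem_left _ hm)
    have hprime : ∀ P : Ideal (𝓞 F), P.IsPrime → (p : 𝓞 F) ∈ P →
        (P ≠ ⊥ ∧ Ideal.absNorm P = p) ∧ ∀ z : 𝓞 F, ∃ j : ℤ, z - j ∈ P := by
      intro P hP hpP
      have hchar : CharP (𝓞 F ⧸ P) p := by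
        rw [CharP.charP_iff_prime_eq_zero hpp]
        rw [← map_natCast (Ideal.Quotient.mk P), Ideal.Quotient.eq_zero_iff_mem]
        exact hpP
      have hfix : ∀ z : 𝓞 F, (Ideal.Quotient.mk P z) ^ p = Ideal.Quotient.mk P z := by
        intro z
        have h1 := frob_fixed_adjoin P p a (hp hpp P hP hpP) _ (hd z)
        rw [map_mul, mul_pow, map_intCast, intCast_pow_char] at h1
        have h2 : ((d : ℤ) : 𝓞 F ⧸ P) ≠ 0 := by
          rw [← map_intCast (Ideal.Quotient.mk P), Ne, Ideal.Quotient.eq_zero_iff_mem]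
          intro h3
          exact hndvd d hd0 hpd (hmemint P hP hpP d h3)
        exact mul_left_cancel₀ h2 h1
      obtain ⟨h1, h2⟩ := natCard_quot_eq P p hfix
      refine ⟨⟨?_, ?_⟩, h2⟩
      · rintro rfl
        have : (p : 𝓞 F) = 0 := by simpa using hpP
        exact hpp.ne_zero (by exact_mod_cast this)
      · rw [Ideal.absNorm_apply, Submodule.cardQuot_apply]
        exact h1
    have hne : Ideal.span {(p : 𝓞 F)} ≠ ⊤ := by
      intro htop
      have h1 : Ideal.absNorm (Ideal.span {(p : 𝓞 F)}) = 1 := by rw [htop]; simp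
      rw [Ideal.absNorm_span_singleton, Algebra.norm_natCast (R := ℤ)] at h1
      rw [← hn] at h1
      have h2 : p ^ n = 1 := by
        rw [Int.natAbs_pow] at h1
        simpa using h1
      have h3 : 1 < p ^ n := Nat.one_lt_pow hnpos.ne' hpp.one_lt
      omega
    obtain ⟨P1, hP1, hle⟩ := Ideal.exists_le_maximal _ hne
    have hpP1 : (p : 𝓞 F) ∈ P1 := (Ideal.span_singleton_le_iff_mem _).1 hle
    have hP1' := hP1.isPrime
    by_cases huniq : ∀ P : Ideal (𝓞 F), P.IsPrime → (p : 𝓞 F) ∈ P → P = P1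
    · exfalso
      obtain ⟨⟨h1, h2⟩, h3⟩ := hprime P1 hP1' hpP1
      obtain ⟨j, hj⟩ := h3 a0
      have hrad : a0 - j ∈ (Ideal.span {(p : 𝓞 F)}).radical := by
        rw [Ideal.radical_eq_sInf, Ideal.mem_sInf]
        rintro Q ⟨hQ1, hQ2⟩
        rw [huniq Q hQ2 ((Ideal.span_singleton_le_iff_mem _).1 hQ1)]
        exact hj
      obtain ⟨k, hk⟩ := Ideal.mem_radical_iff.1 hrad
      obtain ⟨z, hz⟩ := Ideal.mem_span_singleton.1 hk
      have h4 := trace_dvd_of_pow F _ p k z hz
      rw [htr, dvd_neg] at h4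
      have hpp' : Prime (p : ℤ) := Nat.prime_iff_prime_int.1 hpp
      have hpj : (p : ℤ) ∣ j := by
        rcases hpp'.dvd_or_dvd h4 with h5 | h5
        · exfalso
          exact hndvd n (by exact_mod_cast hnpos.ne') (by simpa using hpn) h5
        · exact h5
      have ha0P : a0 ∈ P1 := by
        have : (j : 𝓞 F) ∈ P1 := by
          obtain ⟨c, rfl⟩ := hpj
          push_cast
          exact P1.mul_mem_right _ hpP1
        have := P1.add_mem hj this
        simpa using this
      have h6 := Ideal.absNorm_dvd_norm_of_mem ha0P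
      rw [h2] at h6
      exact hndvd _ hnorm hpN h6
    · push Not at huniq
      obtain ⟨P2, hP2, hpP2, hne2⟩ := huniq
      exact ⟨P1, P2, ⟨hP1', (hprime P1 hP1' hpP1).1⟩, ⟨hP2, (hprime P2 hP2 hpP2).1⟩, hne2.symm⟩
  obtain ⟨p0, hp0⟩ := eventually_atTop.1 hev
  choose! P1 P2 hP using hp0
  exact false_of_two_primes F P1 P2 p0
    (fun q hq hq0 => (hP q hq0 hq).1) (fun q hq hq0 => (hP q hq0 hq).2.1)
    (fun q hq hq0 => (hP q hq0 hq).2.2)

end Frobenius

end Helper12
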