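import Mathlib
import Pool.Agent.Helper12.CommAlg
import Pool.Agent.Helper12.NumField

namespace Helper12

open Filter NumberField

/-- powers of a denominator clear the ring generated by `e` -/
theorem exists_pow_mul_integral {L : Type*} [CommRing L] (e : L) (d : ℤ)
    (hd : IsIntegral ℤ ((d : L) * e)) (z : L) (hz : z ∈ Algebra.adjoin ℤ {e}) :
    ∃ N : ℕ, IsIntegral ℤ ((d : L) ^ N * z) := by
  have hdi : IsIntegral ℤ (d : L) := by
    have : (d : L) = algebraMap ℤ L d := by simp
    rw [this]
    exact isIntegral_algebraMap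
  induction hz using Algebra.adjoin_induction with
  | mem x hx =>
    rw [Set.mem_singleton_iff] at hx
    subst hx
    exact ⟨1, by simpa using hd⟩
  | algebraMap n =>
    exact ⟨0, by simpa using (isIntegral_algebraMap (R := ℤ) (A := L) (x := n))⟩
  | add x y _ _ hx hy =>
    obtain ⟨N, hN⟩ := hx
    obtain ⟨M, hM⟩ := hy
    refine ⟨N + M, ?_⟩
    have : (d : L) ^ (N + M) * (x + y) = (d : L) ^ M * ((d : L) ^ N * x) +
      (d : L) ^ N * ((d : L) ^ M * y) := by ring
    rw [this]
    exact ((hdi.pow M).mul hN).add ((hdi.pow N).mul hM)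
  | mul x y _ _ hx hy =>
    obtain ⟨N, hN⟩ := hx
    obtain ⟨M, hM⟩ := hy
    refine ⟨N + M, ?_⟩
    have : (d : L) ^ (N + M) * (x * y) = ((d : L) ^ N * x) * ((d : L) ^ M * y) := by ring
    rw [this]
    exact hN.mul hM

theorem rational_of_frobenius_aux {D : Type*} [CommRing D] [CharZero D]
    {L : Type*} [Field L] [CharZero L] (ι : D →+* L) (hDL : Function.Injective ι) (e : D)
    (d : ℤ) (hd0 : d ≠ 0) (hd : IsIntegral ℤ ((d : D) * e))
    (hA : ∀ᶠ p : ℕ in atTop, p.Prime → ∃ (k : ℕ) (z : D), z ∈ Algebra.adjoin ℤ {e} ∧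
      (e ^ p - e) ^ k = (p : D) * z) :
    ∃ a b : ℤ, b ≠ 0 ∧ (b : D) * e = a := by
  classical
  set a' : L := (d : L) * ι e with ha'
  have ha'i : IsIntegral ℤ a' := by
    have := hd.map (ι.toIntAlgHom)
    simpa [ha'] using this
  have ha'Q : IsIntegral ℚ a' := ha'i.tower_top
  let F := IntermediateField.adjoin ℚ {a'}
  have hfd : FiniteDimensional ℚ F := IntermediateField.adjoin.finiteDimensional ha'Q
  have hNF : NumberField F := { to_charZero := inferInstance, to_finiteDimensional := hfd }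
  have hgenmem : a' ∈ F := IntermediateField.mem_adjoin_simple_self ℚ a'
  let aF : F := ⟨a', hgenmem⟩
  have hinjFL : Function.Injective (algebraMap F L) := (algebraMap F L).injective
  have haFi : IsIntegral ℤ aF := (isIntegral_algebraMap_iff (A := F) (B := L) hinjFL).1 ha'i
  let a : 𝓞 F := ⟨aF, haFi⟩
  have hgen : Algebra.adjoin ℚ {(a : F)} = ⊤ := by
    have := (IntermediateField.adjoin.powerBasis ha'Q).adjoin_gen_eq_top
    rw [IntermediateField.adjoin.powerBasis_gen] at this
    exact this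
  have hdL : (d : L) ≠ 0 := by exact_mod_cast hd0
  have hdF : (d : F) ≠ 0 := by exact_mod_cast hd0
  have hfr := finrank_eq_one_of_frobenius F a hgen ?_
  · -- conclude
    have hbot : (⊥ : Subalgebra ℚ F) = ⊤ := Subalgebra.bot_eq_top_of_finrank_eq_one hfr
    have h1 : aF ∈ (⊥ : Subalgebra ℚ F) := by rw [hbot]; trivial
    rw [Algebra.mem_bot] at h1
    obtain ⟨q, hq⟩ := h1
    have h2 : a' = (q : L) := by
      have := congrArg (fun x : F => (x : L)) hq
      simpa [aF] using this.symm
    refine ⟨q.num, d * q.den, ?_, ?_⟩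
    · have := q.den_ne_zero
      positivity
    · apply hDL
      rw [map_mul, map_intCast, map_intCast]
      have h3 : (q.den : L) ≠ 0 := by exact_mod_cast q.den_ne_zero
      have h4 : (q : L) = (q.num : L) / (q.den : L) := Rat.cast_def q
      have h5 : (d : L) * ι e = (q.num : L) / (q.den : L) := by rw [← h4, ← h2]
      rw [eq_div_iff h3] at h5
      push_cast
      linear_combination h5
  · filter_upwards [hA, eventually_gt_atTop d.natAbs] with p hp hpd hpp P hP hpP
    have : Fact p.Prime := ⟨hpp⟩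
    obtain ⟨k, z, hz, hk⟩ := hp hpp
    -- transport to `L`
    have hzL : ι z ∈ Algebra.adjoin ℤ {ι e} := by
      have h7 : ι.toIntAlgHom z ∈ (Algebra.adjoin ℤ {e}).map ι.toIntAlgHom :=
        Subalgebra.mem_map.2 ⟨z, hz, rfl⟩
      rw [AlgHom.map_adjoin_singleton] at h7
      exact h7
    obtain ⟨N, hN⟩ := exists_pow_mul_integral (ι e) d ha'i (ι z) hzL
    have hzF : ι z ∈ F := by
      have heF : ι e ∈ F := by
        have : ι e = (d : L)⁻¹ * a' := by
          rw [ha', ← mul_assoc, inv_mul_cancel₀ hdL, one_mul]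
        rw [this]
        exact F.mul_mem (F.inv_mem (intCast_mem F d)) hgenmem
      have hle : Algebra.adjoin ℤ {ι e} ≤ F.toSubalgebra.restrictScalars ℤ := by
        rw [Algebra.adjoin_le_iff]
        intro x hx
        rw [Set.mem_singleton_iff] at hx
        rw [hx]
        exact heF
      exact hle hzL
    let wF : F := (d : F) ^ N * ⟨ι z, hzF⟩
    have hwFi : IsIntegral ℤ wF := by
      apply (isIntegral_algebraMap_iff (A := F) (B := L) hinjFL).1
      have : algebraMap F L wF = (d : L) ^ N * ι z := by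
        simp [wF]
      rw [this]
      exact hN
    let w : 𝓞 F := ⟨wF, hwFi⟩
    have hkL : ((ι e) ^ p - ι e) ^ k = (p : L) * ι z := by
      have := congrArg ι hk
      simpa using this
    have hkey : ((a : 𝓞 F) ^ p - (d : 𝓞 F) ^ (p - 1) * a) ^ k * (d : 𝓞 F) ^ N =
        (p : 𝓞 F) * ((d : 𝓞 F) ^ (p * k) * w) := by
      apply RingOfIntegers.coe_injective
      apply hinjFL
      have e1 : algebraMap F L (algebraMap (𝓞 F) F a) = (d : L) * ι e := rfl
      have e2 : algebraMap F L (algebraMap (𝓞 F) F w) = (d : L) ^ N * ι z := by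
        change algebraMap F L wF = _
        simp [wF]
      simp only [map_mul, map_pow, map_sub, map_intCast, map_natCast]
      rw [e1, e2]
      have e3 : ((d : L) * ι e) ^ p - (d : L) ^ (p - 1) * ((d : L) * ι e) =
          (d : L) ^ p * ((ι e) ^ p - ι e) := by
        have : (d : L) ^ p = (d : L) ^ (p - 1) * (d : L) := by
          rw [← pow_succ, Nat.sub_add_cancel hpp.one_le]
        rw [mul_pow, mul_sub, this]
        ring
      rw [e3, mul_pow, hkL, ← pow_mul]
      ring
    have hpd' : ¬ (p : ℤ) ∣ d := by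
      intro hdvd
      have := Int.natAbs_dvd_natAbs.2 hdvd
      have := Nat.le_of_dvd (Int.natAbs_pos.2 hd0) this
      simp at this
      omega
    have hdP : (d : 𝓞 F) ∉ P := by
      intro hm
      have hc : IsCoprime (p : ℤ) d := by
        rw [Int.isCoprime_iff_gcd_eq_one]
        rcases (Nat.Prime.coprime_iff_not_dvd hpp (n := d.natAbs)).2 (by
          intro h; apply hpd'; exact Int.natCast_dvd.2 h) with h
        exact h
      obtain ⟨u, v, huv⟩ := hc
      apply hP.ne_top
      rw [Ideal.eq_top_iff_one]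
      have : (1 : 𝓞 F) = (u : 𝓞 F) * (p : 𝓞 F) + (v : 𝓞 F) * (d : 𝓞 F) := by
        exact_mod_cast congrArg (Int.cast : ℤ → 𝓞 F) huv.symm
      rw [this]
      exact P.add_mem (P.mul_mem_left _ hpP) (P.mul_mem_left _ hm)
    have hmem : ((a : 𝓞 F) ^ p - (d : 𝓞 F) ^ (p - 1) * a) ^ k * (d : 𝓞 F) ^ N ∈ P := by
      rw [hkey]
      exact P.mul_mem_right _ hpP
    have hmem2 : (a : 𝓞 F) ^ p - (d : 𝓞 F) ^ (p - 1) * a ∈ P := by
      rcases hP.mem_or_mem hmem with h1 | h1
      · exact hP.mem_of_pow_mem _ h1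
      · exact absurd (hP.mem_of_pow_mem _ h1) hdP
    have hfer : (p : ℤ) ∣ d ^ (p - 1) - 1 := by
      rw [← ZMod.intCast_zmod_eq_zero_iff_dvd]
      push_cast
      have hdz : (d : ZMod p) ≠ 0 := by
        rw [Ne, ZMod.intCast_zmod_eq_zero_iff_dvd]
        exact hpd'
      rw [ZMod.pow_card_sub_one_eq_one hdz, sub_self]
    obtain ⟨c, hc⟩ := hfer
    have hfer' : (d : 𝓞 F) ^ (p - 1) - 1 = (p : 𝓞 F) * (c : 𝓞 F) := by
      exact_mod_cast congrArg (Int.cast : ℤ → 𝓞 F) hc
    have : (a : 𝓞 F) ^ p - a = ((a : 𝓞 F) ^ p - (d : 𝓞 F) ^ (p - 1) * a) +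
        (p : 𝓞 F) * ((c : 𝓞 F) * a) := by
      linear_combination hfer' * a
    rw [this]
    exact P.add_mem hmem2 (P.mul_mem_right _ hpP)

theorem rational_of_frobenius {D : Type*} [CommRing D] [IsDomain D] [CharZero D]
    [Algebra.FiniteType ℤ D] (e : D)
    (h : ∀ᶠ p : ℕ in atTop, p.Prime → e ^ p - e ∈ (Ideal.span {(p : D)}).radical) :
    ∃ a b : ℤ, b ≠ 0 ∧ (b : D) * e = a := by
  classical
  -- descend to `ℤ[e]`
  have hA : ∀ᶠ p : ℕ in atTop, p.Prime → ∃ (k : ℕ) (z : D), z ∈ Algebra.adjoin ℤ {e} ∧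
      (e ^ p - e) ^ k = (p : D) * z := by
    have hft : Algebra.FiniteType ℤ (Algebra.adjoin ℤ {e}) := by
      have := Subalgebra.fg_adjoin_finset (R := ℤ) ({e} : Finset D)
      rw [Finset.coe_singleton] at this
      exact (Subalgebra.fg_iff_finiteType _).1 this
    have hinj : Function.Injective ((Algebra.adjoin ℤ {e}).val.toRingHom) := Subtype.val_injective
    filter_upwards [h, eventually_radical_descend' (A := Algebra.adjoin ℤ {e}) (B := D)
      ((Algebra.adjoin ℤ {e}).val.toRingHom) hinj] with p h1 h2 hp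
    have he : e ∈ Algebra.adjoin ℤ {e} := Algebra.self_mem_adjoin_singleton ℤ e
    have h3 := h2 hp (⟨e, he⟩ ^ p - ⟨e, he⟩) (by simpa using h1 hp)
    obtain ⟨k, hk⟩ := Ideal.mem_radical_iff.1 h3
    obtain ⟨z, hz⟩ := Ideal.mem_span_singleton.1 hk
    refine ⟨k, z, z.2, ?_⟩
    have := congrArg (fun x : Algebra.adjoin ℤ {e} => (x : D)) hz
    simpa using this
  by_cases htr : Transcendental ℤ e
  · exfalso
    obtain ⟨p, hp1, hp2⟩ := ((hA.and (eventually_ge_atTop 0)).and_frequently
      (Nat.frequently_atTop_iff_infinite.2 Nat.infinite_setOfPred_prime)).exists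
    obtain ⟨k, z, hz, hk⟩ := hp1.1 hp2
    rw [Algebra.adjoin_singleton_eq_range_aeval] at hz
    obtain ⟨Z, rfl⟩ := hz
    have hinj := transcendental_iff_injective.1 htr
    have h1 : ((Polynomial.X : Polynomial ℤ) ^ p - Polynomial.X) ^ k = (p : Polynomial ℤ) * Z := by
      apply hinj
      simpa using hk
    have : Fact p.Prime := ⟨hp2⟩
    have h2 := congrArg (Polynomial.map (Int.castRingHom (ZMod p))) h1
    simp only [Polynomial.map_pow, Polynomial.map_sub, Polynomial.map_X, Polynomial.map_mul,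
      Polynomial.map_natCast] at h2
    have h3 : ((p : ℕ) : Polynomial (ZMod p)) = 0 := by
      rw [← Polynomial.C_eq_natCast]
      simp
    rw [h3, zero_mul] at h2
    have h4 : ((Polynomial.X : Polynomial (ZMod p)) ^ p - Polynomial.X) = 0 :=
      eq_zero_of_pow_eq_zero h2
    have h5 := natDegree_frob (Q := ZMod p) p hp2.one_lt
    rw [h4, Polynomial.natDegree_zero] at h5
    exact hp2.ne_zero h5.symm
  · rw [Transcendental, not_not] at htr
    obtain ⟨d, hd0, hd⟩ := IsAlgebraic.exists_integral_multiple htr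
    rw [zsmul_eq_mul] at hd
    have : CharZero (FractionRing D) :=
      charZero_of_injective_algebraMap (IsFractionRing.injective D (FractionRing D))
    exact rational_of_frobenius_aux (algebraMap D (FractionRing D))
      (IsFractionRing.injective D (FractionRing D)) e d hd0 hd hA

end Helper12
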