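import Mathlib

namespace Helper12

open Polynomial

section Recursion

variable {S : Type*} [CommRing S]

/-- The numerators of the iterates of a cyclic connection. -/
def num (r : ℕ) (d : S → S) (φ : S) (g : ℕ → S) : ℕ → ℕ → S
  | 0, i => if i = 0 then 1 else 0
  | ν + 1, i => d (num r d φ g ν i) - (((ν : ℤ) - (i : ℤ) : ℤ) : S) * φ * num r d φ g ν i
      + (if i = 0 then 0 else num r d φ g ν (i - 1)) - g i * num r d φ g ν (r - 1)

theorem num_zero (r : ℕ) (d : S → S) (φ : S) (g : ℕ → S) (i : ℕ) :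
    num r d φ g 0 i = if i = 0 then 1 else 0 := rfl

theorem num_succ (r : ℕ) (d : S → S) (φ : S) (g : ℕ → S) (ν i : ℕ) :
    num r d φ g (ν + 1) i = d (num r d φ g ν i)
      - (((ν : ℤ) - (i : ℤ) : ℤ) : S) * φ * num r d φ g ν i
      + (if i = 0 then 0 else num r d φ g ν (i - 1)) - g i * num r d φ g ν (r - 1) := rfl

variable {S' : Type*} [CommRing S']

/-- Transformation rule. -/
theorem num_transform (r : ℕ) (hr : 0 < r) (d : S → S) (φ : S) (g : ℕ → S)
    (d' : S' → S') (φ' : S') (g' : ℕ → S') (Ξ : S →+* S') (ω : S')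
    (hd : ∀ a, d' (Ξ a) = ω * Ξ (d a)) (hdω : ∀ (k : ℕ) (x : S'), d' (ω ^ k * x) = ω ^ k * d' x)
    (hφ : φ' = ω * Ξ φ) (hg : ∀ i < r, g' i = ω ^ (r - i) * Ξ (g i)) (ν : ℕ) :
    ∀ i < r, ω ^ i * num r d' φ' g' ν i = ω ^ ν * Ξ (num r d φ g ν i) := by
  subst hφ
  induction ν with
  | zero =>
    intro i hi
    rw [num_zero, num_zero]
    by_cases h : i = 0
    · subst h; simp
    · simp [h]
  | succ ν ih =>
    intro i hi
    rw [num_succ, num_succ, map_sub, map_add, map_sub, map_mul, map_mul, map_intCast, map_mul]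
    have e1 : ω ^ i * d' (num r d' (ω * Ξ φ) g' ν i) = ω ^ (ν + 1) * Ξ (d (num r d φ g ν i)) := by
      rw [← hdω, ih i hi, hdω, hd]
      ring
    have e2 : ω ^ i * ((((ν : ℤ) - (i : ℤ) : ℤ) : S') * (ω * Ξ φ) * num r d' (ω * Ξ φ) g' ν i) =
        ω ^ (ν + 1) * ((((ν : ℤ) - (i : ℤ) : ℤ) : S') * Ξ φ * Ξ (num r d φ g ν i)) := by
      have := ih i hi
      linear_combination (((ν : ℤ) - (i : ℤ) : ℤ) : S') * ω * Ξ φ * this
    have e3 : ω ^ i * (if i = 0 then 0 else num r d' (ω * Ξ φ) g' ν (i - 1)) =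
        ω ^ (ν + 1) * Ξ (if i = 0 then 0 else num r d φ g ν (i - 1)) := by
      by_cases h : i = 0
      · simp [h]
      · simp only [h, if_false]
        have h1 := ih (i - 1) (by omega)
        have h2 : ω ^ i = ω * ω ^ (i - 1) := by
          rw [← pow_succ', Nat.sub_add_cancel (Nat.pos_of_ne_zero h)]
        rw [h2]
        linear_combination ω * h1
    have e4 : ω ^ i * (g' i * num r d' (ω * Ξ φ) g' ν (r - 1)) =
        ω ^ (ν + 1) * (Ξ (g i) * Ξ (num r d φ g ν (r - 1))) := by
      have h1 := ih (r - 1) (by omega)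
      rw [hg i hi]
      have h2 : ω ^ i * ω ^ (r - i) = ω * ω ^ (r - 1) := by
        rw [← pow_add, ← pow_succ']
        congr 1
        omega
      linear_combination Ξ (g i) * num r d' (ω * Ξ φ) g' ν (r - 1) * h2 + ω * Ξ (g i) * h1
    linear_combination e1 - e2 + e3 - e4

/-- falling product with step `c` -/
def fall (c θ : S) : ℕ → S
  | 0 => 1
  | n + 1 => fall c θ n * (θ - n * c)

theorem num_const (r : ℕ) (hr : 0 < r) (c : S) (γ : ℕ → S) (θ : S)
    (hθ : fall c θ r + ∑ i ∈ Finset.range r, γ i * fall c θ i = 0) (ν : ℕ) :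
    fall c θ ν = ∑ i ∈ Finset.range r, num r (fun _ => 0) c γ ν i * fall c θ i := by
  induction ν with
  | zero =>
    simp only [num_zero]
    rw [Finset.sum_eq_single 0]
    · simp
    · intro b _ hb; simp [hb]
    · intro h; exact absurd (Finset.mem_range.2 hr) h
  | succ ν ih =>
    have h1 : fall c θ (ν + 1) = fall c θ ν * (θ - ν * c) := rfl
    rw [h1]
    conv_lhs => rw [ih]
    rw [Finset.sum_mul]
    have h2 : ∀ i ∈ Finset.range r, num r (fun _ => 0) c γ ν i * fall c θ i * (θ - ν * c) =
        num r (fun _ => 0) c γ ν i * fall c θ (i + 1) -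
          (((ν : ℤ) - (i : ℤ) : ℤ) : S) * c * num r (fun _ => 0) c γ ν i * fall c θ i := by
      intro i _
      have : fall c θ (i + 1) = fall c θ i * (θ - i * c) := rfl
      rw [this]
      push_cast
      ring
    rw [Finset.sum_congr rfl h2, Finset.sum_sub_distrib]
    have h3 : ∑ i ∈ Finset.range r, num r (fun _ => 0) c γ ν i * fall c θ (i + 1) =
        ∑ i ∈ Finset.range r, (if i = 0 then 0 else num r (fun _ => 0) c γ ν (i - 1)) * fall c θ i
          + num r (fun _ => 0) c γ ν (r - 1) * fall c θ r := by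
      obtain ⟨m, rfl⟩ : ∃ m, r = m + 1 := ⟨r - 1, by omega⟩
      rw [Finset.sum_range_succ, Finset.sum_range_succ' (fun i => (if i = 0 then 0 else
        num (m + 1) (fun _ => 0) c γ ν (i - 1)) * fall c θ i)]
      simp
    rw [h3]
    simp only [num_succ]
    have h4 : fall c θ r = - ∑ i ∈ Finset.range r, γ i * fall c θ i := by
      linear_combination hθ
    rw [h4]
    simp only [add_mul, sub_mul, Finset.sum_add_distrib, Finset.sum_sub_distrib, mul_neg,
      Finset.mul_sum]
    have h5 : ∀ i ∈ Finset.range r, num r (fun _ => 0) c γ ν (r - 1) * (γ i * fall c θ i) =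
        γ i * num r (fun _ => 0) c γ ν (r - 1) * fall c θ i := by
      intro i _; ring
    rw [Finset.sum_congr rfl h5]
    simp
    ring

theorem num_const_of_lt (r : ℕ) (c : S) (γ : ℕ → S) (ν : ℕ) :
    ∀ i, ν < i → i < r → num r (fun _ => 0) c γ ν i = 0 := by
  induction ν with
  | zero =>
    intro i h0 _
    rw [num_zero, if_neg h0.ne']
  | succ ν ih =>
    intro i h hr
    rw [num_succ, ih i (by omega) hr]
    have h1 : i ≠ 0 := by omega
    simp only [h1, if_false, mul_zero]
    rw [ih (i - 1) (by omega) (by omega), ih (r - 1) (by omega) (by omega)]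
    simp

end Recursion

section Euler

variable {κ : Type*} [CommRing κ]

/-- the Euler-type recursion over a polynomial ring -/
theorem num_euler (r : ℕ) (e : ℕ) (γ : ℕ → κ) (g : ℕ → κ[X])
    (hg : ∀ i < r, g i = C (γ i) * X ^ (e * (r - i))) (ν : ℕ) :
    ∀ i < r, num r (fun a => X ^ (e + 1) * derivative a) (((e + 2 : ℕ) : κ[X]) * X ^ e) g ν i =
      C (num r (fun _ => 0) (2 : κ) γ ν i) * X ^ (e * (ν - i)) := by
  induction ν with
  | zero =>
    intro i _
    rw [num_zero, num_zero]
    by_cases h : i = 0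
    · simp [h]
    · simp [h]
  | succ ν ih =>
    intro i hi
    rw [num_succ, num_succ, ih i hi, ih (r - 1) (by omega), hg i hi]
    rcases Nat.lt_or_ge ν i with hlt | hge
    · -- `ν < i`
      rw [num_const_of_lt r 2 γ ν i hlt hi]
      have h0 : i ≠ 0 := by omega
      simp only [h0, if_false]
      rw [ih (i - 1) (by omega), num_const_of_lt r 2 γ ν (r - 1) (by omega) (by omega)]
      have h1 : ν + 1 - i = ν - (i - 1) := by omega
      rw [h1]
      simp
    · have hX : (X : κ[X]) ^ (e * (ν + 1 - i)) = X ^ e * X ^ (e * (ν - i)) := by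
        rw [← pow_add]
        congr 1
        have : ν + 1 - i = (ν - i) + 1 := by omega
        rw [this]
        ring
      have hder : X ^ (e + 1) * derivative (C (num r (fun _ => 0) (2 : κ) γ ν i) * X ^ (e * (ν - i)))
          = C (num r (fun _ => 0) (2 : κ) γ ν i) * ((e * (ν - i) : ℕ) : κ[X]) *
            X ^ (e * (ν + 1 - i)) := by
        rw [derivative_C_mul, derivative_X_pow, hX]
        rcases Nat.eq_zero_or_pos (e * (ν - i)) with h0 | hpos
        · rw [h0]; simp
        · have h2 : (X : κ[X]) ^ (e * (ν - i)) = X * X ^ (e * (ν - i) - 1) := by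
            rw [← pow_succ', Nat.sub_add_cancel hpos]
          rw [h2, C_eq_natCast]
          ring
      rw [hder]
      have hlast : C (γ i) * X ^ (e * (r - i)) * (C (num r (fun _ => 0) (2 : κ) γ ν (r - 1)) *
          X ^ (e * (ν - (r - 1)))) = C (γ i * num r (fun _ => 0) (2 : κ) γ ν (r - 1)) *
            X ^ (e * (ν + 1 - i)) := by
        rcases Nat.lt_or_ge ν (r - 1) with h3 | h3
        · rw [num_const_of_lt r 2 γ ν (r - 1) h3 (by omega)]
          simp
        · rw [C_mul]
          have h4 : (X : κ[X]) ^ (e * (ν + 1 - i)) = X ^ (e * (r - i)) * X ^ (e * (ν - (r - 1))) := by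
            rw [← pow_add, ← mul_add]
            congr 2
            omega
          rw [h4]
          ring
      rw [hlast]
      have hprev : (if i = 0 then (0 : κ[X]) else num r (fun a => X ^ (e + 1) * derivative a)
          (((e + 2 : ℕ) : κ[X]) * X ^ e) g ν (i - 1)) =
          C (if i = 0 then 0 else num r (fun _ => 0) (2 : κ) γ ν (i - 1)) *
            X ^ (e * (ν + 1 - i)) := by
        by_cases h0 : i = 0
        · simp [h0]
        · simp only [h0, if_false]
          rw [ih (i - 1) (by omega)]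
          congr 3
          omega
      rw [hprev]
      simp only [C_sub, C_add, C_mul, C_0]
      rw [hX]
      have hc : ((e * (ν - i) : ℕ) : κ[X]) = (e : κ[X]) * ((ν : κ[X]) - (i : κ[X])) := by
        rw [Nat.cast_mul, Nat.cast_sub hge]
      rw [hc]
      have hi2 : C ((((ν : ℤ) - (i : ℤ) : ℤ) : κ)) = ((ν : κ[X]) - (i : κ[X])) := by
        simp
      have hi3 : ((((ν : ℤ) - (i : ℤ) : ℤ) : κ[X])) = ((ν : κ[X]) - (i : κ[X])) := by
        simp
      rw [hi2, hi3]
      have h2' : (C (2 : κ) : κ[X]) = 2 := map_ofNat C 2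
      rw [h2']
      push_cast
      ring

end Euler

end Helper12
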