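import Mathlib
import Pool.Agent.Helper12.Numerators

namespace Helper12

open Polynomial

section Maps

variable {A B : Type*} [CommRing A] [CommRing B]

/-- twisted functoriality of quadratic algebras -/
def qmap {f : A} {f' : B} (φ : A →+* B) (s : B) (h : φ f = s ^ 2 * f') :
    QuadraticAlgebra A f 0 →+* QuadraticAlgebra B f' 0 where
  toFun a := ⟨φ a.re, s * φ a.im⟩
  map_one' := by ext <;> simp [QuadraticAlgebra.re_one, QuadraticAlgebra.im_one]
  map_mul' a b := by
    ext
    · simp [h]; ring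
    · simp; ring
  map_zero' := by ext <;> simp
  map_add' a b := by
    ext
    · simp
    · simp; ring

/-- evaluation of a quadratic algebra at a square root -/
def qeval {f : A} (φ : A →+* B) (Y : B) (h : Y ^ 2 = φ f) :
    QuadraticAlgebra A f 0 →+* B where
  toFun a := φ a.re + φ a.im * Y
  map_one' := by simp [QuadraticAlgebra.re_one, QuadraticAlgebra.im_one]
  map_mul' a b := by
    simp
    linear_combination (-φ a.im * φ b.im) * h
  map_zero' := by simp
  map_add' a b := by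
    simp; ring

@[simp] theorem qmap_re {f : A} {f' : B} (φ : A →+* B) (s : B) (h : φ f = s ^ 2 * f')
    (a : QuadraticAlgebra A f 0) : (qmap φ s h a).re = φ a.re := rfl

@[simp] theorem qmap_im {f : A} {f' : B} (φ : A →+* B) (s : B) (h : φ f = s ^ 2 * f')
    (a : QuadraticAlgebra A f 0) : (qmap φ s h a).im = s * φ a.im := rfl

theorem qeval_apply {f : A} (φ : A →+* B) (Y : B) (h : Y ^ 2 = φ f)
    (a : QuadraticAlgebra A f 0) : qeval φ Y h a = φ a.re + φ a.im * Y := rfl

end Maps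

section Der

variable {A B : Type*} [CommRing A] [CommRing B]

/-- The scaled derivation `τ · 2 f d/dx` on `A[x][y]/(y² - f)`. -/
noncomputable def qder (τ : A) (f : A[X]) (a : QuadraticAlgebra A[X] f 0) :
    QuadraticAlgebra A[X] f 0 :=
  ⟨C τ * (2 * f * derivative a.re), C τ * (2 * f * derivative a.im + derivative f * a.im)⟩

/-- The element `τ · 2 f'`. -/
noncomputable def qphi (τ : A) (f : A[X]) : QuadraticAlgebra A[X] f 0 :=
  ⟨C τ * (2 * derivative f), 0⟩

@[simp] theorem qder_re (τ : A) (f : A[X]) (a : QuadraticAlgebra A[X] f 0) :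
    (qder τ f a).re = C τ * (2 * f * derivative a.re) := rfl

@[simp] theorem qder_im (τ : A) (f : A[X]) (a : QuadraticAlgebra A[X] f 0) :
    (qder τ f a).im = C τ * (2 * f * derivative a.im + derivative f * a.im) := rfl

/-- constants of the quadratic algebra -/
noncomputable def qC (f : A[X]) (c : A) : QuadraticAlgebra A[X] f 0 := ⟨C c, 0⟩

theorem qC_mul' (f : A[X]) (c : A) (x : QuadraticAlgebra A[X] f 0) :
    qC f c * x = ⟨C c * x.re, C c * x.im⟩ := by
  ext <;> simp [qC]

theorem qC_pow (f : A[X]) (c : A) (k : ℕ) : (qC f c) ^ k = qC f (c ^ k) := by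
  induction k with
  | zero => ext1 <;> simp [qC, QuadraticAlgebra.re_one, QuadraticAlgebra.im_one]
  | succ k ih =>
    rw [pow_succ, ih]
    ext
    · simp [qC, pow_succ]
    · simp [qC]

theorem qder_pow_mul (τ : A) (f : A[X]) (c : A) (k : ℕ) (x : QuadraticAlgebra A[X] f 0) :
    qder τ f ((qC f c) ^ k * x) = (qC f c) ^ k * qder τ f x := by
  rw [qC_pow, qC_mul', qC_mul']
  ext1
  · simp only [qder_re, derivative_mul, derivative_C]; ring
  · simp only [qder_im, derivative_mul, derivative_C]; ring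

/-- substitution hom `P ↦ (P.map ψ)(β + η x)` -/
noncomputable def substHom (ψ : A →+* B) (β η : B) : A[X] →+* B[X] :=
  eval₂RingHom (C.comp ψ) (C β + C η * X)

theorem substHom_apply (ψ : A →+* B) (β η : B) (P : A[X]) :
    substHom ψ β η P = (P.map ψ).comp (C β + C η * X) := by
  rw [substHom, coe_eval₂RingHom, comp, eval₂_map]

theorem derivative_substHom (ψ : A →+* B) (β η : B) (P : A[X]) :
    derivative (substHom ψ β η P) = C η * substHom ψ β η (derivative P) := by
  rw [substHom_apply, substHom_apply, derivative_comp, derivative_map]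
  simp

theorem qder_subst (ψ : A →+* B) (β η s τ' ω : B) (hη : IsUnit η) (τ : A) (f : A[X]) (f' : B[X])
    (h : substHom ψ β η f = (C s) ^ 2 * f') (hω : ω * s ^ 2 * ψ τ = τ' * η)
    (a : QuadraticAlgebra A[X] f 0) :
    qder τ' f' (qmap (substHom ψ β η) (C s) h a) =
      qC f' ω * qmap (substHom ψ β η) (C s) h (qder τ f a) := by
  have hC : (C ω : B[X]) * C s ^ 2 * C (ψ τ) = C τ' * C η := by
    rw [← C_pow, ← C_mul, ← C_mul, ← C_mul, hω]
  have hsC : substHom ψ β η (C τ) = C (ψ τ) := by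
    rw [substHom_apply]; simp
  have hder : C η * substHom ψ β η (derivative f) = (C s) ^ 2 * derivative f' := by
    rw [← derivative_substHom, h, ← C_pow, derivative_C_mul]
  have hηC : IsUnit (C η : B[X]) := hη.map C
  rw [qC_mul']
  ext1
  · simp only [qder_re, qmap_re, map_mul, h, hsC, derivative_substHom, map_ofNat]
    linear_combination (-2 * f' * substHom ψ β η (derivative a.re)) * hC
  · simp only [qder_im, qmap_im, map_mul, map_add, h, hsC, map_ofNat]
    have e1 : derivative (C s * substHom ψ β η a.im) =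
        C s * (C η * substHom ψ β η (derivative a.im)) := by
      rw [derivative_C_mul, derivative_substHom]
    rw [e1]
    apply hηC.mul_left_cancel
    linear_combination (-2 * f' * C s * C η * substHom ψ β η (derivative a.im)) * hC
      - (C ω * C s * C (ψ τ) * substHom ψ β η a.im) * hder
      - (C s * substHom ψ β η a.im * derivative f') * hC

theorem qphi_subst (ψ : A →+* B) (β η s τ' ω : B) (hη : IsUnit η) (τ : A) (f : A[X]) (f' : B[X])
    (h : substHom ψ β η f = (C s) ^ 2 * f') (hω : ω * s ^ 2 * ψ τ = τ' * η) :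
    qphi τ' f' = qC f' ω * qmap (substHom ψ β η) (C s) h (qphi τ f) := by
  have hC : (C ω : B[X]) * C s ^ 2 * C (ψ τ) = C τ' * C η := by
    rw [← C_pow, ← C_mul, ← C_mul, ← C_mul, hω]
  have hsC : substHom ψ β η (C τ) = C (ψ τ) := by
    rw [substHom_apply]; simp
  have hder : C η * substHom ψ β η (derivative f) = (C s) ^ 2 * derivative f' := by
    rw [← derivative_substHom, h, ← C_pow, derivative_C_mul]
  have hηC : IsUnit (C η : B[X]) := hη.map C
  rw [qC_mul']
  ext1
  · simp only [qphi, qmap_re, map_mul, hsC, map_ofNat]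
    apply hηC.mul_left_cancel
    linear_combination (-2 * derivative f') * hC - (2 * C ω * C (ψ τ)) * hder
  · simp [qphi]

/-- The numerators over `A[x][y]/(y²-f)`. -/
noncomputable def qnum (r : ℕ) (τ : A) (f : A[X]) (g : ℕ → QuadraticAlgebra A[X] f 0) :
    ℕ → ℕ → QuadraticAlgebra A[X] f 0 :=
  num r (qder τ f) (qphi τ f) g

theorem qnum_subst (r : ℕ) (hr : 0 < r) (ψ : A →+* B) (β η s τ' ω : B) (hη : IsUnit η) (τ : A)
    (f : A[X]) (f' : B[X])
    (h : substHom ψ β η f = (C s) ^ 2 * f') (hω : ω * s ^ 2 * ψ τ = τ' * η)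
    (g : ℕ → QuadraticAlgebra A[X] f 0) (g' : ℕ → QuadraticAlgebra B[X] f' 0)
    (hg : ∀ i < r, g' i = (qC f' ω) ^ (r - i) * qmap (substHom ψ β η) (C s) h (g i)) (ν i : ℕ)
    (hi : i < r) :
    (qC f' ω) ^ i * qnum r τ' f' g' ν i =
      (qC f' ω) ^ ν * qmap (substHom ψ β η) (C s) h (qnum r τ f g ν i) :=
  num_transform r hr (qder τ f) (qphi τ f) g (qder τ' f') (qphi τ' f') g'
    (qmap (substHom ψ β η) (C s) h) (qC f' ω) (qder_subst ψ β η s τ' ω hη τ f f' h hω)
    (fun k x => qder_pow_mul τ' f' ω k x) (qphi_subst ψ β η s τ' ω hη τ f f' h hω) hg ν i hi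

/-- coefficientwise map -/
noncomputable def qcoef (ψ : A →+* B) (f : A[X]) (f' : B[X]) (h : f.map ψ = f') :
    QuadraticAlgebra A[X] f 0 →+* QuadraticAlgebra B[X] f' 0 :=
  qmap (mapRingHom ψ) 1 (by rw [coe_mapRingHom, h]; ring)

@[simp] theorem qcoef_re (ψ : A →+* B) (f : A[X]) (f' : B[X]) (h : f.map ψ = f')
    (a : QuadraticAlgebra A[X] f 0) : (qcoef ψ f f' h a).re = a.re.map ψ := rfl

@[simp] theorem qcoef_im (ψ : A →+* B) (f : A[X]) (f' : B[X]) (h : f.map ψ = f')
    (a : QuadraticAlgebra A[X] f 0) : (qcoef ψ f f' h a).im = a.im.map ψ := by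
  simp [qcoef]

theorem qnum_coef (r : ℕ) (hr : 0 < r) (ψ : A →+* B) (τ : A)
    (f : A[X]) (f' : B[X]) (h : f.map ψ = f')
    (g : ℕ → QuadraticAlgebra A[X] f 0) (g' : ℕ → QuadraticAlgebra B[X] f' 0)
    (hg : ∀ i < r, g' i = qcoef ψ f f' h (g i)) (ν i : ℕ) (hi : i < r) :
    qnum r (ψ τ) f' g' ν i = qcoef ψ f f' h (qnum r τ f g ν i) := by
  subst h
  have key := num_transform r hr (qder τ f) (qphi τ f) g (qder (ψ τ) (f.map ψ))
    (qphi (ψ τ) (f.map ψ)) g' (qcoef ψ f _ rfl) 1 ?_ ?_ ?_ ?_ ν i hi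
  · simpa [qnum] using key
  · intro a
    ext1
    · simp [derivative_map]
    · simp [derivative_map]
  · intro k x; simp
  · ext1
    · simp [qphi, derivative_map]
    · simp [qphi]
  · intro i hi
    rw [one_pow, one_mul, hg i hi]

end Der

section Sqrt

variable {κ : Type*} [CommRing κ]

/-- The map `u ↦ t²`, `y ↦ ε tⁿ` -/
noncomputable def qsqrt (n : ℕ) (ε : κ) (hε : ε ^ 2 = 1) :
    QuadraticAlgebra κ[X] (X ^ n) 0 →+* κ[X] :=
  qeval (expand κ 2 : κ[X] →+* κ[X]) (C ε * X ^ n) (by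
    simp only [RingHom.coe_coe, map_pow, expand_X]
    rw [mul_pow, ← C_pow, hε, C_1, one_mul, ← pow_mul, ← pow_mul, mul_comm])

theorem qsqrt_apply (n : ℕ) (ε : κ) (hε : ε ^ 2 = 1) (a : QuadraticAlgebra κ[X] (X ^ n) 0) :
    qsqrt n ε hε a = expand κ 2 a.re + expand κ 2 a.im * (C ε * X ^ n) := rfl

theorem derivative_expand_two (P : κ[X]) :
    derivative (expand κ 2 P) = expand κ 2 (derivative P) * (2 * X) := by
  rw [derivative_expand]
  ring

theorem qsqrt_der (m : ℕ) (ε : κ) (hε : ε ^ 2 = 1)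
    (a : QuadraticAlgebra κ[X] (X ^ (m + 1)) 0) :
    X ^ (2 * m + 1) * derivative (qsqrt (m + 1) ε hε a) =
      1 * qsqrt (m + 1) ε hε (qder 1 (X ^ (m + 1)) a) := by
  rw [qsqrt_apply, qsqrt_apply, qder_re, qder_im, derivative_add, derivative_mul,
    derivative_expand_two, derivative_expand_two, derivative_C_mul, derivative_X_pow]
  simp only [map_mul, map_pow, expand_X, map_one, map_add, map_natCast, Nat.add_sub_cancel,
    map_ofNat]
  ring

theorem qsqrt_phi (m : ℕ) (ε : κ) (hε : ε ^ 2 = 1) :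
    (((2 * m + 2 : ℕ) : κ[X]) * X ^ (2 * m)) = 1 * qsqrt (m + 1) ε hε (qphi 1 (X ^ (m + 1))) := by
  rw [qsqrt_apply]
  simp only [qphi, derivative_X_pow, map_mul, map_one, map_ofNat, map_natCast, map_pow, expand_X,
    map_zero, Nat.add_sub_cancel]
  push_cast
  ring

/-- In the Euler situation the numerators become constants times powers. -/
theorem qnum_euler (r m : ℕ) (hr : 0 < r) (ε : κ) (hε : ε ^ 2 = 1)
    (g : ℕ → QuadraticAlgebra κ[X] (X ^ (m + 1)) 0) (γ : ℕ → κ)
    (hg : ∀ i < r, qsqrt (m + 1) ε hε (g i) = C (γ i) * X ^ ((2 * m) * (r - i))) (ν i : ℕ)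
    (hi : i < r) :
    qsqrt (m + 1) ε hε (qnum r 1 (X ^ (m + 1)) g ν i) =
      C (num r (fun _ => 0) (2 : κ) γ ν i) * X ^ ((2 * m) * (ν - i)) := by
  have key := num_transform r hr (qder 1 (X ^ (m + 1))) (qphi 1 (X ^ (m + 1))) g
    (fun a => X ^ (2 * m + 1) * derivative a) (((2 * m + 2 : ℕ) : κ[X]) * X ^ (2 * m))
    (fun i => qsqrt (m + 1) ε hε (g i)) (qsqrt (m + 1) ε hε) 1 (qsqrt_der m ε hε) ?_
    (qsqrt_phi m ε hε) ?_ ν i hi
  · rw [one_pow, one_mul, one_pow, one_mul] at key
    rw [qnum, ← key]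
    exact num_euler r (2 * m) γ _ hg ν i hi
  · intro k x; simp
  · intro i hi; simp

/-- With the derivation scaled to zero the numerators are powers modulo a polynomial. -/
theorem qnum_zero (r n : ℕ) (hr : 0 < r) (ε : κ) (hε : ε ^ 2 = 1)
    (g : ℕ → QuadraticAlgebra κ[X] (X ^ n) 0) (ν i : ℕ) (hi : i < r) :
    qsqrt n ε hε (qnum r 0 (X ^ n) g ν i) =
      num r (fun _ => 0) (0 : κ[X]) (fun i => qsqrt n ε hε (g i)) ν i := by
  have key := num_transform r hr (qder 0 (X ^ n)) (qphi 0 (X ^ n)) g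
    (fun _ => 0) (0 : κ[X])
    (fun i => qsqrt n ε hε (g i)) (qsqrt n ε hε) 1 ?_ ?_ ?_ ?_ ν i hi
  · rw [one_pow, one_mul, one_pow, one_mul] at key
    rw [qnum, ← key]
  · intro a
    rw [qsqrt_apply]
    simp
  · intro k x; simp
  · rw [qsqrt_apply]
    simp [qphi]
  · intro i hi; simp

end Sqrt

end Helper12
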