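import Mathlib
import Pool.Agent.Helper12.CommAlg
import Pool.Agent.Helper12.Quadratic

namespace Helper12

open Polynomial Filter

/-- all coefficients are nilpotent modulo `p` -/
def NilCoef (p : ℕ) {A : Type*} [CommRing A] {f : A[X]} (a : QuadraticAlgebra A[X] f 0) : Prop :=
  ∀ k, a.re.coeff k ∈ (Ideal.span {(p : A)}).radical ∧
    a.im.coeff k ∈ (Ideal.span {(p : A)}).radical

theorem radical_map_mem {A B : Type*} [CommRing A] [CommRing B] (φ : A →+* B) (p : ℕ) (x : A)
    (h : x ∈ (Ideal.span {(p : A)}).radical) : φ x ∈ (Ideal.span {(p : B)}).radical := by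
  obtain ⟨k, hk⟩ := Ideal.mem_radical_iff.1 h
  obtain ⟨z, hz⟩ := Ideal.mem_span_singleton.1 hk
  rw [Ideal.mem_radical_iff]
  refine ⟨k, ?_⟩
  rw [← map_pow, hz, map_mul, map_natCast]
  exact Ideal.mul_mem_right _ _ (Ideal.mem_span_singleton_self _)

theorem substHom_coeff_mem {R B : Type*} [CommRing R] [CommRing B] (iB : R →+* B) (β η : B)
    (I : Ideal B) (P : R[X]) (h : ∀ k, iB (P.coeff k) ∈ I) (k : ℕ) :
    (substHom iB β η P).coeff k ∈ I := by
  have h0 : (P.map iB).map (Ideal.Quotient.mk I) = 0 := by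
    ext k
    rw [coeff_map, coeff_map, coeff_zero, Ideal.Quotient.eq_zero_iff_mem]
    exact h k
  have h1 : (substHom iB β η P).map (Ideal.Quotient.mk I) = 0 := by
    rw [substHom_apply, Polynomial.map_comp, h0, zero_comp]
  have h2 := congrArg (fun q => q.coeff k) h1
  simp only [coeff_map, coeff_zero] at h2
  exact Ideal.Quotient.eq_zero_iff_mem.1 h2

theorem transfer {R A B : Type*} [CommRing R] [CommRing A] [IsDomain A] [CharZero A]
    [Algebra.FiniteType ℤ A] [CommRing B] [IsDomain B] [Algebra.FiniteType ℤ B]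
    (iB : R →+* B) (jB : A →+* B) (hj : Function.Injective jB) (r : ℕ) (hr : 0 < r)
    (f : R[X]) (fA : A[X]) (G : ℕ → QuadraticAlgebra R[X] f 0)
    (GA : ℕ → QuadraticAlgebra A[X] fA 0) (τA : A) (β η s ω : B) (hη : IsUnit η) (hω' : IsUnit ω)
    (hf : substHom iB β η f = (C s) ^ 2 * fA.map jB) (hω : ω * s ^ 2 = jB τA * η)
    (hGre : ∀ i < r, (GA i).re.map jB = C (ω ^ (r - i)) * substHom iB β η (G i).re)
    (hGim : ∀ i < r, (GA i).im.map jB = C (ω ^ (r - i)) * (C s * substHom iB β η (G i).im))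
    (N : ℕ → ℕ)
    (hR : ∀ᶠ p : ℕ in atTop, p.Prime → ∀ i < r, NilCoef p (qnum r 1 f G (N p) i)) :
    ∀ᶠ p : ℕ in atTop, p.Prime → ∀ i < r, NilCoef p (qnum r τA fA GA (N p) i) := by
  have hG : ∀ i < r, (fun i => qcoef jB fA (fA.map jB) rfl (GA i)) i =
      (qC (fA.map jB) ω) ^ (r - i) * qmap (substHom iB β η) (C s) hf (G i) := by
    intro i hi
    rw [qC_pow, qC_mul']
    ext1
    · simp [hGre i hi]
    · simp [hGim i hi]
  filter_upwards [hR, eventually_radical_descend' jB hj] with p h1 h2 hp i hi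
  have h3 := qnum_subst r hr iB β η s (jB τA) ω hη 1 f (fA.map jB) hf (by simpa using hω) G
    (fun i => qcoef jB fA (fA.map jB) rfl (GA i)) hG (N p) i hi
  rw [qnum_coef r hr jB τA fA (fA.map jB) rfl GA _ (fun i _ => rfl) (N p) i hi] at h3
  rw [qC_pow, qC_pow, qC_mul', qC_mul'] at h3
  have hre := congrArg QuadraticAlgebra.re h3
  have him := congrArg QuadraticAlgebra.im h3
  simp only [qcoef_re, qcoef_im, qmap_re, qmap_im] at hre him
  intro k
  have hωi : IsUnit (ω ^ i) := hω'.pow i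
  constructor
  · apply h2 hp
    have h4 := congrArg (fun q => q.coeff k) hre
    simp only [coeff_C_mul, coeff_map] at h4
    have h5 : ω ^ i * jB ((qnum r τA fA GA (N p) i).re.coeff k) ∈
        (Ideal.span {(p : B)}).radical := by
      rw [h4]
      apply Ideal.mul_mem_left
      apply substHom_coeff_mem
      intro k
      exact radical_map_mem iB p _ (h1 hp i hi k).1
    exact (Ideal.unit_mul_mem_iff_mem _ hωi).1 h5
  · apply h2 hp
    have h4 := congrArg (fun q => q.coeff k) him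
    simp only [coeff_C_mul, coeff_map] at h4
    have h5 : ω ^ i * jB ((qnum r τA fA GA (N p) i).im.coeff k) ∈
        (Ideal.span {(p : B)}).radical := by
      rw [h4]
      apply Ideal.mul_mem_left
      apply Ideal.mul_mem_left
      apply substHom_coeff_mem
      intro k
      exact radical_map_mem iB p _ (h1 hp i hi k).2
    exact (Ideal.unit_mul_mem_iff_mem _ hωi).1 h5

theorem substHom_comp {R B C' : Type*} [CommRing R] [CommRing B] [CommRing C'] (iB : R →+* B)
    (v : B →+* C') (β η : B) (P : R[X]) :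
    (substHom iB β η P).map v = substHom (v.comp iB) (v β) (v η) P := by
  rw [substHom_apply, substHom_apply, Polynomial.map_comp, Polynomial.map_map]
  simp

/-- The version over a field. -/
theorem transfer_field {R A Ω : Type*} [CommRing R] [Algebra.FiniteType ℤ R]
    [CommRing A] [IsDomain A] [CharZero A] [Algebra.FiniteType ℤ A] [Field Ω] [CharZero Ω]
    (ι : R →+* Ω) (jΩ : A →+* Ω) (hjΩ : Function.Injective jΩ) (r : ℕ) (hr : 0 < r)
    (f : R[X]) (fA : A[X]) (G : ℕ → QuadraticAlgebra R[X] f 0)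
    (GA : ℕ → QuadraticAlgebra A[X] fA 0) (τA : A) (β η s ω : Ω) (hη : η ≠ 0) (hω' : ω ≠ 0)
    (hf : substHom ι β η f = (C s) ^ 2 * fA.map jΩ) (hω : ω * s ^ 2 = jΩ τA * η)
    (hGre : ∀ i < r, (GA i).re.map jΩ = C (ω ^ (r - i)) * substHom ι β η (G i).re)
    (hGim : ∀ i < r, (GA i).im.map jΩ =
      C (ω ^ (r - i)) * (C s * substHom ι β η (G i).im))
    (N : ℕ → ℕ)
    (hR : ∀ᶠ p : ℕ in atTop, p.Prime → ∀ i < r, NilCoef p (qnum r 1 f G (N p) i)) :
    ∀ᶠ p : ℕ in atTop, p.Prime → ∀ i < r, NilCoef p (qnum r τA fA GA (N p) i) := by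
  classical
  let T : Finset Ω := {β, η, η⁻¹, s, ω, ω⁻¹}
  let B : Subalgebra ℤ Ω := (jΩ.toIntAlgHom.range ⊔ ι.toIntAlgHom.range) ⊔
    Algebra.adjoin ℤ (T : Set Ω)
  have hBfg : B.FG := by
    refine Subalgebra.FG.sup (Subalgebra.FG.sup ?_ ?_) (Subalgebra.fg_adjoin_finset T)
    · have : (⊤ : Subalgebra ℤ A).FG := Algebra.FiniteType.out
      have h2 := this.map jΩ.toIntAlgHom
      rwa [Algebra.map_top] at h2
    · have : (⊤ : Subalgebra ℤ R).FG := Algebra.FiniteType.out
      have h2 := this.map ι.toIntAlgHom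
      rwa [Algebra.map_top] at h2
  have : Algebra.FiniteType ℤ B := (Subalgebra.fg_iff_finiteType _).1 hBfg
  have hAB : jΩ.toIntAlgHom.range ≤ B := le_sup_left.trans le_sup_left
  have hRB : ι.toIntAlgHom.range ≤ B := le_sup_right.trans le_sup_left
  have hTB : (T : Set Ω) ⊆ B := (Algebra.subset_adjoin).trans
    (show (Algebra.adjoin ℤ (T : Set Ω) : Set Ω) ⊆ B from (le_sup_right : _ ≤ B))
  have hβ : β ∈ B := hTB (by simp [T])
  have hηB : η ∈ B := hTB (by simp [T])
  have hηB' : η⁻¹ ∈ B := hTB (by simp [T])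
  have hsB : s ∈ B := hTB (by simp [T])
  have hωB : ω ∈ B := hTB (by simp [T])
  have hωB' : ω⁻¹ ∈ B := hTB (by simp [T])
  let iB : R →+* B := ι.codRestrict B (fun x => hRB ⟨x, rfl⟩)
  let jB : A →+* B := jΩ.codRestrict B (fun x => hAB ⟨x, rfl⟩)
  have hval : Function.Injective (algebraMap B Ω) := Subtype.val_injective
  have hvi : (algebraMap B Ω).comp iB = ι := by ext x; rfl
  have hvj : (algebraMap B Ω).comp jB = jΩ := by ext x; rfl
  have hjB : Function.Injective jB := by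
    intro x y hxy
    apply hjΩ
    rw [← hvj]
    simp [hxy]
  have hpinj : Function.Injective (Polynomial.map (algebraMap B Ω)) :=
    Polynomial.map_injective _ hval
  have e1 : algebraMap B Ω ⟨β, hβ⟩ = β := rfl
  have e2 : algebraMap B Ω ⟨η, hηB⟩ = η := rfl
  have e3 : algebraMap B Ω ⟨s, hsB⟩ = s := rfl
  have e4 : algebraMap B Ω ⟨ω, hωB⟩ = ω := rfl
  refine transfer iB jB hjB r hr f fA G GA τA ⟨β, hβ⟩ ⟨η, hηB⟩ ⟨s, hsB⟩ ⟨ω, hωB⟩ ?_ ?_ ?_ ?_ ?_ ?_
    N hR
  · refine IsUnit.of_mul_eq_one ⟨η⁻¹, hηB'⟩ ?_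
    apply hval
    rw [map_mul, map_one]
    exact mul_inv_cancel₀ hη
  · refine IsUnit.of_mul_eq_one ⟨ω⁻¹, hωB'⟩ ?_
    apply hval
    rw [map_mul, map_one]
    exact mul_inv_cancel₀ hω'
  · apply hpinj
    rw [substHom_comp, hvi, e1, e2, hf, Polynomial.map_mul, Polynomial.map_pow, map_C, e3,
      Polynomial.map_map, hvj]
  · apply hval
    rw [map_mul, map_pow, map_mul, e4, e3, e2, hω]
    rfl
  · intro i hi
    apply hpinj
    rw [Polynomial.map_map, hvj, hGre i hi, Polynomial.map_mul, map_C,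
      map_pow (algebraMap B Ω), e4, substHom_comp, hvi, e1, e2]
  · intro i hi
    apply hpinj
    rw [Polynomial.map_map, hvj, hGim i hi, Polynomial.map_mul, map_C,
      map_pow (algebraMap B Ω), e4, Polynomial.map_mul, map_C, e3, substHom_comp, hvi, e1, e2]

end Helper12
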