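import Mathlib
import Pool.Agent.Helper12.Transfer
import Pool.Agent.Helper12.Kronecker

namespace Helper12

open Polynomial Filter

theorem nilCoef_qcoef {A B : Type*} [CommRing A] [CommRing B] (χ : A →+* B) (p : ℕ)
    {f : A[X]} {f' : B[X]} (h : f.map χ = f') (a : QuadraticAlgebra A[X] f 0) (ha : NilCoef p a) :
    NilCoef p (qcoef χ f f' h a) := by
  intro k
  simp only [qcoef_re, qcoef_im, coeff_map]
  exact ⟨radical_map_mem χ p _ (ha k).1, radical_map_mem χ p _ (ha k).2⟩

theorem eq_zero_of_nilCoef {E : Type*} [CommRing E] [IsDomain E] (p : ℕ) (hp : (p : E) = 0)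
    {f : E[X]} (a : QuadraticAlgebra E[X] f 0) (ha : NilCoef p a) : a = 0 := by
  have h0 : ∀ x : E, x ∈ (Ideal.span {(p : E)}).radical → x = 0 := by
    intro x hx
    rw [hp] at hx
    obtain ⟨k, hk⟩ := Ideal.mem_radical_iff.1 hx
    have : x ^ k = 0 := by simpa using hk
    exact eq_zero_of_pow_eq_zero this
  ext k
  · simpa using h0 _ (ha k).1
  · simpa using h0 _ (ha k).2

/-- lifting finitely many polynomials to a finitely generated subring -/
theorem exists_fg_model {V : Type*} [CommRing V] (r : ℕ) (τ : V) (f : V[X]) (gre gim : ℕ → V[X]) :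
    ∃ (A : Subalgebra ℤ V), A.FG ∧ ∃ (τA : A) (fA : A[X]) (are aim : ℕ → A[X]),
      algebraMap A V τA = τ ∧ fA.map (algebraMap A V) = f ∧
      (∀ i < r, (are i).map (algebraMap A V) = gre i) ∧
      (∀ i < r, (aim i).map (algebraMap A V) = gim i) := by
  classical
  let T : Finset V := {τ} ∪ f.coeffs ∪ (Finset.range r).biUnion (fun i => (gre i).coeffs) ∪
    (Finset.range r).biUnion (fun i => (gim i).coeffs)
  let A := Algebra.adjoin ℤ (T : Set V)
  have hTA : ∀ x ∈ T, x ∈ A := fun x hx => Algebra.subset_adjoin hx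
  have hlift : ∀ P : V[X], P.coeffs ⊆ T → ∃ Q : A[X], Q.map (algebraMap A V) = P := by
    intro P hP
    have : P ∈ Polynomial.lifts (algebraMap A V) := by
      rw [Polynomial.lifts_iff_coeff_lifts]
      intro k
      by_cases h0 : P.coeff k = 0
      · exact ⟨0, by simp [h0]⟩
      · exact ⟨⟨P.coeff k, hTA _ (hP (Polynomial.coeff_mem_coeffs h0))⟩, rfl⟩
    exact (Polynomial.mem_lifts P).1 this
  have h1 : ∀ i, ∃ Q : A[X], i < r → Q.map (algebraMap A V) = gre i := by
    intro i
    by_cases hi : i < r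
    · obtain ⟨Q, hQ⟩ := hlift (gre i) (by
        intro x hx
        simp only [T, Finset.mem_union, Finset.mem_biUnion]
        left; right
        exact ⟨i, Finset.mem_range.2 hi, hx⟩)
      exact ⟨Q, fun _ => hQ⟩
    · exact ⟨0, fun h => absurd h hi⟩
  have h2 : ∀ i, ∃ Q : A[X], i < r → Q.map (algebraMap A V) = gim i := by
    intro i
    by_cases hi : i < r
    · obtain ⟨Q, hQ⟩ := hlift (gim i) (by
        intro x hx
        simp only [T, Finset.mem_union, Finset.mem_biUnion]
        right
        exact ⟨i, Finset.mem_range.2 hi, hx⟩)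
      exact ⟨Q, fun _ => hQ⟩
    · exact ⟨0, fun h => absurd h hi⟩
  choose are hare using h1
  choose aim haim using h2
  obtain ⟨fA, hfA⟩ := hlift f (by
    intro x hx
    simp only [T, Finset.mem_union]
    left; left; right
    exact hx)
  exact ⟨A, Subalgebra.fg_adjoin_finset T, ⟨τ, hTA _ (by simp [T])⟩, fA, are, aim, rfl, hfA, hare,
    haim⟩

section Setup

variable {R V Ω K : Type*} [CommRing R] [Algebra.FiniteType ℤ R]
    [CommRing V] [IsDomain V] [CharZero V] [Field Ω] [CharZero Ω] [Field K]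

/-- Reduction principle. -/
theorem reduction (ι : R →+* Ω) (j : V →+* Ω) (hj : Function.Injective j) (π : V →+* K)
    (T' : Finset K) (r : ℕ) (hr : 0 < r)
    (f : R[X]) (G : ℕ → QuadraticAlgebra R[X] f 0) (τ : V) (fV : V[X]) (gre gim : ℕ → V[X])
    (β η s ω : Ω) (hη : η ≠ 0) (hω' : ω ≠ 0)
    (hf : substHom ι β η f = (C s) ^ 2 * fV.map j) (hω : ω * s ^ 2 = j τ * η)
    (hGre : ∀ i < r, (gre i).map j = C (ω ^ (r - i)) * substHom ι β η (G i).re)
    (hGim : ∀ i < r, (gim i).map j = C (ω ^ (r - i)) * (C s * substHom ι β η (G i).im))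
    (N : ℕ → ℕ)
    (hR : ∀ᶠ p : ℕ in atTop, p.Prime → ∀ i < r, NilCoef p (qnum r 1 f G (N p) i)) :
    ∃ (D : Subalgebra ℤ K), D.FG ∧ (∀ x ∈ T', x ∈ D) ∧
      ∃ (τD : D) (fD : D[X]) (GD : ℕ → QuadraticAlgebra D[X] fD 0),
        algebraMap D K τD = π τ ∧ fD.map (algebraMap D K) = fV.map π ∧
        (∀ i < r, (GD i).re.map (algebraMap D K) = (gre i).map π) ∧
        (∀ i < r, (GD i).im.map (algebraMap D K) = (gim i).map π) ∧
        ∀ᶠ p : ℕ in atTop, p.Prime → ∀ i < r, NilCoef p (qnum r τD fD GD (N p) i) := by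
  classical
  obtain ⟨A, hA, τA, fA, are, aim, h1, h2, h3, h4⟩ := exists_fg_model r τ fV gre gim
  have : Algebra.FiniteType ℤ A := (Subalgebra.fg_iff_finiteType _).1 hA
  let GA : ℕ → QuadraticAlgebra A[X] fA 0 := fun i => ⟨are i, aim i⟩
  have hval : Function.Injective (algebraMap A V) := Subtype.val_injective
  have hnil := transfer_field ι (j.comp (algebraMap A V)) (hj.comp hval) r hr f fA G GA τA β η s ω
    hη hω' (by rw [hf, ← Polynomial.map_map, h2]) (by rw [hω, RingHom.comp_apply, h1])
    (by intro i hi; rw [← hGre i hi, ← h3 i hi, Polynomial.map_map])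
    (by intro i hi; rw [← hGim i hi, ← h4 i hi, Polynomial.map_map]) N hR
  let χ0 : A →+* K := π.comp (algebraMap A V)
  let D : Subalgebra ℤ K := χ0.toIntAlgHom.range ⊔ Algebra.adjoin ℤ (T' : Set K)
  have hDfg : D.FG := by
    refine Subalgebra.FG.sup ?_ (Subalgebra.fg_adjoin_finset T')
    have : (⊤ : Subalgebra ℤ A).FG := Algebra.FiniteType.out
    have h2 := this.map χ0.toIntAlgHom
    rwa [Algebra.map_top] at h2
  have hAD : χ0.toIntAlgHom.range ≤ D := le_sup_left
  have hTD : (T' : Set K) ⊆ D := (Algebra.subset_adjoin).trans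
    (show (Algebra.adjoin ℤ (T' : Set K) : Set K) ⊆ D from (le_sup_right : _ ≤ D))
  let χ : A →+* D := χ0.codRestrict D (fun x => hAD ⟨x, rfl⟩)
  have hχ : (algebraMap D K).comp χ = χ0 := by ext x; rfl
  refine ⟨D, hDfg, fun x hx => hTD hx, χ τA, fA.map χ,
    fun i => qcoef χ fA (fA.map χ) rfl (GA i), ?_, ?_, ?_, ?_, ?_⟩
  · change ((algebraMap D K).comp χ) τA = _
    rw [hχ, RingHom.comp_apply, h1]
  · rw [Polynomial.map_map, hχ, ← Polynomial.map_map, h2]
  · intro i hi
    rw [qcoef_re, Polynomial.map_map, hχ, ← Polynomial.map_map, h3 i hi]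
  · intro i hi
    rw [qcoef_im, Polynomial.map_map, hχ, ← Polynomial.map_map, h4 i hi]
  · filter_upwards [hnil] with p hp hpp i hi
    rw [qnum_coef r hr χ τA fA (fA.map χ) rfl GA _ (fun i _ => rfl) (N p) i hi]
    exact nilCoef_qcoef χ p rfl _ (hp hpp i hi)

end Setup

/-- A monic polynomial over a domain all of whose powers of the root vanish is `Tʳ`. -/
theorem coeff_zero_of_num_zero {S : Type*} [CommRing S] [IsDomain S] (r : ℕ) (hr : 0 < r)
    (g : ℕ → S) (N : ℕ) (h : ∀ i < r, num r (fun _ => 0) (0 : S) g N i = 0) :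
    ∀ i < r, g i = 0 := by
  classical
  let L := AlgebraicClosure (FractionRing S)
  let v : S →+* L := (algebraMap (FractionRing S) L).comp (algebraMap S (FractionRing S))
  have hv : Function.Injective v :=
    (algebraMap (FractionRing S) L).injective.comp (IsFractionRing.injective S (FractionRing S))
  have hmap : ∀ ν, ∀ i < r, num r (fun _ => 0) (0 : L) (fun i => v (g i)) ν i =
      v (num r (fun _ => 0) (0 : S) g ν i) := by
    intro ν i hi
    have := num_transform r hr (fun _ => (0 : S)) 0 g (fun _ => (0 : L)) 0 (fun i => v (g i)) v 1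
      (by simp) (by simp) (by simp) (by simp) ν i hi
    simpa using this
  let q : L[X] := X ^ r + ∑ i ∈ Finset.range r, C (v (g i)) * X ^ i
  have hdeg : (∑ i ∈ Finset.range r, C (v (g i)) * X ^ i : L[X]).degree < r := by
    refine lt_of_le_of_lt (Polynomial.degree_sum_le _ _) ?_
    rw [Finset.sup_lt_iff (by exact WithBot.bot_lt_coe r)]
    intro i hi
    refine lt_of_le_of_lt (Polynomial.degree_C_mul_X_pow_le _ _) ?_
    exact_mod_cast Finset.mem_range.1 hi
  have hmonic : q.Monic := Polynomial.monic_X_pow_add hdeg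
  have hfall : ∀ (θ : L) (k : ℕ), fall 0 θ k = θ ^ k := by
    intro θ k
    induction k with
    | zero => simp [fall]
    | succ k ih => rw [fall, ih]; ring
  have hroots : ∀ θ ∈ q.roots, θ = 0 := by
    intro θ hθ
    have h1 : q.eval θ = 0 := (Polynomial.mem_roots'.1 hθ).2
    have h1' : q.eval θ = θ ^ r + ∑ i ∈ Finset.range r, v (g i) * θ ^ i := by
      simp only [q, eval_add, eval_pow, eval_X, eval_finsetSum, eval_mul, eval_C]
    have h2 : fall 0 θ r + ∑ i ∈ Finset.range r, v (g i) * fall 0 θ i = 0 := by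
      simp only [hfall]
      rw [← h1', h1]
    have h3 := num_const r hr (0 : L) (fun i => v (g i)) θ h2 N
    rw [Finset.sum_eq_zero] at h3
    · rw [hfall] at h3
      exact eq_zero_of_pow_eq_zero h3
    · intro i hi
      rw [hmap N i (Finset.mem_range.1 hi), h i (Finset.mem_range.1 hi)]
      simp
  have hsplit : q.Splits := IsAlgClosed.splits q
  have hcard : Multiset.card q.roots = r := by
    have h4 := hsplit.natDegree_eq_card_roots
    rw [← h4]
    have : q.degree = r := by
      rw [Polynomial.degree_add_eq_left_of_degree_lt]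
      · simp
      · simpa using hdeg
    exact Polynomial.natDegree_eq_of_degree_eq_some this
  have hrep : q.roots = Multiset.replicate r 0 := by
    rw [Multiset.eq_replicate]
    exact ⟨hcard, hroots⟩
  have hq : q = X ^ r := by
    have h5 := hsplit.eq_prod_roots_of_monic hmonic
    rw [hrep] at h5
    simpa using h5
  intro i hi
  apply hv
  rw [map_zero]
  have h6 := congrArg (fun P => P.coeff i) hq
  simp only [q, coeff_add, coeff_X_pow, finsetSum_coeff, coeff_C_mul] at h6
  have h7 : i ≠ r := hi.ne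
  simp only [h7, if_false, zero_add] at h6
  rw [Finset.sum_eq_single i] at h6
  · simpa using h6
  · intro b _ hb
    simp [Ne.symm hb]
  · intro h8
    exact absurd (Finset.mem_range.2 hi) h8

theorem expand_two_injective {E : Type*} [CommRing E] :
    Function.Injective (expand E 2) := expand_injective (by norm_num)

theorem qnum_zero_coeff {E : Type*} [CommRing E] [IsDomain E] (h2 : (2 : E) ≠ 0) (r n : ℕ)
    (hr : 0 < r) (g : ℕ → QuadraticAlgebra E[X] (X ^ n) 0) (N : ℕ)
    (h : ∀ i < r, qnum r 0 (X ^ n) g N i = 0) : ∀ i < r, g i = 0 := by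
  have key : ∀ ε : E, ∀ hε : ε ^ 2 = 1, ∀ i < r, qsqrt n ε hε (g i) = 0 := by
    intro ε hε
    apply coeff_zero_of_num_zero r hr (fun i => qsqrt n ε hε (g i)) N
    intro i hi
    rw [← qnum_zero r n hr ε hε g N i hi, h i hi, map_zero]
  intro i hi
  have h1 := key 1 (by simp) i hi
  have h3 := key (-1) (by simp) i hi
  rw [qsqrt_apply] at h1 h3
  have h2' : (2 : E[X]) ≠ 0 := by
    rw [← map_ofNat C 2]
    simpa using h2
  have hre : expand E 2 (g i).re = 0 := by
    have : 2 * expand E 2 (g i).re = 0 := by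
      simp only [C_1, C_neg] at h1 h3
      linear_combination h1 + h3
    exact (mul_eq_zero.1 this).resolve_left h2'
  have him : expand E 2 (g i).im = 0 := by
    rw [hre, zero_add, C_1, one_mul] at h1
    exact (mul_eq_zero.1 h1).resolve_right (pow_ne_zero _ X_ne_zero)
  ext1
  · rw [QuadraticAlgebra.re_zero]
    apply expand_two_injective
    rw [hre, map_zero]
  · rw [QuadraticAlgebra.im_zero]
    apply expand_two_injective
    rw [him, map_zero]

end Helper12
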