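import Mathlib
import Pool.Agent.Helper12.Reduction

namespace Helper12

open Polynomial Filter

theorem fall_eq_zero {E : Type*} [CommRing E] [IsDomain E] (c θ : E) (n : ℕ)
    (h : fall c θ n = 0) : ∃ j : ℕ, θ = j * c := by
  induction n with
  | zero => simp [fall] at h
  | succ n ih =>
    rw [fall] at h
    rcases mul_eq_zero.1 h with h1 | h1
    · exact ih h1
    · exact ⟨n, sub_eq_zero.1 h1⟩

theorem fall_map {E F : Type*} [CommRing E] [CommRing F] (v : E →+* F) (c θ : E) (n : ℕ) :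
    fall (v c) (v θ) n = v (fall c θ n) := by
  induction n with
  | zero => simp [fall]
  | succ n ih => rw [fall, fall, ih]; simp

section Setup

variable {R V Ω K : Type*} [CommRing R] [Algebra.FiniteType ℤ R]
    [CommRing V] [IsDomain V] [CharZero V] [Field Ω] [CharZero Ω] [Field K] [CharZero K]

theorem core_integral (ι : R →+* Ω) (j : V →+* Ω) (hj : Function.Injective j) (π : V →+* K)
    (r : ℕ) (hr : 0 < r)
    (f : R[X]) (G : ℕ → QuadraticAlgebra R[X] f 0) (τ : V) (fV : V[X]) (gre gim : ℕ → V[X])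
    (β η s ω : Ω) (hη : η ≠ 0) (hω' : ω ≠ 0)
    (hf : substHom ι β η f = (C s) ^ 2 * fV.map j) (hω : ω * s ^ 2 = j τ * η)
    (hGre : ∀ i < r, (gre i).map j = C (ω ^ (r - i)) * substHom ι β η (G i).re)
    (hGim : ∀ i < r, (gim i).map j = C (ω ^ (r - i)) * (C s * substHom ι β η (G i).im))
    (N : ℕ → ℕ)
    (hR : ∀ᶠ p : ℕ in atTop, p.Prime → ∀ i < r, NilCoef p (qnum r 1 f G (N p) i))
    (n : ℕ) (hτ : π τ = 0) (hfX : fV.map π = X ^ n) :
    ∀ i < r, (gre i).map π = 0 ∧ (gim i).map π = 0 := by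
  classical
  obtain ⟨D, hD, -, τD, fD, GD, h1, h2, h3, h4, h5⟩ :=
    reduction ι j hj π ∅ r hr f G τ fV gre gim β η s ω hη hω' hf hω hGre hGim N hR
  have : Algebra.FiniteType ℤ D := (Subalgebra.fg_iff_finiteType _).1 hD
  have hval : Function.Injective (algebraMap D K) := Subtype.val_injective
  have hpinj : Function.Injective (Polynomial.map (algebraMap D K)) :=
    Polynomial.map_injective _ hval
  have hfD : fD = X ^ n := by
    apply hpinj
    rw [h2, hfX, Polynomial.map_pow, Polynomial.map_X]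
  subst hfD
  have hτD : τD = 0 := by
    apply hval
    rw [h1, hτ, map_zero]
  subst hτD
  suffices hmain : ∀ i < r, GD i = 0 by
    intro i hi
    rw [← h3 i hi, ← h4 i hi, hmain i hi]
    simp
  intro i hi
  by_contra hne
  -- a nonzero coefficient
  obtain ⟨u, hu, hu2⟩ : ∃ u : D, u ≠ 0 ∧ ∃ k, u = (GD i).re.coeff k ∨ u = (GD i).im.coeff k := by
    by_contra hcon
    push Not at hcon
    apply hne
    ext k
    · by_contra h6
      exact (hcon ((GD i).re.coeff k) (by simpa using h6) k).1 rfl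
    · by_contra h6
      exact (hcon ((GD i).im.coeff k) (by simpa using h6) k).2 rfl
  obtain ⟨p, ⟨⟨hp1, hp2⟩, hp3⟩, hpp⟩ :=
    (((h5.and (eventually_exists_prime_notMem u hu)).and (eventually_gt_atTop 2)).and_frequently
      (Nat.frequently_atTop_iff_infinite.2 Nat.infinite_setOfPred_prime)).exists
  obtain ⟨Q, hQ, hpQ, huQ⟩ := hp2 hpp
  let χ : D →+* D ⧸ Q := Ideal.Quotient.mk Q
  have hpE : ((p : ℕ) : D ⧸ Q) = 0 := by
    have : χ (p : D) = 0 := Ideal.Quotient.eq_zero_iff_mem.2 hpQ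
    rwa [map_natCast] at this
  have h2E : (2 : D ⧸ Q) ≠ 0 := by
    intro h0
    obtain ⟨k, hk⟩ : ∃ k, p = 2 * k + 1 := hpp.eq_two_or_odd'.resolve_left (by omega)
    rw [hk] at hpE
    push_cast at hpE
    rw [h0] at hpE
    simp at hpE
  have hfE : (X ^ n : D[X]).map χ = X ^ n := by simp
  let GE : ℕ → QuadraticAlgebra (D ⧸ Q)[X] (X ^ n) 0 := fun i => qcoef χ (X ^ n) (X ^ n) hfE (GD i)
  have hzero : ∀ i < r, qnum r 0 (X ^ n) GE (N p) i = 0 := by
    intro i hi
    have h6 := qnum_coef r hr χ 0 (X ^ n) (X ^ n) hfE GD GE (fun i _ => rfl) (N p) i hi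
    rw [map_zero] at h6
    rw [h6]
    exact eq_zero_of_nilCoef p hpE _ (nilCoef_qcoef χ p hfE _ (hp1 hpp i hi))
  have h7 := qnum_zero_coeff h2E r n hr GE (N p) hzero i hi
  apply huQ
  obtain ⟨k, hk | hk⟩ := hu2
  · have h8 := congrArg (fun a => a.re.coeff k) h7
    simp only [GE, qcoef_re, coeff_map, QuadraticAlgebra.re_zero, coeff_zero] at h8
    rw [← hk] at h8
    exact Ideal.Quotient.eq_zero_iff_mem.1 h8
  · have h8 := congrArg (fun a => a.im.coeff k) h7
    simp only [GE, qcoef_im, coeff_map, QuadraticAlgebra.im_zero, coeff_zero] at h8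
    rw [← hk] at h8
    exact Ideal.Quotient.eq_zero_iff_mem.1 h8

theorem core_exponent (ι : R →+* Ω) (j : V →+* Ω) (hj : Function.Injective j) (π : V →+* K)
    (r : ℕ) (hr : 0 < r)
    (f : R[X]) (G : ℕ → QuadraticAlgebra R[X] f 0) (τ : V) (fV : V[X]) (gre gim : ℕ → V[X])
    (β η s ω : Ω) (hη : η ≠ 0) (hω' : ω ≠ 0)
    (hf : substHom ι β η f = (C s) ^ 2 * fV.map j) (hω : ω * s ^ 2 = j τ * η)
    (hGre : ∀ i < r, (gre i).map j = C (ω ^ (r - i)) * substHom ι β η (G i).re)
    (hGim : ∀ i < r, (gim i).map j = C (ω ^ (r - i)) * (C s * substHom ι β η (G i).im))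
    (hR : ∀ᶠ p : ℕ in atTop, p.Prime → ∀ i < r, NilCoef p (qnum r 1 f G (p * r) i))
    (m : ℕ) (hτ : π τ = 1) (hfX : fV.map π = X ^ (m + 1)) (ε : ℤ) (hε : ε ^ 2 = 1)
    (γ : ℕ → K)
    (hγ : ∀ i < r, expand K 2 ((gre i).map π) + expand K 2 ((gim i).map π) *
      (C (ε : K) * X ^ (m + 1)) = C (γ i) * X ^ ((2 * m) * (r - i)))
    (e : K) (he : fall 2 e r + ∑ i ∈ Finset.range r, γ i * fall 2 e i = 0) :
    ∃ a b : ℤ, b ≠ 0 ∧ (b : K) * e = a := by
  classical
  obtain ⟨D, hD, hT, τD, fD, GD, h1, h2, h3, h4, h5⟩ :=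
    reduction ι j hj π ({e} ∪ (Finset.range r).image γ) r hr f G τ fV gre gim β η s ω hη hω' hf
      hω hGre hGim (fun p => p * r) hR
  have : Algebra.FiniteType ℤ D := (Subalgebra.fg_iff_finiteType _).1 hD
  have hval : Function.Injective (algebraMap D K) := Subtype.val_injective
  have hpinj : Function.Injective (Polynomial.map (algebraMap D K)) :=
    Polynomial.map_injective _ hval
  have hfD : fD = X ^ (m + 1) := by
    apply hpinj
    rw [h2, hfX, Polynomial.map_pow, Polynomial.map_X]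
  subst hfD
  have hτD : τD = 1 := by
    apply hval
    rw [h1, hτ, map_one]
  subst hτD
  have heD : e ∈ D := hT e (by simp)
  let eD : D := ⟨e, heD⟩
  let γD : ℕ → D := fun i => if h : γ i ∈ D then ⟨γ i, h⟩ else 0
  have hγD : ∀ i < r, algebraMap D K (γD i) = γ i := by
    intro i hi
    have hmem : γ i ∈ D := hT _ (by
      simp only [Finset.mem_union, Finset.mem_image, Finset.mem_range]
      right
      exact ⟨i, hi, rfl⟩)
    simp only [γD, dif_pos hmem]
    rfl
  have hfe : ∀ k, algebraMap D K (fall 2 eD k) = fall 2 e k := by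
    intro k
    rw [← fall_map, map_ofNat]
    have : algebraMap D K eD = e := rfl
    rw [this]
  have hrootD : fall 2 eD r + ∑ i ∈ Finset.range r, γD i * fall 2 eD i = 0 := by
    apply hval
    rw [map_add, map_sum, map_zero, ← he, hfe]
    congr 1
    apply Finset.sum_congr rfl
    intro i hi
    rw [map_mul, hγD i (Finset.mem_range.1 hi), hfe]
  have hgD : ∀ i < r, expand D 2 (GD i).re + expand D 2 (GD i).im * (C (ε : D) * X ^ (m + 1)) =
      C (γD i) * X ^ ((2 * m) * (r - i)) := by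
    intro i hi
    apply hpinj
    simp only [Polynomial.map_add, Polynomial.map_mul, Polynomial.map_pow, Polynomial.map_X,
      Polynomial.map_C, Polynomial.map_expand, h3 i hi, h4 i hi, hγD i hi]
    simpa using hγ i hi
  have hfrob : ∀ᶠ p : ℕ in atTop, p.Prime → eD ^ p - eD ∈ (Ideal.span {(p : D)}).radical := by
    filter_upwards [h5] with p hp hpp
    rw [Ideal.radical_eq_sInf, Ideal.mem_sInf]
    rintro Q ⟨hQ1, hQ2⟩
    have hpQ : (p : D) ∈ Q := (Ideal.span_singleton_le_iff_mem _).1 hQ1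
    let χ : D →+* D ⧸ Q := Ideal.Quotient.mk Q
    have hpE : ((p : ℕ) : D ⧸ Q) = 0 := by
      have : χ (p : D) = 0 := Ideal.Quotient.eq_zero_iff_mem.2 hpQ
      rwa [map_natCast] at this
    have hfact : Fact p.Prime := ⟨hpp⟩
    have hchar : CharP (D ⧸ Q) p := (CharP.charP_iff_prime_eq_zero hpp).2 hpE
    have hfE : (X ^ (m + 1) : D[X]).map χ = X ^ (m + 1) := by simp
    let GE : ℕ → QuadraticAlgebra (D ⧸ Q)[X] (X ^ (m + 1)) 0 :=
      fun i => qcoef χ (X ^ (m + 1)) (X ^ (m + 1)) hfE (GD i)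
    have hzero : ∀ i < r, qnum r 1 (X ^ (m + 1)) GE (p * r) i = 0 := by
      intro i hi
      have h6 := qnum_coef r hr χ 1 (X ^ (m + 1)) (X ^ (m + 1)) hfE GD GE (fun i _ => rfl)
        (p * r) i hi
      rw [map_one] at h6
      rw [h6]
      exact eq_zero_of_nilCoef p hpE _ (nilCoef_qcoef χ p hfE _ (hp hpp i hi))
    have hεE : ((ε : ℤ) : D ⧸ Q) ^ 2 = 1 := by
      have := congrArg (Int.cast : ℤ → D ⧸ Q) hε
      simpa using this
    have hgE : ∀ i < r, qsqrt (m + 1) (ε : D ⧸ Q) hεE (GE i) =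
        C (χ (γD i)) * X ^ ((2 * m) * (r - i)) := by
      intro i hi
      have := congrArg (Polynomial.map χ) (hgD i hi)
      simp only [Polynomial.map_add, Polynomial.map_mul, Polynomial.map_pow, Polynomial.map_X,
        Polynomial.map_C, Polynomial.map_expand, map_intCast] at this
      rw [qsqrt_apply]
      simpa [GE] using this
    have hlam : ∀ i < r, num r (fun _ => 0) (2 : D ⧸ Q) (fun i => χ (γD i)) (p * r) i = 0 := by
      intro i hi
      have h7 := qnum_euler r m hr (ε : D ⧸ Q) hεE GE (fun i => χ (γD i)) hgE (p * r) i hi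
      rw [hzero i hi, map_zero] at h7
      have h8 := (mul_eq_zero.1 h7.symm).resolve_right (pow_ne_zero _ X_ne_zero)
      exact C_eq_zero.1 h8
    have hrootE : fall 2 (χ eD) r + ∑ i ∈ Finset.range r, χ (γD i) * fall 2 (χ eD) i = 0 := by
      have := congrArg χ hrootD
      rw [map_add, map_sum, map_zero, ← fall_map, map_ofNat] at this
      rw [← this]
      congr 1
      apply Finset.sum_congr rfl
      intro i _
      rw [map_mul, ← fall_map, map_ofNat]
    have h9 := num_const r hr (2 : D ⧸ Q) (fun i => χ (γD i)) (χ eD) hrootE (p * r)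
    rw [Finset.sum_eq_zero (by
      intro i hi
      rw [hlam i (Finset.mem_range.1 hi), zero_mul])] at h9
    obtain ⟨k, hk⟩ := fall_eq_zero _ _ _ h9
    have h10 : χ (eD ^ p - eD) = 0 := by
      rw [map_sub, map_pow, hk]
      have := intCast_pow_char (Q := D ⧸ Q) p ((k * 2 : ℕ) : ℤ)
      push_cast at this
      rw [this, sub_self]
    exact Ideal.Quotient.eq_zero_iff_mem.1 h10
  obtain ⟨a, b, hb, hab⟩ := rational_of_frobenius eD hfrob
  refine ⟨a, b, hb, ?_⟩
  have := congrArg (algebraMap D K) hab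
  rw [map_mul, map_intCast, map_intCast] at this
  exact this

end Setup

end Helper12
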