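import Mathlib

namespace Helper12

open Polynomial

/-- A valuation ring of a field together with a rational valuation function. -/
structure QVal (Ω : Type*) [Field Ω] where
  V : ValuationSubring Ω
  r : Ω → ℚ
  map_mul' : ∀ x y : Ω, x ≠ 0 → y ≠ 0 → r (x * y) = r x + r y
  mem_iff' : ∀ x : Ω, x ≠ 0 → (x ∈ V ↔ 0 ≤ r x)
  surj' : ∀ q : ℚ, ∃ x : Ω, x ≠ 0 ∧ r x = q
  nat' : ∀ n : ℕ, n ≠ 0 → r (n : Ω) = 0

namespace QVal

variable {Ω : Type*} [Field Ω] (v : QVal Ω)

theorem r_one : v.r 1 = 0 := by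
  have := v.nat' 1 one_ne_zero
  simpa using this

theorem r_mul {x y : Ω} (hx : x ≠ 0) (hy : y ≠ 0) : v.r (x * y) = v.r x + v.r y :=
  v.map_mul' x y hx hy

theorem r_inv {x : Ω} (hx : x ≠ 0) : v.r x⁻¹ = - v.r x := by
  have := v.r_mul hx (inv_ne_zero hx)
  rw [mul_inv_cancel₀ hx, v.r_one] at this
  linarith

theorem r_div {x y : Ω} (hx : x ≠ 0) (hy : y ≠ 0) : v.r (x / y) = v.r x - v.r y := by
  rw [div_eq_mul_inv, v.r_mul hx (inv_ne_zero hy), v.r_inv hy]
  ring

theorem r_pow {x : Ω} (hx : x ≠ 0) (n : ℕ) : v.r (x ^ n) = n * v.r x := by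
  induction n with
  | zero => simp [v.r_one]
  | succ n ih =>
    rw [pow_succ, v.r_mul (pow_ne_zero n hx) hx, ih]
    push_cast; ring

theorem r_neg_one : v.r (-1) = 0 := by
  have h := v.r_mul (x := -1) (y := -1) (by simp) (by simp)
  rw [neg_one_mul, neg_neg, v.r_one] at h
  linarith

theorem r_neg {x : Ω} (hx : x ≠ 0) : v.r (-x) = v.r x := by
  rw [← neg_one_mul, v.r_mul (by simp) hx, v.r_neg_one, zero_add]

theorem r_sub_comm {x y : Ω} (h : x ≠ y) : v.r (x - y) = v.r (y - x) := by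
  rw [← neg_sub y x, v.r_neg (sub_ne_zero.2 h.symm)]

theorem r_prod {α : Type*} (s : Finset α) (g : α → Ω) (hg : ∀ i ∈ s, g i ≠ 0) :
    v.r (∏ i ∈ s, g i) = ∑ i ∈ s, v.r (g i) := by
  classical
  induction s using Finset.induction_on with
  | empty => simp [v.r_one]
  | insert a s ha ih =>
    rw [Finset.prod_insert ha, Finset.sum_insert ha, v.r_mul (hg a (Finset.mem_insert_self a s))
      (Finset.prod_ne_zero_iff.2 (fun i hi => hg i (Finset.mem_insert_of_mem hi))),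
      ih (fun i hi => hg i (Finset.mem_insert_of_mem hi))]

/-- `x` has valuation at least `q` -/
def ge (q : ℚ) (x : Ω) : Prop := x = 0 ∨ q ≤ v.r x

/-- `x` has valuation larger than `q` -/
def gt (q : ℚ) (x : Ω) : Prop := x = 0 ∨ q < v.r x

theorem ge_zero_iff {x : Ω} : v.ge 0 x ↔ x ∈ v.V := by
  by_cases hx : x = 0
  · subst hx; simp [ge, zero_mem]
  · rw [v.mem_iff' x hx]
    simp [ge, hx]

theorem ge_of_ne {q : ℚ} {x : Ω} (hx : x ≠ 0) : v.ge q x ↔ q ≤ v.r x := by simp [ge, hx]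

theorem gt_of_ne {q : ℚ} {x : Ω} (hx : x ≠ 0) : v.gt q x ↔ q < v.r x := by simp [gt, hx]

theorem ge_zero (q : ℚ) : v.ge q 0 := Or.inl rfl

theorem gt_zero (q : ℚ) : v.gt q 0 := Or.inl rfl

theorem gt.ge {v : QVal Ω} {q : ℚ} {x : Ω} (h : v.gt q x) : v.ge q x := h.imp id le_of_lt

theorem ge.mono {v : QVal Ω} {q q' : ℚ} {x : Ω} (h : v.ge q x) (hq : q' ≤ q) : v.ge q' x :=
  h.imp id (fun h => hq.trans h)

theorem gt.mono {v : QVal Ω} {q q' : ℚ} {x : Ω} (h : v.gt q x) (hq : q' ≤ q) : v.gt q' x :=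
  h.imp id (fun h => hq.trans_lt h)

theorem ge.gt {v : QVal Ω} {q q' : ℚ} {x : Ω} (h : v.ge q x) (hq : q' < q) : v.gt q' x :=
  h.imp id (fun h => hq.trans_le h)

theorem ge.mul {v : QVal Ω} {q q' : ℚ} {x y : Ω} (h : v.ge q x) (h' : v.ge q' y) :
    v.ge (q + q') (x * y) := by
  rcases h with h | h
  · left; rw [h, zero_mul]
  · rcases h' with h' | h'
    · left; rw [h', mul_zero]
    · by_cases hx : x = 0
      · left; rw [hx, zero_mul]
      · by_cases hy : y = 0
        · left; rw [hy, mul_zero]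
        · right; rw [v.r_mul hx hy]; linarith

theorem ge.mul_gt {v : QVal Ω} {q q' : ℚ} {x y : Ω} (h : v.ge q x) (h' : v.gt q' y) :
    v.gt (q + q') (x * y) := by
  rcases h with h | h
  · left; rw [h, zero_mul]
  · rcases h' with h' | h'
    · left; rw [h', mul_zero]
    · by_cases hx : x = 0
      · left; rw [hx, zero_mul]
      · by_cases hy : y = 0
        · left; rw [hy, mul_zero]
        · right; rw [v.r_mul hx hy]; linarith

theorem gt.mul_ge {v : QVal Ω} {q q' : ℚ} {x y : Ω} (h : v.gt q x) (h' : v.ge q' y) :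
    v.gt (q + q') (x * y) := by
  rw [mul_comm, add_comm]; exact h'.mul_gt h

theorem ge.add {v : QVal Ω} {q : ℚ} {x y : Ω} (h : v.ge q x) (h' : v.ge q y) :
    v.ge q (x + y) := by
  obtain ⟨u, hu, hur⟩ := v.surj' q
  have key : ∀ z : Ω, v.ge q z ↔ z / u ∈ v.V := by
    intro z
    rw [← v.ge_zero_iff]
    by_cases hz : z = 0
    · subst hz; simp [ge]
    · rw [v.ge_of_ne hz, v.ge_of_ne (div_ne_zero hz hu), v.r_div hz hu, hur]
      constructor <;> intro h <;> linarith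
  rw [key] at h h' ⊢
  rw [add_div]
  exact add_mem h h'

theorem ge.neg {v : QVal Ω} {q : ℚ} {x : Ω} (h : v.ge q x) : v.ge q (-x) := by
  by_cases hx : x = 0
  · subst hx; simpa using h
  · rw [v.ge_of_ne hx] at h
    rw [v.ge_of_ne (neg_ne_zero.2 hx), v.r_neg hx]
    exact h

theorem ge.sub {v : QVal Ω} {q : ℚ} {x y : Ω} (h : v.ge q x) (h' : v.ge q y) :
    v.ge q (x - y) := by
  rw [sub_eq_add_neg]; exact h.add h'.neg

theorem gt.add {v : QVal Ω} {q : ℚ} {x y : Ω} (h : v.gt q x) (h' : v.gt q y) :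
    v.gt q (x + y) := by
  by_cases hx : x = 0
  · subst hx; simpa using h'
  by_cases hy : y = 0
  · subst hy; simpa using h
  rw [v.gt_of_ne hx] at h
  rw [v.gt_of_ne hy] at h'
  have h1 : v.ge (min (v.r x) (v.r y)) (x + y) :=
    ge.add (Or.inr (min_le_left _ _)) (Or.inr (min_le_right _ _))
  exact h1.gt (lt_min h h')

theorem gt.neg {v : QVal Ω} {q : ℚ} {x : Ω} (h : v.gt q x) : v.gt q (-x) := by
  by_cases hx : x = 0
  · subst hx; simpa using h
  · rw [v.gt_of_ne hx] at h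
    rw [v.gt_of_ne (neg_ne_zero.2 hx), v.r_neg hx]
    exact h

theorem gt.sub {v : QVal Ω} {q : ℚ} {x y : Ω} (h : v.gt q x) (h' : v.gt q y) :
    v.gt q (x - y) := by
  rw [sub_eq_add_neg]; exact h.add h'.neg

theorem ge_sum {α : Type*} (s : Finset α) (g : α → Ω) (q : ℚ) (h : ∀ i ∈ s, v.ge q (g i)) :
    v.ge q (∑ i ∈ s, g i) := by
  classical
  induction s using Finset.induction_on with
  | empty => simpa using v.ge_zero q
  | insert a s ha ih =>
    rw [Finset.sum_insert ha]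
    exact (h a (Finset.mem_insert_self a s)).add (ih (fun i hi => h i (Finset.mem_insert_of_mem hi)))

theorem gt_sum {α : Type*} (s : Finset α) (g : α → Ω) (q : ℚ) (h : ∀ i ∈ s, v.gt q (g i)) :
    v.gt q (∑ i ∈ s, g i) := by
  classical
  induction s using Finset.induction_on with
  | empty => simpa using v.gt_zero q
  | insert a s ha ih =>
    rw [Finset.sum_insert ha]
    exact (h a (Finset.mem_insert_self a s)).add (ih (fun i hi => h i (Finset.mem_insert_of_mem hi)))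

theorem r_int (z : ℤ) (hz : z ≠ 0) : v.r (z : Ω) = 0 := by
  rcases Int.natAbs_eq z with h | h
  · rw [h, Int.cast_natCast]
    exact v.nat' _ (Int.natAbs_ne_zero.2 hz)
  · have h2 : z.natAbs ≠ 0 := Int.natAbs_ne_zero.2 hz
    rw [h, Int.cast_neg, Int.cast_natCast]
    by_cases h0 : ((z.natAbs : ℕ) : Ω) = 0
    · rw [h0, neg_zero, ← h0]; exact v.nat' _ h2
    · rw [v.r_neg h0]; exact v.nat' _ h2

variable [CharZero Ω]

theorem r_rat (q : ℚ) (hq : q ≠ 0) : v.r (q : Ω) = 0 := by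
  rw [Rat.cast_def]
  have h1 : (q.num : Ω) ≠ 0 := by exact_mod_cast Rat.num_ne_zero.2 hq
  have h2 : (q.den : Ω) ≠ 0 := by exact_mod_cast q.den_ne_zero
  rw [v.r_div h1 h2, v.r_int _ (Rat.num_ne_zero.2 hq), v.nat' _ q.den_ne_zero, sub_zero]

theorem ge_rat (q : ℚ) : v.ge 0 (q : Ω) := by
  by_cases hq : q = 0
  · subst hq; simpa using v.ge_zero 0
  · right; rw [v.r_rat q hq]

theorem ge_rat_mul {q : ℚ} {a : ℚ} {x : Ω} (h : v.ge a x) : v.ge a ((q : Ω) * x) := by
  have := (v.ge_rat q).mul h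
  rwa [zero_add] at this

theorem gt_rat_mul {q : ℚ} {a : ℚ} {x : Ω} (h : v.gt a x) : v.gt a ((q : Ω) * x) := by
  have := (v.ge_rat q).mul_gt h
  rwa [zero_add] at this

theorem rat_eq_zero_of_gt {q : ℚ} (h : v.gt 0 (q : Ω)) : q = 0 := by
  by_contra hq
  rcases h with h | h
  · exact hq (by exact_mod_cast h)
  · rw [v.r_rat q hq] at h
    exact lt_irrefl _ h

omit [CharZero Ω] in
theorem residue_eq_zero_iff (x : v.V) : IsLocalRing.residue v.V x = 0 ↔ v.gt 0 (x : Ω) := by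
  rw [IsLocalRing.residue_eq_zero_iff, IsLocalRing.mem_maximalIdeal, mem_nonunits_iff]
  by_cases hx : (x : Ω) = 0
  · have : x = 0 := Subtype.ext hx
    subst this
    simp [gt]
  · rw [v.gt_of_ne hx]
    have hx0 : 0 ≤ v.r x := (v.mem_iff' _ hx).1 x.2
    constructor
    · intro h
      rcases hx0.eq_or_lt with h0 | h0
      · exfalso
        apply h
        have hinv : (x : Ω)⁻¹ ∈ v.V := by
          rw [v.mem_iff' _ (inv_ne_zero hx), v.r_inv hx, ← h0]
          simp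
        refine IsUnit.of_mul_eq_one ⟨(x : Ω)⁻¹, hinv⟩ ?_
        apply Subtype.ext
        exact mul_inv_cancel₀ hx
      · exact h0
    · intro h hu
      obtain ⟨y, hy⟩ := hu.exists_right_inv
      have hy' : (x : Ω) * (y : Ω) = 1 := congrArg Subtype.val hy
      have hy0 : (y : Ω) ≠ 0 := right_ne_zero_of_mul_eq_one hy'
      have h1 := v.r_mul hx hy0
      rw [hy', v.r_one] at h1
      have h2 : 0 ≤ v.r (y : Ω) := (v.mem_iff' _ hy0).1 y.2
      linarith

end QVal

end Helper12
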