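import Mathlib
import Pool.Agent.Helper12.Core
import Pool.Agent.Helper12.Val

namespace Helper12

open Polynomial Filter

/-- the polynomial with the given roots -/
noncomputable def fpoly {R : Type*} [CommRing R] {n : ℕ} (b : Fin n → R) : R[X] :=
  ∏ i, (X - C (b i))

/-- scaled coefficient data -/
noncomputable def Gdat {R : Type*} [CommRing R] {n : ℕ} (r : ℕ) (b : Fin n → R) (P Q : ℕ → R[X]) :
    ℕ → QuadraticAlgebra R[X] (fpoly b) 0 :=
  fun i => ⟨C (2 ^ (r - i)) * P (r - i), C (2 ^ (r - i)) * Q (r - i)⟩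

/-- Taylor coefficients of the image polynomial -/
noncomputable def tco {R Ω : Type*} [CommRing R] [CommRing Ω] (ι : R →+* Ω) (β : Ω) (P : R[X])
    (m : ℕ) : Ω := (taylor β (P.map ι)).coeff m

theorem substHom_coeff {R Ω : Type*} [CommRing R] [CommRing Ω] (ι : R →+* Ω) (β η : Ω) (P : R[X])
    (m : ℕ) : (substHom ι β η P).coeff m = tco ι β P m * η ^ m := by
  have h : substHom ι β η P = (taylor β (P.map ι)).comp (C η * X) := by
    rw [substHom_apply, taylor_apply, comp_assoc]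
    congr 1
    simp [add_comm]
  rw [h, comp_C_mul_X_coeff, tco]

theorem substHom_two_pow {R Ω : Type*} [CommRing R] [CommRing Ω] (ι : R →+* Ω) (β η : Ω) (k : ℕ)
    (P : R[X]) : substHom ι β η (C (2 ^ k) * P) = C (2 ^ k) * substHom ι β η P := by
  rw [map_mul, substHom_apply ι β η (C (2 ^ k)), Polynomial.map_C, C_comp, map_pow, map_ofNat]

/-- cluster data: the points of `I` are at distance at least `hi` from the centre, and the others
at distance at most `lo`. -/
structure Ann {Ω : Type*} [Field Ω] (v : QVal Ω) {n : ℕ} (β : Fin n → Ω) (i0 : Fin n)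
    (I : Finset (Fin n)) (lo hi : ℚ) : Prop where
  mem0 : i0 ∈ I
  lt : lo < hi
  inside : ∀ i ∈ I, v.ge hi (β i - β i0)
  outside : ∀ j, j ∉ I → β j - β i0 ≠ 0 ∧ v.r (β j - β i0) ≤ lo

section Factor

variable {Ω : Type*} [Field Ω]

theorem exists_model_linear (v : QVal Ω) {α : Type*} (s : Finset α) (g : α → Ω)
    (hg : ∀ i ∈ s, v.gt 0 (g i)) :
    ∃ F : v.V[X], F.map v.V.subtype = ∏ i ∈ s, (X - C (g i)) ∧
      F.map (IsLocalRing.residue v.V) = X ^ s.card := by
  classical
  induction s using Finset.induction_on with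
  | empty => exact ⟨1, by simp, by simp⟩
  | insert a s ha ih =>
    obtain ⟨F, h1, h2⟩ := ih (fun i hi => hg i (Finset.mem_insert_of_mem hi))
    have hga := hg a (Finset.mem_insert_self a s)
    have hmem : g a ∈ v.V := v.ge_zero_iff.1 hga.ge
    have hres : IsLocalRing.residue v.V ⟨g a, hmem⟩ = 0 := (v.residue_eq_zero_iff _).2 hga
    refine ⟨(X - C ⟨g a, hmem⟩) * F, ?_, ?_⟩
    · rw [Polynomial.map_mul, h1, Finset.prod_insert ha]
      simp
    · rw [Polynomial.map_mul, h2, Finset.card_insert_of_notMem ha]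
      simp [hres, pow_succ']

theorem exists_model_unit (v : QVal Ω) {α : Type*} (s : Finset α) (g : α → Ω)
    (hg : ∀ i ∈ s, v.gt 0 (g i)) :
    ∃ F : v.V[X], F.map v.V.subtype = ∏ i ∈ s, (1 - C (g i) * X) ∧
      F.map (IsLocalRing.residue v.V) = 1 := by
  classical
  induction s using Finset.induction_on with
  | empty => exact ⟨1, by simp, by simp⟩
  | insert a s ha ih =>
    obtain ⟨F, h1, h2⟩ := ih (fun i hi => hg i (Finset.mem_insert_of_mem hi))
    have hga := hg a (Finset.mem_insert_self a s)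
    have hmem : g a ∈ v.V := v.ge_zero_iff.1 hga.ge
    have hres : IsLocalRing.residue v.V ⟨g a, hmem⟩ = 0 := (v.residue_eq_zero_iff _).2 hga
    refine ⟨(1 - C ⟨g a, hmem⟩ * X) * F, ?_, ?_⟩
    · rw [Polynomial.map_mul, h1, Finset.prod_insert ha]
      simp
    · rw [Polynomial.map_mul, h2]
      simp [hres]

theorem exists_lift_V (v : QVal Ω) (P : Polynomial Ω) (h : ∀ k, v.ge 0 (P.coeff k)) :
    ∃ F : v.V[X], F.map v.V.subtype = P := by
  have : P ∈ Polynomial.lifts v.V.subtype := by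
    rw [Polynomial.lifts_iff_coeff_lifts]
    intro k
    exact ⟨⟨P.coeff k, v.ge_zero_iff.1 (h k)⟩, rfl⟩
  exact (Polynomial.mem_lifts P).1 this

variable {R : Type*} [CommRing R] (ι : R →+* Ω) {n : ℕ} (b : Fin n → R)

/-- constant of the outer points -/
noncomputable def outerC (β : Fin n → Ω) (i0 : Fin n) (I : Finset (Fin n)) : Ω :=
  ∏ j ∈ Iᶜ, (β i0 - β j)

theorem substHom_fpoly (i0 : Fin n) (I : Finset (Fin n)) (η : Ω) (hη : η ≠ 0)
    (hout : ∀ j, j ∉ I → ι (b j) - ι (b i0) ≠ 0) :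
    substHom ι (ι (b i0)) η (fpoly b) =
      C (η ^ I.card * outerC (fun i => ι (b i)) i0 I) *
      ((∏ i ∈ I, (X - C ((ι (b i) - ι (b i0)) / η))) *
        (∏ j ∈ Iᶜ, (1 - C (η / (ι (b j) - ι (b i0))) * X))) := by
  classical
  have h1 : substHom ι (ι (b i0)) η (fpoly b) =
      ∏ i, (C (ι (b i0)) + C η * X - C (ι (b i))) := by
    rw [fpoly, map_prod]
    apply Finset.prod_congr rfl
    intro i _
    rw [substHom_apply]
    simp
  rw [h1, ← Finset.prod_mul_prod_compl I]
  have h2 : ∏ i ∈ I, (C (ι (b i0)) + C η * X - C (ι (b i))) =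
      C (η ^ I.card) * ∏ i ∈ I, (X - C ((ι (b i) - ι (b i0)) / η)) := by
    rw [C_pow, ← Finset.prod_const, ← Finset.prod_mul_distrib]
    apply Finset.prod_congr rfl
    intro i _
    rw [mul_sub, ← C_mul, mul_div_cancel₀ _ hη, C_sub]
    ring
  have h3 : ∏ j ∈ Iᶜ, (C (ι (b i0)) + C η * X - C (ι (b j))) =
      C (outerC (fun i => ι (b i)) i0 I) *
        ∏ j ∈ Iᶜ, (1 - C (η / (ι (b j) - ι (b i0))) * X) := by
    rw [outerC, map_prod, ← Finset.prod_mul_distrib]
    apply Finset.prod_congr rfl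
    intro j hj
    have hne := hout j (Finset.mem_compl.1 hj)
    have e : (ι (b i0) - ι (b j)) * (η / (ι (b j) - ι (b i0))) = - η := by
      field_simp
      ring
    rw [mul_sub, mul_one, ← mul_assoc, ← C_mul, e, C_neg, C_sub]
    ring
  rw [h2, h3, C_mul]
  ring

theorem outerC_ne_zero (i0 : Fin n) (I : Finset (Fin n))
    (hout : ∀ j, j ∉ I → ι (b j) - ι (b i0) ≠ 0) :
    outerC (fun i => ι (b i)) i0 I ≠ 0 := by
  rw [outerC, Finset.prod_ne_zero_iff]
  intro j hj
  have := hout j (Finset.mem_compl.1 hj)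
  intro h
  apply this
  rw [← neg_sub, h, neg_zero]

end Factor

section Integrality

variable {R Ω : Type*} [CommRing R] [Algebra.FiniteType ℤ R] [Field Ω] [CharZero Ω]
  [IsAlgClosed Ω] (ι : R →+* Ω) (v : QVal Ω) {n : ℕ} (b : Fin n → R) (r : ℕ)
  (P Q : ℕ → R[X])

/-- valuation function of a rescaled coefficient -/
def cval (h c0 : ℚ) (d j m : ℕ) (t ρ : ℚ) : ℚ :=
  j * (ρ - (d * ρ + c0)) + h * (d * ρ + c0) + m * ρ + t

omit [Algebra.FiniteType ℤ R] [IsAlgClosed Ω] [CommRing R] in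
theorem charZero_residue : CharZero (IsLocalRing.ResidueField v.V) := by
  refine ⟨fun a c h => ?_⟩
  by_contra hne
  wlog hlt : c < a generalizing a c with H
  · exact H c a h.symm (Ne.symm hne) (lt_of_le_of_ne (not_lt.1 hlt) hne)
  obtain ⟨d, rfl⟩ := Nat.exists_eq_add_of_lt hlt
  have h1 : ((d + 1 : ℕ) : IsLocalRing.ResidueField v.V) = 0 := by
    push_cast at h ⊢
    linear_combination h
  have h2 : IsLocalRing.residue v.V ((d + 1 : ℕ) : v.V) = 0 := by
    rw [map_natCast]; exact h1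
  rw [v.residue_eq_zero_iff] at h2
  have h4 : (((d + 1 : ℕ) : v.V) : Ω) = ((d + 1 : ℕ) : Ω) := by simp
  rw [h4] at h2
  have h5 : ((d + 1 : ℕ) : Ω) ≠ 0 := by exact_mod_cast Nat.succ_ne_zero d
  rw [v.gt_of_ne h5, v.nat' (d + 1) (by omega)] at h2
  exact lt_irrefl _ h2

omit [Algebra.FiniteType ℤ R] [CharZero Ω] in
/-- The common part of the set-up: given a radius, everything needed to call the core lemmas. -/
theorem exists_scaling {i0 : Fin n} {I : Finset (Fin n)} {lo hi : ℚ}
    (ann : Ann v (fun i => ι (b i)) i0 I lo hi) (ρ : ℚ) (h1 : lo < ρ) (h2 : ρ < hi) :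
    ∃ (η s : Ω) (fV : v.V[X]), η ≠ 0 ∧ s ≠ 0 ∧ v.r η = ρ ∧
      s ^ 2 = η ^ I.card * outerC (fun i => ι (b i)) i0 I ∧
      v.r s = (I.card * ρ + v.r (outerC (fun i => ι (b i)) i0 I)) / 2 ∧
      substHom ι (ι (b i0)) η (fpoly b) = (C s) ^ 2 * fV.map v.V.subtype ∧
      fV.map (IsLocalRing.residue v.V) = X ^ I.card := by
  obtain ⟨η, hη, hηr⟩ := v.surj' ρ
  have hC0 := outerC_ne_zero ι b i0 I (fun j hj => (ann.outside j hj).1)
  set c : Ω := η ^ I.card * outerC (fun i => ι (b i)) i0 I with hc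
  have hc0 : c ≠ 0 := mul_ne_zero (pow_ne_zero _ hη) hC0
  obtain ⟨s, hs⟩ := IsAlgClosed.exists_pow_nat_eq c (n := 2) (by norm_num)
  have hs0 : s ≠ 0 := by
    rintro rfl
    apply hc0
    rw [← hs]; simp
  obtain ⟨F1, hF1, hF1'⟩ := exists_model_linear v I (fun i => (ι (b i) - ι (b i0)) / η) (by
    intro i hi
    have := ann.inside i hi
    by_cases h0 : ι (b i) - ι (b i0) = 0
    · rw [h0, zero_div]; exact v.gt_zero 0
    · rw [v.ge_of_ne h0] at this
      rw [v.gt_of_ne (div_ne_zero h0 hη), v.r_div h0 hη, hηr]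
      linarith)
  obtain ⟨F2, hF2, hF2'⟩ := exists_model_unit v Iᶜ (fun j => η / (ι (b j) - ι (b i0))) (by
    intro j hj
    obtain ⟨h0, hle⟩ := ann.outside j (Finset.mem_compl.1 hj)
    rw [v.gt_of_ne (div_ne_zero hη h0), v.r_div hη h0, hηr]
    linarith)
  refine ⟨η, s, F1 * F2, hη, hs0, hηr, hs, ?_, ?_, ?_⟩
  · have h3 := congrArg v.r hs
    rw [v.r_pow hs0, hc, v.r_mul (pow_ne_zero _ hη) hC0, v.r_pow hη, hηr] at h3
    push_cast at h3
    linarith
  · rw [substHom_fpoly ι b i0 I η hη (fun j hj => (ann.outside j hj).1), ← hc, ← C_pow, hs,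
      Polynomial.map_mul, hF1, hF2]
  · rw [Polynomial.map_mul, hF1', hF2', mul_one]

/-- Integrality at all radii of an annulus. -/
theorem integrality
    (hR : ∀ᶠ p : ℕ in atTop, p.Prime → ∀ i < r,
      NilCoef p (qnum r 1 (fpoly b) (Gdat r b P Q) (p * r) i))
    {i0 : Fin n} {I : Finset (Fin n)} {lo hi : ℚ}
    (ann : Ann v (fun i => ι (b i)) i0 I lo hi) (ρ : ℚ) (hρ1 : lo < ρ) (hρ2 : ρ < hi) :
    ∀ j, 1 ≤ j → j ≤ r → ∀ m,
      (tco ι (ι (b i0)) (P j) m = 0 ∨
        0 ≤ cval 0 (v.r (outerC (fun i => ι (b i)) i0 I)) I.card j m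
          (v.r (tco ι (ι (b i0)) (P j) m)) ρ) ∧
      (tco ι (ι (b i0)) (Q j) m = 0 ∨
        0 ≤ cval (1 / 2) (v.r (outerC (fun i => ι (b i)) i0 I)) I.card j m
          (v.r (tco ι (ι (b i0)) (Q j) m)) ρ) := by
  classical
  intro j0 hj0 hj0r m0
  have hr : 0 < r := by omega
  set c0 := v.r (outerC (fun i => ι (b i)) i0 I) with hc0
  obtain ⟨η, s, fV, hη, hs, hηr, hs2, hsr, hf, hfX⟩ := exists_scaling ι v b ann ρ hρ1 hρ2
  -- the family of coefficients
  let co : Bool → ℕ → ℕ → Ω := fun B j m =>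
    if B then tco ι (ι (b i0)) (Q j) m else tco ι (ι (b i0)) (P j) m
  let hh : Bool → ℚ := fun B => if B then 1 / 2 else 0
  let vv : Bool × ℕ × ℕ → ℚ := fun x => cval (hh x.1) c0 I.card x.2.1 x.2.2
    (v.r (co x.1 x.2.1 x.2.2)) ρ
  suffices hmain : ∀ B j m, 1 ≤ j → j ≤ r → co B j m ≠ 0 → 0 ≤ vv (B, j, m) by
    constructor
    · by_cases h0 : tco ι (ι (b i0)) (P j0) m0 = 0
      · exact Or.inl h0
      · right
        exact hmain false j0 m0 hj0 hj0r (by simpa [co] using h0)
    · by_cases h0 : tco ι (ι (b i0)) (Q j0) m0 = 0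
      · exact Or.inl h0
      · right
        exact hmain true j0 m0 hj0 hj0r (by simpa [co] using h0)
  by_contra hcon
  push Not at hcon
  obtain ⟨B1, j1, m1, hj1, hj1r, hne1, hneg1⟩ := hcon
  -- a bound on degrees
  let M : ℕ := (Finset.range (r + 1)).sup (fun j =>
    max (taylor (ι (b i0)) ((P j).map ι)).natDegree (taylor (ι (b i0)) ((Q j).map ι)).natDegree)
  have hM : ∀ B j m, j ≤ r → co B j m ≠ 0 → m ≤ M := by
    intro B j m hj hne
    have h1 : max (taylor (ι (b i0)) ((P j).map ι)).natDegree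
        (taylor (ι (b i0)) ((Q j).map ι)).natDegree ≤ M :=
      Finset.le_sup (f := fun j => max (taylor (ι (b i0)) ((P j).map ι)).natDegree
        (taylor (ι (b i0)) ((Q j).map ι)).natDegree) (Finset.mem_range.2 (by omega))
    refine le_trans ?_ h1
    cases B with
    | false =>
      refine le_trans ?_ (le_max_left _ _)
      apply Polynomial.le_natDegree_of_ne_zero
      simpa [co, tco] using hne
    | true =>
      refine le_trans ?_ (le_max_right _ _)
      apply Polynomial.le_natDegree_of_ne_zero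
      simpa [co, tco] using hne
  let S : Finset (Bool × ℕ × ℕ) :=
    ((Finset.univ : Finset Bool) ×ˢ (Finset.Icc 1 r) ×ˢ (Finset.range (M + 1))).filter
      (fun x => co x.1 x.2.1 x.2.2 ≠ 0)
  have hmemS : ∀ B j m, 1 ≤ j → j ≤ r → co B j m ≠ 0 → (B, j, m) ∈ S := by
    intro B j m h1 h2 h3
    simp only [S, Finset.mem_filter, Finset.mem_product, Finset.mem_univ, Finset.mem_Icc,
      Finset.mem_range, true_and]
    exact ⟨⟨⟨h1, h2⟩, Nat.lt_succ_of_le (hM B j m h2 h3)⟩, h3⟩
  obtain ⟨x, hxS, hxmax⟩ := Finset.exists_max_image S (fun x => - vv x / x.2.1)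
    ⟨_, hmemS B1 j1 m1 hj1 hj1r hne1⟩
  set μ : ℚ := - vv x / x.2.1 with hμ
  have hxS' := hxS
  simp only [S, Finset.mem_filter, Finset.mem_product, Finset.mem_univ, Finset.mem_Icc,
      Finset.mem_range, true_and] at hxS'
  obtain ⟨⟨⟨hx1, hxr⟩, -⟩, hxne⟩ := hxS'
  have hμpos : 0 < μ := by
    have h1 := hxmax _ (hmemS B1 j1 m1 hj1 hj1r hne1)
    refine lt_of_lt_of_le ?_ h1
    have : (0 : ℚ) < j1 := by exact_mod_cast hj1
    exact div_pos (by linarith) this
  have hall : ∀ B j m, 1 ≤ j → j ≤ r → co B j m ≠ 0 → 0 ≤ j * μ + vv (B, j, m) := by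
    intro B j m h1 h2 h3
    have h4 := hxmax _ (hmemS B j m h1 h2 h3)
    have hj : (0 : ℚ) < j := by exact_mod_cast h1
    have h4' : - vv (B, j, m) / (j : ℚ) ≤ μ := h4
    rw [div_le_iff₀ hj] at h4'
    linarith
  have hxeq : (x.2.1 : ℚ) * μ + vv x = 0 := by
    have hj : (0 : ℚ) < x.2.1 := by exact_mod_cast hx1
    rw [hμ]
    field_simp
    ring
  obtain ⟨τ, hτ, hτr⟩ := v.surj' μ
  set ω : Ω := τ * η / s ^ 2 with hω
  have hs2' : s ^ 2 ≠ 0 := pow_ne_zero _ hs
  have hω0 : ω ≠ 0 := div_ne_zero (mul_ne_zero hτ hη) hs2'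
  have hωr : v.r ω = μ + ρ - (I.card * ρ + c0) := by
    rw [hω, v.r_div (mul_ne_zero hτ hη) hs2', v.r_mul hτ hη, hτr, hηr, v.r_pow hs, hsr]
    push_cast
    ring
  have hωs : ω * s ^ 2 = τ * η := by rw [hω]; field_simp
  have h2ne : (2 : Ω) ≠ 0 := by norm_num
  have hr2 : v.r (2 : Ω) = 0 := by
    have := v.nat' 2 (by norm_num)
    simpa using this
  -- the coefficients
  have hcoef : ∀ (B : Bool) (j m : ℕ), 1 ≤ j → j ≤ r → co B j m ≠ 0 →
      v.r (ω ^ j * ((if B then s else 1) * (2 ^ j * (co B j m * η ^ m)))) =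
        j * μ + vv (B, j, m) := by
    intro B j m h1 h2 h3
    have hsB : (if B then s else (1 : Ω)) ≠ 0 := by split_ifs <;> simp [hs]
    have e1 : co B j m * η ^ m ≠ 0 := mul_ne_zero h3 (pow_ne_zero _ hη)
    have e2 : (2 : Ω) ^ j * (co B j m * η ^ m) ≠ 0 := mul_ne_zero (pow_ne_zero _ h2ne) e1
    rw [v.r_mul (pow_ne_zero _ hω0) (mul_ne_zero hsB e2), v.r_mul hsB e2,
      v.r_mul (pow_ne_zero _ h2ne) e1, v.r_mul h3 (pow_ne_zero _ hη), v.r_pow hω0, v.r_pow h2ne,
      v.r_pow hη, hωr, hr2, hηr]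
    have e3 : v.r (if B then s else 1) = hh B * (I.card * ρ + c0) := by
      cases B with
      | false => simp [hh, v.r_one]
      | true =>
        simp only [if_true, hh]
        rw [hsr]; ring
    rw [e3]
    simp only [vv, cval]
    ring
  have hre : ∀ i < r, ∀ k, (C (ω ^ (r - i)) *
      substHom ι (ι (b i0)) η (Gdat r b P Q i).re).coeff k =
      ω ^ (r - i) * (1 * (2 ^ (r - i) * (co false (r - i) k * η ^ k))) := by
    intro i _ k
    have e : substHom ι (ι (b i0)) η (Gdat r b P Q i).re =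
        C (2 ^ (r - i)) * substHom ι (ι (b i0)) η (P (r - i)) := by
      exact substHom_two_pow ι (ι (b i0)) η (r - i) _
    rw [e, coeff_C_mul, coeff_C_mul, substHom_coeff]
    simp [co]
  have him : ∀ i < r, ∀ k, (C (ω ^ (r - i)) *
      (C s * substHom ι (ι (b i0)) η (Gdat r b P Q i).im)).coeff k =
      ω ^ (r - i) * (s * (2 ^ (r - i) * (co true (r - i) k * η ^ k))) := by
    intro i _ k
    have e : substHom ι (ι (b i0)) η (Gdat r b P Q i).im =
        C (2 ^ (r - i)) * substHom ι (ι (b i0)) η (Q (r - i)) := by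
      exact substHom_two_pow ι (ι (b i0)) η (r - i) _
    rw [e, coeff_C_mul, coeff_C_mul, coeff_C_mul, substHom_coeff]
    simp [co]
  have hVre : ∀ i < r, ∃ F : v.V[X], F.map v.V.subtype = C (ω ^ (r - i)) *
      substHom ι (ι (b i0)) η (Gdat r b P Q i).re := by
    intro i hi
    apply exists_lift_V
    intro k
    rw [hre i hi k]
    by_cases h0 : co false (r - i) k = 0
    · rw [h0]; simpa using v.ge_zero 0
    · right
      have := hcoef false (r - i) k (by omega) (by omega) h0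
      simp only [Bool.false_eq_true, if_false] at this
      rw [this]
      exact hall false (r - i) k (by omega) (by omega) h0
  have hVim : ∀ i < r, ∃ F : v.V[X], F.map v.V.subtype = C (ω ^ (r - i)) *
      (C s * substHom ι (ι (b i0)) η (Gdat r b P Q i).im) := by
    intro i hi
    apply exists_lift_V
    intro k
    rw [him i hi k]
    by_cases h0 : co true (r - i) k = 0
    · rw [h0]; simpa using v.ge_zero 0
    · right
      have := hcoef true (r - i) k (by omega) (by omega) h0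
      simp only [if_true] at this
      rw [this]
      exact hall true (r - i) k (by omega) (by omega) h0
  choose! gre hgre using hVre
  choose! gim hgim using hVim
  have hτV : τ ∈ v.V := (v.mem_iff' τ hτ).2 (by rw [hτr]; exact hμpos.le)
  have hτres : IsLocalRing.residue v.V ⟨τ, hτV⟩ = 0 :=
    (v.residue_eq_zero_iff _).2 ((v.gt_of_ne hτ).2 (by rw [hτr]; exact hμpos))
  have := charZero_residue v
  have hcore := core_integral ι v.V.subtype Subtype.val_injective (IsLocalRing.residue v.V) r hr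
    (fpoly b) (Gdat r b P Q) ⟨τ, hτV⟩ fV gre gim (ι (b i0)) η s ω hη hω0 hf hωs hgre hgim
    (fun p => p * r) hR I.card hτres hfX
  -- contradiction at `x`
  obtain ⟨B, j, m⟩ := x
  simp only at hx1 hxr hxne hxeq
  have hi : r - j < r := by omega
  have hrj : r - (r - j) = j := by omega
  have hcx := hcoef B j m hx1 hxr hxne
  rw [hxeq] at hcx
  have hnez : ω ^ j * ((if B then s else 1) * (2 ^ j * (co B j m * η ^ m))) ≠ 0 := by
    have hsB : (if B then s else (1 : Ω)) ≠ 0 := by split_ifs <;> simp [hs]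
    exact mul_ne_zero (pow_ne_zero _ hω0) (mul_ne_zero hsB
      (mul_ne_zero (pow_ne_zero _ h2ne) (mul_ne_zero hxne (pow_ne_zero _ hη))))
  cases B with
  | false =>
    have h1 := congrArg (fun F => F.coeff m) (hcore (r - j) hi).1
    simp only [coeff_map, coeff_zero] at h1
    rw [v.residue_eq_zero_iff] at h1
    have h2 : (((gre (r - j)).coeff m : v.V) : Ω) = ((gre (r - j)).map v.V.subtype).coeff m := by
      rw [coeff_map]; rfl
    rw [h2, hgre (r - j) hi, hre (r - j) hi m, hrj] at h1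
    simp only [Bool.false_eq_true, if_false] at hcx hnez
    rw [v.gt_of_ne hnez, hcx] at h1
    exact lt_irrefl _ h1
  | true =>
    have h1 := congrArg (fun F => F.coeff m) (hcore (r - j) hi).2
    simp only [coeff_map, coeff_zero] at h1
    rw [v.residue_eq_zero_iff] at h1
    have h2 : (((gim (r - j)).coeff m : v.V) : Ω) = ((gim (r - j)).map v.V.subtype).coeff m := by
      rw [coeff_map]; rfl
    rw [h2, hgim (r - j) hi, him (r - j) hi m, hrj] at h1
    simp only [if_true] at hcx hnez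
    rw [v.gt_of_ne hnez, hcx] at h1
    exact lt_irrefl _ h1

end Integrality

end Helper12
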