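import Mathlib

namespace Helper12

open Polynomial

universe u v

/-- The polynomial `f = ∏ (x - b_i)` with the branch points `b_i` as roots. -/
noncomputable def branchPoly {A : Type*} [CommRing A] {n : ℕ} (b : Fin n → A) : A[X] :=
  ∏ i, (X - C (b i))

/-- The numerator `f² · ∑ i, (δ / (x - b_i)² + c_i / (x - b_i))`, where `f = ∏ (x - b_i)`. -/
noncomputable def polarNumerator {K : Type*} [Field K] {n : ℕ} (δ : K) (b c : Fin n → K) : K[X] :=
  ∑ i, (C δ + C (c i) * (X - C (b i))) * ∏ j ∈ Finset.univ.erase i, (X - C (b j)) ^ 2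

/-- The operator `∂ ^ r + ∑_{1 ≤ j ≤ r} (P_j + Q_j y) / f ^ j · ∂ ^ (r - j)`, with `∂ = d/dx`,
`f = ∏ (x - b_i)`, `y² = f` and `P_j, Q_j ∈ R[x]`, is normalised (`P_1 = Q_1 = 0`) and of type `δ`
at the points `b_i` and at infinity: for some `c_i ∈ K`,
`P_2 / f² = - binom(r+1, 3) · ∑ i, (δ / (x - b_i)² + c_i / (x - b_i))`, `∑ c_i = 0` and
`∑ (δ + c_i b_i) = δ`. -/
structure IsNormalisedOper {R : Type u} (K : Type v) [CommRing R] [Field K] [Algebra R K] {n : ℕ}
    (r : ℕ) (δ : ℚ) (b : Fin n → R) (P Q : ℕ → R[X]) : Prop where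
  P_one : P 1 = 0
  Q_one : Q 1 = 0
  second : ∃ c : Fin n → K, (P 2).map (algebraMap R K) =
      - C (((r + 1).choose 3 : ℕ) : K) * polarNumerator (δ : K) (fun i => algebraMap R K (b i)) c ∧
    ∑ i, c i = 0 ∧ ∑ i, ((δ : K) + c i * algebraMap R K (b i)) = δ

/-- The connection `∇_D` on `L ^ r` (basis `e_0, …, e_(r-1)`) with `∇ e_i = e_(i+1)` for
`i < r - 1` and `∇ e_(r-1) = - ∑ i, a_(r-i) e_i`; it is the connection attached to the
differential operator `D ^ r + a_1 D ^ (r-1) + ⋯ + a_r`. -/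
def companionConnection {L : Type*} [Field L] (D : L → L) (a : ℕ → L) {r : ℕ}
    (v : Fin r → L) : Fin r → L :=
  fun i => D (v i) +
    (if (i : ℕ) = 0 then 0 else v ⟨(i : ℕ) - 1, lt_of_le_of_lt (Nat.sub_le _ _) i.2⟩) -
    a (r - (i : ℕ)) * v ⟨r - 1, Nat.sub_lt (Fin.pos i) Nat.one_pos⟩

/-- The `j`-th coefficient `(P_j(x) + Q_j(x) y) / f(x) ^ j` of the operator. -/
noncomputable def operCoeff {κ L : Type*} [Field κ] [Field L] [Algebra κ L] (f : κ[X])
    (P Q : ℕ → κ[X]) (x y : L) (j : ℕ) : L :=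
  (aeval x (P j) + aeval x (Q j) * y) / (aeval x f) ^ j

/-- The operator `∂ ^ r + ∑ j, (P_j + Q_j y) / f ^ j · ∂ ^ (r - j)`, `∂ = d/dx`, on the curve
`y² = f(x)` over the field `κ` of characteristic `p` has nilpotent `p`-curvature: there is a field
`L` over `κ` with elements `x` (transcendental over `κ`) and `y` with `y² = f(x)`, and a
`κ`-derivation `D` of `L` with `D x = 1`, such that the `p r`-th iterate of the connection of the
operator along `D` vanishes. One may take for `L` the function field `κ(x, y)` of the curve, or a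
field extension of it; as `(d/dx) ^ p = 0`, the `p`-curvature along `d/dx` is `∇ ^ p`, and it is
nilpotent exactly when its `r`-th power `∇ ^ (p r)` vanishes. -/
def NilpotentPCurvature {κ : Type u} [Field κ] (f : κ[X]) (P Q : ℕ → κ[X]) (r : ℕ) : Prop :=
  ∃ (L : Type u) (_ : Field L) (_ : Algebra κ L) (x y : L) (D : Derivation κ L L),
    Transcendental κ x ∧ y ^ 2 = aeval x f ∧ D x = 1 ∧
    ∀ v : Fin r → L, (companionConnection D (operCoeff f P Q x y))^[ringChar κ * r] v = 0

/-- The reductions of the operator at all closed points of the open subset `h ≠ 0` of `Spec R`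
(that is, its images under all surjections from `R` onto a field which do not kill `h`) have
nilpotent `p`-curvature. -/
def NilpotentAtClosedPoints {R : Type u} [CommRing R] {n : ℕ} (r : ℕ) (b : Fin n → R)
    (P Q : ℕ → R[X]) (h : R) : Prop :=
  ∀ (κ : Type u) [Field κ] (φ : R →+* κ), Function.Surjective φ → φ h ≠ 0 →
    NilpotentPCurvature ((branchPoly b).map φ) (fun j => (P j).map φ) (fun j => (Q j).map φ) r

end Helper12
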