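import Mathlib
import Pool.Agent.Helper12.Oper
import Pool.Agent.Helper12.Annulus
import Pool.Agent.Helper12.CommAlg

namespace Helper12

open Polynomial Filter

section

variable {κ L : Type*} [Field κ] [Field L] [Algebra κ L] (f : κ[X]) (x y : L)
  (hy : y ^ 2 = aeval x f)

/-- the polynomial part of the function field -/
noncomputable def Psi : QuadraticAlgebra κ[X] f 0 →+* L :=
  qeval (aeval x : κ[X] →ₐ[κ] L).toRingHom y hy

theorem Psi_eq (a : QuadraticAlgebra κ[X] f 0) :
    Psi f x y hy a = aeval x a.re + aeval x a.im * y := rfl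

theorem aeval_ne_zero (hx : Transcendental κ x) {p : κ[X]} (hp : p ≠ 0) : aeval x p ≠ 0 := by
  intro h
  exact hx ⟨p, hp, h⟩

theorem Psi_injective (hx : Transcendental κ x)
    (hsq : ∀ p q : κ[X], p ^ 2 = q ^ 2 * f → p = 0 ∧ q = 0) :
    Function.Injective (Psi f x y hy) := by
  rw [injective_iff_map_eq_zero]
  intro a ha
  rw [Psi_eq] at ha
  have h1 : aeval x (a.re ^ 2 - a.im ^ 2 * f) = 0 := by
    rw [map_sub, map_mul, map_pow, map_pow, ← hy]
    linear_combination (aeval x a.re - aeval x a.im * y) * ha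
  have h2 : a.re ^ 2 - a.im ^ 2 * f = 0 := by
    by_contra hne
    exact aeval_ne_zero x hx hne h1
  obtain ⟨h3, h4⟩ := hsq _ _ (sub_eq_zero.1 h2)
  ext1
  · exact h3
  · exact h4

theorem D_aeval (D : Derivation κ L L) (hD : D x = 1) (p : κ[X]) :
    D (aeval x p) = aeval x (derivative p) := by
  rw [Derivation.map_aeval, hD, smul_eq_mul, mul_one]

include hy in
theorem D_yy (D : Derivation κ L L) (hD : D x = 1) :
    2 * aeval x f * D y = aeval x (derivative f) * y := by
  have h := congrArg D hy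
  rw [Derivation.leibniz_pow, D_aeval x D hD] at h
  simp only [nsmul_eq_mul, smul_eq_mul] at h
  rw [← h, ← hy]
  push_cast
  ring

theorem Psi_qder (D : Derivation κ L L) (hD : D x = 1) (a : QuadraticAlgebra κ[X] f 0) :
    2 * aeval x f * D (Psi f x y hy a) = Psi f x y hy (qder 1 f a) := by
  rw [Psi_eq, Psi_eq, map_add, Derivation.leibniz, D_aeval x D hD, D_aeval x D hD, qder_re, qder_im]
  have h := D_yy f x y hy D hD
  simp only [smul_eq_mul, map_mul, map_add, map_one, map_ofNat, one_mul]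
  linear_combination aeval x a.im * h

/-- the scaled numerators compute the iterates of the connection -/
theorem iterate_eq (D : Derivation κ L L) (hD : D x = 1) (r : ℕ) (hr : 0 < r)
    (hx : Transcendental κ x) (hf : f ≠ 0) (P Q : ℕ → κ[X]) (g : ℕ → QuadraticAlgebra κ[X] f 0)
    (hg : ∀ i < r, g i = ⟨C (2 ^ (r - i)) * P (r - i), C (2 ^ (r - i)) * Q (r - i)⟩) (ν : ℕ) :
    ∀ i : Fin r, (2 * aeval x f) ^ (i : ℕ) * Psi f x y hy (qnum r 1 f g ν i) =
      (2 * aeval x f) ^ ν * ((companionConnection D (operCoeff f P Q x y))^[ν]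
        (fun i : Fin r => if (i : ℕ) = 0 then 1 else 0)) i := by
  set W : L := 2 * aeval x f with hW
  have hDW : D W = 2 * aeval x (derivative f) := by
    have h2 : (2 : L) = ((2 : ℕ) : L) := by norm_num
    rw [hW, Derivation.leibniz, D_aeval x D hD, h2, Derivation.map_natCast]
    simp only [smul_eq_mul, mul_zero, add_zero]
  have hgi : ∀ i < r, Psi f x y hy (g i) = W ^ (r - i) * operCoeff f P Q x y (r - i) := by
    intro i hi
    rw [hg i hi]
    have hf' : aeval x f ≠ 0 := aeval_ne_zero x hx hf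
    rw [Psi_eq, hW, mul_pow, operCoeff]
    simp only [map_mul, map_pow, map_ofNat]
    field_simp
  induction ν with
  | zero =>
    intro i
    rw [qnum, num_zero]
    simp only [Function.iterate_zero, id_eq, pow_zero, one_mul]
    by_cases h : (i : ℕ) = 0
    · simp [h]
    · simp [h]
  | succ ν ih =>
    intro i
    rw [Function.iterate_succ_apply']
    set v := (companionConnection D (operCoeff f P Q x y))^[ν]
        (fun i : Fin r => if (i : ℕ) = 0 then 1 else 0) with hv
    have hnum : qnum r 1 f g (ν + 1) i = qder 1 f (qnum r 1 f g ν i)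
      - (((ν : ℤ) - ((i : ℕ) : ℤ) : ℤ) : QuadraticAlgebra κ[X] f 0) * qphi 1 f * qnum r 1 f g ν i
      + (if (i : ℕ) = 0 then 0 else qnum r 1 f g ν (i - 1)) - g i * qnum r 1 f g ν (r - 1) := rfl
    have hphi : Psi f x y hy (qphi 1 f) = D W := by
      rw [hDW, Psi_eq]
      simp only [qphi, map_mul, map_one, map_ofNat, map_zero, one_mul, zero_mul, add_zero]
    have hi := ih i
    have hlast := ih ⟨r - 1, Nat.sub_lt (Fin.pos i) Nat.one_pos⟩
    simp only at hlast
    -- derivative of the relation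
    have hder : W * D (W ^ (i : ℕ) * Psi f x y hy (qnum r 1 f g ν i)) =
        W * D (W ^ ν * v i) := by rw [hi]
    rw [Derivation.leibniz, Derivation.leibniz, Derivation.leibniz_pow, Derivation.leibniz_pow]
      at hder
    simp only [smul_eq_mul, nsmul_eq_mul] at hder
    have hpow : ∀ k : ℕ, (k : L) * (W ^ (k - 1) * D W) * W = (k : L) * W ^ k * D W := by
      intro k
      rcases Nat.eq_zero_or_pos k with hk | hk
      · simp [hk]
      · obtain ⟨k', rfl⟩ : ∃ k', k = k' + 1 := ⟨k - 1, by omega⟩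
        rw [Nat.add_sub_cancel, pow_succ]; ring
    have hqd : W * D (Psi f x y hy (qnum r 1 f g ν i)) =
        Psi f x y hy (qder 1 f (qnum r 1 f g ν i)) := Psi_qder f x y hy D hD _
    have hA : W ^ (ν + 1) * D (v i) = W ^ (i : ℕ) * (Psi f x y hy (qder 1 f (qnum r 1 f g ν i)) -
        (((ν : ℤ) - ((i : ℕ) : ℤ) : ℤ) : L) * D W * Psi f x y hy (qnum r 1 f g ν i)) := by
      have h1 := hpow (i : ℕ)
      have h2 := hpow ν
      push_cast
      rw [pow_succ]
      linear_combination (-1 : L) * hder + W ^ (i : ℕ) * hqd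
        + Psi f x y hy (qnum r 1 f g ν i) * h1 - v i * h2 + (ν : L) * D W * hi
    have hB : W ^ (ν + 1) *
        (if (i : ℕ) = 0 then 0 else v ⟨(i : ℕ) - 1, lt_of_le_of_lt (Nat.sub_le _ _) i.2⟩) =
        W ^ (i : ℕ) * Psi f x y hy (if (i : ℕ) = 0 then 0 else qnum r 1 f g ν (i - 1)) := by
      by_cases h0 : (i : ℕ) = 0
      · simp [h0]
      · simp only [h0, if_false]
        have h1 := ih ⟨(i : ℕ) - 1, lt_of_le_of_lt (Nat.sub_le _ _) i.2⟩
        simp only at h1
        have h2 : W ^ (i : ℕ) = W * W ^ ((i : ℕ) - 1) := by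
          rw [← pow_succ', Nat.sub_add_cancel (Nat.pos_of_ne_zero h0)]
        rw [h2, pow_succ]
        linear_combination (-W) * h1
    have hC : W ^ (ν + 1) * (operCoeff f P Q x y (r - i) *
          v ⟨r - 1, Nat.sub_lt (Fin.pos i) Nat.one_pos⟩) =
        W ^ (i : ℕ) * (Psi f x y hy (g i) * Psi f x y hy (qnum r 1 f g ν (r - 1))) := by
      rw [hgi i i.2]
      have h2 : W ^ (i : ℕ) * W ^ (r - (i : ℕ)) = W * W ^ (r - 1) := by
        rw [← pow_add, ← pow_succ']
        congr 1
        omega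
      rw [pow_succ]
      linear_combination (-W * operCoeff f P Q x y (r - i)) * hlast -
        operCoeff f P Q x y (r - i) * Psi f x y hy (qnum r 1 f g ν (r - 1)) * h2
    rw [hnum, map_sub, map_add, map_sub, map_mul, map_mul, map_mul, map_intCast, hphi]
    have hgoal : W ^ (ν + 1) * (D (v i) +
        (if (i : ℕ) = 0 then 0 else v ⟨(i : ℕ) - 1, lt_of_le_of_lt (Nat.sub_le _ _) i.2⟩) -
        operCoeff f P Q x y (r - i) * v ⟨r - 1, Nat.sub_lt (Fin.pos i) Nat.one_pos⟩) =
        W ^ (i : ℕ) * (Psi f x y hy (qder 1 f (qnum r 1 f g ν i)) -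
        (((ν : ℤ) - ((i : ℕ) : ℤ) : ℤ) : L) * D W * Psi f x y hy (qnum r 1 f g ν i)) +
        W ^ (i : ℕ) * Psi f x y hy (if (i : ℕ) = 0 then 0 else qnum r 1 f g ν (i - 1)) -
        W ^ (i : ℕ) * (Psi f x y hy (g i) * Psi f x y hy (qnum r 1 f g ν (r - 1))) := by
      rw [mul_sub, mul_add, hA, hB, hC]
    refine Eq.trans ?_ hgoal.symm
    ring

end

section

universe u

theorem qnum_eq_zero_of_nilpotent {κ : Type u} [Field κ] (f : κ[X]) (r : ℕ) (hr : 0 < r)
    (hf : f ≠ 0) (h2 : (2 : κ) ≠ 0) (hsq : ∀ p q : κ[X], p ^ 2 = q ^ 2 * f → p = 0 ∧ q = 0)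
    (P Q : ℕ → κ[X]) (g : ℕ → QuadraticAlgebra κ[X] f 0)
    (hg : ∀ i < r, g i = ⟨C (2 ^ (r - i)) * P (r - i), C (2 ^ (r - i)) * Q (r - i)⟩)
    (hnil : NilpotentPCurvature f P Q r) (i : ℕ) (hi : i < r) :
    qnum r 1 f g (ringChar κ * r) i = 0 := by
  obtain ⟨L, _, _, x, y, D, hx, hy, hD, hv⟩ := hnil
  have h := iterate_eq f x y hy D hD r hr hx hf P Q g hg (ringChar κ * r) ⟨i, hi⟩
  rw [hv] at h
  simp only [Pi.zero_apply, mul_zero] at h
  have hf' : aeval x f ≠ 0 := aeval_ne_zero x hx hf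
  have h2' : (2 : L) ≠ 0 := by
    have : (2 : L) = algebraMap κ L 2 := by rw [map_ofNat]
    rw [this]
    exact (_root_.map_ne_zero _).2 h2
  have h4 := (mul_eq_zero.1 h).resolve_left (pow_ne_zero _ (mul_ne_zero h2' hf'))
  exact Psi_injective f x y hy hx hsq (by rw [h4, map_zero])

/-- A polynomial with a simple root is not a square. -/
theorem sq_ne_of_simple_root {κ : Type u} [Field κ] (f g : κ[X]) (a : κ) (hfg : f = (X - C a) * g)
    (hg : g.eval a ≠ 0) (p q : κ[X]) (h : p ^ 2 = q ^ 2 * f) : p = 0 ∧ q = 0 := by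
  have hg0 : g ≠ 0 := by rintro rfl; simp at hg
  have hf0 : f ≠ 0 := by rw [hfg]; exact mul_ne_zero (X_sub_C_ne_zero a) hg0
  by_cases hq : q = 0
  · subst hq
    simp only [ne_eq, OfNat.ofNat_ne_zero, not_false_eq_true, zero_pow, zero_mul,
      pow_eq_zero_iff] at h
    exact ⟨h, rfl⟩
  · exfalso
    have hq2 : q ^ 2 * f ≠ 0 := mul_ne_zero (pow_ne_zero _ hq) hf0
    have hp : p ≠ 0 := by
      rintro rfl
      rw [zero_pow two_ne_zero] at h
      exact hq2 h.symm
    have h1 := congrArg (rootMultiplicity a) h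
    have hgm : g.rootMultiplicity a = 0 := rootMultiplicity_eq_zero hg
    have hpp : p * p ≠ 0 := mul_ne_zero hp hp
    have hqq : q * q ≠ 0 := mul_ne_zero hq hq
    rw [rootMultiplicity_mul hq2, sq, sq, rootMultiplicity_mul hpp, rootMultiplicity_mul hqq, hfg,
      rootMultiplicity_mul (by rw [← hfg]; exact hf0), rootMultiplicity_X_sub_C_self, hgm] at h1
    omega

variable {R : Type u} [CommRing R] [IsDomain R] [CharZero R] [Algebra.FiniteType ℤ R] {n : ℕ}
  (b : Fin n → R) (r : ℕ) (P Q : ℕ → R[X])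

/-- Nilpotent `p`-curvature at almost all closed points gives nilpotent numerators. -/
theorem nilCoef_of_nilpotent (hr : 0 < r) (hb : Function.Injective b) (i0 : Fin n) (h : R)
    (hh : h ≠ 0) (hnil : NilpotentAtClosedPoints r b P Q h) :
    ∀ᶠ p : ℕ in atTop, p.Prime → ∀ i < r,
      NilCoef p (qnum r 1 (fpoly b) (Gdat r b P Q) (p * r) i) := by
  classical
  set Δ : R := ∏ j ∈ Finset.univ.erase i0, (b i0 - b j) with hΔ
  have hΔ0 : Δ ≠ 0 := by
    rw [hΔ]
    apply Finset.prod_ne_zero_iff.2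
    intro j hj
    exact sub_ne_zero.2 (fun h => (Finset.ne_of_mem_erase hj) (hb h).symm)
  filter_upwards [eventually_radical_of_maximal (h * Δ) (mul_ne_zero hh hΔ0),
    eventually_ge_atTop 3] with p hp hp3 hpp i hi
  have key : ∀ m : Ideal R, m.IsMaximal → (p : R) ∈ m → h * Δ ∉ m → ∀ k,
      (qnum r 1 (fpoly b) (Gdat r b P Q) (p * r) i).re.coeff k ∈ m ∧
      (qnum r 1 (fpoly b) (Gdat r b P Q) (p * r) i).im.coeff k ∈ m := by
    intro m hm hpm hhm k
    letI : Field (R ⧸ m) := Ideal.Quotient.field m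
    set φ : R →+* R ⧸ m := Ideal.Quotient.mk m with hφ
    have hφh : φ h ≠ 0 := by
      intro h0
      exact hhm (m.mul_mem_right _ (Ideal.Quotient.eq_zero_iff_mem.1 h0))
    have hφΔ : φ Δ ≠ 0 := by
      intro h0
      exact hhm (m.mul_mem_left _ (Ideal.Quotient.eq_zero_iff_mem.1 h0))
    have hp0 : ((p : ℕ) : R ⧸ m) = 0 := by
      have := Ideal.Quotient.eq_zero_iff_mem.2 hpm
      rwa [map_natCast] at this
    haveI : CharP (R ⧸ m) p := (CharP.charP_iff_prime_eq_zero hpp).2 hp0
    have hchar : ringChar (R ⧸ m) = p := ringChar.eq (R ⧸ m) p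
    have h2 : (2 : R ⧸ m) ≠ 0 := by
      intro h0
      have h1 : ((2 : ℕ) : R ⧸ m) = 0 := by exact_mod_cast h0
      rw [CharP.cast_eq_zero_iff (R ⧸ m) p] at h1
      have := Nat.le_of_dvd (by norm_num) h1
      omega
    have hn := hnil (R ⧸ m) φ Ideal.Quotient.mk_surjective hφh
    have hfact : (branchPoly b).map φ =
        (X - C (φ (b i0))) * ∏ j ∈ Finset.univ.erase i0, (X - C (φ (b j))) := by
      rw [branchPoly, Polynomial.map_prod, ← Finset.mul_prod_erase Finset.univ _
        (Finset.mem_univ i0)]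
      simp only [Polynomial.map_sub, Polynomial.map_X, Polynomial.map_C]
    have hgev : eval (φ (b i0)) (∏ j ∈ Finset.univ.erase i0, (X - C (φ (b j)))) ≠ 0 := by
      rw [eval_prod]
      have : φ Δ = ∏ j ∈ Finset.univ.erase i0, (φ (b i0) - φ (b j)) := by
        rw [hΔ, map_prod]
        simp only [map_sub]
      simp only [eval_sub, eval_X, eval_C]
      rw [← this]
      exact hφΔ
    have hf0 : (branchPoly b).map φ ≠ 0 := by
      rw [hfact]
      apply mul_ne_zero (X_sub_C_ne_zero _)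
      intro h0
      rw [h0, eval_zero] at hgev
      exact hgev rfl
    have hz := qnum_eq_zero_of_nilpotent _ r hr hf0 h2
      (fun p q hpq => sq_ne_of_simple_root _ _ _ hfact hgev p q hpq) (fun j => (P j).map φ)
      (fun j => (Q j).map φ)
      (fun i => ⟨C (2 ^ (r - i)) * (P (r - i)).map φ, C (2 ^ (r - i)) * (Q (r - i)).map φ⟩)
      (fun i _ => rfl) hn i hi
    have hco := qnum_coef r hr φ 1 (fpoly b) ((branchPoly b).map φ) rfl (Gdat r b P Q)
      (fun i => ⟨C (2 ^ (r - i)) * (P (r - i)).map φ, C (2 ^ (r - i)) * (Q (r - i)).map φ⟩) (by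
        intro i _
        have e : φ (2 ^ (r - i)) = 2 ^ (r - i) := by rw [map_pow, map_ofNat]
        unfold Gdat
        ext1
        · rw [qcoef_re, Polynomial.map_mul, Polynomial.map_C, e]
        · rw [qcoef_im, Polynomial.map_mul, Polynomial.map_C, e]) (p * r) i hi
    rw [map_one, ← hchar] at hco
    rw [hz] at hco
    rw [hchar] at hco
    constructor
    · have := congrArg (fun a => (QuadraticAlgebra.re a).coeff k) hco
      simp only [QuadraticAlgebra.re_zero, coeff_zero, qcoef_re, coeff_map] at this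
      exact Ideal.Quotient.eq_zero_iff_mem.1 this.symm
    · have := congrArg (fun a => (QuadraticAlgebra.im a).coeff k) hco
      simp only [QuadraticAlgebra.im_zero, coeff_zero, qcoef_im, coeff_map] at this
      exact Ideal.Quotient.eq_zero_iff_mem.1 this.symm
  intro k
  exact ⟨hp hpp _ (fun m hm hpm hhm => (key m hm hpm hhm k).1),
    hp hpp _ (fun m hm hpm hhm => (key m hm hpm hhm k).2)⟩

end

end Helper12
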