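import Mathlib
import Pool.Agent.Helper12.Val

namespace Helper12

open Polynomial

/-- evaluation of a polynomial in two variables -/
noncomputable def ev2 {k A : Type*} [CommRing k] [CommRing A] [Algebra k A] (s t : A) :
    Polynomial (Polynomial k) →+* A :=
  Polynomial.eval₂RingHom (Polynomial.aeval s : Polynomial k →ₐ[k] A).toRingHom t

theorem ev2_eq_sum {k A : Type*} [CommRing k] [CommRing A] [Algebra k A] (s t : A)
    (g : Polynomial (Polynomial k)) :
    ev2 s t g = ∑ i ∈ Finset.range (g.natDegree + 1), aeval s (g.coeff i) * t ^ i := by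
  unfold ev2
  rw [coe_eval₂RingHom, eval₂_eq_sum_range]
  rfl

theorem ev2_monomial {k A : Type*} [CommRing k] [CommRing A] [Algebra k A] (s t : A) (n : ℕ)
    (p : Polynomial k) : ev2 s t (monomial n p) = aeval s p * t ^ n := by
  unfold ev2
  rw [coe_eval₂RingHom, eval₂_monomial]
  rfl

/-- Two terms of a vanishing sum have the same valuation. -/
theorem two_terms {Ω Γ : Type*} [Field Ω] [LinearOrderedCommGroupWithZero Γ] (w : Valuation Ω Γ)
    (s : Finset ℕ) (x : ℕ → Ω) (h : ∑ i ∈ s, x i = 0) (hne : ∃ i ∈ s, x i ≠ 0) :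
    ∃ i ∈ s, ∃ j ∈ s, i < j ∧ x i ≠ 0 ∧ w (x i) = w (x j) := by
  classical
  obtain ⟨i0, hi0, hi0'⟩ := hne
  obtain ⟨i, his, hi⟩ := Finset.exists_max_image s (fun i => w (x i)) ⟨i0, hi0⟩
  have hxi : x i ≠ 0 := by
    intro h0
    have := hi i0 hi0
    simp only [h0, map_zero] at this
    exact hi0' ((Valuation.zero_iff w).1 (le_zero_iff.1 this))
  have hex : ∃ j ∈ s, j ≠ i ∧ w (x j) = w (x i) := by
    by_contra hcon
    push Not at hcon
    have h1 : w (∑ j ∈ s.erase i, x j) < w (x i) := by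
      apply Valuation.map_sum_lt w ((Valuation.ne_zero_iff w).2 hxi)
      intro j hj
      rw [Finset.mem_erase] at hj
      exact lt_of_le_of_ne (hi j hj.2) (hcon j hj.2 hj.1)
    have h2 : ∑ j ∈ s.erase i, x j = - x i := by
      rw [← Finset.add_sum_erase s x his] at h
      linear_combination h
    rw [h2, Valuation.map_neg] at h1
    exact lt_irrefl _ h1
  obtain ⟨j, hjs, hji, hj⟩ := hex
  rcases lt_or_gt_of_ne hji with hlt | hlt
  · refine ⟨j, hjs, i, his, hlt, ?_, hj⟩
    intro h0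
    rw [h0, map_zero] at hj
    exact hxi ((Valuation.zero_iff w).1 hj.symm)
  · exact ⟨i, his, j, hjs, hlt, hxi, hj.symm⟩

/-- A place of a field over a subfield of constants with a local parameter. -/
structure Place (k Ω : Type*) [Field k] [Field Ω] [Algebra k Ω] where
  V : ValuationSubring Ω
  ε : Ω
  mem : ∀ c : k, algebraMap k Ω c ∈ V
  ne : ε ≠ 0
  lt : V.valuation ε < 1
  alg : ∀ y : Ω, ∃ g : Polynomial (Polynomial k), g ≠ 0 ∧ ev2 ε y g = 0

namespace Place

variable {k Ω : Type*} [Field k] [Field Ω] [Algebra k Ω] (P : Place k Ω)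

theorem w_const (c : k) (hc : c ≠ 0) : P.V.valuation (algebraMap k Ω c) = 1 := by
  have h1 : P.V.valuation (algebraMap k Ω c) ≤ 1 := (P.V.valuation_le_one_iff _).2 (P.mem c)
  have h2 : P.V.valuation (algebraMap k Ω c⁻¹) ≤ 1 := (P.V.valuation_le_one_iff _).2 (P.mem _)
  have h3 : P.V.valuation (algebraMap k Ω c) * P.V.valuation (algebraMap k Ω c⁻¹) = 1 := by
    rw [← map_mul, ← map_mul, mul_inv_cancel₀ hc, map_one, map_one]
  apply le_antisymm h1
  calc 1 = P.V.valuation (algebraMap k Ω c) * P.V.valuation (algebraMap k Ω c⁻¹) := h3.symm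
    _ ≤ P.V.valuation (algebraMap k Ω c) * 1 := mul_le_mul_right h2 _
    _ = _ := mul_one _

theorem wne : P.V.valuation P.ε ≠ 0 := (Valuation.ne_zero_iff _).2 P.ne

theorem w_aeval_le (p : k[X]) : P.V.valuation (aeval P.ε p) ≤ 1 := by
  rw [P.V.valuation_le_one_iff]
  induction p using Polynomial.induction_on' with
  | add p q hp hq => rw [map_add]; exact P.V.add_mem _ _ hp hq
  | monomial n a =>
    rw [aeval_monomial]
    exact P.V.mul_mem _ _ (P.mem a) (pow_mem ((P.V.valuation_le_one_iff _).1 P.lt.le) n)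

theorem w_aeval_sub (p : k[X]) :
    P.V.valuation (aeval P.ε p - algebraMap k Ω (p.coeff 0)) < 1 := by
  have h : aeval P.ε p - algebraMap k Ω (p.coeff 0) = P.ε * aeval P.ε p.divX := by
    conv_lhs => rw [← Polynomial.divX_mul_X_add p]
    simp
    ring
  rw [h, map_mul]
  exact mul_lt_one_of_lt_of_le P.lt (P.w_aeval_le _)

theorem w_aeval_unit (p : k[X]) (hp : p.coeff 0 ≠ 0) : P.V.valuation (aeval P.ε p) = 1 := by
  have h1 := P.w_aeval_sub p
  have h2 := P.w_const _ hp
  have h3 : aeval P.ε p = (aeval P.ε p - algebraMap k Ω (p.coeff 0)) +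
      algebraMap k Ω (p.coeff 0) := by ring
  rw [h3, Valuation.map_add_eq_of_lt_right _ (by rw [h2]; exact h1), h2]

theorem w_aeval (p : k[X]) (hp : p ≠ 0) :
    ∃ m : ℕ, P.V.valuation (aeval P.ε p) = P.V.valuation P.ε ^ m := by
  obtain ⟨q, hq, hq'⟩ := Polynomial.exists_eq_pow_rootMultiplicity_mul_and_not_dvd p hp 0
  rw [C_0, sub_zero] at hq hq'
  refine ⟨p.rootMultiplicity 0, ?_⟩
  have h0 : q.coeff 0 ≠ 0 := by
    intro h
    exact hq' (Polynomial.X_dvd_iff.2 h)
  conv_lhs => rw [hq]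
  rw [map_mul, map_mul, P.w_aeval_unit q h0, mul_one, map_pow, map_pow, aeval_X]

theorem transcendental (p : k[X]) (hp : p ≠ 0) : aeval P.ε p ≠ 0 := by
  obtain ⟨m, hm⟩ := P.w_aeval p hp
  intro h
  rw [h, map_zero] at hm
  exact pow_ne_zero m P.wne hm.symm

/-- relation between the valuation of an element and that of the parameter -/
def Rel (y : Ω) (M : ℕ) (m : ℤ) : Prop :=
  0 < M ∧ P.V.valuation y ^ M = P.V.valuation P.ε ^ m

theorem rel_of_relation (y : Ω) (hy : y ≠ 0) (d : ℕ) (f : ℕ → Ω)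
    (hf : ∀ i, f i = 0 ∨ ∃ a : ℤ, P.V.valuation (f i) = P.V.valuation P.ε ^ a)
    (hne : ∃ i ≤ d, f i ≠ 0) (h : ∑ i ∈ Finset.range (d + 1), f i * y ^ i = 0) :
    ∃ M ≤ d, ∃ m, P.Rel y M m := by
  obtain ⟨i0, hi0, hi0'⟩ := hne
  obtain ⟨i, hi, j, hj, hij, hxi, hw⟩ := two_terms P.V.valuation _ _ h
    ⟨i0, Finset.mem_range.2 (by omega), mul_ne_zero hi0' (pow_ne_zero _ hy)⟩
  rw [Finset.mem_range] at hi hj
  have hfi : f i ≠ 0 := left_ne_zero_of_mul hxi
  have hxj : f j * y ^ j ≠ 0 := by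
    intro h0
    rw [h0, map_zero] at hw
    exact hxi ((Valuation.zero_iff _).1 hw)
  have hfj : f j ≠ 0 := left_ne_zero_of_mul hxj
  obtain ⟨a, ha⟩ := (hf i).resolve_left hfi
  obtain ⟨b, hb⟩ := (hf j).resolve_left hfj
  refine ⟨j - i, by omega, a - b, by omega, ?_⟩
  rw [map_mul, map_mul, map_pow, map_pow, ha, hb] at hw
  have hwy : P.V.valuation y ≠ 0 := (Valuation.ne_zero_iff _).2 hy
  have h1 : P.V.valuation y ^ j = P.V.valuation y ^ i * P.V.valuation y ^ (j - i) := by
    rw [← pow_add]; congr 1; omega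
  rw [h1, mul_comm (P.V.valuation y ^ i), ← mul_assoc] at hw
  have h2 := mul_right_cancel₀ (pow_ne_zero i hwy) hw
  rw [zpow_sub₀ P.wne, h2, mul_div_cancel_left₀ _ (zpow_ne_zero _ P.wne)]

theorem exists_rel (y : Ω) (hy : y ≠ 0) : ∃ M m, P.Rel y M m := by
  obtain ⟨g, hg, hgy⟩ := P.alg y
  rw [ev2_eq_sum] at hgy
  obtain ⟨M, -, m, h⟩ := P.rel_of_relation y hy g.natDegree (fun i => aeval P.ε (g.coeff i)) (by
    intro i
    by_cases h0 : g.coeff i = 0
    · left; simp [h0]
    · right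
      obtain ⟨m, hm⟩ := P.w_aeval _ h0
      exact ⟨m, by rw [hm, zpow_natCast]⟩)
    ⟨g.natDegree, le_rfl, P.transcendental _ (by
      rw [coeff_natDegree]; exact leadingCoeff_ne_zero.2 hg)⟩ hgy
  exact ⟨M, m, h⟩

theorem rel_unique {y : Ω} {M M' : ℕ} {m m' : ℤ} (h : P.Rel y M m) (h' : P.Rel y M' m') :
    (m : ℚ) / M = (m' : ℚ) / M' := by
  obtain ⟨hM, h1⟩ := h
  obtain ⟨hM', h2⟩ := h'
  have h3 : P.V.valuation P.ε ^ (m * M') = P.V.valuation P.ε ^ (m' * M) := by
    rw [zpow_mul, zpow_mul, ← h1, ← h2, zpow_natCast, zpow_natCast, ← pow_mul, ← pow_mul,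
      mul_comm]
  have h4 : m * M' = m' * M := by
    have hpos : 0 < P.V.valuation P.ε := zero_lt_iff.2 P.wne
    exact zpow_right_injective₀ hpos P.lt.ne h3
  have hMq : (M : ℚ) ≠ 0 := by exact_mod_cast hM.ne'
  have hMq' : (M' : ℚ) ≠ 0 := by exact_mod_cast hM'.ne'
  rw [div_eq_div_iff hMq hMq']
  exact_mod_cast h4

open Classical in
/-- the normalised valuation -/
noncomputable def r (y : Ω) : ℚ :=
  if h : y = 0 then 0 else
    ((P.exists_rel y h).choose_spec.choose : ℚ) / ((P.exists_rel y h).choose : ℚ)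

theorem r_eq {y : Ω} (hy : y ≠ 0) {M : ℕ} {m : ℤ} (h : P.Rel y M m) : P.r y = (m : ℚ) / M := by
  unfold r
  rw [dif_neg hy]
  exact P.rel_unique (P.exists_rel y hy).choose_spec.choose_spec h

theorem rel_ε : P.Rel P.ε 1 1 := ⟨one_pos, by simp⟩

theorem r_ε : P.r P.ε = 1 := by rw [P.r_eq P.ne P.rel_ε]; simp

theorem rel_mul {x y : Ω} {M M' : ℕ} {m m' : ℤ} (h : P.Rel x M m) (h' : P.Rel y M' m') :
    P.Rel (x * y) (M * M') (m * M' + m' * M) := by
  obtain ⟨hM, h1⟩ := h
  obtain ⟨hM', h2⟩ := h'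
  refine ⟨Nat.mul_pos hM hM', ?_⟩
  rw [map_mul, mul_pow, pow_mul, h1, mul_comm M M', pow_mul, h2, zpow_add₀ P.wne, zpow_mul,
    zpow_mul, zpow_natCast, zpow_natCast]

theorem r_nonneg_iff {y : Ω} (hy : y ≠ 0) : y ∈ P.V ↔ 0 ≤ P.r y := by
  obtain ⟨M, m, h⟩ := P.exists_rel y hy
  rw [P.r_eq hy h]
  obtain ⟨hM, h1⟩ := h
  have hMq : (0 : ℚ) < M := by exact_mod_cast hM
  rw [show (0 ≤ (m : ℚ) / M) ↔ 0 ≤ (m : ℚ) from
      ⟨fun h => by
        have := mul_nonneg h hMq.le
        rwa [div_mul_cancel₀ _ hMq.ne'] at this, fun h => div_nonneg h hMq.le⟩,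
    ← P.V.valuation_le_one_iff, ← pow_le_one_iff (n := M) hM.ne', h1]
  have hpos : 0 < P.V.valuation P.ε := zero_lt_iff.2 P.wne
  constructor
  · intro h
    by_contra hcon
    push Not at hcon
    have hm : m < 0 := by exact_mod_cast hcon
    have : 1 < P.V.valuation P.ε ^ m := one_lt_zpow_of_neg₀ hpos P.lt hm
    exact absurd h (not_le.2 this)
  · intro h
    have hm : 0 ≤ m := by exact_mod_cast h
    obtain ⟨e, rfl⟩ := Int.eq_ofNat_of_zero_le hm
    rw [zpow_natCast]
    exact pow_le_one₀ hpos.le P.lt.le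

theorem exists_primitive (y : Ω) :
    ∃ g : Polynomial (Polynomial k), g.map (evalRingHom 0) ≠ 0 ∧ ev2 P.ε y g = 0 := by
  obtain ⟨g, hg, hgy⟩ := P.alg y
  have hirr : Irreducible (C X : Polynomial (Polynomial k)) :=
    (Polynomial.prime_C_iff.2 Polynomial.prime_X).irreducible
  obtain ⟨n, h, hh, rfl⟩ := WfDvdMonoid.max_power_factor hg hirr
  refine ⟨h, ?_, ?_⟩
  · intro h0
    apply hh
    rw [Polynomial.C_dvd_iff_dvd_coeff]
    intro i
    rw [Polynomial.X_dvd_iff]
    have := congrArg (fun q => Polynomial.coeff q i) h0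
    simp only [coeff_map, coe_evalRingHom, coeff_zero] at this
    rw [← Polynomial.coeff_zero_eq_eval_zero] at this
    exact this
  · rw [map_mul, map_pow] at hgy
    have h1 : ev2 P.ε y (C X : Polynomial (Polynomial k)) = P.ε := by
      unfold ev2
      simp
    rw [h1] at hgy
    exact (mul_eq_zero.1 hgy).resolve_left (pow_ne_zero _ P.ne)

theorem exists_residue [IsAlgClosed k] (y : Ω) (hy : y ∈ P.V) :
    ∃ c : k, P.V.valuation (y - algebraMap k Ω c) < 1 := by
  obtain ⟨g, hg, hgy⟩ := P.exists_primitive y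
  have hw : P.V.valuation y ≤ 1 := (P.V.valuation_le_one_iff y).2 hy
  have h1 : P.V.valuation (aeval y (g.map (evalRingHom 0))) < 1 := by
    have h2 : aeval y (g.map (evalRingHom 0)) = - ∑ i ∈ Finset.range (g.natDegree + 1),
        (aeval P.ε (g.coeff i) - algebraMap k Ω ((g.coeff i).coeff 0)) * y ^ i := by
      have h3 : aeval y (g.map (evalRingHom 0)) = ∑ i ∈ Finset.range (g.natDegree + 1),
          algebraMap k Ω ((g.coeff i).coeff 0) * y ^ i := by
        rw [Polynomial.aeval_eq_sum_range' (lt_of_le_of_lt (Polynomial.natDegree_map_le) (Nat.lt_succ_self _))]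
        apply Finset.sum_congr rfl
        intro i _
        rw [coeff_map, coe_evalRingHom, ← Polynomial.coeff_zero_eq_eval_zero, Algebra.smul_def]
      rw [h3, ev2_eq_sum] at *
      rw [← sub_eq_zero, sub_neg_eq_add, ← Finset.sum_add_distrib, ← hgy]
      apply Finset.sum_congr rfl
      intro i _
      ring
    rw [h2, Valuation.map_neg]
    apply Valuation.map_sum_lt _ one_ne_zero
    intro i _
    rw [map_mul, map_pow]
    exact mul_lt_one_of_lt_of_le (P.w_aeval_sub _) (pow_le_one₀ zero_le hw)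
  by_contra hcon
  push Not at hcon
  have h4 : ∀ c : k, P.V.valuation (y - algebraMap k Ω c) = 1 := by
    intro c
    apply le_antisymm _ (hcon c)
    rw [P.V.valuation_le_one_iff]
    exact sub_mem hy (P.mem c)
  have h5 : aeval y (g.map (evalRingHom 0)) = algebraMap k Ω (g.map (evalRingHom 0)).leadingCoeff *
      ((g.map (evalRingHom 0)).roots.map (fun a => y - algebraMap k Ω a)).prod := by
    conv_lhs => rw [(IsAlgClosed.splits (g.map (evalRingHom 0))).eq_prod_roots]
    rw [map_mul, aeval_C, map_multiset_prod, Multiset.map_map]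
    congr 2
    apply Multiset.map_congr rfl
    intro a _
    simp
  rw [h5, map_mul, P.w_const _ (leadingCoeff_ne_zero.2 hg), one_mul, map_multiset_prod,
    Multiset.map_map] at h1
  have h6 : (Multiset.map (⇑P.V.valuation ∘ fun a => y - algebraMap k Ω a)
      (g.map (evalRingHom 0)).roots) = Multiset.map (fun _ => 1) (g.map (evalRingHom 0)).roots := by
    apply Multiset.map_congr rfl
    intro a _
    exact h4 a
  rw [h6] at h1
  simp at h1

variable [CharZero k] [IsAlgClosed Ω]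

/-- the rational valuation of a place -/
noncomputable def qval : QVal Ω where
  V := P.V
  r := P.r
  map_mul' := fun x y hx hy => by
    obtain ⟨M, m, h⟩ := P.exists_rel x hx
    obtain ⟨M', m', h'⟩ := P.exists_rel y hy
    rw [P.r_eq hx h, P.r_eq hy h', P.r_eq (mul_ne_zero hx hy) (P.rel_mul h h')]
    have hMq : (M : ℚ) ≠ 0 := by exact_mod_cast h.1.ne'
    have hMq' : (M' : ℚ) ≠ 0 := by exact_mod_cast h'.1.ne'
    push_cast
    field_simp
  mem_iff' := fun x hx => P.r_nonneg_iff hx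
  surj' := fun q => by
    obtain ⟨y, hy⟩ := IsAlgClosed.exists_pow_nat_eq (P.ε ^ q.num) q.den_pos
    have hy0 : y ≠ 0 := by
      intro h
      rw [h, zero_pow q.den_ne_zero] at hy
      exact zpow_ne_zero _ P.ne hy.symm
    refine ⟨y, hy0, ?_⟩
    rw [P.r_eq hy0 (M := q.den) (m := q.num) ⟨q.den_pos, by rw [← map_pow, hy, map_zpow₀]⟩]
    exact Rat.num_div_den q
  nat' := fun n hn => by
    have hn' : ((n : ℕ) : k) ≠ 0 := by exact_mod_cast hn
    have h1 : (n : Ω) = algebraMap k Ω n := by simp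
    have h2 := P.w_const _ hn'
    have h3 : (n : Ω) ≠ 0 := by
      rw [h1]; exact (_root_.map_ne_zero _).2 hn'
    rw [P.r_eq h3 (M := 1) (m := 0) ⟨one_pos, by rw [h1, h2]; simp⟩]
    simp

theorem qval_r (y : Ω) : P.qval.r y = P.r y := rfl

theorem qval_V : P.qval.V = P.V := rfl

theorem gt_zero_iff (y : Ω) : P.qval.gt 0 y ↔ P.V.valuation y < 1 := by
  have h1 : ∀ {x : Ω}, x ≠ 0 → P.qval.r x⁻¹ = - P.qval.r x := fun hx => P.qval.r_inv hx
  by_cases hy : y = 0
  · subst hy; simp [QVal.gt]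
  · rw [P.qval.gt_of_ne hy, ← not_iff_not, not_lt, not_lt]
    have h2 : (1 : P.V.ValueGroup) ≤ P.V.valuation y ↔ y⁻¹ ∈ P.V := by
      rw [← P.V.valuation_le_one_iff, map_inv₀]
      have hpos : 0 < P.V.valuation y := zero_lt_iff.2 ((Valuation.ne_zero_iff _).2 hy)
      rw [inv_le_one₀ hpos]
    rw [h2, P.r_nonneg_iff (inv_ne_zero hy), ← P.qval_r, h1 hy]
    constructor <;> intro h <;> linarith

end Place

end Helper12
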