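import Mathlib
import Pool.Agent.Helper12.Place

namespace Helper12

open Polynomial

section gen

variable {k Ω : Type*} [Field k] [Field Ω] [Algebra k Ω]

/-- the polynomial ring maps onto the algebra generated by one element -/
noncomputable def toAdj (k : Type*) {Ω : Type*} [Field k] [Field Ω] [Algebra k Ω] (s : Ω) :
    k[X] →+* Algebra.adjoin k ({s} : Set Ω) :=
  (aeval (⟨s, Algebra.self_mem_adjoin_singleton k s⟩ : Algebra.adjoin k ({s} : Set Ω))).toRingHom

theorem toAdj_coe (s : Ω) (p : k[X]) : ((toAdj k s p : Algebra.adjoin k ({s} : Set Ω)) : Ω) =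
    aeval s p := by
  unfold toAdj
  have := Polynomial.aeval_algHom_apply (Algebra.adjoin k ({s} : Set Ω)).val
    (⟨s, Algebra.self_mem_adjoin_singleton k s⟩ : Algebra.adjoin k ({s} : Set Ω)) p
  exact this.symm

theorem toAdj_surjective (s : Ω) : Function.Surjective (toAdj k s) := by
  intro x
  have hx : (x : Ω) ∈ (aeval s : k[X] →ₐ[k] Ω).range :=
    (Algebra.adjoin_singleton_eq_range_aeval k s).le x.2
  obtain ⟨p, hp⟩ := hx
  refine ⟨p, ?_⟩
  apply Subtype.ext
  rw [toAdj_coe]
  exact hp

theorem toAdj_injective {s : Ω} (hs : Transcendental k s) : Function.Injective (toAdj k s) := by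
  rw [injective_iff_map_eq_zero]
  intro p hp
  by_contra hne
  apply hs
  refine ⟨p, hne, ?_⟩
  rw [← toAdj_coe, hp]
  rfl

theorem aeval_map_toAdj (s y : Ω) (g : Polynomial (Polynomial k)) :
    aeval y (g.map (toAdj k s)) = ev2 s y g := by
  unfold ev2
  rw [aeval_def, eval₂_map, coe_eval₂RingHom]
  congr 1
  apply RingHom.ext
  intro p
  exact toAdj_coe s p

/-- every element is algebraic over the field generated by one element -/
def Gen (k : Type*) {Ω : Type*} [Field k] [Field Ω] [Algebra k Ω] (s : Ω) : Prop :=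
  ∀ y : Ω, ∃ g : Polynomial (Polynomial k), g ≠ 0 ∧ ev2 s y g = 0

theorem gen_iff {s : Ω} (hs : Transcendental k s) :
    Gen k s ↔ Algebra.IsAlgebraic (Algebra.adjoin k ({s} : Set Ω)) Ω := by
  constructor
  · intro h
    constructor
    intro y
    obtain ⟨g, hg, hgy⟩ := h y
    refine ⟨g.map (toAdj k s), ?_, ?_⟩
    · intro h0
      exact hg ((Polynomial.map_eq_zero_iff (toAdj_injective hs)).1 h0)
    · rw [aeval_map_toAdj]; exact hgy
  · intro h y
    obtain ⟨p, hp, hpy⟩ := h.isAlgebraic y
    obtain ⟨g, rfl⟩ := Polynomial.map_surjective (toAdj k s) (toAdj_surjective s) p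
    refine ⟨g, ?_, ?_⟩
    · rintro rfl
      exact hp (Polynomial.map_zero _)
    · rw [← aeval_map_toAdj]; exact hpy

theorem gen_exchange {s t : Ω} (hs : Transcendental k s) (ht : Transcendental k t)
    (h : Gen k s) : Gen k t := by
  rw [gen_iff hs] at h
  rw [gen_iff ht]
  have hs' : AlgebraicIndependent k (fun _ : Unit => s) := by
    rw [algebraicIndependent_unique_type_iff]; exact hs
  have ht' : AlgebraicIndependent k (fun _ : Unit => t) := by
    rw [algebraicIndependent_unique_type_iff]; exact ht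
  have hb : IsTranscendenceBasis k (fun _ : Unit => s) := by
    rw [hs'.isTranscendenceBasis_iff_isAlgebraic]
    rw [Set.range_const]
    exact h
  have hcard := hb.lift_cardinalMk_eq_trdeg
  have hb' : IsTranscendenceBasis k (fun _ : Unit => t) := by
    apply ht'.isTranscendenceBasis_of_lift_trdeg_le_of_finite
    rw [← hcard]
  have h3 := hb'.isAlgebraic
  rw [Set.range_const] at h3
  exact h3

end gen

namespace Place

variable {k Ω : Type*} [Field k] [Field Ω] [Algebra k Ω] (P : Place k Ω)

theorem transc_of_lt {t : Ω} (ht : t ≠ 0) (hlt : P.V.valuation t < 1) : Transcendental k t := by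
  intro h
  obtain ⟨p, hp, hpt⟩ := h
  obtain ⟨q, hq, hq'⟩ := Polynomial.exists_eq_pow_rootMultiplicity_mul_and_not_dvd p hp 0
  rw [C_0, sub_zero] at hq hq'
  have h0 : q.coeff 0 ≠ 0 := by
    intro h
    exact hq' (Polynomial.X_dvd_iff.2 h)
  rw [hq, map_mul, map_pow, aeval_X] at hpt
  have hqt : aeval t q = 0 := (mul_eq_zero.1 hpt).resolve_left (pow_ne_zero _ ht)
  have hmem : ∀ r : k[X], aeval t r ∈ P.V := by
    intro r
    induction r using Polynomial.induction_on' with
    | add p q hp hq => rw [map_add]; exact P.V.add_mem _ _ hp hq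
    | monomial n a =>
      rw [aeval_monomial]
      exact P.V.mul_mem _ _ (P.mem a) (pow_mem ((P.V.valuation_le_one_iff _).1 hlt.le) n)
  have h1 : algebraMap k Ω (q.coeff 0) = - (t * aeval t q.divX) := by
    have h := hqt
    rw [← Polynomial.divX_mul_X_add q] at h
    simp only [map_add, map_mul, aeval_X, aeval_C] at h
    linear_combination h
  have h2 := P.w_const _ h0
  rw [h1, Valuation.map_neg, map_mul] at h2
  have h3 : P.V.valuation t * P.V.valuation (aeval t q.divX) < 1 :=
    mul_lt_one_of_lt_of_le hlt ((P.V.valuation_le_one_iff _).2 (hmem _))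
  exact absurd h2 h3.ne

/-- change of the parameter -/
def change (t : Ω) (ht : t ≠ 0) (hlt : P.V.valuation t < 1) : Place k Ω where
  V := P.V
  ε := t
  mem := P.mem
  ne := ht
  lt := hlt
  alg := gen_exchange (P.transc_of_lt P.ne P.lt) (P.transc_of_lt ht hlt) P.alg

/-- a separable relation -/
theorem exists_sep [CharZero k] (y : Ω) : ∃ g : Polynomial (Polynomial k),
    ev2 P.ε y g = 0 ∧ ev2 P.ε y (derivative g) ≠ 0 := by
  classical
  have hex : ∃ n : ℕ, ∃ g : Polynomial (Polynomial k), g ≠ 0 ∧ ev2 P.ε y g = 0 ∧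
      g.natDegree = n := by
    obtain ⟨g, h1, h2⟩ := P.alg y
    exact ⟨_, g, h1, h2, rfl⟩
  obtain ⟨g, hg, hgy, hgn⟩ := Nat.find_spec hex
  have hdeg : g.natDegree ≠ 0 := by
    intro h0
    rw [Polynomial.eq_C_of_natDegree_eq_zero h0] at hgy hg
    have hc : g.coeff 0 ≠ 0 := by
      intro h; rw [h, C_0] at hg; exact hg rfl
    unfold ev2 at hgy
    rw [coe_eval₂RingHom, eval₂_C] at hgy
    exact P.transcendental _ hc hgy
  refine ⟨g, hgy, ?_⟩
  intro h0
  have hd0 : derivative g ≠ 0 := by
    intro h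
    exact hdeg (Polynomial.derivative_eq_zero.1 h)
  have hlt := Polynomial.natDegree_derivative_lt hdeg
  rw [hgn] at hlt
  exact Nat.find_min hex hlt ⟨derivative g, hd0, h0, rfl⟩

end Place

end Helper12
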