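import Mathlib
import Pool.Agent.Helper12.Gen

namespace Helper12

open Polynomial

namespace Place

variable {k Ω : Type*} [Field k] [Field Ω] [Algebra k Ω] (P : Place k Ω)

theorem w_adjoin {f : Ω} (hf : f ∈ IntermediateField.adjoin k ({P.ε} : Set Ω)) (h0 : f ≠ 0) :
    ∃ a : ℤ, P.V.valuation f = P.V.valuation P.ε ^ a := by
  rw [IntermediateField.mem_adjoin_simple_iff] at hf
  obtain ⟨p, q, rfl⟩ := hf
  have hp : p ≠ 0 := by rintro rfl; simp at h0
  have hq : q ≠ 0 := by rintro rfl; simp at h0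
  obtain ⟨m, hm⟩ := P.w_aeval p hp
  obtain ⟨n, hn⟩ := P.w_aeval q hq
  refine ⟨(m : ℤ) - n, ?_⟩
  rw [map_div₀, hm, hn, zpow_sub₀ P.wne, zpow_natCast, zpow_natCast]

/-- the field generated by the parameter -/
abbrev base : IntermediateField k Ω := IntermediateField.adjoin k ({P.ε} : Set Ω)

theorem isAlgebraic_adjoin : Algebra.IsAlgebraic P.base Ω := by
  constructor
  intro y
  obtain ⟨g, hg, hgy⟩ := P.alg y
  let φ : k[X] →+* P.base :=
    (aeval (⟨P.ε, IntermediateField.mem_adjoin_simple_self k P.ε⟩ : P.base)).toRingHom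
  have hφ : ∀ p : k[X], ((φ p : P.base) : Ω) = aeval P.ε p := by
    intro p
    exact (Polynomial.aeval_algHom_apply (P.base).val
      (⟨P.ε, IntermediateField.mem_adjoin_simple_self k P.ε⟩ : P.base) p).symm
  have hinj : Function.Injective φ := by
    rw [injective_iff_map_eq_zero]
    intro p hp
    by_contra hne
    apply P.transcendental p hne
    rw [← hφ, hp]
    rfl
  refine ⟨g.map φ, ?_, ?_⟩
  · intro h0
    exact hg ((Polynomial.map_eq_zero_iff hinj).1 h0)
  · rw [← hgy]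
    unfold ev2
    rw [aeval_def, eval₂_map, coe_eval₂RingHom]
    congr 1
    apply RingHom.ext
    intro p
    exact hφ p

theorem rel_of_finite (E : IntermediateField P.base Ω)
    [FiniteDimensional P.base E] (y : Ω) (hy : y ∈ E)
    (h0 : y ≠ 0) : ∃ M ≤ Module.finrank P.base E,
      ∃ m, P.Rel y M m := by
  let F := P.base
  set y' : E := ⟨y, hy⟩ with hy'
  have hint : IsIntegral P.base y' := Algebra.IsIntegral.isIntegral y'
  have hmin := minpoly.natDegree_le (A := P.base) y'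
  have hroot : aeval y (minpoly P.base y') = 0 := by
    have h := minpoly.aeval P.base y'
    have h2 := congrArg (algebraMap E Ω) h
    rw [← Polynomial.aeval_algebraMap_apply, map_zero] at h2
    exact h2
  rw [Polynomial.aeval_eq_sum_range] at hroot
  obtain ⟨M, hM, m, h⟩ := P.rel_of_relation y h0 (minpoly P.base y').natDegree
    (fun i => algebraMap P.base Ω ((minpoly P.base y').coeff i)) (by
      intro i
      by_cases hc : (minpoly P.base y').coeff i = 0
      · left; simp [hc]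
      · right
        exact P.w_adjoin ((minpoly P.base y').coeff i).2 ((map_ne_zero (algebraMap P.base Ω)).2 hc))
    ⟨(minpoly P.base y').natDegree, le_rfl, by
      rw [coeff_natDegree, (minpoly.monic hint).leadingCoeff]; simp⟩
    (by
      rw [← hroot]
      apply Finset.sum_congr rfl
      intro i _
      rw [Algebra.smul_def])
  exact ⟨M, hM.trans hmin, m, h⟩

variable [CharZero k] [IsAlgClosed Ω]

theorem exists_uniformizer (E : IntermediateField P.base Ω) [FiniteDimensional P.base E] :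
    ∃ ϖ ∈ E, ϖ ≠ 0 ∧ 0 < P.r ϖ ∧ ∀ x ∈ E, x ≠ 0 → ∃ m : ℤ, P.r x = m * P.r ϖ := by
  classical
  set N : ℕ := (Module.finrank P.base E).factorial with hN
  have hNpos : 0 < N := Nat.factorial_pos _
  have hNq : (0 : ℚ) < N := by exact_mod_cast hNpos
  have hint : ∀ y ∈ E, y ≠ 0 → ∃ z : ℤ, (N : ℚ) * P.r y = z := by
    intro y hy h0
    obtain ⟨M, hM, m, h⟩ := P.rel_of_finite E y hy h0
    rw [P.r_eq h0 h]
    obtain ⟨t, ht⟩ := Nat.dvd_factorial h.1 hM
    refine ⟨t * m, ?_⟩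
    rw [hN, ht]
    have hMq : (M : ℚ) ≠ 0 := by exact_mod_cast h.1.ne'
    push_cast
    field_simp
  have hεE : P.ε ∈ E := by
    have h1 : P.ε ∈ P.base :=
      IntermediateField.mem_adjoin_simple_self k P.ε
    exact E.algebraMap_mem ⟨P.ε, h1⟩
  have hex : ∃ t : ℕ, 0 < t ∧ ∃ y ∈ E, y ≠ 0 ∧ (N : ℚ) * P.r y = t :=
    ⟨N, hNpos, P.ε, hεE, P.ne, by rw [P.r_ε]; ring⟩
  obtain ⟨htpos, ϖ, hϖE, hϖ0, hϖr⟩ := Nat.find_spec hex
  set t := Nat.find hex with ht
  have htq : (0 : ℚ) < t := by exact_mod_cast htpos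
  have hrpos : 0 < P.r ϖ := by
    by_contra hcon
    push Not at hcon
    have : (N : ℚ) * P.r ϖ ≤ 0 := mul_nonpos_of_nonneg_of_nonpos hNq.le hcon
    rw [hϖr] at this
    linarith
  refine ⟨ϖ, hϖE, hϖ0, hrpos, ?_⟩
  intro x hx hx0
  set q : ℤ := ⌊P.r x / P.r ϖ⌋ with hq
  have hdiv : x / ϖ ^ q ≠ 0 := div_ne_zero hx0 (zpow_ne_zero _ hϖ0)
  have hdivE : x / ϖ ^ q ∈ E := div_mem hx (zpow_mem hϖE q)
  have hrz : ∀ z : ℤ, P.r (ϖ ^ z) = z * P.r ϖ := by
    intro z
    have h1 : ∀ n : ℕ, P.r (ϖ ^ n) = n * P.r ϖ := fun n => P.qval.r_pow hϖ0 n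
    rcases Int.le_total 0 z with hz | hz
    · obtain ⟨n, rfl⟩ := Int.eq_ofNat_of_zero_le hz
      rw [zpow_natCast, h1]; simp
    · obtain ⟨n, hn⟩ := Int.exists_eq_neg_ofNat hz
      rw [hn, zpow_neg, zpow_natCast]
      have h2 := P.qval.r_inv (pow_ne_zero n hϖ0)
      rw [P.qval_r, P.qval_r] at h2
      rw [h2, h1]; push_cast; ring
  have hr : P.r (x / ϖ ^ q) = P.r x - q * P.r ϖ := by
    have h2 := P.qval.r_div hx0 (zpow_ne_zero q hϖ0)
    rw [P.qval_r, P.qval_r, P.qval_r, hrz] at h2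
    exact h2
  have h3 : 0 ≤ P.r (x / ϖ ^ q) := by
    rw [hr]
    have := Int.floor_le (P.r x / P.r ϖ)
    rw [← hq, le_div_iff₀ hrpos] at this
    linarith
  have h4 : P.r (x / ϖ ^ q) < P.r ϖ := by
    rw [hr]
    have := Int.lt_floor_add_one (P.r x / P.r ϖ)
    rw [← hq, div_lt_iff₀ hrpos] at this
    linarith
  obtain ⟨z, hz⟩ := hint _ hdivE hdiv
  have hz0 : 0 ≤ z := by
    have : (0 : ℚ) ≤ z := by rw [← hz]; positivity
    exact_mod_cast this
  obtain ⟨n, rfl⟩ := Int.eq_ofNat_of_zero_le hz0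
  have hnt : n < t := by
    have : ((n : ℤ) : ℚ) < t := by
      rw [← hz, ← hϖr]
      exact mul_lt_mul_of_pos_left h4 hNq
    exact_mod_cast this
  have hn0 : n = 0 := by
    by_contra hne
    exact Nat.find_min hex hnt ⟨Nat.pos_of_ne_zero hne, _, hdivE, hdiv, by rw [hz]; simp⟩
  rw [hn0] at hz
  have h5 : P.r (x / ϖ ^ q) = 0 := by
    have : (N : ℚ) * P.r (x / ϖ ^ q) = 0 := by rw [hz]; simp
    exact (mul_eq_zero.1 this).resolve_left hNq.ne'
  exact ⟨q, by rw [hr] at h5; linarith⟩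

/-- A uniformizer with its field of definition. -/
structure Unif (P : Place k Ω) where
  E : Subfield Ω
  ϖ : Ω
  memE : ∀ c : k, algebraMap k Ω c ∈ E
  memϖ : ϖ ∈ E
  ne : ϖ ≠ 0
  pos : 0 < P.r ϖ
  disc : ∀ x ∈ E, x ≠ 0 → ∃ m : ℤ, P.r x = m * P.r ϖ

theorem exists_unif (x : Ω) : ∃ U : Unif P, P.ε ∈ U.E ∧ x ∈ U.E := by
  haveI := P.isAlgebraic_adjoin
  let F := P.base
  have hint : IsIntegral F x := Algebra.IsIntegral.isIntegral x
  haveI : FiniteDimensional F (IntermediateField.adjoin F ({x} : Set Ω)) :=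
    IntermediateField.adjoin.finiteDimensional hint
  obtain ⟨ϖ, h1, h2, h3, h4⟩ := P.exists_uniformizer (IntermediateField.adjoin F ({x} : Set Ω))
  refine ⟨⟨(IntermediateField.adjoin F ({x} : Set Ω)).toSubfield, ϖ, ?_, h1, h2, h3, h4⟩, ?_, ?_⟩
  · intro c
    have hc : algebraMap k Ω c ∈ F := F.algebraMap_mem c
    exact (IntermediateField.adjoin F ({x} : Set Ω)).algebraMap_mem ⟨_, hc⟩
  · have hc : P.ε ∈ F := IntermediateField.mem_adjoin_simple_self k P.ε
    exact (IntermediateField.adjoin F ({x} : Set Ω)).algebraMap_mem ⟨_, hc⟩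
  · exact IntermediateField.mem_adjoin_simple_self F x

end Place

end Helper12
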