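import Mathlib
import Pool.Agent.Helper12.Unif

namespace Helper12

namespace Place

variable {k Ω : Type*} [Field k] [Field Ω] [Algebra k Ω] (P : Place k Ω) [IsAlgClosed k]

open Classical in
/-- residue of an element of the valuation ring -/
noncomputable def res (y : Ω) : k :=
  if h : y ∈ P.V then (P.exists_residue y h).choose else 0

theorem res_spec {y : Ω} (hy : y ∈ P.V) :
    P.V.valuation (y - algebraMap k Ω (P.res y)) < 1 := by
  unfold res
  rw [dif_pos hy]
  exact (P.exists_residue y hy).choose_spec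

theorem res_unique {y : Ω} (hy : y ∈ P.V) {c : k}
    (h : P.V.valuation (y - algebraMap k Ω c) < 1) : P.res y = c := by
  by_contra hne
  have h1 := P.w_const _ (sub_ne_zero.2 hne)
  have h2 := P.res_spec hy
  have h3 : algebraMap k Ω (P.res y - c) =
      (y - algebraMap k Ω c) - (y - algebraMap k Ω (P.res y)) := by
    rw [map_sub]; ring
  rw [h3] at h1
  have h4 := Valuation.map_sub P.V.valuation (y - algebraMap k Ω c)
    (y - algebraMap k Ω (P.res y))
  rw [h1] at h4
  exact absurd h4 (not_le.2 (max_lt h h2))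

theorem res_const (c : k) : P.res (algebraMap k Ω c) = c :=
  P.res_unique (P.mem c) (by rw [sub_self, map_zero]; exact zero_lt_one)

theorem res_zero : P.res 0 = 0 := by
  have := P.res_const 0
  rwa [map_zero] at this

theorem res_one : P.res 1 = 1 := by
  have := P.res_const 1
  rwa [map_one] at this

theorem res_add {x y : Ω} (hx : x ∈ P.V) (hy : y ∈ P.V) : P.res (x + y) = P.res x + P.res y := by
  apply P.res_unique (P.V.add_mem _ _ hx hy)
  have h3 : x + y - algebraMap k Ω (P.res x + P.res y) =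
      (x - algebraMap k Ω (P.res x)) + (y - algebraMap k Ω (P.res y)) := by
    rw [map_add]; ring
  rw [h3]
  exact Valuation.map_add_lt _ (P.res_spec hx) (P.res_spec hy)

theorem res_mul {x y : Ω} (hx : x ∈ P.V) (hy : y ∈ P.V) : P.res (x * y) = P.res x * P.res y := by
  apply P.res_unique (P.V.mul_mem _ _ hx hy)
  have h3 : x * y - algebraMap k Ω (P.res x * P.res y) =
      (x - algebraMap k Ω (P.res x)) * y +
        algebraMap k Ω (P.res x) * (y - algebraMap k Ω (P.res y)) := by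
    rw [map_mul]; ring
  rw [h3]
  apply Valuation.map_add_lt
  · rw [map_mul]
    exact mul_lt_one_of_lt_of_le (P.res_spec hx) ((P.V.valuation_le_one_iff _).2 hy)
  · rw [map_mul, mul_comm]
    exact mul_lt_one_of_lt_of_le (P.res_spec hy) ((P.V.valuation_le_one_iff _).2 (P.mem _))

theorem res_eq_zero_iff {y : Ω} (hy : y ∈ P.V) : P.res y = 0 ↔ P.V.valuation y < 1 := by
  constructor
  · intro h
    have := P.res_spec hy
    rwa [h, map_zero, sub_zero] at this
  · intro h
    apply P.res_unique hy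
    rwa [map_zero, sub_zero]

end Place

section

open Place

variable {k Ω : Type*} [Field k] [Field Ω] [Algebra k Ω] {P : Place k Ω} [IsAlgClosed k]
  [CharZero k] [IsAlgClosed Ω]

namespace Place.Unif

variable (U : Unif P)

omit [IsAlgClosed k] [CharZero k] [IsAlgClosed Ω] in
theorem lt : P.V.valuation U.ϖ < 1 := by
  by_contra hcon
  push Not at hcon
  have h1 : U.ϖ⁻¹ ∈ P.V := by
    rw [← P.V.valuation_le_one_iff, map_inv₀]
    exact inv_le_one_of_one_le₀ hcon
  by_cases h2 : U.ϖ ∈ P.V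
  · have h3 : P.V.valuation U.ϖ = 1 := le_antisymm ((P.V.valuation_le_one_iff _).2 h2) hcon
    have h4 := P.r_eq U.ne (M := 1) (m := 0) ⟨one_pos, by rw [h3]; simp⟩
    have := U.pos
    rw [h4] at this
    simp at this
  · rw [P.r_nonneg_iff U.ne] at h2
    exact h2 U.pos.le

/-- the valuation ring of the field of definition -/
def B : Subalgebra k Ω where
  carrier := {x | x ∈ U.E ∧ x ∈ P.V}
  mul_mem' := fun ha hb => ⟨mul_mem ha.1 hb.1, P.V.mul_mem _ _ ha.2 hb.2⟩
  one_mem' := ⟨one_mem _, P.V.one_mem⟩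
  add_mem' := fun ha hb => ⟨add_mem ha.1 hb.1, P.V.add_mem _ _ ha.2 hb.2⟩
  zero_mem' := ⟨zero_mem _, P.V.zero_mem⟩
  algebraMap_mem' := fun c => ⟨U.memE c, P.mem c⟩

omit [IsAlgClosed k] [CharZero k] [IsAlgClosed Ω] in
theorem mem_B {x : Ω} : x ∈ U.B ↔ x ∈ U.E ∧ x ∈ P.V := Iff.rfl

omit [IsAlgClosed k] [CharZero k] [IsAlgClosed Ω] in
theorem ϖ_mem : U.ϖ ∈ U.B := ⟨U.memϖ, (P.V.valuation_le_one_iff _).1 U.lt.le⟩

omit [IsAlgClosed k] in
theorem div_mem_B {x : Ω} (hx : x ∈ U.B) (hw : P.V.valuation x < 1) : x / U.ϖ ∈ U.B := by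
  refine ⟨div_mem hx.1 U.memϖ, ?_⟩
  by_cases h0 : x = 0
  · rw [h0, zero_div]; exact P.V.zero_mem
  · rw [← P.gt_zero_iff, P.qval.gt_of_ne h0, P.qval_r] at hw
    obtain ⟨m, hm⟩ := U.disc x hx.1 h0
    rw [P.r_nonneg_iff (div_ne_zero h0 U.ne)]
    have h1 := P.qval.r_div h0 U.ne
    rw [P.qval_r, P.qval_r, P.qval_r] at h1
    rw [h1, hm]
    have hm1 : 0 < m := by
      by_contra hcon
      push Not at hcon
      have : (m : ℚ) ≤ 0 := by exact_mod_cast hcon
      have := mul_nonpos_of_nonpos_of_nonneg this U.pos.le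
      linarith
    have hm2 : (1 : ℚ) ≤ m := by exact_mod_cast hm1
    have := U.pos
    nlinarith

/-- the shift operator of the expansion -/
noncomputable def S (y : Ω) : Ω := (y - algebraMap k Ω (P.res y)) / U.ϖ

theorem S_mem {y : Ω} (hy : y ∈ U.B) : U.S y ∈ U.B :=
  U.div_mem_B (sub_mem hy (U.B.algebraMap_mem _)) (P.res_spec hy.2)

theorem S_iter_mem {y : Ω} (hy : y ∈ U.B) (n : ℕ) : U.S^[n] y ∈ U.B := by
  induction n with
  | zero => exact hy
  | succ n ih => rw [Function.iterate_succ_apply']; exact U.S_mem ih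

omit [CharZero k] [IsAlgClosed Ω] in
theorem S_add {x y : Ω} (hx : x ∈ U.B) (hy : y ∈ U.B) : U.S (x + y) = U.S x + U.S y := by
  unfold S
  rw [P.res_add hx.2 hy.2, map_add]
  ring

omit [CharZero k] [IsAlgClosed Ω] in
theorem S_const_mul {x : Ω} (c : k) (hx : x ∈ U.B) :
    U.S (algebraMap k Ω c * x) = algebraMap k Ω c * U.S x := by
  unfold S
  rw [P.res_mul (P.mem c) hx.2, P.res_const, map_mul]
  ring

omit [CharZero k] [IsAlgClosed Ω] in
theorem S_mul {x y : Ω} (hx : x ∈ U.B) (hy : y ∈ U.B) :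
    U.S (x * y) = algebraMap k Ω (P.res x) * U.S y + U.S x * y := by
  unfold S
  rw [P.res_mul hx.2 hy.2, map_mul]
  ring

omit [CharZero k] [IsAlgClosed Ω] in
theorem S_const (c : k) : U.S (algebraMap k Ω c) = 0 := by
  unfold S
  rw [P.res_const]
  simp

omit [CharZero k] [IsAlgClosed Ω] in
theorem eq_res_add_S (x : Ω) : x = algebraMap k Ω (P.res x) + U.ϖ * U.S x := by
  unfold S
  have := U.ne
  field_simp
  ring

/-- the expansion -/
noncomputable def ex (y : Ω) : PowerSeries k := PowerSeries.mk (fun i => P.res (U.S^[i] y))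

omit [CharZero k] [IsAlgClosed Ω] in
theorem ex_eq (y : Ω) : U.ex y = PowerSeries.C (P.res y) + PowerSeries.X * U.ex (U.S y) := by
  unfold ex
  ext n
  rw [PowerSeries.coeff_mk, map_add, PowerSeries.coeff_C]
  cases n with
  | zero => simp
  | succ n =>
    rw [PowerSeries.coeff_succ_X_mul, PowerSeries.coeff_mk, Function.iterate_succ_apply]
    simp

theorem S_iter_add {x y : Ω} (hx : x ∈ U.B) (hy : y ∈ U.B) (n : ℕ) :
    U.S^[n] (x + y) = U.S^[n] x + U.S^[n] y := by
  induction n with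
  | zero => rfl
  | succ n ih =>
    rw [Function.iterate_succ_apply', ih, U.S_add (U.S_iter_mem hx n) (U.S_iter_mem hy n),
      Function.iterate_succ_apply', Function.iterate_succ_apply']

theorem S_iter_const_mul {x : Ω} (c : k) (hx : x ∈ U.B) (n : ℕ) :
    U.S^[n] (algebraMap k Ω c * x) = algebraMap k Ω c * U.S^[n] x := by
  induction n with
  | zero => rfl
  | succ n ih =>
    rw [Function.iterate_succ_apply', ih, U.S_const_mul c (U.S_iter_mem hx n),
      Function.iterate_succ_apply']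

theorem ex_add {x y : Ω} (hx : x ∈ U.B) (hy : y ∈ U.B) : U.ex (x + y) = U.ex x + U.ex y := by
  unfold ex
  ext n
  rw [map_add, PowerSeries.coeff_mk, PowerSeries.coeff_mk, PowerSeries.coeff_mk,
    U.S_iter_add hx hy, P.res_add (U.S_iter_mem hx n).2 (U.S_iter_mem hy n).2]

theorem ex_const_mul {x : Ω} (c : k) (hx : x ∈ U.B) :
    U.ex (algebraMap k Ω c * x) = PowerSeries.C c * U.ex x := by
  unfold ex
  ext n
  rw [PowerSeries.coeff_C_mul, PowerSeries.coeff_mk, PowerSeries.coeff_mk,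
    U.S_iter_const_mul c hx, P.res_mul (P.mem c) (U.S_iter_mem hx n).2, P.res_const]

omit [CharZero k] [IsAlgClosed Ω] in
theorem S_zero : U.S 0 = 0 := by
  unfold S; rw [P.res_zero]; simp

omit [CharZero k] [IsAlgClosed Ω] in
theorem ex_zero : U.ex 0 = 0 := by
  have h : ∀ n, U.S^[n] 0 = 0 := by
    intro n
    induction n with
    | zero => rfl
    | succ n ih => rw [Function.iterate_succ_apply', ih, U.S_zero]
  unfold ex
  ext n
  rw [PowerSeries.coeff_mk, h, P.res_zero]
  simp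

omit [CharZero k] [IsAlgClosed Ω] in
theorem ex_const (c : k) : U.ex (algebraMap k Ω c) = PowerSeries.C c := by
  rw [ex_eq, P.res_const, U.S_const, U.ex_zero]
  simp

theorem ex_mul_aux (n : ℕ) : ∀ x y : Ω, x ∈ U.B → y ∈ U.B →
    (PowerSeries.X : PowerSeries k) ^ n ∣ U.ex (x * y) - U.ex x * U.ex y := by
  induction n with
  | zero => intro x y _ _; rw [pow_zero]; exact one_dvd _
  | succ n ih =>
    intro x y hx hy
    have h1 : U.ex (x * y) - U.ex x * U.ex y =
        PowerSeries.X * (U.ex (U.S x * y) - U.ex (U.S x) * U.ex y) := by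
      have e1 : U.ex (x * y) = PowerSeries.C (P.res x * P.res y) +
          PowerSeries.X * (PowerSeries.C (P.res x) * U.ex (U.S y) + U.ex (U.S x * y)) := by
        rw [U.ex_eq (x * y), P.res_mul hx.2 hy.2, U.S_mul hx hy,
          U.ex_add (mul_mem (U.B.algebraMap_mem _) (U.S_mem hy)) (mul_mem (U.S_mem hx) hy),
          U.ex_const_mul _ (U.S_mem hy)]
      have e2 := U.ex_eq x
      have e3 := U.ex_eq y
      have e4 : PowerSeries.C (P.res x) * U.ex y = PowerSeries.C (P.res x * P.res y) +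
          PowerSeries.X * (PowerSeries.C (P.res x) * U.ex (U.S y)) := by
        conv_lhs => rw [e3]
        rw [map_mul]; ring
      rw [e1]
      conv_lhs => rw [e2]
      rw [add_mul, e4]
      ring
    rw [h1, pow_succ']
    exact mul_dvd_mul_left _ (ih _ _ (U.S_mem hx) hy)

theorem ex_mul {x y : Ω} (hx : x ∈ U.B) (hy : y ∈ U.B) : U.ex (x * y) = U.ex x * U.ex y := by
  rw [← sub_eq_zero]
  ext n
  have := U.ex_mul_aux (n + 1) x y hx hy
  rw [PowerSeries.X_pow_dvd_iff] at this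
  rw [this n (Nat.lt_succ_self n)]
  simp

/-- the expansion as a homomorphism of algebras -/
noncomputable def exHom : U.B →ₐ[k] PowerSeries k where
  toFun := fun x => U.ex x
  map_one' := by
    have := U.ex_const 1
    rw [map_one, map_one] at this
    exact this
  map_mul' := fun x y => U.ex_mul x.2 y.2
  map_zero' := U.ex_zero
  map_add' := fun x y => U.ex_add x.2 y.2
  commutes' := fun c => U.ex_const c

theorem ex_ϖ : U.ex U.ϖ = PowerSeries.X := by
  have h1 : P.res U.ϖ = 0 := (P.res_eq_zero_iff U.ϖ_mem.2).2 U.lt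
  have h2 : U.S U.ϖ = 1 := by
    unfold S
    rw [h1, map_zero, sub_zero, div_self U.ne]
  have h3 : U.ex 1 = 1 := U.exHom.map_one'
  rw [U.ex_eq, h1, h2, h3]
  simp

/-- expansion of a nonzero element -/
theorem exists_order {x : Ω} (hx : x ∈ U.B) (h0 : x ≠ 0) :
    ∃ (m : ℕ) (u : Ω), u ∈ U.B ∧ P.res u ≠ 0 ∧ x = U.ϖ ^ m * u ∧
      U.ex x = PowerSeries.X ^ m * U.ex u := by
  obtain ⟨m, hm⟩ := U.disc x hx.1 h0
  have h1 : 0 ≤ P.r x := (P.r_nonneg_iff h0).1 hx.2
  have hm0 : 0 ≤ m := by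
    by_contra hcon
    push Not at hcon
    have : (m : ℚ) < 0 := by exact_mod_cast hcon
    have := mul_neg_of_neg_of_pos this U.pos
    linarith
  obtain ⟨n, rfl⟩ := Int.eq_ofNat_of_zero_le hm0
  have hu0 : x / U.ϖ ^ n ≠ 0 := div_ne_zero h0 (pow_ne_zero _ U.ne)
  have hr : P.r (x / U.ϖ ^ n) = 0 := by
    have h2 := P.qval.r_div h0 (pow_ne_zero n U.ne)
    rw [P.qval.r_pow U.ne, P.qval_r, P.qval_r, P.qval_r] at h2
    rw [h2, hm]
    push_cast
    ring
  have hu : x / U.ϖ ^ n ∈ U.B := by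
    refine ⟨div_mem hx.1 (pow_mem U.memϖ n), ?_⟩
    rw [P.r_nonneg_iff hu0, hr]
  refine ⟨n, x / U.ϖ ^ n, hu, ?_, ?_, ?_⟩
  · intro h
    rw [P.res_eq_zero_iff hu.2, ← P.gt_zero_iff, P.qval.gt_of_ne hu0, P.qval_r, hr] at h
    exact lt_irrefl _ h
  · have := pow_ne_zero n U.ne
    field_simp
  · have h2 : x = U.ϖ ^ n * (x / U.ϖ ^ n) := by
      have := pow_ne_zero n U.ne
      field_simp
    conv_lhs => rw [h2]
    rw [U.ex_mul (pow_mem U.ϖ_mem n) hu]
    congr 1
    have h3 := map_pow U.exHom (⟨U.ϖ, U.ϖ_mem⟩ : U.B) n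
    have h4 : U.exHom (⟨U.ϖ, U.ϖ_mem⟩ : U.B) = PowerSeries.X := U.ex_ϖ
    rw [h4] at h3
    exact h3

omit [CharZero k] [IsAlgClosed Ω] in
theorem constCoeff_ex (u : Ω) : PowerSeries.constantCoeff (U.ex u) = P.res u := by
  rw [U.ex_eq]
  simp

theorem ex_ne_zero {x : Ω} (hx : x ∈ U.B) (h0 : x ≠ 0) : U.ex x ≠ 0 := by
  obtain ⟨m, u, hu, hu0, -, he⟩ := U.exists_order hx h0
  rw [he]
  apply mul_ne_zero (pow_ne_zero _ PowerSeries.X_ne_zero)
  intro h
  apply hu0
  rw [← U.constCoeff_ex, h, map_zero]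

/-- divisibility can be tested on expansions -/
theorem div_mem_of_dvd {a b : Ω} (ha : a ∈ U.B) (hb : b ∈ U.B) (hb0 : b ≠ 0)
    (h : U.ex b ∣ U.ex a) : a / b ∈ U.B := by
  by_cases ha0 : a = 0
  · rw [ha0, zero_div]; exact zero_mem _
  obtain ⟨m, u, hu, hu0, hau, hau'⟩ := U.exists_order ha ha0
  obtain ⟨n, v, hv, hv0, hbv, hbv'⟩ := U.exists_order hb hb0
  have hmn : n ≤ m := by
    by_contra hcon
    push Not at hcon
    rw [hau', hbv'] at h
    have h1 : (PowerSeries.X : PowerSeries k) ^ n ∣ PowerSeries.X ^ m * U.ex u :=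
      (dvd_mul_right _ _).trans h
    rw [PowerSeries.X_pow_dvd_iff] at h1
    have h2 := h1 m hcon
    have h3 : (PowerSeries.coeff m) ((PowerSeries.X : PowerSeries k) ^ m * U.ex u) =
        PowerSeries.constantCoeff (U.ex u) := by
      have := PowerSeries.coeff_X_pow_mul (U.ex u) m 0
      rw [zero_add] at this
      rw [this, PowerSeries.coeff_zero_eq_constantCoeff_apply]
    rw [h3, U.constCoeff_ex] at h2
    exact hu0 h2
  refine ⟨div_mem ha.1 hb.1, ?_⟩
  have hvinv : v⁻¹ ∈ P.V := by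
    rw [← P.V.valuation_le_one_iff, map_inv₀]
    apply inv_le_one_of_one_le₀
    by_contra hcon
    push Not at hcon
    exact hv0 ((P.res_eq_zero_iff hv.2).2 hcon)
  obtain ⟨e, rfl⟩ := Nat.exists_eq_add_of_le hmn
  have h5 : a / b = U.ϖ ^ e * u * v⁻¹ := by
    have hv1 : v ≠ 0 := by
      rintro rfl
      exact hv0 P.res_zero
    have := pow_ne_zero n U.ne
    rw [hau, hbv, pow_add]
    field_simp
  rw [h5]
  exact P.V.mul_mem _ _ (P.V.mul_mem _ _ (pow_mem U.ϖ_mem.2 e) hu.2) hvinv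

end Place.Unif

end

end Helper12
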