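import Mathlib
import Pool.Agent.Helper12.Expand

namespace Helper12

open Polynomial

/-- partial derivative with respect to the inner variable -/
noncomputable def pX {k : Type*} [CommRing k] (g : Polynomial (Polynomial k)) :
    Polynomial (Polynomial k) :=
  ∑ i ∈ Finset.range (g.natDegree + 1), monomial i (derivative (g.coeff i))

theorem chain_rule {k A : Type*} [CommRing k] [CommRing A] [Algebra k A] (D : Derivation k A A)
    (s t : A) (g : Polynomial (Polynomial k)) :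
    D (ev2 s t g) = ev2 s t (pX g) * D s + ev2 s t (derivative g) * D t := by
  have h1 : derivative g = ∑ i ∈ Finset.range (g.natDegree + 1),
      monomial (i - 1) (g.coeff i * i) := by
    conv_lhs => rw [g.as_sum_range]
    rw [derivative_sum]
    exact Finset.sum_congr rfl (fun i _ => derivative_monomial _ _)
  rw [h1, pX, map_sum, map_sum, Finset.sum_mul, Finset.sum_mul, ← Finset.sum_add_distrib,
    ev2_eq_sum, map_sum]
  apply Finset.sum_congr rfl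
  intro i _
  rw [ev2_monomial, ev2_monomial, Derivation.leibniz, Derivation.map_aeval,
    Derivation.leibniz_pow, map_mul]
  simp only [smul_eq_mul, map_natCast, nsmul_eq_mul]
  ring

theorem map_ev2 {k A A' : Type*} [CommRing k] [CommRing A] [Algebra k A] [CommRing A']
    [Algebra k A'] (φ : A →ₐ[k] A') (s t : A) (g : Polynomial (Polynomial k)) :
    φ (ev2 s t g) = ev2 (φ s) (φ t) g := by
  rw [ev2_eq_sum, ev2_eq_sum, map_sum]
  apply Finset.sum_congr rfl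
  intro i _
  rw [map_mul, map_pow, Polynomial.aeval_algHom_apply]

namespace Place

variable {k Ω : Type*} [Field k] [Field Ω] [Algebra k Ω] {P : Place k Ω} [IsAlgClosed k]
  [CharZero k] [IsAlgClosed Ω]

namespace Unif

variable (U : Unif P)

theorem exists_deriv (ϑ : Derivation k Ω Ω) {x : Ω} (hx : x ∈ U.B) :
    ∃ z ∈ U.B, ϑ x = z * ϑ U.ϖ ∧ U.ex z = PowerSeries.derivative k (U.ex x) := by
  obtain ⟨g, hg, hg'⟩ := (P.change U.ϖ U.ne U.lt).exists_sep x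
  change ev2 U.ϖ x g = 0 at hg
  change ev2 U.ϖ x (derivative g) ≠ 0 at hg'
  set πB : U.B := ⟨U.ϖ, U.ϖ_mem⟩ with hπB
  set xB : U.B := ⟨x, hx⟩ with hxB
  set a : U.B := ev2 πB xB (pX g) with ha
  set b : U.B := ev2 πB xB (derivative g) with hb
  have ha' : (a : Ω) = ev2 U.ϖ x (pX g) := map_ev2 U.B.val πB xB (pX g)
  have hb' : (b : Ω) = ev2 U.ϖ x (derivative g) := map_ev2 U.B.val πB xB (derivative g)
  have hae : U.ex (a : Ω) = ev2 (U.ex U.ϖ) (U.ex x) (pX g) := map_ev2 U.exHom πB xB (pX g)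
  have hbe : U.ex (b : Ω) = ev2 (U.ex U.ϖ) (U.ex x) (derivative g) :=
    map_ev2 U.exHom πB xB (derivative g)
  have hge : ev2 (U.ex U.ϖ) (U.ex x) g = 0 := by
    have h1 : U.exHom (ev2 πB xB g) = ev2 (U.ex U.ϖ) (U.ex x) g := map_ev2 U.exHom πB xB g
    have h2 : ev2 πB xB g = 0 := by
      apply Subtype.ext
      have h3 : ((ev2 πB xB g : U.B) : Ω) = ev2 U.ϖ x g := map_ev2 U.B.val πB xB g
      rw [h3, hg]
      rfl
    rw [← h1, h2, map_zero]
  have c1 := chain_rule ϑ U.ϖ x g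
  rw [hg, map_zero, ← ha', ← hb'] at c1
  have c2 := chain_rule (PowerSeries.derivative k) (U.ex U.ϖ) (U.ex x) g
  rw [hge, map_zero, ← hae, ← hbe, U.ex_ϖ, PowerSeries.derivative_X, mul_one] at c2
  have hb0 : (b : Ω) ≠ 0 := by rw [hb']; exact hg'
  have hneg : U.ex (-(a : Ω)) = - U.ex (a : Ω) := map_neg U.exHom a
  have hdvd : U.ex (b : Ω) ∣ U.ex (-(a : Ω)) := by
    rw [hneg]
    exact ⟨PowerSeries.derivative k (U.ex x), by linear_combination c2⟩
  have hz := U.div_mem_of_dvd (neg_mem a.2) b.2 hb0 hdvd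
  refine ⟨-(a : Ω) / b, hz, ?_, ?_⟩
  · field_simp
    linear_combination -c1
  · have h5 : U.ex (-(a : Ω) / b) * U.ex (b : Ω) = - U.ex (a : Ω) := by
      rw [← U.ex_mul hz b.2, div_mul_cancel₀ _ hb0, hneg]
    have h6 : U.ex (b : Ω) ≠ 0 := U.ex_ne_zero b.2 hb0
    apply mul_right_cancel₀ h6
    rw [h5]
    linear_combination c2

theorem r_eq_zero_of_res {u : Ω} (hu : u ∈ U.B) (h : P.res u ≠ 0) : P.r u = 0 := by
  have hu0 : u ≠ 0 := by rintro rfl; exact h P.res_zero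
  have h1 : 0 ≤ P.r u := (P.r_nonneg_iff hu0).1 hu.2
  by_contra hne
  apply h
  rw [P.res_eq_zero_iff hu.2, ← P.gt_zero_iff, P.qval.gt_of_ne hu0, P.qval_r]
  exact lt_of_le_of_ne h1 (Ne.symm hne)

theorem inv_mem_of_res {u : Ω} (hu : u ∈ U.B) (h : P.res u ≠ 0) : u⁻¹ ∈ U.B := by
  have hu0 : u ≠ 0 := by rintro rfl; exact h P.res_zero
  refine ⟨inv_mem hu.1, ?_⟩
  rw [P.r_nonneg_iff (inv_ne_zero hu0)]
  have h1 := P.qval.r_inv hu0
  rw [P.qval_r, P.qval_r, U.r_eq_zero_of_res hu h, neg_zero] at h1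
  exact h1.ge

theorem exists_dlog (ϑ : Derivation k Ω Ω) (hϑ : ϑ P.ε = P.ε) (hε : P.ε ∈ U.E) :
    ∃ u ∈ U.B, ϑ U.ϖ = u * U.ϖ ∧ P.res u = ((P.r U.ϖ : ℚ) : k) := by
  have hεB : P.ε ∈ U.B := ⟨hε, (P.V.valuation_le_one_iff _).1 P.lt.le⟩
  obtain ⟨e, u0, hu0, hu0', hεu, hεu'⟩ := U.exists_order hεB P.ne
  have hu00 : u0 ≠ 0 := by rintro rfl; exact hu0' P.res_zero
  have hr : (e : ℚ) * P.r U.ϖ = 1 := by
    have h1 := P.qval.r_mul (pow_ne_zero e U.ne) hu00
    rw [P.qval.r_pow U.ne, ← hεu, P.qval_r, P.qval_r, P.qval_r, P.r_ε,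
      U.r_eq_zero_of_res hu0 hu0', add_zero] at h1
    exact h1.symm
  obtain ⟨e', rfl⟩ : ∃ e', e = e' + 1 := by
    refine ⟨e - 1, ?_⟩
    have : e ≠ 0 := by
      rintro rfl
      simp at hr
    omega
  obtain ⟨z, hz, hz1, hz2⟩ := U.exists_deriv ϑ hεB
  rw [hϑ] at hz1
  have hz3 : U.ex z = PowerSeries.X ^ e' * (((e' + 1 : ℕ) : PowerSeries k) * U.ex u0 +
      PowerSeries.X * PowerSeries.derivative k (U.ex u0)) := by
    rw [hz2, hεu', Derivation.leibniz, Derivation.leibniz_pow, PowerSeries.derivative_X]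
    simp only [smul_eq_mul, nsmul_eq_mul, Nat.add_sub_cancel, mul_one]
    ring
  have hexpow : U.ex (U.ϖ ^ e') = PowerSeries.X ^ e' := by
    have h3 := map_pow U.exHom (⟨U.ϖ, U.ϖ_mem⟩ : U.B) e'
    have h4 : U.exHom (⟨U.ϖ, U.ϖ_mem⟩ : U.B) = PowerSeries.X := U.ex_ϖ
    rw [h4] at h3
    exact h3
  have hpe : U.ϖ ^ e' ≠ 0 := pow_ne_zero _ U.ne
  have hz' : z / U.ϖ ^ e' ∈ U.B :=
    U.div_mem_of_dvd hz (pow_mem U.ϖ_mem e') hpe (by rw [hexpow, hz3]; exact dvd_mul_right _ _)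
  have hz4 : U.ex (z / U.ϖ ^ e') = ((e' + 1 : ℕ) : PowerSeries k) * U.ex u0 +
      PowerSeries.X * PowerSeries.derivative k (U.ex u0) := by
    have h5 : U.ex (z / U.ϖ ^ e') * PowerSeries.X ^ e' = U.ex z := by
      rw [← hexpow, ← U.ex_mul hz' (pow_mem U.ϖ_mem e'), div_mul_cancel₀ _ hpe]
    apply mul_right_cancel₀ (pow_ne_zero e' (PowerSeries.X_ne_zero (R := k)))
    rw [h5, hz3]
    ring
  have hres : P.res (z / U.ϖ ^ e') = ((e' + 1 : ℕ) : k) * P.res u0 := by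
    rw [← U.constCoeff_ex, hz4]
    simp [U.constCoeff_ex]
  have hne : ((e' + 1 : ℕ) : k) ≠ 0 := by exact_mod_cast Nat.succ_ne_zero e'
  have hres' : P.res (z / U.ϖ ^ e') ≠ 0 := by
    rw [hres]; exact mul_ne_zero hne hu0'
  have hinv := U.inv_mem_of_res hz' hres'
  refine ⟨u0 * (z / U.ϖ ^ e')⁻¹, mul_mem hu0 hinv, ?_, ?_⟩
  · have hz0 : z ≠ 0 := by
      rintro rfl
      rw [zero_mul] at hz1
      exact P.ne hz1
    rw [hεu] at hz1
    have := U.ne
    field_simp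
    rw [pow_succ] at hz1
    linear_combination -hz1
  · have h6 := P.res_mul (mul_mem hu0 hinv).2 hz'.2
    have hz0 : z / U.ϖ ^ e' ≠ 0 := by
      intro h
      rw [h] at hres'
      exact hres' P.res_zero
    rw [inv_mul_cancel_right₀ hz0, hres] at h6
    have h7 : P.res (u0 * (z / U.ϖ ^ e')⁻¹) * ((e' + 1 : ℕ) : k) = 1 := by
      apply mul_right_cancel₀ hu0'
      rw [one_mul]
      linear_combination -h6
    have h8 : ((P.r U.ϖ : ℚ) : k) * ((e' + 1 : ℕ) : k) = 1 := by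
      have : (((e' + 1 : ℕ) : ℚ) * P.r U.ϖ : ℚ) = 1 := hr
      have h9 := congrArg (fun q : ℚ => (q : k)) this
      simp only [Rat.cast_mul, Rat.cast_natCast, Rat.cast_one] at h9
      rw [mul_comm]
      exact h9
    exact mul_right_cancel₀ hne (h7.trans h8.symm)

end Unif

theorem compat (P : Place k Ω) [CharZero Ω] (ϑ : Derivation k Ω Ω) (hϑ : ϑ P.ε = P.ε) (x : Ω)
    (hx : x ≠ 0) :
    P.qval.gt (P.qval.r x) (ϑ x - ((P.qval.r x : ℚ) : Ω) * x) := by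
  obtain ⟨U, hε, hxE⟩ := P.exists_unif x
  obtain ⟨u, hu, hu1, hu2⟩ := U.exists_dlog ϑ hϑ hε
  obtain ⟨m, hm⟩ := U.disc x hxE hx
  have hrz : P.qval.r (U.ϖ ^ m) = m * P.r U.ϖ := by
    have h1 : ∀ n : ℕ, P.qval.r (U.ϖ ^ n) = n * P.r U.ϖ := fun n => P.qval.r_pow U.ne n
    rcases Int.le_total 0 m with hz | hz
    · obtain ⟨n, rfl⟩ := Int.eq_ofNat_of_zero_le hz
      rw [zpow_natCast, h1]; simp
    · obtain ⟨n, hn⟩ := Int.exists_eq_neg_ofNat hz
      rw [hn, zpow_neg, zpow_natCast, P.qval.r_inv (pow_ne_zero n U.ne), h1]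
      push_cast; ring
  have hpm : U.ϖ ^ m ≠ 0 := zpow_ne_zero _ U.ne
  set y := x / U.ϖ ^ m with hy
  have hy0 : y ≠ 0 := div_ne_zero hx hpm
  have hry : P.r y = 0 := by
    have h1 := P.qval.r_div hx hpm
    rw [hrz, ← hy, P.qval_r, P.qval_r, hm] at h1
    rw [h1]; ring
  have hyB : y ∈ U.B := by
    refine ⟨div_mem hxE (zpow_mem U.memϖ m), ?_⟩
    rw [P.r_nonneg_iff hy0, hry]
  obtain ⟨z, hz, hz1, -⟩ := U.exists_deriv ϑ hyB
  have hx' : x = U.ϖ ^ m * y := by rw [hy]; field_simp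
  have hϑx : ϑ x = U.ϖ ^ m * ((m : Ω) * u * y + z * u * U.ϖ) := by
    rw [hx', Derivation.leibniz, Derivation.leibniz_zpow, hz1, hu1]
    simp only [smul_eq_mul, zsmul_eq_mul]
    rw [zpow_sub_one₀ U.ne]
    have := U.ne
    field_simp
    ring
  have hxr : P.qval.r x = m * P.r U.ϖ := hm
  have hcast : ((m * P.r U.ϖ : ℚ) : Ω) = (m : Ω) * algebraMap k Ω (P.res u) := by
    rw [hu2]
    push_cast
    rfl
  have hfin : ϑ x - ((P.qval.r x : ℚ) : Ω) * x =
      U.ϖ ^ m * ((m : Ω) * (u - algebraMap k Ω (P.res u)) * y + z * u * U.ϖ) := by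
    rw [hϑx, hxr, hcast]
    conv_lhs => rw [hx']
    ring
  rw [hfin, hxr]
  have h3 : P.qval.ge (m * P.r U.ϖ) (U.ϖ ^ m) := Or.inr hrz.ge
  have h4 : P.qval.gt 0 ((m : Ω) * (u - algebraMap k Ω (P.res u)) * y + z * u * U.ϖ) := by
    have h5 : P.qval.gt 0 (u - algebraMap k Ω (P.res u)) := by
      rw [P.gt_zero_iff]; exact P.res_spec hu.2
    have h6 : P.qval.ge 0 (m : Ω) := by
      have := P.qval.ge_rat (m : ℚ)
      rwa [Rat.cast_intCast] at this
    have h7 : P.qval.ge 0 y := P.qval.ge_zero_iff.2 hyB.2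
    have h8 : P.qval.ge 0 (z * u) := P.qval.ge_zero_iff.2 (mul_mem hz hu).2
    have h9 : P.qval.gt 0 U.ϖ := by rw [P.gt_zero_iff]; exact U.lt
    have h10 := (h6.mul_gt h5).mul_ge h7
    have h11 := h8.mul_gt h9
    simp only [add_zero] at h10 h11
    exact h10.add h11
  have := h3.mul_gt h4
  rwa [add_zero] at this

end Place

end Helper12
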