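import Mathlib
import Pool.Agent.Helper12.CommAlg

namespace Helper12

open Filter TensorProduct Polynomial

section Red

theorem formallySmooth_int_field (R K : Type*) [CommRing R] [IsDomain R] [CharZero R]
    [Algebra.FiniteType ℤ R] [Field K] [Algebra R K] [IsFractionRing R K] :
    Algebra.FormallySmooth ℤ K := by
  haveI : CharZero K := charZero_of_injective_algebraMap (IsFractionRing.injective R K)
  haveI h1 : Algebra.FormallySmooth ℤ ℚ := Algebra.FormallySmooth.of_isLocalization (nonZeroDivisors ℤ)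
  haveI : Algebra.EssFiniteType R K := Algebra.EssFiniteType.of_isLocalization _ (nonZeroDivisors R)
  haveI : Algebra.EssFiniteType ℤ K := Algebra.EssFiniteType.comp ℤ R K
  haveI : Algebra.EssFiniteType ℚ K := Algebra.EssFiniteType.of_comp ℤ ℚ K
  haveI h2 : Algebra.FormallySmooth ℚ K := inferInstance
  exact Algebra.FormallySmooth.comp ℤ ℚ K

theorem isSmoothAt_bot (R K : Type*) [CommRing R] [IsDomain R] [CharZero R]
    [Algebra.FiniteType ℤ R] [Field K] [Algebra R K] [IsFractionRing R K]
    [hbot : (⊥ : Ideal R).IsPrime] : Algebra.IsSmoothAt ℤ (⊥ : Ideal R) := by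
  let e : K ≃ₐ[R] Localization.AtPrime (⊥ : Ideal R) := by
    haveI : IsLocalization (nonZeroDivisors R) (Localization.AtPrime (⊥ : Ideal R)) := by
      have : (⊥ : Ideal R).primeCompl = nonZeroDivisors R := by
        ext x
        simp [Ideal.primeCompl]
      rw [← this]
      infer_instance
    exact IsLocalization.algEquiv (nonZeroDivisors R) _ _
  haveI h3 := formallySmooth_int_field R K
  change Algebra.FormallySmooth ℤ (Localization.AtPrime (⊥ : Ideal R))
  exact Algebra.FormallySmooth.of_equiv
    (AlgEquiv.ofRingEquiv (f := e.toRingEquiv) (fun x => by simp))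

/-- A finitely generated domain of characteristic zero is generically étale over a polynomial
ring over `ℤ`. -/
theorem exists_etale_model (R : Type*) [CommRing R] [IsDomain R] [CharZero R]
    [Algebra.FiniteType ℤ R] :
    ∃ f : R, f ≠ 0 ∧ ∃ (n : ℕ) (φ : MvPolynomial (Fin n) ℤ →+* Localization.Away f),
      φ.Etale := by
  haveI : Algebra.FinitePresentation ℤ R :=
    (Algebra.FinitePresentation.of_finiteType).1 inferInstance
  haveI hbot : (⊥ : Ideal R).IsPrime := Ideal.isPrime_bot
  haveI := isSmoothAt_bot R (FractionRing R)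
  obtain ⟨f, hf, n, alg, hst, het⟩ :=
    Algebra.IsSmoothAt.exists_isStandardEtale_mvPolynomial (R := ℤ) (S := R) (p := ⊥)
  refine ⟨f, by simpa using hf, n, algebraMap _ _, ?_⟩
  rw [RingHom.etale_algebraMap]
  infer_instance

/-- étale algebras over a domain-like base are reduced modulo a prime of the base -/
theorem mem_map_of_pow_mem_of_etale {A C : Type*} [CommRing A] [CommRing C] (φ : A →+* C)
    (hφ : φ.Etale) (I : Ideal A) [I.IsPrime] (c : C) (k : ℕ) (hc : c ^ k ∈ I.map φ) :
    c ∈ I.map φ := by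
  algebraize [φ]
  haveI : Algebra.Etale A C := hφ
  let K := FractionRing (A ⧸ I)
  haveI : Algebra.Etale K (K ⊗[A] C) := inferInstance
  haveI : IsReduced (K ⊗[A] C) := Algebra.FormallyUnramified.isReduced_of_field K (K ⊗[A] C)
  haveI : Module.Flat A C := inferInstance
  let ψ : (A ⧸ I) →ₐ[A] K := IsScalarTower.toAlgHom A (A ⧸ I) K
  have hψ : Function.Injective ψ := IsFractionRing.injective (A ⧸ I) K
  let Ψ : (A ⧸ I) ⊗[A] C →ₐ[A] K ⊗[A] C := Algebra.TensorProduct.map ψ (AlgHom.id A C)
  have hΨ : Function.Injective Ψ := by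
    have := Module.Flat.rTensor_preserves_injective_linearMap (M := C) ψ.toLinearMap hψ
    exact this
  have key : ∀ z : C, (1 : A ⧸ I) ⊗ₜ[A] z = 0 ↔ z ∈ I.map (algebraMap A C) := by
    intro z
    have h1 := TensorProduct.quotTensorEquivQuotSMul_mk_one_tmul I z
    have h2 : (I • ⊤ : Submodule A C) = (I.map (algebraMap A C)).restrictScalars A := by
      exact Ideal.smul_top_eq_map I
    constructor
    · intro h
      rw [h, map_zero] at h1
      have h3 := (Submodule.Quotient.mk_eq_zero _).1 h1.symm
      rw [h2] at h3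
      exact h3
    · intro h
      have h3 : (Submodule.Quotient.mk z : C ⧸ (I • ⊤ : Submodule A C)) = 0 := by
        rw [Submodule.Quotient.mk_eq_zero, h2]
        exact h
      rw [h3] at h1
      exact (LinearEquiv.map_eq_zero_iff _).1 h1
  have hck : (1 : A ⧸ I) ⊗ₜ[A] (c ^ k) = 0 := (key _).2 hc
  have h4 : (Ψ ((1 : A ⧸ I) ⊗ₜ[A] c)) ^ k = 0 := by
    rw [← map_pow, Algebra.TensorProduct.tmul_pow, one_pow, hck, map_zero]
  have h5 : Ψ ((1 : A ⧸ I) ⊗ₜ[A] c) = 0 := IsReduced.eq_zero _ ⟨k, h4⟩
  exact (key c).1 (hΨ (by rw [h5, map_zero]))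

end Red

end Helper12
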