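import Mathlib
import Pool.Agent.Helper12.IsoRed

namespace Helper12

open Filter TensorProduct Polynomial

section Sat

attribute [local instance] Polynomial.algebra in
theorem etale_mapRingHom {Q R : Type} [CommRing Q] [CommRing R] (φ : Q →+* R) (h : φ.Etale) :
    (Polynomial.mapRingHom φ).Etale := by
  letI : Algebra Q R := φ.toAlgebra
  have h1 : (algebraMap Q R).Etale := h
  exact RingHom.Etale.isStableUnderBaseChange Q R Q[X] R[X] h1

theorem etale_of_comp {A B C : Type} [CommRing A] [CommRing B] [CommRing C] (φ : A →+* B)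
    (ψ : B →+* C) (h1 : φ.Etale) (h2 : (ψ.comp φ).Etale) : ψ.Etale := by
  algebraize [φ, ψ, ψ.comp φ]
  haveI : Algebra.Etale A B := h1
  haveI : Algebra.Etale A C := h2
  exact Algebra.Etale.of_restrictScalars (R := A) (A := B) (B := C)

/-- Outside a fixed hypersurface of the base, étale coordinates algebras are reduced modulo all
prime numbers. -/
theorem exists_saturation (R : Type) [CommRing R] [IsDomain R] [CharZero R]
    [Algebra.FiniteType ℤ R] :
    ∃ f : R, f ≠ 0 ∧ ∀ (O : Type) [CommRing O] [Algebra R O] (x : O),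
      (aeval x : R[X] →ₐ[R] O).toRingHom.Etale → ∀ p : ℕ, p.Prime → ∀ c : O,
        c ∈ (Ideal.span {(p : O)}).radical →
          ∃ j : ℕ, (algebraMap R O f) ^ j * c ∈ Ideal.span {(p : O)} := by
  obtain ⟨f, hf, n, φ, hφ⟩ := exists_etale_model R
  refine ⟨f, hf, ?_⟩
  intro O _ _ x hx p hp c hc
  let R' := Localization.Away f
  let O' := Localization.Away (algebraMap R O f)
  let ι : O →+* O' := algebraMap O O'
  let α : R' →+* O' := IsLocalization.Away.map R' O' (algebraMap R O) f
  have hα : α.comp (algebraMap R R') = ι.comp (algebraMap R O) := by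
    simp only [α, IsLocalization.Away.map, IsLocalization.map_comp]
    rfl
  let β : R'[X] →+* O' := Polynomial.eval₂RingHom α (ι x)
  have hβ : β.comp (Polynomial.mapRingHom (algebraMap R R')) =
      ι.comp (aeval x : R[X] →ₐ[R] O).toRingHom := by
    refine Polynomial.ringHom_ext' ?_ ?_
    · ext a
      have := congrArg (fun h => h a) hα
      simpa [β] using this
    · simp [β]
  have hι : ι.Etale := by
    have : Algebra.Etale O O' := Algebra.Etale.of_isLocalizationAway (algebraMap R O f)
    exact RingHom.etale_algebraMap.2 this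
  have hβ' : β.Etale := by
    apply etale_of_comp (Polynomial.mapRingHom (algebraMap R R')) β
    · apply etale_mapRingHom
      exact RingHom.etale_algebraMap.2 (Algebra.Etale.of_isLocalizationAway f)
    · rw [hβ]
      exact RingHom.Etale.stableUnderComposition _ _ hx hι
  let γ : (MvPolynomial (Fin n) ℤ)[X] →+* O' := β.comp (Polynomial.mapRingHom φ)
  have hγ : γ.Etale := RingHom.Etale.stableUnderComposition _ _ (etale_mapRingHom φ hφ) hβ'
  have hprime : (Ideal.span {(p : (MvPolynomial (Fin n) ℤ)[X])}).IsPrime := by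
    rw [Ideal.span_singleton_prime]
    · have h1 : Prime (p : ℤ) := Nat.prime_iff_prime_int.1 hp
      have h2 : Prime (MvPolynomial.C (p : ℤ) : MvPolynomial (Fin n) ℤ) :=
        (MvPolynomial.prime_C_iff (Fin n)).2 h1
      have h3 := Polynomial.prime_C_iff.2 h2
      simpa using h3
    · exact_mod_cast hp.ne_zero
  obtain ⟨k, hk⟩ := hc
  have hmap : (Ideal.span {(p : (MvPolynomial (Fin n) ℤ)[X])}).map γ = Ideal.span {(p : O')} := by
    rw [Ideal.map_span, Set.image_singleton, map_natCast]
  have h1 : ι c ∈ (Ideal.span {(p : (MvPolynomial (Fin n) ℤ)[X])}).map γ := by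
    apply mem_map_of_pow_mem_of_etale γ hγ _ _ k
    rw [hmap, ← map_pow]
    rw [Ideal.mem_span_singleton] at hk ⊢
    obtain ⟨z, hz⟩ := hk
    exact ⟨ι z, by rw [hz, map_mul, map_natCast]⟩
  rw [hmap, Ideal.mem_span_singleton] at h1
  obtain ⟨z, hz⟩ := h1
  obtain ⟨⟨z₀, ⟨_, ⟨j, rfl⟩⟩⟩, hj⟩ := IsLocalization.surj (Submonoid.powers (algebraMap R O f)) z
  simp only at hj
  have h2 : ι (algebraMap R O f ^ j * c) = ι ((p : O) * z₀) := by
    rw [map_mul, map_mul, map_natCast, hz]
    have : ι z₀ = z * ι (algebraMap R O f ^ j) := hj.symm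
    rw [this]
    ring
  obtain ⟨⟨_, ⟨i, rfl⟩⟩, hi⟩ := (IsLocalization.eq_iff_exists
    (Submonoid.powers (algebraMap R O f)) O').1 h2
  simp only at hi
  refine ⟨i + j, ?_⟩
  rw [Ideal.mem_span_singleton]
  refine ⟨algebraMap R O f ^ i * z₀, ?_⟩
  rw [pow_add, mul_assoc, hi]
  ring

/-- closed points -/
theorem eventually_radical_of_closed (R O : Type) [CommRing R] [CommRing O] [Algebra R O]
    [IsDomain O] [CharZero O] [Algebra.FiniteType ℤ O] [Algebra.FiniteType ℤ R] (h : R)
    (hh : algebraMap R O h ≠ 0) :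
    ∀ᶠ p : ℕ in atTop, p.Prime → ∀ c : O,
      (∀ m : Ideal R, m.IsMaximal → (p : R) ∈ m → h ∉ m → c ∈ m.map (algebraMap R O)) →
        c ∈ (Ideal.span {(p : O)}).radical := by
  filter_upwards [eventually_radical_of_maximal (algebraMap R O h) hh] with p hp hpp c hc
  apply hp hpp
  intro m hm hpm hhm
  have hmax : (m.comap (algebraMap R O)).IsMaximal := by
    haveI := isJacobsonRing_int
    haveI : IsJacobsonRing R := isJacobsonRing_of_finiteType (A := ℤ)
    letI := Ideal.Quotient.field m
    haveI : Algebra.FiniteType R O := Algebra.FiniteType.of_restrictScalars_finiteType ℤ R O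
    haveI : Algebra.FiniteType R (O ⧸ m) := inferInstance
    haveI : Module.Finite R (O ⧸ m) := finite_of_finite_type_of_isJacobsonRing R (O ⧸ m)
    haveI : Algebra.IsIntegral R (O ⧸ m) := inferInstance
    have h1 := Ideal.isMaximal_comap_of_isIntegral_of_isMaximal (R := R) (S := O ⧸ m) ⊥
    have h2 : (⊥ : Ideal (O ⧸ m)).comap (algebraMap R (O ⧸ m)) = m.comap (algebraMap R O) := by
      ext r
      rw [Ideal.mem_comap, Ideal.mem_bot, Ideal.mem_comap, ← Ideal.Quotient.eq_zero_iff_mem]
      rfl
    rwa [h2] at h1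
  have h3 := hc _ hmax (by rw [Ideal.mem_comap, map_natCast]; exact hpm)
    (by rw [Ideal.mem_comap]; exact hhm)
  exact Ideal.map_comap_le h3

end Sat

end Helper12
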