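import Mathlib
import Pool.Agent.Helper12.CommAlg

namespace Helper12

open Filter Polynomial

section Tors

theorem exists_functional {R M : Type} [CommRing R] [IsDomain R] [AddCommGroup M] [Module R M]
    [Module.Finite R M] (w : M) (hw : ∀ r : R, r ≠ 0 → r • w ≠ 0) :
    ∃ f : M →ₗ[R] R, f w ≠ 0 := by
  classical
  let K := FractionRing R
  let V := LocalizedModule (nonZeroDivisors R) M
  let mk : M →ₗ[R] V := LocalizedModule.mkLinearMap (nonZeroDivisors R) M
  letI : Module K V := inferInstanceAs (Module (Localization (nonZeroDivisors R)) V)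
  haveI : IsScalarTower R K V := inferInstanceAs
    (IsScalarTower R (Localization (nonZeroDivisors R)) V)
  have hv : mk w ≠ 0 := by
    intro h
    have h1 : mk w = mk 0 := by rw [h, map_zero]
    obtain ⟨c, hc⟩ := (IsLocalizedModule.eq_iff_exists (nonZeroDivisors R) mk).1 h1
    apply hw c (nonZeroDivisors.ne_zero c.2)
    rw [smul_zero] at hc
    exact hc
  obtain ⟨φ, hφ⟩ : ∃ φ : Module.Dual K V, φ (mk w) ≠ 0 := by
    by_contra hcon
    push Not at hcon
    exact hv ((Module.forall_dual_apply_eq_zero_iff K (mk w)).1 hcon)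
  let ψ : M →ₗ[R] K := (φ.restrictScalars R).comp mk
  obtain ⟨T, hT⟩ := (Module.Finite.fg_top : (⊤ : Submodule R M).FG)
  obtain ⟨b, hb⟩ := IsLocalization.exist_integer_multiples_of_finset (nonZeroDivisors R)
    (T.image ψ)
  let ι : R →ₗ[R] K := Algebra.linearMap R K
  have hι : Function.Injective ι := IsFractionRing.injective R K
  have hrange : ∀ m : M, (b : R) • ψ m ∈ LinearMap.range ι := by
    intro m
    have hm : m ∈ Submodule.span R (T : Set M) := by rw [hT]; trivial
    induction hm using Submodule.span_induction with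
    | mem x hx =>
      obtain ⟨a, ha⟩ := hb (ψ x) (Finset.mem_image_of_mem _ hx)
      exact ⟨a, ha⟩
    | zero => rw [map_zero, smul_zero]; exact Submodule.zero_mem _
    | add x y _ _ hx hy => rw [map_add, smul_add]; exact Submodule.add_mem _ hx hy
    | smul c x _ hx =>
      rw [map_smul, smul_comm]
      exact Submodule.smul_mem _ _ hx
  let χ : M →ₗ[R] LinearMap.range ι := LinearMap.codRestrict _ ((b : R) • ψ) hrange
  refine ⟨(LinearEquiv.ofInjective ι hι).symm.toLinearMap.comp χ, ?_⟩
  intro h
  have h1 : χ w = 0 := by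
    have : (LinearEquiv.ofInjective ι hι).symm (χ w) = 0 := h
    exact (LinearEquiv.map_eq_zero_iff _).1 this
  have h2 : (b : R) • ψ w = 0 := congrArg Subtype.val h1
  rw [Algebra.smul_def, mul_eq_zero] at h2
  rcases h2 with h2 | h2
  · exact nonZeroDivisors.ne_zero b.2 (IsFractionRing.injective R K (by rw [h2, map_zero]))
  · exact hφ h2

theorem torsion_of_frequently {R M : Type} [CommRing R] [IsDomain R] [CharZero R]
    [Algebra.FiniteType ℤ R] [AddCommGroup M] [Module R M] [Module.Finite R M] (w : M) (f : R)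
    (hf : f ≠ 0)
    (h : ∃ᶠ p : ℕ in atTop, p.Prime ∧ ∃ (j : ℕ) (z : M), f ^ j • w = (p : R) • z) :
    ∃ r : R, r ≠ 0 ∧ r • w = 0 := by
  by_contra hcon
  push Not at hcon
  obtain ⟨φ, hφ⟩ := exists_functional w (fun r hr => hcon r hr)
  have h1 := h.and_eventually (eventually_exists_prime_notMem (f * φ w) (mul_ne_zero hf hφ))
  obtain ⟨p, ⟨hp, j, z, hz⟩, hP⟩ := h1.exists
  obtain ⟨P, hPp, hpP, hfw⟩ := hP hp
  apply hfw
  have h2 := congrArg φ hz
  rw [map_smul, map_smul, smul_eq_mul, smul_eq_mul] at h2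
  have h3 : f ^ j * φ w ∈ P := by rw [h2]; exact P.mul_mem_right _ hpP
  rcases hPp.mem_or_mem h3 with h4 | h4
  · exact P.mul_mem_right _ (hPp.mem_of_pow_mem _ h4)
  · exact P.mul_mem_left _ h4

/-- algebras étale over `R[X]` are flat over `R` -/
theorem algebraMap_ne_zero_of_etale {R O : Type} [CommRing R] [IsDomain R] [CommRing O]
    [Nontrivial O] [Algebra R O] (x : O) (hx : (aeval x : R[X] →ₐ[R] O).toRingHom.Etale) (r : R)
    (hr : r ≠ 0) : algebraMap R O r ≠ 0 := by
  letI : Algebra R[X] O := (aeval x : R[X] →ₐ[R] O).toRingHom.toAlgebra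
  haveI : Algebra.Etale R[X] O := hx
  haveI : IsScalarTower R R[X] O := IsScalarTower.of_algebraMap_eq (fun a => by
    rw [RingHom.algebraMap_toAlgebra]
    simp)
  haveI : Module.Flat R[X] O := inferInstance
  haveI : Module.Flat R O := Module.Flat.trans R R[X] O
  intro h0
  have h1 : Function.Injective (LinearMap.lsmul R R r) := by
    intro a b hab
    exact mul_left_cancel₀ hr hab
  have h2 := Module.Flat.rTensor_preserves_injective_linearMap (M := O) (LinearMap.lsmul R R r) h1
  have h3 : (LinearMap.rTensor O (LinearMap.lsmul R R r)) ((1 : R) ⊗ₜ[R] (1 : O)) = 0 := by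
    rw [LinearMap.rTensor_tmul, LinearMap.lsmul_apply, TensorProduct.smul_tmul, Algebra.smul_def,
      h0, zero_mul, TensorProduct.tmul_zero]
  have h4 : ((1 : R) ⊗ₜ[R] (1 : O)) = 0 := h2 (by rw [h3, map_zero])
  have h5 := congrArg (TensorProduct.lid R O) h4
  rw [TensorProduct.lid_tmul, map_zero, one_smul] at h5
  exact one_ne_zero h5

theorem finiteType_of_etale {R O : Type} [CommRing R] [Algebra.FiniteType ℤ R] [CommRing O]
    [Algebra R O] (x : O) (hx : (aeval x : R[X] →ₐ[R] O).toRingHom.Etale) :
    Algebra.FiniteType ℤ O := by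
  letI : Algebra R[X] O := (aeval x : R[X] →ₐ[R] O).toRingHom.toAlgebra
  haveI : Algebra.Etale R[X] O := hx
  haveI : Algebra.FiniteType R[X] O := inferInstance
  haveI : Algebra.FiniteType R R[X] := inferInstance
  haveI : Algebra.FiniteType ℤ R[X] := Algebra.FiniteType.trans (S := R) inferInstance inferInstance
  exact Algebra.FiniteType.trans (S := R[X]) inferInstance inferInstance

end Tors

end Helper12
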