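import Mathlib
import Pool.Agent.Helper12.IsoSat
import Pool.Agent.Helper12.IsoTors

namespace Helper12

open TensorProduct Polynomial

section Base

attribute [local instance] Polynomial.algebra Algebra.TensorProduct.rightAlgebra in
/-- étale coordinates are stable under base change -/
theorem etale_baseChange {R₀ R O : Type} [CommRing R₀] [CommRing R] [CommRing O] [Algebra R₀ R]
    [Algebra R₀ O] (x : O) (hx : (aeval x : R₀[X] →ₐ[R₀] O).toRingHom.Etale) :
    (aeval ((1 : R) ⊗ₜ[R₀] x) : R[X] →ₐ[R] R ⊗[R₀] O).toRingHom.Etale := by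
  letI a1 : Algebra R₀[X] O := (aeval x : R₀[X] →ₐ[R₀] O).toRingHom.toAlgebra
  letI a2 : Algebra R[X] (R ⊗[R₀] O) :=
    (aeval ((1 : R) ⊗ₜ[R₀] x) : R[X] →ₐ[R] R ⊗[R₀] O).toRingHom.toAlgebra
  letI a3 : Algebra R₀[X] (R ⊗[R₀] O) :=
    ((algebraMap R[X] (R ⊗[R₀] O)).comp (algebraMap R₀[X] R[X])).toAlgebra
  haveI t1 : IsScalarTower R₀[X] R[X] (R ⊗[R₀] O) := IsScalarTower.of_algebraMap_eq' rfl
  haveI t2 : IsScalarTower R R[X] (R ⊗[R₀] O) := IsScalarTower.of_algebraMap_eq (fun r => by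
    rw [RingHom.algebraMap_toAlgebra]
    simp)
  haveI t3 : IsScalarTower R₀ R₀[X] O := IsScalarTower.of_algebraMap_eq (fun r => by
    rw [RingHom.algebraMap_toAlgebra]
    simp)
  haveI t4 : IsScalarTower R₀ R[X] (R ⊗[R₀] O) := IsScalarTower.of_algebraMap_eq (fun r => by
    rw [IsScalarTower.algebraMap_apply R₀ R R[X], ← IsScalarTower.algebraMap_apply R R[X],
      ← IsScalarTower.algebraMap_apply])
  haveI t5 : IsScalarTower R₀[X] O (R ⊗[R₀] O) := by
    apply IsScalarTower.of_algebraMap_eq'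
    have e1 : algebraMap R₀[X] (R ⊗[R₀] O) =
        (algebraMap R[X] (R ⊗[R₀] O)).comp (algebraMap R₀[X] R[X]) := rfl
    have e2 : algebraMap R₀[X] O = (aeval x : R₀[X] →ₐ[R₀] O).toRingHom := rfl
    have e3 : algebraMap R[X] (R ⊗[R₀] O) =
      (aeval ((1 : R) ⊗ₜ[R₀] x) : R[X] →ₐ[R] R ⊗[R₀] O).toRingHom := rfl
    have e4 : algebraMap R₀[X] R[X] = Polynomial.mapRingHom (algebraMap R₀ R) := rfl
    have e5 : algebraMap O (R ⊗[R₀] O) = (Algebra.TensorProduct.includeRight :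
      O →ₐ[R₀] R ⊗[R₀] O).toRingHom := rfl
    rw [e1, e2, e3, e4, e5]
    refine Polynomial.ringHom_ext' ?_ ?_
    · ext a
      simp
    · simp
  haveI p1 : Algebra.IsPushout R₀ R₀[X] R R[X] := inferInstance
  haveI p2 : Algebra.IsPushout R₀ O R (R ⊗[R₀] O) := inferInstance
  haveI p3 : Algebra.IsPushout R₀[X] O R[X] (R ⊗[R₀] O) :=
    (Algebra.IsPushout.comp_iff R₀ R₀[X] R R[X] (T := O)).1 p2
  have h1 : (algebraMap R₀[X] O).Etale := hx
  exact RingHom.Etale.isStableUnderBaseChange R₀[X] O R[X] (R ⊗[R₀] O) h1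

end Base

end Helper12
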