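import Mathlib
import Pool.Agent.Helper12.Numerators

namespace Helper12

open Polynomial Filter

section Clear

variable {L : Type*} [CommRing L]

/-- Clearing denominators in the recursion. -/
theorem num_clear (d : Derivation ℤ L L) (s : ℕ) (hs : 0 < s) (q : L) (g G : ℕ → L)
    (hG : ∀ i < s, G i = q ^ (s - i) * g i) (n : ℕ) :
    ∀ i < s, q ^ i * num s (fun P => q * d P) (d q) G n i = q ^ n * num s d 0 g n i := by
  induction n with
  | zero =>
    intro i hi
    rw [num_zero, num_zero]
    by_cases h : i = 0
    · subst h; simp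
    · simp [h]
  | succ n ih =>
    intro i hi
    rw [num_succ, num_succ]
    set N := num s (fun P => q * d P) (d q) G n i with hN
    set c := num s d 0 g n i with hc
    have e1 : q ^ i * (q * d N - (((n : ℤ) - (i : ℤ) : ℤ) : L) * d q * N) = q ^ (n + 1) * d c := by
      have h1 := congrArg d (ih i hi)
      rw [← hN, ← hc] at h1
      simp only [Derivation.leibniz, Derivation.leibniz_pow, smul_eq_mul, nsmul_eq_mul] at h1
      have h2 := ih i hi
      rw [← hN, ← hc] at h2
      have hi' : (q : L) * ((i : L) * (q ^ (i - 1) * d q)) = (i : L) * q ^ i * d q := by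
        rcases Nat.eq_zero_or_pos i with h | h
        · subst h; simp
        · have : q ^ i = q * q ^ (i - 1) := by
            rw [← pow_succ', Nat.sub_add_cancel h]
          rw [this]; ring
      have hn' : (q : L) * ((n : L) * (q ^ (n - 1) * d q)) = (n : L) * q ^ n * d q := by
        rcases Nat.eq_zero_or_pos n with h | h
        · subst h; simp
        · have : q ^ n = q * q ^ (n - 1) := by
            rw [← pow_succ', Nat.sub_add_cancel h]
          rw [this]; ring
      push_cast
      linear_combination q * h1 - N * hi' + c * hn' - (n : L) * d q * h2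
    have e3 : q ^ i * (if i = 0 then 0 else num s (fun P => q * d P) (d q) G n (i - 1)) =
        q ^ (n + 1) * (if i = 0 then 0 else num s d 0 g n (i - 1)) := by
      by_cases h : i = 0
      · simp [h]
      · simp only [h, if_false]
        have h1 := ih (i - 1) (by omega)
        have h2 : q ^ i = q * q ^ (i - 1) := by
          rw [← pow_succ', Nat.sub_add_cancel (Nat.pos_of_ne_zero h)]
        rw [h2]
        linear_combination q * h1
    have e4 : q ^ i * (G i * num s (fun P => q * d P) (d q) G n (s - 1)) =
        q ^ (n + 1) * (g i * num s d 0 g n (s - 1)) := by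
      have h1 := ih (s - 1) (by omega)
      rw [hG i hi]
      have h2 : q ^ i * q ^ (s - i) = q * q ^ (s - 1) := by
        rw [← pow_add, ← pow_succ']
        congr 1
        omega
      linear_combination g i * num s (fun P => q * d P) (d q) G n (s - 1) * h2 + q * g i * h1
    linear_combination e1 + e3 - e4

end Clear

section Cyclic

variable {S L V : Type*} [CommRing S] [IsDomain S] [Field L] [Algebra S L] [IsFractionRing S L]
  [AddCommGroup V] [Module L V] [Module S V] [IsScalarTower S L V]

theorem linearIndependent_of_notMem (w : ℕ → V) (n : ℕ)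
    (h : ∀ m < n, w m ∉ Submodule.span L (w '' Set.Iio m)) :
    LinearIndependent L (fun i : Fin n => w i) := by
  induction n with
  | zero => exact linearIndependent_empty_type
  | succ n ih =>
    rw [linearIndependent_finSucc']
    refine ⟨ih (fun m hm => h m (by omega)), ?_⟩
    have h1 := h n (by omega)
    intro h2
    apply h1
    have : Set.range (Fin.init (fun i : Fin (n + 1) => w i)) = w '' Set.Iio n := by
      ext x
      constructor
      · rintro ⟨i, rfl⟩
        exact ⟨i, i.2, rfl⟩
      · rintro ⟨i, hi, rfl⟩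
        exact ⟨⟨i, hi⟩, rfl⟩
    rw [← this]
    simpa using h2

/-- The cyclic submodule generated by a vector, in a lattice. -/
theorem cyclic_data (dS : Derivation ℤ S S) (dL : Derivation ℤ L L)
    (hd : ∀ a, dL (algebraMap S L a) = algebraMap S L (dS a))
    (nab : V →+ V) (hnab : ∀ (l : L) (v : V), nab (l • v) = dL l • v + l • nab v)
    (E : Submodule S V) (hfg : E.FG) (hE : ∀ v ∈ E, nab v ∈ E) (e : V) (he : e ∈ E)
    (he0 : e ≠ 0) :
    ∃ (s : ℕ) (q : S) (G : ℕ → S) (y : ℕ → ℕ → S), 0 < s ∧ q ≠ 0 ∧
      (∀ n, ∀ i < s, q ^ (i + 1) * num s (fun P => q * dS P) (dS q) G n i = q ^ n * y n i) ∧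
      (∀ n, algebraMap S L q • nab^[n] e =
        ∑ i ∈ Finset.range s, algebraMap S L (y n i) • nab^[i] e) ∧
      (∀ n (c : S), (∃ e' ∈ E, nab^[n] e = c • e') → ∀ i < s, c ∣ y n i) := by
  classical
  set w : ℕ → V := fun n => nab^[n] e with hw
  have hwS : ∀ n, w (n + 1) = nab (w n) := fun n => by
    simp only [hw, Function.iterate_succ', Function.comp]
  have hwE : ∀ n, w n ∈ E := by
    intro n
    induction n with
    | zero => simpa [hw] using he
    | succ n ih => rw [hwS]; exact hE _ ih
  -- finite dimensionality
  obtain ⟨T, hT⟩ := hfg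
  set U := Submodule.span L (T : Set V) with hU
  have hEU : ∀ v ∈ E, v ∈ U := by
    intro v hv
    rw [← hT] at hv
    have : Submodule.span S (T : Set V) ≤ U.restrictScalars S := by
      rw [Submodule.span_le]
      intro x hx
      exact Submodule.subset_span hx
    exact this hv
  haveI : FiniteDimensional L U := FiniteDimensional.span_finset L T
  have hex : ∃ n, w n ∈ Submodule.span L (w '' Set.Iio n) := by
    by_contra hcon
    push Not at hcon
    have hli := linearIndependent_of_notMem (L := L) w (Module.finrank L U + 1)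
      (fun m _ => hcon m)
    have hli' : LinearIndependent L (fun i : Fin (Module.finrank L U + 1) =>
        (⟨w i, hEU _ (hwE i)⟩ : U)) := by
      apply LinearIndependent.of_comp U.subtype
      exact hli
    have := hli'.fintype_card_le_finrank
    rw [Fintype.card_fin] at this
    omega
  set s := Nat.find hex with hs
  have hs1 : w s ∈ Submodule.span L (w '' Set.Iio s) := Nat.find_spec hex
  have hs2 : ∀ m < s, w m ∉ Submodule.span L (w '' Set.Iio m) := fun m hm => Nat.find_min hex hm
  have hspos : 0 < s := by
    rcases Nat.eq_zero_or_pos s with h | h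
    · exfalso
      rw [h] at hs1
      apply he0
      have h0 : (w 0 : V) = 0 := by
        simpa using hs1
      simpa [hw] using h0
    · exact h
  have hli := linearIndependent_of_notMem (L := L) w s hs2
  -- functionals
  have hfun : ∃ lam : Fin s → (V →ₗ[L] L), ∀ i j : Fin s, lam i (w j) = if i = j then 1 else 0 := by
    have h1 : ∀ i : Fin s, ∃ f : V →ₗ[L] L, ∀ j : Fin s, f (w j) = if i = j then 1 else 0 := by
      intro i
      let b := Module.Basis.span hli
      obtain ⟨f, hf⟩ := LinearMap.exists_extend (b.coord i)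
      refine ⟨f, fun j => ?_⟩
      have h2 : f (w j) = (f.comp (Submodule.span L (Set.range fun i : Fin s => w i)).subtype)
          (b j) := by
        rw [LinearMap.comp_apply, Submodule.subtype_apply, Module.Basis.span_apply]
      rw [h2, hf, Module.Basis.coord_apply, Module.Basis.repr_self, Finsupp.single_apply]
      simp only [eq_comm]
    choose f hf using h1
    exact ⟨f, hf⟩
  obtain ⟨lam, hlam⟩ := hfun
  have hlam' : ∀ (i : Fin s) (c : ℕ → L), lam i (∑ j ∈ Finset.range s, c j • w j) = c i := by
    intro i c
    rw [map_sum, Finset.sum_eq_single (i : ℕ)]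
    · rw [map_smul, hlam i i, if_pos rfl, smul_eq_mul, mul_one]
    · intro j hj hne
      rw [Finset.mem_range] at hj
      rw [map_smul, hlam i ⟨j, hj⟩, if_neg, smul_zero]
      rintro rfl
      exact hne rfl
    · intro h
      exact absurd (Finset.mem_range.2 i.2) h
  -- relation
  have hrel : ∃ g : ℕ → L, w s = - ∑ i ∈ Finset.range s, g i • w i := by
    have h1 : w '' Set.Iio s = Set.range (fun i : Fin s => w i) := by
      ext x
      constructor
      · rintro ⟨i, hi, rfl⟩
        exact ⟨⟨i, hi⟩, rfl⟩
      · rintro ⟨i, rfl⟩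
        exact ⟨i, i.2, rfl⟩
    rw [h1, Submodule.mem_span_range_iff_exists_fun] at hs1
    obtain ⟨c, hc⟩ := hs1
    refine ⟨fun i => if h : i < s then - c ⟨i, h⟩ else 0, ?_⟩
    rw [← hc, Finset.sum_range, ← Finset.sum_neg_distrib]
    apply Finset.sum_congr rfl
    intro i _
    simp
  obtain ⟨g, hg⟩ := hrel
  have hexp : ∀ n, w n = ∑ i ∈ Finset.range s, num s dL 0 g n i • w i := by
    intro n
    induction n with
    | zero =>
      simp only [num_zero]
      rw [Finset.sum_eq_single 0]
      · simp
      · intro b _ hb; simp [hb]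
      · intro h; exact absurd (Finset.mem_range.2 hspos) h
    | succ n ih =>
      rw [hwS, ih, map_sum]
      have h1 : ∀ i ∈ Finset.range s, nab (num s dL 0 g n i • w i) =
          dL (num s dL 0 g n i) • w i + num s dL 0 g n i • w (i + 1) := by
        intro i _
        rw [hnab, hwS]
      rw [Finset.sum_congr rfl h1, Finset.sum_add_distrib]
      have h2 : ∑ i ∈ Finset.range s, num s dL 0 g n i • w (i + 1) =
          ∑ i ∈ Finset.range s, (if i = 0 then 0 else num s dL 0 g n (i - 1)) • w i +
            num s dL 0 g n (s - 1) • w s := by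
        obtain ⟨m, hm⟩ : ∃ m, s = m + 1 := ⟨s - 1, by omega⟩
        rw [hm, Finset.sum_range_succ, Finset.sum_range_succ' (fun i =>
          (if i = 0 then 0 else num (m + 1) dL 0 g n (i - 1)) • w i)]
        simp
      rw [h2, hg, smul_neg, Finset.smul_sum]
      simp only [num_succ, mul_zero, zero_mul, sub_zero, sub_smul, add_smul, smul_smul,
        Finset.sum_sub_distrib, Finset.sum_add_distrib]
      have h3 : ∀ i ∈ Finset.range s, (num s dL 0 g n (s - 1) * g i) • w i =
          (g i * num s dL 0 g n (s - 1)) • w i := by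
        intro i _
        rw [mul_comm]
      rw [Finset.sum_congr rfl h3]
      abel
  -- denominators
  obtain ⟨q, hq0, hq⟩ : ∃ q : S, q ≠ 0 ∧ ∀ v ∈ E, ∀ i : Fin s, ∃ a : S,
      algebraMap S L a = algebraMap S L q * lam i v := by
    obtain ⟨b, hb⟩ := IsLocalization.exist_integer_multiples_of_finset (nonZeroDivisors S)
      (T.biUnion fun v => Finset.univ.image fun i : Fin s => lam i v)
    refine ⟨b, nonZeroDivisors.ne_zero b.2, ?_⟩
    intro v hv i
    rw [← hT] at hv
    induction hv using Submodule.span_induction with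
    | mem x hx =>
      have := hb (lam i x) (Finset.mem_biUnion.2 ⟨x, hx, Finset.mem_image.2 ⟨i, Finset.mem_univ _, rfl⟩⟩)
      obtain ⟨a, ha⟩ := this
      refine ⟨a, ?_⟩
      rw [ha, Algebra.smul_def]
    | zero => exact ⟨0, by simp⟩
    | add x y _ _ hx hy =>
      obtain ⟨a, ha⟩ := hx
      obtain ⟨a', ha'⟩ := hy
      exact ⟨a + a', by rw [map_add, map_add, ha, ha']; ring⟩
    | smul c x _ hx =>
      obtain ⟨a, ha⟩ := hx
      refine ⟨c * a, ?_⟩
      rw [map_mul, ha, ← algebraMap_smul L c x, map_smul, smul_eq_mul]
      ring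
  have hgi : ∀ (i : ℕ) (hi : i < s), g i = - lam ⟨i, hi⟩ (w s) := by
    intro i hi
    rw [hg, map_neg, hlam' ⟨i, hi⟩ g, neg_neg]
  have hGex : ∀ i < s, ∃ G : S, algebraMap S L G = algebraMap S L q ^ (s - i) * g i := by
    intro i hi
    obtain ⟨a, ha⟩ := hq _ (hwE s) ⟨i, hi⟩
    refine ⟨- (q ^ (s - i - 1) * a), ?_⟩
    have h1 : algebraMap S L q ^ (s - i) = algebraMap S L q ^ (s - i - 1) * algebraMap S L q := by
      rw [← pow_succ]
      congr 1
      omega
    rw [map_neg, map_mul, map_pow, ha, hgi i hi, h1]
    ring
  let G : ℕ → S := fun i => if h : i < s then (hGex i h).choose else 0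
  have hG : ∀ i < s, algebraMap S L (G i) = algebraMap S L q ^ (s - i) * g i := by
    intro i hi
    simp only [G, hi, dif_pos]
    exact (hGex i hi).choose_spec
  have hc : ∀ n (i : Fin s), lam i (w n) = num s dL 0 g n i := by
    intro n i
    rw [hexp n, hlam' i]
  have hyex : ∀ n, ∀ i < s, ∃ y : S, algebraMap S L y = algebraMap S L q * num s dL 0 g n i := by
    intro n i hi
    obtain ⟨a, ha⟩ := hq _ (hwE n) ⟨i, hi⟩
    exact ⟨a, by rw [ha, hc n ⟨i, hi⟩]⟩
  let y : ℕ → ℕ → S := fun n i => if h : i < s then (hyex n i h).choose else 0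
  have hy : ∀ n, ∀ i < s, algebraMap S L (y n i) = algebraMap S L q * num s dL 0 g n i := by
    intro n i hi
    simp only [y, hi, dif_pos]
    exact (hyex n i hi).choose_spec
  have hinj : Function.Injective (algebraMap S L) := IsFractionRing.injective S L
  refine ⟨s, q, G, y, hspos, hq0, ?_, ?_, ?_⟩
  · intro n i hi
    apply hinj
    have h1 := num_clear dL s hspos (algebraMap S L q) g (fun i => algebraMap S L (G i)) hG n i hi
    have h2 := num_transform s hspos (fun P => q * dS P) (dS q) G
      (fun P => algebraMap S L q * dL P) (dL (algebraMap S L q)) (fun i => algebraMap S L (G i))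
      (algebraMap S L) 1 (fun a => by rw [one_mul, map_mul, hd]) (fun k x => by simp)
      (by rw [one_mul, hd]) (fun i _ => by simp) n i hi
    rw [one_pow, one_pow, one_mul, one_mul] at h2
    rw [h2] at h1
    rw [map_mul, map_pow, map_mul, map_pow, hy n i hi, pow_succ]
    linear_combination algebraMap S L q * h1
  · intro n
    change algebraMap S L q • w n = _
    rw [hexp n, Finset.smul_sum]
    apply Finset.sum_congr rfl
    intro i hi
    rw [Finset.mem_range] at hi
    rw [hy n i hi, smul_smul]
  · rintro n c ⟨e', he', hne⟩ i hi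
    obtain ⟨a, ha⟩ := hq e' he' ⟨i, hi⟩
    refine ⟨a, ?_⟩
    apply hinj
    have h1 : w n = c • e' := hne
    rw [hy n i hi, ← hc n ⟨i, hi⟩, h1, ← algebraMap_smul L c e', map_smul, smul_eq_mul, map_mul, ha]
    ring

end Cyclic

end Helper12
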