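import Mathlib
import Pool.Agent.Helper12.CommAlg
import Pool.Agent.Helper12.Numerators
import Pool.Agent.Helper12.Reduction

namespace Helper12

open Polynomial Filter

section TopCoeff

variable {Q : Type*} [CommRing Q]

theorem num_eq_zero_of_lt {S : Type*} [CommRing S] (r : ℕ) (d : S → S) (hd : d 0 = 0) (φ : S)
    (g : ℕ → S) (ν : ℕ) : ∀ i, ν < i → i < r → num r d φ g ν i = 0 := by
  induction ν with
  | zero =>
    intro i h0 _
    rw [num_zero, if_neg h0.ne']
  | succ ν ih =>
    intro i h hr
    rw [num_succ, ih i (by omega) hr]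
    have h1 : i ≠ 0 := by omega
    simp only [h1, if_false, mul_zero]
    rw [ih (i - 1) (by omega) (by omega), ih (r - 1) (by omega) (by omega)]
    simp [hd]

theorem natDegree_le_of_coeffwise (d : Q → Q) (hd0 : d 0 = 0) (D : Q[X] → Q[X])
    (hD : ∀ P n, (D P).coeff n = d (P.coeff n)) (P : Q[X]) : (D P).natDegree ≤ P.natDegree := by
  rw [natDegree_le_iff_coeff_eq_zero]
  intro n hn
  rw [hD, coeff_eq_zero_of_natDegree_lt hn, hd0]

theorem small_of_lt {P : Q[X]} {m : ℕ} (h : P = 0 ∨ P.natDegree < m) :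
    P.natDegree ≤ m ∧ P.coeff m = 0 := by
  rcases h with h | h
  · subst h; simp
  · exact ⟨h.le, coeff_eq_zero_of_natDegree_lt h⟩

/-- The top coefficients of the numerators obey the recursion with constant coefficients. -/
theorem num_top (d : Q → Q) (hd0 : d 0 = 0) (D : Q[X] → Q[X])
    (hD : ∀ P n, (D P).coeff n = d (P.coeff n)) (s E : ℕ) (Δ : Q[X]) (hΔ : Δ.natDegree < E)
    (G : ℕ → Q[X]) (hG : ∀ i < s, (G i).natDegree ≤ (s - i) * E) (ν : ℕ) :
    ∀ i < s, i ≤ ν → (num s (fun P => Δ * D P) (D Δ) G ν i).natDegree ≤ (ν - i) * E ∧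
      (num s (fun P => Δ * D P) (D Δ) G ν i).coeff ((ν - i) * E) =
        num s (fun _ => 0) (0 : Q) (fun i => (G i).coeff ((s - i) * E)) ν i := by
  have hD0 : D 0 = 0 := by
    ext n
    rw [hD]
    simp [hd0]
  have hz : ∀ ν i, ν < i → i < s → num s (fun P => Δ * D P) (D Δ) G ν i = 0 :=
    fun ν => num_eq_zero_of_lt s _ (by simp [hD0]) _ G ν
  have hz' : ∀ ν i, ν < i → i < s → num s (fun _ => 0) (0 : Q)
      (fun i => (G i).coeff ((s - i) * E)) ν i = 0 :=
    fun ν => num_eq_zero_of_lt s _ rfl _ _ ν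
  have hDΔ : (D Δ).natDegree < E := lt_of_le_of_lt (natDegree_le_of_coeffwise d hd0 D hD Δ) hΔ
  induction ν with
  | zero =>
    intro i hi h0
    have : i = 0 := by omega
    subst this
    simp [num_zero]
  | succ ν ih =>
    intro i hi hiν
    -- the four terms
    have t1 : (Δ * D (num s (fun P => Δ * D P) (D Δ) G ν i)) = 0 ∨
        (Δ * D (num s (fun P => Δ * D P) (D Δ) G ν i)).natDegree < (ν + 1 - i) * E := by
      rcases Nat.lt_or_ge ν i with hlt | hge
      · left
        rw [hz ν i hlt hi, hD0, mul_zero]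
      · right
        refine lt_of_le_of_lt natDegree_mul_le ?_
        have h1 := (ih i hi hge).1
        have h2 := natDegree_le_of_coeffwise d hd0 D hD (num s (fun P => Δ * D P) (D Δ) G ν i)
        have h3 : (ν + 1 - i) * E = (ν - i) * E + E := by
          rw [show ν + 1 - i = (ν - i) + 1 by omega]; ring
        omega
    have t2 : ((((ν : ℤ) - (i : ℤ) : ℤ) : Q[X]) * D Δ * num s (fun P => Δ * D P) (D Δ) G ν i) = 0 ∨
        ((((ν : ℤ) - (i : ℤ) : ℤ) : Q[X]) * D Δ *
          num s (fun P => Δ * D P) (D Δ) G ν i).natDegree < (ν + 1 - i) * E := by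
      rcases Nat.lt_or_ge ν i with hlt | hge
      · left
        rw [hz ν i hlt hi, mul_zero]
      · right
        refine lt_of_le_of_lt natDegree_mul_le ?_
        have h1 := (ih i hi hge).1
        have h2 : ((((ν : ℤ) - (i : ℤ) : ℤ) : Q[X]) * D Δ).natDegree ≤ (D Δ).natDegree := by
          refine le_trans natDegree_mul_le ?_
          rw [natDegree_intCast]
          omega
        have h3 : (ν + 1 - i) * E = (ν - i) * E + E := by
          rw [show ν + 1 - i = (ν - i) + 1 by omega]; ring
        omega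
    have t3 : (if i = 0 then 0 else num s (fun P => Δ * D P) (D Δ) G ν (i - 1)).natDegree ≤
          (ν + 1 - i) * E ∧
        (if i = 0 then 0 else num s (fun P => Δ * D P) (D Δ) G ν (i - 1)).coeff
          ((ν + 1 - i) * E) =
        (if i = 0 then 0 else num s (fun _ => 0) (0 : Q)
          (fun i => (G i).coeff ((s - i) * E)) ν (i - 1)) := by
      by_cases h0 : i = 0
      · simp [h0]
      · simp only [h0, if_false]
        have h1 := ih (i - 1) (by omega) (by omega)
        rw [show ν - (i - 1) = ν + 1 - i by omega] at h1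
        exact h1
    have t4 : (G i * num s (fun P => Δ * D P) (D Δ) G ν (s - 1)).natDegree ≤
          (ν + 1 - i) * E ∧
        (G i * num s (fun P => Δ * D P) (D Δ) G ν (s - 1)).coeff ((ν + 1 - i) * E) =
          (G i).coeff ((s - i) * E) * num s (fun _ => 0) (0 : Q)
            (fun i => (G i).coeff ((s - i) * E)) ν (s - 1) := by
      rcases Nat.lt_or_ge ν (s - 1) with hlt | hge
      · rw [hz ν (s - 1) hlt (by omega), hz' ν (s - 1) hlt (by omega)]
        simp
      · have h1 := ih (s - 1) (by omega) hge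
        have h3 : (ν + 1 - i) * E = (s - i) * E + (ν - (s - 1)) * E := by
          rw [← add_mul]
          congr 1
          omega
        rw [h3]
        refine ⟨le_trans natDegree_mul_le (add_le_add (hG i hi) h1.1), ?_⟩
        rw [coeff_mul_add_eq_of_natDegree_le (hG i hi) h1.1, h1.2]
    obtain ⟨a1, b1⟩ := small_of_lt t1
    obtain ⟨a2, b2⟩ := small_of_lt t2
    rw [num_succ, num_succ]
    constructor
    · refine le_trans (natDegree_sub_le _ _) (max_le ?_ t4.1)
      refine le_trans (natDegree_add_le _ _) (max_le ?_ t3.1)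
      exact le_trans (natDegree_sub_le _ _) (max_le a1 a2)
    · rw [coeff_sub, coeff_add, coeff_sub, b1, b2, t3.2, t4.2]
      simp

/-- Degrees of the numerators when the coefficients are small. -/
theorem num_natDegree_le (d : Q → Q) (hd0 : d 0 = 0) (D : Q[X] → Q[X])
    (hD : ∀ P n, (D P).coeff n = d (P.coeff n)) (s : ℕ) (Δ : Q[X])
    (G : ℕ → Q[X]) (hG : ∀ i < s, (G i).natDegree ≤ (s - i) * Δ.natDegree) (ν : ℕ) :
    ∀ i < s, i ≤ ν → (num s (fun P => Δ * D P) (D Δ) G ν i).natDegree ≤
      (ν - i) * Δ.natDegree := by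
  have hD0 : D 0 = 0 := by
    ext n
    rw [hD]
    simp [hd0]
  have hz : ∀ ν i, ν < i → i < s → num s (fun P => Δ * D P) (D Δ) G ν i = 0 :=
    fun ν => num_eq_zero_of_lt s _ (by simp [hD0]) _ G ν
  have hDΔ : (D Δ).natDegree ≤ Δ.natDegree := natDegree_le_of_coeffwise d hd0 D hD Δ
  induction ν with
  | zero =>
    intro i hi h0
    have : i = 0 := by omega
    subst this
    simp [num_zero]
  | succ ν ih =>
    intro i hi hiν
    have t1 : (Δ * D (num s (fun P => Δ * D P) (D Δ) G ν i)).natDegree ≤
        (ν + 1 - i) * Δ.natDegree := by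
      rcases Nat.lt_or_ge ν i with hlt | hge
      · rw [hz ν i hlt hi, hD0, mul_zero]
        simp
      · refine le_trans natDegree_mul_le ?_
        have h1 := ih i hi hge
        have h2 := natDegree_le_of_coeffwise d hd0 D hD (num s (fun P => Δ * D P) (D Δ) G ν i)
        have h3 : (ν + 1 - i) * Δ.natDegree = (ν - i) * Δ.natDegree + Δ.natDegree := by
          rw [show ν + 1 - i = (ν - i) + 1 by omega]; ring
        omega
    have t2 : ((((ν : ℤ) - (i : ℤ) : ℤ) : Q[X]) * D Δ *
          num s (fun P => Δ * D P) (D Δ) G ν i).natDegree ≤ (ν + 1 - i) * Δ.natDegree := by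
      rcases Nat.lt_or_ge ν i with hlt | hge
      · rw [hz ν i hlt hi, mul_zero]
        simp
      · refine le_trans natDegree_mul_le ?_
        have h1 := ih i hi hge
        have h2 : ((((ν : ℤ) - (i : ℤ) : ℤ) : Q[X]) * D Δ).natDegree ≤ (D Δ).natDegree := by
          refine le_trans natDegree_mul_le ?_
          rw [natDegree_intCast]
          omega
        have h3 : (ν + 1 - i) * Δ.natDegree = (ν - i) * Δ.natDegree + Δ.natDegree := by
          rw [show ν + 1 - i = (ν - i) + 1 by omega]; ring
        omega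
    have t3 : (if i = 0 then 0 else num s (fun P => Δ * D P) (D Δ) G ν (i - 1)).natDegree ≤
          (ν + 1 - i) * Δ.natDegree := by
      by_cases h0 : i = 0
      · simp [h0]
      · simp only [h0, if_false]
        have h1 := ih (i - 1) (by omega) (by omega)
        rw [show ν - (i - 1) = ν + 1 - i by omega] at h1
        exact h1
    have t4 : (G i * num s (fun P => Δ * D P) (D Δ) G ν (s - 1)).natDegree ≤
          (ν + 1 - i) * Δ.natDegree := by
      rcases Nat.lt_or_ge ν (s - 1) with hlt | hge
      · rw [hz ν (s - 1) hlt (by omega)]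
        simp
      · have h1 := ih (s - 1) (by omega) hge
        have h3 : (ν + 1 - i) * Δ.natDegree =
            (s - i) * Δ.natDegree + (ν - (s - 1)) * Δ.natDegree := by
          rw [← add_mul]
          congr 1
          omega
        rw [h3]
        exact le_trans natDegree_mul_le (add_le_add (hG i hi) h1)
    rw [num_succ]
    refine le_trans (natDegree_sub_le _ _) (max_le ?_ t4)
    refine le_trans (natDegree_add_le _ _) (max_le ?_ t3)
    exact le_trans (natDegree_sub_le _ _) (max_le t1 t2)

end TopCoeff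

section Nil

variable {Q : Type*} [CommRing Q]

theorem coeff_mem_of_mem_radical (p : ℕ) (P : Ideal Q) (hP : P.IsPrime) (hpP : (p : Q) ∈ P)
    (F : Q[X]) (hF : F ∈ (Ideal.span {(p : Q[X])}).radical) (n : ℕ) : F.coeff n ∈ P := by
  have h1 : (P.map (C : Q →+* Q[X])).IsPrime := Ideal.isPrime_map_C_of_isPrime
  have h2 : (Ideal.span {(p : Q[X])}).radical ≤ P.map (C : Q →+* Q[X]) := by
    rw [Ideal.IsPrime.radical_le_iff h1, Ideal.span_singleton_le_iff_mem]
    have := Ideal.mem_map_of_mem (C : Q →+* Q[X]) hpP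
    simpa using this
  exact Ideal.mem_map_C_iff.1 (h2 hF) n

theorem natDegree_le_of_nilpotent [IsDomain Q] [CharZero Q] [Algebra.FiniteType ℤ Q]
    (d : Q → Q) (hd0 : d 0 = 0) (D : Q[X] → Q[X]) (hD : ∀ P n, (D P).coeff n = d (P.coeff n))
    (s : ℕ) (Δ : Q[X]) (G : ℕ → Q[X])
    (h : ∃ᶠ p : ℕ in atTop, p.Prime ∧ ∃ n, ∀ i < s,
      num s (fun P => Δ * D P) (D Δ) G n i ∈ (Ideal.span {(p : Q[X])}).radical) :
    ∀ i < s, (G i).natDegree ≤ (s - i) * Δ.natDegree := by
  classical
  by_contra hcon
  push Not at hcon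
  obtain ⟨i1, hi1, hlt1⟩ := hcon
  have hs : 0 < s := by omega
  -- maximal slope
  obtain ⟨i0, hi0, hmax⟩ := Finset.exists_max_image (Finset.range s)
    (fun i => ((G i).natDegree : ℚ) / ((s - i : ℕ) : ℚ)) ⟨i1, Finset.mem_range.2 hi1⟩
  rw [Finset.mem_range] at hi0
  have hpos : ∀ i < s, (0 : ℚ) < ((s - i : ℕ) : ℚ) := fun i hi => by
    have : 0 < s - i := by omega
    exact_mod_cast this
  have hmax' : ∀ i < s, (G i).natDegree * (s - i0) ≤ (G i0).natDegree * (s - i) := by
    intro i hi
    have := hmax i (Finset.mem_range.2 hi)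
    rw [div_le_div_iff₀ (hpos i hi) (hpos i0 hi0)] at this
    exact_mod_cast this
  have hlt0 : (s - i0) * Δ.natDegree < (G i0).natDegree := by
    have h1 := hmax' i1 hi1
    have h2 : 0 < s - i0 := by omega
    have h3 : 0 < s - i1 := by omega
    by_contra hle
    push Not at hle
    have h4 : (s - i1) * Δ.natDegree * (s - i0) < (G i1).natDegree * (s - i0) :=
      Nat.mul_lt_mul_of_pos_right hlt1 h2
    have h5 : (G i0).natDegree * (s - i1) ≤ (s - i0) * Δ.natDegree * (s - i1) :=
      Nat.mul_le_mul_right _ hle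
    have h6 : (s - i1) * Δ.natDegree * (s - i0) = (s - i0) * Δ.natDegree * (s - i1) := by ring
    omega
  set N := s - i0 with hN
  have hN0 : 0 < N := by omega
  set E := (G i0).natDegree with hE
  let G' : ℕ → Q[X] := fun i => expand Q N (G i)
  let Δ' : Q[X] := expand Q N Δ
  have hG' : ∀ i < s, (G' i).natDegree ≤ (s - i) * E := by
    intro i hi
    simp only [G']
    rw [natDegree_expand]
    have := hmax' i hi
    rw [mul_comm E] at this
    exact this
  have hΔ' : Δ'.natDegree < E := by
    simp only [Δ']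
    rw [natDegree_expand, mul_comm]
    exact hlt0
  have hDexp : ∀ P : Q[X], D (expand Q N P) = expand Q N (D P) := by
    intro P
    ext n
    rw [hD, coeff_expand hN0, coeff_expand hN0]
    split_ifs with hdvd
    · rw [hD]
    · exact hd0
  have hnum : ∀ n, ∀ i < s, num s (fun P => Δ' * D P) (D Δ') G' n i =
      expand Q N (num s (fun P => Δ * D P) (D Δ) G n i) := by
    intro n i hi
    have := num_transform s hs (fun P => Δ * D P) (D Δ) G (fun P => Δ' * D P) (D Δ') G'
      (expand Q N : Q[X] →+* Q[X]) 1 ?_ ?_ ?_ ?_ n i hi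
    · simpa using this
    · intro a
      simp only [Δ', RingHom.coe_coe, one_mul, map_mul]
      rw [hDexp]
    · intro k x
      simp
    · simp only [Δ', RingHom.coe_coe, one_mul]
      exact hDexp Δ
    · intro i _
      simp [G']
  let γ : ℕ → Q := fun i => (G' i).coeff ((s - i) * E)
  have hγ0 : γ i0 ≠ 0 := by
    simp only [γ, G']
    rw [← hN, mul_comm N E, coeff_expand_mul hN0, hE]
    have : G i0 ≠ 0 := by
      intro h0
      rw [hE, h0, natDegree_zero] at hlt0
      omega
    rw [coeff_natDegree]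
    exact leadingCoeff_ne_zero.2 this
  have hev := eventually_exists_prime_notMem (γ i0) hγ0
  obtain ⟨p, ⟨hp, n, hn⟩, hp2⟩ := (h.and_eventually hev).exists
  obtain ⟨P, hP, hpP, hγP⟩ := hp2 hp
  apply hγP
  -- reduce modulo `P`
  have hred : ∀ i < s, num s (fun _ => 0) (0 : Q ⧸ P) (fun i => Ideal.Quotient.mk P (γ i)) n i = 0 := by
    intro i hi
    have h1 : num s (fun _ => 0) (0 : Q ⧸ P) (fun i => Ideal.Quotient.mk P (γ i)) n i =
        Ideal.Quotient.mk P (num s (fun _ => 0) (0 : Q) γ n i) := by
      have := num_transform s hs (fun _ => (0 : Q)) 0 γ (fun _ => (0 : Q ⧸ P)) 0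
        (fun i => Ideal.Quotient.mk P (γ i)) (Ideal.Quotient.mk P) 1
        (by simp) (by simp) (by simp) (by simp) n i hi
      simpa using this
    rw [h1, Ideal.Quotient.eq_zero_iff_mem]
    rcases Nat.lt_or_ge n i with hlt | hge
    · rw [num_eq_zero_of_lt s (fun _ => (0 : Q)) rfl 0 γ n i hlt hi]
      exact P.zero_mem
    · have h2 := (num_top d hd0 D hD s E Δ' hΔ' G' hG' n i hi hge).2
      rw [← h2, hnum n i hi]
      have h3 : expand Q N (num s (fun P => Δ * D P) (D Δ) G n i) ∈
          (Ideal.span {(p : Q[X])}).radical := by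
        obtain ⟨k, hk⟩ := hn i hi
        refine ⟨k, ?_⟩
        rw [← map_pow]
        rw [Ideal.mem_span_singleton] at hk ⊢
        obtain ⟨c, hc⟩ := hk
        refine ⟨expand Q N c, ?_⟩
        rw [hc, map_mul, map_natCast]
      exact coeff_mem_of_mem_radical p P hP hpP _ h3 _
  have := coeff_zero_of_num_zero s hs (fun i => Ideal.Quotient.mk P (γ i)) n hred i0 hi0
  exact Ideal.Quotient.eq_zero_iff_mem.1 this

end Nil

end Helper12
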