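import Mathlib
import Pool.Agent.Helper12.ConstDeg
import Pool.Agent.Helper12.ConstCyclic

namespace Helper12

open Polynomial Filter

section Xi

variable {O : Type*} [CommRing O] {m : ℕ}

/-- the substitution `t_j ↦ t_j X` -/
noncomputable def Xi : MvPolynomial (Fin m) O →+* (MvPolynomial (Fin m) O)[X] :=
  MvPolynomial.eval₂Hom ((Polynomial.C).comp MvPolynomial.C)
    (fun i => Polynomial.C (MvPolynomial.X i) * Polynomial.X)

theorem Xi_C (a : O) : Xi (m := m) (MvPolynomial.C a) = Polynomial.C (MvPolynomial.C a) := by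
  simp [Xi]

theorem Xi_X (i : Fin m) : Xi (O := O) (MvPolynomial.X i) =
    Polynomial.C (MvPolynomial.X i) * Polynomial.X := by
  simp [Xi]

theorem eval_one_Xi (P : MvPolynomial (Fin m) O) : (Xi P).eval 1 = P := by
  have : (Polynomial.evalRingHom (1 : MvPolynomial (Fin m) O)).comp (Xi (O := O) (m := m)) =
      RingHom.id _ := by
    apply MvPolynomial.ringHom_ext
    · intro r
      simp [Xi_C]
    · intro i
      simp [Xi_X]
  have h := congrArg (fun f => f P) this
  simpa using h

theorem Xi_injective : Function.Injective (Xi (O := O) (m := m)) := by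
  intro a b h
  rw [← eval_one_Xi a, ← eval_one_Xi b, h]

theorem Xi_monomial (α : Fin m →₀ ℕ) (a : O) :
    Xi (MvPolynomial.monomial α a) = Polynomial.monomial α.degree (MvPolynomial.monomial α a) := by
  rw [Xi, MvPolynomial.eval₂Hom_monomial, RingHom.comp_apply]
  simp only [mul_pow, ← Polynomial.C_pow]
  rw [Finsupp.prod_mul, ← Polynomial.C_mul_X_pow_eq_monomial]
  have h1 : (α.prod fun i k => (Polynomial.X : (MvPolynomial (Fin m) O)[X]) ^ k) =
      Polynomial.X ^ α.degree := by
    rw [Finsupp.prod, Finset.prod_pow_eq_pow_sum]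
    rfl
  have h2 : (α.prod fun i k => Polynomial.C ((MvPolynomial.X i : MvPolynomial (Fin m) O) ^ k)) =
      Polynomial.C (α.prod fun i k => (MvPolynomial.X i : MvPolynomial (Fin m) O) ^ k) := by
    rw [Finsupp.prod, Finsupp.prod, map_prod]
  rw [h1, h2, ← mul_assoc, ← Polynomial.C_mul, ← MvPolynomial.monomial_eq]

theorem coeff_Xi (P : MvPolynomial (Fin m) O) (k : ℕ) :
    (Xi P).coeff k = MvPolynomial.homogeneousComponent k P := by
  induction P using MvPolynomial.induction_on' with
  | monomial α a =>
    rw [Xi_monomial, Polynomial.coeff_monomial]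
    split_ifs with h
    · subst h
      rw [MvPolynomial.homogeneousComponent_of_mem
        ((MvPolynomial.mem_homogeneousSubmodule _ _).2
          (MvPolynomial.isHomogeneous_monomial a rfl)), if_pos rfl]
    · rw [MvPolynomial.homogeneousComponent_of_mem
        ((MvPolynomial.mem_homogeneousSubmodule _ _).2
          (MvPolynomial.isHomogeneous_monomial a rfl)), if_neg (Ne.symm h)]
  | add p q hp hq => rw [map_add, Polynomial.coeff_add, hp, hq, map_add]

theorem totalDegree_le_natDegree_Xi (P : MvPolynomial (Fin m) O) :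
    P.totalDegree ≤ (Xi P).natDegree := by
  conv_lhs => rw [← MvPolynomial.sum_homogeneousComponent P]
  refine le_trans (MvPolynomial.totalDegree_finsetSum _ _) ?_
  apply Finset.sup_le
  intro i _
  by_cases h : MvPolynomial.homogeneousComponent i P = 0
  · rw [h]; simp
  · rw [(MvPolynomial.homogeneousComponent_isHomogeneous i P).totalDegree h]
    apply Polynomial.le_natDegree_of_ne_zero
    rw [coeff_Xi]
    exact h

end Xi

section Bound

variable {O : Type*} [CommRing O] [IsDomain O] [CharZero O] [Algebra.FiniteType ℤ O] {m : ℕ}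

theorem eventually_cancel {A : Type*} [CommRing A] [IsDomain A] [CharZero A]
    [Algebra.FiniteType ℤ A] (q : A) (hq : q ≠ 0) :
    ∀ᶠ p : ℕ in atTop, p.Prime → ∀ (k : ℕ) (x : A), q ^ k * x ∈ (Ideal.span {(p : A)}).radical →
      x ∈ (Ideal.span {(p : A)}).radical := by
  haveI := finiteType_isNoetherian A
  filter_upwards [eventually_exists_prime_le q hq] with p hp hpp k x hx
  rw [Ideal.radical_eq_sInf, Ideal.mem_sInf]
  rintro I ⟨hI1, hI2⟩
  obtain ⟨P, hP, hPI, hpP, hqP⟩ := hp hpp I hI2 ((Ideal.span_singleton_le_iff_mem _).1 hI1)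
  apply hPI
  have h1 : q ^ k * x ∈ P := by
    have : (Ideal.span {(p : A)}).radical ≤ P := by
      rw [Ideal.IsPrime.radical_le_iff hP, Ideal.span_singleton_le_iff_mem]
      exact hpP
    exact this hx
  rcases hP.mem_or_mem h1 with h2 | h2
  · exact absurd (hP.mem_of_pow_mem _ h2) hqP
  · exact h2

theorem finiteType_mvPolynomial (O : Type*) [CommRing O] [Algebra.FiniteType ℤ O] (m : ℕ) :
    @Algebra.FiniteType ℤ (MvPolynomial (Fin m) O) _ _ (Ring.toIntAlgebra _) := by
  have h : Algebra.FiniteType ℤ (MvPolynomial (Fin m) O) :=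
    Algebra.FiniteType.trans (S := O) inferInstance inferInstance
  rw [← RingHom.finiteType_algebraMap] at h ⊢
  convert h using 1
  exact Subsingleton.elim _ _

theorem totalDegree_bound (dS : Derivation ℤ (MvPolynomial (Fin m) O) (MvPolynomial (Fin m) O))
    (δ : O → O) (hdC : ∀ a, dS (MvPolynomial.C a) = MvPolynomial.C (δ a))
    (hdX : ∀ i, dS (MvPolynomial.X i) = 0) (s : ℕ) (hs : 0 < s) (q : MvPolynomial (Fin m) O)
    (hq : q ≠ 0) (G : ℕ → MvPolynomial (Fin m) O) (y : ℕ → ℕ → MvPolynomial (Fin m) O)
    (hy : ∀ n, ∀ i < s, q ^ (i + 1) * num s (fun P => q * dS P) (dS q) G n i = q ^ n * y n i)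
    (h : ∃ᶠ p : ℕ in atTop, p.Prime ∧ ∃ n, ∀ i < s,
      (p : MvPolynomial (Fin m) O) ∣ y n i) :
    ∀ n, ∀ i < s, (y n i).totalDegree ≤ (Xi q).natDegree := by
  classical
  let S := MvPolynomial (Fin m) O
  haveI : CharZero S := inferInstance
  haveI : @Algebra.FiniteType ℤ S _ _ (Ring.toIntAlgebra S) := finiteType_mvPolynomial O m
  let inst : Differential S := ⟨dS⟩
  let D : Derivation ℤ S[X] S[X] := Differential.mapCoeffs
  have hD : ∀ (P : S[X]) n, (D P).coeff n = dS (P.coeff n) := fun P n =>
    Differential.coeff_mapCoeffs P n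
  have hDXi : ∀ P : S, D (Xi P) = Xi (dS P) := by
    intro P
    induction P using MvPolynomial.induction_on with
    | C a =>
      rw [Xi_C, hdC, Xi_C]
      ext1 n
      rw [hD, Polynomial.coeff_C, Polynomial.coeff_C]
      split_ifs
      · rw [hdC]
      · rw [map_zero]
    | add p q hp hq => rw [map_add, map_add, map_add, map_add, hp, hq]
    | mul_X p i hp =>
      rw [map_mul, Derivation.leibniz, Derivation.leibniz, hp, hdX, Xi_X]
      have h1 : D (Polynomial.C (MvPolynomial.X i) * Polynomial.X) = 0 := by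
        ext1 n
        rw [hD, Polynomial.coeff_C_mul_X, Polynomial.coeff_zero]
        split_ifs
        · exact hdX i
        · exact map_zero _
      rw [h1, smul_eq_mul, smul_eq_mul, smul_eq_mul, smul_eq_mul, mul_zero, mul_zero, zero_add,
        zero_add, map_mul, Xi_X]
  have hXinj := Xi_injective (O := O) (m := m)
  have hΔ0 : Xi q ≠ 0 := by
    intro h0
    exact hq (hXinj (by rw [h0, map_zero]))
  have hnum : ∀ n, ∀ i < s, num s (fun P => Xi q * D P) (D (Xi q)) (fun i => Xi (G i)) n i =
      Xi (num s (fun P => q * dS P) (dS q) G n i) := by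
    intro n i hi
    have := num_transform s hs (fun P => q * dS P) (dS q) G (fun P => Xi q * D P) (D (Xi q))
      (fun i => Xi (G i)) (Xi (O := O) (m := m)) 1 (fun a => by rw [one_mul, map_mul, hDXi])
      (fun k x => by simp) (by rw [one_mul, hDXi]) (fun i _ => by simp) n i hi
    simpa using this
  have hdeg := natDegree_le_of_nilpotent (Q := S) dS (map_zero _) D hD s (Xi q)
    (fun i => Xi (G i)) (by
      refine (h.and_eventually (eventually_cancel (A := S) q hq)).mono ?_
      rintro p ⟨⟨hp, n, hn⟩, hc⟩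
      refine ⟨hp, n, ?_⟩
      intro i hi
      rw [hnum n i hi]
      have h1 : num s (fun P => q * dS P) (dS q) G n i ∈ (Ideal.span {(p : S)}).radical := by
        apply hc hp (i + 1)
        rw [hy n i hi]
        apply Ideal.le_radical
        rw [Ideal.mem_span_singleton]
        exact Dvd.dvd.mul_left (hn i hi) _
      obtain ⟨k, hk⟩ := h1
      refine ⟨k, ?_⟩
      rw [← map_pow]
      rw [Ideal.mem_span_singleton] at hk ⊢
      obtain ⟨c, hc'⟩ := hk
      refine ⟨Xi c, ?_⟩
      rw [hc', map_mul, map_natCast])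
  have hnd := num_natDegree_le (Q := S) dS (map_zero _) D hD s (Xi q) (fun i => Xi (G i)) hdeg
  intro n i hi
  refine le_trans (totalDegree_le_natDegree_Xi _) ?_
  by_cases hy0 : y n i = 0
  · rw [hy0, map_zero]; simp
  have hXy0 : Xi (y n i) ≠ 0 := fun h0 => hy0 (hXinj (by rw [h0, map_zero]))
  rcases Nat.lt_or_ge n i with hlt | hge
  · exfalso
    have h1 := hy n i hi
    rw [num_eq_zero_of_lt s (fun P => q * dS P) (by simp) (dS q) G n i hlt hi, mul_zero] at h1
    exact (mul_ne_zero (pow_ne_zero _ hq) hy0) h1.symm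
  · have h1 := congrArg Xi (hy n i hi)
    rw [map_mul, map_mul, map_pow, map_pow, ← hnum n i hi] at h1
    have h2 := hnd n i hi hge
    have hN0 : num s (fun P => Xi q * D P) (D (Xi q)) (fun i => Xi (G i)) n i ≠ 0 := by
      intro h0
      rw [h0, mul_zero] at h1
      exact (mul_ne_zero (pow_ne_zero _ hΔ0) hXy0) h1.symm
    have h3 := congrArg Polynomial.natDegree h1
    rw [Polynomial.natDegree_mul (pow_ne_zero _ hΔ0) hN0,
      Polynomial.natDegree_mul (pow_ne_zero _ hΔ0) hXy0, Polynomial.natDegree_pow,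
      Polynomial.natDegree_pow] at h3
    have h4 : (i + 1) * (Xi q).natDegree + (n - i) * (Xi q).natDegree =
        n * (Xi q).natDegree + (Xi q).natDegree := by
      rw [← add_mul]
      have : i + 1 + (n - i) = n + 1 := by omega
      rw [this]
      ring
    omega

end Bound

end Helper12
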