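import Mathlib

namespace Helper12

open TrivSqZeroExt

theorem exists_der_fraction {C F : Type*} [CommRing C] [IsDomain C] [Field F] [Algebra C F]
    [IsFractionRing C F] (D : Derivation ℤ C C) :
    ∃ D' : Derivation ℤ F F, ∀ c, D' (algebraMap C F c) = algebraMap C F (D c) := by
  let φ : C →+* TrivSqZeroExt F F :=
    { toFun := fun c => inl (algebraMap C F c) + inr (algebraMap C F (D c))
      map_one' := by
        apply TrivSqZeroExt.ext
        · rw [fst_add, fst_inl, fst_inr, add_zero, map_one, fst_one]
        · rw [snd_add, snd_inl, snd_inr, zero_add, D.map_one_eq_zero, map_zero, snd_one]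
      map_zero' := by
        apply TrivSqZeroExt.ext
        · rw [fst_add, fst_inl, fst_inr, add_zero, map_zero, fst_zero]
        · rw [snd_add, snd_inl, snd_inr, zero_add, map_zero, map_zero, snd_zero]
      map_add' := fun a b => by
        apply TrivSqZeroExt.ext
        · simp only [fst_add, fst_inl, fst_inr, add_zero, map_add]
        · simp only [snd_add, snd_inl, snd_inr, zero_add, map_add]
      map_mul' := fun a b => by
        apply TrivSqZeroExt.ext
        · simp only [fst_add, fst_inl, fst_inr, add_zero, map_mul, fst_mul]
        · simp only [snd_add, snd_inl, snd_inr, zero_add, snd_mul, fst_add, fst_inl, fst_inr,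
            add_zero, Derivation.leibniz, smul_eq_mul, map_add, map_mul, MulOpposite.smul_eq_mul_unop,
            MulOpposite.unop_op]
          ring }
  have hφ : ∀ c, φ c = inl (algebraMap C F c) + inr (algebraMap C F (D c)) := fun c => rfl
  have hunit : ∀ y : nonZeroDivisors C, IsUnit (φ y) := by
    intro y
    rw [isUnit_iff_isUnit_fst, hφ]
    simp only [fst_add, fst_inl, fst_inr, add_zero]
    rw [isUnit_iff_ne_zero]
    intro h0
    exact nonZeroDivisors.ne_zero y.2 (IsFractionRing.injective C F (by rw [h0, map_zero]))
  let Φ : F →+* TrivSqZeroExt F F := IsLocalization.lift (M := nonZeroDivisors C) hunit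
  have hΦ : ∀ c, Φ (algebraMap C F c) = φ c := fun c => IsLocalization.lift_eq hunit c
  have hfst : ∀ z, (Φ z).fst = z := by
    have h1 : (fstHom F F F).toRingHom.comp Φ = RingHom.id F := by
      apply IsLocalization.ringHom_ext (nonZeroDivisors C)
      ext c
      simp only [RingHom.comp_apply, hΦ, hφ]
      simp
    intro z
    exact congrArg (fun f => f z) h1
  refine ⟨Derivation.mk' ((AddMonoidHom.mk' (fun z => (Φ z).snd) (fun a b => by simp)).toIntLinearMap)
    (fun a b => ?_), ?_⟩
  · change (Φ (a * b)).snd = a • (Φ b).snd + b • (Φ a).snd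
    rw [map_mul, snd_mul, hfst, hfst]
    simp only [smul_eq_mul, MulOpposite.smul_eq_mul_unop, MulOpposite.unop_op]
    ring
  · intro c
    change (Φ (algebraMap C F c)).snd = _
    rw [hΦ, hφ, snd_add, snd_inl, snd_inr, zero_add]

end Helper12
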