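import Mathlib
import Pool.Agent.Helper12.ConstBound

namespace Helper12

open Filter

section

variable {O : Type*} [CommRing O] {m : ℕ}

theorem fg_totalDegree_le (D : ℕ) : ∃ B : Submodule O (MvPolynomial (Fin m) O), B.FG ∧
    ∀ P : MvPolynomial (Fin m) O, P.totalDegree ≤ D → P ∈ B := by
  classical
  refine ⟨Submodule.span O (((Finset.Iic (Finsupp.equivFunOnFinite.symm (fun _ : Fin m => D))).image
    (fun α => MvPolynomial.monomial α (1 : O)) : Finset _) : Set (MvPolynomial (Fin m) O)),
    ⟨_, rfl⟩, ?_⟩
  intro P hP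
  rw [MvPolynomial.as_sum P]
  apply Submodule.sum_mem
  intro α hα
  have h1 : MvPolynomial.monomial α (MvPolynomial.coeff α P) =
      (MvPolynomial.coeff α P) • MvPolynomial.monomial α (1 : O) := by
    rw [MvPolynomial.smul_monomial, smul_eq_mul, mul_one]
  rw [h1]
  apply Submodule.smul_mem
  apply Submodule.subset_span
  rw [Finset.coe_image]
  refine ⟨α, ?_, rfl⟩
  rw [Finset.mem_coe, Finset.mem_Iic]
  intro i
  have h2 := MvPolynomial.le_totalDegree hα
  have h3 : α i ≤ α.degree := Finsupp.le_degree i α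
  have h4 : (α.sum fun _ e => e) = α.degree := rfl
  simp only [Finsupp.equivFunOnFinite_symm_apply_apply]
  omega

variable [IsDomain O] [CharZero O] [Algebra.FiniteType ℤ O]
  {L V : Type*} [Field L] [Algebra (MvPolynomial (Fin m) O) L]
  [IsFractionRing (MvPolynomial (Fin m) O) L] [AddCommGroup V] [Module L V]
  [Module (MvPolynomial (Fin m) O) V] [IsScalarTower (MvPolynomial (Fin m) O) L V]
  [Module O V] [IsScalarTower O (MvPolynomial (Fin m) O) V]

theorem cyclic_fg (dS : Derivation ℤ (MvPolynomial (Fin m) O) (MvPolynomial (Fin m) O))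
    (δ : O → O) (hdC : ∀ a, dS (MvPolynomial.C a) = MvPolynomial.C (δ a))
    (hdX : ∀ i, dS (MvPolynomial.X i) = 0) (dL : Derivation ℤ L L)
    (hd : ∀ a, dL (algebraMap _ L a) = algebraMap _ L (dS a))
    (nab : V →+ V) (hnab : ∀ (l : L) (v : V), nab (l • v) = dL l • v + l • nab v)
    (E : Submodule (MvPolynomial (Fin m) O) V) (hfg : E.FG) (hE : ∀ v ∈ E, nab v ∈ E)
    (h : ∃ᶠ p : ℕ in atTop, p.Prime ∧ ∃ n, ∀ v ∈ E, ∃ e' ∈ E,
      nab^[n] v = (p : MvPolynomial (Fin m) O) • e')
    (e : V) (he : e ∈ E) :
    (Submodule.span O (Set.range fun n => nab^[n] e)).FG := by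
  classical
  by_cases he0 : e = 0
  · have : (Submodule.span O (Set.range fun n => nab^[n] e)) = ⊥ := by
      rw [Submodule.span_eq_bot]
      rintro x ⟨n, rfl⟩
      rw [he0]
      induction n with
      | zero => rfl
      | succ n ih =>
        simp only [Function.iterate_succ', Function.comp] at ih ⊢
        rw [ih, map_zero]
    rw [this]
    exact Submodule.fg_bot
  obtain ⟨s, q, G, y, hs, hq, hy, hexp, hdiv⟩ := cyclic_data dS dL hd nab hnab E hfg hE e he he0
  have hbound := totalDegree_bound dS δ hdC hdX s hs q hq G y hy (by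
    refine h.mono ?_
    rintro p ⟨hp, n, hn⟩
    refine ⟨hp, n, fun i hi => hdiv n p ?_ i hi⟩
    obtain ⟨e', he', h1⟩ := hn e he
    exact ⟨e', he', h1⟩)
  obtain ⟨B, hB, hBmem⟩ := fg_totalDegree_le (O := O) (m := m) (Xi q).natDegree
  haveI : IsNoetherianRing O := finiteType_isNoetherian O
  -- the finitely generated module containing everything
  let f : ℕ → (MvPolynomial (Fin m) O →ₗ[O] V) := fun i =>
    (LinearMap.toSpanSingleton (MvPolynomial (Fin m) O) V (nab^[i] e)).restrictScalars O
  let Λ : Submodule O V := ⨆ i ∈ Finset.range s, B.map (f i)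
  have hΛ : Λ.FG := by
    apply Submodule.fg_biSup
    intro i _
    exact hB.map _
  have hmem : ∀ n, algebraMap _ L q • nab^[n] e ∈ Λ := by
    intro n
    rw [hexp n]
    apply Submodule.sum_mem
    intro i hi
    have h1 : algebraMap _ L (y n i) • nab^[i] e = f i (y n i) := by
      simp only [f, LinearMap.coe_restrictScalars, LinearMap.toSpanSingleton_apply]
      rw [algebraMap_smul]
    rw [h1]
    have h2 : B.map (f i) ≤ Λ := le_biSup (fun i => B.map (f i)) hi
    exact h2 ⟨y n i, hBmem _ (hbound n i (Finset.mem_range.1 hi)), rfl⟩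
  let μ : V →ₗ[O] V :=
    { toFun := fun v => q • v
      map_add' := fun v w => smul_add _ _ _
      map_smul' := fun a v => by
        rw [RingHom.id_apply, ← algebraMap_smul (MvPolynomial (Fin m) O) a v,
          ← algebraMap_smul (MvPolynomial (Fin m) O) a (q • v), smul_smul, smul_smul, mul_comm] }
  have hμinj : Function.Injective μ := by
    rw [injective_iff_map_eq_zero]
    intro v hv
    have h1 : algebraMap _ L q • v = 0 := by
      rw [algebraMap_smul]; exact hv
    rcases smul_eq_zero.1 h1 with h2 | h2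
    · exfalso
      exact hq (IsFractionRing.injective (MvPolynomial (Fin m) O) L (by rw [h2, map_zero]))
    · exact h2
  apply Submodule.fg_of_fg_map_injective μ hμinj
  have hle : (Submodule.span O (Set.range fun n => nab^[n] e)).map μ ≤ Λ := by
    rw [Submodule.map_span, Submodule.span_le]
    rintro x ⟨v, ⟨n, rfl⟩, rfl⟩
    have := hmem n
    rw [algebraMap_smul] at this
    exact this
  haveI : IsNoetherian O Λ := isNoetherian_of_fg_of_noetherian Λ hΛ
  exact Submodule.FG.of_le hΛ hle

end

end Helper12
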