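import Mathlib

namespace Helper12

open Finset

section Ring

variable {E : Type*} [Ring E]

/-- the inner derivation, iterated -/
theorem ad_iterate (a b : E) (n : ℕ) :
    (fun c => a * c - c * a)^[n] b =
      ∑ k ∈ range (n + 1), ((-1 : ℤ) ^ k * (n.choose k : ℤ)) • (a ^ (n - k) * b * a ^ k) := by
  have hcomm : Commute (LinearMap.mulLeft ℤ a) (-LinearMap.mulRight ℤ a) := by
    have : Commute (LinearMap.mulLeft ℤ a) (LinearMap.mulRight ℤ a) := LinearMap.commute_mulLeft_right _ _
    exact this.neg_right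
  have h := hcomm.add_pow' n
  have h1 : ∀ m, (fun c => a * c - c * a)^[m] b =
      ((LinearMap.mulLeft ℤ a + -LinearMap.mulRight ℤ a) ^ m) b := by
    intro m
    induction m with
    | zero => simp
    | succ m ih =>
      rw [Function.iterate_succ', Function.comp, ih, pow_succ', Module.End.mul_apply]
      simp [sub_eq_add_neg]
  rw [h1, h, Finset.Nat.sum_antidiagonal_eq_sum_range_succ_mk, LinearMap.sum_apply, ← Finset.sum_flip]
  apply Finset.sum_congr rfl
  intro k hk
  rw [mem_range] at hk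
  have hk' : k ≤ n := by omega
  have hnk : n - (n - k) = k := by omega
  simp only [hnk]
  rw [LinearMap.smul_apply, Module.End.mul_apply, neg_pow, Nat.choose_symm hk']
  have h2 : ((-1 : E →ₗ[ℤ] E) ^ k * LinearMap.mulRight ℤ a ^ k) b = (-1 : ℤ) ^ k • (b * a ^ k) := by
    rw [LinearMap.pow_mulRight, Module.End.mul_apply, LinearMap.mulRight_apply]
    rcases Nat.even_or_odd k with h | h
    · rw [h.neg_one_pow, h.neg_one_pow]; simp
    · rw [h.neg_one_pow, h.neg_one_pow]; simp
  rw [h2, LinearMap.pow_mulLeft, map_smul, LinearMap.mulLeft_apply, ← natCast_zsmul, smul_smul,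
    mul_comm, mul_assoc]

theorem commutator_pow (a t : E) (n : ℕ) :
    t * a ^ n - a ^ n * t = ∑ k ∈ range n, a ^ (n - 1 - k) * (t * a - a * t) * a ^ k := by
  induction n with
  | zero => simp
  | succ n ih =>
    have h1 : t * a ^ (n + 1) - a ^ (n + 1) * t =
        a * (t * a ^ n - a ^ n * t) + (t * a - a * t) * a ^ n := by
      rw [pow_succ']; noncomm_ring
    rw [h1, ih, Finset.sum_range_succ, Finset.mul_sum]
    congr 1
    · apply Finset.sum_congr rfl
      intro k hk
      rw [mem_range] at hk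
      have : n + 1 - 1 - k = (n - 1 - k) + 1 := by omega
      rw [this, pow_succ']
      noncomm_ring
    · simp

theorem dvd_choose_pred (p : ℕ) (hp : p.Prime) (k : ℕ) (hk : k < p) :
    (p : ℤ) ∣ (-1 : ℤ) ^ k * ((p - 1).choose k : ℤ) - 1 := by
  induction k with
  | zero => simp
  | succ k ih =>
    have h1 := ih (by omega)
    have h2 : (p.choose (k + 1) : ℤ) = ((p - 1).choose k : ℤ) + ((p - 1).choose (k + 1) : ℤ) := by
      have h3 := Nat.choose_succ_succ (p - 1) k
      have h4 : (p - 1).succ = p := Nat.succ_pred_eq_of_pos hp.pos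
      rw [h4] at h3
      exact_mod_cast h3
    have h3 : (p : ℤ) ∣ (p.choose (k + 1) : ℤ) := by
      exact_mod_cast hp.dvd_choose_self (by omega) hk
    have h4 : (-1 : ℤ) ^ (k + 1) * ((p - 1).choose (k + 1) : ℤ) - 1 =
        ((-1 : ℤ) ^ k * ((p - 1).choose k : ℤ) - 1) - (-1) ^ k * (p.choose (k + 1) : ℤ) := by
      rw [h2, pow_succ]
      ring
    rw [h4]
    exact dvd_sub h1 (Dvd.dvd.mul_left h3 _)

/-- In characteristic `p`, `ad(a)^{p-1}([t,a]) = [t, a^p]`. -/
theorem ad_pred (p : ℕ) (hp : p.Prime) (a t : E) :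
    ∃ c : E, (fun c => a * c - c * a)^[p - 1] (t * a - a * t) =
      t * a ^ p - a ^ p * t + (p : E) * c := by
  have h : ∀ k ∈ range p, ∃ c : E, ((-1 : ℤ) ^ k * ((p - 1).choose k : ℤ)) •
      (a ^ (p - 1 - k) * (t * a - a * t) * a ^ k) =
      a ^ (p - 1 - k) * (t * a - a * t) * a ^ k + (p : E) * c := by
    intro k hk
    obtain ⟨e, he⟩ := dvd_choose_pred p hp k (mem_range.1 hk)
    refine ⟨(e : E) * (a ^ (p - 1 - k) * (t * a - a * t) * a ^ k), ?_⟩
    have h1 : (-1 : ℤ) ^ k * ((p - 1).choose k : ℤ) = 1 + (p : ℤ) * e := by linarith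
    rw [h1, add_smul, one_smul, mul_smul, zsmul_eq_mul, zsmul_eq_mul, Int.cast_natCast]
  choose! c hc using h
  refine ⟨∑ k ∈ range p, c k, ?_⟩
  rw [ad_iterate, commutator_pow, Nat.sub_add_cancel hp.one_lt.le, Finset.mul_sum,
    ← Finset.sum_add_distrib]
  exact Finset.sum_congr rfl hc

end Ring

end Helper12
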