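import Mathlib
import Pool.Agent.Helper12.IsoBinom

namespace Helper12

open Finset Matrix

section Mat

variable {C : Type*} [CommRing C] {N : ℕ}

/-- `v ↦ D v + A v` on column vectors -/
def nabVec (D : Derivation ℤ C C) (A : Matrix (Fin N) (Fin N) C) (v : Fin N → C) : Fin N → C :=
  fun i => D (v i) + (A *ᵥ v) i

/-- `M ↦ D M + [A, M]` on matrices -/
def nabMat (D : Derivation ℤ C C) (A M : Matrix (Fin N) (Fin N) C) : Matrix (Fin N) (Fin N) C :=
  M.map D + A * M - M * A

theorem map_der_mul (D : Derivation ℤ C C) (M M' : Matrix (Fin N) (Fin N) C) :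
    (M * M').map D = M.map D * M' + M * M'.map D := by
  ext i j
  simp only [Matrix.map_apply, Matrix.mul_apply, Matrix.add_apply, map_sum, Derivation.leibniz,
    smul_eq_mul]
  rw [← Finset.sum_add_distrib]
  apply Finset.sum_congr rfl
  intro k _
  ring

theorem map_der_mulVec (D : Derivation ℤ C C) (M : Matrix (Fin N) (Fin N) C) (v : Fin N → C) :
    (fun i => D ((M *ᵥ v) i)) = M.map D *ᵥ v + M *ᵥ (fun i => D (v i)) := by
  ext i
  simp only [Matrix.mulVec, dotProduct, Matrix.map_apply, Pi.add_apply, map_sum, Derivation.leibniz,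
    smul_eq_mul]
  rw [← Finset.sum_add_distrib]
  apply Finset.sum_congr rfl
  intro k _
  ring

theorem map_der_add (D : Derivation ℤ C C) (M M' : Matrix (Fin N) (Fin N) C) :
    (M + M').map D = M.map D + M'.map D := by
  ext i j; simp

theorem map_der_sub (D : Derivation ℤ C C) (M M' : Matrix (Fin N) (Fin N) C) :
    (M - M').map D = M.map D - M'.map D := by
  ext i j; simp

theorem map_der_smul (D : Derivation ℤ C C) (c : C) (M : Matrix (Fin N) (Fin N) C) :
    (c • M).map D = D c • M + c • M.map D := by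
  ext i j; simp [Derivation.leibniz]; ring

theorem nabMat_add (D : Derivation ℤ C C) (A M M' : Matrix (Fin N) (Fin N) C) :
    nabMat D A (M + M') = nabMat D A M + nabMat D A M' := by
  simp only [nabMat, map_der_add]; noncomm_ring

theorem nabMat_smul (D : Derivation ℤ C C) (A : Matrix (Fin N) (Fin N) C) (c : C)
    (M : Matrix (Fin N) (Fin N) C) :
    nabMat D A (c • M) = D c • M + c • nabMat D A M := by
  simp only [nabMat, map_der_smul, Matrix.mul_smul, Matrix.smul_mul, smul_add, smul_sub]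
  abel

theorem nabMat_mul (D : Derivation ℤ C C) (A M M' : Matrix (Fin N) (Fin N) C) :
    nabMat D A (M * M') = nabMat D A M * M' + M * nabMat D A M' := by
  simp only [nabMat, map_der_mul]; noncomm_ring

theorem trace_nabMat (D : Derivation ℤ C C) (A M : Matrix (Fin N) (Fin N) C) :
    (nabMat D A M).trace = D M.trace := by
  simp only [nabMat, trace_sub, trace_add, trace_mul_comm M A, add_sub_cancel_right]
  simp [Matrix.trace, map_sum]

theorem nabVec_mulVec (D : Derivation ℤ C C) (A M : Matrix (Fin N) (Fin N) C) (v : Fin N → C) :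
    nabVec D A (M *ᵥ v) = nabMat D A M *ᵥ v + M *ᵥ nabVec D A v := by
  have h1 : nabVec D A (M *ᵥ v) = (fun i => D ((M *ᵥ v) i)) + A *ᵥ (M *ᵥ v) := rfl
  have h2 : nabVec D A v = (fun i => D (v i)) + A *ᵥ v := rfl
  rw [h1, h2, map_der_mulVec, nabMat, Matrix.sub_mulVec, Matrix.add_mulVec, Matrix.mulVec_add,
    Matrix.mulVec_mulVec, Matrix.mulVec_mulVec]
  abel

/-- the endomorphism of the additive group -/
def nabEnd (D : Derivation ℤ C C) (A : Matrix (Fin N) (Fin N) C) : Module.End ℤ (Fin N → C) where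
  toFun := nabVec D A
  map_add' v w := by
    funext i
    simp only [nabVec, Pi.add_apply, map_add, Matrix.mulVec_add]
    ring
  map_smul' c v := by
    funext i
    simp only [nabVec, Pi.smul_apply, Matrix.mulVec_smul, RingHom.id_apply, map_zsmul, smul_add]

def derEnd (D : Derivation ℤ C C) : Module.End ℤ (Fin N → C) where
  toFun v := fun i => D (v i)
  map_add' v w := by
    funext i
    simp
  map_smul' c v := by
    funext i
    simp

def matEnd (M : Matrix (Fin N) (Fin N) C) : Module.End ℤ (Fin N → C) where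
  toFun v := M *ᵥ v
  map_add' v w := Matrix.mulVec_add _ _ _
  map_smul' c v := by
    rw [RingHom.id_apply]
    exact Matrix.mulVec_smul _ _ _

theorem matEnd_ad (D : Derivation ℤ C C) (A M : Matrix (Fin N) (Fin N) C) :
    nabEnd D A * matEnd M - matEnd M * nabEnd D A = matEnd (nabMat D A M) := by
  refine LinearMap.ext fun v => ?_
  change nabVec D A (M *ᵥ v) - M *ᵥ (nabVec D A v) = nabMat D A M *ᵥ v
  rw [nabVec_mulVec]
  abel

theorem matEnd_ad_iterate (D : Derivation ℤ C C) (A M : Matrix (Fin N) (Fin N) C) (n : ℕ) :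
    (fun c => nabEnd D A * c - c * nabEnd D A)^[n] (matEnd M) = matEnd ((nabMat D A)^[n] M) := by
  induction n with
  | zero => rfl
  | succ n ih =>
    rw [Function.iterate_succ', Function.comp, ih, matEnd_ad, Function.iterate_succ',
      Function.comp]

theorem derEnd_comm (D θ : Derivation ℤ C C) (h : ∀ f, θ (D f) = D (θ f))
    (A : Matrix (Fin N) (Fin N) C) :
    derEnd θ * nabEnd D A - nabEnd D A * derEnd θ = matEnd (A.map θ) := by
  refine LinearMap.ext fun v => ?_
  change (fun i => θ (D (v i) + (A *ᵥ v) i)) - (fun i => D (θ (v i)) + (A *ᵥ (fun i => θ (v i))) i) =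
    A.map θ *ᵥ v
  have h1 := map_der_mulVec θ A v
  funext i
  have h2 := congrFun h1 i
  simp only [Pi.sub_apply, map_add, h, Pi.add_apply] at h2 ⊢
  rw [h2]
  ring

theorem nabEnd_pow_apply (D : Derivation ℤ C C) (A : Matrix (Fin N) (Fin N) C) (n : ℕ)
    (v : Fin N → C) : (nabEnd D A ^ n) v = (nabVec D A)^[n] v := by
  rw [Module.End.pow_apply]
  rfl

/-- `∇^{p-1} θ(A) ≡ 0`. -/
theorem nabMat_iterate_mem (p : ℕ) (hp : p.Prime) (J : Ideal C) (hpJ : (p : C) ∈ J)
    (D θ : Derivation ℤ C C) (h : ∀ f, θ (D f) = D (θ f)) (hθ : ∀ c ∈ J, θ c ∈ J)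
    (A : Matrix (Fin N) (Fin N) C) (hψ : ∀ v i, (nabVec D A)^[p] v i ∈ J) (i j : Fin N) :
    ((nabMat D A)^[p - 1] (A.map θ)) i j ∈ J := by
  obtain ⟨c, hc⟩ := ad_pred p hp (nabEnd D A) (derEnd θ : Module.End ℤ (Fin N → C))
  rw [derEnd_comm D θ h, matEnd_ad_iterate] at hc
  have h1 := congrFun (LinearMap.congr_fun hc (Pi.single j 1)) i
  have h2 : (matEnd ((nabMat D A)^[p - 1] (A.map θ)) (Pi.single j 1) : Fin N → C) i =
      ((nabMat D A)^[p - 1] (A.map θ)) i j := by
    change (((nabMat D A)^[p - 1] (A.map θ)) *ᵥ (Pi.single j 1)) i = _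
    rw [Matrix.mulVec_single_one]
    rfl
  rw [h2] at h1
  rw [h1]
  simp only [LinearMap.add_apply, LinearMap.sub_apply, Module.End.mul_apply, nabEnd_pow_apply,
    Pi.add_apply, Pi.sub_apply]
  apply J.add_mem
  · apply J.sub_mem
    · exact hθ _ (hψ _ _)
    · exact hψ _ _
  · have h3 : ((p : Module.End ℤ (Fin N → C)) (c (Pi.single j 1)) : Fin N → C) i =
        (p : C) * (c (Pi.single j 1)) i := by
      rw [Module.End.natCast_apply]
      simp
    rw [h3]
    exact J.mul_mem_right _ hpJ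

/-- Explicit primitive. -/
theorem nabMat_primitive (p : ℕ) (hp : p.Prime) (D : Derivation ℤ C C) (x : C) (hx : D x = 1)
    (A F : Matrix (Fin N) (Fin N) C) (n : ℕ) (hn : n < p) :
    ∃ m, nabMat D A m = ((n.factorial : ℕ) : C) • F +
      ((-1 : C) ^ (n + 1) * x ^ n) • (nabMat D A)^[n] F := by
  induction n with
  | zero =>
    refine ⟨0, ?_⟩
    simp only [Function.iterate_zero, id, Nat.factorial_zero, Nat.cast_one, one_smul, pow_zero,
      mul_one, zero_add, pow_one, neg_smul]
    rw [add_neg_cancel]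
    simp [nabMat]
  | succ n ih =>
    obtain ⟨m, hm⟩ := ih (by omega)
    refine ⟨((n + 1 : ℕ) : C) • m + ((-1 : C) ^ n * x ^ (n + 1)) • (nabMat D A)^[n] F, ?_⟩
    have hD1 : D ((n + 1 : ℕ) : C) = 0 := D.map_natCast _
    have hD2 : D ((-1 : C) ^ n * x ^ (n + 1)) = (-1 : C) ^ n * (((n + 1 : ℕ) : C) * x ^ n) := by
      rw [Derivation.leibniz, Derivation.leibniz_pow, Derivation.leibniz_pow, hx]
      simp
    rw [nabMat_add, nabMat_smul, nabMat_smul, hm, hD1, hD2, zero_smul, zero_add, smul_add,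
      smul_smul, smul_smul, Function.iterate_succ', Function.comp, Nat.factorial_succ]
    have e1 : ((n + 1 : ℕ) : C) * ((-1) ^ (n + 1) * x ^ n) =
        - ((-1 : C) ^ n * (((n + 1 : ℕ) : C) * x ^ n)) := by ring
    have e2 : ((-1 : C) ^ (n + 1 + 1) * x ^ (n + 1)) = (-1 : C) ^ n * x ^ (n + 1) := by ring
    rw [e1, e2, Nat.cast_mul, neg_smul]
    abel

/-- In characteristic `p`, if the `p`-curvature vanishes, `θ(A)` is exact. -/
theorem exists_primitive (p : ℕ) (hp : p.Prime) (J : Ideal C) (hpJ : (p : C) ∈ J)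
    (D θ : Derivation ℤ C C) (h : ∀ f, θ (D f) = D (θ f)) (hθ : ∀ c ∈ J, θ c ∈ J)
    (x : C) (hx : D x = 1)
    (A : Matrix (Fin N) (Fin N) C) (hψ : ∀ v i, (nabVec D A)^[p] v i ∈ J) :
    ∃ m, ∀ i j, (nabMat D A m - A.map θ) i j ∈ J := by
  obtain ⟨m, hm⟩ := nabMat_primitive p hp D x hx A (A.map θ) (p - 1) (by have := hp.pos; omega)
  have hco : Nat.Coprime ((p - 1).factorial) p :=
    (hp.coprime_factorial_of_lt (by have := hp.pos; omega)).symm
  obtain ⟨a, b, hab⟩ : ∃ a b : ℤ, a * ((p - 1).factorial : ℤ) + b * (p : ℤ) = 1 := by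
    have := Nat.isCoprime_iff_coprime.2 hco
    exact this
  refine ⟨((a : ℤ) : C) • m, ?_⟩
  intro i j
  have hDa : D ((a : ℤ) : C) = 0 := D.map_intCast _
  have h1 : ((a : ℤ) : C) * (((p - 1).factorial : ℕ) : C) = 1 - ((b : ℤ) : C) * (p : C) := by
    have := congrArg (Int.cast : ℤ → C) hab
    push_cast at this
    linear_combination this
  rw [nabMat_smul, hDa, zero_smul, zero_add, hm, smul_add, smul_smul, h1]
  simp only [Matrix.sub_apply, Matrix.add_apply, Matrix.smul_apply, smul_eq_mul]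
  have h2 := nabMat_iterate_mem p hp J hpJ D θ h hθ A hψ i j
  have h3 : (1 - ((b : ℤ) : C) * (p : C)) * (A.map θ) i j +
      ((a : ℤ) : C) * ((-1) ^ (p - 1 + 1) * x ^ (p - 1) * (nabMat D A)^[p - 1] (A.map θ) i j) -
      (A.map θ) i j = (p : C) * (- (((b : ℤ) : C) * (A.map θ) i j)) +
      (nabMat D A)^[p - 1] (A.map θ) i j * (((a : ℤ) : C) * ((-1) ^ (p - 1 + 1) * x ^ (p - 1))) := by
    ring
  rw [h3]
  exact J.add_mem (J.mul_mem_right _ hpJ) (J.mul_mem_right _ h2)

end Mat

end Helper12
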