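import Mathlib
import Pool.Agent.Helper12.ConstFG
import Pool.Agent.Helper12.IsoMat

namespace Helper12

open Filter Matrix

theorem exists_restrictDer {S F : Type*} [CommRing S] [CommRing F] (ι : S →+* F)
    (hι : Function.Injective ι) (D : Derivation ℤ F F) (h : ∀ a, ∃ b, ι b = D (ι a)) :
    ∃ dS : Derivation ℤ S S, ∀ a, ι (dS a) = D (ι a) := by
  choose f hf using h
  refine ⟨Derivation.mk' ((AddMonoidHom.mk' f (fun a b => ?_)).toIntLinearMap) (fun a b => ?_), hf⟩
  · apply hι
    rw [hf, map_add, map_add, map_add, hf, hf]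
  · apply hι
    change ι (f (a * b)) = ι (a * f b + b * f a)
    rw [hf, map_mul, Derivation.leibniz, map_add, smul_eq_mul, smul_eq_mul, map_mul, map_mul, hf, hf]

section Field

variable {O : Type*} [CommRing O] [IsDomain O] [CharZero O] [Algebra.FiniteType ℤ O] {m N : ℕ}
  {F : Type*} [Field F] [Algebra O F]
  [Algebra (MvPolynomial (Fin m) O) F] [IsScalarTower O (MvPolynomial (Fin m) O) F]

theorem field_fg_aux (L : Type*) [Field L] [Algebra (MvPolynomial (Fin m) O) L]
    [IsFractionRing (MvPolynomial (Fin m) O) L] [Algebra L F]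
    [IsScalarTower (MvPolynomial (Fin m) O) L F] (hinj : Function.Injective (algebraMap (MvPolynomial (Fin m) O) F))
    (D : Derivation ℤ F F) (δ : O → O) (hδ : ∀ a, D (algebraMap O F a) = algebraMap O F (δ a))
    (hX : ∀ i, D (algebraMap (MvPolynomial (Fin m) O) F (MvPolynomial.X i)) = 0)
    (Y : Set F) (hYf : Y.Finite) (hint : ∀ y ∈ Y, IsIntegral (MvPolynomial (Fin m) O) y)
    (hYD : ∀ y ∈ Y, D y = 0)
    (A : Matrix (Fin N) (Fin N) F)
    (hA : ∀ i j, A i j ∈ Algebra.adjoin (MvPolynomial (Fin m) O) Y)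
    (hnil : ∃ᶠ p : ℕ in atTop, p.Prime ∧ ∃ n, ∀ v : Fin N → F,
      (∀ i, v i ∈ Algebra.adjoin (MvPolynomial (Fin m) O) Y) →
        ∃ w : Fin N → F, (∀ i, w i ∈ Algebra.adjoin (MvPolynomial (Fin m) O) Y) ∧
          (nabVec D A)^[n] v = (p : F) • w)
    (e : Fin N → F) (he : ∀ i, e i ∈ Algebra.adjoin (MvPolynomial (Fin m) O) Y) :
    (Submodule.span O (Set.range fun n => (nabVec D A)^[n] e)).FG := by
  classical
  set S := MvPolynomial (Fin m) O with hS
  have hC : ∀ a : O, algebraMap S F (MvPolynomial.C a) = algebraMap O F a := fun a => by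
    rw [IsScalarTower.algebraMap_apply O S F, MvPolynomial.algebraMap_eq]
  -- the derivation on `S`
  have hDS : ∀ a : S, ∃ b : S, algebraMap S F b = D (algebraMap S F a) := by
    intro a
    induction a using MvPolynomial.induction_on with
    | C a => exact ⟨MvPolynomial.C (δ a), by rw [hC, hC, hδ]⟩
    | add p q hp hq =>
      obtain ⟨b, hb⟩ := hp
      obtain ⟨c, hc⟩ := hq
      exact ⟨b + c, by rw [map_add, map_add, map_add, hb, hc]⟩
    | mul_X p i hp =>
      obtain ⟨b, hb⟩ := hp
      refine ⟨b * MvPolynomial.X i, ?_⟩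
      rw [map_mul, map_mul, Derivation.leibniz, hX, smul_zero, zero_add, hb, smul_eq_mul, mul_comm]
  obtain ⟨dS, hdS⟩ := exists_restrictDer (algebraMap S F) hinj D hDS
  have hLinj : Function.Injective (algebraMap L F) := (algebraMap L F).injective
  have hDL : ∀ l : L, ∃ l' : L, algebraMap L F l' = D (algebraMap L F l) := by
    intro l
    obtain ⟨a, b, hb, rfl⟩ := IsFractionRing.div_surjective (A := S) l
    have hb0 : algebraMap S F b ≠ 0 := by
      intro h0
      exact nonZeroDivisors.ne_zero hb (hinj (by rw [h0, map_zero]))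
    refine ⟨(algebraMap S L (dS a) * algebraMap S L b - algebraMap S L a * algebraMap S L (dS b)) /
      (algebraMap S L b) ^ 2, ?_⟩
    have e1 : ∀ x : S, algebraMap L F (algebraMap S L x) = algebraMap S F x := fun x =>
      (IsScalarTower.algebraMap_apply S L F x).symm
    rw [map_div₀, map_div₀, map_sub, map_mul, map_mul, map_pow, e1, e1, e1, e1, hdS, hdS,
      Derivation.leibniz_div]
    simp only [smul_eq_mul]
    field_simp
  obtain ⟨dL, hdL⟩ := exists_restrictDer (algebraMap L F) hLinj D hDL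
  have hd : ∀ a, dL (algebraMap S L a) = algebraMap S L (dS a) := by
    intro a
    apply hLinj
    rw [hdL, ← IsScalarTower.algebraMap_apply, ← IsScalarTower.algebraMap_apply, hdS]
  have hdC : ∀ a, dS (MvPolynomial.C a) = MvPolynomial.C (δ a) := by
    intro a
    apply hinj
    rw [hdS, hC, hC, hδ]
  have hdX : ∀ i, dS (MvPolynomial.X i) = 0 := by
    intro i
    apply hinj
    rw [hdS, hX, map_zero]
  let nab : (Fin N → F) →+ (Fin N → F) := (nabEnd D A).toAddMonoidHom
  have hnabapp : ∀ v, nab v = nabVec D A v := fun v => rfl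
  have hnabit : ∀ n v, nab^[n] v = (nabVec D A)^[n] v := fun n v => rfl
  have hnab : ∀ (l : L) (v : Fin N → F), nab (l • v) = dL l • v + l • nab v := by
    intro l v
    rw [hnabapp, hnabapp]
    funext i
    have hs : ∀ (l : L) (x : F), l • x = algebraMap L F l * x := fun l x => Algebra.smul_def l x
    change D (l • v i) + (A *ᵥ (l • v)) i = dL l • v i + l • (D (v i) + (A *ᵥ v) i)
    rw [Matrix.mulVec_smul, Pi.smul_apply, hs, hs, hs, hs, hdL, Derivation.leibniz, smul_eq_mul,
      smul_eq_mul]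
    ring
  let M : Submodule S F := Subalgebra.toSubmodule (Algebra.adjoin S Y)
  have hMfg : M.FG := fg_adjoin_of_finite hYf hint
  let E : Submodule S (Fin N → F) := Submodule.pi Set.univ (fun _ => M)
  have hmemE : ∀ v : Fin N → F, v ∈ E ↔ ∀ i, v i ∈ Algebra.adjoin S Y := by
    intro v
    simp only [E, Submodule.mem_pi, Set.mem_univ, forall_true_left, M]
    rfl
  have hEfg : E.FG := Submodule.fg_pi (fun _ => hMfg)
  have hDM : ∀ x ∈ Algebra.adjoin S Y, D x ∈ Algebra.adjoin S Y := by
    intro x hx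
    induction hx using Algebra.adjoin_induction with
    | mem x hx => rw [hYD x hx]; exact Subalgebra.zero_mem _
    | algebraMap r => rw [← hdS]; exact Subalgebra.algebraMap_mem _ _
    | add x y _ _ hx hy => rw [map_add]; exact Subalgebra.add_mem _ hx hy
    | mul x y hx' hy' hx hy =>
      rw [Derivation.leibniz, smul_eq_mul, smul_eq_mul]
      exact Subalgebra.add_mem _ (Subalgebra.mul_mem _ hx' hy) (Subalgebra.mul_mem _ hy' hx)
  have hE : ∀ v ∈ E, nab v ∈ E := by
    intro v hv
    rw [hmemE] at hv ⊢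
    intro i
    rw [hnabapp]
    simp only [nabVec, Matrix.mulVec, dotProduct]
    apply Subalgebra.add_mem _ (hDM _ (hv i))
    apply Subalgebra.sum_mem
    intro j _
    exact Subalgebra.mul_mem _ (hA i j) (hv j)
  have key := cyclic_fg (O := O) dS δ hdC hdX dL hd nab hnab E hEfg hE (by
    refine hnil.mono ?_
    rintro p ⟨hp, n, hn⟩
    refine ⟨hp, n, ?_⟩
    intro v hv
    obtain ⟨w, hw, hvw⟩ := hn v ((hmemE v).1 hv)
    refine ⟨w, (hmemE w).2 hw, ?_⟩
    rw [hnabit, hvw, ← algebraMap_smul F (p : S) w, map_natCast]) e ((hmemE e).2 he)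
  exact key

end Field

end Helper12
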