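import Mathlib

namespace Helper12

open TensorProduct MvPolynomial

section Inj

variable {R₀ R O : Type} [CommRing R₀] [CommRing R] [CommRing O] [Algebra R₀ R] [Algebra R₀ O]

theorem eval_injective_aux {F : Type} [CommRing F] [Module.Flat R₀ O] {m : ℕ} (t : Fin m → R)
    (ht : AlgebraicIndependent R₀ t) (σ : O →+* F) (ρ : R →+* F) (Ψ : O ⊗[R₀] R →+* F)
    (hΨ : ∀ o r, Ψ (o ⊗ₜ r) = σ o * ρ r) (hinj : Function.Injective Ψ) :
    Function.Injective (MvPolynomial.eval₂Hom σ (fun i => ρ (t i))) := by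
  let e := MvPolynomial.algebraTensorAlgEquiv (σ := Fin m) R₀ O
  let T : O ⊗[R₀] MvPolynomial (Fin m) R₀ →ₗ[R₀] O ⊗[R₀] R :=
    LinearMap.lTensor O (aeval t : MvPolynomial (Fin m) R₀ →ₐ[R₀] R).toLinearMap
  have hT : Function.Injective T := Module.Flat.lTensor_preserves_injective_linearMap _ ht
  have hcl : ∀ a : R₀, σ (algebraMap R₀ O a) = ρ (algebraMap R₀ R a) := by
    intro a
    have h1 := hΨ (algebraMap R₀ O a) 1
    have h2 := hΨ 1 (algebraMap R₀ R a)
    rw [map_one, mul_one] at h1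
    rw [map_one, one_mul] at h2
    rw [← h1, ← h2, Algebra.algebraMap_eq_smul_one, Algebra.algebraMap_eq_smul_one,
      TensorProduct.smul_tmul]
  have key : ∀ z, MvPolynomial.eval₂Hom σ (fun i => ρ (t i)) (e z) = Ψ (T z) := by
    intro z
    induction z using TensorProduct.induction_on with
    | zero => simp
    | add x y hx hy => rw [map_add, map_add, map_add, map_add, hx, hy]
    | tmul a p =>
      have h1 : T (a ⊗ₜ p) = a ⊗ₜ (aeval t p) := rfl
      have h2 : e (a ⊗ₜ p) = a • MvPolynomial.map (algebraMap R₀ O) p :=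
        MvPolynomial.algebraTensorAlgEquiv_tmul R₀ O a p
      rw [h1, h2, hΨ, MvPolynomial.smul_eq_C_mul, map_mul]
      congr 1
      · simp
      · rw [MvPolynomial.coe_eval₂Hom, MvPolynomial.eval₂_map]
        have h3 : ρ (aeval t p) = MvPolynomial.eval₂ (ρ.comp (algebraMap R₀ R)) (fun i => ρ (t i)) p := by
          rw [MvPolynomial.aeval_def, MvPolynomial.eval₂_comp_left]
          rfl
        rw [h3]
        congr 1
        ext a
        exact hcl a
  intro P Q hPQ
  obtain ⟨z, rfl⟩ := e.surjective P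
  obtain ⟨z', rfl⟩ := e.surjective Q
  rw [key, key] at hPQ
  rw [hT (hinj hPQ)]

theorem injective_of_localization {S S' F : Type} [CommRing S] [CommRing S'] [CommRing F]
    [Algebra S S'] (M : Submonoid S) [IsLocalization M S'] (φ : S' →+* F)
    (h : Function.Injective (φ.comp (algebraMap S S'))) : Function.Injective φ := by
  rw [injective_iff_map_eq_zero]
  intro z hz
  obtain ⟨⟨a, s⟩, has⟩ := IsLocalization.surj M z
  have h1 : φ (algebraMap S S' a) = 0 := by rw [← has, map_mul, hz, zero_mul]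
  have h2 : a = 0 := h (by rw [RingHom.comp_apply, h1, map_zero])
  rw [h2, map_zero] at has
  exact (IsLocalization.map_units S' s).mul_left_eq_zero.1 has

/-- the ring homomorphism `O ⊗ R[1/f] → Frac(R ⊗ O)` is injective -/
theorem tensor_localization_injective {F : Type} [Field F] [IsDomain (R ⊗[R₀] O)]
    [Algebra (R ⊗[R₀] O) F] [IsFractionRing (R ⊗[R₀] O) F] (f : R) (R' : Type) [CommRing R']
    [Algebra R R'] [Algebra R₀ R'] [IsScalarTower R₀ R R'] [IsLocalization.Away f R']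
    (Ψ : O ⊗[R₀] R' →+* F)
    (hΨ : ∀ o r, Ψ (o ⊗ₜ algebraMap R R' r) = algebraMap (R ⊗[R₀] O) F (r ⊗ₜ o)) :
    Function.Injective Ψ := by
  let Θ : R ⊗[R₀] O →ₐ[R₀] O ⊗[R₀] R' :=
    (Algebra.TensorProduct.map (AlgHom.id R₀ O) (IsScalarTower.toAlgHom R₀ R R')).comp
      (Algebra.TensorProduct.comm R₀ R O).toAlgHom
  have hΘ : ∀ r o, Θ (r ⊗ₜ o) = o ⊗ₜ algebraMap R R' r := fun r o => rfl
  have hΨΘ : ∀ z, Ψ (Θ z) = algebraMap (R ⊗[R₀] O) F z := by
    intro z
    induction z using TensorProduct.induction_on with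
    | zero => simp
    | add x y hx hy => rw [map_add, map_add, hx, hy, map_add]
    | tmul r o => rw [hΘ, hΨ]
  have hsurj : ∀ z : O ⊗[R₀] R', ∃ (k : ℕ) (z₀ : R ⊗[R₀] O),
      ((1 : O) ⊗ₜ[R₀] algebraMap R R' f) ^ k * z = Θ z₀ := by
    intro z
    induction z using TensorProduct.induction_on with
    | zero => exact ⟨0, 0, by simp⟩
    | add x y hx hy =>
      obtain ⟨k, a, ha⟩ := hx
      obtain ⟨l, b, hb⟩ := hy
      refine ⟨k + l, (f ^ l) ⊗ₜ 1 * a + (f ^ k) ⊗ₜ 1 * b, ?_⟩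
      rw [map_add, map_mul, map_mul, ← ha, ← hb, hΘ, hΘ, map_pow, map_pow]
      have h1 : ∀ n, (1 : O) ⊗ₜ[R₀] (algebraMap R R' f ^ n) = ((1 : O) ⊗ₜ[R₀] algebraMap R R' f) ^ n := by
        intro n
        rw [Algebra.TensorProduct.tmul_pow, one_pow]
      rw [h1, h1]
      ring
    | tmul o r' =>
      obtain ⟨⟨r, ⟨_, k, rfl⟩⟩, hr⟩ := IsLocalization.surj (Submonoid.powers f) r'
      refine ⟨k, r ⊗ₜ o, ?_⟩
      rw [hΘ, Algebra.TensorProduct.tmul_pow, one_pow, Algebra.TensorProduct.tmul_mul_tmul, one_mul,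
        ← map_pow, mul_comm]
      exact congrArg _ hr
  rw [injective_iff_map_eq_zero]
  intro z hz
  obtain ⟨k, z₀, hz₀⟩ := hsurj z
  have h1 : algebraMap (R ⊗[R₀] O) F z₀ = 0 := by
    rw [← hΨΘ, ← hz₀, map_mul, hz, mul_zero]
  have h2 : z₀ = 0 := IsFractionRing.injective (R ⊗[R₀] O) F (by rw [h1, map_zero])
  rw [h2, map_zero] at hz₀
  have hu : IsUnit ((1 : O) ⊗ₜ[R₀] algebraMap R R' f) := by
    have h3 : IsUnit (algebraMap R R' f) := IsLocalization.Away.algebraMap_isUnit f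
    exact h3.map (Algebra.TensorProduct.includeRight : R' →ₐ[R₀] O ⊗[R₀] R')
  exact (hu.pow k).mul_right_eq_zero.1 hz₀

end Inj

end Helper12
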