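import Mathlib

namespace Helper12

open MvPolynomial

section Noether

variable {k₀ R : Type} [CommRing k₀] [IsDomain k₀] [CommRing R] [IsDomain R] [Algebra k₀ R]

attribute [local instance] MvPolynomial.algebraMvPolynomial in
/-- Noether normalization over a domain, up to a nonzero element of the base. -/
theorem exists_normalization [Algebra.FiniteType k₀ R]
    (hinj : Function.Injective (algebraMap k₀ R)) :
    ∃ (m : ℕ) (t : Fin m → R) (g : k₀), g ≠ 0 ∧ AlgebraicIndependent k₀ t ∧
      ∃ Y : Finset R, Algebra.adjoin k₀ (Y : Set R) = ⊤ ∧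
        ∀ y ∈ Y, (aeval t : MvPolynomial (Fin m) k₀ →ₐ[k₀] R).toRingHom.IsIntegralElem
          (algebraMap k₀ R g * y) := by
  classical
  let k := FractionRing k₀
  let M : Submonoid R := Algebra.algebraMapSubmonoid R (nonZeroDivisors k₀)
  have hM : M ≤ nonZeroDivisors R := by
    rintro _ ⟨c, hc, rfl⟩
    rw [mem_nonZeroDivisors_iff_ne_zero]
    intro h0
    exact nonZeroDivisors.ne_zero hc (hinj (by rw [h0, map_zero]))
  let RR := Localization M
  letI : Algebra k RR := localizationAlgebra (nonZeroDivisors k₀) R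
  haveI : IsScalarTower k₀ k RR := IsScalarTower.of_algebraMap_eq (fun x => by
    rw [IsScalarTower.algebraMap_apply k₀ R RR]
    exact (IsLocalization.map_eq _ x).symm)
  haveI : Nontrivial RR := by
    haveI := IsLocalization.isDomain_localization hM
    infer_instance
  have hRR : Function.Injective (algebraMap R RR) := IsLocalization.injective RR hM
  have htower : ∀ c : k₀, algebraMap k RR (algebraMap k₀ k c) = algebraMap R RR (algebraMap k₀ R c) := by
    intro c
    rw [← IsScalarTower.algebraMap_apply, ← IsScalarTower.algebraMap_apply]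
  obtain ⟨Y, hY⟩ := (inferInstance : Algebra.FiniteType k₀ R).out
  -- every element of `RR` is a quotient
  have hsurj : ∀ z : RR, ∃ (r : R) (c : k₀), c ≠ 0 ∧
      algebraMap k RR (algebraMap k₀ k c) * z = algebraMap R RR r := by
    intro z
    obtain ⟨⟨r, ⟨_, c, hc, rfl⟩⟩, hz⟩ := IsLocalization.surj M z
    refine ⟨r, c, nonZeroDivisors.ne_zero hc, ?_⟩
    rw [htower, mul_comm]
    exact hz
  have hk0 : ∀ c : k₀, c ≠ 0 → algebraMap k₀ k c ≠ 0 := by
    intro c hc h0
    exact hc (IsFractionRing.injective k₀ k (by rw [h0, map_zero]))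
  haveI : Algebra.FiniteType k RR := by
    refine ⟨⟨Y.image (algebraMap R RR), ?_⟩⟩
    rw [eq_top_iff]
    rintro z -
    obtain ⟨r, c, hc, hz⟩ := hsurj z
    have hr : algebraMap R RR r ∈ Algebra.adjoin k ((Y.image (algebraMap R RR) : Finset RR) : Set RR) := by
      have hr' : r ∈ Algebra.adjoin k₀ (Y : Set R) := by rw [hY]; trivial
      clear hz
      induction hr' using Algebra.adjoin_induction with
      | mem x hx => exact Algebra.subset_adjoin (by rw [Finset.coe_image]; exact ⟨x, hx, rfl⟩)
      | algebraMap c =>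
        rw [← htower]
        exact Subalgebra.algebraMap_mem _ _
      | add x y _ _ hx hy => rw [map_add]; exact Subalgebra.add_mem _ hx hy
      | mul x y _ _ hx hy => rw [map_mul]; exact Subalgebra.mul_mem _ hx hy
    have : z = algebraMap k RR (algebraMap k₀ k c)⁻¹ * algebraMap R RR r := by
      rw [← hz, ← mul_assoc, ← map_mul, inv_mul_cancel₀ (hk0 c hc), map_one, one_mul]
    rw [this]
    exact Subalgebra.mul_mem _ (Subalgebra.algebraMap_mem _ _) hr
  obtain ⟨m, G, hG, hGint⟩ := exists_integral_inj_algHom_of_fg k RR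
  choose r c hc hrc using fun i => hsurj (G (X i))
  let C := ∏ i, c i
  have hC : C ≠ 0 := Finset.prod_ne_zero_iff.2 (fun i _ => hc i)
  have hCi : ∀ i, ∃ r' : R, algebraMap k RR (algebraMap k₀ k C) * G (X i) = algebraMap R RR r' := by
    intro i
    obtain ⟨d, hd⟩ := Finset.dvd_prod_of_mem c (Finset.mem_univ i)
    refine ⟨algebraMap k₀ R d * r i, ?_⟩
    rw [map_mul, ← hrc, ← htower, ← mul_assoc, ← map_mul, ← map_mul]
    have : C = d * c i := by rw [mul_comm]; exact hd
    rw [this]
  choose t ht using hCi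
  -- the `t i` are algebraically independent
  let κ : k := algebraMap k₀ k C
  have hκ : κ ≠ 0 := hk0 C hC
  let x' : Fin m → RR := fun i => algebraMap R RR (t i)
  have hx' : ∀ i, x' i = algebraMap k RR κ * G (X i) := fun i => (ht i).symm
  let e : MvPolynomial (Fin m) k →ₐ[k] MvPolynomial (Fin m) k :=
    aeval (fun i => MvPolynomial.C κ * X i)
  let e' : MvPolynomial (Fin m) k →ₐ[k] MvPolynomial (Fin m) k :=
    aeval (fun i => MvPolynomial.C κ⁻¹ * X i)
  have hCk : ∀ a : k, (MvPolynomial.C a : MvPolynomial (Fin m) k) = algebraMap k _ a := fun a => rfl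
  have he'e : e'.comp e = AlgHom.id k _ := by
    apply MvPolynomial.algHom_ext
    intro i
    simp only [e, e', AlgHom.comp_apply, aeval_X, map_mul, AlgHom.id_apply, hCk, AlgHom.commutes]
    rw [← mul_assoc, ← map_mul, mul_inv_cancel₀ hκ, map_one, one_mul]
  have hee' : e.comp e' = AlgHom.id k _ := by
    apply MvPolynomial.algHom_ext
    intro i
    simp only [e, e', AlgHom.comp_apply, aeval_X, map_mul, AlgHom.id_apply, hCk, AlgHom.commutes]
    rw [← mul_assoc, ← map_mul, inv_mul_cancel₀ hκ, map_one, one_mul]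
  have hGe : G.comp e = (aeval x' : MvPolynomial (Fin m) k →ₐ[k] RR) := by
    apply MvPolynomial.algHom_ext
    intro i
    simp only [e, AlgHom.comp_apply, aeval_X, map_mul, hCk, AlgHom.commutes, hx']
  have hGe' : G = (aeval x' : MvPolynomial (Fin m) k →ₐ[k] RR).comp e' := by
    rw [← hGe, AlgHom.comp_assoc, hee', AlgHom.comp_id]
  have hindk : AlgebraicIndependent k x' := by
    change Function.Injective (aeval x' : MvPolynomial (Fin m) k →ₐ[k] RR)
    rw [← hGe]
    apply hG.comp
    intro a b hab
    have h1 : ∀ z, e' (e z) = z := fun z => AlgHom.congr_fun he'e z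
    calc a = e' (e a) := (h1 a).symm
      _ = e' (e b) := congrArg e' hab
      _ = b := h1 b
  have hind₀ : AlgebraicIndependent k₀ x' :=
    hindk.restrictScalars (IsFractionRing.injective k₀ k)
  let ι : R →ₐ[k₀] RR := IsScalarTower.toAlgHom k₀ R RR
  have hindt : AlgebraicIndependent k₀ t := by
    apply AlgebraicIndependent.of_comp ι
    exact hind₀
  -- integrality
  have hint : ∀ y : R, ∃ d : k₀, d ≠ 0 ∧
      (aeval t : MvPolynomial (Fin m) k₀ →ₐ[k₀] R).toRingHom.IsIntegralElem
        (algebraMap k₀ R d * y) := by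
    intro y
    letI : Algebra (MvPolynomial (Fin m) k) RR :=
      (aeval x' : MvPolynomial (Fin m) k →ₐ[k] RR).toRingHom.toAlgebra
    letI : Algebra (MvPolynomial (Fin m) k₀) RR :=
      (aeval x' : MvPolynomial (Fin m) k₀ →ₐ[k₀] RR).toRingHom.toAlgebra
    haveI : IsScalarTower (MvPolynomial (Fin m) k₀) (MvPolynomial (Fin m) k) RR := by
      apply IsScalarTower.of_algebraMap_eq'
      have hmap : algebraMap (MvPolynomial (Fin m) k₀) (MvPolynomial (Fin m) k) =
          MvPolynomial.map (algebraMap k₀ k) := rfl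
      have hk : algebraMap (MvPolynomial (Fin m) k) RR =
          (aeval x' : MvPolynomial (Fin m) k →ₐ[k] RR).toRingHom := rfl
      have hk₀ : algebraMap (MvPolynomial (Fin m) k₀) RR =
          (aeval x' : MvPolynomial (Fin m) k₀ →ₐ[k₀] RR).toRingHom := rfl
      rw [hmap, hk, hk₀]
      refine MvPolynomial.ringHom_ext ?_ ?_
      · intro a
        rw [RingHom.comp_apply, MvPolynomial.map_C]
        simp only [AlgHom.toRingHom_eq_coe, RingHom.coe_coe, MvPolynomial.aeval_C]
        exact IsScalarTower.algebraMap_apply k₀ k RR a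
      · intro i
        rw [RingHom.comp_apply, MvPolynomial.map_X]
        simp only [AlgHom.toRingHom_eq_coe, RingHom.coe_coe, MvPolynomial.aeval_X]
    have h1 : IsIntegral (MvPolynomial (Fin m) k) (algebraMap R RR y) := by
      obtain ⟨P, hP, hP0⟩ := hGint (algebraMap R RR y)
      refine ⟨P.map e'.toRingHom, hP.map _, ?_⟩
      rw [Polynomial.eval₂_map]
      have h2 : (algebraMap (MvPolynomial (Fin m) k) RR).comp e'.toRingHom = G.toRingHom := by
        rw [hGe']
        rfl
      rw [h2]
      exact hP0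
    obtain ⟨⟨_, d, hd, rfl⟩, h2⟩ := IsIntegral.exists_multiple_integral_of_isLocalization
      (R := MvPolynomial (Fin m) k₀) ((nonZeroDivisors k₀).map (MvPolynomial.C (σ := Fin m)))
      (Rₘ := MvPolynomial (Fin m) k) (algebraMap R RR y) h1
    refine ⟨d, nonZeroDivisors.ne_zero hd, ?_⟩
    obtain ⟨P, hP, hP0⟩ := h2
    refine ⟨P, hP, ?_⟩
    apply hRR
    rw [map_zero, ← RingHom.coe_coe (algebraMap R RR), Polynomial.hom_eval₂]
    have h3 : (RingHomClass.toRingHom (algebraMap R RR)).comp
        (aeval t : MvPolynomial (Fin m) k₀ →ₐ[k₀] R).toRingHom =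
        algebraMap (MvPolynomial (Fin m) k₀) RR := by
      refine MvPolynomial.ringHom_ext ?_ ?_
      · intro a
        simp [RingHom.algebraMap_toAlgebra]
        exact (IsScalarTower.algebraMap_apply k₀ R RR a).symm
      · intro i
        simp [RingHom.algebraMap_toAlgebra, x']
    rw [h3]
    have h4 : (RingHomClass.toRingHom (algebraMap R RR)) (algebraMap k₀ R d * y) =
        (⟨(MvPolynomial.C d : MvPolynomial (Fin m) k₀), ⟨d, hd, rfl⟩⟩ :
          ((nonZeroDivisors k₀).map (MvPolynomial.C (σ := Fin m)))) • algebraMap R RR y := by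
      rw [Submonoid.smul_def, Algebra.smul_def]
      simp only [RingHom.coe_coe, map_mul]
      congr 1
      simp [RingHom.algebraMap_toAlgebra]
      exact (IsScalarTower.algebraMap_apply k₀ R RR d).symm
    rw [h4]
    exact hP0
  choose d hd hdint using hint
  refine ⟨m, t, ∏ y ∈ Y, d y, Finset.prod_ne_zero_iff.2 (fun y _ => hd y), hindt, Y, hY, ?_⟩
  intro y hy
  obtain ⟨b, hb⟩ := Finset.dvd_prod_of_mem d hy
  have h1 : algebraMap k₀ R (∏ y ∈ Y, d y) * y = algebraMap k₀ R b * (algebraMap k₀ R (d y) * y) := by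
    rw [hb, map_mul]; ring
  rw [h1]
  apply RingHom.IsIntegralElem.mul _ _ (hdint y)
  have h2 : algebraMap k₀ R b = (aeval t : MvPolynomial (Fin m) k₀ →ₐ[k₀] R).toRingHom
      (MvPolynomial.C b) := by simp
  rw [h2]
  exact RingHom.isIntegralElem_map _

end Noether

end Helper12
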