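import Mathlib
import Pool.Agent.Helper12.IsoMat

/-!
# Curves with two charts, connections, and the isomonodromy defect

`R` is a ring; we describe a smooth curve `C` over `Spec R` covered by two affine open subsets
`U₁ = Spec O₁` and `U₂ = Spec O₂` with affine intersection `U₁₂ = Spec B`, with étale coordinates
`x₁` on `U₁` and `x₂` on `U₂`; a vector bundle on `C` with a connection relative to `R`, free on
both charts; and a vector field `θ` on `Spec R` with its lifts to the charts. The isomonodromy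
defect `ob(θ)`, a class in `H¹_dR(C/R, End E)`, is represented by a cochain for this cover.
-/

namespace Helper12

open Polynomial Matrix

/-- A smooth curve over `Spec R` covered by `U₁ = Spec O₁` and `U₂ = Spec O₂`, with intersection
`U₁₂ = Spec B`, with étale coordinates `x₁`, `x₂`, and the vector fields `d₁ = ∂/∂x₁`,
`d₂ = ∂/∂x₂` on the charts and `D₁ = ∂/∂x₁`, `D₂ = ∂/∂x₂` on `U₁₂`. -/
structure TwoChartCurve (R O₁ O₂ B : Type) [CommRing R] [CommRing O₁] [CommRing O₂] [CommRing B]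
    [Algebra R O₁] [Algebra R O₂] [Algebra R B] where
  i₁ : O₁ →ₐ[R] B
  i₂ : O₂ →ₐ[R] B
  i₁_etale : i₁.toRingHom.Etale
  i₂_etale : i₂.toRingHom.Etale
  x₁ : O₁
  x₂ : O₂
  x₁_etale : (aeval x₁ : R[X] →ₐ[R] O₁).toRingHom.Etale
  x₂_etale : (aeval x₂ : R[X] →ₐ[R] O₂).toRingHom.Etale
  d₁ : Derivation R O₁ O₁
  d₂ : Derivation R O₂ O₂
  d₁_x₁ : d₁ x₁ = 1
  d₂_x₂ : d₂ x₂ = 1
  D₁ : Derivation R B B
  D₂ : Derivation R B B
  D₁_i₁ : ∀ f, D₁ (i₁ f) = i₁ (d₁ f)
  D₂_i₂ : ∀ f, D₂ (i₂ f) = i₂ (d₂ f)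

namespace TwoChartCurve

variable {R O₁ O₂ B : Type} [CommRing R] [CommRing O₁] [CommRing O₂] [CommRing B]
    [Algebra R O₁] [Algebra R O₂] [Algebra R B]

/-- A vector bundle of rank `N` with connection, with frames `e₁` on `U₁` and `e₂` on `U₂`.
On column vectors of coordinates, `∇_(d₁) = d₁ + A₁` in the frame `e₁`, `∇_(d₂) = d₂ + A₂` in the
frame `e₂`, and `e₂ = e₁ g` on `U₁₂`. -/
structure Connection (X : TwoChartCurve R O₁ O₂ B) (N : ℕ) where
  A₁ : Matrix (Fin N) (Fin N) O₁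
  A₂ : Matrix (Fin N) (Fin N) O₂
  g : Matrix (Fin N) (Fin N) B
  g' : Matrix (Fin N) (Fin N) B
  g_mul_g' : g * g' = 1
  compatible : A₂.map X.i₂ = X.D₂ (X.i₁ X.x₁) • (g' * A₁.map X.i₁ * g) + g' * g.map X.D₂

/-- The reduction of the connection at the ideal `m` of `R`, of residue characteristic `p`, has
vanishing `p`-curvature (the `p`-curvature along `d₁` is the `p`-th iterate of `∇_(d₁)`, because
the `p`-th iterate of `d₁` vanishes modulo `p`, and the same holds for `d₂`). -/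
def Connection.VanishingPCurvatureAt {X : TwoChartCurve R O₁ O₂ B} {N : ℕ} (E : X.Connection N)
    (p : ℕ) (m : Ideal R) : Prop :=
  (∀ v i, (nabVec (X.d₁.restrictScalars ℤ) E.A₁)^[p] v i ∈ m.map (algebraMap R O₁)) ∧
  (∀ v i, (nabVec (X.d₂.restrictScalars ℤ) E.A₂)^[p] v i ∈ m.map (algebraMap R O₂))

/-- A vector field `θ` on `Spec R`, its lifts `t₁` to `U₁` and `t₂` to `U₂` with `t₁ x₁ = 0` and
`t₂ x₂ = 0`, and the restrictions `T₁`, `T₂` of these to `U₁₂`. -/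
structure VectorField (X : TwoChartCurve R O₁ O₂ B) where
  θ : Derivation ℤ R R
  t₁ : Derivation ℤ O₁ O₁
  t₂ : Derivation ℤ O₂ O₂
  t₁_algebraMap : ∀ r, t₁ (algebraMap R O₁ r) = algebraMap R O₁ (θ r)
  t₂_algebraMap : ∀ r, t₂ (algebraMap R O₂ r) = algebraMap R O₂ (θ r)
  t₁_x₁ : t₁ X.x₁ = 0
  t₂_x₂ : t₂ X.x₂ = 0
  T₁ : Derivation ℤ B B
  T₂ : Derivation ℤ B B
  T₁_i₁ : ∀ f, T₁ (X.i₁ f) = X.i₁ (t₁ f)
  T₂_i₂ : ∀ f, T₂ (X.i₂ f) = X.i₂ (t₂ f)

namespace Connection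

variable {X : TwoChartCurve R O₁ O₂ B} {N : ℕ} (E : X.Connection N) (V : X.VectorField)

/-- The endomorphism `𝒟₁ - 𝒟₂ - ∇_ξ` of `E` on `U₁₂`, in the frame `e₁`, where `𝒟ₐ` is the lift
of `θ` to `E` on `Uₐ` acting on the coordinates in the frame `eₐ` through `tₐ`, and
`ξ = T₁ - T₂` (the Kodaira-Spencer cocycle), which is `- T₂(x₁) D₁`. -/
def beta : Matrix (Fin N) (Fin N) B :=
  E.g.map V.T₂ * E.g' + V.T₂ (X.i₁ X.x₁) • E.A₁.map X.i₁

/-- The commutator `[𝒟₁, ∇_(d₁)]` in the frame `e₁`: the coefficient of `dx₁`. -/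
def defect₁ : Matrix (Fin N) (Fin N) B := (E.A₁.map V.t₁).map X.i₁

/-- The commutator `[𝒟₂, ∇_(d₂)]`, in the frame `e₁`, multiplied by `∂x₂/∂x₁`:
the coefficient of `dx₁`. -/
def defect₂ : Matrix (Fin N) (Fin N) B :=
  X.D₁ (X.i₂ X.x₂) • (E.g * (E.A₂.map V.t₂).map X.i₂ * E.g')

/-- The coefficient of `dx₁` in the cocycle `β_θ F₂_θ' - F₁_θ β_θ'` with values in
`End E ⊗ Ω¹` on `U₁₂`, in the frame `e₁`, which represents the cup product `ob(θ) ∪ ob(θ')`. -/
def cup (V V' : X.VectorField) : Matrix (Fin N) (Fin N) B :=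
  E.beta V * E.defect₂ V' - E.defect₁ V * E.beta V'

/-- The submodule of the matrices `M` over `B`, standing for the forms `M dx₁` with values in
`End E` on `U₁₂` (in the frame `e₁`), spanned by the forms regular on `U₁`, the forms `P dx₂` regular
on `U₂` (`P` in the frame `e₂`), and the forms `∇ Q`, `Q` an endomorphism of `E` on `U₁₂`.
The quotient by it is `H²_dR(C/R, End E)`. -/
def deRhamRelations : Submodule R (Matrix (Fin N) (Fin N) B) :=
  Submodule.span R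
    ({M | ∃ P : Matrix (Fin N) (Fin N) O₁, M = P.map X.i₁} ∪
     {M | ∃ P : Matrix (Fin N) (Fin N) O₂, M = X.D₁ (X.i₂ X.x₂) • (E.g * P.map X.i₂ * E.g')} ∪
     {M | ∃ Q, M = nabMat (X.D₁.restrictScalars ℤ) (E.A₁.map X.i₁) Q})

end Connection

end TwoChartCurve

end Helper12
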