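import Mathlib
import Pool.Agent.Helper12.IsoMat

namespace Helper12

open Finset Matrix

section Unram

/-- a derivation killing the source of a formally unramified map is zero -/
theorem der_eq_zero {A C : Type*} [CommRing A] [CommRing C] (φ : A →+* C)
    (hφ : φ.FormallyUnramified) (δ : Derivation ℤ C C) (h : ∀ a, δ (φ a) = 0) (c : C) :
    δ c = 0 := by
  algebraize [φ]
  have hsub : Subsingleton (Ω[C⁄A]) := Algebra.FormallyUnramified.subsingleton_kaehlerDifferential
  let δ' : Derivation A C C :=
    { toFun := δ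
      map_add' := δ.map_add
      map_smul' := by
        intro a c
        have e1 : ∀ z : C, a • z = φ a * z := fun z => by
          rw [Algebra.smul_def, RingHom.algebraMap_toAlgebra]
        rw [e1, Derivation.leibniz, h, smul_zero, add_zero, RingHom.id_apply, e1, smul_eq_mul]
      map_one_eq_zero' := δ.map_one_eq_zero
      leibniz' := δ.leibniz }
  have h0 : δ'.liftKaehlerDifferential = 0 := by
    refine LinearMap.ext fun x => ?_
    rw [Subsingleton.elim x 0, map_zero, map_zero]
  have h1 : δ' = 0 := by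
    have h2 := δ'.liftKaehlerDifferential_comp
    rw [← h2, h0]
    ext x
    simp
  exact congrArg (fun d : Derivation A C C => d c) h1

/-- difference of two derivations composed: the commutator as a derivation -/
theorem commutator_eq_zero {A C : Type*} [CommRing A] [CommRing C] (φ : A →+* C)
    (hφ : φ.FormallyUnramified) (δ ε : Derivation ℤ C C) (h : ∀ a, δ (ε (φ a)) = ε (δ (φ a)))
    (c : C) : δ (ε c) = ε (δ c) := by
  have h1 := der_eq_zero φ hφ ⁅δ, ε⁆ (fun a => by rw [Derivation.commutator_apply, h, sub_self]) c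
  rw [Derivation.commutator_apply, sub_eq_zero] at h1
  exact h1

end Unram

section Glue

variable {B : Type*} [CommRing B] {N : ℕ}

theorem map_inv (D : Derivation ℤ B B) (g g' : Matrix (Fin N) (Fin N) B) (h : g * g' = 1) :
    g'.map D = - (g' * g.map D * g') := by
  have h' : g' * g = 1 := mul_eq_one_comm.1 h
  have h1 : (g * g').map D = 0 := by
    rw [h]
    ext i j
    rw [Matrix.map_apply, Matrix.one_apply, Matrix.zero_apply]
    split_ifs
    · exact D.map_one_eq_zero
    · exact map_zero _
  rw [map_der_mul] at h1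
  have h2 : g' * (g.map D * g' + g * g'.map D) = 0 := by rw [h1, mul_zero]
  rw [mul_add, ← mul_assoc, ← mul_assoc, h', one_mul] at h2
  rw [eq_neg_iff_add_eq_zero, add_comm]
  exact h2

/-- the connection on endomorphisms in the second frame -/
theorem nabMat_conj (D : Derivation ℤ B B) (u w : B) (huw : w * u = 1)
    (g g' A A₂ : Matrix (Fin N) (Fin N) B) (h : g * g' = 1)
    (hA : A₂ = u • (g' * A * g + g' * g.map D)) (M : Matrix (Fin N) (Fin N) B) :
    nabMat D A (g * M * g') = w • (g * (u • M.map D + A₂ * M - M * A₂) * g') := by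
  have h' : g' * g = 1 := mul_eq_one_comm.1 h
  have h1 : u • M.map D + A₂ * M - M * A₂ = u • (M.map D + (g' * A * g + g' * g.map D) * M -
      M * (g' * A * g + g' * g.map D)) := by
    rw [hA, Matrix.smul_mul, Matrix.mul_smul, smul_sub, smul_add]
  rw [h1, Matrix.mul_smul, Matrix.smul_mul, smul_smul, huw, one_smul, nabMat, map_der_mul,
    map_der_mul, map_inv D g g' h]
  have e1 : g * (M.map D + (g' * A * g + g' * g.map D) * M -
      M * (g' * A * g + g' * g.map D)) * g' =
      g * M.map D * g' + (g * g') * A * g * M * g' + (g * g') * g.map D * M * g' -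
      g * M * g' * A * (g * g') - g * M * g' * g.map D * g' := by noncomm_ring
  rw [e1, h]
  noncomm_ring

/-- the cocycle condition -/
theorem defect_cocycle (D T₁ T₂ : Derivation ℤ B B) (u w x : B) (huw : w * u = 1)
    (hx : D x = 1) (hT : ∀ f, T₁ f = T₂ f - T₂ x * D f)
    (hcomm : ∀ f, T₂ (u * D f) = u * D (T₂ f))
    (g g' A A₂ : Matrix (Fin N) (Fin N) B) (h : g * g' = 1)
    (hA : A₂ = u • (g' * A * g + g' * g.map D)) :
    nabMat D A (g.map T₂ * g' + T₂ x • A) = w • (g * A₂.map T₂ * g') - A.map T₁ := by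
  have h' : g' * g = 1 := mul_eq_one_comm.1 h
  have hTu : w * T₂ u = D (T₂ x) := by
    have h1 := hcomm x
    rw [hx, mul_one] at h1
    rw [h1, ← mul_assoc, huw, one_mul]
  have hTD : (g.map D).map T₂ = (g.map T₂).map D - D (T₂ x) • g.map D := by
    ext i j
    simp only [Matrix.map_apply, Matrix.sub_apply, Matrix.smul_apply, smul_eq_mul]
    have h1 := hcomm (g i j)
    rw [Derivation.leibniz, smul_eq_mul, smul_eq_mul] at h1
    have h2 : w * (u * T₂ (D (g i j)) + D (g i j) * T₂ u) = w * (u * D (T₂ (g i j))) := by rw [h1]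
    rw [← hTu]
    linear_combination h2 + (D (T₂ (g i j)) - T₂ (D (g i j))) * huw
  have hA1 : A.map T₁ = A.map T₂ - T₂ x • A.map D := by
    ext i j
    simp only [Matrix.map_apply, Matrix.sub_apply, Matrix.smul_apply, smul_eq_mul, hT]
  have e0 : nabMat D A A = A.map D := by
    rw [nabMat]; abel
  rw [nabMat_add, nabMat_smul, e0, hA, map_der_smul, Matrix.mul_add, Matrix.add_mul, smul_add,
    Matrix.mul_smul, Matrix.smul_mul, smul_smul, Matrix.mul_smul, Matrix.smul_mul, smul_smul, huw,
    one_smul, hTu, map_der_add, map_der_mul, map_der_mul, map_der_mul, map_inv T₂ g g' h, hTD, hA1,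
    nabMat, map_der_mul, map_inv D g g' h]
  have e1 : g * (g' * A * g + g' * g.map D) * g' = (g * g') * A * (g * g') + (g * g') * g.map D * g' := by
    noncomm_ring
  have e2 : g * ((-(g' * g.map T₂ * g') * A + g' * A.map T₂) * g + g' * A * g.map T₂ +
      (-(g' * g.map T₂ * g') * g.map D + g' * ((g.map T₂).map D - D (T₂ x) • g.map D))) * g' =
      - (g * g') * g.map T₂ * g' * A * (g * g') + (g * g') * A.map T₂ * (g * g') +
      (g * g') * A * g.map T₂ * g' - (g * g') * g.map T₂ * g' * g.map D * g' +
      (g * g') * ((g.map T₂).map D - D (T₂ x) • g.map D) * g' := by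
    noncomm_ring
  rw [e1, e2, h]
  simp only [one_mul, mul_one, Matrix.sub_mul, Matrix.smul_mul, smul_add]
  noncomm_ring

/-- The main identity. -/
theorem cup_identity (D : Derivation ℤ B B) (A β β' F₁ F₁' F₂ F₂' m n j₁ j₂ :
    Matrix (Fin N) (Fin N) B)
    (hβ : nabMat D A β = F₂ - F₁) (hβ' : nabMat D A β' = F₂' - F₁')
    (hm : nabMat D A m = F₁ + j₁) (hn : nabMat D A n = F₂' + j₂) :
    β * F₂' - F₁ * β' =
      nabMat D A (β * n + m * n - m * β') - F₂ * n - m * F₁'
        + (j₁ * β' - β * j₂ - m * j₂ - j₁ * n) := by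
  have h0 : nabMat D A (β * n + m * n - m * β') =
      nabMat D A (β * n) + nabMat D A (m * n) - nabMat D A (m * β') := by
    have h1 := nabMat_add D A (β * n + m * n) (- (m * β'))
    have h2 := nabMat_smul D A (-1) (m * β')
    have h3 : D (-1 : B) = 0 := by rw [map_neg, D.map_one_eq_zero, neg_zero]
    rw [h3, zero_smul, zero_add, neg_one_smul, neg_one_smul] at h2
    rw [sub_eq_add_neg, h1, h2, nabMat_add, ← sub_eq_add_neg]
  rw [h0, nabMat_mul, nabMat_mul, nabMat_mul, hβ, hβ', hm, hn]
  noncomm_ring

end Glue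

end Helper12
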