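import Mathlib
import Pool.Agent.Helper12.IsoDefs
import Pool.Agent.Helper12.IsoGlue
import Pool.Agent.Helper12.IsoSat

namespace Helper12

open Polynomial Matrix Filter

section Sat

variable {C : Type*} [CommRing C]

/-- elements which become divisible by `p` after multiplication by a power of `a` -/
def satIdeal (a : C) (p : ℕ) : Ideal C where
  carrier := {c | ∃ j : ℕ, a ^ j * c ∈ Ideal.span {(p : C)}}
  zero_mem' := ⟨0, by simp⟩
  add_mem' := by
    rintro c c' ⟨j, hj⟩ ⟨j', hj'⟩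
    refine ⟨j + j', ?_⟩
    have : a ^ (j + j') * (c + c') = a ^ j' * (a ^ j * c) + a ^ j * (a ^ j' * c') := by ring
    rw [this]
    exact Ideal.add_mem _ (Ideal.mul_mem_left _ _ hj) (Ideal.mul_mem_left _ _ hj')
  smul_mem' := by
    rintro c c' ⟨j, hj⟩
    refine ⟨j, ?_⟩
    rw [smul_eq_mul, ← mul_assoc, mul_comm (a ^ j) c, mul_assoc]
    exact Ideal.mul_mem_left _ _ hj

theorem mem_satIdeal {a : C} {p : ℕ} {c : C} :
    c ∈ satIdeal a p ↔ ∃ j : ℕ, a ^ j * c ∈ Ideal.span {(p : C)} := Iff.rfl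

theorem natCast_mem_satIdeal (a : C) (p : ℕ) : (p : C) ∈ satIdeal a p :=
  ⟨0, by rw [pow_zero, one_mul]; exact Ideal.mem_span_singleton_self _⟩

theorem der_mem_satIdeal (a : C) (p : ℕ) (θ : Derivation ℤ C C) (c : C) (hc : c ∈ satIdeal a p) :
    θ c ∈ satIdeal a p := by
  obtain ⟨j, hj⟩ := hc
  refine ⟨j + 1, ?_⟩
  obtain ⟨z, hz⟩ := Ideal.mem_span_singleton.1 hj
  have h1 : θ (a ^ j * c) = (p : C) * θ z := by
    rw [hz, Derivation.leibniz, θ.map_natCast, smul_zero, add_zero, smul_eq_mul]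
  rw [Derivation.leibniz, Derivation.leibniz_pow, smul_eq_mul, smul_eq_mul, smul_eq_mul,
    nsmul_eq_mul] at h1
  have h2 : a ^ (j + 1) * θ c = (p : C) * (a * θ z - (j : C) * θ a * z) := by
    rcases Nat.eq_zero_or_pos j with h | h
    · subst h
      simp only [pow_zero, one_mul, Nat.cast_zero, zero_mul, mul_zero, add_zero, zero_add, pow_one,
        sub_zero] at h1 ⊢
      rw [h1]; ring
    · have h3 : a ^ j = a * a ^ (j - 1) := by
        rw [← pow_succ', Nat.sub_add_cancel h]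
      have h4 : a * (c * ((j : C) * (a ^ (j - 1) * θ a))) = (j : C) * θ a * (a ^ j * c) := by
        rw [h3]; ring
      rw [pow_succ']
      linear_combination a * h1 - h4 - (j : C) * θ a * hz
  rw [h2]
  exact Ideal.mul_mem_right _ _ (Ideal.mem_span_singleton_self _)

theorem map_mem_satIdeal {C' : Type*} [CommRing C'] (φ : C →+* C') (a : C) (p : ℕ) (c : C)
    (hc : c ∈ satIdeal a p) : φ c ∈ satIdeal (φ a) p := by
  obtain ⟨j, hj⟩ := hc
  refine ⟨j, ?_⟩
  rw [← map_pow, ← map_mul]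
  obtain ⟨z, hz⟩ := Ideal.mem_span_singleton.1 hj
  rw [hz, map_mul, map_natCast]
  exact Ideal.mul_mem_right _ _ (Ideal.mem_span_singleton_self _)

theorem exists_pow_smul {N : ℕ} (a : C) (p : ℕ) (M : Matrix (Fin N) (Fin N) C)
    (h : ∀ i j, M i j ∈ satIdeal a p) :
    ∃ (k : ℕ) (Z : Matrix (Fin N) (Fin N) C), a ^ k • M = (p : C) • Z := by
  classical
  choose k hk using h
  let K := Finset.univ.sup (fun ij : Fin N × Fin N => k ij.1 ij.2)
  have h1 : ∀ i j, ∃ z, a ^ K * M i j = (p : C) * z := by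
    intro i j
    have h2 : k i j ≤ K := Finset.le_sup (f := fun ij : Fin N × Fin N => k ij.1 ij.2)
      (Finset.mem_univ (i, j))
    obtain ⟨z, hz⟩ := Ideal.mem_span_singleton.1 (hk i j)
    refine ⟨a ^ (K - k i j) * z, ?_⟩
    have h3 : a ^ K = a ^ (K - k i j) * a ^ k i j := by
      rw [← pow_add, Nat.sub_add_cancel h2]
    rw [h3, mul_assoc, hz]
    ring
  choose Z hZ using h1
  refine ⟨K, Matrix.of Z, ?_⟩
  ext i j
  rw [Matrix.smul_apply, Matrix.smul_apply, smul_eq_mul, smul_eq_mul, hZ]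
  rfl

theorem mul_entry_mem {N : ℕ} (J : Ideal C) (M M' : Matrix (Fin N) (Fin N) C)
    (h : ∀ i j, M' i j ∈ J) (i j : Fin N) : (M * M') i j ∈ J := by
  rw [Matrix.mul_apply]
  apply Ideal.sum_mem
  intro k _
  exact Ideal.mul_mem_left _ _ (h _ _)

theorem entry_mul_mem {N : ℕ} (J : Ideal C) (M M' : Matrix (Fin N) (Fin N) C)
    (h : ∀ i j, M i j ∈ J) (i j : Fin N) : (M * M') i j ∈ J := by
  rw [Matrix.mul_apply]
  apply Ideal.sum_mem
  intro k _
  exact Ideal.mul_mem_right _ _ (h _ _)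

end Sat

section Coord

theorem der_eq_zero_of_coord {R O : Type} [CommRing R] [CommRing O] [Algebra R O] (x : O)
    (hx : (aeval x : R[X] →ₐ[R] O).toRingHom.Etale) (δ : Derivation ℤ O O)
    (h1 : ∀ r, δ (algebraMap R O r) = 0) (h2 : δ x = 0) (c : O) : δ c = 0 := by
  apply der_eq_zero _ hx.formallyUnramified δ
  intro P
  change δ (aeval x P) = 0
  induction P using Polynomial.induction_on' with
  | add P Q hP hQ => rw [map_add, map_add, hP, hQ, add_zero]
  | monomial n a =>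
    rw [aeval_monomial, Derivation.leibniz, Derivation.leibniz_pow, h1, h2]
    simp

end Coord

namespace TwoChartCurve

variable {R O₁ O₂ B : Type} [CommRing R] [CommRing O₁] [CommRing O₂] [CommRing B]
    [Algebra R O₁] [Algebra R O₂] [Algebra R B] (X : TwoChartCurve R O₁ O₂ B)

theorem etale_coord₁ : (aeval (X.i₁ X.x₁) : R[X] →ₐ[R] B).toRingHom.Etale := by
  have h : (aeval (X.i₁ X.x₁) : R[X] →ₐ[R] B).toRingHom =
      X.i₁.toRingHom.comp (aeval X.x₁ : R[X] →ₐ[R] O₁).toRingHom := by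
    refine Polynomial.ringHom_ext' ?_ ?_
    · ext a; simp
    · simp
  rw [h]
  exact RingHom.Etale.stableUnderComposition _ _ X.x₁_etale X.i₁_etale

theorem etale_coord₂ : (aeval (X.i₂ X.x₂) : R[X] →ₐ[R] B).toRingHom.Etale := by
  have h : (aeval (X.i₂ X.x₂) : R[X] →ₐ[R] B).toRingHom =
      X.i₂.toRingHom.comp (aeval X.x₂ : R[X] →ₐ[R] O₂).toRingHom := by
    refine Polynomial.ringHom_ext' ?_ ?_
    · ext a; simp
    · simp
  rw [h]
  exact RingHom.Etale.stableUnderComposition _ _ X.x₂_etale X.i₂_etale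

theorem D₂_eq (b : B) : X.D₂ b = X.D₂ (X.i₁ X.x₁) * X.D₁ b := by
  have h := der_eq_zero_of_coord (R := R) (X.i₁ X.x₁) X.etale_coord₁
    ((X.D₂.restrictScalars ℤ) - X.D₂ (X.i₁ X.x₁) • (X.D₁.restrictScalars ℤ))
    (fun r => by simp) (by simp [X.D₁_i₁, X.d₁_x₁]) b
  simpa [sub_eq_zero] using h

theorem w_mul_u : X.D₁ (X.i₂ X.x₂) * X.D₂ (X.i₁ X.x₁) = 1 := by
  have h := X.D₂_eq (X.i₂ X.x₂)
  rw [X.D₂_i₂, X.d₂_x₂, map_one] at h
  rw [mul_comm]
  exact h.symm

variable {X} (V : X.VectorField)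

theorem VectorField.T₁_algebraMap (r : R) : V.T₁ (algebraMap R B r) = algebraMap R B (V.θ r) := by
  rw [← X.i₁.commutes, V.T₁_i₁, V.t₁_algebraMap, X.i₁.commutes]

theorem VectorField.T₂_algebraMap (r : R) : V.T₂ (algebraMap R B r) = algebraMap R B (V.θ r) := by
  rw [← X.i₂.commutes, V.T₂_i₂, V.t₂_algebraMap, X.i₂.commutes]

theorem VectorField.T₁_eq (b : B) : V.T₁ b = V.T₂ b - V.T₂ (X.i₁ X.x₁) * X.D₁ b := by
  have h := der_eq_zero_of_coord (R := R) (X.i₁ X.x₁) X.etale_coord₁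
    (V.T₁ - V.T₂ + V.T₂ (X.i₁ X.x₁) • (X.D₁.restrictScalars ℤ))
    (fun r => by simp [V.T₁_algebraMap, V.T₂_algebraMap])
    (by simp [X.D₁_i₁, X.d₁_x₁, V.T₁_i₁, V.t₁_x₁]) b
  simp only [Derivation.add_apply, Derivation.sub_apply, Derivation.smul_apply,
    Derivation.restrictScalars_apply, smul_eq_mul] at h
  linear_combination h

theorem VectorField.t₁_comm (f : O₁) : V.t₁ (X.d₁ f) = X.d₁ (V.t₁ f) := by
  have h := der_eq_zero_of_coord (R := R) X.x₁ X.x₁_etale ⁅V.t₁, X.d₁.restrictScalars ℤ⁆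
    (fun r => by rw [Derivation.commutator_apply]; simp [V.t₁_algebraMap])
    (by rw [Derivation.commutator_apply]; simp [X.d₁_x₁, V.t₁_x₁]) f
  rw [Derivation.commutator_apply, sub_eq_zero] at h
  simpa using h

theorem VectorField.t₂_comm (f : O₂) : V.t₂ (X.d₂ f) = X.d₂ (V.t₂ f) := by
  have h := der_eq_zero_of_coord (R := R) X.x₂ X.x₂_etale ⁅V.t₂, X.d₂.restrictScalars ℤ⁆
    (fun r => by rw [Derivation.commutator_apply]; simp [V.t₂_algebraMap])
    (by rw [Derivation.commutator_apply]; simp [X.d₂_x₂, V.t₂_x₂]) f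
  rw [Derivation.commutator_apply, sub_eq_zero] at h
  simpa using h

theorem VectorField.T₂_comm (b : B) : V.T₂ (X.D₂ b) = X.D₂ (V.T₂ b) := by
  have h := der_eq_zero_of_coord (R := R) (X.i₂ X.x₂) X.etale_coord₂ ⁅V.T₂, X.D₂.restrictScalars ℤ⁆
    (fun r => by rw [Derivation.commutator_apply]; simp [V.T₂_algebraMap])
    (by rw [Derivation.commutator_apply]; simp [X.D₂_i₂, X.d₂_x₂, V.T₂_i₂, V.t₂_x₂]) b
  rw [Derivation.commutator_apply, sub_eq_zero] at h
  simpa using h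

end TwoChartCurve

end Helper12
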