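import Mathlib
import Pool.Agent.Helper12.IsoMat
import Pool.Agent.Helper12.IsoMain

namespace Helper12

open Finset Matrix Polynomial

section Ring

variable {E : Type*} [Ring E]

theorem pow_mul_mod (p : ℕ) (hp : p.Prime) (a b : E) :
    ∃ c : E, a ^ p * b = b * a ^ p + (fun c => a * c - c * a)^[p] b + (p : E) * c := by
  let Lm : Module.End ℤ E := LinearMap.mulLeft ℤ a
  let Rm : Module.End ℤ E := LinearMap.mulRight ℤ a
  have hcomm : Commute (Lm - Rm) Rm := by
    have h1 : Commute Lm Rm := LinearMap.commute_mulLeft_right _ _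
    exact h1.sub_left (Commute.refl _)
  obtain ⟨r, hr⟩ := hcomm.exists_add_pow_prime_eq hp
  rw [sub_add_cancel] at hr
  have h1 : ∀ m, (fun c => a * c - c * a)^[m] b = ((Lm - Rm) ^ m) b := by
    intro m
    induction m with
    | zero => simp
    | succ m ih =>
      rw [Function.iterate_succ', Function.comp, ih, pow_succ', Module.End.mul_apply]
      rfl
  have h2 := LinearMap.congr_fun hr b
  have h3 : (Lm ^ p) b = a ^ p * b := by
    rw [LinearMap.pow_mulLeft]; rfl
  have h4 : (Rm ^ p) b = b * a ^ p := by
    rw [LinearMap.pow_mulRight]; rfl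
  have h5 : ((p : Module.End ℤ E) * ((Lm - Rm) * Rm * r)) b = (p : E) * (((Lm - Rm) * Rm * r) b) := by
    rw [Module.End.mul_apply, Module.End.natCast_apply, nsmul_eq_mul]
  refine ⟨((Lm - Rm) * Rm * r) b, ?_⟩
  rw [h3] at h2
  rw [h2, LinearMap.add_apply, LinearMap.add_apply, h4, h1]
  have h6 : ((p : Module.End ℤ E) * (Lm - Rm) * Rm * r) b = (p : E) * (((Lm - Rm) * Rm * r) b) := by
    rw [← h5]
    simp only [mul_assoc]
  rw [h6]
  abel

end Ring

section Semi

/-- iterates of a derivation-like operator modulo `p` -/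
theorem iterate_smul_mod {C M : Type*} [CommRing C] [AddCommGroup M] [Module C M] (p : ℕ)
    (hp : p.Prime) (d : C →+ C) (T : M →+ M)
    (hT : ∀ (c : C) (m : M), T (c • m) = d c • m + c • T m) (c : C) (m : M) :
    ∃ z : M, T^[p] (c • m) = c • T^[p] m + (d^[p] c) • m + (p : C) • z := by
  let a : Module.End ℤ M := T.toIntLinearMap
  let b : C → Module.End ℤ M := fun c =>
    { toFun := fun m => c • m
      map_add' := fun x y => smul_add _ _ _
      map_smul' := fun n x => by rw [RingHom.id_apply, smul_comm] }
  have hb : ∀ c, a * b c - b c * a = b (d c) := by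
    intro c
    refine LinearMap.ext fun m => ?_
    change T (c • m) - c • T m = d c • m
    rw [hT]
    abel
  have hit : ∀ n c, (fun e => a * e - e * a)^[n] (b c) = b (d^[n] c) := by
    intro n
    induction n with
    | zero => intro c; rfl
    | succ n ih => intro c; rw [Function.iterate_succ, Function.comp, hb, ih, Function.iterate_succ,
        Function.comp]
  obtain ⟨e, he⟩ := pow_mul_mod p hp a (b c)
  rw [hit] at he
  have h1 := LinearMap.congr_fun he m
  refine ⟨e m, ?_⟩
  have h2 : ∀ n m, (a ^ n) m = T^[n] m := by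
    intro n m
    rw [Module.End.pow_apply]
    rfl
  have h3 : (a ^ p * b c) m = T^[p] (c • m) := by rw [Module.End.mul_apply, h2]; rfl
  have h4 : (b c * a ^ p) m = c • T^[p] m := by rw [Module.End.mul_apply, h2]; rfl
  have h5 : ((p : Module.End ℤ M) * e) m = (p : C) • e m := by
    rw [Module.End.mul_apply, Module.End.natCast_apply, Nat.cast_smul_eq_nsmul]
  rw [LinearMap.add_apply, LinearMap.add_apply, h3, h4, h5] at h1
  exact h1

/-- a derivation killing the source of a formally unramified map is zero -/
theorem der_eq_zero' {A C M : Type*} [CommRing A] [CommRing C] [AddCommGroup M] [Module C M]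
    (φ : A →+* C) (hφ : φ.FormallyUnramified) (δ : Derivation ℤ C M) (h : ∀ a, δ (φ a) = 0)
    (c : C) : δ c = 0 := by
  algebraize [φ]
  letI : Module A M := Module.compHom M φ
  haveI : IsScalarTower A C M := ⟨fun a c m => by
    rw [Algebra.smul_def, mul_smul]; rfl⟩
  have hsub : Subsingleton (Ω[C⁄A]) := Algebra.FormallyUnramified.subsingleton_kaehlerDifferential
  let δ' : Derivation A C M :=
    { toFun := δ
      map_add' := δ.map_add
      map_smul' := by
        intro a c
        have e1 : a • c = φ a * c := by rw [Algebra.smul_def, RingHom.algebraMap_toAlgebra]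
        rw [e1, Derivation.leibniz, h, smul_zero, add_zero, RingHom.id_apply]
        rfl
      map_one_eq_zero' := δ.map_one_eq_zero
      leibniz' := δ.leibniz }
  have h0 : δ'.liftKaehlerDifferential = 0 := by
    refine LinearMap.ext fun x => ?_
    rw [Subsingleton.elim x 0, map_zero, map_zero]
  have h1 : δ' = 0 := by
    have h2 := δ'.liftKaehlerDifferential_comp
    rw [← h2, h0]
    ext x
    simp
  exact congrArg (fun d : Derivation A C M => d c) h1

/-- The `p`-th iterate of `∂/∂x`, `x` an étale coordinate, vanishes modulo `p`. -/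
theorem iterate_der_mem {R O : Type} [CommRing R] [CommRing O] [Algebra R O] (x : O)
    (hx : (aeval x : R[X] →ₐ[R] O).toRingHom.Etale) (D : Derivation R O O) (hDx : D x = 1)
    (p : ℕ) (hp : p.Prime) (c : O) : D^[p] c ∈ Ideal.span {(p : O)} := by
  have hmod : ∀ a b : O, ∃ z : O, D^[p] (a * b) = a * D^[p] b + D^[p] a * b + (p : O) * z := by
    intro a b
    obtain ⟨z, hz⟩ := iterate_smul_mod p hp (D : O →+ O) (D : O →+ O)
      (fun c m => by
        change D (c • m) = D c • m + c • D m
        simp only [smul_eq_mul, Derivation.leibniz]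
        ring) a b
    exact ⟨z, hz⟩
  have hadd : ∀ n (a b : O), D^[n] (a + b) = D^[n] a + D^[n] b := by
    intro n a b
    exact iterate_map_add (D : O →+ O) n a b
  let δ : Derivation ℤ O (O ⧸ Ideal.span {(p : O)}) := Derivation.mk'
    ((AddMonoidHom.mk' (fun c => Ideal.Quotient.mk (Ideal.span {(p : O)}) (D^[p] c))
      (fun a b => by rw [hadd, map_add])).toIntLinearMap) (fun a b => by
        change Ideal.Quotient.mk _ (D^[p] (a * b)) =
          a • Ideal.Quotient.mk _ (D^[p] b) + b • Ideal.Quotient.mk _ (D^[p] a)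
        obtain ⟨z, hz⟩ := hmod a b
        rw [hz, map_add, map_add, map_mul, map_mul, map_mul]
        have h0 : Ideal.Quotient.mk (Ideal.span {(p : O)}) (p : O) = 0 :=
          Ideal.Quotient.eq_zero_iff_mem.2 (Ideal.mem_span_singleton_self _)
        rw [h0, zero_mul, add_zero, Algebra.smul_def, Algebra.smul_def, Ideal.Quotient.algebraMap_eq]
        ring)
  have hδ : ∀ c, δ c = Ideal.Quotient.mk (Ideal.span {(p : O)}) (D^[p] c) := fun c => rfl
  have hzero : ∀ n, 0 < n → D^[n] (0 : O) = 0 := by
    intro n _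
    exact iterate_map_zero (D : O →+ O) n
  have h1 : ∀ r, δ (algebraMap R O r) = 0 := by
    intro r
    obtain ⟨q, rfl⟩ : ∃ q, p = q + 1 := ⟨p - 1, by have := hp.pos; omega⟩
    rw [hδ, Function.iterate_succ, Function.comp, D.map_algebraMap,
      show D^[q] (0 : O) = 0 from iterate_map_zero (D : O →+ O) q, map_zero]
  have h2 : δ x = 0 := by
    obtain ⟨q, rfl⟩ : ∃ q, p = q + 2 := ⟨p - 2, by have := hp.two_le; omega⟩
    rw [hδ, Function.iterate_succ, Function.comp, hDx, Function.iterate_succ, Function.comp,
      D.map_one_eq_zero, show D^[q] (0 : O) = 0 from iterate_map_zero (D : O →+ O) q, map_zero]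
  have h3 := der_eq_zero' _ hx.formallyUnramified δ (fun P => by
    change δ (aeval x P) = 0
    induction P using Polynomial.induction_on' with
    | add P Q hP hQ => rw [map_add, map_add, hP, hQ, add_zero]
    | monomial n a =>
      rw [aeval_monomial, Derivation.leibniz, Derivation.leibniz_pow, h1, h2]
      simp) c
  rw [hδ] at h3
  exact Ideal.Quotient.eq_zero_iff_mem.1 h3

/-- bound on the nilpotency exponent of the `p`-curvature at a closed point -/
theorem nilpotent_exponent {C : Type*} [CommRing C] {N : ℕ} (D : Derivation ℤ C C)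
    (A : Matrix (Fin N) (Fin N) C) (p : ℕ) (hp : p.Prime) (I : Ideal C) (hI : I.IsMaximal)
    (hpI : (p : C) ∈ I) (hD : ∀ c, D^[p] c ∈ I)
    (h : ∃ n, ∀ v i, (nabVec D A)^[p * n] v i ∈ I) :
    ∀ v i, (nabVec D A)^[p * N] v i ∈ I := by
  classical
  letI := Ideal.Quotient.field I
  let κ := C ⧸ I
  let mk : C →+* κ := Ideal.Quotient.mk I
  let T : (Fin N → C) → (Fin N → C) := (nabVec D A)^[p]
  have hmk0 : mk (p : C) = 0 := Ideal.Quotient.eq_zero_iff_mem.2 hpI
  have hTadd : ∀ v w, T (v + w) = T v + T w := by
    intro v w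
    exact iterate_map_add (nabEnd D A).toAddMonoidHom p v w
  have hTsmul : ∀ (c : C) (v : Fin N → C) i, mk (T (c • v) i) = mk c * mk (T v i) := by
    intro c v i
    obtain ⟨z, hz⟩ := iterate_smul_mod p hp (D : C →+ C) (nabEnd D A).toAddMonoidHom
      (fun c m => by
        change nabVec D A (c • m) = D c • m + c • nabVec D A m
        funext i
        simp only [nabVec, Pi.smul_apply, Pi.add_apply, Matrix.mulVec_smul, smul_eq_mul,
          Derivation.leibniz]
        ring) c v
    have h1 : T (c • v) = c • T v + (D^[p] c) • v + (p : C) • z := hz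
    have h2 : mk (D^[p] c) = 0 := Ideal.Quotient.eq_zero_iff_mem.2 (hD c)
    rw [h1]
    simp only [Pi.add_apply, Pi.smul_apply, smul_eq_mul, map_add, map_mul, h2, hmk0, zero_mul,
      add_zero]
  let Ψ : Matrix (Fin N) (Fin N) κ := fun i j => mk (T (Pi.single j 1) i)
  have hT0 : T 0 = 0 := iterate_map_zero (nabEnd D A).toAddMonoidHom p
  have hsum : ∀ (s : Finset (Fin N)) (f : Fin N → (Fin N → C)), T (∑ j ∈ s, f j) = ∑ j ∈ s, T (f j) := by
    intro s f
    induction s using Finset.induction_on with
    | empty => simp only [Finset.sum_empty, hT0]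
    | insert a s ha ih => rw [Finset.sum_insert ha, Finset.sum_insert ha, hTadd, ih]
  have hΨ : ∀ v : Fin N → C, (fun i => mk (T v i)) = Ψ *ᵥ (fun i => mk (v i)) := by
    intro v
    funext i
    have h1 : v = ∑ j, v j • (Pi.single j 1 : Fin N → C) := by
      funext i
      simp [Finset.sum_apply, Pi.single_apply]
    conv_lhs => rw [h1]
    rw [hsum, Finset.sum_apply, map_sum, Matrix.mulVec, dotProduct]
    apply Finset.sum_congr rfl
    intro j _
    rw [hTsmul, mul_comm]
  have hpow : ∀ n (v : Fin N → C), (fun i => mk (T^[n] v i)) = (Ψ ^ n) *ᵥ (fun i => mk (v i)) := by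
    intro n
    induction n with
    | zero => intro v; simp
    | succ n ih =>
      intro v
      rw [Function.iterate_succ', Function.comp, hΨ, ih, Matrix.mulVec_mulVec, pow_succ']
  have hTit : ∀ n v, (nabVec D A)^[p * n] v = T^[n] v := by
    intro n v
    rw [Function.iterate_mul]
  obtain ⟨n, hn⟩ := h
  have hnil : Ψ ^ n = 0 := by
    ext i j
    have h1 := congrFun (hpow n (Pi.single j 1)) i
    have h2 : (fun i => mk ((Pi.single j 1 : Fin N → C) i)) = Pi.single j 1 := by
      funext k
      by_cases hkj : k = j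
      · subst hkj; simp
      · simp [hkj]
    rw [h2, Matrix.mulVec_single_one] at h1
    have h3 : mk (T^[n] (Pi.single j 1) i) = 0 := by
      rw [← hTit]
      exact Ideal.Quotient.eq_zero_iff_mem.2 (hn _ _)
    rw [h3] at h1
    exact h1.symm
  have hN : Ψ ^ N = 0 := by
    have h1 : IsNilpotent Ψ := ⟨n, hnil⟩
    have h2 := Matrix.isNilpotent_charpoly_sub_pow_of_isNilpotent h1
    rw [Fintype.card_fin] at h2
    have h3 : Ψ.charpoly - X ^ N = 0 := h2.eq_zero
    have h4 := Ψ.aeval_self_charpoly
    rw [sub_eq_zero.1 h3] at h4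
    simpa using h4
  intro v i
  rw [hTit]
  have h1 := congrFun (hpow N v) i
  rw [hN, Matrix.zero_mulVec] at h1
  exact Ideal.Quotient.eq_zero_iff_mem.1 h1

end Semi

end Helper12
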