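import Mathlib
import Pool.Agent.Helper12.ConstModP
import Pool.Agent.Helper12.IsoSat
import Pool.Agent.Helper12.IsoTors

namespace Helper12

open Polynomial Matrix Filter

section

theorem comap_isMaximal {R C : Type} [CommRing R] [CommRing C] [Algebra R C]
    [Algebra.FiniteType ℤ R] [Algebra.FiniteType ℤ C] (m : Ideal C) (hm : m.IsMaximal) :
    (m.comap (algebraMap R C)).IsMaximal := by
  haveI := isJacobsonRing_int
  haveI : IsJacobsonRing R := isJacobsonRing_of_finiteType (A := ℤ)
  letI := Ideal.Quotient.field m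
  haveI : Algebra.FiniteType R C := Algebra.FiniteType.of_restrictScalars_finiteType ℤ R C
  haveI : Algebra.FiniteType R (C ⧸ m) := inferInstance
  haveI : Module.Finite R (C ⧸ m) := finite_of_finite_type_of_isJacobsonRing R (C ⧸ m)
  haveI : Algebra.IsIntegral R (C ⧸ m) := inferInstance
  have h1 := Ideal.isMaximal_comap_of_isIntegral_of_isMaximal (R := R) (S := C ⧸ m) ⊥
  have h2 : (⊥ : Ideal (C ⧸ m)).comap (algebraMap R (C ⧸ m)) = m.comap (algebraMap R C) := by
    ext r
    rw [Ideal.mem_comap, Ideal.mem_bot, Ideal.mem_comap, ← Ideal.Quotient.eq_zero_iff_mem]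
    rfl
  rwa [h2] at h1

/-- From nilpotent `p`-curvature at closed points to divisibility by `p`. -/
theorem frequently_sat {R C : Type} [CommRing R] [IsDomain R] [CharZero R]
    [Algebra.FiniteType ℤ R] [CommRing C] [IsDomain C] [Algebra R C] (x : C)
    (hx : (aeval x : R[X] →ₐ[R] C).toRingHom.Etale) (D : Derivation R C C) (hDx : D x = 1) {N : ℕ}
    (A : Matrix (Fin N) (Fin N) C) (h : R) (hh : h ≠ 0)
    (hnil : ∃ᶠ p : ℕ in atTop, p.Prime ∧ ∀ m : Ideal R, m.IsMaximal → (p : R) ∈ m → h ∉ m →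
      ∃ n, ∀ v i, (nabVec (D.restrictScalars ℤ) A)^[p * n] v i ∈ m.map (algebraMap R C)) :
    ∃ f : R, f ≠ 0 ∧ ∃ᶠ p : ℕ in atTop, p.Prime ∧ ∃ n, ∀ v i,
      (nabVec (D.restrictScalars ℤ) A)^[n] v i ∈ satIdeal (algebraMap R C f) p := by
  obtain ⟨f, hf, hsat⟩ := exists_saturation R
  have hne := algebraMap_ne_zero_of_etale x hx
  haveI : CharZero C := ⟨fun a b hab => by
    have h1 : algebraMap R C (a : R) = algebraMap R C (b : R) := by
      rw [map_natCast, map_natCast]; exact hab
    by_contra hab'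
    have h2 : ((a : R) - (b : R)) ≠ 0 := by
      intro h0
      exact hab' (Nat.cast_injective (sub_eq_zero.1 h0))
    apply hne _ h2
    rw [map_sub, h1, sub_self]⟩
  haveI := finiteType_of_etale x hx
  refine ⟨f, hf, ?_⟩
  refine (hnil.and_eventually (eventually_radical_of_maximal (algebraMap R C h) (hne h hh))).mono ?_
  rintro p ⟨⟨hp, hm⟩, hrad⟩
  refine ⟨hp, p * N, ?_⟩
  intro v i
  apply hsat C x hx p hp
  apply hrad hp
  intro m hmax hpm hhm
  have hpm' : (p : R) ∈ m.comap (algebraMap R C) := by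
    rw [Ideal.mem_comap, map_natCast]; exact hpm
  have hhm' : h ∉ m.comap (algebraMap R C) := by rwa [Ideal.mem_comap]
  obtain ⟨n, hn⟩ := hm _ (comap_isMaximal m hmax) hpm' hhm'
  apply nilpotent_exponent (D.restrictScalars ℤ) A p hp m hmax hpm
  · intro c
    have h1 := iterate_der_mem x hx D hDx p hp c
    obtain ⟨z, hz⟩ := Ideal.mem_span_singleton.1 h1
    have h2 : (D.restrictScalars ℤ)^[p] c = D^[p] c := rfl
    rw [h2, hz]
    exact m.mul_mem_right _ hpm
  · exact ⟨n, fun v i => Ideal.map_comap_le (hn v i)⟩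

end

end Helper12
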