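import Mathlib
import Pool.Agent.Helper12.IsoMat
import Pool.Agent.Helper12.IsoMain

namespace Helper12

open Matrix

section Vec

variable {C F : Type*} [CommRing C] [Field F] (ι : C →+* F) (D : Derivation ℤ C C)
  (D' : Derivation ℤ F F) (hD' : ∀ c, D' (ι c) = ι (D c)) {N : ℕ} (A : Matrix (Fin N) (Fin N) C)

include hD' in
theorem nabVec_map (v : Fin N → C) :
    nabVec D' (A.map ι) (fun i => ι (v i)) = fun i => ι (nabVec D A v i) := by
  funext i
  simp only [nabVec, Matrix.mulVec, dotProduct, Matrix.map_apply, hD', map_add, map_sum, map_mul]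

include hD' in
theorem nabVec_iterate_map (n : ℕ) (v : Fin N → C) :
    (nabVec D' (A.map ι))^[n] (fun i => ι (v i)) = fun i => ι ((nabVec D A)^[n] v i) := by
  induction n generalizing v with
  | zero => rfl
  | succ n ih =>
    rw [Function.iterate_succ_apply, Function.iterate_succ_apply, nabVec_map ι D D' hD' A, ih]

theorem nabVec_smul (A' : Matrix (Fin N) (Fin N) F) (c : F) (v : Fin N → F) :
    nabVec D' A' (c • v) = D' c • v + c • nabVec D' A' v := by
  funext i
  simp only [nabVec, Pi.add_apply, Pi.smul_apply, Matrix.mulVec_smul, Derivation.leibniz, smul_eq_mul]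
  ring

theorem nabVec_iterate_smul (A' : Matrix (Fin N) (Fin N) F) (c : F) (hc : D' c = 0) (n : ℕ)
    (v : Fin N → F) : (nabVec D' A')^[n] (c • v) = c • (nabVec D' A')^[n] v := by
  induction n generalizing v with
  | zero => rfl
  | succ n ih =>
    rw [Function.iterate_succ_apply, Function.iterate_succ_apply, nabVec_smul, hc, zero_smul,
      zero_add, ih]

theorem exists_common_pow {φ : F} (v : Fin N → F) (h : ∀ i, ∃ (k : ℕ) (c : C), φ ^ k * v i = ι c)
    (hφ : ∃ c, φ = ι c) : ∃ (k : ℕ) (v₀ : Fin N → C), φ ^ k • v = fun i => ι (v₀ i) := by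
  classical
  obtain ⟨φ₀, rfl⟩ := hφ
  choose k c hc using h
  let K := Finset.univ.sup k
  refine ⟨K, fun i => φ₀ ^ (K - k i) * c i, ?_⟩
  funext i
  have h2 : k i ≤ K := Finset.le_sup (f := k) (Finset.mem_univ i)
  rw [Pi.smul_apply, smul_eq_mul, map_mul, ← hc, map_pow, ← mul_assoc, ← pow_add,
    Nat.sub_add_cancel h2]

theorem exists_pow_smul_vec (a : C) (p : ℕ) (v : Fin N → C) (h : ∀ i, v i ∈ satIdeal a p) :
    ∃ (k : ℕ) (z : Fin N → C), ∀ i, a ^ k * v i = (p : C) * z i := by
  classical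
  choose k hk using h
  let K := Finset.univ.sup k
  have h1 : ∀ i, ∃ z, a ^ K * v i = (p : C) * z := by
    intro i
    have h2 : k i ≤ K := Finset.le_sup (f := k) (Finset.mem_univ i)
    obtain ⟨z, hz⟩ := Ideal.mem_span_singleton.1 (hk i)
    refine ⟨a ^ (K - k i) * z, ?_⟩
    have h3 : a ^ K = a ^ (K - k i) * a ^ k i := by
      rw [← pow_add, Nat.sub_add_cancel h2]
    rw [h3, mul_assoc, hz]
    ring
  choose z hz using h1
  exact ⟨K, z, hz⟩

include hD' in
theorem nilpotent_transfer {S : Type*} [CommRing S] [Algebra S F] (Q : Subalgebra S F) (φ : F)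
    (hφ0 : φ ≠ 0) (hφc : ∃ c, φ = ι c) (hφD : ∀ k, D' (φ ^ k) = 0)
    (hQ : ∀ z ∈ Q, ∃ (k : ℕ) (c : C), φ ^ k * z = ι c) (hιQ : ∀ c, ι c ∈ Q) (hφQ : φ⁻¹ ∈ Q)
    (a : C) (ha0 : ι a ≠ 0) (haQ : (ι a)⁻¹ ∈ Q) (p n : ℕ)
    (hsat : ∀ v i, (nabVec D A)^[n] v i ∈ satIdeal a p) (v : Fin N → F) (hv : ∀ i, v i ∈ Q) :
    ∃ w : Fin N → F, (∀ i, w i ∈ Q) ∧ (nabVec D' (A.map ι))^[n] v = (p : F) • w := by
  obtain ⟨k, v₀, hv₀⟩ := exists_common_pow ι v (fun i => hQ _ (hv i)) hφc
  obtain ⟨j, z, hz⟩ := exists_pow_smul_vec a p _ (hsat v₀)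
  have h1 : φ ^ k • (nabVec D' (A.map ι))^[n] v = fun i => ι ((nabVec D A)^[n] v₀ i) := by
    rw [← nabVec_iterate_smul D' (A.map ι) (φ ^ k) (hφD k), hv₀, nabVec_iterate_map ι D D' hD']
  refine ⟨fun i => (φ⁻¹) ^ k * ((ι a)⁻¹ ^ j * ι (z i)), ?_, ?_⟩
  · intro i
    exact Subalgebra.mul_mem _ (Subalgebra.pow_mem _ hφQ _)
      (Subalgebra.mul_mem _ (Subalgebra.pow_mem _ haQ _) (hιQ _))
  · funext i
    have h2 := congrFun h1 i
    have h3 := congrArg ι (hz i)
    rw [map_mul, map_pow, map_mul, map_natCast, ← h2, Pi.smul_apply, smul_eq_mul] at h3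
    rw [Pi.smul_apply, smul_eq_mul]
    have h4 : (p : F) * (φ⁻¹ ^ k * ((ι a)⁻¹ ^ j * ι (z i))) =
        φ⁻¹ ^ k * ((ι a)⁻¹ ^ j * ((p : F) * ι (z i))) := by ring
    have h5 : φ⁻¹ ^ k * ((ι a)⁻¹ ^ j * (ι a ^ j * (φ ^ k * (nabVec D' (A.map ι))^[n] v i))) =
        (φ⁻¹ * φ) ^ k * ((ι a)⁻¹ * ι a) ^ j * (nabVec D' (A.map ι))^[n] v i := by
      rw [mul_pow, mul_pow]; ring
    rw [h4, ← h3, h5, inv_mul_cancel₀ hφ0, inv_mul_cancel₀ ha0, one_pow, one_pow, one_mul, one_mul]

end Vec

section Assemble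

/-- A finitely generated, `∇`-stable module over a localization of the constants gives, after
clearing denominators, a constant connection mapping onto the given one. -/
theorem assemble {C F O O' : Type*} [CommRing C] [Field F] [CommRing O] [CommRing O'] [Algebra O O']
    (g : O) [IsLocalization.Away g O']
    (ι : C →+* F) (hι : Function.Injective ι) (j : O →+* C) (σ : O' →+* F)
    (hσ : ∀ c, σ (algebraMap O O' c) = ι (j c)) (D : Derivation ℤ C C) (D' : Derivation ℤ F F)
    (hD' : ∀ c, D' (ι c) = ι (D c)) (δ : O' → O') (hδ : ∀ a, D' (σ a) = σ (δ a)) {N : ℕ}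
    (A : Matrix (Fin N) (Fin N) C)
    (hfg : letI : Algebra O' F := σ.toAlgebra
      ∀ e : Fin N → C, (Submodule.span O'
        (Set.range fun n => (nabVec D' (A.map ι))^[n] (fun i => ι (e i)))).FG) :
    ∃ (s k : ℕ) (Bm : Matrix (Fin s) (Fin s) O) (w : Fin s → Fin N → C),
      (∀ i, j g ^ k • nabVec D A (w i) = ∑ l, j (Bm l i) • w l) ∧
      ∀ v, j g ^ k • v ∈ Submodule.span C (Set.range w) := by
  classical
  letI : Algebra O' F := σ.toAlgebra
  have hsm : ∀ (a : O') (v : Fin N → F), a • v = σ a • v := fun a v => rfl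
  -- the generators
  let G : Set (Fin N → F) := {u | ∃ (i : Fin N) (n : ℕ),
    u = fun l => ι ((nabVec D A)^[n] (Pi.single i 1) l)}
  have hGfg : (Submodule.span O' G).FG := by
    have h1 : Submodule.span O' G = ⨆ i : Fin N, Submodule.span O'
        (Set.range fun n => (nabVec D' (A.map ι))^[n] (fun l => ι ((Pi.single i 1 : Fin N → C) l))) := by
      rw [← Submodule.span_iUnion]
      congr 1
      ext u
      simp only [G, Set.mem_ofPred_eq, Set.mem_iUnion, Set.mem_range]
      constructor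
      · rintro ⟨i, n, rfl⟩
        exact ⟨i, n, nabVec_iterate_map ι D D' hD' A n _⟩
      · rintro ⟨i, n, rfl⟩
        exact ⟨i, n, nabVec_iterate_map ι D D' hD' A n _⟩
    rw [h1]
    exact Submodule.fg_iSup _ (fun i => hfg _)
  obtain ⟨T, hTG, hTspan⟩ := (Submodule.fg_span_iff_fg_span_finset_subset G).1 hGfg
  -- stability
  have hstab : ∀ u ∈ Submodule.span O' G, nabVec D' (A.map ι) u ∈ Submodule.span O' G := by
    intro u hu
    induction hu using Submodule.span_induction with
    | mem u hu =>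
      obtain ⟨i, n, rfl⟩ := hu
      apply Submodule.subset_span
      refine ⟨i, n + 1, ?_⟩
      rw [nabVec_map ι D D' hD' A, Function.iterate_succ_apply']
    | zero =>
      have : nabVec D' (A.map ι) 0 = 0 := by
        funext i
        simp [nabVec]
      rw [this]; exact Submodule.zero_mem _
    | add x y _ _ hx hy =>
      have : nabVec D' (A.map ι) (x + y) = nabVec D' (A.map ι) x + nabVec D' (A.map ι) y := by
        funext i
        simp only [nabVec, Pi.add_apply, map_add, Matrix.mulVec_add]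
        ring
      rw [this]; exact Submodule.add_mem _ hx hy
    | smul a x hx' hx =>
      rw [hsm, nabVec_smul, hδ, ← hsm, ← hsm]
      exact Submodule.add_mem _ (Submodule.smul_mem _ _ hx') (Submodule.smul_mem _ _ hx)
  let s := T.card
  let e : Fin s ≃ T := T.equivFin.symm
  have hT : ∀ i : Fin s, ∃ w : Fin N → C, (e i : Fin N → F) = fun l => ι (w l) := by
    intro i
    obtain ⟨i', n, hi⟩ := hTG (e i).2
    exact ⟨_, hi⟩
  choose w hw using hT
  have hrange : Submodule.span O' G = Submodule.span O' (Set.range fun i : Fin s => (e i : Fin N → F)) := by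
    rw [hTspan]
    congr 1
    ext u
    constructor
    · intro hu
      exact ⟨e.symm ⟨u, hu⟩, by simp⟩
    · rintro ⟨i, rfl⟩
      exact (e i).2
  -- clearing denominators
  have hclear : ∀ u : Fin N → C, (fun l => ι (u l)) ∈ Submodule.span O' G →
      ∃ (k : ℕ) (b : Fin s → O), j g ^ k • u = ∑ l, j (b l) • w l := by
    intro u hu
    rw [hrange] at hu
    obtain ⟨c, hc⟩ := (Submodule.mem_span_range_iff_exists_fun O').1 hu
    obtain ⟨⟨_, k, rfl⟩, hk⟩ := IsLocalization.exist_integer_multiples_of_finset (Submonoid.powers g)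
      (Finset.univ.image c)
    have hk' : ∀ l, ∃ b : O, algebraMap O O' b = algebraMap O O' (g ^ k) * c l := by
      intro l
      obtain ⟨b, hb⟩ := hk (c l) (Finset.mem_image_of_mem _ (Finset.mem_univ l))
      refine ⟨b, ?_⟩
      rw [hb]
      exact Algebra.smul_def _ _
    choose b hb using hk'
    refine ⟨k, b, ?_⟩
    funext i
    apply hι
    have h1 := congrFun hc i
    simp only [Finset.sum_apply, hsm, Pi.smul_apply, smul_eq_mul, hw] at h1
    rw [Pi.smul_apply, smul_eq_mul, map_mul, map_pow, ← hσ, ← h1, Finset.mul_sum]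
    simp only [Finset.sum_apply, Pi.smul_apply, smul_eq_mul, map_sum, map_mul]
    apply Finset.sum_congr rfl
    intro l _
    rw [← hσ (b l), hb, map_mul, map_pow, map_pow]
    ring
  have h1 : ∀ i : Fin s, ∃ (k : ℕ) (b : Fin s → O), j g ^ k • nabVec D A (w i) = ∑ l, j (b l) • w l := by
    intro i
    apply hclear
    rw [← nabVec_map ι D D' hD' A, ← hw]
    apply hstab
    rw [hrange]
    exact Submodule.subset_span ⟨i, rfl⟩
  have h2 : ∀ i : Fin N, ∃ (k : ℕ) (b : Fin s → O),
      j g ^ k • (Pi.single i 1 : Fin N → C) = ∑ l, j (b l) • w l := by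
    intro i
    apply hclear
    apply Submodule.subset_span
    exact ⟨i, 0, rfl⟩
  choose k₁ b₁ hb₁ using h1
  choose k₂ b₂ hb₂ using h2
  let K := Finset.univ.sup k₁ + Finset.univ.sup k₂
  have hK₁ : ∀ i, k₁ i ≤ K := fun i =>
    (Finset.le_sup (f := k₁) (Finset.mem_univ i)).trans (Nat.le_add_right _ _)
  have hK₂ : ∀ i, k₂ i ≤ K := fun i =>
    (Finset.le_sup (f := k₂) (Finset.mem_univ i)).trans (Nat.le_add_left _ _)
  refine ⟨s, K, Matrix.of (fun l i => g ^ (K - k₁ i) * b₁ i l), w, ?_, ?_⟩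
  · intro i
    have h3 : j g ^ K = j g ^ (K - k₁ i) * j g ^ k₁ i := by
      rw [← pow_add, Nat.sub_add_cancel (hK₁ i)]
    rw [h3, mul_smul, hb₁, Finset.smul_sum]
    apply Finset.sum_congr rfl
    intro l _
    rw [smul_smul, Matrix.of_apply, map_mul, map_pow]
  · intro v
    have h3 : v = ∑ i, v i • (Pi.single i 1 : Fin N → C) := by
      funext l
      rw [Finset.sum_apply, Finset.sum_eq_single l]
      · simp
      · intro b _ hb
        simp [Ne.symm hb]
      · simp
    rw [h3, Finset.smul_sum]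
    apply Submodule.sum_mem
    intro i _
    rw [smul_comm]
    apply Submodule.smul_mem
    have h4 : j g ^ K = j g ^ (K - k₂ i) * j g ^ k₂ i := by
      rw [← pow_add, Nat.sub_add_cancel (hK₂ i)]
    rw [h4, mul_smul, hb₂]
    apply Submodule.smul_mem
    apply Submodule.sum_mem
    intro l _
    exact Submodule.smul_mem _ _ (Submodule.subset_span ⟨l, rfl⟩)

end Assemble

end Helper12
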