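import Mathlib
import Pool.Agent.Helper12.ConstSat
import Pool.Agent.Helper12.ConstBase
import Pool.Agent.Helper12.ConstInj
import Pool.Agent.Helper12.ConstNoether
import Pool.Agent.Helper12.ConstExt
import Pool.Agent.Helper12.ConstField
import Pool.Agent.Helper12.ConstVec

namespace Helper12

open TensorProduct Matrix Filter MvPolynomial

theorem finiteType_int_congr {S : Type*} [CommRing S] (i1 i2 : Algebra ℤ S)
    (h : @Algebra.FiniteType ℤ S _ _ i1) : @Algebra.FiniteType ℤ S _ _ i2 := by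
  have : i1 = i2 := Subsingleton.elim _ _
  rwa [← this]

section Main

variable {R₀ R O : Type} [CommRing R₀] [IsDomain R₀] [CharZero R₀]
  [CommRing R] [IsDomain R] [Algebra.FiniteType ℤ R] [CommRing O] [Algebra.FiniteType ℤ O]
  [Algebra R₀ R] [Algebra R₀ O] [Module.Flat R₀ O] [IsDomain (R ⊗[R₀] O)]

attribute [local instance] MvPolynomial.algebraMvPolynomial in
theorem constant_aux (F : Type) [Field F] [Algebra (R ⊗[R₀] O) F] [IsFractionRing (R ⊗[R₀] O) F]
    (hR : Function.Injective (algebraMap R₀ R)) (hRO : ∀ r : R, r ≠ 0 → algebraMap R (R ⊗[R₀] O) r ≠ 0)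
    (dO : Derivation R₀ O O) (D : Derivation R (R ⊗[R₀] O) (R ⊗[R₀] O))
    (hD : ∀ c, D (1 ⊗ₜ c) = 1 ⊗ₜ dO c) {N : ℕ}
    (A : Matrix (Fin N) (Fin N) (R ⊗[R₀] O)) (f : R) (hf : f ≠ 0)
    (hsat : ∃ᶠ p : ℕ in atTop, p.Prime ∧ ∃ n, ∀ v i,
      (nabVec (D.restrictScalars ℤ) A)^[n] v i ∈ satIdeal (algebraMap R (R ⊗[R₀] O) f) p) :
    ∃ (s : ℕ) (d : R₀) (Bm : Matrix (Fin s) (Fin s) O) (w : Fin s → Fin N → R ⊗[R₀] O),
      d ≠ 0 ∧
      (∀ j, algebraMap R₀ (R ⊗[R₀] O) d • nabVec (D.restrictScalars ℤ) A (w j) =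
        ∑ l, ((1 : R) ⊗ₜ[R₀] Bm l j) • w l) ∧
      ∀ v, algebraMap R₀ (R ⊗[R₀] O) d • v ∈ Submodule.span (R ⊗[R₀] O) (Set.range w) := by
  classical
  let C := R ⊗[R₀] O
  set ι : C →+* F := algebraMap C F with hιdef
  have hι : Function.Injective ι := IsFractionRing.injective C F
  have hOinj : Function.Injective (Algebra.TensorProduct.includeRight : O →ₐ[R₀] C) :=
    Algebra.TensorProduct.includeRight_injective hR
  haveI : IsDomain O := hOinj.isDomain (Algebra.TensorProduct.includeRight : O →ₐ[R₀] C).toRingHom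
  have hR₀O : Function.Injective (algebraMap R₀ O) := by
    rw [injective_iff_map_eq_zero]
    intro a ha
    by_contra hne
    have h1 : algebraMap R C (algebraMap R₀ R a) = 0 := by
      have h2 : algebraMap R C (algebraMap R₀ R a) =
          (Algebra.TensorProduct.includeRight : O →ₐ[R₀] C) (algebraMap R₀ O a) := by
        rw [AlgHom.commutes, ← IsScalarTower.algebraMap_apply]
      rw [h2, ha, map_zero]
    exact hRO _ (fun h0 => hne (hR (by rw [h0, map_zero]))) h1
  haveI : CharZero O := charZero_of_injective_algebraMap hR₀O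
  obtain ⟨D', hD'⟩ := exists_der_fraction (C := C) (F := F) (D.restrictScalars ℤ)
  have hD'' : ∀ c, D' (ι c) = ι (D c) := hD'
  -- the localization of `R` at `f`
  let R' := Localization.Away f
  have hpow : Submonoid.powers f ≤ nonZeroDivisors R := powers_le_nonZeroDivisors_of_noZeroDivisors hf
  haveI : IsDomain R' := IsLocalization.isDomain_localization hpow
  have hRR' : Function.Injective (algebraMap R R') := IsLocalization.injective R' hpow
  haveI : Algebra.FiniteType R₀ R := Algebra.FiniteType.of_restrictScalars_finiteType ℤ R₀ R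
  haveI : Algebra.FiniteType R R' := inferInstance
  haveI : Algebra.FiniteType R₀ R' := Algebra.FiniteType.trans (S := R) inferInstance inferInstance
  have hR₀R' : Function.Injective (algebraMap R₀ R') := by
    rw [IsScalarTower.algebraMap_eq R₀ R R']
    exact hRR'.comp hR
  have hfunit : IsUnit ((ι.comp (algebraMap R C)) f) := by
    rw [isUnit_iff_ne_zero, RingHom.comp_apply]
    intro h0
    exact hRO f hf (hι (by rw [h0, map_zero]))
  let ρ : R' →+* F := IsLocalization.Away.lift f hfunit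
  have hρ : ∀ r : R, ρ (algebraMap R R' r) = ι (algebraMap R C r) := fun r =>
    IsLocalization.Away.lift_eq f hfunit r
  obtain ⟨m, t, g, hg, ht, Y, hY, hYint⟩ := exists_normalization (k₀ := R₀) (R := R') hR₀R'
  -- the localization of `O` at `g`
  let gO : O := algebraMap R₀ O g
  have hgO : gO ≠ 0 := fun h0 => hg (hR₀O (by rw [map_zero]; exact h0))
  let O' := Localization.Away gO
  have hpowg : Submonoid.powers gO ≤ nonZeroDivisors O := powers_le_nonZeroDivisors_of_noZeroDivisors hgO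
  haveI : IsDomain O' := IsLocalization.isDomain_localization hpowg
  have hOO' : Function.Injective (algebraMap O O') := IsLocalization.injective O' hpowg
  haveI : CharZero O' := charZero_of_injective_algebraMap hOO'
  have hftO₀ : Algebra.FiniteType ℤ O' := Algebra.FiniteType.trans (S := O) inferInstance inferInstance
  haveI hftO' : @Algebra.FiniteType ℤ O' _ _ (Ring.toIntAlgebra O') :=
    finiteType_int_congr _ _ hftO₀
  let σ₀ : O →+* F := ι.comp (Algebra.TensorProduct.includeRight : O →ₐ[R₀] C).toRingHom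
  have hσ₀ : ∀ c, σ₀ c = ι (1 ⊗ₜ c) := fun c => rfl
  have hσ₀inj : Function.Injective σ₀ := hι.comp hOinj
  have hgunit : IsUnit (σ₀ gO) := by
    rw [isUnit_iff_ne_zero]
    intro h0
    exact hgO (hσ₀inj (by rw [h0, map_zero]))
  let σ : O' →+* F := IsLocalization.Away.lift gO hgunit
  have hσ : ∀ c : O, σ (algebraMap O O' c) = σ₀ c := fun c => IsLocalization.Away.lift_eq gO hgunit c
  have hcompat : ∀ c : R₀, σ₀ (algebraMap R₀ O c) = ρ (algebraMap R₀ R' c) := by
    intro c
    rw [IsScalarTower.algebraMap_apply R₀ R R', hρ, hσ₀, ← IsScalarTower.algebraMap_apply R₀ R C]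
    congr 1
    exact (Algebra.TensorProduct.includeRight : O →ₐ[R₀] C).commutes c
  -- the tensor product map
  letI aR₀F : Algebra R₀ F := (σ₀.comp (algebraMap R₀ O)).toAlgebra
  have haF : ∀ c : R₀, algebraMap R₀ F c = σ₀ (algebraMap R₀ O c) := fun c => rfl
  let σA : O →ₐ[R₀] F := { σ₀ with commutes' := fun c => rfl }
  let ρA : R' →ₐ[R₀] F := { ρ with commutes' := fun c => (hcompat c).symm }
  let Ψ : O ⊗[R₀] R' →ₐ[R₀] F := Algebra.TensorProduct.lift σA ρA (fun _ _ => Commute.all _ _)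
  have hΨ : ∀ o r, Ψ (o ⊗ₜ r) = σ₀ o * ρ r := fun o r => Algebra.TensorProduct.lift_tmul _ _ _ _ _
  have hΨinj : Function.Injective Ψ.toRingHom := by
    apply tensor_localization_injective f R' Ψ.toRingHom
    intro o r
    have h1 : Ψ.toRingHom (o ⊗ₜ algebraMap R R' r) = Ψ (o ⊗ₜ algebraMap R R' r) := rfl
    rw [h1, hΨ, hρ, hσ₀]
    change ι _ * ι _ = ι _
    rw [← map_mul, Algebra.TensorProduct.algebraMap_apply, Algebra.TensorProduct.tmul_mul_tmul,
      one_mul, mul_one]
    rfl
  have hinj₀ : Function.Injective (MvPolynomial.eval₂Hom σ₀ (fun i => ρ (t i))) :=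
    eval_injective_aux t ht σ₀ ρ Ψ.toRingHom hΨ hΨinj
  have hinjS : Function.Injective (MvPolynomial.eval₂Hom σ (fun i => ρ (t i))) := by
    apply injective_of_localization ((Submonoid.powers gO).map (MvPolynomial.C (σ := Fin m)))
      (S := MvPolynomial (Fin m) O)
    have h1 : (MvPolynomial.eval₂Hom σ (fun i => ρ (t i))).comp
        (algebraMap (MvPolynomial (Fin m) O) (MvPolynomial (Fin m) O')) =
        MvPolynomial.eval₂Hom σ₀ (fun i => ρ (t i)) := by
      have hmap : algebraMap (MvPolynomial (Fin m) O) (MvPolynomial (Fin m) O') =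
          MvPolynomial.map (algebraMap O O') := rfl
      rw [hmap]
      refine MvPolynomial.ringHom_ext ?_ ?_
      · intro a
        rw [RingHom.comp_apply, MvPolynomial.map_C]
        simp only [MvPolynomial.coe_eval₂Hom, MvPolynomial.eval₂_C]
        exact hσ a
      · intro i
        rw [RingHom.comp_apply, MvPolynomial.map_X]
        simp only [MvPolynomial.coe_eval₂Hom, MvPolynomial.eval₂_X]
    rw [h1]
    exact hinj₀
  -- derivations
  have hιD : ∀ r : R, D' (ι (algebraMap R C r)) = 0 := by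
    intro r
    rw [hD'', D.map_algebraMap, map_zero]
  have hρD : ∀ r : R', D' (ρ r) = 0 := by
    intro r
    obtain ⟨⟨a, ⟨_, k, rfl⟩⟩, hak⟩ := IsLocalization.surj (Submonoid.powers f) r
    have h1 : ρ r * ι (algebraMap R C (f ^ k)) = ι (algebraMap R C a) := by
      rw [← hρ, ← hρ, ← map_mul]
      exact congrArg ρ hak
    have h2 := congrArg D' h1
    rw [Derivation.leibniz, hιD, hιD, smul_zero, zero_add, smul_eq_mul] at h2
    rcases mul_eq_zero.1 h2 with h3 | h3
    · exfalso
      exact hRO _ (pow_ne_zero k hf) (hι (by rw [h3, map_zero]))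
    · exact h3
  have hσ₀D : ∀ c : O, D' (σ₀ c) = σ₀ (dO c) := by
    intro c
    rw [hσ₀, hD'', hD, hσ₀]
  have hgOk : ∀ k, gO ^ k = algebraMap R₀ O (g ^ k) := fun k => (map_pow _ _ _).symm
  have hσD : ∀ a : O', ∃ b : O', σ b = D' (σ a) := by
    intro a
    obtain ⟨⟨c, ⟨_, k, rfl⟩⟩, hck⟩ := IsLocalization.surj (Submonoid.powers gO) a
    have h1 : σ a * σ₀ (gO ^ k) = σ₀ c := by
      rw [← hσ, ← hσ, ← map_mul]
      exact congrArg σ hck
    have h2 := congrArg D' h1
    have h3 : D' (σ₀ (gO ^ k)) = 0 := by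
      rw [hσ₀D, hgOk, dO.map_algebraMap, map_zero]
    rw [Derivation.leibniz, h3, smul_zero, zero_add, smul_eq_mul, hσ₀D] at h2
    have hne : σ₀ (gO ^ k) ≠ 0 := by
      intro h0
      exact pow_ne_zero k hgO (hσ₀inj (by rw [h0, map_zero]))
    refine ⟨IsLocalization.mk' O' (dO c) (⟨gO ^ k, k, rfl⟩ : Submonoid.powers gO), ?_⟩
    have h4 : σ (IsLocalization.mk' O' (dO c) (⟨gO ^ k, k, rfl⟩ : Submonoid.powers gO)) *
        σ₀ (gO ^ k) = σ₀ (dO c) := by
      rw [← hσ, ← map_mul, ← hσ]
      congr 1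
      exact IsLocalization.mk'_spec O' (dO c) (⟨gO ^ k, k, rfl⟩ : Submonoid.powers gO)
    apply mul_right_cancel₀ hne
    rw [h4, ← h2, mul_comm]
  choose δ hδ using hσD
  -- the common denominator
  let φ₀ : R := f * algebraMap R₀ R g
  have hφ₀ : φ₀ ≠ 0 := mul_ne_zero hf (fun h0 => hg (hR (by rw [h0, map_zero])))
  let φ : F := ι (algebraMap R C φ₀)
  have hφ : φ ≠ 0 := fun h0 => hRO _ hφ₀ (hι (by rw [map_zero]; exact h0))
  have hφD : ∀ k, D' (φ ^ k) = 0 := by
    intro k
    rw [← map_pow, ← map_pow]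
    exact hιD _
  have hφeq : φ = ι (algebraMap R C f) * σ₀ gO := by
    change ι (algebraMap R C (f * algebraMap R₀ R g)) = _
    rw [map_mul, map_mul]
    congr 1
    have h1 := hcompat g
    rw [IsScalarTower.algebraMap_apply R₀ R R', hρ] at h1
    exact h1.symm
  have hQρ : ∀ r : R', ∃ (k : ℕ) (c : C), φ ^ k * ρ r = ι c := by
    intro r
    obtain ⟨⟨a, ⟨_, k, rfl⟩⟩, hak⟩ := IsLocalization.surj (Submonoid.powers f) r
    have h1 : ρ r * ι (algebraMap R C (f ^ k)) = ι (algebraMap R C a) := by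
      rw [← hρ, ← hρ, ← map_mul]
      exact congrArg ρ hak
    refine ⟨k, (1 ⊗ₜ gO) ^ k * algebraMap R C a, ?_⟩
    rw [hφeq, map_mul, ← h1, map_pow, map_pow, map_pow, hσ₀]
    ring
  have hQσ : ∀ a : O', ∃ (k : ℕ) (c : C), φ ^ k * σ a = ι c := by
    intro a
    obtain ⟨⟨c, ⟨_, k, rfl⟩⟩, hck⟩ := IsLocalization.surj (Submonoid.powers gO) a
    have h1 : σ a * σ₀ (gO ^ k) = σ₀ c := by
      rw [← hσ, ← hσ, ← map_mul]
      exact congrArg σ hck
    refine ⟨k, algebraMap R C (f ^ k) * (1 ⊗ₜ c), ?_⟩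
    rw [map_mul, ← hσ₀, ← h1, hφeq, map_pow, map_pow, map_pow]
    ring
  have hQadd : ∀ x y : F, (∃ (k : ℕ) (c : C), φ ^ k * x = ι c) → (∃ (k : ℕ) (c : C), φ ^ k * y = ι c) →
      ∃ (k : ℕ) (c : C), φ ^ k * (x + y) = ι c := by
    rintro x y ⟨k, c, hc⟩ ⟨l, c', hc'⟩
    refine ⟨k + l, algebraMap R C φ₀ ^ l * c + algebraMap R C φ₀ ^ k * c', ?_⟩
    have e1 : ι (algebraMap R C φ₀ ^ l * c) = φ ^ l * ι c := by
      rw [ι.map_mul, ι.map_pow]
    have e2 : ι (algebraMap R C φ₀ ^ k * c') = φ ^ k * ι c' := by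
      rw [ι.map_mul, ι.map_pow]
    rw [ι.map_add, e1, e2, ← hc, ← hc']
    ring
  have hQmul : ∀ x y : F, (∃ (k : ℕ) (c : C), φ ^ k * x = ι c) → (∃ (k : ℕ) (c : C), φ ^ k * y = ι c) →
      ∃ (k : ℕ) (c : C), φ ^ k * (x * y) = ι c := by
    rintro x y ⟨k, c, hc⟩ ⟨l, c', hc'⟩
    refine ⟨k + l, c * c', ?_⟩
    rw [map_mul, ← hc, ← hc']
    ring
  -- algebra structures
  letI algO'F : Algebra O' F := σ.toAlgebra
  letI algSF : Algebra (MvPolynomial (Fin m) O') F :=
    (MvPolynomial.eval₂Hom σ (fun i => ρ (t i))).toAlgebra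
  have hSF : ∀ P : MvPolynomial (Fin m) O', algebraMap (MvPolynomial (Fin m) O') F P =
      MvPolynomial.eval₂Hom σ (fun i => ρ (t i)) P := fun P => rfl
  have hSFC : ∀ a : O', algebraMap (MvPolynomial (Fin m) O') F (MvPolynomial.C a) = σ a := by
    intro a
    rw [hSF]
    simp only [MvPolynomial.coe_eval₂Hom, MvPolynomial.eval₂_C]
  have hSFX : ∀ i, algebraMap (MvPolynomial (Fin m) O') F (MvPolynomial.X i) = ρ (t i) := by
    intro a
    rw [hSF]
    simp only [MvPolynomial.coe_eval₂Hom, MvPolynomial.eval₂_X]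
  haveI : IsScalarTower O' (MvPolynomial (Fin m) O') F := IsScalarTower.of_algebraMap_eq (fun a => by
    rw [MvPolynomial.algebraMap_eq, hSFC]
    rfl)
  haveI : FaithfulSMul (MvPolynomial (Fin m) O') F :=
    (faithfulSMul_iff_algebraMap_injective _ _).2 hinjS
  let L := FractionRing (MvPolynomial (Fin m) O')
  letI algLF : Algebra L F := FractionRing.liftAlgebra (MvPolynomial (Fin m) O') F
  haveI : IsScalarTower (MvPolynomial (Fin m) O') L F :=
    FractionRing.isScalarTower_liftAlgebra (MvPolynomial (Fin m) O') F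
  let YF : Set F := ρ '' (Y : Set R')
  have hρmem : ∀ r : R', ρ r ∈ Algebra.adjoin (MvPolynomial (Fin m) O') YF := by
    intro r
    have hr : r ∈ Algebra.adjoin R₀ (Y : Set R') := by rw [hY]; trivial
    induction hr using Algebra.adjoin_induction with
    | mem x hx => exact Algebra.subset_adjoin ⟨x, hx, rfl⟩
    | algebraMap c =>
      rw [← hcompat, ← hσ, ← hSFC]
      exact Subalgebra.algebraMap_mem _ _
    | add x y _ _ hx hy => rw [map_add]; exact Subalgebra.add_mem _ hx hy
    | mul x y _ _ hx hy => rw [map_mul]; exact Subalgebra.mul_mem _ hx hy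
  have hσmem : ∀ a : O', σ a ∈ Algebra.adjoin (MvPolynomial (Fin m) O') YF := by
    intro a
    rw [← hSFC]
    exact Subalgebra.algebraMap_mem _ _
  have hιmem : ∀ c : C, ι c ∈ Algebra.adjoin (MvPolynomial (Fin m) O') YF := by
    intro c
    induction c using TensorProduct.induction_on with
    | zero => rw [map_zero]; exact Subalgebra.zero_mem _
    | add x y hx hy => rw [map_add]; exact Subalgebra.add_mem _ hx hy
    | tmul r o =>
      have h1 : (r ⊗ₜ[R₀] o : C) = algebraMap R C r * (1 ⊗ₜ o) := by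
        rw [Algebra.TensorProduct.algebraMap_apply, Algebra.TensorProduct.tmul_mul_tmul, mul_one,
          one_mul]
        rfl
      rw [h1, map_mul, ← hρ, ← hσ₀, ← hσ]
      exact Subalgebra.mul_mem _ (hρmem _) (hσmem _)
  have hfinv : (ι (algebraMap R C f))⁻¹ ∈ Algebra.adjoin (MvPolynomial (Fin m) O') YF := by
    have h1 : (ι (algebraMap R C f))⁻¹ = ρ (IsLocalization.Away.invSelf f) := by
      have h2 : ι (algebraMap R C f) * ρ (IsLocalization.Away.invSelf f) = 1 := by
        rw [← hρ, ← map_mul, IsLocalization.Away.mul_invSelf, map_one]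
      exact (eq_inv_of_mul_eq_one_right h2).symm
    rw [h1]
    exact hρmem _
  have hginv : (σ₀ gO)⁻¹ ∈ Algebra.adjoin (MvPolynomial (Fin m) O') YF := by
    have h1 : (σ₀ gO)⁻¹ = σ (IsLocalization.Away.invSelf gO) := by
      have h2 : σ₀ gO * σ (IsLocalization.Away.invSelf gO) = 1 := by
        rw [← hσ, ← map_mul, IsLocalization.Away.mul_invSelf, map_one]
      exact (eq_inv_of_mul_eq_one_right h2).symm
    rw [h1]
    exact hσmem _
  have hφinv : φ⁻¹ ∈ Algebra.adjoin (MvPolynomial (Fin m) O') YF := by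
    rw [hφeq, mul_inv]
    exact Subalgebra.mul_mem _ hfinv hginv
  have hQ : ∀ z ∈ Algebra.adjoin (MvPolynomial (Fin m) O') YF, ∃ (k : ℕ) (c : C), φ ^ k * z = ι c := by
    intro z hz
    induction hz using Algebra.adjoin_induction with
    | mem x hx =>
      obtain ⟨y, -, rfl⟩ := hx
      exact hQρ y
    | algebraMap P =>
      induction P using MvPolynomial.induction_on with
      | C a => rw [hSFC]; exact hQσ a
      | add p q hp hq => rw [map_add]; exact hQadd _ _ hp hq
      | mul_X p i hp => rw [map_mul, hSFX]; exact hQmul _ _ hp (hQρ _)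
    | add x y _ _ hx hy => exact hQadd _ _ hx hy
    | mul x y _ _ hx hy => exact hQmul _ _ hx hy
  have hYFint : ∀ y ∈ YF, IsIntegral (MvPolynomial (Fin m) O') y := by
    rintro _ ⟨y, hy, rfl⟩
    obtain ⟨P, hPm, hP⟩ := hYint y hy
    have h1 : IsIntegral (MvPolynomial (Fin m) O') (ρ (algebraMap R₀ R' g * y)) := by
      let κ : R₀ →+* O' := (algebraMap O O').comp (algebraMap R₀ O)
      refine ⟨P.map (MvPolynomial.map κ), hPm.map _, ?_⟩
      have h2 : (algebraMap (MvPolynomial (Fin m) O') F).comp (MvPolynomial.map κ) =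
          ρ.comp (aeval t : MvPolynomial (Fin m) R₀ →ₐ[R₀] R').toRingHom := by
        refine MvPolynomial.ringHom_ext ?_ ?_
        · intro a
          rw [RingHom.comp_apply, MvPolynomial.map_C, hSFC, RingHom.comp_apply]
          change σ (algebraMap O O' (algebraMap R₀ O a)) = ρ (aeval t (MvPolynomial.C a))
          rw [hσ, hcompat, MvPolynomial.aeval_C]
        · intro i
          rw [RingHom.comp_apply, MvPolynomial.map_X, hSFX, RingHom.comp_apply]
          change ρ (t i) = ρ (aeval t (MvPolynomial.X i))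
          rw [MvPolynomial.aeval_X]
      rw [Polynomial.eval₂_map, h2, ← Polynomial.hom_eval₂, hP, map_zero]
    have h3 : ρ y = σ (IsLocalization.Away.invSelf gO) * ρ (algebraMap R₀ R' g * y) := by
      have h4 : σ₀ gO * σ (IsLocalization.Away.invSelf gO) = 1 := by
        rw [← hσ, ← map_mul, IsLocalization.Away.mul_invSelf, map_one]
      rw [map_mul, ← hcompat]
      change ρ y = σ (IsLocalization.Away.invSelf gO) * (σ₀ gO * ρ y)
      rw [← mul_assoc, mul_comm (σ _) (σ₀ gO), h4, one_mul]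
    rw [h3, ← hSFC]
    exact isIntegral_algebraMap.mul h1
  have hfg : ∀ e : Fin N → C, (Submodule.span O'
      (Set.range fun n => (nabVec D' (A.map ι))^[n] (fun i => ι (e i)))).FG := by
    intro e
    apply field_fg_aux (m := m) L hinjS D' δ (fun a => (hδ a).symm)
      (fun i => by rw [hSFX]; exact hρD _) YF (Y.finite_toSet.image _) hYFint
      (by rintro _ ⟨y, -, rfl⟩; exact hρD _) (A.map ι) (fun i j => hιmem _) _ _
      (fun i => hιmem _)
    refine hsat.mono ?_
    rintro p ⟨hp, n, hn⟩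
    refine ⟨hp, n, ?_⟩
    intro v hv
    exact nilpotent_transfer ι (D.restrictScalars ℤ) D' hD'' A _ φ hφ ⟨_, rfl⟩ hφD hQ hιmem hφinv
      (algebraMap R C f) (fun h0 => hRO f hf (hι (by rw [h0, map_zero]))) hfinv p n hn v hv
  obtain ⟨s, k, Bm, w, h1, h2⟩ := assemble gO ι hι
    (Algebra.TensorProduct.includeRight : O →ₐ[R₀] C).toRingHom σ hσ (D.restrictScalars ℤ) D' hD''
    δ (fun a => (hδ a).symm) A hfg
  have hgd : (Algebra.TensorProduct.includeRight : O →ₐ[R₀] C).toRingHom gO ^ k =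
      algebraMap R₀ C (g ^ k) := by
    rw [map_pow]
    congr 1
    exact (Algebra.TensorProduct.includeRight : O →ₐ[R₀] C).commutes g
  refine ⟨s, g ^ k, Bm, w, pow_ne_zero _ hg, ?_, ?_⟩
  · intro i
    rw [← hgd]
    exact h1 i
  · intro v
    rw [← hgd]
    exact h2 v

end Main

end Helper12
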