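import Mathlib
import Pool.Agent.Helper12.Compat

namespace Helper12

open Polynomial

section

open KaehlerDifferential TensorProduct

/-- Existence of the derivation with respect to a generator. -/
theorem exists_derivation {k L : Type*} [Field k] [CharZero k] [Field L] [Algebra k L]
    (t : L) (ht : Transcendental k t) (hgen : Gen k t) :
    ∃ D : Derivation k L L, D t = 1 := by
  classical
  have hinj : Function.Injective (aeval t : k[X] →ₐ[k] L) := by
    rw [injective_iff_map_eq_zero]
    intro p hp
    by_contra hne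
    exact ht ⟨p, hne, hp⟩
  letI : Algebra k[X] L := (aeval t : k[X] →ₐ[k] L).toRingHom.toAlgebra
  have hmap : ∀ p : k[X], algebraMap k[X] L p = aeval t p := fun p => rfl
  haveI : IsScalarTower k k[X] L := IsScalarTower.of_algebraMap_eq (fun c => by
    rw [hmap, Polynomial.algebraMap_eq, aeval_C])
  have hinj' : Function.Injective (algebraMap k[X] L) := hinj
  letI : Algebra (RatFunc k) L :=
    (IsFractionRing.lift (K := RatFunc k) hinj' : RatFunc k →+* L).toAlgebra
  haveI : IsScalarTower k[X] (RatFunc k) L := IsScalarTower.of_algebraMap_eq (fun p => by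
    exact (IsFractionRing.lift_algebraMap hinj' p).symm)
  haveI : CharZero (RatFunc k) := charZero_of_injective_algebraMap
    (algebraMap k (RatFunc k)).injective
  haveI : Algebra.IsAlgebraic (RatFunc k) L := by
    constructor
    intro y
    obtain ⟨g, hg, hgy⟩ := hgen y
    refine ⟨g.map (algebraMap k[X] (RatFunc k)), ?_, ?_⟩
    · intro h0
      exact hg ((Polynomial.map_eq_zero_iff (IsFractionRing.injective k[X] (RatFunc k))).1 h0)
    · rw [← hgy, aeval_map_algebraMap]
      unfold ev2
      rw [aeval_def, coe_eval₂RingHom]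
      rfl
  haveI : Algebra.IsSeparable (RatFunc k) L := inferInstance
  haveI : Algebra.FormallyEtale (RatFunc k) L := Algebra.FormallyEtale.of_isSeparable _ _
  haveI : Algebra.FormallyEtale k[X] (RatFunc k) :=
    Algebra.FormallyEtale.of_isLocalization (nonZeroDivisors k[X])
  haveI : Algebra.FormallyEtale k[X] L := Algebra.FormallyEtale.comp k[X] (RatFunc k) L
  let d0 : Derivation k k[X] L := Polynomial.mkDerivation k (1 : L)
  let l0 : Ω[k[X]⁄k] →ₗ[k[X]] L := d0.liftKaehlerDifferential
  let l1 : L ⊗[k[X]] Ω[k[X]⁄k] →ₗ[L] L := l0.liftBaseChange L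
  let e := KaehlerDifferential.tensorKaehlerEquivOfFormallyEtale k k[X] L
  let l2 : Ω[L⁄k] →ₗ[L] L := l1.comp e.symm.toLinearMap
  refine ⟨l2.compDer (KaehlerDifferential.D k L), ?_⟩
  have h1 : t = algebraMap k[X] L X := by rw [hmap, aeval_X]
  change l1 (e.symm (KaehlerDifferential.D k L t)) = 1
  conv_lhs => rw [h1]
  rw [KaehlerDifferential.tensorKaehlerEquivOfFormallyEtale_symm_D_algebraMap,
    LinearMap.liftBaseChange_tmul, one_smul, Derivation.liftKaehlerDifferential_comp_D]
  exact Polynomial.mkDerivation_X k (1 : L)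

end

section

variable {k Ω : Type*} [Field k] [CharZero k] [Field Ω] [Algebra k Ω]

/-- Commutation of the derivation with homomorphisms fixing the parameter. -/
theorem derivation_comm (P : Place k Ω) (D : Derivation k Ω Ω) (c : k) (hD : D P.ε = algebraMap k Ω c)
    (σ : Ω →ₐ[k] Ω) (hσ : σ P.ε = P.ε) (x : Ω) : D (σ x) = σ (D x) := by
  obtain ⟨g, hg, hg'⟩ := P.exists_sep x
  have h1 := chain_rule D P.ε x g
  rw [hg, map_zero, hD] at h1
  have h2 : ev2 P.ε (σ x) g = 0 := by
    have := map_ev2 σ P.ε x g
    rw [hσ, hg, map_zero] at this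
    exact this.symm
  have h3 := chain_rule D P.ε (σ x) g
  rw [h2, map_zero, hD] at h3
  have h4 := congrArg σ h1
  rw [map_zero, map_add, map_mul, map_mul, map_ev2, map_ev2, hσ, AlgHom.commutes] at h4
  have h5 : ev2 P.ε (σ x) (derivative g) ≠ 0 := by
    have := map_ev2 σ P.ε x (derivative g)
    rw [hσ] at this
    rw [← this]
    exact (map_ne_zero σ).2 hg'
  apply mul_left_cancel₀ h5
  linear_combination h4 - h3

/-- Existence of a place with a given parameter. -/
theorem exists_place (t : Ω) (ht : Transcendental k t) (hgen : Gen k t) :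
    ∃ P : Place k Ω, P.ε = t := by
  classical
  have ht0 : t ≠ 0 := by
    rintro rfl
    exact ht (isAlgebraic_zero)
  set A : Subring Ω := (aeval t : k[X] →ₐ[k] Ω).range.toSubring with hA
  have htA : t ∈ A := ⟨X, by simp⟩
  set t' : A := ⟨t, htA⟩ with ht'
  have hI : Ideal.span ({t'} : Set A) ≠ ⊤ := by
    intro h
    rw [Ideal.span_singleton_eq_top] at h
    obtain ⟨s, hs⟩ := h.exists_right_inv
    obtain ⟨q, hq⟩ := s.2
    have h1 : t * aeval t q = 1 := by
      have h2 := congrArg (Subtype.val) hs
      change t * (s : Ω) = 1 at h2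
      rw [← h2]
      congr 1
    apply ht
    refine ⟨X * q - 1, ?_, ?_⟩
    · intro h0
      have := congrArg (eval 0) h0
      simp at this
    · simp [h1]
  obtain ⟨V, hV1, hV2⟩ := Ideal.image_subset_nonunits_valuationSubring _ hI
  have hlt : V.valuation t < 1 := by
    rw [← ValuationSubring.mem_nonunits_iff]
    exact hV2 ⟨t', Ideal.subset_span rfl, rfl⟩
  refine ⟨⟨V, t, fun c => hV1 ⟨C c, by simp⟩, ht0, hlt, hgen⟩, rfl⟩

end

end Helper12
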