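import Mathlib
import Pool.Agent.Helper12.DerExists

namespace Helper12

open Polynomial

theorem gen_of_isAlgebraic {k Ω : Type*} [Field k] [Field Ω] [Algebra k Ω] (t : Ω)
    (h : Algebra.IsAlgebraic (IntermediateField.adjoin k ({t} : Set Ω)) Ω) : Gen k t := by
  intro y
  have hy := h.isAlgebraic y
  have hy' : IsAlgebraic (Algebra.adjoin k ({t} : Set Ω)) y := by
    by_contra hcon
    exact (IntermediateField.transcendental_adjoin_iff.2 hcon) hy
  obtain ⟨p, hp, hpy⟩ := hy'
  obtain ⟨g, rfl⟩ := Polynomial.map_surjective (toAdj k t) (toAdj_surjective t) p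
  refine ⟨g, ?_, ?_⟩
  · rintro rfl
    exact hp (Polynomial.map_zero _)
  · rw [← aeval_map_toAdj]; exact hpy

theorem exists_constants {Ω : Type*} [Field Ω] [CharZero Ω] [IsAlgClosed Ω] (t : Ω)
    (ht : Transcendental ℚ t) :
    ∃ k : Subfield Ω, IsAlgClosed k ∧ Transcendental k t ∧ Gen k t := by
  classical
  have h0 : AlgebraicIndepOn ℚ id ({t} : Set Ω) := by
    change AlgebraicIndependent ℚ (fun i : ({t} : Set Ω) => (i : Ω))
    exact (algebraicIndependent_unique_type_iff (ι := ({t} : Set Ω))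
      (x := fun i : ({t} : Set Ω) => (i : Ω))).2 ht
  obtain ⟨s, hs, hb⟩ := exists_isTranscendenceBasis_superset h0
  have hts : t ∈ s := hs rfl
  set F0 := IntermediateField.adjoin ℚ (s \ {t}) with hF0
  have htr : Transcendental F0 t := by
    rw [hF0, IntermediateField.transcendental_adjoin_iff]
    have h1 := hb.1.transcendental_adjoin (s := {(⟨t, hts⟩ : s)}ᶜ) (i := ⟨t, hts⟩) (by simp)
    have h2 : ((↑) : s → Ω) '' {(⟨t, hts⟩ : s)}ᶜ = s \ {t} := by
      ext x
      constructor
      · rintro ⟨y, hy, rfl⟩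
        refine ⟨y.2, ?_⟩
        intro h
        exact hy (Subtype.ext h)
      · rintro ⟨hx, hxt⟩
        refine ⟨⟨x, hx⟩, ?_, rfl⟩
        intro h
        exact hxt (congrArg Subtype.val h)
    rw [h2] at h1
    exact h1
  set k := algebraicClosure F0 Ω with hk
  haveI : IsAlgClosure F0 k := algebraicClosure.isAlgClosure F0 Ω
  have hkc : IsAlgClosed k := IsAlgClosure.isAlgClosed F0
  have hkt : Transcendental k t := htr.algebraicClosure
  refine ⟨k.toSubfield, hkc, hkt, ?_⟩
  change Gen k t
  apply gen_of_isAlgebraic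
  have hab := hb.isAlgebraic_field
  constructor
  intro y
  obtain ⟨p, hp, hpy⟩ := hab.isAlgebraic y
  have hle : ∀ x : Ω, x ∈ IntermediateField.adjoin ℚ (Set.range ((↑) : s → Ω)) →
      x ∈ IntermediateField.adjoin k ({t} : Set Ω) := by
    intro x hx
    have hsub : IntermediateField.adjoin ℚ (Set.range ((↑) : s → Ω)) ≤
        (IntermediateField.adjoin k ({t} : Set Ω)).restrictScalars ℚ := by
      rw [IntermediateField.adjoin_le_iff]
      rintro _ ⟨⟨z, hz⟩, rfl⟩
      by_cases hzt : z = t
      · subst hzt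
        exact IntermediateField.mem_adjoin_simple_self k z
      · have h3 : z ∈ F0 := IntermediateField.subset_adjoin ℚ _ ⟨hz, hzt⟩
        have h4 : z ∈ k := k.algebraMap_mem ⟨z, h3⟩
        exact (IntermediateField.adjoin k ({t} : Set Ω)).algebraMap_mem ⟨z, h4⟩
    exact hsub hx
  let φ : IntermediateField.adjoin ℚ (Set.range ((↑) : s → Ω)) →+*
      IntermediateField.adjoin k ({t} : Set Ω) :=
    { toFun := fun x => ⟨x.1, hle x.1 x.2⟩
      map_one' := rfl
      map_mul' := fun _ _ => rfl
      map_zero' := rfl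
      map_add' := fun _ _ => rfl }
  refine ⟨p.map φ, ?_, ?_⟩
  · intro h
    exact hp ((Polynomial.map_eq_zero_iff φ.injective).1 h)
  · rw [aeval_def, eval₂_map]
    exact hpy

end Helper12
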