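import Mathlib
import Pool.Agent.Helper12.Val

namespace Helper12

section

variable {Ω : Type*} [Field Ω] (v : QVal Ω) {n : ℕ} (β c : Fin n → Ω)

open Classical in
/-- the cluster of `i` at level `t` -/
noncomputable def cl (t : ℚ) (i : Fin n) : Finset (Fin n) :=
  Finset.univ.filter (fun j => v.ge t (β j - β i))

theorem mem_cl {t : ℚ} {i j : Fin n} : j ∈ cl v β t i ↔ v.ge t (β j - β i) := by
  classical
  simp [cl]

theorem self_mem_cl (t : ℚ) (i : Fin n) : i ∈ cl v β t i := by
  rw [mem_cl, sub_self]; exact v.ge_zero t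

theorem mem_cl_comm {t : ℚ} {i j : Fin n} : j ∈ cl v β t i ↔ i ∈ cl v β t j := by
  rw [mem_cl, mem_cl]
  constructor
  · intro h; rw [← neg_sub]; exact h.neg
  · intro h; rw [← neg_sub]; exact h.neg

theorem cl_eq_of_mem {t : ℚ} {i j : Fin n} (h : j ∈ cl v β t i) : cl v β t j = cl v β t i := by
  ext k
  rw [mem_cl, mem_cl]
  rw [mem_cl] at h
  constructor
  · intro h1
    have := h1.add h
    simpa using this
  · intro h1
    have := h1.sub h
    simpa using this

theorem cl_mono {t t' : ℚ} (h : t ≤ t') (i : Fin n) : cl v β t' i ⊆ cl v β t i := by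
  intro j hj
  rw [mem_cl] at hj ⊢
  exact hj.mono h

theorem card_cl_pos (t : ℚ) (i : Fin n) : 0 < (cl v β t i).card :=
  Finset.card_pos.2 ⟨i, self_mem_cl v β t i⟩

variable [CharZero Ω]

theorem card_cl_ne (t : ℚ) (i : Fin n) : (((cl v β t i).card : ℕ) : Ω) ≠ 0 := by
  exact_mod_cast (card_cl_pos v β t i).ne'

/-- averaging over clusters -/
theorem sum_cl_avg (t : ℚ) (a : Fin n → Ω) :
    ∑ i, a i = ∑ i, (((cl v β t i).card : ℕ) : Ω)⁻¹ * ∑ j ∈ cl v β t i, a j := by
  have h1 : ∑ i, (((cl v β t i).card : ℕ) : Ω)⁻¹ * ∑ j ∈ cl v β t i, a j =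
      ∑ i, ∑ j ∈ cl v β t i, (((cl v β t i).card : ℕ) : Ω)⁻¹ * a j := by
    apply Finset.sum_congr rfl
    intro i _
    rw [Finset.mul_sum]
  rw [h1, Finset.sum_comm' (t' := Finset.univ) (s' := fun j => cl v β t j)]
  · apply Finset.sum_congr rfl
    intro j _
    have h2 : ∀ i ∈ cl v β t j, (((cl v β t i).card : ℕ) : Ω)⁻¹ * a j =
        (((cl v β t j).card : ℕ) : Ω)⁻¹ * a j := by
      intro i hi
      rw [cl_eq_of_mem v β hi]
    rw [Finset.sum_congr rfl h2, Finset.sum_const, nsmul_eq_mul, ← mul_assoc,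
      mul_inv_cancel₀ (card_cl_ne v β t j), one_mul]
  · intro i j
    simp only [Finset.mem_univ, true_and, and_true]
    exact mem_cl_comm v β

/-- mean of the cluster -/
noncomputable def mean (t : ℚ) (i : Fin n) : Ω :=
  (((cl v β t i).card : ℕ) : Ω)⁻¹ * ∑ j ∈ cl v β t i, β j

omit [CharZero Ω] in
theorem mean_eq_of_mem {t : ℚ} {i j : Fin n} (h : j ∈ cl v β t i) :
    mean v β t j = mean v β t i := by
  rw [mean, mean, cl_eq_of_mem v β h]

theorem mean_sub (t : ℚ) (i : Fin n) : v.ge t (mean v β t i - β i) := by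
  have h1 : mean v β t i - β i =
      (((cl v β t i).card : ℕ) : Ω)⁻¹ * ∑ j ∈ cl v β t i, (β j - β i) := by
    rw [mean, Finset.sum_sub_distrib, Finset.sum_const, nsmul_eq_mul, mul_sub, ← mul_assoc,
      inv_mul_cancel₀ (card_cl_ne v β t i), one_mul]
  rw [h1]
  have h2 := v.ge_rat_mul (q := (((cl v β t i).card : ℕ) : ℚ)⁻¹) (v.ge_sum (cl v β t i)
    (fun j => β j - β i) t (fun j hj => (mem_cl v β).1 hj))
  simpa using h2

/-- Abel summation -/
theorem abel_sum {A : Type*} [CommRing A] (m : A) (E : ℕ → A) (K : ℕ) :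
    ∑ s ∈ Finset.range K, (m + s) * (E s - E (s + 1)) =
      (m - 1) * E 0 + ∑ s ∈ Finset.range K, E s - (m + K - 1) * E K := by
  induction K with
  | zero => simp
  | succ K ih =>
    rw [Finset.sum_range_succ, ih, Finset.sum_range_succ]
    push_cast
    ring

/-- the comparison function -/
def psi (δ : ℚ) (n k : ℕ) : ℚ := δ * k * (n + 1 - k) / n

theorem local_int (hβ : Function.Injective β)
    (hint : ∀ i j, i ≠ j → ∃ z : ℤ, v.r (β i - β j) = z) (δ : ℚ)
    (hδ : 8 * ((n : ℚ) - 1) * δ + n < 0) (hc0 : ∑ i, c i = 0)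
    (hc1 : ∑ i, c i * β i = - ((n : Ω) - 1) * δ)
    (hA : ∀ (t : ℤ) (i : Fin n), v.ge (-((t : ℚ) - 1)) (∑ j ∈ cl v β t i, c j))
    (hB : ∀ (t : ℤ) (i : Fin n), ∃ q : ℚ,
      v.gt 0 (∑ j ∈ cl v β t i, ((δ : Ω) + c j * (β j - β i)) - (q : Ω)) ∧ -1 / 4 ≤ q)
    (θ : Ω →+ Ω) (hθ : ∀ x : Ω, x ≠ 0 → v.gt (v.r x) (θ x - ((v.r x : ℚ) : Ω) * x)) :
    ∃ ξ : ℚ, 0 ≤ ξ ∧
      v.gt 0 (∑ i, c i * θ (β i) + ((δ / n : ℚ) : Ω) *
        ∑ i, ∑ j ∈ Finset.univ.erase i, θ (β i - β j) / (β i - β j) - (ξ : Ω)) ∧
      (∀ i j l, i ≠ j → l ≠ i → v.r (β i - β l) < v.r (β i - β j) → 0 < ξ) := by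
  classical
  -- the case n = 0 is excluded
  have hn : 0 < n := by
    rcases Nat.eq_zero_or_pos n with h | h
    · subst h
      exfalso
      have : (∑ i, c i * β i) = 0 := by simp
      rw [this] at hc1
      have h2 : (0 : Ω) = (δ : Ω) := by
        simpa using hc1
      have h3 : δ = 0 := by exact_mod_cast h2.symm
      rw [h3] at hδ
      simp at hδ
    · exact h
  have hnQ : (0 : ℚ) < n := by exact_mod_cast hn
  have hnΩ : (n : Ω) ≠ 0 := by exact_mod_cast hn.ne'
  -- bounds for the levels
  obtain ⟨m, hm⟩ : ∃ m : ℤ, ∀ i j, i ≠ j → (m : ℚ) ≤ v.r (β i - β j) := by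
    obtain ⟨m, hm⟩ := (Set.finite_range (fun x : Fin n × Fin n => ⌊v.r (β x.1 - β x.2)⌋)).bddBelow
    refine ⟨m, fun i j hij => ?_⟩
    have h1 : m ≤ ⌊v.r (β i - β j)⌋ := hm ⟨(i, j), rfl⟩
    exact le_trans (by exact_mod_cast h1) (Int.floor_le _)
  obtain ⟨M, hM⟩ : ∃ M : ℤ, ∀ i j, i ≠ j → v.r (β i - β j) < M := by
    obtain ⟨M, hM⟩ := (Set.finite_range (fun x : Fin n × Fin n => ⌊v.r (β x.1 - β x.2)⌋)).bddAbove
    refine ⟨M + 1, fun i j hij => ?_⟩
    have h1 : ⌊v.r (β i - β j)⌋ ≤ M := hM ⟨(i, j), rfl⟩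
    have h2 := Int.lt_floor_add_one (v.r (β i - β j))
    push_cast
    have h3 : ((⌊v.r (β i - β j)⌋ : ℤ) : ℚ) ≤ M := by exact_mod_cast h1
    linarith
  obtain ⟨K, hK⟩ : ∃ K : ℕ, M ≤ m + K := ⟨(M - m).toNat, by
    have := Int.self_le_toNat (M - m); omega⟩
  have hKM : ∀ i j, i ≠ j → v.r (β i - β j) < (m : ℚ) + K := by
    intro i j hij
    have h1 := hM i j hij
    have h2 : (M : ℚ) ≤ (m : ℚ) + K := by exact_mod_cast hK
    linarith
  have hne : ∀ i j, i ≠ j → β i - β j ≠ 0 := fun i j hij => sub_ne_zero.2 (fun h => hij (hβ h))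
  -- top and bottom clusters
  have htop : ∀ i, cl v β ((m : ℚ) + K) i = {i} := by
    intro i
    ext j
    rw [mem_cl, Finset.mem_singleton]
    constructor
    · intro h
      by_contra hji
      rw [v.ge_of_ne (hne j i hji)] at h
      exact absurd (hKM j i hji) (not_lt.2 h)
    · rintro rfl; rw [sub_self]; exact v.ge_zero _
  have hbot : ∀ i, cl v β (m : ℚ) i = Finset.univ := by
    intro i
    ext j
    rw [mem_cl]
    simp only [Finset.mem_univ, iff_true]
    by_cases hji : j = i
    · subst hji; rw [sub_self]; exact v.ge_zero _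
    · right; exact hm j i hji
  -- levels
  let lev : ℕ → ℚ := fun s => (m : ℚ) + s
  have hlev : ∀ s, lev s = (((m + s : ℤ)) : ℚ) := by intro s; simp [lev]
  let D : ℕ → Ω := fun s => ∑ i, c i * (β i - mean v β (lev s) i)
  have hDK : D K = 0 := by
    apply Finset.sum_eq_zero
    intro i _
    have : mean v β (lev K) i = β i := by
      simp only [mean, lev, htop i]
      simp
    rw [this, sub_self, mul_zero]
  have hD0 : D 0 = - ((n : Ω) - 1) * δ := by
    have h1 : ∀ i, mean v β (lev 0) i = (n : Ω)⁻¹ * ∑ j, β j := by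
      intro i
      have : lev 0 = (m : ℚ) := by simp [lev]
      rw [mean, this, hbot i]
      simp
    simp only [D]
    rw [Finset.sum_congr rfl (fun i _ => by rw [h1 i, mul_sub]), Finset.sum_sub_distrib,
      ← Finset.sum_mul, hc0, zero_mul, sub_zero, hc1]
  -- the increments
  let x : ℕ → Fin n → Ω := fun s i => mean v β (lev (s + 1)) i - mean v β (lev s) i
  have hlevlt : ∀ s, lev s ≤ lev (s + 1) := by intro s; simp [lev]
  have hxconst : ∀ s i j, j ∈ cl v β (lev (s + 1)) i → x s j = x s i := by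
    intro s i j hj
    simp only [x]
    rw [mean_eq_of_mem v β hj, mean_eq_of_mem v β (cl_mono v β (hlevlt s) i hj)]
  have hxge : ∀ s i, v.ge (lev s) (x s i) := by
    intro s i
    have h1 : x s i = (mean v β (lev (s + 1)) i - β i) - (mean v β (lev s) i - β i) := by
      simp only [x]; ring
    rw [h1]
    exact ((mean_sub v β (lev (s + 1)) i).mono (hlevlt s)).sub (mean_sub v β (lev s) i)
  have hxsum : ∀ i, ∑ s ∈ Finset.range K, x s i = β i - mean v β (lev 0) i := by
    intro i
    simp only [x]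
    rw [Finset.sum_range_sub (fun s => mean v β (lev s) i)]
    congr 1
    simp only [mean, lev, htop i]
    simp
  have hxD : ∀ s, ∑ i, c i * x s i = D s - D (s + 1) := by
    intro s
    simp only [D, x]
    rw [← Finset.sum_sub_distrib]
    apply Finset.sum_congr rfl
    intro i _
    ring
  -- first main congruence
  have hstep : ∀ s, v.gt 0 (∑ i, c i * θ (x s i) - ((m : Ω) + s) * (D s - D (s + 1))) := by
    intro s
    rw [← hxD s, Finset.mul_sum, ← Finset.sum_sub_distrib]
    rw [sum_cl_avg v β (lev (s + 1))]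
    apply v.gt_sum
    intro i _
    have h1 : ∑ j ∈ cl v β (lev (s + 1)) i, (c j * θ (x s j) - ((m : Ω) + s) * (c j * x s j)) =
        (∑ j ∈ cl v β (lev (s + 1)) i, c j) * (θ (x s i) - ((lev s : ℚ) : Ω) * x s i) := by
      rw [Finset.sum_mul]
      apply Finset.sum_congr rfl
      intro j hj
      rw [hxconst s i j hj]
      simp only [lev]
      push_cast
      ring
    rw [h1]
    have h2 : v.ge (- lev s) (∑ j ∈ cl v β (lev (s + 1)) i, c j) := by
      have := hA (m + (s + 1 : ℕ)) i
      have e : ((m + (s + 1 : ℕ) : ℤ) : ℚ) = lev (s + 1) := by rw [hlev]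
      rw [e] at this
      have e2 : -(lev (s + 1) - 1) = - lev s := by simp only [lev]; push_cast; ring
      rwa [e2] at this
    have h3 : v.gt (lev s) (θ (x s i) - ((lev s : ℚ) : Ω) * x s i) := by
      by_cases hx0 : x s i = 0
      · rw [hx0, map_zero, mul_zero, sub_zero]; exact v.gt_zero _
      · have h4 := hθ (x s i) hx0
        have h5 := hxge s i
        rw [v.ge_of_ne hx0] at h5
        rcases h5.eq_or_lt with h6 | h6
        · rw [← h6] at h4
          exact h4
        · have h7 : v.gt (lev s) (θ (x s i) - ((v.r (x s i) : ℚ) : Ω) * x s i) := h4.mono h5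
          have h8 : v.gt (lev s) (((v.r (x s i) - lev s : ℚ) : Ω) * x s i) := by
            apply v.gt_rat_mul
            rw [v.gt_of_ne hx0]
            exact h6
          have h9 := h7.add h8
          have e : θ (x s i) - ((v.r (x s i) : ℚ) : Ω) * x s i +
              ((v.r (x s i) - lev s : ℚ) : Ω) * x s i =
              θ (x s i) - ((lev s : ℚ) : Ω) * x s i := by
            push_cast; ring
          rwa [e] at h9
    have h4 := h2.mul_gt h3
    rw [neg_add_cancel] at h4
    have h5 := v.gt_rat_mul (q := (((cl v β (lev (s + 1)) i).card : ℕ) : ℚ)⁻¹) h4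
    simpa using h5
  have hfirst : v.gt 0 (∑ i, c i * θ (β i) -
      (((m : Ω) - 1) * D 0 + ∑ s ∈ Finset.range K, D s)) := by
    have h1 : ∑ i, c i * θ (β i) = ∑ s ∈ Finset.range K, ∑ i, c i * θ (x s i) := by
      rw [Finset.sum_comm]
      have h2 : ∀ i, ∑ s ∈ Finset.range K, c i * θ (x s i) =
          c i * θ (β i) - c i * θ ((n : Ω)⁻¹ * ∑ j, β j) := by
        intro i
        rw [← Finset.mul_sum, ← map_sum, hxsum i, map_sub, mul_sub]
        congr 3
        have : lev 0 = (m : ℚ) := by simp [lev]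
        rw [mean, this, hbot i]
        simp
      rw [Finset.sum_congr rfl (fun i _ => h2 i), Finset.sum_sub_distrib, ← Finset.sum_mul, hc0,
        zero_mul, sub_zero]
    have h3 := abel_sum ((m : Ω)) D K
    rw [hDK, mul_zero, sub_zero] at h3
    rw [h1, ← h3, ← Finset.sum_sub_distrib]
    exact v.gt_sum _ _ _ (fun s _ => hstep s)
  -- second main congruence
  have hcount : ∀ i j, i ≠ j → v.r (β i - β j) =
      ((m : ℚ) - 1) + ∑ s ∈ Finset.range K, (if j ∈ cl v β (lev s) i then (1 : ℚ) else 0) := by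
    intro i j hij
    obtain ⟨z, hz⟩ := hint i j hij
    have h1 : (m : ℚ) ≤ z := by rw [← hz]; exact hm i j hij
    have h2 : (z : ℚ) < m + K := by rw [← hz]; exact hKM i j hij
    have h1' : m ≤ z := by exact_mod_cast h1
    have h2' : z < m + K := by exact_mod_cast h2
    obtain ⟨k, hk⟩ := Int.eq_ofNat_of_zero_le (sub_nonneg.2 h1')
    have hkK : k < K := by omega
    have h3 : ∀ s, (j ∈ cl v β (lev s) i) ↔ s < k + 1 := by
      intro s
      rw [mem_cl, v.ge_of_ne (hne j i hij.symm), v.r_sub_comm (fun h => hij (hβ h).symm), hz]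
      simp only [lev]
      constructor
      · intro h
        have h4 : m + (s : ℤ) ≤ z := by exact_mod_cast h
        omega
      · intro h
        have h4 : m + (s : ℤ) ≤ z := by omega
        exact_mod_cast h4
    have h4 : ∑ s ∈ Finset.range K, (if j ∈ cl v β (lev s) i then (1 : ℚ) else 0) = k + 1 := by
      rw [Finset.sum_congr rfl (fun s _ => by rw [if_congr (h3 s) rfl rfl] :
        ∀ s ∈ Finset.range K, (if j ∈ cl v β (lev s) i then (1 : ℚ) else 0) =
          if s < k + 1 then (1 : ℚ) else 0)]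
      rw [← Finset.sum_filter]
      have : (Finset.range K).filter (fun s => s < k + 1) = Finset.range (k + 1) := by
        ext s; simp; omega
      rw [this]
      simp
    rw [h4, hz]
    have : (z : ℚ) = m + k := by
      have : z = m + k := by omega
      exact_mod_cast this
    rw [this]; ring
  have hsecond : v.gt 0 (∑ i, ∑ j ∈ Finset.univ.erase i, θ (β i - β j) / (β i - β j) -
      ((((m : ℚ) - 1) * n * (n - 1) + ∑ s ∈ Finset.range K, ∑ i : Fin n,
        (((cl v β (lev s) i).card : ℚ) - 1) : ℚ) : Ω)) := by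
    have h1 : ((((m : ℚ) - 1) * n * (n - 1) + ∑ s ∈ Finset.range K, ∑ i : Fin n,
        (((cl v β (lev s) i).card : ℚ) - 1) : ℚ)) =
        ∑ i, ∑ j ∈ Finset.univ.erase i, v.r (β i - β j) := by
      have h2 : ∀ i, ∑ j ∈ Finset.univ.erase i, v.r (β i - β j) =
          ((m : ℚ) - 1) * (n - 1) + ∑ s ∈ Finset.range K, (((cl v β (lev s) i).card : ℚ) - 1) := by
        intro i
        rw [Finset.sum_congr rfl (fun j hj => hcount i j (Finset.ne_of_mem_erase hj).symm),
          Finset.sum_add_distrib, Finset.sum_const, Finset.card_erase_of_mem (Finset.mem_univ i),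
          Finset.card_univ, Fintype.card_fin, Finset.sum_comm, nsmul_eq_mul, Nat.cast_sub hn]
        congr 1
        · push_cast; ring
        · apply Finset.sum_congr rfl
          intro s _
          rw [← Finset.sum_filter]
          have h3 : (Finset.univ.erase i).filter (fun j => j ∈ cl v β (lev s) i) =
              (cl v β (lev s) i).erase i := by
            ext j; simp
          rw [h3, Finset.sum_const, Finset.card_erase_of_mem (self_mem_cl v β _ i),
            nsmul_eq_mul, mul_one, Nat.cast_sub (card_cl_pos v β _ i)]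
          simp
      rw [Finset.sum_congr rfl (fun i _ => h2 i), Finset.sum_add_distrib, Finset.sum_const,
        Finset.card_univ, Fintype.card_fin, nsmul_eq_mul, Finset.sum_comm]
      ring
    rw [h1]
    push_cast
    rw [← Finset.sum_sub_distrib]
    apply v.gt_sum
    intro i _
    rw [← Finset.sum_sub_distrib]
    apply v.gt_sum
    intro j hj
    have hij := (Finset.ne_of_mem_erase hj).symm
    have h2 := hne i j hij
    have h3 := hθ _ h2
    have h4 : v.ge (- v.r (β i - β j)) (β i - β j)⁻¹ := by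
      right; rw [v.r_inv h2]
    have h5 := h4.mul_gt h3
    rw [neg_add_cancel] at h5
    have h6 : (β i - β j)⁻¹ * (θ (β i - β j) - ((v.r (β i - β j) : ℚ) : Ω) * (β i - β j)) =
        θ (β i - β j) / (β i - β j) - ((v.r (β i - β j) : ℚ) : Ω) := by
      field_simp
    rwa [h6] at h5
  -- node data
  choose q hq1 hq2 using hB
  have hpsi1 : psi δ n 1 = δ := by unfold psi; field_simp; ring
  have hpsin : psi δ n n = δ := by unfold psi; field_simp; ring
  have hδneg : δ < 0 := by
    by_contra h
    push Not at h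
    have h1 : (1 : ℚ) ≤ n := by exact_mod_cast hn
    nlinarith [mul_nonneg (sub_nonneg.2 h1) h]
  have hqpsi : ∀ (t : ℤ) (i : Fin n), psi δ n (cl v β t i).card ≤ q t i ∧
      (2 ≤ (cl v β t i).card → (cl v β t i).card ≤ n - 1 →
        psi δ n (cl v β t i).card < q t i) := by
    intro t i
    have hcard : (cl v β t i).card ≤ n := by
      have := Finset.card_le_univ (cl v β t i)
      simpa using this
    have hpos := card_cl_pos v β t i
    have hmid : 2 ≤ (cl v β t i).card → (cl v β t i).card ≤ n - 1 →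
        psi δ n (cl v β t i).card < q t i := by
      intro h1 h2
      refine lt_of_lt_of_le ?_ (hq2 t i)
      unfold psi
      have hk1 : (2 : ℚ) ≤ ((cl v β t i).card : ℚ) := by exact_mod_cast h1
      have hk2 : ((cl v β t i).card : ℚ) ≤ n - 1 := by
        have : ((cl v β t i).card : ℚ) ≤ ((n - 1 : ℕ) : ℚ) := by exact_mod_cast h2
        rwa [Nat.cast_sub hn, Nat.cast_one] at this
      set k : ℚ := ((cl v β t i).card : ℚ) with hk
      rw [div_lt_iff₀ hnQ]
      have h3 : 2 * ((n : ℚ) - 1) ≤ k * (n + 1 - k) := by nlinarith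
      have h4 : δ * (k * (n + 1 - k)) ≤ δ * (2 * ((n : ℚ) - 1)) :=
        mul_le_mul_of_nonpos_left h3 hδneg.le
      nlinarith
    refine ⟨?_, hmid⟩
    rcases Nat.lt_or_ge (cl v β t i).card 2 with h1 | h1
    · have hone : (cl v β t i).card = 1 := by omega
      obtain ⟨a, ha⟩ := Finset.card_eq_one.1 hone
      have hai : a = i := by
        have := self_mem_cl v β t i
        rw [ha, Finset.mem_singleton] at this
        exact this.symm
      subst hai
      have h2 := hq1 t a
      rw [ha, Finset.sum_singleton, sub_self, mul_zero, add_zero] at h2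
      have h3 : v.gt 0 (((δ - q t a : ℚ)) : Ω) := by push_cast; exact h2
      have h4 := v.rat_eq_zero_of_gt h3
      rw [ha, Finset.card_singleton, hpsi1]
      linarith
    · rcases Nat.lt_or_ge (cl v β t i).card n with h2 | h2
      · exact (hmid h1 (by omega)).le
      · have hfull : cl v β t i = Finset.univ := by
          apply Finset.eq_univ_of_card
          rw [Fintype.card_fin]; omega
        have h3 := hq1 t i
        rw [hfull] at h3
        have h5 : ∑ j, ((δ : Ω) + c j * (β j - β i)) = (δ : Ω) := by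
          simp only [mul_sub]
          rw [Finset.sum_add_distrib, Finset.sum_sub_distrib, ← Finset.sum_mul, hc0, zero_mul,
            sub_zero, hc1, Finset.sum_const, Finset.card_univ, Fintype.card_fin, nsmul_eq_mul]
          ring
        rw [h5] at h3
        have h4 := v.rat_eq_zero_of_gt (q := δ - q t i) (by push_cast; exact h3)
        have h6 : (cl v β t i).card = n := by omega
        rw [h6, hpsin]
        linarith
  let ξ : ℚ := ∑ s ∈ Finset.range K, ∑ i : Fin n,
    (((cl v β (lev s) i).card : ℚ))⁻¹ * (q (m + s) i - psi δ n (cl v β (lev s) i).card)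
  have hcardeq : ∀ s i, (cl v β (lev s) i) = cl v β ((m + s : ℤ) : ℚ) i := by
    intro s i; rw [hlev]
  have hterm_nonneg : ∀ s i, 0 ≤ (((cl v β (lev s) i).card : ℚ))⁻¹ *
      (q (m + s) i - psi δ n (cl v β (lev s) i).card) := by
    intro s i
    apply mul_nonneg
    · positivity
    · rw [hcardeq]
      exact sub_nonneg.2 (hqpsi (m + s) i).1
  refine ⟨ξ, ?_, ?_, ?_⟩
  · exact Finset.sum_nonneg (fun s _ => Finset.sum_nonneg (fun i _ => hterm_nonneg s i))
  · -- the congruence
    have hDs : ∀ s, v.gt 0 (D s + ((δ / n : ℚ) : Ω) * ((∑ i : Fin n,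
        (((cl v β (lev s) i).card : ℚ) - 1) : ℚ) : Ω) -
        ((∑ i : Fin n, (((cl v β (lev s) i).card : ℚ))⁻¹ *
          (q (m + s) i - psi δ n (cl v β (lev s) i).card) : ℚ) : Ω)) := by
      intro s
      have h1 : D s = ∑ i, (((cl v β (lev s) i).card : ℕ) : Ω)⁻¹ *
          ∑ j ∈ cl v β (lev s) i, c j * (β j - mean v β (lev s) i) := by
        simp only [D]
        rw [sum_cl_avg v β (lev s)]
        apply Finset.sum_congr rfl
        intro i _
        congr 1
        apply Finset.sum_congr rfl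
        intro j hj
        rw [mean_eq_of_mem v β hj]
      rw [h1]
      push_cast
      rw [Finset.mul_sum, ← Finset.sum_add_distrib, ← Finset.sum_sub_distrib]
      apply v.gt_sum
      intro i _
      have hk0 := card_cl_ne v β (lev s) i
      set k : Ω := (((cl v β (lev s) i).card : ℕ) : Ω) with hk
      have h2 : ∑ j ∈ cl v β (lev s) i, c j * (β j - mean v β (lev s) i) =
          (∑ j ∈ cl v β (lev s) i, ((δ : Ω) + c j * (β j - β i)) - k * δ) -
          (∑ j ∈ cl v β (lev s) i, c j) * (mean v β (lev s) i - β i) := by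
        rw [Finset.sum_add_distrib, Finset.sum_const, nsmul_eq_mul, Finset.sum_mul]
        rw [← hk, add_sub_cancel_left, ← Finset.sum_sub_distrib]
        apply Finset.sum_congr rfl
        intro j _
        ring
      have h3 : v.gt 0 ((∑ j ∈ cl v β (lev s) i, c j) * (mean v β (lev s) i - β i)) := by
        have h4 := hA (m + s) i
        rw [← hlev] at h4
        have h5 := h4.mul (mean_sub v β (lev s) i)
        refine h5.gt ?_
        linarith
      have h4 := hq1 (m + s) i
      rw [← hlev] at h4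
      have h5 := v.gt_rat_mul (q := (((cl v β (lev s) i).card : ℕ) : ℚ)⁻¹) (h4.sub h3)
      convert h5 using 1
      rw [h2]
      unfold psi
      push_cast
      rw [← hk]
      field_simp
      ring
    have h1 := v.gt_rat_mul (q := δ / n) hsecond
    have h2 := hfirst.add h1
    have h3 : v.gt 0 (∑ s ∈ Finset.range K, (D s + ((δ / n : ℚ) : Ω) * ((∑ i : Fin n,
        (((cl v β (lev s) i).card : ℚ) - 1) : ℚ) : Ω) -
        ((∑ i : Fin n, (((cl v β (lev s) i).card : ℚ))⁻¹ *
          (q (m + s) i - psi δ n (cl v β (lev s) i).card) : ℚ) : Ω))) :=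
      v.gt_sum _ _ _ (fun s _ => hDs s)
    have h4 := h2.add h3
    rw [Finset.sum_sub_distrib, Finset.sum_add_distrib, ← Finset.mul_sum, ← Rat.cast_sum,
      ← Rat.cast_sum] at h4
    have hdn : (((δ / n : ℚ)) : Ω) * n = δ := by
      push_cast
      field_simp
    have h5 : (((((m : ℚ) - 1) * n * (n - 1) + ∑ s ∈ Finset.range K, ∑ i : Fin n,
        (((cl v β (lev s) i).card : ℚ) - 1) : ℚ)) : Ω) = ((m : Ω) - 1) * n * (n - 1) +
        ((∑ s ∈ Finset.range K, ∑ i : Fin n, (((cl v β (lev s) i).card : ℚ) - 1) : ℚ) : Ω) := by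
      rw [Rat.cast_add]
      push_cast
      ring
    rw [h5, hD0] at h4
    change v.gt 0 (_ - ((∑ s ∈ Finset.range K, ∑ i : Fin n, (((cl v β (lev s) i).card : ℚ))⁻¹ *
      (q (m + s) i - psi δ n (cl v β (lev s) i).card) : ℚ) : Ω))
    generalize ((∑ s ∈ Finset.range K, ∑ i : Fin n, (((cl v β (lev s) i).card : ℚ))⁻¹ *
      (q (m + s) i - psi δ n (cl v β (lev s) i).card) : ℚ) : Ω) = X1 at h4 ⊢
    generalize ((∑ s ∈ Finset.range K, ∑ i : Fin n, (((cl v β (lev s) i).card : ℚ) - 1) : ℚ) : Ω) =
      X2 at h4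
    generalize (∑ i, c i * θ (β i)) = X3 at h4 ⊢
    generalize (∑ i, ∑ j ∈ Finset.univ.erase i, θ (β i - β j) / (β i - β j)) = X4 at h4 ⊢
    generalize (∑ s ∈ Finset.range K, D s) = X5 at h4
    convert h4 using 1
    linear_combination (((m : Ω) - 1) * (n - 1)) * hdn
  · intro i j l hij hli hlt
    obtain ⟨z, hz⟩ := hint i j hij
    have h1 : (m : ℚ) ≤ z := by rw [← hz]; exact hm i j hij
    have h2 : (z : ℚ) < m + K := by rw [← hz]; exact hKM i j hij
    have h1' : m ≤ z := by exact_mod_cast h1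
    have h2' : z < m + K := by exact_mod_cast h2
    obtain ⟨s, hs⟩ := Int.eq_ofNat_of_zero_le (sub_nonneg.2 h1')
    have hsK : s < K := by omega
    have hzs : z = m + s := by omega
    have hlevs : lev s = v.r (β i - β j) := by rw [hz, hlev, hzs]
    have hj : j ∈ cl v β (lev s) i := by
      rw [mem_cl, hlevs, v.ge_of_ne (hne j i hij.symm), v.r_sub_comm (fun h => hij (hβ h).symm)]
    have hl : l ∉ cl v β (lev s) i := by
      rw [mem_cl, hlevs, v.ge_of_ne (hne l i hli), v.r_sub_comm (fun h => hli (hβ h))]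
      exact not_le.2 hlt
    have hcard2 : 2 ≤ (cl v β (lev s) i).card := by
      have h3 : ({i, j} : Finset (Fin n)) ⊆ cl v β (lev s) i := by
        intro a ha
        rw [Finset.mem_insert, Finset.mem_singleton] at ha
        rcases ha with rfl | rfl
        · exact self_mem_cl v β _ _
        · exact hj
      have h4 := Finset.card_le_card h3
      rwa [Finset.card_pair hij] at h4
    have hcardn : (cl v β (lev s) i).card ≤ n - 1 := by
      have h3 : cl v β (lev s) i ⊆ Finset.univ.erase l := by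
        intro a ha
        rw [Finset.mem_erase]
        refine ⟨?_, Finset.mem_univ _⟩
        rintro rfl; exact hl ha
      have h4 := Finset.card_le_card h3
      rwa [Finset.card_erase_of_mem (Finset.mem_univ l), Finset.card_univ, Fintype.card_fin] at h4
    have hstrict : 0 < (((cl v β (lev s) i).card : ℚ))⁻¹ *
        (q (m + s) i - psi δ n (cl v β (lev s) i).card) := by
      apply mul_pos
      · have := card_cl_pos v β (lev s) i
        positivity
      · rw [hcardeq] at hcard2 hcardn ⊢
        exact sub_pos.2 ((hqpsi (m + s) i).2 hcard2 hcardn)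
    have h5 : 0 < ∑ i : Fin n, (((cl v β (lev s) i).card : ℚ))⁻¹ *
        (q (m + s) i - psi δ n (cl v β (lev s) i).card) :=
      lt_of_lt_of_le hstrict (Finset.single_le_sum (f := fun i => (((cl v β (lev s) i).card : ℚ))⁻¹ *
        (q (m + s) i - psi δ n (cl v β (lev s) i).card)) (fun i _ => hterm_nonneg s i)
        (Finset.mem_univ i))
    exact lt_of_lt_of_le h5 (Finset.single_le_sum (f := fun s => ∑ i : Fin n,
      (((cl v β (lev s) i).card : ℚ))⁻¹ * (q (m + s) i - psi δ n (cl v β (lev s) i).card))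
      (fun s _ => Finset.sum_nonneg (fun i _ => hterm_nonneg s i)) (Finset.mem_range.2 hsK))

end

end Helper12
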