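import Mathlib
import Pool.Agent.Helper12.Annulus

namespace Helper12

open Polynomial

section

variable {Ω : Type*} [Field Ω] (v : QVal Ω)

theorem model_coeff {F : v.V[X]} {P : Polynomial Ω} (h : F.map v.V.subtype = P) (k : ℕ) :
    ((F.coeff k : v.V) : Ω) = P.coeff k := by
  rw [← h, coeff_map]; rfl

theorem model_residue_coeff {F : v.V[X]} {P : Polynomial Ω} (h : F.map v.V.subtype = P) (k : ℕ) :
    (F.map (IsLocalRing.residue v.V)).coeff k = 0 ↔ v.gt 0 (P.coeff k) := by
  rw [coeff_map, v.residue_eq_zero_iff, model_coeff v h]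

theorem map_subtype_injective : Function.Injective (Polynomial.map v.V.subtype) :=
  Polynomial.map_injective _ Subtype.val_injective

theorem two_residue_zero (d : ℕ) (S1 S2 : (IsLocalRing.ResidueField v.V)[X])
    (hdeg : ∀ k, 2 * d ≤ k → S1.coeff k = 0) (h : S1 + (X ^ d) ^ 2 * S2 = 0) :
    S1 = 0 ∧ S2 = 0 := by
  have h1 : S1 = 0 := by
    ext k
    rw [coeff_zero]
    by_cases hk : 2 * d ≤ k
    · exact hdeg k hk
    · have h2 := congrArg (fun P => P.coeff k) h
      simp only [coeff_add, coeff_zero, ← pow_mul] at h2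
      rw [coeff_X_pow_mul', if_neg (by omega), add_zero] at h2
      exact h2
  refine ⟨h1, ?_⟩
  rw [h1, zero_add] at h
  exact (mul_eq_zero.1 h).resolve_left (pow_ne_zero _ (pow_ne_zero _ X_ne_zero))

theorem pf_lemma (d : ℕ) (F1 F2 : v.V[X])
    (h1 : F1.map (IsLocalRing.residue v.V) = X ^ d) (h2 : F2.map (IsLocalRing.residue v.V) = 1)
    (S1 S2 : Polynomial Ω) (hdeg : ∀ k, 2 * d ≤ k → S1.coeff k = 0)
    (hint : ∀ k, v.ge 0 (((F2.map v.V.subtype) ^ 2 * S1 + (F1.map v.V.subtype) ^ 2 * S2).coeff k)) :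
    (∀ k, v.ge 0 (S1.coeff k)) ∧ (∀ k, v.ge 0 (S2.coeff k)) ∧
      (∀ k, k < 2 * d → v.gt 0 (((F2.map v.V.subtype) ^ 2 * S1 +
        (F1.map v.V.subtype) ^ 2 * S2).coeff k - S1.coeff k)) := by
  classical
  obtain ⟨G, hG⟩ := exists_lift_V v _ hint
  have hmain : (∀ k, v.ge 0 (S1.coeff k)) ∧ (∀ k, v.ge 0 (S2.coeff k)) := by
    by_contra hcon
    let co : Bool → ℕ → Ω := fun B k => if B then S2.coeff k else S1.coeff k
    have hex : ∃ B k, ¬ v.ge 0 (co B k) := by
      rw [not_and_or] at hcon
      rcases hcon with h | h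
      · push Not at h
        obtain ⟨k, hk⟩ := h
        exact ⟨false, k, by simpa [co] using hk⟩
      · push Not at h
        obtain ⟨k, hk⟩ := h
        exact ⟨true, k, by simpa [co] using hk⟩
    obtain ⟨B1, k1, hB1⟩ := hex
    have hne1 : co B1 k1 ≠ 0 := fun h => hB1 (Or.inl h)
    have hneg1 : v.r (co B1 k1) < 0 := by
      rw [v.ge_of_ne hne1] at hB1
      exact not_le.1 hB1
    let M := max S1.natDegree S2.natDegree
    have hM : ∀ B k, co B k ≠ 0 → k ≤ M := by
      intro B k hne
      cases B with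
      | false =>
        refine le_trans ?_ (le_max_left _ _)
        exact le_natDegree_of_ne_zero (by simpa [co] using hne)
      | true =>
        refine le_trans ?_ (le_max_right _ _)
        exact le_natDegree_of_ne_zero (by simpa [co] using hne)
    let S : Finset (Bool × ℕ) := ((Finset.univ : Finset Bool) ×ˢ Finset.range (M + 1)).filter
      (fun x => co x.1 x.2 ≠ 0)
    have hmemS : ∀ B k, co B k ≠ 0 → (B, k) ∈ S := by
      intro B k h
      simp only [S, Finset.mem_filter, Finset.mem_product, Finset.mem_univ, Finset.mem_range,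
        true_and]
      exact ⟨Nat.lt_succ_of_le (hM B k h), h⟩
    obtain ⟨x, hxS, hxmin⟩ := Finset.exists_min_image S (fun x => v.r (co x.1 x.2))
      ⟨_, hmemS B1 k1 hne1⟩
    have hxne : co x.1 x.2 ≠ 0 := (Finset.mem_filter.1 hxS).2
    have hxneg : v.r (co x.1 x.2) < 0 := lt_of_le_of_lt (hxmin _ (hmemS B1 k1 hne1)) hneg1
    obtain ⟨τ, hτ, hτr⟩ := v.surj' (- v.r (co x.1 x.2))
    have hall : ∀ B k, v.ge 0 (τ * co B k) := by
      intro B k
      by_cases h0 : co B k = 0
      · rw [h0, mul_zero]; exact v.ge_zero 0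
      · right
        rw [v.r_mul hτ h0, hτr]
        have : v.r (co x.1 x.2) ≤ v.r (co B k) := hxmin _ (hmemS B k h0)
        linarith
    obtain ⟨T1, hT1⟩ := exists_lift_V v (C τ * S1) (fun k => by
      rw [coeff_C_mul]; simpa [co] using hall false k)
    obtain ⟨T2, hT2⟩ := exists_lift_V v (C τ * S2) (fun k => by
      rw [coeff_C_mul]; simpa [co] using hall true k)
    have hτV : τ ∈ v.V := (v.mem_iff' τ hτ).2 (by rw [hτr]; linarith)
    have hτres : IsLocalRing.residue v.V ⟨τ, hτV⟩ = 0 :=
      (v.residue_eq_zero_iff _).2 ((v.gt_of_ne hτ).2 (by rw [hτr]; linarith))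
    have hrel : F2 ^ 2 * T1 + F1 ^ 2 * T2 = C ⟨τ, hτV⟩ * G := by
      apply map_subtype_injective v
      rw [Polynomial.map_add, Polynomial.map_mul, Polynomial.map_mul, Polynomial.map_mul,
        Polynomial.map_pow, Polynomial.map_pow, hT1, hT2, hG, map_C]
      have : v.V.subtype ⟨τ, hτV⟩ = τ := rfl
      rw [this]
      ring
    have hres := congrArg (Polynomial.map (IsLocalRing.residue v.V)) hrel
    rw [Polynomial.map_add, Polynomial.map_mul, Polynomial.map_mul, Polynomial.map_mul,
      Polynomial.map_pow, Polynomial.map_pow, h1, h2, map_C, hτres, C_0, zero_mul, one_pow,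
      one_mul] at hres
    have h3 := two_residue_zero v d _ _ (by
      intro k hk
      rw [model_residue_coeff v hT1, coeff_C_mul, hdeg k hk, mul_zero]
      exact v.gt_zero 0) hres
    obtain ⟨B, k⟩ := x
    have h4 : v.gt 0 (τ * co B k) := by
      cases B with
      | false =>
        have := (model_residue_coeff v hT1 k).1 (by rw [h3.1, coeff_zero])
        rw [coeff_C_mul] at this
        simpa [co] using this
      | true =>
        have := (model_residue_coeff v hT2 k).1 (by rw [h3.2, coeff_zero])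
        rw [coeff_C_mul] at this
        simpa [co] using this
    rw [v.gt_of_ne (mul_ne_zero hτ hxne), v.r_mul hτ hxne, hτr] at h4
    simp at h4
  refine ⟨hmain.1, hmain.2, ?_⟩
  intro k hk
  obtain ⟨T1, hT1⟩ := exists_lift_V v S1 hmain.1
  obtain ⟨T2, hT2⟩ := exists_lift_V v S2 hmain.2
  have hrel : F2 ^ 2 * T1 + F1 ^ 2 * T2 = G := by
    apply map_subtype_injective v
    rw [Polynomial.map_add, Polynomial.map_mul, Polynomial.map_mul,
      Polynomial.map_pow, Polynomial.map_pow, hT1, hT2, hG]
  have hres := congrArg (Polynomial.map (IsLocalRing.residue v.V)) hrel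
  rw [Polynomial.map_add, Polynomial.map_mul, Polynomial.map_mul,
    Polynomial.map_pow, Polynomial.map_pow, h1, h2, one_pow, one_mul] at hres
  have hcoef := congrArg (fun P => P.coeff k) hres
  simp only [coeff_add, ← pow_mul] at hcoef
  rw [coeff_X_pow_mul', if_neg (by omega), add_zero] at hcoef
  have hsub : (G - T1).map v.V.subtype = (F2.map v.V.subtype) ^ 2 * S1 +
        (F1.map v.V.subtype) ^ 2 * S2 - S1 := by
    rw [Polynomial.map_sub, hG, hT1]
  have := (model_residue_coeff v hsub k).1 (by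
    rw [Polynomial.map_sub, coeff_sub, hcoef, sub_self])
  rwa [coeff_sub] at this

end

end Helper12
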