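import Mathlib
import Pool.Agent.Helper12.PartialFrac

namespace Helper12

open Polynomial

section

variable {Ω : Type*} [Field Ω] {n : ℕ}

/-- inner part of the numerator of the potential -/
noncomputable def innerS (c : Fin n → Ω) (δ η : Ω) (w : Fin n → Ω) (I : Finset (Fin n)) :
    Polynomial Ω :=
  ∑ i ∈ I, (C δ + C (c i * η) * (X - C (w i))) * ∏ j ∈ I.erase i, (X - C (w j)) ^ 2

/-- outer part of the numerator of the potential -/
noncomputable def outerS (β c : Fin n → Ω) (β0 δ η C0 : Ω) (I : Finset (Fin n)) : Polynomial Ω :=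
  C ((η / C0) ^ 2) * ∑ i ∈ Iᶜ, (C δ + C (c i) * (C (β0 - β i) + C η * X)) *
    ∏ j ∈ Iᶜ.erase i, (C (β0 - β j) + C η * X) ^ 2

theorem split_identity (β c : Fin n → Ω) (β0 δ η : Ω) (I : Finset (Fin n)) (e : ℕ)
    (hd : I.card = e + 1) (hη : η ≠ 0) (hout : ∀ j, j ∉ I → β j - β0 ≠ 0) (σ : Ω)
    (hσ : σ = η ^ I.card * ∏ j ∈ Iᶜ, (β0 - β j)) :
    C ((η / σ) ^ 2) * ∑ i, (C δ + C (c i) * (C (β0 - β i) + C η * X)) *
      ∏ j ∈ Finset.univ.erase i, (C (β0 - β j) + C η * X) ^ 2 =
    (∏ j ∈ Iᶜ, (1 - C (η / (β j - β0)) * X)) ^ 2 * innerS c δ η (fun i => (β i - β0) / η) I +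
    (∏ i ∈ I, (X - C ((β i - β0) / η))) ^ 2 *
      outerS β c β0 δ η (∏ j ∈ Iᶜ, (β0 - β j)) I := by
  classical
  set C0 : Ω := ∏ j ∈ Iᶜ, (β0 - β j) with hC0
  have hC0ne : C0 ≠ 0 := by
    rw [hC0, Finset.prod_ne_zero_iff]
    intro j hj h
    apply hout j (Finset.mem_compl.1 hj)
    rw [← neg_sub, h, neg_zero]
  let L : Fin n → Polynomial Ω := fun i => C (β0 - β i) + C η * X
  have hLin : ∀ i, L i = C η * (X - C ((β i - β0) / η)) := by
    intro i
    simp only [L]
    rw [mul_sub, ← C_mul, mul_div_cancel₀ _ hη, C_sub, C_sub]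
    ring
  have hLout : ∀ j, j ∉ I → L j = C (β0 - β j) * (1 - C (η / (β j - β0)) * X) := by
    intro j hj
    have hne := hout j hj
    have e : (β0 - β j) * (η / (β j - β0)) = - η := by
      field_simp
      ring
    simp only [L]
    rw [mul_sub, mul_one, ← mul_assoc, ← C_mul, e, C_neg]
    ring
  have hpout : ∏ j ∈ Iᶜ, (L j) ^ 2 =
      C (C0 ^ 2) * (∏ j ∈ Iᶜ, (1 - C (η / (β j - β0)) * X)) ^ 2 := by
    rw [Finset.prod_pow, C_pow, hC0, map_prod, ← mul_pow, ← Finset.prod_mul_distrib]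
    congr 1
    apply Finset.prod_congr rfl
    intro j hj
    exact hLout j (Finset.mem_compl.1 hj)
  have hpin : ∀ s : Finset (Fin n), ∏ j ∈ s, (L j) ^ 2 =
      C (η ^ (2 * s.card)) * ∏ j ∈ s, (X - C ((β j - β0) / η)) ^ 2 := by
    intro s
    have h1 : ∀ j ∈ s, (L j) ^ 2 = C (η ^ 2) * (X - C ((β j - β0) / η)) ^ 2 := by
      intro j _
      rw [hLin, mul_pow, C_pow]
    rw [Finset.prod_congr rfl h1, Finset.prod_mul_distrib, Finset.prod_const, ← C_pow, ← pow_mul]
  have hσne : σ ≠ 0 := by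
    rw [hσ]; exact mul_ne_zero (pow_ne_zero _ hη) hC0ne
  have k1 : C ((η / σ) ^ 2) * C (η ^ (2 * e)) * C (C0 ^ 2) = (1 : Polynomial Ω) := by
    rw [← C_mul, ← C_mul, ← C_1]
    congr 1
    rw [hσ, hd]
    field_simp
    ring
  have k2 : C ((η / σ) ^ 2) * C (η ^ (2 * (e + 1))) = (C ((η / C0) ^ 2) : Polynomial Ω) := by
    rw [← C_mul]
    congr 1
    rw [hσ, hd]
    field_simp
    ring
  have hterm1 : ∀ i ∈ I, C ((η / σ) ^ 2) * ((C δ + C (c i) * L i) *
      ∏ j ∈ Finset.univ.erase i, (L j) ^ 2) =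
      (∏ j ∈ Iᶜ, (1 - C (η / (β j - β0)) * X)) ^ 2 *
      ((C δ + C (c i * η) * (X - C ((β i - β0) / η))) *
        ∏ j ∈ I.erase i, (X - C ((β j - β0) / η)) ^ 2) := by
    intro i hi
    have hset : Finset.univ.erase i = (I.erase i).disjUnion Iᶜ (by
        rw [Finset.disjoint_left]
        intro a ha hb
        exact (Finset.mem_compl.1 hb) (Finset.mem_of_mem_erase ha)) := by
      ext a
      simp only [Finset.mem_erase, Finset.mem_univ, and_true, Finset.mem_disjUnion,
        Finset.mem_compl]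
      constructor
      · intro h
        by_cases ha : a ∈ I
        · exact Or.inl ⟨h, ha⟩
        · exact Or.inr ha
      · rintro (h | h)
        · exact h.1
        · rintro rfl; exact h hi
    rw [hset, Finset.prod_disjUnion, hpout, hpin, Finset.card_erase_of_mem hi, hd,
      Nat.add_sub_cancel, hLin i, C_mul]
    linear_combination ((C δ + C (c i) * (C η * (X - C ((β i - β0) / η)))) *
      (∏ j ∈ I.erase i, (X - C ((β j - β0) / η)) ^ 2) *
      (∏ j ∈ Iᶜ, (1 - C (η / (β j - β0)) * X)) ^ 2) * k1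
  have hterm2 : ∀ i ∈ Iᶜ, C ((η / σ) ^ 2) * ((C δ + C (c i) * L i) *
      ∏ j ∈ Finset.univ.erase i, (L j) ^ 2) =
      (∏ i ∈ I, (X - C ((β i - β0) / η))) ^ 2 *
      (C ((η / C0) ^ 2) * ((C δ + C (c i) * L i) * ∏ j ∈ Iᶜ.erase i, (L j) ^ 2)) := by
    intro i hi
    have hset : Finset.univ.erase i = I.disjUnion (Iᶜ.erase i) (by
        rw [Finset.disjoint_left]
        intro a ha hb
        exact (Finset.mem_compl.1 (Finset.mem_of_mem_erase hb)) ha) := by
      ext a
      simp only [Finset.mem_erase, Finset.mem_univ, and_true, Finset.mem_disjUnion,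
        Finset.mem_compl]
      constructor
      · intro h
        by_cases ha : a ∈ I
        · exact Or.inl ha
        · exact Or.inr ⟨h, ha⟩
      · rintro (h | h)
        · rintro rfl; exact (Finset.mem_compl.1 hi) h
        · exact h.1
    rw [hset, Finset.prod_disjUnion, hpin I, hd, Finset.prod_pow I]
    linear_combination ((C δ + C (c i) * L i) * (∏ i ∈ I, (X - C ((β i - β0) / η))) ^ 2 *
      (∏ j ∈ Iᶜ.erase i, (L j) ^ 2)) * k2
  change C ((η / σ) ^ 2) * ∑ i, (C δ + C (c i) * L i) *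
      ∏ j ∈ Finset.univ.erase i, (L j) ^ 2 = _
  rw [← Finset.sum_add_sum_compl I, mul_add, Finset.mul_sum, Finset.mul_sum,
    Finset.sum_congr rfl hterm1, Finset.sum_congr rfl hterm2, ← Finset.mul_sum, ← Finset.mul_sum,
    ← Finset.mul_sum]
  rfl

/-- top coefficients of the inner part -/
theorem innerS_coeffs (c : Fin n → Ω) (δ η : Ω) (w : Fin n → Ω) (I : Finset (Fin n)) (e : ℕ)
    (hd : I.card = e + 1) :
    (∀ k, 2 * (e + 1) ≤ k → (innerS c δ η w I).coeff k = 0) ∧
    (innerS c δ η w I).coeff (2 * e + 1) = η * ∑ i ∈ I, c i ∧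
    (innerS c δ η w I).coeff (2 * e) = ∑ i ∈ I, (δ + c i * (η * w i)) -
      2 * (∑ j ∈ I, w j) * (η * ∑ i ∈ I, c i) := by
  classical
  let M : Fin n → Polynomial Ω := fun i => ∏ j ∈ I.erase i, (X - C (w j)) ^ 2
  have hMm : ∀ i, (M i).Monic := fun i =>
    monic_prod_of_monic _ _ (fun j _ => (monic_X_sub_C (w j)).pow 2)
  have hMd : ∀ i ∈ I, (M i).natDegree = 2 * e := by
    intro i hi
    rw [natDegree_prod_of_monic _ _ (fun j _ => (monic_X_sub_C (w j)).pow 2)]
    have h5 : ∀ j ∈ I.erase i, ((X - C (w j)) ^ 2).natDegree = 2 := by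
      intro j _
      rw [(monic_X_sub_C (w j)).natDegree_pow, natDegree_X_sub_C]
    rw [Finset.sum_congr rfl h5, Finset.sum_const, Finset.card_erase_of_mem hi, hd, smul_eq_mul]
    simp; ring
  let N : Fin n → Polynomial Ω := fun i => (X - C (w i)) * M i
  have hNm : ∀ i, (N i).Monic := fun i => (monic_X_sub_C _).mul (hMm i)
  have hNd : ∀ i ∈ I, (N i).natDegree = 2 * e + 1 := by
    intro i hi
    rw [(monic_X_sub_C _).natDegree_mul (hMm i), hMd i hi, natDegree_X_sub_C]
    ring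
  have hNn : ∀ i ∈ I, (N i).coeff (2 * e) = w i - 2 * ∑ j ∈ I, w j := by
    intro i hi
    have h1 : (N i).nextCoeff = (N i).coeff (2 * e) := by
      rw [nextCoeff_of_natDegree_pos (by rw [hNd i hi]; omega), hNd i hi]
      rfl
    rw [← h1, (monic_X_sub_C (w i)).nextCoeff_mul (hMm i), nextCoeff_X_sub_C,
      Monic.nextCoeff_prod _ _ (fun j _ => (monic_X_sub_C (w j)).pow 2)]
    have h5 : ∀ j ∈ I.erase i, ((X - C (w j)) ^ 2).nextCoeff = 2 • (- w j) := by
      intro j _
      rw [(monic_X_sub_C (w j)).nextCoeff_pow, nextCoeff_X_sub_C]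
    rw [Finset.sum_congr rfl h5, ← Finset.add_sum_erase I w hi]
    simp only [smul_neg, Finset.sum_neg_distrib, nsmul_eq_mul, Nat.cast_ofNat, ← Finset.mul_sum]
    ring
  have hS : innerS c δ η w I = ∑ i ∈ I, (C δ * M i + C (c i * η) * N i) := by
    unfold innerS
    apply Finset.sum_congr rfl
    intro i _
    simp only [M, N]
    ring
  refine ⟨?_, ?_, ?_⟩
  · intro k hk
    rw [hS, finsetSum_coeff]
    apply Finset.sum_eq_zero
    intro i hi
    rw [coeff_add, coeff_C_mul, coeff_C_mul,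
      coeff_eq_zero_of_natDegree_lt (by rw [hMd i hi]; omega),
      coeff_eq_zero_of_natDegree_lt (by rw [hNd i hi]; omega)]
    simp
  · rw [hS, finsetSum_coeff, Finset.mul_sum]
    apply Finset.sum_congr rfl
    intro i hi
    have h1 : (N i).coeff (2 * e + 1) = 1 := by
      have := (hNm i).coeff_natDegree
      rwa [hNd i hi] at this
    rw [coeff_add, coeff_C_mul, coeff_C_mul,
      coeff_eq_zero_of_natDegree_lt (by rw [hMd i hi]; omega), h1]
    ring
  · rw [hS, finsetSum_coeff]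
    have h3 : ∀ i ∈ I, (C δ * M i + C (c i * η) * N i).coeff (2 * e) =
        (δ + c i * (η * w i)) - 2 * (∑ j ∈ I, w j) * (η * c i) := by
      intro i hi
      have h1 : (M i).coeff (2 * e) = 1 := by
        have := (hMm i).coeff_natDegree
        rwa [hMd i hi] at this
      rw [coeff_add, coeff_C_mul, coeff_C_mul, h1, hNn i hi]
      ring
    rw [Finset.sum_congr rfl h3, Finset.sum_sub_distrib, ← Finset.mul_sum, ← Finset.mul_sum]

end

end Helper12
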