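import Mathlib
import Pool.Agent.Helper12.Core

namespace Helper12

open Polynomial

theorem prodX_monic {K : Type*} [CommRing K] [Nontrivial K] (s : Multiset K) :
    (s.map (fun e => X - C e)).prod.Monic ∧
      (s.map (fun e => X - C e)).prod.natDegree = Multiset.card s := by
  constructor
  · exact monic_multiset_prod_of_monic _ _ (fun e _ => monic_X_sub_C e)
  · exact natDegree_multiset_prod_X_sub_C_eq_card s

theorem prodX_coeff_card {K : Type*} [CommRing K] [Nontrivial K] (s : Multiset K) :
    (s.map (fun e => X - C e)).prod.coeff (Multiset.card s) = 1 := by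
  obtain ⟨h1, h2⟩ := prodX_monic s
  rw [← h2]
  exact h1.coeff_natDegree

theorem prodX_coeff_one {K : Type*} [CommRing K] [Nontrivial K] (s : Multiset K) :
    ∀ k, Multiset.card s = k + 1 → (s.map (fun e => X - C e)).prod.coeff k = - s.sum := by
  induction s using Multiset.induction_on with
  | empty => intro k hk; simp at hk
  | cons e s ih =>
    intro k hk
    rw [Multiset.card_cons] at hk
    have hk' : Multiset.card s = k := by omega
    rw [Multiset.map_cons, Multiset.prod_cons, Multiset.sum_cons, sub_mul, coeff_sub, coeff_C_mul]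
    have h1 := prodX_coeff_card s
    rw [hk'] at h1
    rw [h1]
    cases k with
    | zero =>
      rw [Multiset.card_eq_zero] at hk'
      subst hk'
      simp
    | succ k =>
      rw [coeff_X_mul, ih k hk']
      ring

theorem prodX_coeff_two {K : Type*} [CommRing K] [Nontrivial K] (s : Multiset K) :
    ∀ k, Multiset.card s = k + 2 → 2 * (s.map (fun e => X - C e)).prod.coeff k =
      s.sum ^ 2 - (s.map (fun e => e ^ 2)).sum := by
  induction s using Multiset.induction_on with
  | empty => intro k hk; simp at hk
  | cons e s ih =>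
    intro k hk
    rw [Multiset.card_cons] at hk
    have hk' : Multiset.card s = k + 1 := by omega
    rw [Multiset.map_cons, Multiset.prod_cons, Multiset.sum_cons, sub_mul, coeff_sub, coeff_C_mul,
      Multiset.map_cons, Multiset.sum_cons, prodX_coeff_one s k hk']
    cases k with
    | zero =>
      obtain ⟨a, rfl⟩ := Multiset.card_eq_one.1 hk'
      simp
      ring
    | succ k =>
      rw [coeff_X_mul]
      have := ih k hk'
      linear_combination this

section

variable {K : Type*} [Field K] [CharZero K]

/-- falling factorial polynomial with step two -/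
noncomputable def fallP (K : Type*) [Field K] (k : ℕ) : K[X] :=
  ((Multiset.range k).map (fun j : ℕ => X - C (((j : ℕ) : K) * 2))).prod

omit [CharZero K] in
theorem fallP_eval (k : ℕ) (e : K) : (fallP K k).eval e = fall 2 e k := by
  induction k with
  | zero => simp [fallP, fall]
  | succ k ih =>
    rw [fall, ← ih, fallP, Multiset.range_succ, Multiset.map_cons, Multiset.prod_cons, eval_mul,
      ← fallP]
    simp
    ring

omit [CharZero K] in
theorem fallP_eq (k : ℕ) : fallP K k =
    (((Multiset.range k).map (fun j : ℕ => ((j : ℕ) : K) * 2)).map (fun e => X - C e)).prod := by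
  rw [fallP, Multiset.map_map]
  rfl

omit [CharZero K] in
theorem fallP_monic (k : ℕ) : (fallP K k).Monic ∧ (fallP K k).natDegree = k := by
  rw [fallP_eq]
  have := prodX_monic ((Multiset.range k).map (fun j : ℕ => ((j : ℕ) : K) * 2))
  simpa using this

omit [CharZero K] in
theorem sum_range_two (r : ℕ) : ((Multiset.range r).map (fun j : ℕ => ((j : ℕ) : K) * 2)).sum =
    (r : K) * (r - 1) := by
  induction r with
  | zero => simp
  | succ r ih =>
    rw [Multiset.range_succ, Multiset.map_cons, Multiset.sum_cons, ih]
    push_cast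
    ring

theorem sumsq_range_two (r : ℕ) : (((Multiset.range r).map (fun j : ℕ => ((j : ℕ) : K) * 2)).map
    (fun e => e ^ 2)).sum = 2 * ((r : K) * (r - 1) * (2 * r - 1)) / 3 := by
  induction r with
  | zero => simp
  | succ r ih =>
    rw [Multiset.range_succ, Multiset.map_cons, Multiset.map_cons, Multiset.sum_cons, ih]
    push_cast
    field_simp
    ring

theorem choose_three_cast (r : ℕ) (L : Type*) [Field L] [CharZero L] :
    (((r + 1).choose 3 : ℕ) : L) = ((r : L) + 1) * r * (r - 1) / 6 := by
  induction r with
  | zero => simp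
  | succ r ih =>
    rw [Nat.choose_succ_succ, Nat.cast_add, ih]
    have h2 : ((((r + 1).choose 2 : ℕ)) : L) = ((r : L) + 1) * r / 2 := by
      have := Nat.cast_choose_two L (r + 1)
      rw [this]
      push_cast
      ring
    rw [h2]
    push_cast
    field_simp
    ring

variable [IsAlgClosed K]

/-- If all roots are rational the second coefficient is rational and bounded. -/
theorem vieta_bound (r : ℕ) (hr : 2 ≤ r) (γ : ℕ → K) (hγ : γ (r - 1) = 0)
    (hroots : ∀ e : K, fall 2 e r + ∑ i ∈ Finset.range r, γ i * fall 2 e i = 0 →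
      ∃ a b : ℤ, b ≠ 0 ∧ (b : K) * e = a) :
    ∃ q : ℚ, γ (r - 2) = (q : K) ∧ q ≤ ((r + 1).choose 3 : ℕ) := by
  classical
  obtain ⟨m, rfl⟩ : ∃ m, r = m + 2 := ⟨r - 2, by omega⟩
  have e1 : m + 2 - 1 = m + 1 := rfl
  have e2 : m + 2 - 2 = m := rfl
  rw [e1] at hγ
  rw [e2]
  let p : K[X] := fallP K (m + 2) + ∑ i ∈ Finset.range (m + 2), C (γ i) * fallP K i
  have hlow : (∑ i ∈ Finset.range (m + 2), C (γ i) * fallP K i).degree < (fallP K (m + 2)).degree := by
    rw [degree_eq_natDegree (fallP_monic (K := K) (m + 2)).1.ne_zero, (fallP_monic (m + 2)).2]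
    refine lt_of_le_of_lt (Polynomial.degree_sum_le _ _) ?_
    rw [Finset.sup_lt_iff (by exact WithBot.bot_lt_coe (m + 2))]
    intro i hi
    rw [← smul_eq_C_mul]
    refine lt_of_le_of_lt (degree_smul_le _ _) ?_
    rw [degree_eq_natDegree (fallP_monic (K := K) i).1.ne_zero, (fallP_monic i).2]
    exact_mod_cast Finset.mem_range.1 hi
  have hmonic : p.Monic := (fallP_monic (m + 2)).1.add_of_left hlow
  have hdeg : p.natDegree = m + 2 := by
    have : p.degree = (m + 2 : ℕ) := by
      rw [degree_add_eq_left_of_degree_lt hlow,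
        degree_eq_natDegree (fallP_monic (K := K) (m + 2)).1.ne_zero, (fallP_monic (m + 2)).2]
    exact natDegree_eq_of_degree_eq_some this
  have hsplit : p.Splits := IsAlgClosed.splits p
  have hcard : Multiset.card p.roots = m + 2 := by
    rw [← hsplit.natDegree_eq_card_roots, hdeg]
  have hprod : p = (p.roots.map (fun e => X - C e)).prod := hsplit.eq_prod_roots_of_monic hmonic
  -- rationality of the roots
  have hrat : ∀ e ∈ p.roots, ∃ q : ℚ, e = (q : K) := by
    intro e he
    have h0 : p.eval e = 0 := (mem_roots'.1 he).2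
    have h1 : p.eval e = fall 2 e (m + 2) + ∑ i ∈ Finset.range (m + 2), γ i * fall 2 e i := by
      simp only [p, eval_add, eval_finsetSum, eval_mul, eval_C, fallP_eval]
    obtain ⟨a, b, hb, hab⟩ := hroots e (by rw [← h1, h0])
    refine ⟨a / b, ?_⟩
    have hbK : (b : K) ≠ 0 := by exact_mod_cast hb
    push_cast
    rw [eq_div_iff hbK]
    linear_combination hab
  choose! q hq using hrat
  let t : Multiset ℚ := p.roots.map q
  have ht : p.roots = t.map (fun x : ℚ => (x : K)) := by
    rw [Multiset.map_map]
    conv_lhs => rw [← Multiset.map_id p.roots]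
    apply Multiset.map_congr rfl
    intro e he
    simpa using hq e he
  have htcard : Multiset.card t = m + 2 := by simp [t, hcard]
  -- coefficients
  have hfc : ∀ k, (fallP K k).coeff k = 1 := by
    intro k
    have := (fallP_monic (K := K) k).1.coeff_natDegree
    rwa [(fallP_monic k).2] at this
  have hfc0 : ∀ k i, i < k → (fallP K i).coeff k = 0 := by
    intro k i h
    apply coeff_eq_zero_of_natDegree_lt
    rwa [(fallP_monic i).2]
  have hc1 : p.coeff (m + 1) = (fallP K (m + 2)).coeff (m + 1) := by
    simp only [p, coeff_add, finsetSum_coeff, coeff_C_mul]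
    rw [Finset.sum_range_succ, hγ, Finset.sum_eq_zero]
    · simp
    · intro i hi
      rw [hfc0 (m + 1) i (Finset.mem_range.1 hi), mul_zero]
  have hc2 : p.coeff m = (fallP K (m + 2)).coeff m + γ m := by
    simp only [p, coeff_add, finsetSum_coeff, coeff_C_mul]
    rw [Finset.sum_range_succ, Finset.sum_range_succ, hγ, Finset.sum_eq_zero]
    · rw [hfc]; ring
    · intro i hi
      rw [hfc0 m i (Finset.mem_range.1 hi), mul_zero]
  have hS1 : (fallP K (m + 2)).coeff (m + 1) = - (((m : K) + 2) * (m + 1)) := by
    rw [fallP_eq, prodX_coeff_one _ (m + 1) (by simp), sum_range_two]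
    push_cast; ring
  have hS2 : 2 * (fallP K (m + 2)).coeff m = (((m : K) + 2) * (m + 1)) ^ 2 -
      2 * (((m : K) + 2) * (m + 1) * (2 * m + 3)) / 3 := by
    rw [fallP_eq, prodX_coeff_two _ m (by simp), sum_range_two, sumsq_range_two]
    push_cast; ring
  have hsumK : (p.roots).sum = ((m : K) + 2) * (m + 1) := by
    have h3 := prodX_coeff_one p.roots (m + 1) hcard
    rw [← hprod, hc1, hS1] at h3
    linear_combination h3
  have hsum2K : 2 * γ m = 2 * (((m : K) + 2) * (m + 1) * (2 * m + 3)) / 3 -
      (p.roots.map (fun e => e ^ 2)).sum := by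
    have h3 := prodX_coeff_two p.roots m hcard
    rw [← hprod, hc2, hsumK] at h3
    linear_combination h3 - hS2
  -- transfer to the rationals
  have hsumQ : t.sum = ((m : ℚ) + 2) * (m + 1) := by
    have : ((t.sum : ℚ) : K) = ((((m : ℚ) + 2) * (m + 1) : ℚ) : K) := by
      rw [Rat.cast_multiset_sum, ← ht, hsumK]
      push_cast; ring
    exact_mod_cast this
  have hsq : (p.roots.map (fun e => e ^ 2)).sum = (((t.map (fun x => x ^ 2)).sum : ℚ) : K) := by
    rw [Rat.cast_multiset_sum, Multiset.map_map]
    have h6 : (p.roots.map (fun e => e ^ 2)) = (t.map (fun x : ℚ => (x : K))).map (fun e => e ^ 2) := by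
      rw [← ht]
    rw [h6, Multiset.map_map]
    congr 1
    apply Multiset.map_congr rfl
    intro x _
    simp
  refine ⟨((m : ℚ) + 2) * (m + 1) * (2 * m + 3) / 3 - (t.map (fun x => x ^ 2)).sum / 2, ?_, ?_⟩
  · push_cast
    have h2 : (2 : K) ≠ 0 := by norm_num
    apply mul_left_cancel₀ h2
    rw [hsum2K, hsq]
    push_cast
    ring
  · have hpos : 0 ≤ (t.map (fun x => (x - ((m : ℚ) + 1)) ^ 2)).sum := by
      apply Multiset.sum_nonneg
      intro x hx
      rw [Multiset.mem_map] at hx
      obtain ⟨y, _, rfl⟩ := hx
      positivity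
    have hexp : (t.map (fun x => (x - ((m : ℚ) + 1)) ^ 2)).sum =
        (t.map (fun x => x ^ 2)).sum - 2 * (m + 1) * t.sum + (m + 2) * (m + 1) ^ 2 := by
      have h4 : ∀ s : Multiset ℚ, (s.map (fun x => (x - ((m : ℚ) + 1)) ^ 2)).sum =
          (s.map (fun x => x ^ 2)).sum - 2 * (m + 1) * s.sum +
            (Multiset.card s) * (m + 1) ^ 2 := by
        intro s
        induction s using Multiset.induction_on with
        | empty => simp
        | cons a s ih =>
          rw [Multiset.map_cons, Multiset.sum_cons, ih, Multiset.map_cons, Multiset.sum_cons,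
            Multiset.sum_cons, Multiset.card_cons]
          push_cast
          ring
      rw [h4, htcard]
      push_cast
      ring
    rw [hexp, hsumQ] at hpos
    have h5 := choose_three_cast (m + 2) ℚ
    rw [h5]
    push_cast
    nlinarith

end

end Helper12
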