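import Mathlib
import Pool.Agent.Helper12.Constants

namespace Helper12

open Polynomial

section

variable {k Ω : Type*} [Field k] [Field Ω] [Algebra k Ω]

theorem exists_coprime_factor (p q : k[X]) (hq : q ≠ 0) :
    ∃ g p' q' : k[X], p = g * p' ∧ q = g * q' ∧ IsCoprime p' q' := by
  classical
  obtain ⟨g, A, B, hg, hgp, hgq⟩ : ∃ g A B : k[X], g = p * A + q * B ∧ g ∣ p ∧ g ∣ q :=
    ⟨_, _, _, EuclideanDomain.gcd_eq_gcd_ab p q, EuclideanDomain.gcd_dvd_left p q,
      EuclideanDomain.gcd_dvd_right p q⟩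
  obtain ⟨p', hp'⟩ := hgp
  obtain ⟨q', hq'⟩ := hgq
  refine ⟨g, p', q', hp', hq', A, B, ?_⟩
  have hg0 : g ≠ 0 := by
    intro h
    rw [h, zero_mul] at hq'
    exact hq hq'
  apply mul_left_cancel₀ hg0
  calc g * (A * p' + B * q') = (g * p') * A + (g * q') * B := by ring
    _ = p * A + q * B := by rw [← hp', ← hq']
    _ = g := hg.symm
    _ = g * 1 := by ring

theorem exists_coprime_rep (t T : Ω) (hT : T ∈ IntermediateField.adjoin k ({t} : Set Ω)) :
    ∃ p q : k[X], IsCoprime p q ∧ q ≠ 0 ∧ T = aeval t p / aeval t q := by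
  classical
  rw [IntermediateField.mem_adjoin_simple_iff] at hT
  obtain ⟨p, q, rfl⟩ := hT
  by_cases hqt : aeval t q = 0
  · refine ⟨0, 1, isCoprime_zero_left.2 isUnit_one, one_ne_zero, ?_⟩
    rw [hqt]; simp
  · have hq : q ≠ 0 := by rintro rfl; simp at hqt
    obtain ⟨g, p', q', hp, hq', hc⟩ := exists_coprime_factor p q hq
    refine ⟨p', q', hc, ?_, ?_⟩
    · rintro rfl
      rw [mul_zero] at hq'
      exact hq hq'
    · have h3 : aeval t g ≠ 0 := by
        intro h0
        apply hqt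
        rw [hq', map_mul, h0, zero_mul]
      rw [hp, hq', map_mul, map_mul, mul_div_mul_left _ _ h3]

theorem aeval_shift (t : Ω) (a : k) (p : k[X]) :
    aeval t p = aeval (t - algebraMap k Ω a) (p.comp (X + C a)) := by
  rw [aeval_comp]
  simp

namespace Place

variable (P : Place k Ω)

theorem w_at_unit {t : Ω} {a : k} (hP : P.ε = t - algebraMap k Ω a) (p : k[X])
    (hp : p.eval a ≠ 0) : P.V.valuation (aeval t p) = 1 := by
  rw [aeval_shift t a, ← hP]
  apply P.w_aeval_unit
  rw [Polynomial.coeff_zero_eq_eval_zero, eval_comp]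
  simpa using hp

theorem w_at_le {t : Ω} {a : k} (hP : P.ε = t - algebraMap k Ω a) (p : k[X]) :
    P.V.valuation (aeval t p) ≤ 1 := by
  rw [aeval_shift t a, ← hP]
  exact P.w_aeval_le _

theorem w_at_root {t : Ω} {a : k} (hP : P.ε = t - algebraMap k Ω a) (p : k[X])
    (hp : p.eval a = 0) : P.V.valuation (aeval t p) ≤ P.V.valuation P.ε := by
  obtain ⟨q, rfl⟩ := Polynomial.dvd_iff_isRoot.2 hp
  rw [map_mul, map_mul]
  have h1 : aeval t (X - C a) = P.ε := by rw [hP]; simp
  rw [h1]
  exact mul_le_of_le_one_right' (P.w_at_le hP q)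

theorem w_at_inf {t : Ω} (ht : t ≠ 0) (hP : P.ε = t⁻¹) (p : k[X]) (hp : p ≠ 0) :
    P.V.valuation (aeval t p) = P.V.valuation t ^ p.natDegree := by
  have h1 : aeval (t⁻¹) p.reverse * t ^ p.natDegree = aeval t p := by
    haveI : Invertible t := invertibleOfNonzero ht
    have h2 := Polynomial.eval₂_reverse_mul_pow (algebraMap k Ω) t p
    rw [invOf_eq_inv] at h2
    exact h2
  rw [← h1, map_mul, map_pow, ← hP, P.w_aeval_unit, one_mul]
  rw [Polynomial.coeff_zero_reverse]
  exact leadingCoeff_ne_zero.2 hp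

end Place

end

section

variable {k Ω : Type*} [Field k] [Field Ω] [Algebra k Ω]

theorem transcendental_sub {t : Ω} (ht : Transcendental k t) (a : k) :
    Transcendental k (t - algebraMap k Ω a) := by
  intro h
  apply ht
  have := h.add (isAlgebraic_algebraMap (A := Ω) a)
  rwa [sub_add_cancel] at this

theorem transcendental_inv {t : Ω} (ht : Transcendental k t) : Transcendental k t⁻¹ := by
  intro h
  apply ht
  have := h.inv
  rwa [inv_inv] at this

variable [IsAlgClosed k] [CharZero k] [CharZero Ω] [IsAlgClosed Ω]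

/-- A rational function cannot have nonnegative rational residues with one of them positive. -/
theorem no_positive_residues (t : Ω) (ht : Transcendental k t) (hgen : Gen k t) (T : Ω)
    (hT : T ∈ IntermediateField.adjoin k ({t} : Set Ω))
    (h : ∀ (a : k) (P : Place k Ω), P.ε = t - algebraMap k Ω a →
      ∃ ξ : ℚ, 0 ≤ ξ ∧ P.qval.gt 0 ((t - algebraMap k Ω a) * T - (ξ : Ω)))
    (h0 : ∀ P : Place k Ω, P.ε = t → ∃ ξ : ℚ, 0 < ξ ∧ P.qval.gt 0 (t * T - (ξ : Ω)))
    (hinf : ∀ P : Place k Ω, P.ε = t⁻¹ →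
      ∃ ξ : ℚ, 0 ≤ ξ ∧ P.qval.gt 0 (- (t * T) - (ξ : Ω))) : False := by
  classical
  have ht0 : t ≠ 0 := by rintro rfl; exact ht isAlgebraic_zero
  have hex : ∀ a : k, ∃ P : Place k Ω, P.ε = t - algebraMap k Ω a := fun a =>
    exists_place _ (transcendental_sub ht a) (gen_exchange ht (transcendental_sub ht a) hgen)
  choose P hP using hex
  have hξ := fun a => h a (P a) (hP a)
  choose ξ hξ0 hξ using hξ
  obtain ⟨Pi, hPi⟩ := exists_place t⁻¹ (transcendental_inv ht)
    (gen_exchange ht (transcendental_inv ht) hgen)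
  obtain ⟨ξi, hξi0, hξi⟩ := hinf Pi hPi
  obtain ⟨p, q, hpq, hq, hTpq⟩ := exists_coprime_rep t T hT
  have hne : ∀ b : k, t - algebraMap k Ω b ≠ 0 := by
    intro b hb
    exact transcendental_sub ht b (by rw [hb]; exact isAlgebraic_zero)
  -- vanishing outside the roots
  have hout : ∀ a : k, q.eval a ≠ 0 → ξ a = 0 := by
    intro a ha
    have h1 : (P a).V.valuation T ≤ 1 := by
      rw [hTpq, map_div₀, (P a).w_at_unit (hP a) q ha, div_one]
      exact (P a).w_at_le (hP a) p
    have h2 : (P a).qval.gt 0 ((t - algebraMap k Ω a) * T) := by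
      rw [(P a).gt_zero_iff, map_mul, ← hP a]
      exact mul_lt_one_of_lt_of_le (P a).lt h1
    have h3 := h2.sub (hξ a)
    rw [sub_sub_cancel] at h3
    exact (P a).qval.rat_eq_zero_of_gt h3
  set S : Finset k := q.roots.toFinset with hS
  have hSmem : ∀ a, a ∈ S ↔ q.eval a = 0 := by
    intro a
    rw [hS, Multiset.mem_toFinset, mem_roots hq]
    rfl
  set T' : Ω := T - ∑ b ∈ S, (ξ b : Ω) / (t - algebraMap k Ω b) with hT'
  -- the difference has no poles at finite distance
  have hA : ∀ a : k, (P a).qval.gt 0 ((t - algebraMap k Ω a) * T') := by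
    intro a
    have hunit : ∀ b : k, b ≠ a →
        (P a).qval.gt 0 ((t - algebraMap k Ω a) * ((ξ b : Ω) / (t - algebraMap k Ω b))) := by
      intro b hb
      have h1 : (P a).V.valuation (t - algebraMap k Ω b) = 1 := by
        have := (P a).w_at_unit (hP a) (X - C b) (by
          simp only [eval_sub, eval_X, eval_C]
          exact sub_ne_zero.2 (Ne.symm hb))
        simpa using this
      have h2 : (P a).qval.gt 0 ((t - algebraMap k Ω a) / (t - algebraMap k Ω b)) := by
        rw [(P a).gt_zero_iff, map_div₀, h1, div_one, ← hP a]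
        exact (P a).lt
      have h3 := (P a).qval.gt_rat_mul (q := ξ b) h2
      convert h3 using 1
      ring
    by_cases ha : a ∈ S
    · have h4 : (t - algebraMap k Ω a) * T' = ((t - algebraMap k Ω a) * T - (ξ a : Ω)) -
          ∑ b ∈ S.erase a, (t - algebraMap k Ω a) * ((ξ b : Ω) / (t - algebraMap k Ω b)) := by
        rw [hT', mul_sub, Finset.mul_sum, ← Finset.add_sum_erase S _ ha]
        have := hne a
        field_simp
        ring
      rw [h4]
      exact (hξ a).sub ((P a).qval.gt_sum _ _ _ (fun b hb => hunit b (Finset.ne_of_mem_erase hb)))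
    · have hξa : ξ a = 0 := hout a (fun h => ha ((hSmem a).2 h))
      have h4 : (t - algebraMap k Ω a) * T' = ((t - algebraMap k Ω a) * T - (ξ a : Ω)) -
          ∑ b ∈ S, (t - algebraMap k Ω a) * ((ξ b : Ω) / (t - algebraMap k Ω b)) := by
        rw [hT', hξa, mul_sub, Finset.mul_sum]
        simp
      rw [h4]
      exact (hξ a).sub ((P a).qval.gt_sum _ _ _ (fun b hb => hunit b (by
        rintro rfl; exact ha hb)))
  have htmem : t ∈ IntermediateField.adjoin k ({t} : Set Ω) :=
    IntermediateField.mem_adjoin_simple_self k t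
  have hT'mem : T' ∈ IntermediateField.adjoin k ({t} : Set Ω) := by
    rw [hT']
    apply sub_mem hT
    apply sum_mem
    intro b _
    apply div_mem
    · have : ((ξ b : ℚ) : Ω) = algebraMap k Ω (ξ b : k) := by rw [map_ratCast]
      rw [this]
      exact IntermediateField.algebraMap_mem _ _
    · exact sub_mem htmem (IntermediateField.algebraMap_mem _ _)
  obtain ⟨p', q', hpq', hq', hT'pq⟩ := exists_coprime_rep t T' hT'mem
  have hq'c : q'.natDegree = 0 := by
    by_contra hdeg
    obtain ⟨a, ha⟩ := IsAlgClosed.exists_root q' (by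
      intro h
      exact hdeg (natDegree_eq_zero_iff_degree_le_zero.2 h.le))
    have ha' : q'.eval a = 0 := ha
    have hpa : p'.eval a ≠ 0 := by
      intro h
      obtain ⟨u, v, huv⟩ := hpq'
      have := congrArg (eval a) huv
      simp [h, ha'] at this
    have h1 := hA a
    rw [(P a).gt_zero_iff, map_mul, hT'pq, map_div₀, (P a).w_at_unit (hP a) p' hpa,
      ← hP a, mul_one_div] at h1
    have h2 := (P a).w_at_root (hP a) q' ha'
    have h3 : (P a).V.valuation (aeval t q') ≠ 0 := by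
      rw [Valuation.ne_zero_iff]
      intro h
      exact ht ⟨q', hq', h⟩
    rw [div_lt_one₀ (zero_lt_iff.2 h3)] at h1
    exact absurd h1 (not_lt.2 h2)
  have hpoly : ∃ s : k[X], T' = aeval t s := by
    rw [eq_C_of_natDegree_eq_zero hq'c] at hT'pq hq'
    refine ⟨C (q'.coeff 0)⁻¹ * p', ?_⟩
    rw [hT'pq, map_mul, aeval_C, aeval_C, map_inv₀]
    field_simp
  obtain ⟨s, hs⟩ := hpoly
  have hwt : 1 < Pi.V.valuation t := by
    have h1 := Pi.lt
    rw [hPi, map_inv₀] at h1
    have h2 : 0 < Pi.V.valuation t := zero_lt_iff.2 ((Valuation.ne_zero_iff _).2 ht0)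
    exact (inv_lt_one₀ h2).1 h1
  have hinfT : Pi.qval.gt 0 (- (t * T') - ((ξi + ∑ b ∈ S, ξ b : ℚ) : Ω)) := by
    have h1 : - (t * T') - ((ξi + ∑ b ∈ S, ξ b : ℚ) : Ω) = (- (t * T) - (ξi : Ω)) +
        ∑ b ∈ S, (ξ b : Ω) * (t / (t - algebraMap k Ω b) - 1) := by
      rw [hT']
      push_cast
      simp only [mul_sub, Finset.sum_sub_distrib, mul_one, Finset.mul_sum]
      have : ∀ b, (ξ b : Ω) * (t / (t - algebraMap k Ω b)) =
          t * ((ξ b : Ω) / (t - algebraMap k Ω b)) := by intro b; ring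
      simp only [this]
      ring
    rw [h1]
    apply hξi.add
    apply Pi.qval.gt_sum
    intro b _
    apply Pi.qval.gt_rat_mul
    have h2 : t / (t - algebraMap k Ω b) - 1 = algebraMap k Ω b / (t - algebraMap k Ω b) := by
      have := hne b
      field_simp
      ring
    rw [h2, Pi.gt_zero_iff, map_div₀]
    have h3 : Pi.V.valuation (t - algebraMap k Ω b) = Pi.V.valuation t := by
      have := Pi.w_at_inf ht0 hPi (X - C b) (X_sub_C_ne_zero b)
      simpa using this
    rw [h3, div_lt_one₀ (zero_lt_one.trans hwt)]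
    exact lt_of_le_of_lt ((Pi.V.valuation_le_one_iff _).2 (Pi.mem b)) hwt
  have hs0 : s = 0 := by
    by_contra hne0
    have h1 : Pi.V.valuation (t * T') ≤ 1 := by
      rw [Pi.V.valuation_le_one_iff]
      have h2 := hinfT.ge.add (Pi.qval.ge_rat (ξi + ∑ b ∈ S, ξ b))
      rw [sub_add_cancel] at h2
      have h3 := h2.neg
      rw [neg_neg] at h3
      exact Pi.qval.ge_zero_iff.1 h3
    rw [hs, map_mul, Pi.w_at_inf ht0 hPi s hne0, ← pow_succ'] at h1
    exact absurd h1 (not_le.2 (one_lt_pow₀ hwt (Nat.succ_ne_zero _)))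
  rw [hs, hs0, map_zero, mul_zero, neg_zero, zero_sub] at hinfT
  have hsum := Pi.qval.rat_eq_zero_of_gt (q := -(ξi + ∑ b ∈ S, ξ b)) (by
    push_cast at hinfT ⊢
    exact hinfT)
  have hsum0 : ∑ b ∈ S, ξ b = 0 := by
    have h1 : 0 ≤ ∑ b ∈ S, ξ b := Finset.sum_nonneg (fun b _ => hξ0 b)
    linarith
  have hall : ∀ a : k, ξ a = 0 := by
    intro a
    by_cases ha : a ∈ S
    · exact (Finset.sum_eq_zero_iff_of_nonneg (fun b _ => hξ0 b)).1 hsum0 a ha
    · exact hout a (fun h => ha ((hSmem a).2 h))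
  have hP0 : (P 0).ε = t := by rw [hP 0]; simp
  obtain ⟨ξ0, hξ0', hξ0''⟩ := h0 (P 0) hP0
  have h1 := hξ 0
  rw [hall 0] at h1
  simp only [map_zero, sub_zero, Rat.cast_zero] at h1
  have h2 := h1.sub hξ0''
  rw [sub_sub_cancel] at h2
  exact hξ0'.ne' ((P 0).qval.rat_eq_zero_of_gt h2)

end

end Helper12
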