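import Mathlib
import Pool.Agent.Helper12.Residue
import Pool.Agent.Helper12.LocalScaled

namespace Helper12

open Polynomial Filter

section

variable {R K Ω : Type*} [CommRing R] [Field K] [Field Ω]

theorem SecondCoeff.map [CharZero K] [CharZero Ω] {ι : R →+* K} {n : ℕ} {b : Fin n → R} {r : ℕ}
    {P : ℕ → R[X]} {c : Fin n → K} {δ : ℚ} (h : SecondCoeff ι b r P c δ) (τ : K →+* Ω) :
    SecondCoeff (τ.comp ι) b r P (fun i => τ (c i)) δ := by
  unfold SecondCoeff at h ⊢
  rw [← Polynomial.map_map, h]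
  simp only [Polynomial.map_neg, Polynomial.map_mul, Polynomial.map_sum, Polynomial.map_C,
    map_natCast, Polynomial.map_natCast, Polynomial.map_add, Polynomial.map_sub, Polynomial.map_X, Polynomial.map_prod,
    Polynomial.map_pow, map_ratCast, RingHom.coe_comp, Function.comp_apply]

end

section

variable {R K : Type*} [CommRing R] [Algebra.FiniteType ℤ R] [Field K] [CharZero K]
  [Algebra R K] {n : ℕ} (b : Fin n → R) (r : ℕ) (P Q : ℕ → R[X]) (c : Fin n → K) (δ : ℚ)
  {k Ω : Type*} [Field k] [IsAlgClosed k] [CharZero k] [Field Ω] [CharZero Ω] [IsAlgClosed Ω]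
  [Algebra k Ω]

/-- the logarithmic one-form evaluated on a derivation -/
noncomputable def theta (b : Fin n → R) (c : Fin n → K) (δ : ℚ) (τ : K →+* Ω) (D : Ω → Ω) : Ω :=
  ∑ i, τ (c i) * D (τ (algebraMap R K (b i))) + ((δ / n : ℚ) : Ω) *
    ∑ i, ∑ j ∈ Finset.univ.erase i,
      D (τ (algebraMap R K (b i)) - τ (algebraMap R K (b j))) /
        (τ (algebraMap R K (b i)) - τ (algebraMap R K (b j)))

theorem local_app (hb : Function.Injective (fun i => algebraMap R K (b i))) (hr : 2 ≤ r)
    (hδ : 8 * ((n : ℚ) - 1) * δ + n < 0) (hc0 : ∑ i, c i = 0)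
    (hc1 : ∑ i, c i * algebraMap R K (b i) = - ((n : K) - 1) * δ)
    (hP2 : SecondCoeff (algebraMap R K) b r P c δ) (hP1 : P 1 = 0) (hQ1 : Q 1 = 0)
    (hR : ∀ᶠ p : ℕ in atTop, p.Prime → ∀ i < r,
      NilCoef p (qnum r 1 (fpoly b) (Gdat r b P Q) (p * r) i))
    (τ : K →+* Ω) (Pl : Place k Ω) (ϑ : Derivation k Ω Ω) (hϑ : ϑ Pl.ε = Pl.ε) :
    ∃ ξ : ℚ, 0 ≤ ξ ∧ Pl.qval.gt 0 (theta b c δ τ ϑ - (ξ : Ω)) ∧
      (∀ i j l, i ≠ j → l ≠ i →
        Pl.qval.r (τ (algebraMap R K (b i)) - τ (algebraMap R K (b l))) <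
          Pl.qval.r (τ (algebraMap R K (b i)) - τ (algebraMap R K (b j))) → 0 < ξ) := by
  have h := local_thm Pl.qval (fun i => τ (algebraMap R K (b i))) (fun i => τ (c i))
    (fun i j hij => hb (τ.injective hij)) δ hδ
    (by rw [← map_sum, hc0, map_zero])
    (by
      have := congrArg τ hc1
      rw [map_sum] at this
      simp only [map_mul, map_neg, map_sub, map_natCast, map_one, map_ratCast] at this
      exact this)
    (fun i0 I lo hi ann ρ h1 h2 => node (τ.comp (algebraMap R K)) Pl.qval b r P Q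
      (fun i => τ (c i)) δ hr (hP2.map τ) hP1 hQ1 hR ann ρ h1 h2)
    (ϑ : Ω →+ Ω) (fun x hx => Pl.compat ϑ hϑ x hx)
  exact h

theorem global_aux (hb : Function.Injective (fun i => algebraMap R K (b i))) (hr : 2 ≤ r)
    (hδ : 8 * ((n : ℚ) - 1) * δ + n < 0) (hc0 : ∑ i, c i = 0)
    (hc1 : ∑ i, c i * algebraMap R K (b i) = - ((n : K) - 1) * δ)
    (hP2 : SecondCoeff (algebraMap R K) b r P c δ) (hP1 : P 1 = 0) (hQ1 : Q 1 = 0)
    (hR : ∀ᶠ p : ℕ in atTop, p.Prime → ∀ i < r,
      NilCoef p (qnum r 1 (fpoly b) (Gdat r b P Q) (p * r) i))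
    (τ0 : K →+* Ω) (t : Ω) (ht : Transcendental k t) (hgen : Gen k t)
    {i j l : Fin n} (hij : i ≠ j) (hil : l ≠ i)
    (hlam : τ0 (algebraMap R K (b i)) - τ0 (algebraMap R K (b j)) =
      (τ0 (algebraMap R K (b i)) - τ0 (algebraMap R K (b l))) * t) : False := by
  classical
  obtain ⟨D, hD⟩ := exists_derivation t ht hgen
  have ht0 : t ≠ 0 := by rintro rfl; exact ht isAlgebraic_zero
  obtain ⟨P0, hP0⟩ := exists_place t ht hgen
  let F := IntermediateField.adjoin k ({t} : Set Ω)
  haveI : Algebra.IsAlgebraic F Ω := by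
    have := P0.isAlgebraic_adjoin
    rw [Place.base, hP0] at this
    exact this
  set θ0 : Ω := theta b c δ τ0 D with hθ0
  have hint : IsIntegral F θ0 := Algebra.IsIntegral.isIntegral θ0
  let E := IntermediateField.adjoin F ({θ0} : Set Ω)
  haveI : FiniteDimensional F E := IntermediateField.adjoin.finiteDimensional hint
  haveI : CharZero F := inferInstance
  haveI : Algebra.IsSeparable F E := inferInstance
  set θE : E := ⟨θ0, IntermediateField.mem_adjoin_simple_self F θ0⟩ with hθE
  have htr : algebraMap F Ω (Algebra.trace F E θE) = ∑ σ : E →ₐ[F] Ω, σ θE :=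
    trace_eq_sum_embeddings Ω
  set T : Ω := algebraMap F Ω (Algebra.trace F E θE) with hT
  -- extension of the embeddings
  have hext : ∀ σ : E →ₐ[F] Ω, ∃ σ' : Ω →ₐ[F] Ω, ∀ x : E, σ' (x : Ω) = σ x := by
    intro σ
    obtain ⟨σ', hσ'⟩ := IsAlgClosed.surjective_domRestrict_of_isAlgebraic
      (K := F) (L := E) (M := Ω) (E := Ω) σ
    exact ⟨σ', fun x => by rw [← hσ']; rfl⟩
  choose ext hext using hext
  have hextt : ∀ σ, ext σ t = t := by
    intro σ
    exact (ext σ).commutes ⟨t, IntermediateField.mem_adjoin_simple_self k t⟩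
  have hextk : ∀ σ (a : k), ext σ (algebraMap k Ω a) = algebraMap k Ω a := by
    intro σ a
    exact (ext σ).commutes ⟨algebraMap k Ω a, F.algebraMap_mem a⟩
  let extk : (E →ₐ[F] Ω) → (Ω →ₐ[k] Ω) := fun σ =>
    { (ext σ).toRingHom with commutes' := hextk σ }
  have hcomm : ∀ σ x, D (ext σ x) = ext σ (D x) := by
    intro σ x
    exact derivation_comm P0 D 1 (by rw [hP0, hD, map_one]) (extk σ) (by rw [hP0]; exact hextt σ) x
  have hσθ : ∀ σ : E →ₐ[F] Ω, σ θE = theta b c δ ((ext σ).toRingHom.comp τ0) D := by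
    intro σ
    rw [← hext σ θE]
    change ext σ θ0 = _
    rw [hθ0]
    unfold theta
    simp only [map_add, map_mul, map_sum, map_div₀, map_ratCast]
    congr 1
    · apply Finset.sum_congr rfl
      intro i _
      rw [← hcomm]
      rfl
    · congr 1
      apply Finset.sum_congr rfl
      intro i _
      apply Finset.sum_congr rfl
      intro j _
      rw [← hcomm, map_sub]
      rfl
  have key : ∀ (u : Ω) (Pl : Place k Ω), u * D Pl.ε = Pl.ε →
      ∃ ξ : ℚ, 0 ≤ ξ ∧ Pl.qval.gt 0 (u * T - (ξ : Ω)) ∧ (Pl.ε = t → 0 < ξ) := by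
    intro u Pl hu
    have hloc := fun σ : E →ₐ[F] Ω => local_app b r P Q c δ hb hr hδ hc0 hc1 hP2 hP1 hQ1 hR
      ((ext σ).toRingHom.comp τ0) Pl (u • D) (by
        rw [Derivation.smul_apply, smul_eq_mul]; exact hu)
    choose ξ hξ0 hξ hξpos using hloc
    refine ⟨∑ σ, ξ σ, Finset.sum_nonneg (fun σ _ => hξ0 σ), ?_, ?_⟩
    · have h1 : u * T - ((∑ σ, ξ σ : ℚ) : Ω) = ∑ σ : E →ₐ[F] Ω,
          (theta b c δ ((ext σ).toRingHom.comp τ0) (u • D) - (ξ σ : Ω)) := by
        rw [Finset.sum_sub_distrib, htr, Finset.mul_sum]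
        push_cast
        congr 1
        apply Finset.sum_congr rfl
        intro σ _
        rw [hσθ σ]
        unfold theta
        simp only [Pi.smul_apply, smul_eq_mul, mul_add, Finset.mul_sum]
        congr 1
        · apply Finset.sum_congr rfl
          intro i _
          ring
        · apply Finset.sum_congr rfl
          intro i _
          apply Finset.sum_congr rfl
          intro j _
          ring
      rw [h1]
      exact Pl.qval.gt_sum _ _ _ (fun σ _ => hξ σ)
    · intro hPlt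
      apply Finset.sum_pos
      · intro σ _
        apply hξpos σ i j l hij hil
        have h2 : (ext σ).toRingHom.comp τ0 (algebraMap R K (b i)) -
            (ext σ).toRingHom.comp τ0 (algebraMap R K (b j)) =
            ((ext σ).toRingHom.comp τ0 (algebraMap R K (b i)) -
            (ext σ).toRingHom.comp τ0 (algebraMap R K (b l))) * t := by
          have h3 := congrArg (ext σ) hlam
          rw [map_sub, map_mul, map_sub, hextt σ] at h3
          exact h3
        have h4 : (ext σ).toRingHom.comp τ0 (algebraMap R K (b i)) -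
            (ext σ).toRingHom.comp τ0 (algebraMap R K (b l)) ≠ 0 := by
          intro h5
          have h6 := ((ext σ).toRingHom.comp τ0).injective (sub_eq_zero.1 h5)
          exact hil (hb h6).symm
        have hrt : Pl.qval.r t = 1 := by
          rw [← hPlt]; exact Pl.r_ε
        rw [h2, Pl.qval.r_mul h4 ht0, hrt]
        linarith
      · exact ⟨E.val, Finset.mem_univ _⟩
  refine no_positive_residues t ht hgen T (Algebra.trace F E θE).2 ?_ ?_ ?_
  · intro a Pl hPl
    obtain ⟨ξ, h1, h2, -⟩ := key (t - algebraMap k Ω a) Pl (by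
      rw [hPl, map_sub, hD, Derivation.map_algebraMap]; ring)
    exact ⟨ξ, h1, h2⟩
  · intro Pl hPl
    obtain ⟨ξ, h1, h2, h3⟩ := key t Pl (by rw [hPl, hD]; ring)
    exact ⟨ξ, h3 hPl, h2⟩
  · intro Pl hPl
    obtain ⟨ξ, h1, h2, -⟩ := key (-t) Pl (by
      rw [hPl, Derivation.leibniz_inv, hD]
      simp only [smul_eq_mul]
      field_simp)
    refine ⟨ξ, h1, ?_⟩
    rw [neg_mul] at h2
    exact h2

end

section

variable {R K : Type*} [CommRing R] [Algebra.FiniteType ℤ R] [Field K] [CharZero K]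
  [Algebra R K] {n : ℕ} (b : Fin n → R) (r : ℕ) (P Q : ℕ → R[X]) (c : Fin n → K) (δ : ℚ)

theorem global_thm (hb : Function.Injective (fun i => algebraMap R K (b i))) (hr : 2 ≤ r)
    (hδ : 8 * ((n : ℚ) - 1) * δ + n < 0) (hc0 : ∑ i, c i = 0)
    (hc1 : ∑ i, c i * algebraMap R K (b i) = - ((n : K) - 1) * δ)
    (hP2 : SecondCoeff (algebraMap R K) b r P c δ) (hP1 : P 1 = 0) (hQ1 : Q 1 = 0)
    (hR : ∀ᶠ p : ℕ in atTop, p.Prime → ∀ i < r,
      NilCoef p (qnum r 1 (fpoly b) (Gdat r b P Q) (p * r) i))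
    {i j l : Fin n} (hij : i ≠ j) (hil : l ≠ i) :
    IsAlgebraic ℚ ((algebraMap R K (b i) - algebraMap R K (b j)) /
      (algebraMap R K (b i) - algebraMap R K (b l))) := by
  by_contra htr
  set lam := (algebraMap R K (b i) - algebraMap R K (b j)) /
      (algebraMap R K (b i) - algebraMap R K (b l)) with hlam
  have hne : algebraMap R K (b i) - algebraMap R K (b l) ≠ 0 := by
    intro h
    exact hil (hb (sub_eq_zero.1 h)).symm
  have htr' : Transcendental ℚ (algebraMap K (AlgebraicClosure K) lam) := by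
    intro h
    exact htr ((isAlgebraic_algebraMap_iff (algebraMap K (AlgebraicClosure K)).injective).1 h)
  haveI : CharZero (AlgebraicClosure K) := charZero_of_injective_algebraMap
    (algebraMap K (AlgebraicClosure K)).injective
  obtain ⟨k, hk1, hk2, hk3⟩ := exists_constants _ htr'
  haveI : CharZero k := inferInstance
  refine global_aux b r P Q c δ (k := k) hb hr hδ hc0 hc1 hP2 hP1 hQ1 hR
    (algebraMap K (AlgebraicClosure K)) _ hk2 hk3 hij hil ?_
  rw [← (algebraMap K (AlgebraicClosure K)).map_sub, ← (algebraMap K (AlgebraicClosure K)).map_sub,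
    ← (algebraMap K (AlgebraicClosure K)).map_mul, hlam, mul_div_cancel₀ _ hne]

end

end Helper12
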