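import Mathlib
import Pool.Agent.Helper12.Global
import Pool.Agent.Helper12.Bridge

namespace Helper12

open Polynomial Filter

theorem mem_of_isAlgebraic {Ω : Type*} [Field Ω] [CharZero Ω] (k : Subfield Ω) [IsAlgClosed k]
    {x : Ω} (hx : IsAlgebraic ℚ x) : ∃ a : k, algebraMap k Ω a = x := by
  classical
  obtain ⟨p, hp, hpx⟩ := hx
  haveI : CharZero k := inferInstance
  have hinj : Function.Injective (algebraMap ℚ k) := (algebraMap ℚ k).injective
  have hq0 : p.map (algebraMap ℚ k) ≠ 0 := by
    intro h
    exact hp ((Polynomial.map_eq_zero_iff hinj).1 h)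
  have hq : aeval x (p.map (algebraMap ℚ k)) = 0 := by
    rw [aeval_map_algebraMap]; exact hpx
  rw [(IsAlgClosed.splits (p.map (algebraMap ℚ k))).eq_prod_roots, map_mul, aeval_C,
    map_multiset_prod, Multiset.map_map] at hq
  rcases mul_eq_zero.1 hq with h | h
  · exfalso
    exact hq0 (leadingCoeff_eq_zero.1 ((map_eq_zero (algebraMap k Ω)).1 h))
  · rw [Multiset.prod_eq_zero_iff, Multiset.mem_map] at h
    obtain ⟨a, -, ha⟩ := h
    simp only [Function.comp_apply, map_sub, aeval_X, aeval_C] at ha
    exact ⟨a, (sub_eq_zero.1 ha).symm⟩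

namespace Place

variable {k Ω : Type*} [Field k] [Field Ω] [Algebra k Ω] (P : Place k Ω) [CharZero k]
  [IsAlgClosed Ω]

theorem r_const (c : k) (hc : c ≠ 0) : P.qval.r (algebraMap k Ω c) = 0 := by
  have h0 : algebraMap k Ω c ≠ 0 := (_root_.map_ne_zero _).2 hc
  rw [P.qval_r, P.r_eq h0 (M := 1) (m := 0) ⟨one_pos, by rw [P.w_const c hc]; simp⟩]
  simp

end Place

section

variable {R K : Type*} [CommRing R] [Algebra.FiniteType ℤ R] [Field K] [CharZero K]
  [Algebra R K] {n : ℕ} (b : Fin n → R) (r : ℕ) (P Q : ℕ → R[X])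

/-- If the points are algebraic, then so are the coefficients. -/
theorem coeff_algebraic (hb : Function.Injective (fun i => algebraMap R K (b i)))
    (halg : ∀ i, IsAlgebraic ℚ (algebraMap R K (b i)))
    (hR : ∀ᶠ p : ℕ in atTop, p.Prime → ∀ i < r,
      NilCoef p (qnum r 1 (fpoly b) (Gdat r b P Q) (p * r) i))
    (i0 : Fin n) (hi0 : b i0 = 0) (j : ℕ) (hj : 1 ≤ j) (hjr : j ≤ r) (m : ℕ) :
    IsAlgebraic ℚ (algebraMap R K ((P j).coeff m)) ∧
    IsAlgebraic ℚ (algebraMap R K ((Q j).coeff m)) := by
  classical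
  let τ := algebraMap K (AlgebraicClosure K)
  have hτ : Function.Injective τ := τ.injective
  haveI : CharZero (AlgebraicClosure K) := charZero_of_injective_algebraMap hτ
  -- the common argument
  have key : ∀ z : K, ¬ IsAlgebraic ℚ z → ∃ v : QVal (AlgebraicClosure K),
      v.r (τ z) = -1 ∧ (∀ ρ, 0 < ρ → ρ < 1 →
        (tco (τ.comp (algebraMap R K)) (τ.comp (algebraMap R K) (b i0)) (P j) m = 0 ∨
          0 ≤ m * ρ + v.r (tco (τ.comp (algebraMap R K)) (τ.comp (algebraMap R K) (b i0)) (P j) m)) ∧
        (tco (τ.comp (algebraMap R K)) (τ.comp (algebraMap R K) (b i0)) (Q j) m = 0 ∨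
          0 ≤ 1 / 2 * ρ + m * ρ +
            v.r (tco (τ.comp (algebraMap R K)) (τ.comp (algebraMap R K) (b i0)) (Q j) m))) := by
    intro z hz
    have hztr : Transcendental ℚ (τ z) := by
      intro h
      exact hz ((isAlgebraic_algebraMap_iff hτ).1 h)
    have hz0 : τ z ≠ 0 := by
      intro h
      rw [h] at hztr
      exact hztr isAlgebraic_zero
    have htr : Transcendental ℚ (τ z)⁻¹ := by
      intro h
      apply hztr
      have := h.inv
      rwa [inv_inv] at this
    obtain ⟨k, hk1, hk2, hk3⟩ := exists_constants _ htr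
    haveI : CharZero k := inferInstance
    obtain ⟨Pl, hPl⟩ := exists_place _ hk2 hk3
    have hrt : Pl.qval.r (τ z) = -1 := by
      have h1 := Pl.r_ε
      rw [hPl, ← Pl.qval_r, Pl.qval.r_inv hz0] at h1
      linarith
    refine ⟨Pl.qval, hrt, ?_⟩
    have hconst : ∀ i, ∃ a : k, algebraMap k (AlgebraicClosure K) a = τ (algebraMap R K (b i)) := by
      intro i
      exact mem_of_isAlgebraic k ((isAlgebraic_algebraMap_iff hτ).2 (halg i))
    choose a ha using hconst
    have hdiff : ∀ i i', i ≠ i' → τ (algebraMap R K (b i)) - τ (algebraMap R K (b i')) ≠ 0 ∧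
        Pl.qval.r (τ (algebraMap R K (b i)) - τ (algebraMap R K (b i'))) = 0 := by
      intro i i' hii
      have hne : τ (algebraMap R K (b i)) - τ (algebraMap R K (b i')) ≠ 0 := by
        intro h
        exact hii (hb (hτ (sub_eq_zero.1 h)))
      refine ⟨hne, ?_⟩
      rw [← ha i, ← ha i', ← map_sub] at hne ⊢
      exact Pl.r_const _ ((_root_.map_ne_zero _).1 hne)
    have ann : Ann Pl.qval (fun i => (τ.comp (algebraMap R K)) (b i)) i0 {i0} 0 1 := by
      refine ⟨Finset.mem_singleton_self _, one_pos, ?_, ?_⟩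
      · intro i hi
        rw [Finset.mem_singleton] at hi
        subst hi
        simp only [sub_self]
        exact Pl.qval.ge_zero _
      · intro i hi
        rw [Finset.mem_singleton] at hi
        have := hdiff i i0 hi
        exact ⟨this.1, this.2.le⟩
    have houter : Pl.qval.r (outerC (fun i => (τ.comp (algebraMap R K)) (b i)) i0 {i0}) = 0 := by
      rw [outerC, Pl.qval.r_prod]
      · apply Finset.sum_eq_zero
        intro i hi
        rw [Finset.mem_compl, Finset.mem_singleton] at hi
        exact (hdiff i0 i (Ne.symm hi)).2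
      · intro i hi
        rw [Finset.mem_compl, Finset.mem_singleton] at hi
        exact (hdiff i0 i (Ne.symm hi)).1
    intro ρ hρ0 hρ1
    have hint := integrality (τ.comp (algebraMap R K)) Pl.qval b r P Q hR ann ρ hρ0 hρ1 j hj hjr m
    rw [houter, Finset.card_singleton] at hint
    constructor
    · rcases hint.1 with h | h
      · exact Or.inl h
      · right
        unfold cval at h
        push_cast at h
        linarith
    · rcases hint.2 with h | h
      · exact Or.inl h
      · right
        unfold cval at h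
        push_cast at h
        linarith
  have htco : ∀ F : R[X], tco (τ.comp (algebraMap R K)) (τ.comp (algebraMap R K) (b i0)) F m =
      τ (algebraMap R K (F.coeff m)) := by
    intro F
    rw [tco, hi0, map_zero, taylor_zero, coeff_map]
    rfl
  have hρ0 : (0 : ℚ) < 1 / (2 * (m + 1)) := by positivity
  have hmm : (0 : ℚ) ≤ m := Nat.cast_nonneg m
  have hρ1 : (1 : ℚ) / (2 * (m + 1)) < 1 := by
    rw [div_lt_one (by positivity)]
    linarith
  have hρm : (m : ℚ) * (1 / (2 * (m + 1))) ≤ 1 / 2 := by
    rw [mul_one_div, div_le_div_iff₀ (by positivity) (by norm_num)]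
    linarith
  have hρh : (1 : ℚ) / (2 * (m + 1)) ≤ 1 / 2 := by
    rw [div_le_div_iff₀ (by positivity) (by norm_num)]
    linarith
  constructor
  · by_contra hz
    obtain ⟨v, hv, hall⟩ := key _ hz
    have h := (hall _ hρ0 hρ1).1
    rw [htco, hv] at h
    rcases h with h | h
    · apply hz
      have h0 : algebraMap R K ((P j).coeff m) = 0 := hτ (by rw [h, map_zero])
      rw [h0]; exact isAlgebraic_zero
    · linarith
  · by_contra hz
    obtain ⟨v, hv, hall⟩ := key _ hz
    have h := (hall _ hρ0 hρ1).2
    rw [htco, hv] at h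
    rcases h with h | h
    · apply hz
      have h0 : algebraMap R K ((Q j).coeff m) = 0 := hτ (by rw [h, map_zero])
      rw [h0]; exact isAlgebraic_zero
    · linarith

end

end Helper12
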