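import Mathlib
import Pool.Agent.Helper12.IsoMain
import Pool.Agent.Helper12.IsoTors

namespace Helper12

open Polynomial Matrix Filter

section MapLemmas

variable {C C' : Type} [CommRing C] [CommRing C'] {N : ℕ}

theorem nabMat_map (φ : C →+* C') (d : Derivation ℤ C C) (D : Derivation ℤ C' C')
    (h : ∀ f, D (φ f) = φ (d f)) (A M : Matrix (Fin N) (Fin N) C) :
    nabMat D (A.map φ) (M.map φ) = (nabMat d A M).map φ := by
  have h1 : (M.map φ).map D = (M.map d).map φ := by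
    ext i j; simp only [Matrix.map_apply, h]
  rw [nabMat, nabMat, h1]
  ext i j
  simp only [Matrix.sub_apply, Matrix.add_apply, Matrix.map_apply, Matrix.mul_apply, map_add,
    map_sub, map_sum, map_mul]

theorem mul_conj (g g' M M' : Matrix (Fin N) (Fin N) C) (h : g * g' = 1) :
    (g * M * g') * (g * M' * g') = g * (M * M') * g' := by
  have h' : g' * g = 1 := mul_eq_one_comm.1 h
  have e1 : (g * M * g') * (g * M' * g') = g * M * (g' * g) * M' * g' := by noncomm_ring
  rw [e1, h']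
  noncomm_ring

end MapLemmas

namespace TwoChartCurve

variable {R O₁ O₂ B : Type} [CommRing R] [CommRing O₁] [CommRing O₂] [CommRing B]
    [Algebra R O₁] [Algebra R O₂] [Algebra R B] {X : TwoChartCurve R O₁ O₂ B} {N : ℕ}
    (E : X.Connection N)

theorem Connection.compat' : E.A₂.map X.i₂ = X.D₂ (X.i₁ X.x₁) •
    (E.g' * E.A₁.map X.i₁ * E.g + E.g' * E.g.map (X.D₁.restrictScalars ℤ)) := by
  have h : E.g.map X.D₂ = X.D₂ (X.i₁ X.x₁) • E.g.map (X.D₁.restrictScalars ℤ) := by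
    ext i j
    simp only [Matrix.map_apply, Matrix.smul_apply, smul_eq_mul, Derivation.restrictScalars_apply]
    exact X.D₂_eq _
  rw [E.compatible, h, Matrix.mul_smul, smul_add]

theorem Connection.cocycle (V : X.VectorField) :
    nabMat (X.D₁.restrictScalars ℤ) (E.A₁.map X.i₁) (E.beta V) = E.defect₂ V - E.defect₁ V := by
  have h := defect_cocycle (X.D₁.restrictScalars ℤ) V.T₁ V.T₂ (X.D₂ (X.i₁ X.x₁))
    (X.D₁ (X.i₂ X.x₂)) (X.i₁ X.x₁) X.w_mul_u (by simp [X.D₁_i₁, X.d₁_x₁])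
    (fun f => by rw [Derivation.restrictScalars_apply]; exact V.T₁_eq f)
    (fun f => by
      rw [Derivation.restrictScalars_apply, Derivation.restrictScalars_apply, ← X.D₂_eq,
        ← X.D₂_eq, V.T₂_comm])
    E.g E.g' (E.A₁.map X.i₁) (E.A₂.map X.i₂) E.g_mul_g' E.compat'
  have h1 : (E.A₂.map X.i₂).map V.T₂ = (E.A₂.map V.t₂).map X.i₂ := by
    ext i j; simp only [Matrix.map_apply, V.T₂_i₂]
  have h2 : (E.A₁.map X.i₁).map V.T₁ = (E.A₁.map V.t₁).map X.i₁ := by
    ext i j; simp only [Matrix.map_apply, V.T₁_i₁]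
  rw [h1, h2] at h
  exact h

/-- The computation modulo a prime number. -/
theorem Connection.cup_mem (V V' : X.VectorField) (p : ℕ) (hp : p.Prime) (f : R)
    (h1 : ∀ v i, (nabVec (X.d₁.restrictScalars ℤ) E.A₁)^[p] v i ∈ satIdeal (algebraMap R O₁ f) p)
    (h2 : ∀ v i, (nabVec (X.d₂.restrictScalars ℤ) E.A₂)^[p] v i ∈ satIdeal (algebraMap R O₂ f) p) :
    ∃ M ∈ E.deRhamRelations, ∀ i j, (E.cup V V' - M) i j ∈ satIdeal (algebraMap R B f) p := by
  obtain ⟨m₁, hm₁⟩ := exists_primitive p hp _ (natCast_mem_satIdeal (algebraMap R O₁ f) p)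
    (X.d₁.restrictScalars ℤ) V.t₁ (fun c => by
      rw [Derivation.restrictScalars_apply, Derivation.restrictScalars_apply]; exact V.t₁_comm c)
    (fun c hc => der_mem_satIdeal _ _ _ _ hc) X.x₁
    (by rw [Derivation.restrictScalars_apply]; exact X.d₁_x₁) E.A₁ h1
  obtain ⟨m₂, hm₂⟩ := exists_primitive p hp _ (natCast_mem_satIdeal (algebraMap R O₂ f) p)
    (X.d₂.restrictScalars ℤ) V'.t₂ (fun c => by
      rw [Derivation.restrictScalars_apply, Derivation.restrictScalars_apply]; exact V'.t₂_comm c)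
    (fun c hc => der_mem_satIdeal _ _ _ _ hc) X.x₂
    (by rw [Derivation.restrictScalars_apply]; exact X.d₂_x₂) E.A₂ h2
  set D := X.D₁.restrictScalars ℤ with hD
  set w := X.D₁ (X.i₂ X.x₂) with hw
  set u := X.D₂ (X.i₁ X.x₁) with hu
  set A := E.A₁.map X.i₁ with hA
  set m := m₁.map X.i₁ with hm
  set n := E.g * m₂.map X.i₂ * E.g' with hn
  set k₁ := nabMat (X.d₁.restrictScalars ℤ) E.A₁ m₁ - E.A₁.map V.t₁ with hk₁
  set k₂ := nabMat (X.d₂.restrictScalars ℤ) E.A₂ m₂ - E.A₂.map V'.t₂ with hk₂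
  set j₁ := k₁.map X.i₁ with hj₁
  set j₂ := w • (E.g * k₂.map X.i₂ * E.g') with hj₂
  have hj₁m : ∀ i j, j₁ i j ∈ satIdeal (algebraMap R B f) p := by
    intro i j
    have := map_mem_satIdeal X.i₁.toRingHom (algebraMap R O₁ f) p _ (hm₁ i j)
    have h3 : X.i₁.toRingHom (algebraMap R O₁ f) = algebraMap R B f := X.i₁.commutes f
    rw [h3] at this
    exact this
  have hj₂m : ∀ i j, j₂ i j ∈ satIdeal (algebraMap R B f) p := by
    intro i j
    rw [hj₂, Matrix.smul_apply, smul_eq_mul]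
    apply Ideal.mul_mem_left
    apply entry_mul_mem
    apply mul_entry_mem
    intro i j
    have := map_mem_satIdeal X.i₂.toRingHom (algebraMap R O₂ f) p _ (hm₂ i j)
    have h3 : X.i₂.toRingHom (algebraMap R O₂ f) = algebraMap R B f := X.i₂.commutes f
    rw [h3] at this
    exact this
  have hmap1 : nabMat D A m = (nabMat (X.d₁.restrictScalars ℤ) E.A₁ m₁).map X.i₁ :=
    nabMat_map X.i₁.toRingHom (X.d₁.restrictScalars ℤ) D (fun f => X.D₁_i₁ f) E.A₁ m₁
  have hF1 : nabMat D A m = E.defect₁ V + j₁ := by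
    rw [hmap1, hj₁, hk₁]
    ext i j
    simp only [Matrix.map_apply, Matrix.add_apply, Matrix.sub_apply, Connection.defect₁, map_sub]
    ring
  have hconj := nabMat_conj D u w X.w_mul_u E.g E.g' A (E.A₂.map X.i₂) E.g_mul_g' E.compat'
    (m₂.map X.i₂)
  have hmap2 : u • (m₂.map X.i₂).map D + E.A₂.map X.i₂ * m₂.map X.i₂ -
      m₂.map X.i₂ * E.A₂.map X.i₂ = (nabMat (X.d₂.restrictScalars ℤ) E.A₂ m₂).map X.i₂ := by
    have h3 := nabMat_map X.i₂.toRingHom (X.d₂.restrictScalars ℤ) (X.D₂.restrictScalars ℤ)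
      (fun f => X.D₂_i₂ f) E.A₂ m₂
    have h4 : u • (m₂.map X.i₂).map D = (m₂.map X.i₂).map (X.D₂.restrictScalars ℤ) := by
      ext i j
      simp only [Matrix.map_apply, Matrix.smul_apply, smul_eq_mul, hD,
        Derivation.restrictScalars_apply]
      exact (X.D₂_eq _).symm
    rw [h4]
    exact h3
  rw [hmap2] at hconj
  have hF2 : nabMat D A n = E.defect₂ V' + j₂ := by
    rw [hn, hconj, hj₂, hk₂, Connection.defect₂, ← smul_add, ← hw]
    congr 1
    rw [← Matrix.add_mul, ← Matrix.mul_add]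
    congr 2
    ext i j
    simp only [Matrix.map_apply, Matrix.add_apply, Matrix.sub_apply, map_sub]
    ring
  have hid := cup_identity D A (E.beta V) (E.beta V') (E.defect₁ V) (E.defect₁ V')
    (E.defect₂ V) (E.defect₂ V') m n j₁ j₂ (E.cocycle V) (E.cocycle V') hF1 hF2
  have ht2 : E.defect₂ V * n = w • (E.g * (E.A₂.map V.t₂ * m₂).map X.i₂ * E.g') := by
    rw [Connection.defect₂, hn, Matrix.smul_mul, mul_conj _ _ _ _ E.g_mul_g', ← hw]
    congr 3
    ext i j
    simp only [Matrix.mul_apply, Matrix.map_apply, map_sum, map_mul]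
  have ht1 : m * E.defect₁ V' = (m₁ * E.A₁.map V'.t₁).map X.i₁ := by
    rw [Connection.defect₁, hm]
    ext i j
    simp only [Matrix.mul_apply, Matrix.map_apply, map_sum, map_mul]
  refine ⟨nabMat D A (E.beta V * n + m * n - m * E.beta V') -
    w • (E.g * (E.A₂.map V.t₂ * m₂).map X.i₂ * E.g') - (m₁ * E.A₁.map V'.t₁).map X.i₁, ?_, ?_⟩
  · apply Submodule.sub_mem
    · apply Submodule.sub_mem
      · exact Submodule.subset_span (Or.inr ⟨_, rfl⟩)
      · exact Submodule.subset_span (Or.inl (Or.inr ⟨_, rfl⟩))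
    · exact Submodule.subset_span (Or.inl (Or.inl ⟨_, rfl⟩))
  · intro i j
    rw [Connection.cup, hid, ht2, ht1, add_sub_cancel_left]
    simp only [Matrix.sub_apply]
    refine Ideal.sub_mem _ (Ideal.sub_mem _ (Ideal.sub_mem _ ?_ ?_) ?_) ?_
    · exact entry_mul_mem _ _ _ hj₁m _ _
    · exact mul_entry_mem _ _ _ hj₂m _ _
    · exact mul_entry_mem _ _ _ hj₂m _ _
    · exact entry_mul_mem _ _ _ hj₁m _ _

end TwoChartCurve

end Helper12
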