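import Mathlib
import Pool.Agent.Helper12.IsoFinal

/-!
The matrices `beta`, `defect₁`, `defect₂` represent the operators which their descriptions name,
and they satisfy the cocycle condition (`Connection.cocycle`). These facts are not used elsewhere;
they are recorded as a check of the definitions.
-/

namespace Helper12.TwoChartCurve

open Polynomial Matrix

variable {R O₁ O₂ B : Type} [CommRing R] [CommRing O₁] [CommRing O₂] [CommRing B]
    [Algebra R O₁] [Algebra R O₂] [Algebra R B] {X : TwoChartCurve R O₁ O₂ B} {N : ℕ}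
    (E : X.Connection N) (V : X.VectorField)

/-- `𝒟₁` on `U₁₂`, in the frame `e₁`. -/
def Connection.lift₁ (_E : X.Connection N) (V : X.VectorField) (v : Fin N → B) : Fin N → B :=
  fun i => V.T₁ (v i)

/-- `𝒟₂` on `U₁₂`, in the frame `e₁`. -/
def Connection.lift₂ (V : X.VectorField) (v : Fin N → B) : Fin N → B :=
  E.g *ᵥ (fun i => V.T₂ ((E.g' *ᵥ v) i))

/-- `∇_(D₁)` on `U₁₂`, in the frame `e₁`. -/
def Connection.nabla (v : Fin N → B) : Fin N → B :=
  nabVec (X.D₁.restrictScalars ℤ) (E.A₁.map X.i₁) v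

theorem Connection.beta_mulVec (v : Fin N → B) :
    E.beta V *ᵥ v = E.lift₁ V v - E.lift₂ V v + V.T₂ (X.i₁ X.x₁) • E.nabla v := by
  have h' : E.g' * E.g = 1 := mul_eq_one_comm.1 E.g_mul_g'
  have h1 : E.g *ᵥ (fun i => V.T₂ ((E.g' *ᵥ v) i)) =
      - (E.g.map V.T₂ * E.g') *ᵥ v + fun i => V.T₂ (v i) := by
    rw [map_der_mulVec, map_inv V.T₂ E.g E.g' E.g_mul_g', Matrix.mulVec_add, Matrix.mulVec_mulVec,
      Matrix.mulVec_mulVec, E.g_mul_g', Matrix.one_mulVec]
    congr 1
    rw [Matrix.mul_neg, ← mul_assoc, ← mul_assoc, E.g_mul_g', one_mul, Matrix.neg_mulVec]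
  rw [Connection.lift₂, h1, Connection.beta, Matrix.add_mulVec, Matrix.smul_mulVec]
  have h2 : E.lift₁ V v = (fun i => V.T₂ (v i)) -
      V.T₂ (X.i₁ X.x₁) • (fun i => X.D₁ (v i)) := by
    funext i
    simp only [Connection.lift₁, Pi.sub_apply, Pi.smul_apply, smul_eq_mul]
    exact V.T₁_eq (v i)
  have h3 : E.nabla v = (fun i => X.D₁ (v i)) + E.A₁.map X.i₁ *ᵥ v := rfl
  rw [h2, h3, smul_add, Matrix.neg_mulVec]
  abel

end Helper12.TwoChartCurve
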