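import Mathlib
import Pool.Agent.Helper12.IsoFinal

/-!
# Self-extensions of a connection on a curve with two charts
-/

namespace Helper12

open Finset Matrix

section Blk

variable {C : Type*} [CommRing C] {N : ℕ}

/-- The matrix of size `N + N` with the block rows `(P, Q)` and `(0, S)`. -/
def blk (P Q S : Matrix (Fin N) (Fin N) C) : Matrix (Fin (N + N)) (Fin (N + N)) C :=
  Matrix.reindex finSumFinEquiv finSumFinEquiv (Matrix.fromBlocks P Q 0 S)

theorem blk_mul (P Q S P' Q' S' : Matrix (Fin N) (Fin N) C) :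
    blk P Q S * blk P' Q' S' = blk (P * P') (P * Q' + Q * S') (S * S') := by
  rw [blk, blk, blk, Matrix.reindex_apply, Matrix.reindex_apply, Matrix.reindex_apply,
    Matrix.submatrix_mul_equiv, Matrix.fromBlocks_multiply]
  simp

theorem blk_map {C' : Type*} [CommRing C'] (φ : C → C') (h0 : φ 0 = 0)
    (P Q S : Matrix (Fin N) (Fin N) C) :
    (blk P Q S).map φ = blk (P.map φ) (Q.map φ) (S.map φ) := by
  rw [blk, blk, Matrix.reindex_apply, Matrix.reindex_apply, ← Matrix.submatrix_map,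
    Matrix.fromBlocks_map, Matrix.map_zero _ h0]

theorem blk_add (P Q S P' Q' S' : Matrix (Fin N) (Fin N) C) :
    blk P Q S + blk P' Q' S' = blk (P + P') (Q + Q') (S + S') := by
  have h := Matrix.fromBlocks_add P Q 0 S P' Q' 0 S'
  rw [add_zero] at h
  rw [blk, blk, blk, ← h]
  rfl

theorem blk_smul (c : C) (P Q S : Matrix (Fin N) (Fin N) C) :
    c • blk P Q S = blk (c • P) (c • Q) (c • S) := by
  have h := Matrix.fromBlocks_smul c P Q 0 S
  rw [smul_zero] at h
  rw [blk, blk, ← h]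
  rfl

theorem blk_one : (blk 1 0 1 : Matrix (Fin (N + N)) (Fin (N + N)) C) = 1 := by
  rw [blk, Matrix.fromBlocks_one, Matrix.reindex_apply, Matrix.submatrix_one_equiv]

/-- The vector with components `u` and `v`. -/
def vec2 (u v : Fin N → C) : Fin (N + N) → C := fun i => Sum.elim u v (finSumFinEquiv.symm i)

omit [CommRing C] in
theorem vec2_inl (u v : Fin N → C) (i : Fin N) : vec2 u v (finSumFinEquiv (Sum.inl i)) = u i := by
  rw [vec2, Equiv.symm_apply_apply, Sum.elim_inl]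

omit [CommRing C] in
theorem vec2_inr (u v : Fin N → C) (i : Fin N) : vec2 u v (finSumFinEquiv (Sum.inr i)) = v i := by
  rw [vec2, Equiv.symm_apply_apply, Sum.elim_inr]

theorem blk_mulVec (P Q S : Matrix (Fin N) (Fin N) C) (u v : Fin N → C) :
    blk P Q S *ᵥ vec2 u v = vec2 (P *ᵥ u + Q *ᵥ v) (S *ᵥ v) := by
  have h1 : blk P Q S *ᵥ vec2 u v =
      (Matrix.fromBlocks P Q 0 S *ᵥ (Sum.elim u v)) ∘ finSumFinEquiv.symm := by
    rw [blk, Matrix.reindex_apply, Matrix.submatrix_mulVec_equiv]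
    congr 2
    funext i
    simp [vec2]
  rw [h1, Matrix.fromBlocks_mulVec]
  funext i
  simp [vec2]

theorem nabVec_blk (D : Derivation ℤ C C) (A a : Matrix (Fin N) (Fin N) C) (u v : Fin N → C) :
    nabVec D (blk A a A) (vec2 u v) = vec2 (nabVec D A u + a *ᵥ v) (nabVec D A v) := by
  funext i
  rw [nabVec, blk_mulVec]
  obtain ⟨j, rfl⟩ := finSumFinEquiv.surjective i
  rcases j with j | j
  · rw [vec2_inl, vec2_inl, vec2_inl, Pi.add_apply, Pi.add_apply, nabVec, add_assoc]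
  · rw [vec2_inr, vec2_inr, vec2_inr, nabVec]

theorem nabVec_blk_iterate (D : Derivation ℤ C C) (A a : Matrix (Fin N) (Fin N) C) (n : ℕ)
    (v : Fin N → C) :
    (nabVec D (blk A a A))^[n] (vec2 0 v) =
      vec2 ((∑ k ∈ range n, nabEnd D A ^ (n - 1 - k) * matEnd a * nabEnd D A ^ k) v)
        ((nabEnd D A ^ n) v) := by
  induction n with
  | zero => simp
  | succ n ih =>
    rw [Function.iterate_succ_apply', ih, nabVec_blk]
    have h1 : nabVec D A ((∑ k ∈ range n, nabEnd D A ^ (n - 1 - k) * matEnd a * nabEnd D A ^ k) v) =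
        (nabEnd D A * ∑ k ∈ range n, nabEnd D A ^ (n - 1 - k) * matEnd a * nabEnd D A ^ k) v := rfl
    have h2 : a *ᵥ ((nabEnd D A ^ n) v) = (matEnd a * nabEnd D A ^ n) v := rfl
    have h3 : nabVec D A ((nabEnd D A ^ n) v) = (nabEnd D A * nabEnd D A ^ n) v := rfl
    rw [h1, h2, h3, ← pow_succ', ← LinearMap.add_apply]
    congr 2
    rw [Finset.sum_range_succ, Finset.mul_sum]
    congr 1
    · apply Finset.sum_congr rfl
      intro k hk
      rw [mem_range] at hk
      have : n + 1 - 1 - k = (n - 1 - k) + 1 := by omega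
      rw [this, pow_succ']
      noncomm_ring
    · simp

/-- In characteristic `p`, `ad(a)^{p-1}(b)` is the sum of the `a^{p-1-k} b a^k`. -/
theorem ad_pred_sum {E : Type*} [Ring E] (p : ℕ) (hp : p.Prime) (a b : E) :
    ∃ c : E, (fun c => a * c - c * a)^[p - 1] b =
      (∑ k ∈ range p, a ^ (p - 1 - k) * b * a ^ k) + (p : E) * c := by
  have h : ∀ k ∈ range p, ∃ c : E, ((-1 : ℤ) ^ k * ((p - 1).choose k : ℤ)) •
      (a ^ (p - 1 - k) * b * a ^ k) = a ^ (p - 1 - k) * b * a ^ k + (p : E) * c := by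
    intro k hk
    obtain ⟨e, he⟩ := dvd_choose_pred p hp k (mem_range.1 hk)
    refine ⟨(e : E) * (a ^ (p - 1 - k) * b * a ^ k), ?_⟩
    have h1 : (-1 : ℤ) ^ k * ((p - 1).choose k : ℤ) = 1 + (p : ℤ) * e := by linarith
    rw [h1, add_smul, one_smul, mul_smul, zsmul_eq_mul, zsmul_eq_mul, Int.cast_natCast]
  choose! c hc using h
  refine ⟨∑ k ∈ range p, c k, ?_⟩
  rw [ad_iterate, Nat.sub_add_cancel hp.one_lt.le, Finset.mul_sum, ← Finset.sum_add_distrib]
  exact Finset.sum_congr rfl hc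

/-- If the `p`-curvature of the extension vanishes, `∇^{p-1} a ≡ 0`. -/
theorem nabMat_iterate_mem_of_blk (p : ℕ) (hp : p.Prime) (J : Ideal C) (hpJ : (p : C) ∈ J)
    (D : Derivation ℤ C C) (A a : Matrix (Fin N) (Fin N) C)
    (hψ : ∀ v i, (nabVec D (blk A a A))^[p] v i ∈ J) (i j : Fin N) :
    ((nabMat D A)^[p - 1] a) i j ∈ J := by
  obtain ⟨c, hc⟩ := ad_pred_sum p hp (nabEnd D A) (matEnd a)
  rw [matEnd_ad_iterate] at hc
  have h1 := congrFun (LinearMap.congr_fun hc (Pi.single j 1)) i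
  have h2 : (matEnd ((nabMat D A)^[p - 1] a) (Pi.single j 1) : Fin N → C) i =
      ((nabMat D A)^[p - 1] a) i j := by
    change (((nabMat D A)^[p - 1] a) *ᵥ (Pi.single j 1)) i = _
    rw [Matrix.mulVec_single_one]
    rfl
  rw [h2] at h1
  rw [h1, LinearMap.add_apply, Pi.add_apply]
  apply J.add_mem
  · have h3 := hψ (vec2 0 (Pi.single j 1)) (finSumFinEquiv (Sum.inl i))
    rw [nabVec_blk_iterate, vec2_inl] at h3
    exact h3
  · have h3 : ((p : Module.End ℤ (Fin N → C)) * c) (Pi.single j 1) i =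
        (p : C) * (c (Pi.single j 1)) i := by
      rw [Module.End.mul_apply, Module.End.natCast_apply]
      simp
    rw [h3]
    exact J.mul_mem_right _ hpJ

/-- In characteristic `p`, if `∇^{p-1} F = 0` then `F` is exact. -/
theorem exists_primitive_of_iterate (p : ℕ) (hp : p.Prime) (J : Ideal C) (hpJ : (p : C) ∈ J)
    (D : Derivation ℤ C C) (x : C) (hx : D x = 1) (A F : Matrix (Fin N) (Fin N) C)
    (hF : ∀ i j, ((nabMat D A)^[p - 1] F) i j ∈ J) :
    ∃ m, ∀ i j, (nabMat D A m - F) i j ∈ J := by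
  obtain ⟨m, hm⟩ := nabMat_primitive p hp D x hx A F (p - 1) (by have := hp.pos; omega)
  have hco : Nat.Coprime ((p - 1).factorial) p :=
    (hp.coprime_factorial_of_lt (by have := hp.pos; omega)).symm
  obtain ⟨a, b, hab⟩ : ∃ a b : ℤ, a * ((p - 1).factorial : ℤ) + b * (p : ℤ) = 1 := by
    have := Nat.isCoprime_iff_coprime.2 hco
    exact this
  refine ⟨((a : ℤ) : C) • m, ?_⟩
  intro i j
  have hDa : D ((a : ℤ) : C) = 0 := D.map_intCast _
  have h1 : ((a : ℤ) : C) * (((p - 1).factorial : ℕ) : C) = 1 - ((b : ℤ) : C) * (p : C) := by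
    have := congrArg (Int.cast : ℤ → C) hab
    push_cast at this
    linear_combination this
  rw [nabMat_smul, hDa, zero_smul, zero_add, hm, smul_add, smul_smul, h1]
  simp only [Matrix.sub_apply, Matrix.add_apply, Matrix.smul_apply, smul_eq_mul]
  have h2 := hF i j
  have h3 : (1 - ((b : ℤ) : C) * (p : C)) * F i j +
      ((a : ℤ) : C) * ((-1) ^ (p - 1 + 1) * x ^ (p - 1) * (nabMat D A)^[p - 1] F i j) -
      F i j = (p : C) * (- (((b : ℤ) : C) * F i j)) +
      (nabMat D A)^[p - 1] F i j * (((a : ℤ) : C) * ((-1) ^ (p - 1 + 1) * x ^ (p - 1))) := by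
    ring
  rw [h3]
  exact J.add_mem (J.mul_mem_right _ hpJ) (J.mul_mem_right _ h2)

end Blk

namespace TwoChartCurve

variable {R O₁ O₂ B : Type} [CommRing R] [CommRing O₁] [CommRing O₂] [CommRing B]
    [Algebra R O₁] [Algebra R O₂] [Algebra R B] {X : TwoChartCurve R O₁ O₂ B} {N : ℕ}

/-- A self-extension `0 → E → Ẽ → E → 0`, given by a 1-cocycle with values in `End E`: a form
`a₁ dx₁` on `U₁` (in the frame `e₁`), a form `a₂ dx₂` on `U₂` (in the frame `e₂`) and an
endomorphism `b` on `U₁₂` (in the frame `e₁`) with `∇ b = a₂ dx₂ - a₁ dx₁`. -/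
structure SelfExtension (E : X.Connection N) where
  a₁ : Matrix (Fin N) (Fin N) O₁
  a₂ : Matrix (Fin N) (Fin N) O₂
  b : Matrix (Fin N) (Fin N) B
  cocycle : nabMat (X.D₁.restrictScalars ℤ) (E.A₁.map X.i₁) b =
    X.D₁ (X.i₂ X.x₂) • (E.g * a₂.map X.i₂ * E.g') - a₁.map X.i₁

namespace SelfExtension

variable {E : X.Connection N}

/-- The extension `Ẽ` as a connection of rank `N + N`: `∇ = d₁ + (A₁, a₁; 0, A₁)` on `U₁`,
`∇ = d₂ + (A₂, a₂; 0, A₂)` on `U₂`, and the transition matrix is `(g, b g; 0, g)`. -/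
def total (c : SelfExtension E) : X.Connection (N + N) where
  A₁ := blk E.A₁ c.a₁ E.A₁
  A₂ := blk E.A₂ c.a₂ E.A₂
  g := blk E.g (c.b * E.g) E.g
  g' := blk E.g' (-(E.g' * c.b)) E.g'
  g_mul_g' := by
    rw [blk_mul, E.g_mul_g', ← blk_one]
    congr 1
    rw [mul_assoc, E.g_mul_g', Matrix.mul_neg, ← mul_assoc, E.g_mul_g']
    simp
  compatible := by
    have h' : E.g' * E.g = 1 := mul_eq_one_comm.1 E.g_mul_g'
    have hu : X.D₂ (X.i₁ X.x₁) * X.D₁ (X.i₂ X.x₂) = 1 := by rw [mul_comm]; exact X.w_mul_u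
    have hD₂ : ∀ M : Matrix (Fin N) (Fin N) B, M.map X.D₂ =
        X.D₂ (X.i₁ X.x₁) • M.map (X.D₁.restrictScalars ℤ) := by
      intro M
      ext i j
      simp only [Matrix.map_apply, Matrix.smul_apply, smul_eq_mul, Derivation.restrictScalars_apply]
      exact X.D₂_eq _
    have hco := c.cocycle
    rw [nabMat] at hco
    have h1 : c.a₂.map X.i₂ = X.D₂ (X.i₁ X.x₁) • (E.g' * (c.a₁.map X.i₁ +
        (c.b.map (X.D₁.restrictScalars ℤ) + E.A₁.map X.i₁ * c.b - c.b * E.A₁.map X.i₁)) * E.g) := by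
      rw [hco]
      have e1 : E.g' * (c.a₁.map X.i₁ + (X.D₁ (X.i₂ X.x₂) • (E.g * c.a₂.map X.i₂ * E.g') -
          c.a₁.map X.i₁)) * E.g = X.D₁ (X.i₂ X.x₂) • ((E.g' * E.g) * c.a₂.map X.i₂ *
            (E.g' * E.g)) := by
        rw [add_sub_cancel, Matrix.mul_smul, Matrix.smul_mul]
        congr 1
        noncomm_ring
      rw [e1, h', smul_smul, hu, one_smul, one_mul, mul_one]
    rw [blk_map _ (map_zero _), blk_map _ (map_zero _), blk_map _ (map_zero _), blk_mul, blk_mul,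
      blk_mul, blk_smul, blk_add, E.compatible, h1]
    congr 1
    rw [hD₂, hD₂, map_der_mul]
    simp only [smul_add, Matrix.mul_add, Matrix.add_mul, Matrix.mul_sub, Matrix.sub_mul,
      Matrix.mul_smul, Matrix.neg_mul, mul_assoc]
    simp only [smul_add, smul_sub, smul_neg]
    abel

/-- The coefficient of `dx₁` in the cocycle `b a₂' - a₁ b'` with values in `End E ⊗ Ω¹` on `U₁₂`,
in the frame `e₁`, which represents the cup product of two classes in `H¹_dR(C/R, End E)`. -/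
def cup (c c' : SelfExtension E) : Matrix (Fin N) (Fin N) B :=
  c.b * (X.D₁ (X.i₂ X.x₂) • (E.g * c'.a₂.map X.i₂ * E.g')) - c.a₁.map X.i₁ * c'.b

/-- The computation modulo a prime number. -/
theorem cup_mem (c c' : SelfExtension E) (p : ℕ) (hp : p.Prime) (f : R)
    (h1 : ∀ v i, (nabVec (X.d₁.restrictScalars ℤ) c.total.A₁)^[p] v i ∈
      satIdeal (algebraMap R O₁ f) p)
    (h2 : ∀ v i, (nabVec (X.d₂.restrictScalars ℤ) c'.total.A₂)^[p] v i ∈
      satIdeal (algebraMap R O₂ f) p) :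
    ∃ M ∈ E.deRhamRelations, ∀ i j, (c.cup c' - M) i j ∈ satIdeal (algebraMap R B f) p := by
  obtain ⟨m₁, hm₁⟩ := exists_primitive_of_iterate p hp _
    (natCast_mem_satIdeal (algebraMap R O₁ f) p) (X.d₁.restrictScalars ℤ) X.x₁
    (by rw [Derivation.restrictScalars_apply]; exact X.d₁_x₁) E.A₁ c.a₁
    (nabMat_iterate_mem_of_blk p hp _ (natCast_mem_satIdeal (algebraMap R O₁ f) p) _ _ _ h1)
  obtain ⟨m₂, hm₂⟩ := exists_primitive_of_iterate p hp _
    (natCast_mem_satIdeal (algebraMap R O₂ f) p) (X.d₂.restrictScalars ℤ) X.x₂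
    (by rw [Derivation.restrictScalars_apply]; exact X.d₂_x₂) E.A₂ c'.a₂
    (nabMat_iterate_mem_of_blk p hp _ (natCast_mem_satIdeal (algebraMap R O₂ f) p) _ _ _ h2)
  set D := X.D₁.restrictScalars ℤ with hD
  set w := X.D₁ (X.i₂ X.x₂) with hw
  set u := X.D₂ (X.i₁ X.x₁) with hu
  set A := E.A₁.map X.i₁ with hA
  set m := m₁.map X.i₁ with hm
  set n := E.g * m₂.map X.i₂ * E.g' with hn
  set k₁ := nabMat (X.d₁.restrictScalars ℤ) E.A₁ m₁ - c.a₁ with hk₁
  set k₂ := nabMat (X.d₂.restrictScalars ℤ) E.A₂ m₂ - c'.a₂ with hk₂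
  set j₁ := k₁.map X.i₁ with hj₁
  set j₂ := w • (E.g * k₂.map X.i₂ * E.g') with hj₂
  have hj₁m : ∀ i j, j₁ i j ∈ satIdeal (algebraMap R B f) p := by
    intro i j
    have := map_mem_satIdeal X.i₁.toRingHom (algebraMap R O₁ f) p _ (hm₁ i j)
    have h3 : X.i₁.toRingHom (algebraMap R O₁ f) = algebraMap R B f := X.i₁.commutes f
    rw [h3] at this
    exact this
  have hj₂m : ∀ i j, j₂ i j ∈ satIdeal (algebraMap R B f) p := by
    intro i j
    rw [hj₂, Matrix.smul_apply, smul_eq_mul]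
    apply Ideal.mul_mem_left
    apply entry_mul_mem
    apply mul_entry_mem
    intro i j
    have := map_mem_satIdeal X.i₂.toRingHom (algebraMap R O₂ f) p _ (hm₂ i j)
    have h3 : X.i₂.toRingHom (algebraMap R O₂ f) = algebraMap R B f := X.i₂.commutes f
    rw [h3] at this
    exact this
  have hmap1 : nabMat D A m = (nabMat (X.d₁.restrictScalars ℤ) E.A₁ m₁).map X.i₁ :=
    nabMat_map X.i₁.toRingHom (X.d₁.restrictScalars ℤ) D (fun f => X.D₁_i₁ f) E.A₁ m₁
  have hF1 : nabMat D A m = c.a₁.map X.i₁ + j₁ := by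
    rw [hmap1, hj₁, hk₁]
    ext i j
    simp only [Matrix.map_apply, Matrix.add_apply, Matrix.sub_apply, map_sub]
    ring
  have hconj := nabMat_conj D u w X.w_mul_u E.g E.g' A (E.A₂.map X.i₂) E.g_mul_g' E.compat'
    (m₂.map X.i₂)
  have hmap2 : u • (m₂.map X.i₂).map D + E.A₂.map X.i₂ * m₂.map X.i₂ -
      m₂.map X.i₂ * E.A₂.map X.i₂ = (nabMat (X.d₂.restrictScalars ℤ) E.A₂ m₂).map X.i₂ := by
    have h3 := nabMat_map X.i₂.toRingHom (X.d₂.restrictScalars ℤ) (X.D₂.restrictScalars ℤ)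
      (fun f => X.D₂_i₂ f) E.A₂ m₂
    have h4 : u • (m₂.map X.i₂).map D = (m₂.map X.i₂).map (X.D₂.restrictScalars ℤ) := by
      ext i j
      simp only [Matrix.map_apply, Matrix.smul_apply, smul_eq_mul, hD,
        Derivation.restrictScalars_apply]
      exact (X.D₂_eq _).symm
    rw [h4]
    exact h3
  rw [hmap2] at hconj
  have hF2 : nabMat D A n = w • (E.g * c'.a₂.map X.i₂ * E.g') + j₂ := by
    rw [hn, hconj, hj₂, hk₂, ← smul_add]
    congr 1
    rw [← Matrix.add_mul, ← Matrix.mul_add]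
    congr 2
    ext i j
    simp only [Matrix.map_apply, Matrix.add_apply, Matrix.sub_apply, map_sub]
    ring
  have hid := cup_identity D A c.b c'.b (c.a₁.map X.i₁) (c'.a₁.map X.i₁)
    (w • (E.g * c.a₂.map X.i₂ * E.g')) (w • (E.g * c'.a₂.map X.i₂ * E.g')) m n j₁ j₂
    c.cocycle c'.cocycle hF1 hF2
  have ht2 : w • (E.g * c.a₂.map X.i₂ * E.g') * n =
      w • (E.g * (c.a₂ * m₂).map X.i₂ * E.g') := by
    rw [hn, Matrix.smul_mul, mul_conj _ _ _ _ E.g_mul_g']
    congr 3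
    ext i j
    simp only [Matrix.mul_apply, Matrix.map_apply, map_sum, map_mul]
  have ht1 : m * c'.a₁.map X.i₁ = (m₁ * c'.a₁).map X.i₁ := by
    rw [hm]
    ext i j
    simp only [Matrix.mul_apply, Matrix.map_apply, map_sum, map_mul]
  refine ⟨nabMat D A (c.b * n + m * n - m * c'.b) -
    w • (E.g * (c.a₂ * m₂).map X.i₂ * E.g') - (m₁ * c'.a₁).map X.i₁, ?_, ?_⟩
  · apply Submodule.sub_mem
    · apply Submodule.sub_mem
      · exact Submodule.subset_span (Or.inr ⟨_, rfl⟩)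
      · exact Submodule.subset_span (Or.inl (Or.inr ⟨_, rfl⟩))
    · exact Submodule.subset_span (Or.inl (Or.inl ⟨_, rfl⟩))
  · intro i j
    rw [SelfExtension.cup, hid, ht2, ht1, add_sub_cancel_left]
    simp only [Matrix.sub_apply]
    refine Ideal.sub_mem _ (Ideal.sub_mem _ (Ideal.sub_mem _ ?_ ?_) ?_) ?_
    · exact entry_mul_mem _ _ _ hj₁m _ _
    · exact mul_entry_mem _ _ _ hj₂m _ _
    · exact mul_entry_mem _ _ _ hj₂m _ _
    · exact entry_mul_mem _ _ _ hj₁m _ _

end SelfExtension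

end TwoChartCurve

end Helper12
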