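import Mathlib

/-!
Automorphisms of the complex numbers acting by prescribed exponents on roots of unity and with
finite orbits.
-/

namespace Helper12.Sc

open Polynomial IntermediateField

/-- two algebraically closed extensions of a field with transcendence bases indexed by the same
type are isomorphic, compatibly with the bases -/
theorem exists_equiv {F K L : Type*} [Field F] [Field K] [Field L] [Algebra F K] [Algebra F L]
    [IsAlgClosed K] [IsAlgClosed L] {ι : Type*} (v : ι → K) (w : ι → L)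
    (hv : IsTranscendenceBasis F v) (hw : IsTranscendenceBasis F w) :
    ∃ e : K ≃+* L, (∀ a : F, e (algebraMap F K a) = algebraMap F L a) ∧ ∀ i, e (v i) = w i := by
  letI := IsAlgClosed.isAlgClosure_of_transcendence_basis v hv
  letI := IsAlgClosed.isAlgClosure_of_transcendence_basis w hw
  let f : Algebra.adjoin F (Set.range v) ≃ₐ[F] Algebra.adjoin F (Set.range w) :=
    hv.1.aevalEquiv.symm.trans hw.1.aevalEquiv
  refine ⟨IsAlgClosure.equivOfEquiv K L f.toRingEquiv, ?_, ?_⟩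
  · intro a
    have := IsAlgClosure.equivOfEquiv_algebraMap K L f.toRingEquiv
      (algebraMap F (Algebra.adjoin F (Set.range v)) a)
    rw [← IsScalarTower.algebraMap_apply] at this
    rw [this]
    have h2 : f.toRingEquiv (algebraMap F (Algebra.adjoin F (Set.range v)) a) =
      algebraMap F (Algebra.adjoin F (Set.range w)) a := f.commutes a
    rw [h2, ← IsScalarTower.algebraMap_apply]
  · intro i
    have h1 : algebraMap (Algebra.adjoin F (Set.range v)) K
        (hv.1.aevalEquiv (MvPolynomial.X i)) = v i := by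
      rw [AlgebraicIndependent.algebraMap_aevalEquiv, MvPolynomial.aeval_X]
    have h2 : algebraMap (Algebra.adjoin F (Set.range w)) L
        (hw.1.aevalEquiv (MvPolynomial.X i)) = w i := by
      rw [AlgebraicIndependent.algebraMap_aevalEquiv, MvPolynomial.aeval_X]
    rw [← h1, ← h2]
    have := IsAlgClosure.equivOfEquiv_algebraMap K L f.toRingEquiv
      (hv.1.aevalEquiv (MvPolynomial.X i))
    rw [this]
    congr 1
    change hw.1.aevalEquiv (hv.1.aevalEquiv.symm (hv.1.aevalEquiv (MvPolynomial.X i))) = _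
    rw [AlgEquiv.symm_apply_apply]

theorem exists_equiv' {F K : Type*} [Field F] [Field K] [Algebra F K] [IsAlgClosed K]
    {ι : Type*} (v : ι → K) (hv : IsTranscendenceBasis F v) (ψ : F →+* K)
    (hw : @IsTranscendenceBasis ι F K _ _ ψ.toAlgebra v) :
    ∃ e : K ≃+* K, (∀ a : F, e (algebraMap F K a) = ψ a) ∧ ∀ i, e (v i) = v i :=
  @exists_equiv F K K _ _ _ _ ψ.toAlgebra _ _ ι v v hv hw

theorem twisted_basis {Q F K : Type*} [Field Q] [Field F] [Field K] [Algebra Q F] [Algebra Q K]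
    [Algebra.IsAlgebraic Q F] {ι : Type*} (x : ι → K) (hx : IsTranscendenceBasis Q x)
    (ψ : F →ₐ[Q] K) : @IsTranscendenceBasis ι F K _ _ ψ.toRingHom.toAlgebra x := by
  letI : Algebra F K := ψ.toRingHom.toAlgebra
  haveI : IsScalarTower Q F K := IsScalarTower.of_algebraMap_eq (fun q => (ψ.commutes q).symm)
  exact (Algebra.IsAlgebraic.isTranscendenceBasis_iff (R := Q) (S := F) (A := K)).1 hx

/-- an automorphism of `ℂ` fixing a transcendence basis and raising `N`-th roots of unity to the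
power `s` -/
theorem exists_aut {ι : Type} (x : ι → ℂ) (hx : IsTranscendenceBasis ℚ x) (N : ℕ) (hN : 0 < N)
    (s : ℕ) (hs : s.Coprime N) :
    ∃ e : ℂ ≃+* ℂ, (∀ i, e (x i) = x i) ∧ ∀ ζ : ℂ, ζ ^ N = 1 → e ζ = ζ ^ s := by
  have hN' : NeZero N := ⟨hN.ne'⟩
  let μ : ℂ := Complex.exp (2 * Real.pi * Complex.I / N)
  have hμ : IsPrimitiveRoot μ N := Complex.isPrimitiveRoot_exp N hN.ne'
  have hμs : IsPrimitiveRoot (μ ^ s) N := hμ.pow_of_coprime s hs
  have hint : IsIntegral ℚ μ := by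
    refine ⟨X ^ N - 1, ?_, ?_⟩
    · exact monic_X_pow_sub_C (1 : ℚ) hN.ne'
    · simp [hμ.pow_eq_one]
  have hmin : minpoly ℚ μ = minpoly ℚ (μ ^ s) := by
    rw [← cyclotomic_eq_minpoly_rat hμ hN, ← cyclotomic_eq_minpoly_rat hμs hN]
  have hroot : μ ^ s ∈ (minpoly ℚ μ).aroots ℂ := by
    rw [mem_aroots]
    refine ⟨minpoly.ne_zero hint, ?_⟩
    rw [hmin]
    exact minpoly.aeval ℚ _
  let ψ : ℚ⟮μ⟯ →ₐ[ℚ] ℂ := (algHomAdjoinIntegralEquiv ℚ hint).symm ⟨μ ^ s, hroot⟩
  have hψ : ψ (AdjoinSimple.gen ℚ μ) = μ ^ s :=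
    algHomAdjoinIntegralEquiv_symm_apply_gen ℚ hint ⟨μ ^ s, hroot⟩
  have halg : Algebra.IsAlgebraic ℚ ℚ⟮μ⟯ := by
    have : FiniteDimensional ℚ ℚ⟮μ⟯ := adjoin.finiteDimensional hint
    infer_instance
  have hv : IsTranscendenceBasis ℚ⟮μ⟯ x :=
    (Algebra.IsAlgebraic.isTranscendenceBasis_iff (R := ℚ) (S := ℚ⟮μ⟯) (A := ℂ)).1 hx
  have hw : @IsTranscendenceBasis ι ℚ⟮μ⟯ ℂ _ _ ψ.toRingHom.toAlgebra x := twisted_basis x hx ψ
  obtain ⟨e, he1, he2⟩ := exists_equiv' x hv ψ.toRingHom hw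
  refine ⟨e, he2, ?_⟩
  intro ζ hζ
  obtain ⟨k, -, rfl⟩ := hμ.eq_pow_of_pow_eq_one hζ
  have h1 : e μ = μ ^ s := by
    have := he1 (AdjoinSimple.gen ℚ μ)
    have h3 : (algebraMap ℚ⟮μ⟯ ℂ) (AdjoinSimple.gen ℚ μ) = μ := AdjoinSimple.algebraMap_gen ℚ μ
    rw [h3] at this
    rw [this]
    exact hψ
  rw [map_pow, h1]
  ring

theorem exists_exponents (N : ℕ) (hN : 0 < N) :
    ∃ s : ℕ, s.Coprime N ∧ (s + 4).Coprime N := by
  obtain ⟨e, M, hM, rfl⟩ := Nat.exists_eq_two_pow_mul_odd hN.ne'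
  have hM1 : 1 ≤ M := hM.pos
  have key : ∀ t : ℕ, Odd t → (∀ p : ℕ, p.Prime → p ∣ t → p ∣ M → p ∣ 2) →
      t.Coprime (2 ^ e * M) := by
    intro t ht h
    apply Nat.Coprime.mul_right
    · exact Nat.Coprime.pow_right _ ht.coprime_two_right
    · apply Nat.Coprime.symm
      apply Nat.coprime_of_dvd
      intro p hp h1 h2
      have h3 := h p hp h2 h1
      have h4 : p = 2 := (Nat.prime_dvd_prime_iff_eq hp Nat.prime_two).1 h3
      subst h4
      exact (Nat.not_even_iff_odd.2 hM) (even_iff_two_dvd.2 h1)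
  refine ⟨3 * M - 2, key _ ?_ ?_, ?_⟩
  · obtain ⟨k, hk⟩ := hM
    exact ⟨3 * k, by omega⟩
  · intro p hp h1 h2
    have h3 : p ∣ 3 * M := Dvd.dvd.mul_left h2 3
    have h4 : 3 * M - (3 * M - 2) = 2 := by omega
    rw [← h4]
    exact Nat.dvd_sub h3 h1
  · have h5 : 3 * M - 2 + 4 = 3 * M + 2 := by omega
    rw [h5]
    apply key
    · obtain ⟨k, hk⟩ := hM
      exact ⟨3 * k + 2, by omega⟩
    · intro p hp h1 h2
      have h3 : p ∣ 3 * M := Dvd.dvd.mul_left h2 3
      exact (Nat.dvd_add_right h3).1 h1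

theorem exists_auts (N : ℕ) (hN : 0 < N) :
    ∃ σ σ' : RingAut ℂ, (∀ ζ : ℂ, ζ ^ N = 1 → σ' ζ = σ ζ * ζ ^ 4) ∧
      ∀ z : ℂ, {w | ∃ τ ∈ Subgroup.closure ({σ, σ'} : Set (RingAut ℂ)), w = τ z}.Finite := by
  obtain ⟨ι, x, hx⟩ := exists_isTranscendenceBasis' ℚ ℂ
  obtain ⟨s, hs, hs'⟩ := exists_exponents N hN
  obtain ⟨σ, h1, h2⟩ := exists_aut x hx N hN s hs
  obtain ⟨σ', h1', h2'⟩ := exists_aut x hx N hN (s + 4) hs'
  refine ⟨σ, σ', ?_, ?_⟩
  · intro ζ hζ
    rw [h2 ζ hζ, h2' ζ hζ, pow_add]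
  · intro z
    have hfix : ∀ τ ∈ Subgroup.closure ({σ, σ'} : Set (RingAut ℂ)), ∀ i, τ (x i) = x i := by
      intro τ hτ
      induction hτ using Subgroup.closure_induction with
      | mem y hy =>
        rcases hy with rfl | hy
        · exact h1
        · rw [Set.mem_singleton_iff] at hy
          subst hy
          exact h1'
      | one => intro i; rfl
      | mul a b _ _ ha hb =>
        intro i
        change a (b (x i)) = x i
        rw [hb i, ha i]
      | inv a _ ha =>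
        intro i
        have := ha i
        change a.symm (x i) = x i
        rw [RingEquiv.symm_apply_eq]
        exact this.symm
    have halg : Algebra.IsAlgebraic (Algebra.adjoin ℚ (Set.range x)) ℂ := hx.isAlgebraic
    obtain ⟨p, hp0, hpz⟩ := halg.1 z
    have hfix2 : ∀ τ ∈ Subgroup.closure ({σ, σ'} : Set (RingAut ℂ)),
        ∀ a : Algebra.adjoin ℚ (Set.range x), τ (a : ℂ) = a := by
      intro τ hτ ⟨a, ha⟩
      change τ a = a
      induction ha using Algebra.adjoin_induction with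
      | mem y hy =>
        obtain ⟨i, rfl⟩ := hy
        exact hfix τ hτ i
      | algebraMap q => simp
      | add a b _ _ ha hb => rw [map_add, ha, hb]
      | mul a b _ _ ha hb => rw [map_mul, ha, hb]
    have hp0' : p.map (algebraMap (Algebra.adjoin ℚ (Set.range x)) ℂ) ≠ 0 := by
      intro h
      apply hp0
      exact (Polynomial.map_eq_zero_iff (Subtype.val_injective)).1 h
    refine Set.Finite.subset (Multiset.finite_toSet
      (p.map (algebraMap (Algebra.adjoin ℚ (Set.range x)) ℂ)).roots) ?_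
    rintro w ⟨τ, hτ, rfl⟩
    change τ z ∈ (p.map (algebraMap (Algebra.adjoin ℚ (Set.range x)) ℂ)).roots
    rw [mem_roots hp0', IsRoot.def, eval_map]
    have h3 : eval₂ (algebraMap (Algebra.adjoin ℚ (Set.range x)) ℂ) z p = 0 := hpz
    have h4 := congrArg τ h3
    rw [map_zero, ← RingEquiv.coe_toRingHom, Polynomial.hom_eval₂] at h4
    have h5 : (τ : ℂ →+* ℂ).comp (algebraMap (Algebra.adjoin ℚ (Set.range x)) ℂ) =
        algebraMap (Algebra.adjoin ℚ (Set.range x)) ℂ := by
      ext a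
      exact hfix2 τ hτ a
    rw [h5] at h4
    exact h4

end Helper12.Sc
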