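import Mathlib

/-!
Lists of pairs in a group and the elementary moves coming from the mapping classes of a surface
with one boundary component. A list of pairs of length g is a system of images of the standard
generators a_1, b_1, ..., a_g, b_g.
-/

namespace Helper12.Sc

/-- product of the commutators of a list of pairs -/
def comm {Γ : Type*} [Group Γ] (L : List (Γ × Γ)) : Γ :=
  (L.map fun p => p.1 * p.2 * p.1⁻¹ * p.2⁻¹).prod

/-- the set of all entries of a list of pairs -/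
def entries {Γ : Type*} (L : List (Γ × Γ)) : Set Γ := {z | ∃ p ∈ L, z = p.1 ∨ z = p.2}

/-- elementary moves on lists of pairs, together with their inverses -/
inductive Step {Γ : Type*} [Group Γ] : List (Γ × Γ) → List (Γ × Γ) → Prop
  | tw (l₁ l₂ : List (Γ × Γ)) (x y : Γ) :
      Step (l₁ ++ (x, y) :: l₂) (l₁ ++ (x, y * x) :: l₂)
  | tw' (l₁ l₂ : List (Γ × Γ)) (x y : Γ) :
      Step (l₁ ++ (x, y) :: l₂) (l₁ ++ (x, y * x⁻¹) :: l₂)
  | rot (l₁ l₂ : List (Γ × Γ)) (x y : Γ) :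
      Step (l₁ ++ (x, y) :: l₂) (l₁ ++ (y⁻¹, y * x * y⁻¹) :: l₂)
  | rot' (l₁ l₂ : List (Γ × Γ)) (x y : Γ) :
      Step (l₁ ++ (x, y) :: l₂) (l₁ ++ (x * y * x⁻¹, x⁻¹) :: l₂)
  | sl (l₁ l₂ : List (Γ × Γ)) (a b c d : Γ) :
      Step (l₁ ++ (a, b) :: (c, d) :: l₂)
        (l₁ ++ (a, b * a⁻¹ * b⁻¹ * c * d * c⁻¹ * b) :: (b * a⁻¹ * b⁻¹ * c, d) :: l₂)
  | sl' (l₁ l₂ : List (Γ × Γ)) (a b c d : Γ) :
      Step (l₁ ++ (a, b) :: (c, d) :: l₂)
        (l₁ ++ (a, c * d⁻¹ * c⁻¹ * b * a) :: (c * d⁻¹ * c⁻¹ * b * a * b⁻¹ * c * d, d) :: l₂)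
  | br (l₁ l₂ : List (Γ × Γ)) (a b c d : Γ) :
      Step (l₁ ++ (a, b) :: (c, d) :: l₂)
        (l₁ ++ (a * b * a⁻¹ * b⁻¹ * c * (a * b * a⁻¹ * b⁻¹)⁻¹,
          a * b * a⁻¹ * b⁻¹ * d * (a * b * a⁻¹ * b⁻¹)⁻¹) :: (a, b) :: l₂)
  | br' (l₁ l₂ : List (Γ × Γ)) (a b c d : Γ) :
      Step (l₁ ++ (a, b) :: (c, d) :: l₂)
        (l₁ ++ (c, d) :: ((c * d * c⁻¹ * d⁻¹)⁻¹ * a * (c * d * c⁻¹ * d⁻¹),
          (c * d * c⁻¹ * d⁻¹)⁻¹ * b * (c * d * c⁻¹ * d⁻¹)) :: l₂)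

/-- a list can be reached from another one by elementary moves -/
def Reach {Γ : Type*} [Group Γ] (L L' : List (Γ × Γ)) : Prop := Relation.ReflTransGen Step L L'

theorem Step.context {Γ : Type*} [Group Γ] {C C' : List (Γ × Γ)} (h : Step C C')
    (l₁ l₂ : List (Γ × Γ)) : Step (l₁ ++ C ++ l₂) (l₁ ++ C' ++ l₂) := by
  cases h with
  | tw u v x y => simpa using Step.tw (l₁ ++ u) (v ++ l₂) x y
  | tw' u v x y => simpa using Step.tw' (l₁ ++ u) (v ++ l₂) x y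
  | rot u v x y => simpa using Step.rot (l₁ ++ u) (v ++ l₂) x y
  | rot' u v x y => simpa using Step.rot' (l₁ ++ u) (v ++ l₂) x y
  | sl u v a b c d => simpa using Step.sl (l₁ ++ u) (v ++ l₂) a b c d
  | sl' u v a b c d => simpa using Step.sl' (l₁ ++ u) (v ++ l₂) a b c d
  | br u v a b c d => simpa using Step.br (l₁ ++ u) (v ++ l₂) a b c d
  | br' u v a b c d => simpa using Step.br' (l₁ ++ u) (v ++ l₂) a b c d

theorem Reach.refl {Γ : Type*} [Group Γ] (L : List (Γ × Γ)) : Reach L L :=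
  Relation.ReflTransGen.refl

theorem Reach.trans {Γ : Type*} [Group Γ] {L L' L'' : List (Γ × Γ)} (h : Reach L L')
    (h' : Reach L' L'') : Reach L L'' := Relation.ReflTransGen.trans h h'

theorem Reach.context {Γ : Type*} [Group Γ] {C C' : List (Γ × Γ)} (h : Reach C C')
    (l₁ l₂ : List (Γ × Γ)) : Reach (l₁ ++ C ++ l₂) (l₁ ++ C' ++ l₂) := by
  induction h with
  | refl => exact Reach.refl _
  | tail _ hs ih => exact Relation.ReflTransGen.tail ih (hs.context l₁ l₂)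

theorem Reach.of_step {Γ : Type*} [Group Γ] {L L' : List (Γ × Γ)} (h : Step L L') : Reach L L' :=
  Relation.ReflTransGen.single h

theorem Step.comm_eq {Γ : Type*} [Group Γ] {L L' : List (Γ × Γ)} (h : Step L L') :
    comm L' = comm L := by
  cases h <;> simp only [comm, List.map_append, List.map_cons, List.prod_append, List.prod_cons] <;>
    group

theorem Step.length_eq {Γ : Type*} [Group Γ] {L L' : List (Γ × Γ)} (h : Step L L') :
    L'.length = L.length := by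
  cases h <;> simp

theorem Step.symm {Γ : Type*} [Group Γ] {L L' : List (Γ × Γ)} (h : Step L L') : Step L' L := by
  cases h with
  | tw u v x y => simpa using Step.tw' u v x (y * x)
  | tw' u v x y => simpa using Step.tw u v x (y * x⁻¹)
  | rot u v x y =>
      have := Step.rot' u v (y⁻¹) (y * x * y⁻¹)
      have e : y⁻¹ * (y * x * y⁻¹) * y⁻¹⁻¹ = x := by group
      rw [e, inv_inv] at this
      exact this
  | rot' u v x y =>
      have := Step.rot u v (x * y * x⁻¹) (x⁻¹)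
      have e : x⁻¹ * (x * y * x⁻¹) * x⁻¹⁻¹ = y := by group
      rw [e, inv_inv] at this
      exact this
  | sl u v a b c d =>
      have := Step.sl' u v a (b * a⁻¹ * b⁻¹ * c * d * c⁻¹ * b) (b * a⁻¹ * b⁻¹ * c) d
      have e1 : b * a⁻¹ * b⁻¹ * c * d⁻¹ * (b * a⁻¹ * b⁻¹ * c)⁻¹ *
        (b * a⁻¹ * b⁻¹ * c * d * c⁻¹ * b) * a = b := by group
      have e2 : b * a⁻¹ * b⁻¹ * c * d⁻¹ * (b * a⁻¹ * b⁻¹ * c)⁻¹ *
        (b * a⁻¹ * b⁻¹ * c * d * c⁻¹ * b) * a * (b * a⁻¹ * b⁻¹ * c * d * c⁻¹ * b)⁻¹ *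
        (b * a⁻¹ * b⁻¹ * c) * d = c := by group
      rw [e1] at this
      rw [e1] at e2
      rw [e2] at this
      exact this
  | sl' u v a b c d =>
      have := Step.sl u v a (c * d⁻¹ * c⁻¹ * b * a) (c * d⁻¹ * c⁻¹ * b * a * b⁻¹ * c * d) d
      have e1 : c * d⁻¹ * c⁻¹ * b * a * a⁻¹ * (c * d⁻¹ * c⁻¹ * b * a)⁻¹ *
        (c * d⁻¹ * c⁻¹ * b * a * b⁻¹ * c * d) * d * (c * d⁻¹ * c⁻¹ * b * a * b⁻¹ * c * d)⁻¹ *
        (c * d⁻¹ * c⁻¹ * b * a) = b := by group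
      have e2 : c * d⁻¹ * c⁻¹ * b * a * a⁻¹ * (c * d⁻¹ * c⁻¹ * b * a)⁻¹ *
        (c * d⁻¹ * c⁻¹ * b * a * b⁻¹ * c * d) = c := by group
      rw [e1, e2] at this
      exact this
  | br u v a b c d =>
      have := Step.br' u v (a * b * a⁻¹ * b⁻¹ * c * (a * b * a⁻¹ * b⁻¹)⁻¹)
        (a * b * a⁻¹ * b⁻¹ * d * (a * b * a⁻¹ * b⁻¹)⁻¹) a b
      have e1 : (a * b * a⁻¹ * b⁻¹)⁻¹ * (a * b * a⁻¹ * b⁻¹ * c * (a * b * a⁻¹ * b⁻¹)⁻¹) *
        (a * b * a⁻¹ * b⁻¹) = c := by group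
      have e2 : (a * b * a⁻¹ * b⁻¹)⁻¹ * (a * b * a⁻¹ * b⁻¹ * d * (a * b * a⁻¹ * b⁻¹)⁻¹) *
        (a * b * a⁻¹ * b⁻¹) = d := by group
      rw [e1, e2] at this
      exact this
  | br' u v a b c d =>
      have := Step.br u v c d ((c * d * c⁻¹ * d⁻¹)⁻¹ * a * (c * d * c⁻¹ * d⁻¹))
        ((c * d * c⁻¹ * d⁻¹)⁻¹ * b * (c * d * c⁻¹ * d⁻¹))
      have e1 : c * d * c⁻¹ * d⁻¹ * ((c * d * c⁻¹ * d⁻¹)⁻¹ * a * (c * d * c⁻¹ * d⁻¹)) *
        (c * d * c⁻¹ * d⁻¹)⁻¹ = a := by group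
      have e2 : c * d * c⁻¹ * d⁻¹ * ((c * d * c⁻¹ * d⁻¹)⁻¹ * b * (c * d * c⁻¹ * d⁻¹)) *
        (c * d * c⁻¹ * d⁻¹)⁻¹ = b := by group
      rw [e1, e2] at this
      exact this

theorem Reach.symm {Γ : Type*} [Group Γ] {L L' : List (Γ × Γ)} (h : Reach L L') : Reach L' L := by
  induction h with
  | refl => exact Reach.refl _
  | tail _ hs ih => exact Relation.ReflTransGen.head hs.symm ih

end Helper12.Sc
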