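import Pool.Agent.Helper12.ScFin
import Pool.Agent.Helper12.ScChain

/-!
The escape theorem: if sufficiently many finite sets of matrices have all their ordered products
of finite order, then one of them generates a group whose eigenvalues are roots of unity.
-/

namespace Helper12.Sc

open Polynomial Matrix Pointwise Module

variable {r : ℕ}

/-- the coordinate functions of `g`, `σ g`, `σ' g` -/
def coord (σ σ' : RingAut ℂ) (k : Fin 3 × Fin r × Fin r) (g : GL (Fin r) ℂ) : ℂ :=
  if k.1 = 0 then (g : Matrix (Fin r) (Fin r) ℂ) k.2.1 k.2.2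
  else if k.1 = 1 then σ ((g : Matrix (Fin r) (Fin r) ℂ) k.2.1 k.2.2)
  else σ' ((g : Matrix (Fin r) (Fin r) ℂ) k.2.1 k.2.2)

theorem coord_zero (σ σ' : RingAut ℂ) (i j : Fin r) (g : GL (Fin r) ℂ) :
    coord σ σ' (0, i, j) g = (g : Matrix (Fin r) (Fin r) ℂ) i j := by
  simp [coord]

theorem coord_one (σ σ' : RingAut ℂ) (i j : Fin r) (g : GL (Fin r) ℂ) :
    coord σ σ' (1, i, j) g = σ ((g : Matrix (Fin r) (Fin r) ℂ) i j) := by
  simp [coord]

theorem coord_two (σ σ' : RingAut ℂ) (i j : Fin r) (g : GL (Fin r) ℂ) :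
    coord σ σ' (2, i, j) g = σ' ((g : Matrix (Fin r) (Fin r) ℂ) i j) := by
  simp [coord]

/-- generic matrices -/
noncomputable def gen (r : ℕ) (k : Fin 3) :
    Matrix (Fin r) (Fin r) (MvPolynomial (Fin 3 × Fin r × Fin r) ℂ) :=
  fun i j => MvPolynomial.X (k, i, j)

noncomputable def univ (r : ℕ) :
    Matrix (Fin r) (Fin r) (MvPolynomial (Fin 3 × Fin r × Fin r) ℂ) :=
  Emat (gen r 0) (gen r 1) (gen r 2)

noncomputable def deg (r : ℕ) : ℕ :=
  Finset.univ.sup fun p : Fin r × Fin r => (univ r p.1 p.2).totalDegree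

theorem totalDegree_univ_le (i j : Fin r) : (univ r i j).totalDegree ≤ deg r :=
  Finset.le_sup (f := fun p : Fin r × Fin r => (univ r p.1 p.2).totalDegree)
    (Finset.mem_univ (i, j))

theorem aeval_univ (σ σ' : RingAut ℂ) (i j : Fin r) (g : GL (Fin r) ℂ) :
    MvPolynomial.aeval (coord σ σ') (univ r i j) g =
      Emat (g : Matrix (Fin r) (Fin r) ℂ) ((g : Matrix (Fin r) (Fin r) ℂ).map σ)
        ((g : Matrix (Fin r) (Fin r) ℂ).map σ') i j := by
  let f : MvPolynomial (Fin 3 × Fin r × Fin r) ℂ →+* ℂ :=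
    (Pi.evalRingHom (fun _ : GL (Fin r) ℂ => ℂ) g).comp
      (MvPolynomial.aeval (coord (r := r) σ σ')).toRingHom
  have hf : ∀ k, f (MvPolynomial.X k) = coord σ σ' k g := by
    intro k
    change (MvPolynomial.aeval (coord (r := r) σ σ')) (MvPolynomial.X k) g = _
    rw [MvPolynomial.aeval_X]
  have h0 : (gen r 0).map f = (g : Matrix (Fin r) (Fin r) ℂ) := by
    ext i j
    rw [Matrix.map_apply, gen, hf, coord_zero]
  have h1 : (gen r 1).map f = (g : Matrix (Fin r) (Fin r) ℂ).map σ := by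
    ext i j
    rw [Matrix.map_apply, gen, hf, coord_one, Matrix.map_apply]
  have h2 : (gen r 2).map f = (g : Matrix (Fin r) (Fin r) ℂ).map σ' := by
    ext i j
    rw [Matrix.map_apply, gen, hf, coord_two, Matrix.map_apply]
  have h3 := Emat_map f (gen r 0) (gen r 1) (gen r 2)
  rw [h0, h1, h2] at h3
  rw [h3, Matrix.map_apply]
  rfl

theorem rtr_coord (σ σ' : RingAut ℂ) (y : GL (Fin r) ℂ) (k : Fin 3 × Fin r × Fin r) :
    rtr y (coord σ σ' k) ∈ Submodule.span ℂ (insert 1 (Set.range (coord (r := r) σ σ'))) := by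
  obtain ⟨k, i, j⟩ := k
  have hmem : ∀ k', coord σ σ' k' ∈
      Submodule.span ℂ (insert 1 (Set.range (coord (r := r) σ σ'))) := fun k' =>
    Submodule.subset_span (Set.mem_insert_of_mem _ ⟨k', rfl⟩)
  have h3 : k = 0 ∨ k = 1 ∨ k = 2 := by fin_cases k <;> simp
  rcases h3 with rfl | rfl | rfl
  · have : rtr y (coord σ σ' (0, i, j)) =
        ∑ l, (y : Matrix (Fin r) (Fin r) ℂ) l j • coord σ σ' (0, i, l) := by
      funext g
      rw [rtr_apply, coord_zero, Finset.sum_apply, Units.val_mul, Matrix.mul_apply]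
      refine Finset.sum_congr rfl fun l _ => ?_
      rw [Pi.smul_apply, coord_zero, smul_eq_mul, mul_comm]
    rw [this]
    exact Submodule.sum_mem _ fun l _ => Submodule.smul_mem _ _ (hmem _)
  · have : rtr y (coord σ σ' (1, i, j)) =
        ∑ l, σ ((y : Matrix (Fin r) (Fin r) ℂ) l j) • coord σ σ' (1, i, l) := by
      funext g
      rw [rtr_apply, coord_one, Finset.sum_apply, Units.val_mul, Matrix.mul_apply, map_sum]
      refine Finset.sum_congr rfl fun l _ => ?_
      rw [Pi.smul_apply, coord_one, smul_eq_mul, mul_comm, map_mul, mul_comm]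
    rw [this]
    exact Submodule.sum_mem _ fun l _ => Submodule.smul_mem _ _ (hmem _)
  · have : rtr y (coord σ σ' (2, i, j)) =
        ∑ l, σ' ((y : Matrix (Fin r) (Fin r) ℂ) l j) • coord σ σ' (2, i, l) := by
      funext g
      rw [rtr_apply, coord_two, Finset.sum_apply, Units.val_mul, Matrix.mul_apply, map_sum]
      refine Finset.sum_congr rfl fun l _ => ?_
      rw [Pi.smul_apply, coord_two, smul_eq_mul, mul_comm, map_mul, mul_comm]
    rw [this]
    exact Submodule.sum_mem _ fun l _ => Submodule.smul_mem _ _ (hmem _)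

theorem prods_finite {G : Type*} [Group G] (Ys : List (Set G)) (h : ∀ Y ∈ Ys, Y.Finite) :
    (prods Ys).Finite := by
  induction Ys with
  | nil => exact Set.finite_singleton 1
  | cons Y Ys ih =>
    have h1 : prods (Y :: Ys) = insert 1 Y * prods Ys := by
      unfold prods
      rw [List.map_cons, List.prod_cons]
    rw [h1]
    exact ((h Y (by simp)).insert 1).mul (ih fun Z hZ => h Z (by simp [hZ]))

theorem escape (r : ℕ) : ∃ m : ℕ, ∀ Ys : List (Set (GL (Fin r) ℂ)), m ≤ Ys.length →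
    (∀ Y ∈ Ys, Y.Finite) → (∀ g ∈ prods Ys, IsOfFinOrder g) →
    ∃ Y ∈ Ys, ∀ g ∈ Subgroup.closure Y, ∀ z : ℂ,
      (g : Matrix (Fin r) (Fin r) ℂ).charpoly.IsRoot z → ∃ n > 0, z ^ n = 1 := by
  refine ⟨(Fintype.card (Fin 3 × Fin r × Fin r) + 1) ^ (deg r) + 1, ?_⟩
  intro Ys hlen hfin hord
  have hP := prods_finite Ys hfin
  obtain ⟨N, hN, hN'⟩ : ∃ N > 0, ∀ g ∈ prods Ys, g ^ N = 1 := by
    refine ⟨∏ g ∈ hP.toFinset, orderOf g, ?_, ?_⟩
    · apply Finset.prod_pos
      intro g hg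
      exact (hord g (hP.mem_toFinset.1 hg)).orderOf_pos
    · intro g hg
      exact orderOf_dvd_iff_pow_eq_one.1 (Finset.dvd_prod_of_mem _ (hP.mem_toFinset.2 hg))
  obtain ⟨σ, σ', hσ, horb⟩ := exists_auts N hN
  have hfd := finite_space (G := GL (Fin r) ℂ) (coord (r := r) σ σ') (deg r)
  have hrank := finrank_space_le (G := GL (Fin r) ℂ) (coord (r := r) σ σ') (deg r)
  obtain ⟨Y, hY, hprop⟩ := propagate (space (coord (r := r) σ σ') (deg r))
    (fun y F hF => rtr_mem_space _ y (rtr_coord σ σ' y) _ F hF) Ys (by omega)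
  refine ⟨Y, hY, ?_⟩
  intro g hg z hz
  apply root_of_unity_of_Emat σ σ' horb (g : Matrix (Fin r) (Fin r) ℂ) ?_ ?_ z hz
  · have : IsUnit (g : Matrix (Fin r) (Fin r) ℂ) := g.isUnit
    exact ((Matrix.isUnit_iff_isUnit_det _).1 this).ne_zero
  · ext i j
    rw [← aeval_univ σ σ' i j g, Matrix.zero_apply]
    apply hprop _ _ g hg
    refine ⟨aeval_mem_space _ _ _ (totalDegree_univ_le i j), ?_⟩
    intro p hp
    rw [aeval_univ]
    have h1 : (p : Matrix (Fin r) (Fin r) ℂ) ^ N = 1 := by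
      have := congrArg Units.val (hN' p hp)
      rw [Units.val_pow_eq_pow_val, Units.val_one] at this
      exact this
    rw [Emat_of_pow σ σ' N hN hσ _ h1, Matrix.zero_apply]

end Helper12.Sc
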