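import Pool.Agent.Helper12.ScDefs
import Pool.Agent.Helper12.ScChain

/-!
Calculus of lists of pairs: extraction of handles, merging, and the slot argument.
-/

namespace Helper12.Sc

open Pointwise

variable {Γ : Type*} [Group Γ]

/-- `Q` can be obtained from `B` as the end of a reachable list -/
def Ext (B Q : List (Γ × Γ)) : Prop := ∃ junk, Reach B (junk ++ Q)

theorem Ext.of_reach {B Q : List (Γ × Γ)} (h : Reach B Q) : Ext B Q := ⟨[], h⟩

theorem Ext.refl (B : List (Γ × Γ)) : Ext B B := Ext.of_reach (Reach.refl B)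

theorem Ext.trans {B Q R : List (Γ × Γ)} (h1 : Ext B Q) (h2 : Ext Q R) : Ext B R := by
  obtain ⟨j1, h1⟩ := h1
  obtain ⟨j2, h2⟩ := h2
  refine ⟨j1 ++ j2, h1.trans ?_⟩
  have := h2.context j1 []
  simpa using this

theorem Ext.drop_left (Q1 Q2 : List (Γ × Γ)) : Ext (Q1 ++ Q2) Q2 := ⟨Q1, Reach.refl _⟩

theorem move_one (p : Γ × Γ) (U : List (Γ × Γ)) : ∃ U', Reach (p :: U) (U' ++ [p]) := by
  induction U with
  | nil => exact ⟨[], Reach.refl _⟩
  | cons q U ih =>
    obtain ⟨U', hU'⟩ := ih
    obtain ⟨a, b⟩ := p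
    obtain ⟨c, d⟩ := q
    refine ⟨(a * b * a⁻¹ * b⁻¹ * c * (a * b * a⁻¹ * b⁻¹)⁻¹,
      a * b * a⁻¹ * b⁻¹ * d * (a * b * a⁻¹ * b⁻¹)⁻¹) :: U', ?_⟩
    have h1 := Reach.of_step (Step.br [] U a b c d)
    have h2 := hU'.context [(a * b * a⁻¹ * b⁻¹ * c * (a * b * a⁻¹ * b⁻¹)⁻¹,
      a * b * a⁻¹ * b⁻¹ * d * (a * b * a⁻¹ * b⁻¹)⁻¹)] []
    simp only [List.nil_append, List.append_nil, List.cons_append] at h1 h2
    simpa using h1.trans h2

theorem move_right (Q U : List (Γ × Γ)) : ∃ U', Reach (Q ++ U) (U' ++ Q) := by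
  induction Q generalizing U with
  | nil => exact ⟨U, by simpa using Reach.refl U⟩
  | cons p Q ih =>
    obtain ⟨U', hU'⟩ := ih U
    obtain ⟨U'', hU''⟩ := move_one p U'
    refine ⟨U'', ?_⟩
    have h1 := hU'.context [p] []
    have h2 := hU''.context [] Q
    simp only [List.nil_append, List.append_nil, List.cons_append] at h1 h2
    have h3 := h1.trans h2
    simpa using h3

theorem Ext.drop_right (Q1 Q2 : List (Γ × Γ)) : Ext (Q1 ++ Q2) Q1 := move_right Q1 Q2

theorem Ext.append {B1 Q1 B2 Q2 : List (Γ × Γ)} (h1 : Ext B1 Q1) (h2 : Ext B2 Q2) :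
    Ext (B1 ++ B2) (Q1 ++ Q2) := by
  obtain ⟨j1, h1⟩ := h1
  obtain ⟨j2, h2⟩ := h2
  obtain ⟨j3, h3⟩ := move_right Q1 j2
  refine ⟨j1 ++ j3, ?_⟩
  have e1 := h1.context [] B2
  have e2 := h2.context (j1 ++ Q1) []
  have e3 := h3.context j1 Q2
  simp only [List.nil_append, List.append_nil, List.append_assoc] at e1 e2 e3 ⊢
  exact (e1.trans e2).trans e3

theorem Ext.rot (c d : Γ) : Ext [(c, d)] [(d⁻¹, d * c * d⁻¹)] :=
  Ext.of_reach (by simpa using Reach.of_step (Step.rot [] [] c d))

/-- merging two handles -/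
theorem Ext.merge (a b c d : Γ) : Ext [(a, b), (c, d)] [(a * c, d)] := by
  have h1 := Reach.of_step (Step.rot' [] [(c, d)] a b)
  have h2 := Reach.of_step (Step.rot' [] [(c, d)] (a * b * a⁻¹) a⁻¹)
  have h3 := Reach.of_step (Step.sl [] [] (a * b * a⁻¹ * a⁻¹ * (a * b * a⁻¹)⁻¹)
    (a * b * a⁻¹)⁻¹ c d)
  have e : (a * b * a⁻¹)⁻¹ * (a * b * a⁻¹ * a⁻¹ * (a * b * a⁻¹)⁻¹)⁻¹ * (a * b * a⁻¹)⁻¹⁻¹ * c =
      a * c := by group
  rw [e] at h3
  simp only [List.nil_append] at h1 h2 h3
  exact ⟨[(a * b * a⁻¹ * a⁻¹ * (a * b * a⁻¹)⁻¹, a * c * d * c⁻¹ * (a * b * a⁻¹)⁻¹)],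
    (h1.trans h2).trans h3⟩

/-- the entries used in the product sets -/
def yset (C : List (Γ × Γ)) : Set Γ := {x | ∃ p ∈ C, x = p.1 ∨ x = p.2⁻¹}

theorem Ext.mem {C : List (Γ × Γ)} {p : Γ × Γ} (hp : p ∈ C) : Ext C [p] := by
  obtain ⟨s, t, rfl⟩ := List.append_of_mem hp
  have h1 := Ext.drop_left s (p :: t)
  have h2 := Ext.drop_right [p] t
  exact h1.trans h2

theorem Ext.yset {C : List (Γ × Γ)} {x : Γ} (hx : x ∈ yset C) : ∃ y, Ext C [(x, y)] := by
  obtain ⟨⟨c, d⟩, hp, hx⟩ := hx
  rcases hx with rfl | rfl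
  · exact ⟨d, Ext.mem hp⟩
  · exact ⟨_, (Ext.mem hp).trans (Ext.rot c d)⟩

theorem Ext.prods (Cs : List (List (Γ × Γ))) (g : Γ) (hg : g ∈ prods (Cs.map Sc.yset)) :
    g = 1 ∨ ∃ y, Ext Cs.flatten [(g, y)] := by
  induction Cs generalizing g with
  | nil => left; exact hg
  | cons C Cs ih =>
    have h1 : Sc.prods ((C :: Cs).map Sc.yset) =
        insert 1 (Sc.yset C) * Sc.prods (Cs.map Sc.yset) := by
      unfold Sc.prods
      rw [List.map_cons, List.map_cons, List.prod_cons]
    rw [h1] at hg
    obtain ⟨y1, hy1, h, hh, rfl⟩ := hg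
    simp only
    rw [List.flatten_cons]
    rcases ih h hh with rfl | ⟨y, hy⟩
    · rcases hy1 with rfl | hy1
      · left; rw [one_mul]
      · right
        obtain ⟨y', hy'⟩ := Ext.yset hy1
        rw [mul_one]
        exact ⟨y', (Ext.drop_right C Cs.flatten).trans hy'⟩
    · right
      rcases hy1 with rfl | hy1
      · rw [one_mul]
        exact ⟨y, (Ext.drop_left C Cs.flatten).trans hy⟩
      · obtain ⟨y', hy'⟩ := Ext.yset hy1
        exact ⟨y, (hy'.append hy).trans (Ext.merge y1 y' h y)⟩

/-- naturality of moves -/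
theorem Step.map {Δ : Type*} [Group Δ] (φ : Γ →* Δ) {L L' : List (Γ × Γ)} (h : Step L L') :
    Step (L.map (Prod.map φ φ)) (L'.map (Prod.map φ φ)) := by
  cases h with
  | tw u v x y => simpa using Step.tw (u.map (Prod.map φ φ)) (v.map (Prod.map φ φ)) (φ x) (φ y)
  | tw' u v x y => simpa using Step.tw' (u.map (Prod.map φ φ)) (v.map (Prod.map φ φ)) (φ x) (φ y)
  | rot u v x y => simpa using Step.rot (u.map (Prod.map φ φ)) (v.map (Prod.map φ φ)) (φ x) (φ y)
  | rot' u v x y =>
    simpa using Step.rot' (u.map (Prod.map φ φ)) (v.map (Prod.map φ φ)) (φ x) (φ y)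
  | sl u v a b c d =>
    simpa using Step.sl (u.map (Prod.map φ φ)) (v.map (Prod.map φ φ)) (φ a) (φ b) (φ c) (φ d)
  | sl' u v a b c d =>
    simpa using Step.sl' (u.map (Prod.map φ φ)) (v.map (Prod.map φ φ)) (φ a) (φ b) (φ c) (φ d)
  | br u v a b c d =>
    simpa using Step.br (u.map (Prod.map φ φ)) (v.map (Prod.map φ φ)) (φ a) (φ b) (φ c) (φ d)
  | br' u v a b c d =>
    simpa using Step.br' (u.map (Prod.map φ φ)) (v.map (Prod.map φ φ)) (φ a) (φ b) (φ c) (φ d)

theorem Reach.map {Δ : Type*} [Group Δ] (φ : Γ →* Δ) {L L' : List (Γ × Γ)} (h : Reach L L') :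
    Reach (L.map (Prod.map φ φ)) (L'.map (Prod.map φ φ)) := by
  induction h with
  | refl => exact Reach.refl _
  | tail _ hs ih => exact Relation.ReflTransGen.tail ih (hs.map φ)

theorem entries_append (L L' : List (Γ × Γ)) : entries (L ++ L') = entries L ∪ entries L' := by
  ext z
  simp only [entries, Set.mem_ofPred_eq, List.mem_append, Set.mem_union]
  constructor
  · rintro ⟨p, hp | hp, h⟩
    · exact Or.inl ⟨p, hp, h⟩
    · exact Or.inr ⟨p, hp, h⟩
  · rintro (⟨p, hp, h⟩ | ⟨p, hp, h⟩)
    · exact ⟨p, Or.inl hp, h⟩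
    · exact ⟨p, Or.inr hp, h⟩

theorem entries_cons (p : Γ × Γ) (L : List (Γ × Γ)) : entries (p :: L) = {p.1, p.2} ∪ entries L := by
  ext z
  simp only [entries, Set.mem_ofPred_eq, List.mem_cons, Set.mem_union, Set.mem_insert_iff,
    Set.mem_singleton_iff]
  constructor
  · rintro ⟨q, rfl | hq, h⟩
    · exact Or.inl h
    · exact Or.inr ⟨q, hq, h⟩
  · rintro (h | ⟨q, hq, h⟩)
    · exact ⟨p, Or.inl rfl, h⟩
    · exact ⟨q, Or.inr hq, h⟩

theorem entries_nil : entries ([] : List (Γ × Γ)) = ∅ := by
  ext z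
  simp [entries]

theorem closure_context (l₁ l₂ A B : List (Γ × Γ))
    (h : ∀ z ∈ entries B, z ∈ Subgroup.closure (entries A)) :
    Subgroup.closure (entries (l₁ ++ (B ++ l₂))) ≤ Subgroup.closure (entries (l₁ ++ (A ++ l₂))) := by
  rw [Subgroup.closure_le]
  intro z hz
  rw [entries_append, entries_append] at hz
  rcases hz with hz | hz | hz
  · apply Subgroup.subset_closure
    rw [entries_append]
    exact Or.inl hz
  · have h1 : Subgroup.closure (entries A) ≤
        Subgroup.closure (entries (l₁ ++ (A ++ l₂))) := by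
      apply Subgroup.closure_mono
      rw [entries_append, entries_append]
      exact (Set.subset_union_left).trans Set.subset_union_right
    exact h1 (h z hz)
  · apply Subgroup.subset_closure
    rw [entries_append, entries_append]
    exact Or.inr (Or.inr hz)

theorem closure_one {x y x' y' : Γ} (h1 : x' ∈ Subgroup.closure {x, y})
    (h2 : y' ∈ Subgroup.closure {x, y}) :
    ∀ z ∈ entries [(x', y')], z ∈ Subgroup.closure (entries [(x, y)]) := by
  intro z hz
  rw [entries_cons, entries_nil, Set.union_empty] at hz ⊢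
  rcases hz with rfl | hz
  · exact h1
  · rw [Set.mem_singleton_iff] at hz
    subst hz
    exact h2

theorem closure_two {a b c d a' b' c' d' : Γ} (h1 : a' ∈ Subgroup.closure {a, b, c, d})
    (h2 : b' ∈ Subgroup.closure {a, b, c, d}) (h3 : c' ∈ Subgroup.closure {a, b, c, d})
    (h4 : d' ∈ Subgroup.closure {a, b, c, d}) :
    ∀ z ∈ entries [(a', b'), (c', d')], z ∈ Subgroup.closure (entries [(a, b), (c, d)]) := by
  intro z hz
  have e : entries [(a, b), (c, d)] = {a, b, c, d} := by
    ext w
    rw [entries_cons, entries_cons, entries_nil]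
    simp only [Set.union_empty, Set.mem_union, Set.mem_insert_iff, Set.mem_singleton_iff]
    tauto
  rw [e]
  rw [entries_cons, entries_cons, entries_nil, Set.union_empty] at hz
  simp only [Set.mem_union, Set.mem_insert_iff, Set.mem_singleton_iff] at hz
  rcases hz with (rfl | rfl) | (rfl | rfl)
  · exact h1
  · exact h2
  · exact h3
  · exact h4

theorem Step.closure_le {L L' : List (Γ × Γ)} (h : Step L L') :
    Subgroup.closure (entries L') ≤ Subgroup.closure (entries L) := by
  cases h with
  | tw u v x y =>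
    refine closure_context u v [(x, y)] [(x, y * x)] (closure_one ?_ ?_)
    all_goals
      have hx : x ∈ Subgroup.closure {x, y} := Subgroup.subset_closure (by simp)
      have hy : y ∈ Subgroup.closure {x, y} := Subgroup.subset_closure (by simp)
      repeat' first
        | exact hx
        | exact hy
        | apply Subgroup.mul_mem
        | apply Subgroup.inv_mem
  | tw' u v x y =>
    refine closure_context u v [(x, y)] [(x, y * x⁻¹)] (closure_one ?_ ?_)
    all_goals
      have hx : x ∈ Subgroup.closure {x, y} := Subgroup.subset_closure (by simp)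
      have hy : y ∈ Subgroup.closure {x, y} := Subgroup.subset_closure (by simp)
      repeat' first
        | exact hx
        | exact hy
        | apply Subgroup.mul_mem
        | apply Subgroup.inv_mem
  | rot u v x y =>
    refine closure_context u v [(x, y)] [(y⁻¹, y * x * y⁻¹)] (closure_one ?_ ?_)
    all_goals
      have hx : x ∈ Subgroup.closure {x, y} := Subgroup.subset_closure (by simp)
      have hy : y ∈ Subgroup.closure {x, y} := Subgroup.subset_closure (by simp)
      repeat' first
        | exact hx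
        | exact hy
        | apply Subgroup.mul_mem
        | apply Subgroup.inv_mem
  | rot' u v x y =>
    refine closure_context u v [(x, y)] [(x * y * x⁻¹, x⁻¹)] (closure_one ?_ ?_)
    all_goals
      have hx : x ∈ Subgroup.closure {x, y} := Subgroup.subset_closure (by simp)
      have hy : y ∈ Subgroup.closure {x, y} := Subgroup.subset_closure (by simp)
      repeat' first
        | exact hx
        | exact hy
        | apply Subgroup.mul_mem
        | apply Subgroup.inv_mem
  | sl u v a b c d =>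
    refine closure_context u v [(a, b), (c, d)]
      [(a, b * a⁻¹ * b⁻¹ * c * d * c⁻¹ * b), (b * a⁻¹ * b⁻¹ * c, d)] (closure_two ?_ ?_ ?_ ?_)
    all_goals
      have ha : a ∈ Subgroup.closure {a, b, c, d} := Subgroup.subset_closure (by simp)
      have hb : b ∈ Subgroup.closure {a, b, c, d} := Subgroup.subset_closure (by simp)
      have hc : c ∈ Subgroup.closure {a, b, c, d} := Subgroup.subset_closure (by simp)
      have hd : d ∈ Subgroup.closure {a, b, c, d} := Subgroup.subset_closure (by simp)
      repeat' first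
        | exact ha
        | exact hb
        | exact hc
        | exact hd
        | apply Subgroup.mul_mem
        | apply Subgroup.inv_mem
  | sl' u v a b c d =>
    refine closure_context u v [(a, b), (c, d)]
      [(a, c * d⁻¹ * c⁻¹ * b * a), (c * d⁻¹ * c⁻¹ * b * a * b⁻¹ * c * d, d)]
      (closure_two ?_ ?_ ?_ ?_)
    all_goals
      have ha : a ∈ Subgroup.closure {a, b, c, d} := Subgroup.subset_closure (by simp)
      have hb : b ∈ Subgroup.closure {a, b, c, d} := Subgroup.subset_closure (by simp)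
      have hc : c ∈ Subgroup.closure {a, b, c, d} := Subgroup.subset_closure (by simp)
      have hd : d ∈ Subgroup.closure {a, b, c, d} := Subgroup.subset_closure (by simp)
      repeat' first
        | exact ha
        | exact hb
        | exact hc
        | exact hd
        | apply Subgroup.mul_mem
        | apply Subgroup.inv_mem
  | br u v a b c d =>
    refine closure_context u v [(a, b), (c, d)]
      [(a * b * a⁻¹ * b⁻¹ * c * (a * b * a⁻¹ * b⁻¹)⁻¹,
        a * b * a⁻¹ * b⁻¹ * d * (a * b * a⁻¹ * b⁻¹)⁻¹), (a, b)] (closure_two ?_ ?_ ?_ ?_)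
    all_goals
      have ha : a ∈ Subgroup.closure {a, b, c, d} := Subgroup.subset_closure (by simp)
      have hb : b ∈ Subgroup.closure {a, b, c, d} := Subgroup.subset_closure (by simp)
      have hc : c ∈ Subgroup.closure {a, b, c, d} := Subgroup.subset_closure (by simp)
      have hd : d ∈ Subgroup.closure {a, b, c, d} := Subgroup.subset_closure (by simp)
      repeat' first
        | exact ha
        | exact hb
        | exact hc
        | exact hd
        | apply Subgroup.mul_mem
        | apply Subgroup.inv_mem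
  | br' u v a b c d =>
    refine closure_context u v [(a, b), (c, d)]
      [(c, d), ((c * d * c⁻¹ * d⁻¹)⁻¹ * a * (c * d * c⁻¹ * d⁻¹),
        (c * d * c⁻¹ * d⁻¹)⁻¹ * b * (c * d * c⁻¹ * d⁻¹))] (closure_two ?_ ?_ ?_ ?_)
    all_goals
      have ha : a ∈ Subgroup.closure {a, b, c, d} := Subgroup.subset_closure (by simp)
      have hb : b ∈ Subgroup.closure {a, b, c, d} := Subgroup.subset_closure (by simp)
      have hc : c ∈ Subgroup.closure {a, b, c, d} := Subgroup.subset_closure (by simp)
      have hd : d ∈ Subgroup.closure {a, b, c, d} := Subgroup.subset_closure (by simp)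
      repeat' first
        | exact ha
        | exact hb
        | exact hc
        | exact hd
        | apply Subgroup.mul_mem
        | apply Subgroup.inv_mem

theorem Reach.closure_eq {L L' : List (Γ × Γ)} (h : Reach L L') :
    Subgroup.closure (entries L') = Subgroup.closure (entries L) := by
  induction h with
  | refl => rfl
  | tail _ hs ih => exact (le_antisymm hs.closure_le hs.symm.closure_le).trans ih

end Helper12.Sc
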