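import Pool.Agent.Helper12.ScSpec

/-!
Matrices of finite order satisfy the relation `Emat u (σ u) (σ' u) = 0`, and the converse
spectral statement.
-/

namespace Helper12.Sc

open Polynomial Matrix

variable {r : ℕ}

theorem span_eigen (u : Matrix (Fin r) (Fin r) ℂ) (N : ℕ) (hN : 0 < N) (hu : u ^ N = 1) :
    Submodule.span ℂ {x : Fin r → ℂ | ∃ z : ℂ, u *ᵥ x = z • x} = ⊤ := by
  let f : Module.End ℂ (Fin r → ℂ) := Matrix.toLin' u
  have hf : f ^ N = 1 := by
    have h1 : Matrix.toLin' (u ^ N) = f ^ N := Matrix.toLin'_pow u N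
    rw [← h1, hu, Matrix.toLin'_one]
    rfl
  have hss : f.IsSemisimple := by
    apply Module.End.isSemisimple_of_squarefree_aeval_eq_zero (p := (X ^ N - 1 : ℂ[X]))
    · exact (X_pow_sub_one_separable_iff.2 (by exact_mod_cast hN.ne')).squarefree
    · simp [hf]
  have htop := hss.iSup_eigenspace_eq_top
  rw [eq_top_iff, ← htop, iSup_le_iff]
  intro z x hx
  apply Submodule.subset_span
  refine ⟨z, ?_⟩
  rw [Module.End.mem_eigenspace_iff] at hx
  rw [← hx]
  rfl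

theorem root_pow (u : Matrix (Fin r) (Fin r) ℂ) (N : ℕ) (hu : u ^ N = 1) (z : ℂ)
    (hz : u.charpoly.IsRoot z) : z ^ N = 1 := by
  obtain ⟨x, hx0, hx⟩ := exists_eigenvector u z hz
  have h4 := aeval_mulVec u z x hx (X ^ N)
  rw [map_pow, aeval_X, hu, Matrix.one_mulVec, eval_pow, eval_X] at h4
  have h5 : (z ^ N - 1) • x = 0 := by rw [sub_smul, one_smul, ← h4, sub_self]
  rcases smul_eq_zero.1 h5 with h6 | h6
  · exact sub_eq_zero.1 h6
  · exact absurd h6 hx0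

theorem root_map (σ : ℂ →+* ℂ) (u : Matrix (Fin r) (Fin r) ℂ) (z : ℂ)
    (hz : u.charpoly.IsRoot z) : (u.map σ).charpoly.IsRoot (σ z) := by
  rw [Matrix.charpoly_map]
  exact hz.map

theorem root_map' (σ : RingAut ℂ) (u : Matrix (Fin r) (Fin r) ℂ) (z : ℂ)
    (hz : (u.map σ).charpoly.IsRoot z) : ∃ y, u.charpoly.IsRoot y ∧ z = σ y := by
  refine ⟨σ.symm z, ?_, (RingEquiv.apply_symm_apply σ z).symm⟩
  have h1 := root_map (σ.symm : ℂ →+* ℂ) (u.map σ) z hz
  have h2 : (u.map σ).map (σ.symm : ℂ →+* ℂ) = u := by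
    ext i j
    simp
  rw [h2] at h1
  exact h1

/-- the relation satisfied by elements of finite order -/
theorem Emat_of_pow (σ σ' : RingAut ℂ) (N : ℕ) (hN : 0 < N)
    (h : ∀ ζ : ℂ, ζ ^ N = 1 → σ' ζ = σ ζ * ζ ^ 4) (u : Matrix (Fin r) (Fin r) ℂ)
    (hu : u ^ N = 1) : Emat u (u.map σ) (u.map σ') = 0 := by
  apply Emat_eq_zero _ _ _ (span_eigen u N hN hu)
  intro z hz
  have hzN := root_pow u N hu z hz
  apply Spoly_eval_eq_zero _ _ (z ^ 4) (σ z)
  · exact root_map (σ : ℂ →+* ℂ) u z hz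
  · have h1 := root_map (σ' : ℂ →+* ℂ) u z hz
    have h2 : (σ' : ℂ →+* ℂ) z = z ^ 4 * σ z := by
      change σ' z = _
      rw [h z hzN, mul_comm]
    rw [h2] at h1
    exact h1

/-- a homomorphism from the multiplicative group to `ℚ` not killing a given element of infinite
order -/
theorem exists_log (z : ℂ) (hz0 : z ≠ 0) (hz : ∀ n > 0, z ^ n ≠ 1) :
    ∃ c : ℂ → ℚ, (∀ x y, x ≠ 0 → y ≠ 0 → c (x * y) = c x + c y) ∧ c z = 1 := by
  let u : ℂˣ := Units.mk0 z hz0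
  let f : ℤ →+ Additive ℂˣ := zmultiplesHom (Additive ℂˣ) (Additive.ofMul u)
  have hf : Function.Injective f := by
    rw [injective_iff_map_eq_zero]
    intro n hn
    by_contra hne
    have h1 : u ^ n = 1 := by
      have : n • Additive.ofMul u = 0 := hn
      rw [← ofMul_zpow] at this
      exact this
    have h2 : u ^ n.natAbs = 1 := by
      rcases Int.natAbs_eq n with h | h
      · rw [h] at h1
        simpa using h1
      · rw [h] at h1
        simpa using h1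
    apply hz n.natAbs (Int.natAbs_pos.2 hne)
    have h3 := congrArg Units.val h2
    rw [Units.val_pow_eq_pow_val, Units.val_one] at h3
    exact h3
  obtain ⟨h, hh⟩ := (Module.Baer.of_divisible ℚ).extension_property_addMonoidHom f hf
    (Int.castAddHom ℚ)
  refine ⟨fun x => if hx : x ≠ 0 then h (Additive.ofMul (Units.mk0 x hx)) else 0, ?_, ?_⟩
  · intro x y hx hy
    have hxy : x * y ≠ 0 := mul_ne_zero hx hy
    simp only [hx, hy, hxy, ne_eq, not_false_eq_true, dite_true]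
    rw [← map_add, ← ofMul_mul]
    congr 2
    ext
    simp
  · simp only [hz0, ne_eq, not_false_eq_true, dite_true]
    have h1 := DFunLike.congr_fun hh 1
    have h2 : f 1 = Additive.ofMul u := one_zsmul _
    simp only [AddMonoidHom.coe_comp, Function.comp_apply, h2] at h1
    rw [show Units.mk0 z hz0 = u from rfl, h1]
    simp

/-- the converse spectral statement -/
theorem root_of_unity_of_Emat (σ σ' : RingAut ℂ)
    (hfin : ∀ z : ℂ, {w | ∃ τ ∈ Subgroup.closure ({σ, σ'} : Set (RingAut ℂ)), w = τ z}.Finite)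
    (u : Matrix (Fin r) (Fin r) ℂ) (hdet : u.det ≠ 0) (h : Emat u (u.map σ) (u.map σ') = 0)
    (z : ℂ) (hz : u.charpoly.IsRoot z) : ∃ n > 0, z ^ n = 1 := by
  classical
  have hne : ∀ y, u.charpoly.IsRoot y → y ≠ 0 := by
    rintro y hy rfl
    obtain ⟨x, hx0, hx⟩ := exists_eigenvector u 0 hy
    rw [zero_smul] at hx
    exact hdet (Matrix.exists_mulVec_eq_zero_iff.1 ⟨x, hx0, hx⟩)
  by_contra hcon
  push Not at hcon
  obtain ⟨c, hc, hcz⟩ := exists_log z (hne z hz) hcon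
  -- the finite set of conjugates
  let Λ : Set ℂ := ⋃ y ∈ u.charpoly.roots.toFinset,
    {w | ∃ τ ∈ Subgroup.closure ({σ, σ'} : Set (RingAut ℂ)), w = τ y}
  have hΛ : Λ.Finite := Set.Finite.biUnion (Finset.finite_toSet _) (fun y _ => hfin y)
  have hroots : ∀ y, y ∈ u.charpoly.roots.toFinset ↔ u.charpoly.IsRoot y := by
    intro y
    rw [Multiset.mem_toFinset, mem_roots (Matrix.charpoly_monic u).ne_zero]
  have hmem : ∀ y, u.charpoly.IsRoot y → ∀ τ ∈ Subgroup.closure ({σ, σ'} : Set (RingAut ℂ)),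
      τ y ∈ Λ := by
    intro y hy τ hτ
    simp only [Λ, Set.mem_iUnion]
    exact ⟨y, (hroots y).2 hy, τ, hτ, rfl⟩
  have hσ : σ ∈ Subgroup.closure ({σ, σ'} : Set (RingAut ℂ)) :=
    Subgroup.subset_closure (Set.mem_insert _ _)
  have hσ' : σ' ∈ Subgroup.closure ({σ, σ'} : Set (RingAut ℂ)) :=
    Subgroup.subset_closure (Set.mem_insert_of_mem _ rfl)
  have hzΛ : z ∈ Λ := hmem z hz 1 (Subgroup.one_mem _)
  obtain ⟨w, hwΛ, hwmax⟩ := Set.exists_max_image Λ (fun w => |c w|) hΛ ⟨z, hzΛ⟩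
  have hw1 : 1 ≤ |c w| := by
    have := hwmax z hzΛ
    rw [hcz, abs_one] at this
    exact this
  simp only [Λ, Set.mem_iUnion] at hwΛ
  obtain ⟨y, hy, τ, hτ, rfl⟩ := hwΛ
  rw [hroots] at hy
  have hS := Spoly_root_of_Emat u (u.map σ) (u.map σ') h y hy
  have hy0 := hne y hy
  obtain ⟨μ, hμ, hν⟩ := exists_of_Spoly_eval_eq_zero (u.map σ) (u.map σ') (y ^ 4)
    (pow_ne_zero _ hy0) hS
  obtain ⟨y1, hy1, rfl⟩ := root_map' σ u μ hμ
  obtain ⟨y2, hy2, hy2'⟩ := root_map' σ' u _ hν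
  have h1 : τ (σ y1) ∈ Λ := hmem y1 hy1 (τ * σ) (Subgroup.mul_mem _ hτ hσ)
  have h2 : τ (σ' y2) ∈ Λ := hmem y2 hy2 (τ * σ') (Subgroup.mul_mem _ hτ hσ')
  have hτ0 : ∀ x : ℂ, x ≠ 0 → τ x ≠ 0 := fun x hx => (map_ne_zero_iff τ τ.injective).2 hx
  have hσy1 : σ y1 ≠ 0 := (map_ne_zero_iff σ σ.injective).2 (hne y1 hy1)
  have h3 : τ (σ' y2) = (τ y) ^ 4 * τ (σ y1) := by
    rw [← hy2', map_mul, map_pow]
  have hcpow : ∀ x : ℂ, x ≠ 0 → c (x ^ 4) = 4 * c x := by
    intro x hx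
    have e1 : c (x ^ 4) = c (x * x * (x * x)) := by congr 1; ring
    rw [e1, hc _ _ (mul_ne_zero hx hx) (mul_ne_zero hx hx), hc _ _ hx hx]
    ring
  have h4 : c (τ (σ' y2)) = 4 * c (τ y) + c (τ (σ y1)) := by
    rw [h3, hc _ _ (pow_ne_zero _ (hτ0 y hy0)) (hτ0 _ hσy1), hcpow _ (hτ0 y hy0)]
  have h5 := hwmax _ h1
  have h6 := hwmax _ h2
  have h7 : |4 * c (τ y)| ≤ |c (τ (σ' y2))| + |c (τ (σ y1))| := by
    have : 4 * c (τ y) = c (τ (σ' y2)) - c (τ (σ y1)) := by linarith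
    rw [this]
    exact abs_sub _ _
  rw [abs_mul, abs_of_pos (by norm_num : (0 : ℚ) < 4)] at h7
  linarith

end Helper12.Sc
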