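import Pool.Agent.Helper12.ScSlot
import Pool.Agent.Helper12.ScEscape

/-!
The main theorem on lists of pairs of matrices, assembled from the escape theorem, the Jordan type
theorem, the handle finding lemma and the finiteness of finitely generated torsion linear groups.
-/

namespace Helper12.Sc

open Polynomial Matrix

theorem exists_blocks {α : Type*} (k m : ℕ) (L : List α) (h : m * k ≤ L.length) :
    ∃ (Cs : List (List α)) (rest : List α), L = Cs.flatten ++ rest ∧ Cs.length = m ∧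
      ∀ C ∈ Cs, C.length = k := by
  induction m generalizing L with
  | zero => exact ⟨[], L, by simp, rfl, by simp⟩
  | succ m ih =>
    have hk : k ≤ L.length := le_trans (by nlinarith) h
    obtain ⟨Cs, rest, h1, h2, h3⟩ := ih (L.drop k) (by
      rw [List.length_drop]
      have : (m + 1) * k = m * k + k := by ring
      omega)
    refine ⟨L.take k :: Cs, rest, ?_, by simp [h2], ?_⟩
    · rw [List.flatten_cons, List.append_assoc, ← h1, List.take_append_drop]
    · intro C hC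
      rcases List.mem_cons.1 hC with rfl | hC
      · rw [List.length_take]
        omega
      · exact h3 C hC

theorem yset_finite {Γ : Type*} [Group Γ] (C : List (Γ × Γ)) : (yset C).Finite := by
  have : yset C = (fun p : Γ × Γ => p.1) '' {p | p ∈ C} ∪ (fun p : Γ × Γ => p.2⁻¹) '' {p | p ∈ C} := by
    ext z
    constructor
    · rintro ⟨p, hp, rfl | rfl⟩
      · exact Or.inl ⟨p, hp, rfl⟩
      · exact Or.inr ⟨p, hp, rfl⟩
    · rintro (⟨p, hp, rfl⟩ | ⟨p, hp, rfl⟩)
      · exact ⟨p, hp, Or.inl rfl⟩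
      · exact ⟨p, hp, Or.inr rfl⟩
  rw [this]
  exact ((List.finite_toSet C).image _).union ((List.finite_toSet C).image _)

theorem entries_finite {Γ : Type*} (C : List (Γ × Γ)) : (entries C).Finite := by
  have : entries C = (fun p : Γ × Γ => p.1) '' {p | p ∈ C} ∪ (fun p : Γ × Γ => p.2) '' {p | p ∈ C} := by
    ext z
    constructor
    · rintro ⟨p, hp, rfl | rfl⟩
      · exact Or.inl ⟨p, hp, rfl⟩
      · exact Or.inr ⟨p, hp, rfl⟩
    · rintro (⟨p, hp, rfl⟩ | ⟨p, hp, rfl⟩)
      · exact ⟨p, hp, Or.inl rfl⟩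
      · exact ⟨p, hp, Or.inr rfl⟩
  rw [this]
  exact ((List.finite_toSet C).image _).union ((List.finite_toSet C).image _)

theorem closure_yset {Γ : Type*} [Group Γ] (C : List (Γ × Γ)) :
    Subgroup.closure (yset C) = Subgroup.closure (entries C) := by
  apply le_antisymm
  · rw [Subgroup.closure_le]
    rintro z ⟨p, hp, rfl | rfl⟩
    · exact Subgroup.subset_closure ⟨p, hp, Or.inl rfl⟩
    · exact Subgroup.inv_mem _ (Subgroup.subset_closure ⟨p, hp, Or.inr rfl⟩)
  · rw [Subgroup.closure_le]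
    rintro z ⟨p, hp, rfl | rfl⟩
    · exact Subgroup.subset_closure ⟨p, hp, Or.inl rfl⟩
    · have : (p.2⁻¹)⁻¹ ∈ Subgroup.closure (yset C) :=
        Subgroup.inv_mem _ (Subgroup.subset_closure ⟨p, hp, Or.inr rfl⟩)
      rwa [inv_inv] at this

theorem eq_one_of_charpoly {r : ℕ} (g : GL (Fin r) ℂ)
    (h : (g : Matrix (Fin r) (Fin r) ℂ).charpoly = (X - C 1) ^ r) (hg : IsOfFinOrder g) : g = 1 := by
  obtain ⟨N, hN, hgN⟩ := isOfFinOrder_iff_pow_eq_one.1 hg
  have h1 : (g : Matrix (Fin r) (Fin r) ℂ) ^ N = 1 := by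
    have := congrArg Units.val hgN
    rw [Units.val_pow_eq_pow_val, Units.val_one] at this
    exact this
  have hspan := span_eigen (g : Matrix (Fin r) (Fin r) ℂ) N hN h1
  have hid : ∀ x : Fin r → ℂ, (g : Matrix (Fin r) (Fin r) ℂ) *ᵥ x = x := by
    intro x
    have hx : x ∈ Submodule.span ℂ {x : Fin r → ℂ | ∃ z : ℂ,
        (g : Matrix (Fin r) (Fin r) ℂ) *ᵥ x = z • x} := by rw [hspan]; trivial
    induction hx using Submodule.span_induction with
    | mem y hy =>
      obtain ⟨z, hz⟩ := hy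
      by_cases hy0 : y = 0
      · rw [hy0, Matrix.mulVec_zero]
      · have hroot := isRoot_of_eigenvector _ z y hy0 hz
        rw [h, IsRoot.def, eval_pow, eval_sub, eval_X, eval_C] at hroot
        have hr : r ≠ 0 := by
          rintro rfl
          exact hy0 (Subsingleton.elim y 0)
        have hz1 : z = 1 := sub_eq_zero.1 ((pow_eq_zero_iff hr).1 hroot)
        rw [hz, hz1, one_smul]
    | zero => rw [Matrix.mulVec_zero]
    | add a b _ _ ha hb => rw [Matrix.mulVec_add, ha, hb]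
    | smul c a _ ha => rw [Matrix.mulVec_smul, ha]
  apply Units.ext
  ext i j
  have := congrFun (hid (Pi.single j 1)) i
  rw [Matrix.mulVec_single_one] at this
  rw [Units.val_one, Matrix.one_apply]
  simpa [Pi.single_apply] using this

/-- lifting a list to the generated subgroup -/
theorem exists_lift {Γ : Type*} [Group Γ] (H : Subgroup Γ) (C : List (Γ × Γ))
    (h : ∀ z ∈ entries C, z ∈ H) :
    ∃ B : List (H × H), B.map (Prod.map H.subtype H.subtype) = C := by
  induction C with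
  | nil => exact ⟨[], rfl⟩
  | cons p C ih =>
    obtain ⟨B, hB⟩ := ih (fun z hz => h z (by rw [entries_cons]; exact Or.inr hz))
    refine ⟨(⟨p.1, h _ (by rw [entries_cons]; simp)⟩, ⟨p.2, h _ (by rw [entries_cons]; simp)⟩) :: B,
      ?_⟩
    rw [List.map_cons, hB]
    rfl

section Main

variable (r : ℕ)
  (hbb : ∃ J : ℕ, ∀ H : Subgroup (GL (Fin r) ℂ),
    (∃ N > 0, ∀ h ∈ H, ∀ z : ℂ, (h : Matrix (Fin r) (Fin r) ℂ).charpoly.IsRoot z → z ^ N = 1) →
    ∃ K : Subgroup H, K.Normal ∧ K.index ≠ 0 ∧ K.index ≤ J ∧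
      ∃ χ : Fin (r ^ 2) → (K →* ℂˣ), (∀ i k, IsOfFinOrder (χ i k)) ∧
        ∀ k : K, (∀ i, χ i k = 1) →
          (((k : H) : GL (Fin r) ℂ) : Matrix (Fin r) (Fin r) ℂ).charpoly = (X - C 1) ^ r)
  (hfh : ∀ (H : Subgroup (GL (Fin r) ℂ)) (K : Subgroup H) [K.Normal] (J : ℕ)
    (_ : K.index ≠ 0) (_ : K.index ≤ J) (D : ℕ) (χ : Fin D → (K →* ℂˣ))
    (_ : ∀ i k, IsOfFinOrder (χ i k)) (B : List (H × H))
    (_ : (J + 1) ^ 2 * 4 ^ D ≤ B.length),
    ∃ (junk : List (H × H)) (p : H × H), Reach B (junk ++ [p]) ∧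
      ∃ (h1 : p.1 ∈ K) (h2 : p.2 ∈ K), ∀ i, χ i ⟨p.1, h1⟩ = 1 ∧ χ i ⟨p.2, h2⟩ = 1)
  (hfb : ∀ (H : Subgroup (GL (Fin r) ℂ)), H.FG →
    (∀ h ∈ H, ∀ z : ℂ, (h : Matrix (Fin r) (Fin r) ℂ).charpoly.IsRoot z → ∃ n > 0, z ^ n = 1) →
    ∃ N > 0, ∀ h ∈ H, ∀ z : ℂ, (h : Matrix (Fin r) (Fin r) ℂ).charpoly.IsRoot z → z ^ N = 1)
  (hft : ∀ (H : Subgroup (GL (Fin r) ℂ)), H.FG → (∀ h ∈ H, IsOfFinOrder h) → Finite H)

include hbb hfh hfb hft in
theorem main_of : ∃ g₀ : ℕ, ∀ L : List (GL (Fin r) ℂ × GL (Fin r) ℂ), g₀ ≤ L.length →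
    (∀ L', Reach L L' → ∀ p ∈ L', IsOfFinOrder p.1) →
    Finite (Subgroup.closure (entries L)) := by
  obtain ⟨m, hm⟩ := escape r
  obtain ⟨J, hJ⟩ := hbb
  refine ⟨m * ((J + 1) ^ 2 * 4 ^ (r ^ 2)), ?_⟩
  intro L hlen htor
  obtain ⟨Cs, rest, hL, hCs, hk⟩ := exists_blocks ((J + 1) ^ 2 * 4 ^ (r ^ 2)) m L hlen
  -- finite order of the products
  have hExt : ∀ x y, Ext L [(x, y)] → IsOfFinOrder x := by
    rintro x y ⟨junk, hj⟩
    exact htor _ hj (x, y) (by simp)
  have hprods : ∀ g ∈ prods (Cs.map yset), IsOfFinOrder g := by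
    intro g hg
    rcases Ext.prods Cs g hg with rfl | ⟨y, hy⟩
    · exact IsOfFinOrder.one
    · apply hExt g y
      rw [hL]
      exact (Ext.drop_right Cs.flatten rest).trans hy
  obtain ⟨Y, hY, hroots⟩ := hm (Cs.map yset) (by rw [List.length_map, hCs])
    (by
      intro Y hY
      obtain ⟨C, -, rfl⟩ := List.mem_map.1 hY
      exact yset_finite C) hprods
  obtain ⟨C, hC, rfl⟩ := List.mem_map.1 hY
  rw [closure_yset] at hroots
  set H := Subgroup.closure (entries C) with hH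
  have hHfg : H.FG := by
    rw [Subgroup.fg_iff]
    exact ⟨entries C, rfl, entries_finite C⟩
  obtain ⟨K, hKn, hKi, hKJ, χ, hχ, hχ1⟩ := hJ H (hfb H hHfg hroots)
  obtain ⟨B, hB⟩ := exists_lift H C (fun z hz => Subgroup.subset_closure hz)
  have hBlen : B.length = (J + 1) ^ 2 * 4 ^ (r ^ 2) := by
    rw [← hk C hC, ← hB, List.length_map]
  obtain ⟨junk, p, hreach, hp1, hp2, hp⟩ := hfh H K J hKi hKJ (r ^ 2) χ hχ B (by rw [hBlen])
  -- transport to the ambient list
  obtain ⟨s, t, hst⟩ := List.append_of_mem hC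
  have hLC : L = s.flatten ++ C ++ (t.flatten ++ rest) := by
    rw [hL, hst]
    simp
  have hreach2 := (hreach.map H.subtype)
  rw [hB, List.map_append] at hreach2
  have hreach3 := hreach2.context s.flatten (t.flatten ++ rest)
  rw [← hLC] at hreach3
  have hq1 : IsOfFinOrder (p.1 : GL (Fin r) ℂ) :=
    htor _ hreach3 (Prod.map H.subtype H.subtype p) (by simp)
  have hq2 : IsOfFinOrder (p.2 : GL (Fin r) ℂ) := by
    have h1 : Ext L [((p.1 : GL (Fin r) ℂ), (p.2 : GL (Fin r) ℂ))] := by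
      have h2 : Ext L (s.flatten ++ (junk.map (Prod.map H.subtype H.subtype) ++
        [p].map (Prod.map H.subtype H.subtype)) ++ (t.flatten ++ rest)) := Ext.of_reach hreach3
      refine h2.trans ?_
      refine (Ext.drop_right _ _).trans ?_
      rw [← List.append_assoc]
      exact Ext.drop_left _ _
    have h2 := h1.trans (Ext.rot (p.1 : GL (Fin r) ℂ) (p.2 : GL (Fin r) ℂ))
    have h3 := hExt _ _ h2
    exact isOfFinOrder_inv_iff.1 h3
  have e1 : (p.1 : GL (Fin r) ℂ) = 1 :=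
    eq_one_of_charpoly _ (hχ1 ⟨p.1, hp1⟩ (fun i => (hp i).1)) hq1
  have e2 : (p.2 : GL (Fin r) ℂ) = 1 :=
    eq_one_of_charpoly _ (hχ1 ⟨p.2, hp2⟩ (fun i => (hp i).2)) hq2
  have hpm : Prod.map H.subtype H.subtype p = (1, 1) := Prod.ext e1 e2
  rw [List.map_singleton, hpm] at hreach3
  set u := s.flatten ++ junk.map (Prod.map H.subtype H.subtype) with hu
  set w := t.flatten ++ rest with hw
  have hreach4 : Reach L (u ++ (1, 1) :: w) := by
    simpa [hu, hw] using hreach3
  have hreach5 : Reach L ((1, 1) :: (u ++ w)) := hreach4.trans (slot_front u w 1).symm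
  have hcl : Subgroup.closure (entries L) = Subgroup.closure (entries (u ++ w)) := by
    rw [← hreach5.closure_eq, entries_cons]
    apply le_antisymm
    · rw [Subgroup.closure_le]
      rintro z (hz | hz)
      · have : z = 1 := by simpa using hz
        rw [this]
        exact Subgroup.one_mem _
      · exact Subgroup.subset_closure hz
    · exact Subgroup.closure_mono Set.subset_union_right
  apply hft
  · rw [Subgroup.fg_iff]
    exact ⟨entries L, rfl, entries_finite L⟩
  · intro h hh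
    rw [hcl] at hh
    have h1 := hreach5.trans (slot_all (u ++ w) h hh)
    have h2 : Ext L [((1 : GL (Fin r) ℂ), h)] :=
      (Ext.of_reach h1).trans (Ext.mem (by simp))
    have h3 := hExt _ _ (h2.trans (Ext.rot 1 h))
    exact isOfFinOrder_inv_iff.1 h3

end Main

end Helper12.Sc
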