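import Pool.Agent.Helper12.ScExt

/-!
A handle with trivial entries can be given any second entry of the generated group.
-/

namespace Helper12.Sc

variable {Γ : Type*} [Group Γ]

theorem slot_move (u w : List (Γ × Γ)) (h c d : Γ) :
    Reach (u ++ (1, h) :: (c, d) :: w) (u ++ (c, d) :: (1, h) :: w) := by
  have := Reach.of_step (Step.br u w 1 h c d)
  simpa using this

theorem slot_front (u w : List (Γ × Γ)) (h : Γ) :
    Reach ((1, h) :: (u ++ w)) (u ++ (1, h) :: w) := by
  induction u using List.reverseRecOn generalizing w with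
  | nil => exact Reach.refl _
  | append_singleton u p ih =>
    have h1 := ih (p :: w)
    have h2 := slot_move u w h p.1 p.2
    have h3 := h1.trans h2
    simpa using h3

theorem slot_conj (u w : List (Γ × Γ)) (h c d : Γ) :
    Reach (u ++ (1, h) :: (c, d) :: w) (u ++ (1, c * d * c⁻¹ * h) :: (c, d) :: w) := by
  have := Reach.of_step (Step.sl u w 1 h c d)
  have e1 : h * 1⁻¹ * h⁻¹ * c * d * c⁻¹ * h = c * d * c⁻¹ * h := by group
  have e2 : h * 1⁻¹ * h⁻¹ * c = c := by group
  rw [e1, e2] at this
  exact this

theorem slot_left (u w : List (Γ × Γ)) (h c d : Γ) :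
    Reach (u ++ (1, h) :: (c, d) :: w) (u ++ (1, c * h) :: (c, d) :: w) := by
  have h1 := Reach.of_step (Step.rot (u ++ [(1, h)]) w c d)
  have h2 := slot_conj u w h d⁻¹ (d * c * d⁻¹)
  have e : d⁻¹ * (d * c * d⁻¹) * d⁻¹⁻¹ * h = c * h := by group
  rw [e] at h2
  have h3 := (Reach.of_step (Step.rot (u ++ [(1, c * h)]) w c d)).symm
  simp only [List.append_assoc, List.singleton_append] at h1 h3
  exact (h1.trans h2).trans h3

/-- every element of the group generated by the other entries can be put into the slot -/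
theorem slot_all (O : List (Γ × Γ)) (h : Γ) (hh : h ∈ Subgroup.closure (entries O)) :
    Reach ((1, 1) :: O) ((1, h) :: O) := by
  have hc : ∀ c d h : Γ, (c, d) ∈ O → Reach ((1, h) :: O) ((1, c * h) :: O) := by
    intro c d h hcd
    obtain ⟨s, t, rfl⟩ := List.append_of_mem hcd
    have h1 := slot_front s ((c, d) :: t) h
    have h2 := slot_left s t h c d
    have h3 := (slot_front s ((c, d) :: t) (c * h)).symm
    exact (h1.trans h2).trans h3
  have he : ∀ c d h : Γ, (c, d) ∈ O → Reach ((1, h) :: O) ((1, c * d * c⁻¹ * h) :: O) := by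
    intro c d h hcd
    obtain ⟨s, t, rfl⟩ := List.append_of_mem hcd
    have h1 := slot_front s ((c, d) :: t) h
    have h2 := slot_conj s t h c d
    have h3 := (slot_front s ((c, d) :: t) (c * d * c⁻¹ * h)).symm
    exact (h1.trans h2).trans h3
  have hd : ∀ c d h : Γ, (c, d) ∈ O → Reach ((1, h) :: O) ((1, d * h) :: O) := by
    intro c d h hcd
    have h1 := hc c d h hcd
    have h2 := he c d (c * h) hcd
    have e1 : c * d * c⁻¹ * (c * h) = c * (d * h) := by group
    rw [e1] at h2
    have h3 := (hc c d (d * h) hcd).symm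
    exact (h1.trans h2).trans h3
  have hgen : ∀ z ∈ entries O, ∀ h : Γ, Reach ((1, h) :: O) ((1, z * h) :: O) := by
    rintro z ⟨p, hp, hz⟩ h
    rcases hz with rfl | rfl
    · exact hc p.1 p.2 h hp
    · exact hd p.1 p.2 h hp
  induction hh using Subgroup.closure_induction_left with
  | one => exact Reach.refl _
  | mul_left x hx y _ ih => exact ih.trans (hgen x hx y)
  | inv_mul_cancel x hx y _ ih =>
    have h1 := (hgen x hx (x⁻¹ * y)).symm
    rw [mul_inv_cancel_left] at h1
    exact ih.trans h1

end Helper12.Sc
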