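import Pool.Agent.Helper12.ScAuts

/-!
The matrix polynomial vanishing at matrices of finite order and its spectral meaning.
-/

namespace Helper12.Sc

open Polynomial Matrix

section Gen

variable {R S : Type*} [CommRing R] [CommRing S] {r : ℕ}

/-- the polynomial with roots `w_k / v_l` (up to normalisation), for the eigenvalues of `v`, `w` -/
noncomputable def Spoly (v w : Matrix (Fin r) (Fin r) R) : R[X] :=
  (aeval ((X : R[X]) • v.map C) w.charpoly).det

/-- evaluation of `Spoly v w` at `u ^ 4` -/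
noncomputable def Emat (u v w : Matrix (Fin r) (Fin r) R) : Matrix (Fin r) (Fin r) R :=
  aeval (u ^ 4) (Spoly v w)

theorem Spoly_map (f : R →+* S) (v w : Matrix (Fin r) (Fin r) R) :
    Spoly (v.map f) (w.map f) = (Spoly v w).map f := by
  unfold Spoly
  have h1 : (mapRingHom f) (aeval ((X : R[X]) • v.map C) w.charpoly).det =
      ((mapRingHom f).mapMatrix (aeval ((X : R[X]) • v.map C) w.charpoly)).det :=
    RingHom.map_det _ _
  rw [← coe_mapRingHom, h1]
  congr 1
  have h2 : (algebraMap S (Matrix (Fin r) (Fin r) S[X])).comp f =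
      ((mapRingHom f).mapMatrix).comp (algebraMap R (Matrix (Fin r) (Fin r) R[X])) := by
    ext a i j
    simp [Matrix.algebraMap_matrix_apply, apply_ite (Polynomial.map f)]
  rw [map_aeval_eq_aeval_map h2, charpoly_map]
  congr 1
  ext i j
  simp

theorem Emat_map (f : R →+* S) (u v w : Matrix (Fin r) (Fin r) R) :
    Emat (u.map f) (v.map f) (w.map f) = (Emat u v w).map f := by
  unfold Emat
  rw [Spoly_map]
  have h2 : (algebraMap S (Matrix (Fin r) (Fin r) S)).comp f =
      (f.mapMatrix).comp (algebraMap R (Matrix (Fin r) (Fin r) R)) := by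
    ext a i j
    simp [Matrix.algebraMap_matrix_apply, apply_ite f]
  have h3 := map_aeval_eq_aeval_map h2 (Spoly v w) (u ^ 4)
  rw [map_pow] at h3
  exact h3.symm

end Gen

section Field

variable {K : Type*} [Field K] {r : ℕ}

theorem exists_eigenvector (u : Matrix (Fin r) (Fin r) K) (z : K) (hz : u.charpoly.IsRoot z) :
    ∃ x : Fin r → K, x ≠ 0 ∧ u *ᵥ x = z • x := by
  rw [IsRoot.def, Matrix.eval_charpoly] at hz
  obtain ⟨x, hx0, hx⟩ := Matrix.exists_mulVec_eq_zero_iff.2 hz
  refine ⟨x, hx0, ?_⟩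
  rw [Matrix.sub_mulVec, sub_eq_zero] at hx
  rw [← hx, Matrix.scalar_apply, Matrix.diagonal_const_mulVec]

theorem isRoot_of_eigenvector (u : Matrix (Fin r) (Fin r) K) (z : K) (x : Fin r → K) (hx : x ≠ 0)
    (h : u *ᵥ x = z • x) : u.charpoly.IsRoot z := by
  rw [IsRoot.def, Matrix.eval_charpoly]
  refine Matrix.exists_mulVec_eq_zero_iff.1 ⟨x, hx, ?_⟩
  rw [Matrix.sub_mulVec, h, Matrix.scalar_apply, Matrix.diagonal_const_mulVec, sub_self]

theorem aeval_mulVec (u : Matrix (Fin r) (Fin r) K) (z : K) (x : Fin r → K)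
    (h : u *ᵥ x = z • x) (p : K[X]) : (aeval u p) *ᵥ x = (p.eval z) • x := by
  induction p using Polynomial.induction_on' with
  | add p q hp hq => rw [map_add, Matrix.add_mulVec, hp, hq, eval_add, add_smul]
  | monomial n a =>
    rw [aeval_monomial, eval_monomial]
    have h1 : ∀ n : ℕ, (u ^ n) *ᵥ x = (z ^ n) • x := by
      intro n
      induction n with
      | zero => simp
      | succ n ih =>
        rw [pow_succ, ← Matrix.mulVec_mulVec, h, Matrix.mulVec_smul, ih, smul_smul, pow_succ,
          mul_comm]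
    rw [← Matrix.mulVec_mulVec, h1, Matrix.mulVec_smul, Algebra.algebraMap_eq_smul_one,
      Matrix.smul_mulVec, Matrix.one_mulVec, smul_smul, mul_comm]

theorem eval_Spoly (v w : Matrix (Fin r) (Fin r) K) (c : K) :
    (Spoly v w).eval c = (aeval (c • v) w.charpoly).det := by
  unfold Spoly
  rw [← coe_evalRingHom, RingHom.map_det]
  congr 1
  have h2 : (algebraMap K (Matrix (Fin r) (Fin r) K)).comp (RingHom.id K) =
      ((evalRingHom c).mapMatrix).comp (algebraMap K (Matrix (Fin r) (Fin r) K[X])) := by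
    ext a i j
    by_cases hij : i = j <;> simp [Matrix.algebraMap_matrix_apply, hij]
  have h3 := map_aeval_eq_aeval_map h2 w.charpoly ((X : K[X]) • v.map C)
  rw [h3, Polynomial.map_id]
  have h4 : (evalRingHom c).mapMatrix ((X : K[X]) • v.map C) = c • v := by
    ext i j
    simp only [RingHom.mapMatrix_apply, Matrix.map_apply, Matrix.smul_apply, smul_eq_mul,
      coe_evalRingHom, eval_mul, eval_X, eval_C]
  rw [h4]

theorem Spoly_eval_eq_zero (v w : Matrix (Fin r) (Fin r) K) (c μ : K)
    (hμ : v.charpoly.IsRoot μ) (hν : w.charpoly.IsRoot (c * μ)) : (Spoly v w).eval c = 0 := by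
  rw [eval_Spoly]
  obtain ⟨x, hx0, hx⟩ := exists_eigenvector v μ hμ
  refine Matrix.exists_mulVec_eq_zero_iff.1 ⟨x, hx0, ?_⟩
  have h1 : (c • v) *ᵥ x = (c * μ) • x := by
    rw [Matrix.smul_mulVec, hx, smul_smul]
  rw [aeval_mulVec _ _ _ h1, hν.eq_zero, zero_smul]

theorem exists_of_Spoly_eval_eq_zero [IsAlgClosed K] (v w : Matrix (Fin r) (Fin r) K) (c : K)
    (hc : c ≠ 0) (h : (Spoly v w).eval c = 0) :
    ∃ μ, v.charpoly.IsRoot μ ∧ w.charpoly.IsRoot (c * μ) := by
  rw [eval_Spoly] at h
  have hs : w.charpoly.Splits := IsAlgClosed.splits _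
  have hprod : w.charpoly = (w.charpoly.roots.map fun a => X - C a).prod :=
    hs.eq_prod_roots_of_monic (Matrix.charpoly_monic w)
  have hdet : ∀ s : Multiset K, (aeval (c • v) (s.map fun a => X - C a).prod).det = 0 →
      ∃ a ∈ s, ((c • v) - algebraMap K (Matrix (Fin r) (Fin r) K) a).det = 0 := by
    intro s
    induction s using Multiset.induction_on with
    | empty => intro h0; simp at h0
    | cons a s ih =>
      intro h0
      rw [Multiset.map_cons, Multiset.prod_cons, map_mul, Matrix.det_mul, mul_eq_zero] at h0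
      rcases h0 with h0 | h0
      · refine ⟨a, Multiset.mem_cons_self a s, ?_⟩
        rw [map_sub, aeval_X, aeval_C] at h0
        exact h0
      · obtain ⟨b, hb, hb'⟩ := ih h0
        exact ⟨b, Multiset.mem_cons_of_mem hb, hb'⟩
  rw [hprod] at h
  obtain ⟨a, ha, ha'⟩ := hdet _ h
  obtain ⟨x, hx0, hx⟩ := Matrix.exists_mulVec_eq_zero_iff.2 ha'
  rw [Matrix.sub_mulVec, sub_eq_zero, Algebra.algebraMap_eq_smul_one,
      Matrix.smul_mulVec, Matrix.smul_mulVec, Matrix.one_mulVec] at hx
  refine ⟨c⁻¹ * a, ?_, ?_⟩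
  · refine isRoot_of_eigenvector v _ x hx0 ?_
    rw [← smul_smul, ← hx, smul_smul, inv_mul_cancel₀ hc, one_smul]
  · rw [mul_inv_cancel_left₀ hc]
    exact (mem_roots (Matrix.charpoly_monic w).ne_zero).1 ha

/-- a root of the characteristic polynomial of `u` gives a root of `Spoly v w` when the matrix
polynomial vanishes -/
theorem Spoly_root_of_Emat (u v w : Matrix (Fin r) (Fin r) K) (h : Emat u v w = 0) (z : K)
    (hz : u.charpoly.IsRoot z) : (Spoly v w).eval (z ^ 4) = 0 := by
  obtain ⟨x, hx0, hx⟩ := exists_eigenvector u z hz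
  have h4 : (u ^ 4) *ᵥ x = (z ^ 4) • x := by
    have := aeval_mulVec u z x hx (X ^ 4)
    simpa using this
  have h5 := aeval_mulVec (u ^ 4) (z ^ 4) x h4 (Spoly v w)
  have h6 : aeval (u ^ 4) (Spoly v w) = 0 := h
  rw [h6, Matrix.zero_mulVec] at h5
  rcases smul_eq_zero.1 h5.symm with h7 | h7
  · exact h7
  · exact absurd h7 hx0

/-- if the eigenvectors of `u` span and `Spoly v w` vanishes at the fourth powers of the
eigenvalues, then the matrix polynomial vanishes -/
theorem Emat_eq_zero (u v w : Matrix (Fin r) (Fin r) K)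
    (hspan : Submodule.span K {x : Fin r → K | ∃ z : K, u *ᵥ x = z • x} = ⊤)
    (h : ∀ z, u.charpoly.IsRoot z → (Spoly v w).eval (z ^ 4) = 0) : Emat u v w = 0 := by
  have key : ∀ x : Fin r → K, (Emat u v w) *ᵥ x = 0 := by
    intro x
    have hx : x ∈ Submodule.span K {x : Fin r → K | ∃ z : K, u *ᵥ x = z • x} := by
      rw [hspan]; trivial
    induction hx using Submodule.span_induction with
    | mem y hy =>
      obtain ⟨z, hz⟩ := hy
      by_cases hy0 : y = 0
      · rw [hy0, Matrix.mulVec_zero]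
      · have hroot := isRoot_of_eigenvector u z y hy0 hz
        have h4 : (u ^ 4) *ᵥ y = (z ^ 4) • y := by
          have := aeval_mulVec u z y hz (X ^ 4)
          simpa using this
        unfold Emat
        rw [aeval_mulVec (u ^ 4) (z ^ 4) y h4, h z hroot, zero_smul]
    | zero => rw [Matrix.mulVec_zero]
    | add a b _ _ ha hb => rw [Matrix.mulVec_add, ha, hb, add_zero]
    | smul c a _ ha => rw [Matrix.mulVec_smul, ha, smul_zero]
  ext i j
  have := congrFun (key (Pi.single j 1)) i
  rw [Matrix.mulVec_single_one] at this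
  simpa using this

end Field

end Helper12.Sc
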