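import Pool.Agent.Helper12.ScMain
import Pool.Agent.Helper12.ScBridge
import Pool.Agent.Helper82.ScJordan
import Pool.Agent.Helper69.ScHandle
import Pool.Agent.Helper88.ScTorsion

/-!
Representations of surface groups of large genus in which the non-separating simple closed curves
have finite order.
-/

namespace Helper12.Sc

open SurfaceGroup

/-- the main theorem for lists -/
theorem main (r : ℕ) : ∃ g₀ : ℕ, ∀ L : List (GL (Fin r) ℂ × GL (Fin r) ℂ), g₀ ≤ L.length →
    (∀ L', Reach L L' → ∀ p ∈ L', IsOfFinOrder p.1) →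
    Finite (Subgroup.closure (entries L)) := by
  refine main_of r (Pool.Agent.Helper82.ScJordan.blackbox r) ?_ (fg_bounded r)
    (fg_torsion_finite r)
  intro H K _ J h1 h2 D χ h3 B h4
  exact Helper69.Sc.find_handle K J h1 h2 D χ h3 B h4

theorem finite_range (r : ℕ) : ∃ g₀ : ℕ, ∀ g : ℕ, g₀ ≤ g →
    ∀ ρ : SurfaceGroup g →* GL (Fin r) ℂ,
      (∀ x : SurfaceGroup g, IsNonseparatingSimple x → IsOfFinOrder (ρ x)) →
      Finite ρ.range := by
  obtain ⟨g₀, h0⟩ := main r
  refine ⟨g₀, ?_⟩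
  intro g hg ρ hρ
  have h1 := h0 ((std g).map (Prod.map ρ ρ)) (by rw [List.length_map, std_length]; exact hg) (by
    intro L' hL' p hp
    obtain ⟨φ, rfl⟩ := reach_aut ρ hL'
    obtain ⟨q, hq, rfl⟩ := List.mem_map.1 hp
    unfold std at hq
    rw [List.mem_ofFn] at hq
    obtain ⟨i, rfl⟩ := hq
    exact hρ _ ⟨φ, i, rfl⟩)
  have h2 : ρ.range ≤ Subgroup.closure (entries ((std g).map (Prod.map ρ ρ))) := by
    rw [MonoidHom.range_eq_map, ← closure_std g, MonoidHom.map_closure]
    apply Subgroup.closure_mono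
    rintro _ ⟨z, ⟨p, hp, hz⟩, rfl⟩
    refine ⟨Prod.map ρ ρ p, List.mem_map_of_mem hp, ?_⟩
    rcases hz with rfl | rfl
    · exact Or.inl rfl
    · exact Or.inr rfl
  exact Finite.of_injective (Subgroup.inclusion h2) (Subgroup.inclusion_injective h2)

/-- a homomorphism from a surface group to a finite group has a finite orbit under
automorphisms -/
theorem finite_orbit {g : ℕ} {Γ : Type*} [Group Γ] (ρ : SurfaceGroup g →* Γ)
    (h : Finite ρ.range) :
    (Set.range fun φ : SurfaceGroup g ≃* SurfaceGroup g => ρ.comp φ.toMonoidHom).Finite := by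
  have hfin : (Set.univ.pi fun _ : Fin g × Bool => (ρ.range : Set Γ)).Finite :=
    Set.Finite.pi fun _ => Set.toFinite _
  refine Set.Finite.of_finite_image (f := fun (ψ : SurfaceGroup g →* Γ) (p : Fin g × Bool) =>
    ψ (PresentedGroup.of p)) (hfin.subset ?_) ?_
  · rintro _ ⟨_, ⟨φ, rfl⟩, rfl⟩ p _
    exact ⟨_, rfl⟩
  · intro ψ _ ψ' _ h
    apply PresentedGroup.ext
    intro p
    exact congrFun h p

end Helper12.Sc
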