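import Pool.Agent.Helper12.ScEscape2
import Pool.Agent.Helper12.ScBridge
import Pool.Agent.Helper82.ScJordan4
import Pool.Agent.Helper69.ScHandle
import Pool.Agent.Helper88.ScTorsion

/-!
Representations of surface groups of large genus in which the non-separating simple closed curves
have finite order: explicit version.
-/

namespace Helper12.Sc

open SurfaceGroup

/-- the number of handles needed to find a trivial handle in a group whose eigenvalues are roots of
unity -/
def handleBound (r : ℕ) : ℕ := (5 ^ (2 * r ^ 2) + 1) ^ 2 * 4 ^ (r ^ 2)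

theorem main_explicit (r : ℕ) (L : List (GL (Fin r) ℂ × GL (Fin r) ℂ))
    (hlen : handleBound r + 2 ^ (9 * r ^ 2) ≤ L.length)
    (htor : ∀ L', Reach L L' → ∀ p ∈ L', IsOfFinOrder p.1) :
    Finite (Subgroup.closure (entries L)) := by
  have hExt : ∀ x y, Ext L [(x, y)] → IsOfFinOrder x := by
    rintro x y ⟨junk, hj⟩
    exact htor _ hj (x, y) (by simp)
  obtain ⟨C₀, C, hLC, hClen, hroots⟩ := escape_explicit r L hExt
  set H := Subgroup.closure (entries C) with hH
  have hHfg : H.FG := by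
    rw [Subgroup.fg_iff]
    exact ⟨entries C, rfl, entries_finite C⟩
  obtain ⟨K, hKn, hKi, hKJ, χ, hχ, hχ1⟩ :=
    Pool.Agent.Helper82.ScJordan.blackbox_explicit r H (fg_bounded r H hHfg hroots)
  obtain ⟨B, hB⟩ := exists_lift H C (fun z hz => Subgroup.subset_closure hz)
  have hBlen : handleBound r ≤ B.length := by
    have h1 : C.length = B.length := by rw [← hB, List.length_map]
    omega
  obtain ⟨junk, p, hreach, hp1, hp2, hp⟩ :=
    Helper69.Sc.find_handle K (5 ^ (2 * r ^ 2)) hKi hKJ (r ^ 2) χ hχ B hBlen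
  -- transport to the ambient list
  have hreach2 := (hreach.map H.subtype)
  rw [hB, List.map_append] at hreach2
  have hreach3 : Reach L (C₀ ++ (junk.map (Prod.map H.subtype H.subtype) ++
      [p].map (Prod.map H.subtype H.subtype))) := hLC.trans (by
    have h0 := hreach2.context C₀ []
    simp only [List.append_nil] at h0
    exact h0)
  have hq1 : IsOfFinOrder (p.1 : GL (Fin r) ℂ) :=
    htor _ hreach3 (Prod.map H.subtype H.subtype p) (by simp)
  have hq2 : IsOfFinOrder (p.2 : GL (Fin r) ℂ) := by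
    have h1 : Ext L [((p.1 : GL (Fin r) ℂ), (p.2 : GL (Fin r) ℂ))] := by
      refine (Ext.of_reach hreach3).trans ?_
      rw [← List.append_assoc]
      exact Ext.drop_left _ _
    have h3 := hExt _ _ (h1.trans (Ext.rot (p.1 : GL (Fin r) ℂ) (p.2 : GL (Fin r) ℂ)))
    exact isOfFinOrder_inv_iff.1 h3
  have e1 : (p.1 : GL (Fin r) ℂ) = 1 :=
    eq_one_of_charpoly _ (hχ1 ⟨p.1, hp1⟩ (fun i => (hp i).1)) hq1
  have e2 : (p.2 : GL (Fin r) ℂ) = 1 :=
    eq_one_of_charpoly _ (hχ1 ⟨p.2, hp2⟩ (fun i => (hp i).2)) hq2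
  have hpm : Prod.map H.subtype H.subtype p = (1, 1) := Prod.ext e1 e2
  rw [List.map_singleton, hpm] at hreach3
  set u := C₀ ++ junk.map (Prod.map H.subtype H.subtype) with hu
  have hreach4 : Reach L (u ++ (1, 1) :: []) := by
    simpa [hu] using hreach3
  have hreach5 : Reach L ((1, 1) :: (u ++ [])) := hreach4.trans (slot_front u [] 1).symm
  rw [List.append_nil] at hreach5
  have hcl : Subgroup.closure (entries L) = Subgroup.closure (entries u) := by
    rw [← hreach5.closure_eq, entries_cons]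
    apply le_antisymm
    · rw [Subgroup.closure_le]
      rintro z (hz | hz)
      · have : z = 1 := by simpa using hz
        rw [this]
        exact Subgroup.one_mem _
      · exact Subgroup.subset_closure hz
    · exact Subgroup.closure_mono Set.subset_union_right
  apply fg_torsion_finite
  · rw [Subgroup.fg_iff]
    exact ⟨entries L, rfl, entries_finite L⟩
  · intro h hh
    rw [hcl] at hh
    have h1 := hreach5.trans (slot_all u h hh)
    have h2 : Ext L [((1 : GL (Fin r) ℂ), h)] :=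
      (Ext.of_reach h1).trans (Ext.mem (by simp))
    have h3 := hExt _ _ (h2.trans (Ext.rot 1 h))
    exact isOfFinOrder_inv_iff.1 h3

theorem bound_le (r : ℕ) (hr : r ≠ 0) : handleBound r + 2 ^ (9 * r ^ 2) ≤ 10 ^ (4 * r ^ 2) := by
  unfold handleBound
  have h1 : 1 ≤ r ^ 2 := Nat.one_le_pow _ _ (Nat.pos_of_ne_zero hr)
  set n := r ^ 2 with hn
  have h2 : (5 ^ (2 * n) + 1) ^ 2 * 4 ^ n = 2500 ^ n + 2 * 100 ^ n + 4 ^ n := by
    have e1 : (5 : ℕ) ^ (2 * n) = 25 ^ n := by rw [pow_mul]; norm_num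
    have e2 : (2500 : ℕ) ^ n = 25 ^ n * 25 ^ n * 4 ^ n := by
      rw [← mul_pow, ← mul_pow]
      norm_num
    have e3 : (100 : ℕ) ^ n = 25 ^ n * 4 ^ n := by rw [← mul_pow]; norm_num
    rw [e1, e2, e3]
    ring
  have h3 : (2 : ℕ) ^ (9 * n) = 512 ^ n := by rw [pow_mul]; norm_num
  have h4 : (10 : ℕ) ^ (4 * n) = 10000 ^ n := by rw [pow_mul]; norm_num
  rw [h2, h3, h4]
  have h5 : (2500 : ℕ) ^ n * 4 ≤ 10000 ^ n := by
    have : (10000 : ℕ) ^ n = 2500 ^ n * 4 ^ n := by rw [← mul_pow]; norm_num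
    rw [this]
    apply Nat.mul_le_mul_left
    calc 4 = 4 ^ 1 := by norm_num
      _ ≤ 4 ^ n := Nat.pow_le_pow_right (by norm_num) h1
  have h6 : (100 : ℕ) ^ n * 2 ≤ 2500 ^ n := by
    have : (2500 : ℕ) ^ n = 100 ^ n * 25 ^ n := by rw [← mul_pow]; norm_num
    rw [this]
    apply Nat.mul_le_mul_left
    calc 2 ≤ 25 ^ 1 := by norm_num
      _ ≤ 25 ^ n := Nat.pow_le_pow_right (by norm_num) h1
  have h7 : (4 : ℕ) ^ n + 512 ^ n ≤ 2500 ^ n := by
    have e1 : (4 : ℕ) ^ n ≤ 512 ^ n := Nat.pow_le_pow_left (by norm_num) n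
    have e2 : (512 : ℕ) ^ n * 2 ≤ 1024 ^ n := by
      have : (1024 : ℕ) ^ n = 512 ^ n * 2 ^ n := by rw [← mul_pow]; norm_num
      rw [this]
      apply Nat.mul_le_mul_left
      calc 2 = 2 ^ 1 := by norm_num
        _ ≤ 2 ^ n := Nat.pow_le_pow_right (by norm_num) h1
    have e3 : (1024 : ℕ) ^ n ≤ 2500 ^ n := Nat.pow_le_pow_left (by norm_num) n
    omega
  omega

theorem finite_range_explicit (r g : ℕ) (hg : 10 ^ (4 * r ^ 2) ≤ g)
    (ρ : SurfaceGroup g →* GL (Fin r) ℂ)
    (hρ : ∀ x : SurfaceGroup g, IsNonseparatingSimple x → IsOfFinOrder (ρ x)) :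
    Finite ρ.range := by
  rcases eq_or_ne r 0 with rfl | hr
  · have : Subsingleton (GL (Fin 0) ℂ) := by
      refine ⟨fun a b => Units.ext (Subsingleton.elim _ _)⟩
    infer_instance
  have h1 := main_explicit r ((std g).map (Prod.map ρ ρ))
    (by rw [List.length_map, std_length]; exact (bound_le r hr).trans hg) (by
    intro L' hL' p hp
    obtain ⟨φ, rfl⟩ := reach_aut ρ hL'
    obtain ⟨q, hq, rfl⟩ := List.mem_map.1 hp
    unfold std at hq
    rw [List.mem_ofFn] at hq
    obtain ⟨i, rfl⟩ := hq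
    exact hρ _ ⟨φ, i, rfl⟩)
  have h2 : ρ.range ≤ Subgroup.closure (entries ((std g).map (Prod.map ρ ρ))) := by
    rw [MonoidHom.range_eq_map, ← closure_std g, MonoidHom.map_closure]
    apply Subgroup.closure_mono
    rintro _ ⟨z, ⟨p, hp, hz⟩, rfl⟩
    refine ⟨Prod.map ρ ρ p, List.mem_map_of_mem hp, ?_⟩
    rcases hz with rfl | rfl
    · exact Or.inl rfl
    · exact Or.inr rfl
  exact Finite.of_injective (Subgroup.inclusion h2) (Subgroup.inclusion_injective h2)

/-- a homomorphism from a surface group with finite image has a finite orbit under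
automorphisms -/
theorem finite_orbit {g : ℕ} {Γ : Type*} [Group Γ] (ρ : SurfaceGroup g →* Γ)
    (h : Finite ρ.range) :
    (Set.range fun φ : SurfaceGroup g ≃* SurfaceGroup g => ρ.comp φ.toMonoidHom).Finite := by
  have hfin : (Set.univ.pi fun _ : Fin g × Bool => (ρ.range : Set Γ)).Finite :=
    Set.Finite.pi fun _ => Set.toFinite _
  refine Set.Finite.of_finite_image (f := fun (ψ : SurfaceGroup g →* Γ) (p : Fin g × Bool) =>
    ψ (PresentedGroup.of p)) (hfin.subset ?_) ?_
  · rintro _ ⟨_, ⟨φ, rfl⟩, rfl⟩ p _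
    exact ⟨_, rfl⟩
  · intro ψ _ ψ' _ h
    apply PresentedGroup.ext
    intro p
    exact congrFun h p

end Helper12.Sc
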